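import Pool.Agent.K4H13.CV.Near

/-!
# Project CV: the coefficient at the level, `a(N) = ε`
-/

set_option autoImplicit false

open Complex Filter Topology Set UpperHalfPlane MatrixGroups CongruenceSubgroup

namespace Pool.Agent.K4H13.CV

open Pool.Agent.TH940 (Fr exp_norm)
open Pool.Agent.Y18.BSD

variable {N : ℕ} [NeZero N]

/-- the `q`-series of `f` as a function on `ℂ` -/
noncomputable def qf (f : Cf2 N) (z : ℂ) : ℂ :=
  ∑' n : ℕ, co f n * Complex.exp (2 * Real.pi * Complex.I * n * z)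

lemma qf_hasSum' (f : Cf2 N) (z : ℍ) : HasSum (fun n : ℕ => co f n *
    Complex.exp (2 * Real.pi * Complex.I * n * (z : ℂ))) (f z) := by
  have h1 : (1 : ℝ) ∈ (Gamma0 N : Subgroup (GL (Fin 2) ℝ)).strictPeriods := by
    rw [strictPeriods_Gamma0]
    exact AddSubgroup.mem_zmultiples 1
  have h2 := ModularForm.hasSum_qExpansion (f := f) one_pos h1 z
  refine hs_congr h2 (fun n => ?_)
  rw [Function.Periodic.qParam, ← Complex.exp_nat_mul]
  unfold co
  congr 2
  push_cast
  ring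

lemma qf_coe (f : Cf2 N) (z : ℍ) : qf f (z : ℂ) = f z := (qf_hasSum' f z).tsum_eq

lemma qf_hasSum (f : Cf2 N) {z : ℂ} (hz : 0 < z.im) : HasSum (fun n : ℕ => co f n *
    Complex.exp (2 * Real.pi * Complex.I * n * z)) (qf f z) := by
  have h := qf_hasSum' f ⟨z, hz⟩
  rw [← qf_coe] at h
  exact h

lemma qf_mod (f : Cf2 N) {a b c d : ℤ} (hdet : a * d - b * c = 1) (hc : (N : ℤ) ∣ c) {z : ℂ}
    (hz : 0 < z.im) : qf f ((a * z + b) / (c * z + d)) = (c * z + d) ^ 2 * qf f z := by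
  let τ : ℍ := ⟨z, hz⟩
  have hτ : (τ : ℂ) = z := rfl
  let γ : SL(2, ℤ) := ⟨!![a, b; c, d], by rw [Matrix.det_fin_two_of]; linarith⟩
  have hγ : γ ∈ Gamma0 N := by
    rw [Gamma0_mem]
    have : γ 1 0 = c := by simp [γ]
    rw [this]
    exact (ZMod.intCast_zmod_eq_zero_iff_dvd c N).2 hc
  have e1 := SlashInvariantForm.slash_action_eqn_SL'' f hγ τ
  have hD : denom (γ : GL (Fin 2) ℝ) τ = c * z + d := by
    rw [ModularGroup.denom_apply]
    simp [γ, hτ]
  have hnum : num (γ : GL (Fin 2) ℝ) τ = a * z + b := by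
    have h00 : (γ 0 0 : ℤ) = a := by simp [γ]
    have h01 : (γ 0 1 : ℤ) = b := by simp [γ]
    show ((((Matrix.SpecialLinearGroup.map (Int.castRingHom ℝ)) γ) 0 0 : ℝ) : ℂ) * τ +
      ((((Matrix.SpecialLinearGroup.map (Int.castRingHom ℝ)) γ) 0 1 : ℝ) : ℂ) = _
    rw [Matrix.SpecialLinearGroup.map_apply_coe, RingHom.mapMatrix_apply, Matrix.map_apply,
      Matrix.map_apply, h00, h01]
    simp [hτ]
  have hact : ((γ • τ : ℍ) : ℂ) = num (γ : GL (Fin 2) ℝ) τ / denom (γ : GL (Fin 2) ℝ) τ := by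
    rw [ModularGroup.sl_moeb]
    exact coe_smul_of_det_pos (by simp) τ
  rw [hnum, hD] at hact
  rw [← hact, qf_coe, e1, hD, ← hτ, qf_coe]
  norm_cast

lemma qf_add_int (f : Cf2 N) (z : ℂ) (j : ℤ) : qf f (z + j) = qf f z := by
  unfold qf
  refine tsum_congr fun n => ?_
  congr 1
  rw [mul_add, Complex.exp_add]
  have : Complex.exp (2 * Real.pi * Complex.I * n * (j : ℂ)) = 1 := by
    rw [Complex.exp_eq_one_iff]
    exact ⟨n * j, by push_cast; ring⟩
  rw [this, mul_one]

lemma im_neg_inv {z : ℂ} (hz : 0 < z.im) : 0 < (-1 / z).im := by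
  have hz0 : z ≠ 0 := by rintro rfl; simp at hz
  have e : (-1 / z).im = z.im / Complex.normSq z := by
    rw [neg_div, one_div, Complex.neg_im, Complex.inv_im]
    ring
  rw [e]
  exact div_pos hz (Complex.normSq_pos.2 hz0)

lemma im_div_nat {z : ℂ} (hz : 0 < z.im) (j : ℕ) {M : ℕ} (hM : 0 < M) :
    0 < ((z + j) / (M : ℂ)).im := by
  rw [Complex.div_natCast_im]
  simp only [Complex.add_im, Complex.natCast_im, add_zero]
  have : (0 : ℝ) < M := by exact_mod_cast hM
  positivity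

lemma im_mul_nat {z : ℂ} (hz : 0 < z.im) {M : ℕ} (hM : 0 < M) :
    0 < ((M : ℂ) * z).im := by
  simp only [Complex.mul_im, Complex.natCast_re, Complex.natCast_im, zero_mul, add_zero]
  have : (0 : ℝ) < M := by exact_mod_cast hM
  positivity

/-- Fricke -/
lemma qf_fricke {f : Cf2 N} {ε : ℝ} (hf : W388.IsNewf N 2 f ε) {z : ℂ} (hz : 0 < z.im) :
    qf f (-1 / z) = -(ε : ℂ) / N * z ^ 2 * qf f (z / N) := by
  have hN : (0 : ℝ) < N := Nat.cast_pos.2 (Nat.pos_of_ne_zero (NeZero.ne N))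
  have hNc : (N : ℂ) ≠ 0 := Nat.cast_ne_zero.2 (NeZero.ne N)
  have hz0 : z ≠ 0 := by rintro rfl; simp at hz
  have hss : ((Real.sqrt N : ℝ) : ℂ) * ((Real.sqrt N : ℝ) : ℂ) = (N : ℂ) := by
    rw [← Complex.ofReal_mul, Real.mul_self_sqrt hN.le]; simp
  have h1 : 0 < (z / (N : ℂ)).im := by
    rw [Complex.div_natCast_im]
    positivity
  have h := hf.fricke ⟨z / N, h1⟩ ⟨-1 / z, im_neg_inv hz⟩ (by
    show -1 / z * ((N : ℂ) * (z / N)) = -1
    field_simp)
  rw [← qf_coe, ← qf_coe] at h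
  change qf f (-1 / z) = (ε : ℂ) * (((Real.sqrt N : ℝ) : ℂ) * (z / N) / Complex.I) ^ (2 : ℤ) *
    qf f (z / N) at h
  rw [h]
  have e : (((Real.sqrt N : ℝ) : ℂ) * (z / N) / Complex.I) ^ (2 : ℤ) = - (z ^ 2 / N) := by
    have e2 : (((Real.sqrt N : ℝ) : ℂ) * (z / N) / Complex.I) ^ (2 : ℤ) =
        (((Real.sqrt N : ℝ) : ℂ) * (z / N) / Complex.I) ^ (2 : ℕ) := by norm_cast
    rw [e2, div_pow, Complex.I_sq, mul_pow, pow_two ((Real.sqrt N : ℝ) : ℂ), hss]
    field_simp
  rw [e]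
  ring

/-- multiplicativity at the level -/
lemma co_level {f : Cf2 N} {ε : ℝ} (hf : W388.IsNewf N 2 f ε) (hp : N.Prime) (m : ℕ) (hm : m ≠ 0) :
    co f (N * m) = co f N * co f m := by
  obtain ⟨k, m', hm', rfl⟩ := Nat.exists_eq_pow_mul_and_not_dvd hm N hp.ne_one
  have hco : Nat.Coprime N m' := (Nat.Prime.coprime_iff_not_dvd hp).2 hm'
  rcases k with _ | k
  · rw [pow_zero, one_mul]
    exact hf.mul N m' hco
  · have h3 : N * (N ^ (k + 1) * m') = N ^ (k + 2) * m' := by ring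
    rw [h3]
    have h4 := hf.mul _ _ (Nat.Coprime.pow_left (k + 2) hco)
    have h5 := hf.mul _ _ (Nat.Coprime.pow_left (k + 1) hco)
    have h6 := hf.pow N k hp
    rw [if_pos dvd_rfl, sub_zero] at h6
    change co f (N ^ (k + 2) * m') = co f (N ^ (k + 2)) * co f m' at h4
    change co f (N ^ (k + 1) * m') = co f (N ^ (k + 1)) * co f m' at h5
    change co f (N ^ (k + 2)) = co f N * co f (N ^ (k + 1)) at h6
    rw [h4, h5, h6]
    ring

/-- the operator `U_N` -/
lemma qf_U {f : Cf2 N} {ε : ℝ} (hf : W388.IsNewf N 2 f ε) (hp : N.Prime) {z : ℂ} (hz : 0 < z.im) :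
    ∑ j ∈ Finset.range N, qf f ((z + j) / N) = N * co f N * qf f z := by
  have hp0 : 0 < N := hp.pos
  have hNc : (N : ℂ) ≠ 0 := Nat.cast_ne_zero.2 (NeZero.ne N)
  have hc0 : co f 0 = 0 := W388.coeff_zero f
  have hinj : Function.Injective (fun n : ℕ => N * n) := fun a b h => Nat.eq_of_mul_eq_mul_left hp0 h
  have h3 : HasSum (fun n : ℕ => ∑ j ∈ Finset.range N, co f n *
      Complex.exp (2 * Real.pi * Complex.I * n * ((z + j) / N)))
      (∑ j ∈ Finset.range N, qf f ((z + j) / N)) :=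
    hasSum_sum fun j _ => qf_hasSum f (im_div_nat hz j hp0)
  have e4 : ∀ n : ℕ, ∑ j ∈ Finset.range N, co f n *
      Complex.exp (2 * Real.pi * Complex.I * n * ((z + j) / N)) =
      co f n * Complex.exp (2 * Real.pi * Complex.I * n * (z / N)) *
        (if N ∣ n then (N : ℂ) else 0) := by
    intro n
    rw [← sum_exp N hp0 n, Finset.mul_sum]
    refine Finset.sum_congr rfl fun j _ => ?_
    rw [mul_assoc (co f n), ← Complex.exp_add]
    congr 2
    ring
  simp only [e4] at h3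
  have h5 : HasSum (fun m : ℕ => co f (N * m) *
      Complex.exp (2 * Real.pi * Complex.I * m * z) * N)
      (∑ j ∈ Finset.range N, qf f ((z + j) / N)) := by
    rw [← hinj.hasSum_iff] at h3
    · refine hs_congr h3 fun m => ?_
      simp only [Function.comp_apply]
      rw [if_pos (dvd_mul_right N m)]
      congr 3
      push_cast
      field_simp
    · intro m hm
      rw [if_neg, mul_zero]
      rintro ⟨k, rfl⟩
      exact hm ⟨k, rfl⟩
  have h6 := (qf_hasSum f hz).mul_left (N * co f N)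
  refine h5.unique (hs_congr h6 fun m => ?_)
  rcases Nat.eq_zero_or_pos m with rfl | hm
  · simp [hc0]
  · rw [co_level hf hp m hm.ne']
    ring

lemma sum_zmod (g : ℕ → ℂ) : ∑ x : ZMod N, g x.val = ∑ j ∈ Finset.range N, g j := by
  refine Finset.sum_nbij' (fun x => x.val) (fun j => (j : ZMod N)) ?_ ?_ ?_ ?_ ?_
  · intro x _
    exact Finset.mem_range.2 (ZMod.val_lt x)
  · intro j _
    exact Finset.mem_univ _
  · intro x _
    exact ZMod.natCast_zmod_val x
  · intro j hj
    exact ZMod.val_cast_of_lt (Finset.mem_range.1 hj)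
  · intro x _
    rfl

lemma qf_conj (f : Cf2 N) {j k : ℕ} (hjk : N ∣ j * k + 1) {z : ℂ} (hz : 0 < z.im) :
    qf f ((-1 / z + j) / N) = z ^ 2 * qf f ((z + k) / N) := by
  obtain ⟨m, hm⟩ := hjk
  have hNc : (N : ℂ) ≠ 0 := Nat.cast_ne_zero.2 (NeZero.ne N)
  have hz0 : z ≠ 0 := by rintro rfl; simp at hz
  have hp0 : 0 < N := Nat.pos_of_ne_zero (NeZero.ne N)
  have hmc : (j : ℂ) * k + 1 = N * m := by exact_mod_cast hm
  have hmz : (j : ℤ) * k + 1 = N * m := by exact_mod_cast hm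
  have h := qf_mod f (a := j) (b := -m) (c := N) (d := -k) (by linarith) dvd_rfl
    (im_div_nat hz k hp0)
  push_cast at h
  have e1 : (N : ℂ) * ((z + k) / N) + -k = z := by
    field_simp
    ring
  rw [e1] at h
  rw [← h]
  congr 1
  field_simp
  linear_combination (-1 : ℂ) * hmc

lemma key {f : Cf2 N} {ε : ℝ} (hf : W388.IsNewf N 2 f ε) (hp : N.Prime) {z : ℂ} (hz : 0 < z.im) :
    (co f N - ε) * qf f (-1 / z) = (co f N - ε) * (z ^ 2 * qf f z) := by
  have : Fact N.Prime := ⟨hp⟩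
  have hNc : (N : ℂ) ≠ 0 := Nat.cast_ne_zero.2 (NeZero.ne N)
  have hz0 : z ≠ 0 := by rintro rfl; simp at hz
  have hε : (ε : ℂ) * ε = 1 := by
    rcases hf.sign with h | h <;> rw [h] <;> push_cast <;> ring
  have hNz : 0 < ((N : ℂ) * z).im := im_mul_nat hz hp.pos
  have h1 := qf_U hf hp (im_neg_inv hz)
  have h2 := qf_U hf hp hz
  rw [← sum_zmod (fun j => qf f ((z + j) / N)), ← Finset.add_sum_erase _ _ (Finset.mem_univ (0 : ZMod N))] at h2
  rw [← sum_zmod (fun j => qf f ((-1 / z + j) / N)),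
    ← Finset.add_sum_erase _ _ (Finset.mem_univ (0 : ZMod N))] at h1
  have h3 : ∑ x ∈ Finset.univ.erase (0 : ZMod N), qf f ((-1 / z + (x.val : ℂ)) / N) =
      z ^ 2 * ∑ x ∈ Finset.univ.erase (0 : ZMod N), qf f ((z + (x.val : ℂ)) / N) := by
    rw [Finset.mul_sum]
    refine Finset.sum_nbij' (fun x => -x⁻¹) (fun x => -x⁻¹) ?_ ?_ ?_ ?_ ?_
    · intro x hx
      have hx0 : x ≠ 0 := (Finset.mem_erase.1 hx).1
      exact Finset.mem_erase.2 ⟨neg_ne_zero.2 (inv_ne_zero hx0), Finset.mem_univ _⟩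
    · intro x hx
      have hx0 : x ≠ 0 := (Finset.mem_erase.1 hx).1
      exact Finset.mem_erase.2 ⟨neg_ne_zero.2 (inv_ne_zero hx0), Finset.mem_univ _⟩
    · intro x hx
      have hx0 : x ≠ 0 := (Finset.mem_erase.1 hx).1
      simp [inv_neg]
    · intro x hx
      have hx0 : x ≠ 0 := (Finset.mem_erase.1 hx).1
      simp [inv_neg]
    · intro x hx
      have hx0 : x ≠ 0 := (Finset.mem_erase.1 hx).1
      refine qf_conj f ?_ hz
      rw [← ZMod.natCast_eq_zero_iff]
      push_cast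
      rw [ZMod.natCast_zmod_val, ZMod.natCast_zmod_val, mul_neg, mul_inv_cancel₀ hx0]
      ring
  rw [ZMod.val_zero, Nat.cast_zero, add_zero] at h1 h2
  rw [h3] at h1
  have h4 := qf_fricke hf hz
  have h5 := qf_fricke hf hNz
  rw [mul_div_cancel_left₀ z hNc] at h5
  have e5 : (-1 : ℂ) / (N * z) = -1 / z / N := by field_simp
  rw [e5] at h5
  have e6 : qf f (z / N) = -(N * ε) * (z ^ 2)⁻¹ * qf f (-1 / z) := by
    rw [h4]
    field_simp
    linear_combination (-(qf f (z / N))) * hε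
  have e7 : ∑ x ∈ Finset.univ.erase (0 : ZMod N), qf f ((z + (x.val : ℂ)) / N) =
      N * co f N * qf f z - qf f (z / N) := by linear_combination h2
  rw [e7, h5, e6] at h1
  have e8 : z ^ 2 * (N * co f N * qf f z - -(N * ε) * (z ^ 2)⁻¹ * qf f (-1 / z)) =
      z ^ 2 * (N * co f N * qf f z) + N * ε * qf f (-1 / z) := by
    have hzz : z ^ 2 * (z ^ 2)⁻¹ = 1 := mul_inv_cancel₀ (pow_ne_zero 2 hz0)
    linear_combination (N * ε * qf f (-1 / z)) * hzz
  rw [e8] at h1
  have e9 : (N : ℂ) * ((co f N - ε) * qf f (-1 / z)) = N * ((co f N - ε) * (z ^ 2 * qf f z)) := by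
    have e10 : -(ε : ℂ) / N * (N * z) ^ 2 * qf f z = -ε * N * z ^ 2 * qf f z := by
      field_simp
    rw [e10] at h1
    linear_combination -h1
  exact mul_left_cancel₀ hNc e9

/-- the behaviour at the cusp `∞` -/
lemma qf_tendsto {f : Cf2 N} {ε : ℝ} (hf : W388.IsNewf N 2 f ε) :
    Tendsto (fun y : ℝ => qf f ((y : ℂ) * Complex.I) * (Real.exp (2 * Real.pi * y) : ℂ)) atTop
      (𝓝 1) := by
  have hI : ∀ y : ℝ, ((y : ℂ) * Complex.I).im = y := fun y => by simp
  have hee : ∀ (k : ℕ) (y : ℝ), ‖Complex.exp (2 * Real.pi * Complex.I * k * ((y : ℂ) * Complex.I))‖ =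
      Real.exp (-(2 * Real.pi * y * k)) := by
    intro k y
    rw [exp_norm, hI]
  have hc0 : co f 0 = 0 := W388.coeff_zero f
  have h1 : Tendsto (fun y : ℝ => ∑' k : ℕ, co f k *
      Complex.exp (2 * Real.pi * Complex.I * k * ((y : ℂ) * Complex.I)) *
      (Real.exp (2 * Real.pi * y) : ℂ)) atTop (𝓝 (∑' k : ℕ, if k = 1 then (1 : ℂ) else 0)) := by
    have hsum := (qf_hasSum f (z := (1 : ℝ) * Complex.I) (by rw [hI]; norm_num)).summable.norm
    refine tendsto_tsum_of_dominated_convergence (hsum.mul_right (Real.exp (2 * Real.pi))) ?_ ?_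
    · intro k
      rcases Nat.eq_zero_or_pos k with rfl | hk
      · simp [hc0]
      rcases Nat.lt_or_ge 1 k with hk1 | hk1
      · rw [if_neg (by omega), tendsto_zero_iff_norm_tendsto_zero]
        have h2 : Tendsto (fun y : ℝ => ‖co f k‖ * Real.exp (-(2 * Real.pi * (k - 1) * y)))
            atTop (𝓝 0) := by
          have hk2 : (1 : ℝ) < k := by exact_mod_cast hk1
          have h3 : 0 < 2 * Real.pi * ((k : ℝ) - 1) := by
            have := Real.pi_pos
            have : 0 < (k : ℝ) - 1 := by linarith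
            positivity
          have h4 := Real.tendsto_exp_neg_atTop_nhds_zero.comp (tendsto_id.const_mul_atTop h3)
          have h5 := h4.const_mul ‖co f k‖
          rw [mul_zero] at h5
          exact h5
        refine h2.congr (fun y => ?_)
        rw [norm_mul, norm_mul, hee, Complex.norm_real, Real.norm_eq_abs,
          abs_of_pos (Real.exp_pos _), mul_assoc ‖co f k‖, ← Real.exp_add]
        congr 2
        ring
      · obtain rfl : k = 1 := by omega
        rw [if_pos rfl]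
        refine tendsto_const_nhds.congr (fun y => ?_)
        have h1 : co f 1 = 1 := hf.one
        rw [h1, Complex.ofReal_exp, mul_assoc, ← Complex.exp_add]
        have : 2 * (Real.pi : ℂ) * Complex.I * ((1 : ℕ) : ℂ) * ((y : ℂ) * Complex.I) +
            ((2 * Real.pi * y : ℝ) : ℂ) = 0 := by
          push_cast
          linear_combination (2 * (Real.pi : ℂ) * y) * Complex.I_mul_I
        rw [this]
        simp
    · filter_upwards [eventually_ge_atTop (1 : ℝ)] with y hy k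
      rcases Nat.eq_zero_or_pos k with rfl | hk
      · simp [hc0]
      have hk1 : (1 : ℝ) ≤ k := by exact_mod_cast hk
      have hpi := Real.pi_pos
      have h6 := hee k 1
      rw [norm_mul, norm_mul, hee, norm_mul, h6, Complex.norm_real, Real.norm_eq_abs,
        abs_of_pos (Real.exp_pos _),
        mul_assoc ‖co f k‖, mul_assoc ‖co f k‖, ← Real.exp_add, ← Real.exp_add]
      refine mul_le_mul_of_nonneg_left (Real.exp_le_exp.2 ?_) (norm_nonneg _)
      have h8 : 0 ≤ (y - 1) * ((k : ℝ) - 1) := mul_nonneg (by linarith) (by linarith)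
      have h9 := mul_nonneg hpi.le h8
      nlinarith
  rw [tsum_ite_eq] at h1
  refine h1.congr (fun y => ?_)
  rw [tsum_mul_right]
  rfl

/-- statement of the piece S_AN -/
theorem an : ∀ (N : ℕ) [NeZero N], N.Prime → ∀ (f : Cf2 N) (ε : ℝ),
    W388.IsNewf N 2 f ε → (qExpansion 1 f).coeff N = (ε : ℂ) := by
  intro N _ hp f ε hf
  by_contra hne
  have hne' : co f N - ε ≠ 0 := sub_ne_zero.2 hne
  have hNc : (N : ℂ) ≠ 0 := Nat.cast_ne_zero.2 (NeZero.ne N)
  have h1 : ∀ z : ℂ, 0 < z.im → qf f (-1 / z) = z ^ 2 * qf f z := fun z hz =>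
    mul_left_cancel₀ hne' (key hf hp hz)
  have hε : (ε : ℂ) * ε = 1 := by
    rcases hf.sign with h | h <;> rw [h] <;> push_cast <;> ring
  -- `f (z / N) = - N ε f(z)`
  have h2 : ∀ z : ℂ, 0 < z.im → qf f z = -(N * ε) * qf f (N * z) := by
    intro z hz
    have hNz : 0 < ((N : ℂ) * z).im := im_mul_nat hz hp.pos
    have hz0 : z ≠ 0 := by rintro rfl; simp at hz
    have h3 := qf_fricke hf hNz
    rw [h1 _ hNz, mul_div_cancel_left₀ z hNc] at h3
    have h4 : qf f (N * z) = -(ε : ℂ) / N * qf f z := by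
      have h5 : ((N : ℂ) * z) ^ 2 ≠ 0 := pow_ne_zero _ (mul_ne_zero hNc hz0)
      apply mul_left_cancel₀ h5
      rw [h3]
      ring
    rw [h4]
    field_simp
    linear_combination (-(qf f z)) * hε
  have h3 := qf_tendsto hf
  have hN1 : (1 : ℝ) < N := by exact_mod_cast hp.one_lt
  have hN0 : (0 : ℝ) < N := by linarith
  have h4 : Tendsto (fun y : ℝ => -(N * ε) * (qf f (((N * y : ℝ) : ℂ) * Complex.I) *
      (Real.exp (2 * Real.pi * (N * y)) : ℂ)) * (Real.exp (-(2 * Real.pi * (N - 1) * y)) : ℂ)) atTop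
      (𝓝 (-(N * ε) * 1 * ((0 : ℝ) : ℂ))) := by
    have h5 : Tendsto (fun y : ℝ => (N : ℝ) * y) atTop atTop := tendsto_id.const_mul_atTop hN0
    have h6 := (h3.comp h5).const_mul (-((N : ℂ) * ε))
    have h7 : 0 < 2 * Real.pi * ((N : ℝ) - 1) := by
      have := Real.pi_pos
      have : 0 < (N : ℝ) - 1 := by linarith
      positivity
    have h8 := Real.tendsto_exp_neg_atTop_nhds_zero.comp (tendsto_id.const_mul_atTop h7)
    have h9 := (Complex.continuous_ofReal.tendsto 0).comp h8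
    exact h6.mul h9
  rw [Complex.ofReal_zero, mul_zero] at h4
  have h5 := h3.congr' (f₂ := fun y : ℝ => -(N * ε) * (qf f (((N * y : ℝ) : ℂ) * Complex.I) *
      (Real.exp (2 * Real.pi * (N * y)) : ℂ)) * (Real.exp (-(2 * Real.pi * (N - 1) * y)) : ℂ)) (by
    filter_upwards [eventually_gt_atTop (0 : ℝ)] with y hy
    rw [h2 ((y : ℂ) * Complex.I) (by simpa using hy)]
    have e1 : ((N : ℂ) * ((y : ℂ) * Complex.I)) = (((N * y : ℝ) : ℂ) * Complex.I) := by
      push_cast
      ring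
    rw [e1]
    have e2 : Real.exp (2 * Real.pi * y) = Real.exp (2 * Real.pi * (N * y)) *
        Real.exp (-(2 * Real.pi * (N - 1) * y)) := by
      rw [← Real.exp_add]
      congr 1
      ring
    rw [e2]
    push_cast
    ring)
  exact one_ne_zero (tendsto_nhds_unique h5 h4)

end Pool.Agent.K4H13.CV
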