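import Pool.Agent.K4H13.CV.Mem

/-!
# Project CV: bounds for the primitives, the periods and the central values
-/

set_option autoImplicit false

open Complex Filter Topology Set UpperHalfPlane MatrixGroups CongruenceSubgroup

namespace Pool.Agent.K4H13.CV

open Pool.Agent.TH940 (prim prim_deriv Fr prim_fricke Pers prim_near prim_line exp_norm)
open Pool.Agent.Y18.BSD

variable {N : ℕ} [NeZero N]

lemma inv_one_sub_exp {t : ℝ} (ht : 0 < t) : (1 - Real.exp (-t))⁻¹ ≤ 1 + 1 / t := by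
  have h1 : Real.exp (-t) ≤ 1 / (1 + t) := by
    rw [Real.exp_neg, ← one_div]
    exact one_div_le_one_div_of_le (by linarith) (by linarith [Real.add_one_le_exp t])
  have h2 : t / (1 + t) ≤ 1 - Real.exp (-t) := by
    have : t / (1 + t) = 1 - 1 / (1 + t) := by field_simp; ring
    rw [this]
    linarith
  have h3 : 0 < t / (1 + t) := by positivity
  calc (1 - Real.exp (-t))⁻¹ ≤ (t / (1 + t))⁻¹ := inv_anti₀ h3 h2
    _ = 1 + 1 / t := by field_simp; ring

/-- a bound for the primitive -/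
lemma prim_bd (f : Cf2 N) (hf : ∀ n : ℕ, ‖(qExpansion 1 f).coeff n‖ ≤ (n : ℝ) ^ 2) (z : ℂ)
    (hz : 0 < z.im) : ‖prim f z‖ ≤ (1 + 1 / z.im) ^ 2 := by
  set x : ℝ := Real.exp (-(2 * Real.pi * z.im)) with hx
  have hpi := Real.pi_pos
  have hpi3 := Real.pi_gt_three
  have hx0 : 0 < x := Real.exp_pos _
  have hx1 : x < 1 := by
    have : 0 < 2 * Real.pi * z.im := by positivity
    rw [hx, Real.exp_lt_one_iff]
    linarith
  have hs := hasSum_coe_mul_geometric_of_norm_lt_one (r := x) (by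
    rw [Real.norm_eq_abs, abs_of_pos hx0]; exact hx1)
  have h1 : ∀ n : ℕ, ‖(qExpansion 1 f).coeff n / n * Complex.exp (2 * Real.pi * Complex.I * n * z)‖ ≤
      n * x ^ n := by
    intro n
    rw [norm_mul, exp_norm, norm_div, Complex.norm_natCast]
    have e1 : Real.exp (-(2 * Real.pi * z.im * n)) = x ^ n := by
      rw [hx, ← Real.exp_nat_mul]
      congr 1
      ring
    rw [e1]
    refine mul_le_mul_of_nonneg_right ?_ (by positivity)
    rcases Nat.eq_zero_or_pos n with rfl | hn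
    · simp
    · have hn' : (0 : ℝ) < n := by exact_mod_cast hn
      rw [div_le_iff₀ hn']
      calc _ ≤ (n : ℝ) ^ 2 := hf n
        _ = n * n := by ring
  have h2 : ‖prim f z‖ ≤ x / (1 - x) ^ 2 := by
    unfold prim
    exact tsum_of_norm_bounded hs h1
  refine h2.trans ?_
  have h3 : (1 - x)⁻¹ ≤ 1 + 1 / (2 * Real.pi * z.im) := inv_one_sub_exp (by positivity)
  have h4 : 1 / (2 * Real.pi * z.im) ≤ 1 / z.im := by
    refine one_div_le_one_div_of_le hz ?_
    nlinarith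
  have h5 : 0 < 1 - x := by linarith
  calc x / (1 - x) ^ 2 ≤ 1 / (1 - x) ^ 2 := by gcongr
    _ = ((1 - x)⁻¹) ^ 2 := by rw [inv_pow, one_div]
    _ ≤ (1 + 1 / z.im) ^ 2 := by
        have : 0 < (1 - x)⁻¹ := inv_pos.2 h5
        gcongr
        linarith

lemma prim_add_int (f : Cf2 N) (z : ℂ) (m : ℤ) : prim f (z + m) = prim f z := by
  induction m using Int.induction_on with
  | zero => simp
  | succ i ih =>
    rw [← ih, ← prim_period f (z + ((i : ℤ) : ℂ))]
    congr 1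
    push_cast
    ring
  | pred i ih =>
    rw [← prim_period f (z + ((-(i : ℤ) - 1 : ℤ) : ℂ)), ← ih]
    congr 1
    push_cast
    ring

/-- a bound for the periods -/
lemma per_bd (f : Cf2 N) (hf : ∀ n : ℕ, ‖(qExpansion 1 f).coeff n‖ ≤ (n : ℝ) ^ 2) (γ : Gamma0 N)
    (K : ℝ) (hK : 1 ≤ K) (hγ : |(((γ : SL(2, ℤ)) 1 0 : ℤ) : ℝ)| ≤ K) :
    ‖per f γ‖ ≤ 8 * K ^ 2 := by
  set a : ℤ := (γ : SL(2, ℤ)) 0 0 with ha
  set b : ℤ := (γ : SL(2, ℤ)) 0 1 with hb
  set c : ℤ := (γ : SL(2, ℤ)) 1 0 with hc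
  set d : ℤ := (γ : SL(2, ℤ)) 1 1 with hd
  have hdet : a * d - b * c = 1 := by
    have h1 := Matrix.SpecialLinearGroup.det_coe (γ : SL(2, ℤ))
    rw [Matrix.det_fin_two] at h1
    exact h1
  have hact : ∀ z : ℍ, (((γ : SL(2, ℤ)) • z : ℍ) : ℂ) = ((a : ℂ) * z + b) / ((c : ℂ) * z + d) := by
    intro z
    rw [ModularGroup.sl_moeb, coe_smul_of_det_pos (by simp) z, ModularGroup.denom_apply]
    congr 1
  by_cases hc0 : c = 0
  · have h1 : a * d = 1 := by rw [hc0, mul_zero, sub_zero] at hdet; exact hdet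
    have h2 := per_spec f γ UpperHalfPlane.I
    rw [hact, hc0] at h2
    have h3 : ((a : ℂ) * ((UpperHalfPlane.I : ℍ) : ℂ) + b) / (((0 : ℤ) : ℂ) * ((UpperHalfPlane.I : ℍ) : ℂ) + d) =
        ((UpperHalfPlane.I : ℍ) : ℂ) + ((b * a : ℤ) : ℂ) := by
      have h4 : (a : ℂ) * d = 1 := by exact_mod_cast h1
      have hd0 : (d : ℂ) ≠ 0 := by
        intro h
        rw [h, mul_zero] at h4
        exact zero_ne_one h4
      rw [Int.cast_zero, zero_mul, zero_add, div_eq_iff hd0]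
      push_cast
      have h5 : (a : ℂ) = d := by
        rcases Int.eq_one_or_neg_one_of_mul_eq_one h1 with h6 | h6
        · have h7 : d = 1 := by rw [h6, one_mul] at h1; exact h1
          rw [h6, h7]
        · have h7 : d = -1 := by rw [h6] at h1; linarith
          rw [h6, h7]
      rw [← h5]
      rw [← h5] at h4
      linear_combination (-(b : ℂ)) * h4
    rw [h3, prim_add_int] at h2
    have h5 : per f γ = 0 := by simpa using h2
    rw [h5, norm_zero]
    positivity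
  · have hcr : (0 : ℝ) < |(c : ℝ)| := abs_pos.2 (by exact_mod_cast hc0)
    have hcc : (c : ℂ) ≠ 0 := by exact_mod_cast hc0
    have habs : (|(c : ℝ)| : ℝ) ≠ 0 := hcr.ne'
    set w : ℍ := ⟨-(d : ℂ) / c + ((1 / |(c : ℝ)| : ℝ) : ℂ) * Complex.I, by
      have : (-(d : ℂ) / c).im = 0 := by
        rw [show (-(d : ℂ) / c) = (((-(d : ℝ) / c : ℝ)) : ℂ) by push_cast; rfl]
        exact Complex.ofReal_im _
      rw [Complex.add_im, this]
      simp only [Complex.mul_im, Complex.ofReal_re, Complex.I_im, Complex.ofReal_im, Complex.I_re]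
      rw [zero_add, mul_one, mul_zero, add_zero]
      positivity⟩ with hw
    have hwim : (w : ℂ).im = 1 / |(c : ℝ)| := by
      have : (-(d : ℂ) / c).im = 0 := by
        rw [show (-(d : ℂ) / c) = (((-(d : ℝ) / c : ℝ)) : ℂ) by push_cast; rfl]
        exact Complex.ofReal_im _
      show (-(d : ℂ) / c + ((1 / |(c : ℝ)| : ℝ) : ℂ) * Complex.I).im = _
      rw [Complex.add_im, this, Complex.im_ofReal_mul, Complex.I_im, mul_one, zero_add]
    have him2 : (((γ : SL(2, ℤ)) • w : ℍ) : ℂ).im = 1 / |(c : ℝ)| := by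
      have h1 := ModularGroup.im_smul_eq_div_normSq (γ : SL(2, ℤ)) w
      have h2 : denom ((γ : SL(2, ℤ)) : GL (Fin 2) ℝ) w = (c : ℂ) * ((1 / |(c : ℝ)| : ℝ) : ℂ) * Complex.I := by
        rw [ModularGroup.denom_apply]
        show (c : ℂ) * (-(d : ℂ) / c + ((1 / |(c : ℝ)| : ℝ) : ℂ) * Complex.I) + (d : ℂ) = _
        rw [mul_add, mul_div_cancel₀ _ hcc]
        ring
      have h3 : Complex.normSq (denom ((γ : SL(2, ℤ)) : GL (Fin 2) ℝ) w) = 1 := by
        rw [h2, map_mul, map_mul, Complex.normSq_I, mul_one, Complex.normSq_ofReal]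
        have : Complex.normSq (c : ℂ) = (c : ℝ) * c := by
          rw [show ((c : ℤ) : ℂ) = (((c : ℝ)) : ℂ) by push_cast; rfl, Complex.normSq_ofReal]
        rw [this]
        have h5 : (c : ℝ) * c = |(c : ℝ)| * |(c : ℝ)| := (abs_mul_abs_self _).symm
        rw [h5]
        field_simp
      rw [h3, div_one] at h1
      have : (((γ : SL(2, ℤ)) • w : ℍ) : ℂ).im = (w : ℂ).im := h1
      rw [this, hwim]
    have h1 := per_spec f γ w
    have h2 : per f γ = prim f (((γ : SL(2, ℤ)) • w : ℍ) : ℂ) - prim f (w : ℂ) := by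
      rw [h1]; ring
    have b1 := prim_bd f hf _ ((γ : SL(2, ℤ)) • w : ℍ).im_pos
    have b2 := prim_bd f hf _ w.im_pos
    have b1' : ‖prim f (((γ : SL(2, ℤ)) • w : ℍ) : ℂ)‖ ≤ (1 + 1 / (1 / |(c : ℝ)|)) ^ 2 := by
      have h6 := prim_bd f hf (((γ : SL(2, ℤ)) • w : ℍ) : ℂ) (by rw [him2]; positivity)
      rw [him2] at h6
      exact h6
    have b2' : ‖prim f (w : ℂ)‖ ≤ (1 + 1 / (1 / |(c : ℝ)|)) ^ 2 := by
      have h6 := prim_bd f hf (w : ℂ) (by rw [hwim]; positivity)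
      rw [hwim] at h6
      exact h6
    rw [one_div_one_div] at b1' b2'
    have h7 : (1 + |(c : ℝ)|) ^ 2 ≤ 4 * K ^ 2 := by
      have : 1 + |(c : ℝ)| ≤ 2 * K := by linarith
      calc (1 + |(c : ℝ)|) ^ 2 ≤ (2 * K) ^ 2 := by gcongr
        _ = 4 * K ^ 2 := by ring
    rw [h2]
    calc _ ≤ _ := norm_sub_le _ _
      _ ≤ 8 * K ^ 2 := by linarith

/-- the sign and the central value -/
lemma bv_zero_eq {f : Cf2 N} {ε : ℝ} (hf : W388.IsNewf N 2 f ε) :
    bv f 0 = (1 + ε) * prim f ((1 / Real.sqrt N : ℝ) * Complex.I) := by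
  have hN0 : (0 : ℝ) < N := Nat.cast_pos.2 (Nat.pos_of_ne_zero (NeZero.ne N))
  have hs : 0 < Real.sqrt N := Real.sqrt_pos.2 hN0
  have hsc : ((Real.sqrt N : ℝ) : ℂ) ≠ 0 := Complex.ofReal_ne_zero.2 hs.ne'
  obtain ⟨c0, hc0⟩ := prim_fricke f ε (newf_fr hf)
  rw [prim_zero_tendsto f hc0 (newf_fr hf)]
  have h := hc0 ((1 / Real.sqrt N : ℝ) * Complex.I) (by simp; positivity)
  have h2 : (-1 / ((N : ℂ) * (((1 / Real.sqrt N : ℝ) : ℂ) * Complex.I))) =
      ((1 / Real.sqrt N : ℝ) : ℂ) * Complex.I := by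
    have h3 : (N : ℂ) = ((Real.sqrt N : ℝ) : ℂ) ^ 2 := by
      rw [← Complex.ofReal_pow, Real.sq_sqrt hN0.le]
      norm_cast
    rw [h3]
    push_cast
    rw [div_eq_iff (by simp [hsc])]
    have hI : Complex.I * Complex.I = -1 := Complex.I_mul_I
    field_simp
    linear_combination -hI
  rw [h2] at h
  linear_combination -h

lemma bv_zero_bd {f : Cf2 N} {ε : ℝ} (hf : W388.IsNewf N 2 f ε)
    (hc : ∀ n : ℕ, ‖(qExpansion 1 f).coeff n‖ ≤ (n : ℝ) ^ 2) : ‖bv f 0‖ ≤ 8 * N := by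
  have hN1 : (1 : ℝ) ≤ N := by exact_mod_cast Nat.pos_of_ne_zero (NeZero.ne N)
  have hs : 1 ≤ Real.sqrt N := by rw [Real.one_le_sqrt]; exact hN1
  have hs2 : Real.sqrt N ^ 2 = N := Real.sq_sqrt (by linarith)
  rw [bv_zero_eq hf, norm_mul]
  have h1 : ‖(1 + (ε : ℂ))‖ ≤ 2 := by
    rcases hf.sign with h | h <;> rw [h] <;> norm_num
  have h2 := prim_bd f hc ((1 / Real.sqrt N : ℝ) * Complex.I) (by simp; positivity)
  have h3 : (((1 / Real.sqrt N : ℝ) : ℂ) * Complex.I).im = 1 / Real.sqrt N := by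
    rw [Complex.im_ofReal_mul, Complex.I_im, mul_one]
  rw [h3, one_div_one_div] at h2
  have h4 : (1 + Real.sqrt N) ^ 2 ≤ 4 * N := by nlinarith
  calc _ ≤ 2 * (4 * N : ℝ) := mul_le_mul h1 (h2.trans h4) (norm_nonneg _) (by norm_num)
    _ = 8 * N := by ring

lemma sign_of_ne {f : Cf2 N} {ε : ℝ} (hf : W388.IsNewf N 2 f ε) (h : bv f 0 ≠ 0) : ε = 1 := by
  rcases hf.sign with h1 | h1
  · exact h1
  · exfalso
    apply h
    rw [bv_zero_eq hf, h1]
    push_cast
    ring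

/-- the central value is real -/
lemma bv_zero_real {f : Cf2 N} {ε : ℝ} (hf : W388.IsNewf N 2 f ε) :
    ((bv f 0).re : ℂ) = bv f 0 := by
  have hN0 : (0 : ℝ) < N := Nat.cast_pos.2 (Nat.pos_of_ne_zero (NeZero.ne N))
  have h1 : (prim f (((1 / Real.sqrt N : ℝ) : ℂ) * Complex.I)).im = 0 := by
    have hz : 0 < (((1 / Real.sqrt N : ℝ) : ℂ) * Complex.I).im := by simp; positivity
    have h2 := prim_hasSum f _ hz
    have h3 := Complex.hasSum_im h2
    have h4 : ∀ n : ℕ, (co f n / n * Complex.exp (2 * Real.pi * Complex.I * n *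
        (((1 / Real.sqrt N : ℝ) : ℂ) * Complex.I))).im = 0 := by
      intro n
      have e1 : co f n = (((co f n).re : ℝ) : ℂ) := by
        apply Complex.ext
        · rw [Complex.ofReal_re]
        · rw [Complex.ofReal_im]; exact hf.real n
      have e2 : (2 * (Real.pi : ℂ) * Complex.I * n * (((1 / Real.sqrt N : ℝ) : ℂ) * Complex.I)) =
          ((-(2 * Real.pi * n * (1 / Real.sqrt N)) : ℝ) : ℂ) := by
        push_cast
        linear_combination (2 * (Real.pi : ℂ) * n * (1 / (Real.sqrt N : ℂ))) * Complex.I_mul_I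
      rw [e1, e2, ← Complex.ofReal_exp, ← Complex.ofReal_natCast, ← Complex.ofReal_div,
        ← Complex.ofReal_mul, Complex.ofReal_im]
    simp only [h4] at h3
    exact h3.unique hasSum_zero
  rw [bv_zero_eq hf]
  apply Complex.ext
  · rw [Complex.ofReal_re]
  · rw [Complex.ofReal_im, Complex.mul_im, h1]
    simp

end Pool.Agent.K4H13.CV
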