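import Pool.Agent.K4H13.CV.An

/-!
# Project CV: the bound `|a(n)| ≤ n²`, and `|a(p)| ≤ p + 1`
-/

set_option autoImplicit false

open Complex Filter Topology Set UpperHalfPlane MatrixGroups CongruenceSubgroup

namespace Pool.Agent.K4H13.CV

open Pool.Agent.TH940 (Fr exp_norm)
open Pool.Agent.Y18.BSD

variable {N : ℕ} [NeZero N]

lemma co_pow {f : Cf2 N} {ε : ℝ} (hf : W388.IsNewf N 2 f ε) {p : ℕ} (hp : p.Prime) (hpN : ¬ p ∣ N)
    (j : ℕ) : co f (p ^ (j + 2)) = co f p * co f (p ^ (j + 1)) - p * co f (p ^ j) := by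
  have h := hf.pow p j hp
  rw [if_neg hpN] at h
  have e : (p : ℂ) ^ ((2 : ℤ) - 1) = p := by norm_num
  rw [e] at h
  exact h

lemma co_pow_level {f : Cf2 N} {ε : ℝ} (hf : W388.IsNewf N 2 f ε) (hp : N.Prime)
    (j : ℕ) : ‖co f (N ^ j)‖ = 1 := by
  have hN : ‖co f N‖ = 1 := by
    have h := an N hp f ε hf
    change co f N = ε at h
    rw [h, Complex.norm_real, Real.norm_eq_abs]
    rcases hf.sign with h | h <;> rw [h] <;> simp
  have h1 : co f 1 = 1 := hf.one
  induction j with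
  | zero => rw [pow_zero, h1, norm_one]
  | succ j ih =>
    rcases j with _ | j
    · rw [zero_add, pow_one, hN]
    · have h := hf.pow N j hp
      rw [if_pos dvd_rfl, sub_zero] at h
      change co f (N ^ (j + 2)) = co f N * co f (N ^ (j + 1)) at h
      rw [h, norm_mul, hN, ih, one_mul]

/-- the Hecke bound -/
lemma co_prime_le {f : Cf2 N} {ε : ℝ} (hf : W388.IsNewf N 2 f ε) {p : ℕ} (hp : p.Prime)
    (hpN : ¬ p ∣ N) : ‖co f p‖ ≤ p + 1 := by
  by_contra hc
  push Not at hc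
  set t : ℝ := ‖co f p‖ with ht
  have hp0 : (0 : ℝ) < p := by exact_mod_cast hp.pos
  have hpc : (p : ℝ) < t - 1 := by linarith
  have ht1 : 0 < t - 1 := by linarith
  have h1 : co f 1 = 1 := hf.one
  have hstep : ∀ j : ℕ, (t - 1) * ‖co f (p ^ j)‖ ≤ ‖co f (p ^ (j + 1))‖ := by
    intro j
    induction j with
    | zero =>
      rw [pow_zero, h1, norm_one, zero_add, pow_one, ← ht]
      linarith
    | succ j ih =>
      have e1 : co f p * co f (p ^ (j + 1)) = co f (p ^ (j + 2)) + p * co f (p ^ j) := by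
        rw [co_pow hf hp hpN j]
        ring
      have e2 := congrArg norm e1
      have e3 := norm_add_le (co f (p ^ (j + 2))) ((p : ℂ) * co f (p ^ j))
      rw [← e2, norm_mul, norm_mul, ← ht, Complex.norm_natCast] at e3
      have e4 : (p : ℝ) * ‖co f (p ^ j)‖ ≤ ‖co f (p ^ (j + 1))‖ :=
        (mul_le_mul_of_nonneg_right hpc.le (norm_nonneg _)).trans ih
      have e5 : j + 1 + 1 = j + 2 := rfl
      rw [e5]
      linarith
  have hpow : ∀ j : ℕ, (t - 1) ^ j ≤ ‖co f (p ^ j)‖ := by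
    intro j
    induction j with
    | zero => rw [pow_zero, pow_zero, h1, norm_one]
    | succ j ih =>
      rw [pow_succ']
      exact (mul_le_mul_of_nonneg_left ih ht1.le).trans (hstep j)
  obtain ⟨C, hC0, hC⟩ := Pool.Agent.TH940.coeff_bd f
  have h2 : Tendsto (fun j : ℕ => ((t - 1) / p) ^ j) atTop atTop :=
    tendsto_pow_atTop_atTop_of_one_lt ((one_lt_div hp0).2 hpc)
  obtain ⟨j, hj⟩ := (h2.eventually_gt_atTop C).exists
  have h3 := hC (p ^ j) (Nat.one_le_pow _ _ hp.pos)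
  rw [Real.rpow_one] at h3
  have h4 : (t - 1) ^ j ≤ C * ((p ^ j : ℕ) : ℝ) := (hpow j).trans h3
  push_cast at h4
  rw [div_pow, lt_div_iff₀ (by positivity)] at hj
  linarith

lemma co_ppow_le {f : Cf2 N} {ε : ℝ} (hf : W388.IsNewf N 2 f ε) {p : ℕ} (hp : p.Prime)
    (hpN : ¬ p ∣ N) (j : ℕ) : ‖co f (p ^ j)‖ ≤ ((p ^ j : ℕ) : ℝ) ^ 2 := by
  have h1 : co f 1 = 1 := hf.one
  have hp2 : (2 : ℝ) ≤ p := by exact_mod_cast hp.two_le
  have hb := co_prime_le hf hp hpN
  induction j using Nat.strong_induction_on with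
  | _ j ih =>
    rcases j with _ | _ | j
    · simp [h1]
    · rw [zero_add, pow_one]
      refine hb.trans ?_
      nlinarith
    · have h2 := ih j (by omega)
      have h3 := ih (j + 1) (by omega)
      rw [co_pow hf hp hpN j]
      have h4 := norm_sub_le (co f p * co f (p ^ (j + 1))) ((p : ℂ) * co f (p ^ j))
      rw [norm_mul, norm_mul, Complex.norm_natCast] at h4
      refine h4.trans ?_
      have h5 : ‖co f p‖ * ‖co f (p ^ (j + 1))‖ ≤ (p + 1) * ((p ^ (j + 1) : ℕ) : ℝ) ^ 2 :=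
        mul_le_mul hb h3 (norm_nonneg _) (by linarith)
      have h6 : (p : ℝ) * ‖co f (p ^ j)‖ ≤ p * ((p ^ j : ℕ) : ℝ) ^ 2 :=
        mul_le_mul_of_nonneg_left h2 (by linarith)
      refine (add_le_add h5 h6).trans ?_
      push_cast
      have e1 : ((p : ℝ) ^ (j + 1)) ^ 2 = ((p : ℝ) ^ j) ^ 2 * p ^ 2 := by ring
      have e2 : ((p : ℝ) ^ (j + 1 + 1)) ^ 2 = ((p : ℝ) ^ j) ^ 2 * p ^ 4 := by ring
      rw [e1, e2]
      have h7 : (p + 1) * (p : ℝ) ^ 2 + p ≤ (p : ℝ) ^ 4 := by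
        have h8 : (p : ℝ) + 1 ≤ p ^ 2 - 1 / 2 * p := by nlinarith
        nlinarith [mul_le_mul_of_nonneg_right h8 (by positivity : (0 : ℝ) ≤ (p : ℝ) ^ 2)]
      have h8 : 0 ≤ ((p : ℝ) ^ j) ^ 2 := by positivity
      calc ((p : ℝ) + 1) * (((p : ℝ) ^ j) ^ 2 * p ^ 2) + p * ((p : ℝ) ^ j) ^ 2 =
          ((p : ℝ) ^ j) ^ 2 * ((p + 1) * (p : ℝ) ^ 2 + p) := by ring
        _ ≤ _ := mul_le_mul_of_nonneg_left h7 h8

/-- statement of the piece S_COEF -/
theorem coef : ∀ (N : ℕ) [NeZero N], N.Prime → ∀ (f : Cf2 N) (ε : ℝ),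
    W388.IsNewf N 2 f ε → ∀ n : ℕ, ‖(qExpansion 1 f).coeff n‖ ≤ (n : ℝ) ^ 2 := by
  intro N _ hp f ε hf n
  change ‖co f n‖ ≤ _
  induction n using Nat.recOnPosPrimePosCoprime with
  | prime_pow p j hpp hj =>
    by_cases hpN : p ∣ N
    · obtain rfl : p = N := (Nat.prime_dvd_prime_iff_eq hpp hp).1 hpN
      rw [co_pow_level hf hp j]
      have : (1 : ℝ) ≤ ((p ^ j : ℕ) : ℝ) := by exact_mod_cast Nat.one_le_pow _ _ hp.pos
      nlinarith
    · exact co_ppow_le hf hpp hpN j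
  | zero =>
    have hc0 : co f 0 = 0 := W388.coeff_zero f
    rw [hc0]
    simp
  | one =>
    have h1 : co f 1 = 1 := hf.one
    rw [h1]
    simp
  | coprime a b ha hb hab iha ihb =>
    have h := hf.mul a b hab
    change co f (a * b) = co f a * co f b at h
    rw [h, norm_mul]
    push_cast
    rw [mul_pow]
    exact mul_le_mul iha ihb (norm_nonneg _) (by positivity)

end Pool.Agent.K4H13.CV
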