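import Pool.Agent.K4H13.CV.Near

/-!
# Project CV: every orbit has a point with large imaginary part
-/

set_option autoImplicit false

open Complex Filter Topology Set UpperHalfPlane MatrixGroups CongruenceSubgroup ModularGroup

namespace Pool.Agent.K4H13.CV

open Pool.Agent.TH940 (Fr)

theorem norm_smul {N : ℕ} (h : Cf2 N) {γ : SL(2, ℤ)} (hγ : γ ∈ Gamma0 N) (z : ℍ) :
    ‖h (γ • z)‖ * (γ • z).im = ‖h z‖ * z.im := by
  have hγ' : Matrix.SpecialLinearGroup.mapGL ℝ γ ∈ (Gamma0 N : Subgroup (GL (Fin 2) ℝ)) := ⟨γ, hγ, rfl⟩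
  have e1 := SlashInvariantForm.slash_action_eqn_SL'' h hγ z
  have hD0 : denom (γ : GL (Fin 2) ℝ) z ≠ 0 := denom_ne_zero _ _
  rw [e1, ModularGroup.im_smul_eq_div_normSq, norm_mul, norm_zpow, Complex.normSq_eq_norm_sq]
  have h1 : ‖denom (γ : GL (Fin 2) ℝ) z‖ ≠ 0 := norm_ne_zero_iff.2 hD0
  have h2 : ‖denom (γ : GL (Fin 2) ℝ) z‖ ^ (2 : ℤ) = ‖denom (γ : GL (Fin 2) ℝ) z‖ ^ 2 := by
    norm_cast
  rw [h2]
  field_simp

theorem norm_fricke {N : ℕ} [NeZero N] (h : Cf2 N) {ε : ℂ} (hε : ‖ε‖ = 1) (hf : Fr h ε)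
    (τ τ' : ℍ) (hττ : (τ' : ℂ) * ((N : ℂ) * (τ : ℂ)) = -1) :
    ‖h τ'‖ * τ'.im = ‖h τ‖ * τ.im := by
  have hN : (0 : ℝ) < N := Nat.cast_pos.2 (Nat.pos_of_ne_zero (NeZero.ne N))
  have hNc : (N : ℂ) ≠ 0 := Nat.cast_ne_zero.2 (NeZero.ne N)
  have hτ0 : (τ : ℂ) ≠ 0 := ne_zero τ
  have e1 : (τ' : ℂ) = -1 / ((N : ℂ) * (τ : ℂ)) := by
    rw [eq_div_iff (mul_ne_zero hNc hτ0)]
    exact hττ
  have e2 : τ'.im = τ.im / (N * ‖(τ : ℂ)‖ ^ 2) := by
    have e : (τ' : ℂ).im = (τ : ℂ).im / (N * Complex.normSq (τ : ℂ)) := by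
      rw [e1, neg_div, one_div, mul_inv, Complex.neg_im]
      have h1 : ((N : ℂ)⁻¹) = (((N : ℝ)⁻¹ : ℝ) : ℂ) := by push_cast; rfl
      rw [h1, Complex.im_ofReal_mul, Complex.inv_im]
      have h2 : Complex.normSq (τ : ℂ) ≠ 0 := (Complex.normSq_pos.2 hτ0).ne'
      field_simp
    rw [Complex.normSq_eq_norm_sq] at e
    exact e
  have h3 : ‖(τ : ℂ)‖ ≠ 0 := norm_ne_zero_iff.2 hτ0
  rw [hf τ τ' hττ, e2, norm_mul, norm_mul, norm_mul, norm_neg, hε, Complex.norm_natCast, norm_pow]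
  field_simp

/-- every orbit of `Γ₀(N)` and the Fricke involution has a point with `Im z ≥ 1/(2N)` -/
theorem red : ∀ (N : ℕ) [NeZero N], N.Prime → ∀ (h : Cf2 N) (ε : ℂ), ‖ε‖ = 1 → Fr h ε →
    ∀ z : ℍ, ∃ z' : ℍ, 1 / (2 * (N : ℝ)) ≤ z'.im ∧ ‖h z'‖ * z'.im = ‖h z‖ * z.im := by
  intro N _ hN h ε hε hf z
  have hN0 : (0 : ℝ) < N := Nat.cast_pos.2 hN.pos
  have hN1 : (1 : ℝ) ≤ N := by exact_mod_cast hN.pos
  have hNc : (N : ℂ) ≠ 0 := by exact_mod_cast hN.ne_zero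
  obtain ⟨g, hg⟩ := exists_smul_mem_fd z
  have him : (1 : ℝ) / 2 ≤ (g • z).im := by
    have h1 := three_le_four_mul_im_sq_of_mem_fd hg
    nlinarith [im_pos (g • z)]
  by_cases hc : g ∈ Gamma0 N
  · refine ⟨g • z, ?_, norm_smul h hc z⟩
    refine le_trans ?_ him
    rw [div_le_div_iff₀ (by positivity) (by positivity)]
    linarith
  · -- the entries of `g`; `g = S⁻¹-type`
    have hmem : ∀ g : SL(2, ℤ), g ∈ Gamma0 N ↔ (N : ℤ) ∣ g 1 0 := fun g => by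
      rw [Gamma0_mem, ZMod.intCast_zmod_eq_zero_iff_dvd]
    -- `g = S T^j g₀`: the lower left entry of `S T^j g` is `a + j c`
    have hcop : ¬ (N : ℤ) ∣ g 1 0 := fun h1 => hc ((hmem g).2 h1)
    obtain ⟨j, hj⟩ : ∃ j : ℤ, (N : ℤ) ∣ g 0 0 + j * g 1 0 := by
      have := Fact.mk hN
      have hne : ((g 1 0 : ℤ) : ZMod N) ≠ 0 := fun h1 =>
        hcop ((ZMod.intCast_zmod_eq_zero_iff_dvd _ _).1 h1)
      obtain ⟨j, hj⟩ := ZMod.intCast_surjective (-((g 0 0 : ℤ) : ZMod N) * ((g 1 0 : ℤ) : ZMod N)⁻¹)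
      refine ⟨j, (ZMod.intCast_zmod_eq_zero_iff_dvd _ _).1 ?_⟩
      push_cast
      rw [hj, mul_assoc, inv_mul_cancel₀ hne]
      ring
    have hmem2 : S * T ^ j * g ∈ Gamma0 N := by
      rw [hmem]
      have e : (S * T ^ j * g : SL(2, ℤ)) 1 0 = g 0 0 + j * g 1 0 := by
        simp [coe_T_zpow, Matrix.mul_apply, Fin.sum_univ_two]
      rw [e]
      exact hj
    obtain ⟨u, hu⟩ : ∃ u : ℍ, u = T ^ j • g • z := ⟨_, rfl⟩
    have huim : u.im = (g • z).im := by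
      rw [hu]
      have h1 : ((T ^ j • g • z : ℍ) : ℂ) = (g • z : ℍ) + j := coe_T_zpow_smul_eq _
      have h2 := congrArg Complex.im h1
      simpa using h2
    have hSu : (((S • u : ℍ)) : ℂ) = -1 / (u : ℂ) := by
      rw [UpperHalfPlane.modular_S_smul]
      change (-(u : ℂ))⁻¹ = -1 / (u : ℂ)
      rw [inv_neg, neg_div, one_div]
    let τ : ℍ := ⟨(u : ℂ) / N, by
      have e : ((u : ℂ) / (N : ℂ)).im = u.im / N := by
        have h1 : ((N : ℂ)) = ((N : ℝ) : ℂ) := by push_cast; rfl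
        rw [h1, Complex.div_ofReal_im]
        rfl
      rw [e]
      exact div_pos u.im_pos hN0⟩
    have hτ : (τ : ℂ) = (u : ℂ) / N := rfl
    have hτim : τ.im = u.im / N := by
      have h1 : ((N : ℂ)) = ((N : ℝ) : ℂ) := by push_cast; rfl
      change ((u : ℂ) / (N : ℂ)).im = _
      rw [h1, Complex.div_ofReal_im]
      rfl
    have h1 := norm_fricke h hε hf τ (S • u) (by
      have hu0 : (u : ℂ) ≠ 0 := ne_zero u
      rw [hSu, hτ]
      field_simp)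
    have h2 := norm_smul h hmem2 z
    rw [mul_smul, mul_smul, ← hu] at h2
    refine ⟨τ, ?_, by rw [← h1, h2]⟩
    rw [hτim, huim, div_le_div_iff₀ (by positivity) hN0]
    nlinarith
end Pool.Agent.K4H13.CV
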