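import Pool.Agent.K4H13.CV.Stm2
import Pool.Agent.K4H13.CV.Bd
import Pool.Agent.K4H13.CV.Ind
import Pool.Agent.W388.LV.Final

/-!
# Project CV, assembly 1: the Haberland inequality
-/

set_option autoImplicit false

open Complex Filter Topology Set UpperHalfPlane MatrixGroups CongruenceSubgroup MeasureTheory
open scoped Manifold ModularForm

namespace Pool.Agent.K4H13.CV

open Pool.Agent.TH940 (prim Fr)
open Pool.Agent.Y18.BSD
open W388.LV (SF bf pet IsNewBasis In StStrip)
open Pool.Agent.W347.LV (bf_sum bf_zero pet_sum_right pet_zero_right pet_sum_left)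

variable {N : ℕ} [NeZero N]

instance finXX : Finite (XX N) := by
  unfold XX
  infer_instance

noncomputable instance fintXX : Fintype (XX N) := Fintype.ofFinite _

/-- the extension of a function on `B` -/
noncomputable def ex {B : Finset (Cf2 N)} (w : B → ℂ) (g : Cf2 N) : ℂ :=
  open Classical in if h : g ∈ B then w ⟨g, h⟩ else 0

lemma ex_coe {B : Finset (Cf2 N)} (w : B → ℂ) (f : B) : ex w f.1 = w f := by
  unfold ex
  rw [dif_pos f.2]

/-- the form `∑ w_f f` -/
noncomputable def hw {B : Finset (Cf2 N)} (w : B → ℂ) : Cf2 N := ∑ g ∈ B, ex w g • g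

lemma hw_apply {B : Finset (Cf2 N)} (w : B → ℂ) (z : ℍ) : hw w z = ∑ f : B, w f * f.1 z := by
  unfold hw
  rw [ev_sum, ← Finset.sum_coe_sort B]
  exact Finset.sum_congr rfl fun f _ => by rw [ex_coe]

lemma hw_slash {B : Finset (Cf2 N)} (w : B → ℂ) (γ : SL(2, ℤ)) (z : ℍ) :
    ((hw w : ℍ → ℂ) ∣[(2 : ℤ)] γ) z = ∑ f : B, w f * ((f.1 : ℍ → ℂ) ∣[(2 : ℤ)] γ) z := by
  rw [ModularForm.SL_slash_apply]
  rw [hw_apply, Finset.sum_mul]
  refine Finset.sum_congr rfl fun f _ => ?_
  rw [ModularForm.SL_slash_apply]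
  ring

/-- `‖f‖² ≥ e^(-4π) / (4π)` -/
lemma pet_lower (f : Cf2 N) (hf : bf f 1 = 1) :
    Real.exp (-(4 * Real.pi)) / (4 * Real.pi) ≤ (pet N 2 f f).re := by
  have hpi := Real.pi_pos
  have hN1 : (1 : ℝ) ≤ N := by exact_mod_cast Nat.pos_of_ne_zero (NeZero.ne N)
  have h1 := W388.LV.q_strip N 2 f 1
  rw [Finset.Icc_self, Finset.sum_singleton, hf, norm_one, one_pow, one_mul] at h1
  refine le_trans ?_ h1
  unfold In
  have h2 : ∫ y in Set.Ioi (1 / (N : ℝ)), Real.exp (-(4 * Real.pi * (1 : ℕ) * y)) * y ^ ((2 : ℤ) - 2) =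
      Real.exp (-(4 * Real.pi) * (1 / (N : ℝ))) / (4 * Real.pi) := by
    have h3 := integral_exp_mul_Ioi (a := -(4 * Real.pi)) (by linarith) (1 / (N : ℝ))
    have h4 : ∫ y in Set.Ioi (1 / (N : ℝ)), Real.exp (-(4 * Real.pi * (1 : ℕ) * y)) * y ^ ((2 : ℤ) - 2) =
        ∫ y in Set.Ioi (1 / (N : ℝ)), Real.exp (-(4 * Real.pi) * y) := by
      refine setIntegral_congr_fun measurableSet_Ioi fun y _ => ?_
      simp
    rw [h4, h3]
    ring
  rw [h2]
  gcongr
  have : 1 / (N : ℝ) ≤ 1 := by rw [div_le_one (by linarith)]; exact hN1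
  nlinarith

/-- the norm of a combination -/
lemma pet_hw {B : Finset (Cf2 N)} (hB : IsNewBasis N 2 B) (w : B → ℂ) :
    Real.exp (-(4 * Real.pi)) / (4 * Real.pi) * ∑ f : B, ‖w f‖ ^ 2 ≤ (pet N 2 (hw w) (hw w)).re := by
  have hP := W388.LV.q_pet
  have h1 : pet N 2 (hw w) (hw w) = ∑ f : B, ((‖w f‖ ^ 2 : ℝ) : ℂ) * pet N 2 f.1 f.1 := by
    unfold hw
    rw [pet_sum_left hP]
    rw [← Finset.sum_coe_sort B]
    refine Finset.sum_congr rfl fun f _ => ?_
    rw [pet_sum_right hP, Finset.sum_eq_single f.1]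
    · rw [ex_coe, ← mul_assoc]
      congr 1
      rw [← Complex.normSq_eq_conj_mul_self, Complex.normSq_eq_norm_sq]
    · intro g hg hne
      rw [hB.orth f.1 f.2 g hg (Ne.symm hne), mul_zero]
    · intro hn
      exact absurd f.2 hn
  rw [h1, Complex.re_sum, Finset.mul_sum]
  refine Finset.sum_le_sum fun f _ => ?_
  rw [Complex.re_ofReal_mul]
  obtain ⟨ε, hε⟩ := hB.newf f.1 f.2
  have h2 := pet_lower f.1 hε.one
  calc _ = ‖w f‖ ^ 2 * (Real.exp (-(4 * Real.pi)) / (4 * Real.pi)) := by ring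
    _ ≤ _ := mul_le_mul_of_nonneg_left h2 (by positivity)

/-- **The Haberland inequality.** -/
theorem haberland (hgr : S_GREEN) (hpe : S_PET) (hcu : S_CUSP1) (hN : N.Prime)
    {B : Finset (Cf2 N)} (hB : IsNewBasis N 2 B) (w : B → ℂ) :
    Real.exp (-(4 * Real.pi)) * Real.pi * ∑ f : B, ‖w f‖ ^ 2 ≤
      18 * (N : ℝ) ^ 2 * (∑ f : B, ‖w f‖) * ∑ x : XX N, |(∑ f : B, w f * dd f.1 x).re| := by
  classical
  have hpi := Real.pi_pos
  have hN1 : (2 : ℝ) ≤ N := by exact_mod_cast hN.two_le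
  choose ε hε using fun f : B => hB.newf f.1 f.2
  have c1 := fun f : B => (hcu N hN f.1 (ε f) (hε f)).1
  have c2 := fun f : B => (hcu N hN f.1 (ε f) (hε f)).2.1
  have c3 := fun f : B => (hcu N hN f.1 (ε f) (hε f)).2.2.1
  have c4 := fun f : B => (hcu N hN f.1 (ε f) (hε f)).2.2.2.1
  have c5 := fun f : B => (hcu N hN f.1 (ε f) (hε f)).2.2.2.2
  set G : XX N → ℂ → ℂ := fun x z => ∑ f : B, w f * GG f.1 x z with hG
  set G' : XX N → ℂ → ℂ := fun x z => 2 * Real.pi * Complex.I *
    ((hw w : ℍ → ℂ) ∣[(2 : ℤ)] gx x) (ofComplex z) with hG'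
  set d : XX N → ℂ := fun x => ∑ f : B, w f * dd f.1 x with hd
  have key := hgr (XX N) (MulAction.toPerm (ModularGroup.S : SL(2, ℤ))⁻¹)
    (MulAction.toPerm (ModularGroup.T : SL(2, ℤ))⁻¹) G G' d ?_ ?_ ?_ ?_
  · -- the left side
    have h1 : ∑ x, ∫ p in {p : ℝ × ℝ | |p.1| ≤ 1 / 2 ∧ 1 ≤ p.1 ^ 2 + p.2 ^ 2 ∧ 0 < p.2},
        ‖G' x ((p.1 : ℂ) + (p.2 : ℂ) * Complex.I)‖ ^ 2 =
        4 * Real.pi ^ 2 * (pet N 2 (hw w) (hw w)).re := by
      rw [hpe N (hw w), tsum_fintype, Finset.mul_sum]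
      refine Finset.sum_congr rfl fun x _ => ?_
      rw [← integral_const_mul]
      refine integral_congr_ae (Filter.Eventually.of_forall fun p => ?_)
      simp only [hG']
      rw [norm_mul, mul_pow]
      congr 1
      rw [norm_mul, norm_mul, Complex.norm_I, Complex.norm_real, Real.norm_eq_abs,
        abs_of_pos hpi, mul_one, Complex.norm_ofNat]
      ring
    rw [h1] at key
    have h2 := pet_hw hB w
    have h3 : Real.exp (-(4 * Real.pi)) * Real.pi * ∑ f : B, ‖w f‖ ^ 2 ≤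
        4 * Real.pi ^ 2 * (pet N 2 (hw w) (hw w)).re := by
      calc _ = 4 * Real.pi ^ 2 * (Real.exp (-(4 * Real.pi)) / (4 * Real.pi) * ∑ f : B, ‖w f‖ ^ 2) := by
            field_simp
        _ ≤ _ := by gcongr
    refine h3.trans ?_
    rw [key]
    -- the right side
    have hGb : ∀ (x : XX N) (z : ℂ), Real.sqrt 3 / 2 ≤ z.im → |(G x z).im| ≤ 9 * N ^ 2 * ∑ f : B, ‖w f‖ := by
      intro x z hz
      have h30 : (1 : ℝ) ≤ Real.sqrt 3 := by rw [Real.one_le_sqrt]; norm_num
      have hz0 : 1 / 2 ≤ z.im := by linarith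
      have hzp : 0 < z.im := by linarith
      refine (Complex.abs_im_le_norm _).trans ?_
      refine (norm_sum_le _ _).trans ?_
      rw [Finset.mul_sum]
      refine Finset.sum_le_sum fun f _ => ?_
      rw [norm_mul, mul_comm]
      refine mul_le_mul_of_nonneg_right ?_ (norm_nonneg _)
      refine (c5 f x z hzp).trans ?_
      have h4 : (N : ℝ) / z.im ≤ 2 * N := by
        rw [div_le_iff₀ hzp]
        nlinarith
      have h5 : 0 ≤ (N : ℝ) / z.im := by positivity
      have h6 : 1 + (N : ℝ) / z.im ≤ 3 * (N : ℝ) := by linarith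
      calc (1 + (N : ℝ) / z.im) ^ 2 ≤ (3 * (N : ℝ)) ^ 2 := by gcongr
        _ = 9 * (N : ℝ) ^ 2 := by ring
    rw [Finset.mul_sum]
    refine Finset.sum_le_sum fun x _ => ?_
    have h7 := hGb (MulAction.toPerm (ModularGroup.S : SL(2, ℤ))⁻¹ x)
      (-1 / 2 + (Real.sqrt 3 / 2 : ℝ) * Complex.I) (by
        rw [Complex.add_im, Complex.im_ofReal_mul, Complex.I_im, mul_one]
        norm_num)
    have h8 := hGb (MulAction.toPerm (ModularGroup.S : SL(2, ℤ))⁻¹ x) Complex.I (by
        rw [Complex.I_im]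
        have : Real.sqrt 3 ≤ 2 := by
          rw [Real.sqrt_le_left (by norm_num)]; norm_num
        linarith)
    set W := ∑ f : B, ‖w f‖
    have hW : 0 ≤ W := Finset.sum_nonneg fun f _ => norm_nonneg _
    calc _ ≤ |(d x).re * ((G (MulAction.toPerm (ModularGroup.S : SL(2, ℤ))⁻¹ x)
          (-1 / 2 + (Real.sqrt 3 / 2 : ℝ) * Complex.I)).im -
          (G (MulAction.toPerm (ModularGroup.S : SL(2, ℤ))⁻¹ x) Complex.I).im)| := le_abs_self _
      _ ≤ |(d x).re| * (18 * N ^ 2 * W) := by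
          rw [abs_mul]
          refine mul_le_mul_of_nonneg_left ?_ (abs_nonneg _)
          refine (abs_sub _ _).trans ?_
          linarith
      _ = _ := by ring
  · intro x z hz
    have h1 : HasDerivAt (fun z => ∑ f : B, w f * GG f.1 x z) (∑ f : B, w f * (2 * Real.pi * Complex.I *
        ((f.1 : ℍ → ℂ) ∣[(2 : ℤ)] gx x) (ofComplex z))) z :=
      HasDerivAt.fun_sum fun f _ => (c1 f x z hz).const_mul (w f)
    refine h1.congr_deriv ?_
    simp only [hG']
    rw [hw_slash, Finset.mul_sum]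
    exact Finset.sum_congr rfl fun f _ => by ring
  · choose K c hc hK using c2
    rcases isEmpty_or_nonempty B with he | he
    · refine ⟨0, 1, one_pos, fun x z hz => ?_⟩
      have e1 : G x z = 0 := by simp [hG]
      have e2 : G' x z = 0 := by
        simp only [hG']
        rw [hw_slash]
        simp
      rw [e1, e2]
      simp
    · obtain ⟨f0, hf0⟩ := Finite.exists_min c
      refine ⟨∑ f : B, ‖w f‖ * |K f| * (1 + 2 * Real.pi), c f0, hc f0, fun x z hz => ?_⟩
      have hzp : 0 < z.im := by linarith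
      have hexp : ∀ f : B, Real.exp (-(c f * z.im)) ≤ Real.exp (-(c f0 * z.im)) := fun f => by
        apply Real.exp_le_exp.2
        have := mul_le_mul_of_nonneg_right (hf0 f) hzp.le
        linarith
      have hb : ∀ f : B, K f * Real.exp (-(c f * z.im)) ≤ |K f| * Real.exp (-(c f0 * z.im)) :=
        fun f => mul_le_mul (le_abs_self _) (hexp f) (Real.exp_pos _).le (abs_nonneg _)
      constructor
      · refine (norm_sum_le _ _).trans ?_
        rw [Finset.sum_mul]
        refine Finset.sum_le_sum fun f _ => ?_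
        rw [norm_mul]
        calc _ ≤ ‖w f‖ * (|K f| * Real.exp (-(c f0 * z.im))) :=
              mul_le_mul_of_nonneg_left ((hK f x z hz).1.trans (hb f)) (norm_nonneg _)
          _ = ‖w f‖ * |K f| * 1 * Real.exp (-(c f0 * z.im)) := by ring
          _ ≤ _ := by gcongr; linarith
      · simp only [hG']
        rw [hw_slash, norm_mul]
        have e3 : ‖(2 * Real.pi * Complex.I : ℂ)‖ = 2 * Real.pi := by
          rw [norm_mul, norm_mul, Complex.norm_I, Complex.norm_real, Real.norm_eq_abs,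
            abs_of_pos hpi, mul_one, Complex.norm_ofNat]
        rw [e3]
        calc _ ≤ 2 * Real.pi * ∑ f : B, ‖w f * ((f.1 : ℍ → ℂ) ∣[(2 : ℤ)] gx x) (ofComplex z)‖ := by
              gcongr
              exact norm_sum_le _ _
          _ ≤ 2 * Real.pi * ∑ f : B, ‖w f‖ * (|K f| * Real.exp (-(c f0 * z.im))) := by
              gcongr with f _
              rw [norm_mul]
              exact mul_le_mul_of_nonneg_left ((hK f x z hz).2.trans (hb f)) (norm_nonneg _)
          _ = ∑ f : B, ‖w f‖ * |K f| * (2 * Real.pi) * Real.exp (-(c f0 * z.im)) := by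
              rw [Finset.mul_sum]
              exact Finset.sum_congr rfl fun f _ => by ring
          _ ≤ _ := by
              rw [Finset.sum_mul]
              refine Finset.sum_le_sum fun f _ => ?_
              gcongr
              linarith
  · intro x z hz
    show ∑ f : B, w f * GG f.1 x (z + 1) = ∑ f : B, w f * GG f.1 _ z
    refine Finset.sum_congr rfl fun f _ => ?_
    rw [c3 f x z hz]
    rfl
  · intro x z hz
    show ∑ f : B, w f * GG f.1 x (-1 / z) = ∑ f : B, w f * GG f.1 _ z + ∑ f : B, w f * dd f.1 x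
    rw [← Finset.sum_add_distrib]
    refine Finset.sum_congr rfl fun f _ => ?_
    rw [c4 f x z hz, mul_add]
    rfl

end Pool.Agent.K4H13.CV
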