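import Pool.Agent.K4H13.CV.Asm1
import Pool.Agent.K4H13.CV.LA2
import Pool.Agent.K4H13.CV.Bd

/-!
# Project CV: a lower bound for the Gram matrix of the modular symbols
-/

set_option autoImplicit false

open Complex Filter Topology Set UpperHalfPlane MatrixGroups CongruenceSubgroup MeasureTheory
open scoped Manifold ModularForm

namespace Pool.Agent.K4H13.CV

open Pool.Agent.TH940 (prim Fr)
open Pool.Agent.Y18.BSD
open W388.LV (SF bf pet IsNewBasis)

variable {N : ℕ} [NeZero N]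

lemma S_notMem (hN : N.Prime) : (ModularGroup.S : SL(2, ℤ)) ∉ Gamma0 N := by
  intro h
  rw [Gamma0_mem] at h
  have h1 : ((ModularGroup.S : SL(2, ℤ)) 1 0 : ℤ) = 1 := by
    simp [ModularGroup.S]
  rw [h1] at h
  have := hN.two_le
  have : Fact (1 < N) := ⟨by omega⟩
  simp at h

lemma bd_x0 (hN : N.Prime) : bd (x0 N) = 1 := by
  unfold bd
  rw [if_pos rfl, if_neg, sub_zero]
  intro h
  have h1 : (QuotientGroup.mk (1 : SL(2, ℤ)) : XX N) = QuotientGroup.mk (ModularGroup.S * 1) := h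
  rw [QuotientGroup.eq] at h1
  simp only [inv_one, one_mul, mul_one] at h1
  exact S_notMem hN h1

lemma co_real {f : Cf2 N} {ε : ℝ} (hf : W388.IsNewf N 2 f ε) (n : ℕ) :
    co f n = ((co f n).re : ℂ) := by
  apply Complex.ext
  · rw [Complex.ofReal_re]
  · rw [Complex.ofReal_im]; exact hf.real n

lemma const_low : (1 : ℝ) / 531441 ≤ Real.exp (-(4 * Real.pi)) * Real.pi := by
  have h1 : Real.exp (-(13 : ℝ)) ≤ Real.exp (-(4 * Real.pi)) := by
    apply Real.exp_le_exp.2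
    have := Real.pi_lt_d2
    linarith
  have h2 : (1 : ℝ) / 3 ^ 13 ≤ Real.exp (-(13 : ℝ)) := by
    rw [Real.exp_neg, one_div]
    apply inv_anti₀ (Real.exp_pos _)
    have h3 : Real.exp (13 : ℝ) = Real.exp 1 ^ 13 := by
      rw [← Real.exp_nat_mul]; norm_num
    rw [h3]
    have := Real.exp_one_lt_d9
    gcongr
    linarith
  have h3 := Real.pi_gt_three
  calc (1 : ℝ) / 531441 = (1 / 3 ^ 13) * 3 := by norm_num
    _ ≤ _ := by gcongr; exact h2.trans h1

/-- **The Haberland inequality for `T₂ - 3`.** -/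
theorem hab2 (hgr : S_GREEN) (hpe : S_PET) (hcu : S_CUSP1) (hhe : S_HECKE) (hN : N.Prime)
    (h2 : N ≠ 2) {B : Finset (Cf2 N)} (hB : IsNewBasis N 2 B) (w : B → ℂ) (t : ℝ) :
    ∑ f : B, ‖(co f.1 2 - 3) * w f‖ ≤ 10 ^ 8 * (N : ℝ) ^ 2 * (Fintype.card (XX N)) *
      (B.card : ℝ) * ∑ x : XX N, |(∑ f : B, w f * dd f.1 x).re + t * bd x| := by
  classical
  obtain ⟨Z, hZ1, hZ2, hZ3⟩ := hhe N hN h2
  choose ε hε using fun f : B => hB.newf f.1 f.2
  set y : XX N → ℝ := fun x => (∑ f : B, w f * dd f.1 x).re + t * bd x with hy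
  set q : ℝ := ∑ x : XX N, |y x| with hq
  have hq0 : 0 ≤ q := Finset.sum_nonneg fun x _ => abs_nonneg _
  set W : ℝ := ∑ f : B, ‖(co f.1 2 - 3) * w f‖ with hW
  have hW0 : 0 ≤ W := Finset.sum_nonneg fun f _ => norm_nonneg _
  have h1 : ∀ x, |(∑ f : B, ((co f.1 2 - 3) * w f) * dd f.1 x).re| ≤ 9 * q := by
    intro x
    have e1 : (∑ f : B, ((co f.1 2 - 3) * w f) * dd f.1 x) =
        ∑ y : XX N, (Z x y : ℂ) * ∑ f : B, w f * dd f.1 y := by
      simp_rw [Finset.mul_sum]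
      rw [Finset.sum_comm]
      refine Finset.sum_congr rfl fun f _ => ?_
      have e2 := hZ2 f.1 (ε f) (hε f) x
      rw [tsum_fintype] at e2
      rw [show (co f.1 2 - 3) * w f * dd f.1 x = w f * ((co f.1 2 - 3) * dd f.1 x) by ring, e2,
        Finset.mul_sum]
      refine Finset.sum_congr rfl fun y _ => ?_
      ring
    have e3 : (∑ f : B, ((co f.1 2 - 3) * w f) * dd f.1 x).re = ∑ z : XX N, (Z x z : ℝ) * y z := by
      rw [e1, Complex.re_sum]
      have e4 : ∑ z : XX N, (Z x z : ℝ) * (t * bd z) = 0 := by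
        have e5 := hZ3 x
        rw [tsum_fintype] at e5
        have e6 : ∑ z : XX N, (Z x z : ℝ) * (t * bd z) = t * ((∑ z : XX N, Z x z * bd z : ℤ) : ℝ) := by
          push_cast
          rw [Finset.mul_sum]
          refine Finset.sum_congr rfl fun z _ => ?_
          ring
        rw [e6, e5]
        simp
      have e7 : ∑ z : XX N, (Z x z : ℝ) * y z = ∑ z : XX N, (Z x z : ℝ) *
          (∑ f : B, w f * dd f.1 z).re + ∑ z : XX N, (Z x z : ℝ) * (t * bd z) := by
        rw [← Finset.sum_add_distrib]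
        refine Finset.sum_congr rfl fun z _ => ?_
        rw [hy]
        ring
      rw [e7, e4, add_zero]
      refine Finset.sum_congr rfl fun z _ => ?_
      rw [show ((Z x z : ℤ) : ℂ) = (((Z x z : ℤ) : ℝ) : ℂ) by push_cast; rfl, Complex.re_ofReal_mul]
    rw [e3]
    refine (Finset.abs_sum_le_sum_abs _ _).trans ?_
    calc ∑ z : XX N, |(Z x z : ℝ) * y z| ≤ ∑ z : XX N, |(Z x z : ℝ)| * q := by
          refine Finset.sum_le_sum fun z _ => ?_
          rw [abs_mul]
          refine mul_le_mul_of_nonneg_left ?_ (abs_nonneg _)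
          exact Finset.single_le_sum (f := fun z => |y z|) (fun z _ => abs_nonneg _)
            (Finset.mem_univ z)
      _ = (∑ z : XX N, |(Z x z : ℝ)|) * q := by rw [Finset.sum_mul]
      _ ≤ 9 * q := by
          refine mul_le_mul_of_nonneg_right ?_ hq0
          have := hZ1 x
          rw [tsum_fintype] at this
          exact_mod_cast this
  have h3 := haberland hgr hpe hcu hN hB (fun f => (co f.1 2 - 3) * w f)
  have h4 : ∑ x : XX N, |(∑ f : B, ((co f.1 2 - 3) * w f) * dd f.1 x).re| ≤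
      (Fintype.card (XX N)) * (9 * q) := by
    calc _ ≤ ∑ x : XX N, 9 * q := Finset.sum_le_sum fun x _ => h1 x
      _ = _ := by rw [Finset.sum_const, Finset.card_univ, nsmul_eq_mul]
  have h5 : W ^ 2 ≤ (B.card : ℝ) * ∑ f : B, ‖(co f.1 2 - 3) * w f‖ ^ 2 := by
    have := sq_sum_le_card_mul_sum_sq (s := (Finset.univ : Finset B))
      (f := fun f => ‖(co f.1 2 - 3) * w f‖)
    rw [Finset.card_univ, Fintype.card_coe] at this
    exact this
  set c0 : ℝ := Real.exp (-(4 * Real.pi)) * Real.pi with hc0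
  have hc : (1 : ℝ) / 531441 ≤ c0 := const_low
  have hc0p : 0 < c0 := by positivity
  have h6 : c0 * W ^ 2 ≤ (B.card : ℝ) * (18 * (N : ℝ) ^ 2 * W * ((Fintype.card (XX N)) * (9 * q))) := by
    calc c0 * W ^ 2 ≤ c0 * ((B.card : ℝ) * ∑ f : B, ‖(co f.1 2 - 3) * w f‖ ^ 2) := by gcongr
      _ = (B.card : ℝ) * (c0 * ∑ f : B, ‖(co f.1 2 - 3) * w f‖ ^ 2) := by ring
      _ ≤ (B.card : ℝ) * (18 * (N : ℝ) ^ 2 * W *
          ∑ x : XX N, |(∑ f : B, ((co f.1 2 - 3) * w f) * dd f.1 x).re|) := by gcongr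
      _ ≤ _ := by gcongr
  rcases hW0.eq_or_lt with h7 | h7
  · rw [← h7]
    positivity
  · have h8 : c0 * W ≤ (B.card : ℝ) * (18 * (N : ℝ) ^ 2 * ((Fintype.card (XX N)) * (9 * q))) := by
      have h9 : (c0 * W) * W ≤
          ((B.card : ℝ) * (18 * (N : ℝ) ^ 2 * ((Fintype.card (XX N)) * (9 * q)))) * W := by
        calc _ = c0 * W ^ 2 := by ring
          _ ≤ _ := h6
          _ = _ := by ring
      exact le_of_mul_le_mul_right h9 h7
    have h10 : 1 / 531441 * W ≤ (B.card : ℝ) * (18 * (N : ℝ) ^ 2 * ((Fintype.card (XX N)) * (9 * q))) :=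
      (mul_le_mul_of_nonneg_right hc hW0).trans h8
    have h11 : 0 ≤ (N : ℝ) ^ 2 * (Fintype.card (XX N)) * (B.card : ℝ) * q := by positivity
    nlinarith

/-- the index set of the columns -/
abbrev JJ (B : Finset (Cf2 N)) : Type := (B ⊕ B) ⊕ Unit

/-- the matrix of the symbols -/
noncomputable def Psi (B : Finset (Cf2 N)) : Matrix (XX N) (JJ B) ℝ :=
  Matrix.of fun x j => Sum.elim (Sum.elim (fun f : B => (dd f.1 x).re)
    (fun f : B => (dd f.1 x).im)) (fun _ => (bd x : ℝ)) j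

/-- the complex coordinates -/
noncomputable def wv {B : Finset (Cf2 N)} (v : JJ B → ℝ) (f : B) : ℂ :=
  (v (Sum.inl (Sum.inl f)) : ℂ) - (v (Sum.inl (Sum.inr f)) : ℂ) * Complex.I

lemma psi_mulVec {B : Finset (Cf2 N)} (v : JJ B → ℝ) (x : XX N) :
    (Psi B).mulVec v x = (∑ f : B, wv v f * dd f.1 x).re + v (Sum.inr ()) * bd x := by
  unfold Matrix.mulVec dotProduct
  rw [Fintype.sum_sum_type, Fintype.sum_sum_type, Complex.re_sum, ← Finset.sum_add_distrib]
  congr 1
  · refine Finset.sum_congr rfl fun f _ => ?_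
    unfold Psi wv
    simp only [Matrix.of_apply, Sum.elim_inl, Sum.elim_inr, Complex.mul_re, Complex.sub_re,
      Complex.sub_im, Complex.ofReal_re, Complex.ofReal_im, Complex.mul_im, Complex.I_re,
      Complex.I_im]
    ring
  · unfold Psi
    simp only [Matrix.of_apply, Sum.elim_inr, Finset.univ_unique, Finset.sum_singleton]
    ring

/-- the constant -/
noncomputable def K2 (N : ℕ) [NeZero N] (B : Finset (Cf2 N)) : ℝ :=
  1 + 10 ^ 17 * (N : ℝ) ^ 7 * (Fintype.card (XX N)) * (B.card : ℝ)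

theorem psi_low (hgr : S_GREEN) (hpe : S_PET) (hcu : S_CUSP1) (hcu2 : S_CUSP2) (hhe : S_HECKE)
    (hqu : S_QUANT) (hN : N.Prime)
    (h2 : N ≠ 2) {B : Finset (Cf2 N)} (hB : IsNewBasis N 2 B) (v : JJ B → ℝ) :
    ∑ i, |v i| ≤ K2 N B * ∑ x : XX N, |(Psi B).mulVec v x| := by
  classical
  choose ε hε using fun f : B => hB.newf f.1 f.2
  have h1 := hab2 hgr hpe hcu hhe hN h2 hB (wv v) (v (Sum.inr ()))
  simp_rw [← psi_mulVec] at h1
  set q : ℝ := ∑ x : XX N, |(Psi B).mulVec v x| with hq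
  have hq0 : 0 ≤ q := Finset.sum_nonneg fun x _ => abs_nonneg _
  set m : ℝ := (Fintype.card (XX N) : ℝ) with hm
  set g : ℝ := (B.card : ℝ) with hg
  have hm0 : 0 ≤ m := by positivity
  have hg0 : 0 ≤ g := by positivity
  have hN1 : (1 : ℝ) ≤ N := by exact_mod_cast hN.one_lt.le
  set W : ℝ := ∑ f : B, ‖wv v f‖ with hW
  have hW0 : 0 ≤ W := Finset.sum_nonneg fun f _ => norm_nonneg _
  -- division by `co f 2 - 3`
  have h3 : W ≤ (100 * (N : ℝ)) ^ 4 * ∑ f : B, ‖(co f.1 2 - 3) * wv v f‖ := by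
    rw [hW, Finset.mul_sum]
    refine Finset.sum_le_sum fun f _ => ?_
    have e1 := hqu N hN h2 f.1 (ε f) (hε f)
    have e2 : 1 / (100 * (N : ℝ)) ^ 4 ≤ ‖co f.1 2 - 3‖ := by
      have e3 : ‖(3 : ℂ)‖ ≤ ‖co f.1 2 - 3‖ + ‖co f.1 2‖ := by
        calc ‖(3 : ℂ)‖ = ‖-(co f.1 2 - 3) + co f.1 2‖ := by congr 1; ring
          _ ≤ _ := by
            refine (norm_add_le _ _).trans ?_
            rw [norm_neg]
      have e4 : ‖(3 : ℂ)‖ = 3 := by norm_num
      rw [e4] at e3
      linarith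
    rw [norm_mul]
    have e5 : 0 < (100 * (N : ℝ)) ^ 4 := by positivity
    rw [div_le_iff₀ e5] at e2
    calc ‖wv v f‖ = 1 * ‖wv v f‖ := (one_mul _).symm
      _ ≤ (‖co f.1 2 - 3‖ * (100 * (N : ℝ)) ^ 4) * ‖wv v f‖ := by gcongr
      _ = _ := by ring
  have h4 : W ≤ 10 ^ 16 * (N : ℝ) ^ 6 * m * g * q := by
    refine h3.trans ?_
    calc (100 * (N : ℝ)) ^ 4 * ∑ f : B, ‖(co f.1 2 - 3) * wv v f‖ ≤
        (100 * (N : ℝ)) ^ 4 * (10 ^ 8 * (N : ℝ) ^ 2 * m * g * q) := by gcongr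
      _ = _ := by ring
  -- the last coordinate
  have h5 : |v (Sum.inr ())| ≤ q + 8 * N * W := by
    have e1 := psi_mulVec v (x0 N)
    rw [bd_x0 hN] at e1
    have e2 : v (Sum.inr ()) = (Psi B).mulVec v (x0 N) - (∑ f : B, wv v f * dd f.1 (x0 N)).re := by
      rw [e1]
      push_cast
      ring
    rw [e2]
    refine (abs_sub _ _).trans ?_
    refine add_le_add ?_ ?_
    · exact Finset.single_le_sum (f := fun x => |(Psi B).mulVec v x|) (fun x _ => abs_nonneg _)
        (Finset.mem_univ (x0 N))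
    · refine (Complex.abs_re_le_norm _).trans ((norm_sum_le _ _).trans ?_)
      rw [hW, Finset.mul_sum]
      refine Finset.sum_le_sum fun f _ => ?_
      rw [norm_mul, mul_comm]
      refine mul_le_mul_of_nonneg_right ?_ (norm_nonneg _)
      rw [(hcu2 N hN f.1 (ε f) (hε f)).2.2]
      exact bv_zero_bd (hε f) (coef N hN f.1 (ε f) (hε f))
  -- all coordinates
  have h6 : ∑ i, |v i| ≤ 2 * W + |v (Sum.inr ())| := by
    rw [Fintype.sum_sum_type, Fintype.sum_sum_type]
    refine add_le_add ?_ (by simp)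
    rw [two_mul, hW]
    refine add_le_add (Finset.sum_le_sum fun f _ => ?_) (Finset.sum_le_sum fun f _ => ?_)
    · have e1 : v (Sum.inl (Sum.inl f)) = (wv v f).re := by
        unfold wv
        simp
      rw [e1]
      exact Complex.abs_re_le_norm _
    · have e1 : v (Sum.inl (Sum.inr f)) = -(wv v f).im := by
        unfold wv
        simp
      rw [e1, abs_neg]
      exact Complex.abs_im_le_norm _
  unfold K2
  calc ∑ i, |v i| ≤ 2 * W + (q + 8 * N * W) := by linarith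
    _ = q + (2 + 8 * N) * W := by ring
    _ ≤ q + (10 * N) * (10 ^ 16 * (N : ℝ) ^ 6 * m * g * q) := by
        gcongr
        linarith
    _ = _ := by ring

end Pool.Agent.K4H13.CV
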