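import Pool.Agent.K4H13.CV.Cus0

/-!
# Project CV: the symbols are periods plus multiples of the winding element
-/

set_option autoImplicit false

open Complex Filter Topology Set UpperHalfPlane MatrixGroups CongruenceSubgroup ModularGroup

namespace Pool.Agent.K4H13.CV

open Pool.Agent.TH940 (prim prim_deriv Fr prim_fricke exp_norm)
open Pool.Agent.Y18.BSD

variable {N : ℕ} [NeZero N]

open Classical in
lemma cc_form (hN : N.Prime) (g : SL(2, ℤ)) : ∃ γ : Gamma0 N, ∀ (f : Cf2 N) (ε : ℝ),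
    W388.IsNewf N 2 f ε → CC f g = per f γ + (if g ∈ Gamma0 N then 0 else bv f 0) := by
  by_cases hg : g ∈ Gamma0 N
  · refine ⟨⟨g, hg⟩, fun f ε hf => ?_⟩
    rw [if_pos hg, add_zero]
    exact cc_mem hN hf ⟨g, hg⟩
  · rcases cases0 hN g with h | ⟨j, γ, hγ, h⟩
    · exact absurd h hg
    · refine ⟨⟨γ, hγ⟩, fun f ε hf => ?_⟩
      rw [if_neg hg, h]
      have h1 := cc_mul hN hf ⟨γ, hγ⟩ (S * T ^ j)
      rw [cc_T hN hf, cc_S hf] at h1
      exact h1

lemma per_inv (f : Cf2 N) (γ : Gamma0 N) : per f γ⁻¹ = -per f γ := by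
  have h := per_mul f γ γ⁻¹
  rw [mul_inv_cancel, per_one] at h
  linear_combination -h

lemma eq_x0_iff (x : XX N) : x = x0 N ↔ gx x ∈ Gamma0 N := by
  conv_lhs => rw [← Xg_gx x, x0_eq, Xg_eq]
  rw [inv_one, mul_one]

lemma eq_Sx0_iff (x : XX N) : x = S • x0 N ↔ gx x * S ∈ Gamma0 N := by
  conv_lhs => rw [← Xg_gx x, x0_eq, smul_Xg, Xg_eq]
  rw [one_mul, inv_inv]

/-- CLO : the symbols are periods plus multiples of the winding element -/
theorem clo (hN : N.Prime) (x : XX N) : ∃ γ : Gamma0 N, ∀ (f : Cf2 N) (ε : ℝ),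
    W388.IsNewf N 2 f ε → dd f x = per f γ + (bd x : ℂ) * bv f 0 := by
  classical
  obtain ⟨γ1, h1⟩ := cc_form hN (gx x * S)
  obtain ⟨γ2, h2⟩ := cc_form hN (gx x)
  refine ⟨γ1 * γ2⁻¹, fun f ε hf => ?_⟩
  have e1 : dd f x = CC f (gx x * S) - CC f (gx x) := rfl
  rw [e1, h1 f ε hf, h2 f ε hf, per_mul, per_inv]
  unfold bd
  have e2 := eq_x0_iff x
  have e3 := eq_Sx0_iff x
  by_cases a : x = x0 N <;> by_cases b : x = S • x0 N
  · rw [if_pos a, if_pos b, if_pos (e2.1 a), if_pos (e3.1 b)]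
    push_cast
    ring
  · rw [if_pos a, if_neg b, if_pos (e2.1 a), if_neg (fun h => b (e3.2 h))]
    push_cast
    ring
  · rw [if_neg a, if_pos b, if_neg (fun h => a (e2.2 h)), if_pos (e3.1 b)]
    push_cast
    ring
  · rw [if_neg a, if_neg b, if_neg (fun h => a (e2.2 h)), if_neg (fun h => b (e3.2 h))]
    push_cast
    ring

end Pool.Agent.K4H13.CV
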