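import Pool.Agent.K4H13.CV.Near

/-!
# Project CV: the Hecke translates of the winding element
-/

set_option autoImplicit false

open Complex Filter Topology Set UpperHalfPlane MatrixGroups CongruenceSubgroup

namespace Pool.Agent.K4H13.CV

open Pool.Agent.TH940 (prim prim_deriv Fr prim_fricke Pers prim_near prim_line exp_norm)
open Pool.Agent.Y18.BSD

variable {N : ℕ} [NeZero N]

lemma newf_fr {f : Cf2 N} {ε : ℝ} (hf : W388.IsNewf N 2 f ε) : Fr f (ε : ℂ) := by
  intro τ τ' h
  rw [hf.fricke τ τ' h]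
  have h1 : ((((Real.sqrt N : ℝ) : ℂ) * (τ : ℂ) / Complex.I) ^ (2 : ℤ)) = -((N : ℂ) * (τ : ℂ) ^ 2) := by
    have h2 : (((Real.sqrt N : ℝ) : ℂ)) ^ 2 = (N : ℂ) := by
      rw [← Complex.ofReal_pow, Real.sq_sqrt (Nat.cast_nonneg N)]
      norm_cast
    rw [zpow_ofNat, div_pow, mul_pow, h2, Complex.I_sq]
    ring
  rw [h1]
  ring

lemma newf_hrel {f : Cf2 N} {ε : ℝ} (hf : W388.IsNewf N 2 f ε) : HRel f where
  one := hf.one
  mul := hf.mul
  pow := fun p j hp => by
    have h := hf.pow p j hp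
    have h1 : ((p : ℂ) ^ ((2 : ℤ) - 1)) = (p : ℂ) := by norm_num
    rw [h1] at h
    exact h

/-- the vector of the periods of `γ` -/
noncomputable def pv (B : Finset (Cf2 N)) (γ : Gamma0 N) : B → ℂ := fun f => per f.1 γ

/-- the homomorphism of the periods -/
noncomputable def pvHom (B : Finset (Cf2 N)) : Additive (Gamma0 N) →+ (B → ℂ) where
  toFun γ := pv B γ.toMul
  map_zero' := by
    funext f
    exact (perHom f.1).map_zero
  map_add' γ δ := by
    funext f
    exact per_mul f.1 γ.toMul δ.toMul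

/-- the period lattice -/
noncomputable def LL (B : Finset (Cf2 N)) : AddSubgroup (B → ℂ) := (pvHom B).range

lemma pv_mem (B : Finset (Cf2 N)) (γ : Gamma0 N) : pv B γ ∈ LL B := ⟨Additive.ofMul γ, rfl⟩

/-- the multipliers which map the differences of the boundary values to periods -/
def PPm (B : Finset (Cf2 N)) (t : B → ℂ) : Prop := ∀ r r' : ℚ, r.den.Coprime N → r'.den.Coprime N →
  (fun f : B => t f * (bv f.1 r - bv f.1 r')) ∈ LL B

variable {B : Finset (Cf2 N)} (hB : ∀ f ∈ B, ∃ ε : ℝ, W388.IsNewf N 2 f ε)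

include hB in
lemma PP_one : PPm B 1 := by
  intro r r' hr hr'
  obtain ⟨γ, hγ⟩ := bv_sub (N := N) r r' hr hr'
  have : (fun f : B => (1 : B → ℂ) f * (bv f.1 r - bv f.1 r')) = pv B γ := by
    funext f
    obtain ⟨ε, hε⟩ := hB f.1 f.2
    rw [Pi.one_apply, one_mul, hγ f.1 ε (newf_fr hε)]
    rfl
  rw [this]
  exact pv_mem B γ

lemma PPm.sub {s t : B → ℂ} (hs : PPm B s) (ht : PPm B t) : PPm B (s - t) := by
  intro r r' hr hr'
  have := (LL B).sub_mem (hs r r' hr hr') (ht r r' hr hr')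
  refine (congrArg (· ∈ LL B) ?_).mp this
  funext f
  simp only [Pi.sub_apply]
  ring

lemma PPm.nsmul {t : B → ℂ} (n : ℕ) (ht : PPm B t) : PPm B (fun f => (n : ℂ) * t f) := by
  intro r r' hr hr'
  have := (LL B).nsmul_mem (ht r r' hr hr') n
  refine (congrArg (· ∈ LL B) ?_).mp this
  funext f
  simp only [Pi.smul_apply, nsmul_eq_mul]
  ring

include hB in
lemma PPm.prime {t : B → ℂ} (ht : PPm B t) {p : ℕ} (hp : p.Prime) (hpN : ¬ p ∣ N) :
    PPm B (fun f => co f.1 p * t f) := by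
  intro r r' hr hr'
  have hco : p.Coprime N := (Nat.Prime.coprime_iff_not_dvd hp).2 hpN
  have h1 := ht (p * r) (p * r') ((den_mul_iff r hco).2 hr) ((den_mul_iff r' hco).2 hr')
  have h2 : ∀ u ∈ Finset.range p, (fun f : B => t f * (bv f.1 ((r + u) / p) -
      bv f.1 ((r' + u) / p))) ∈ LL B := fun u _ =>
    ht _ _ ((den_div_iff r u hco hp.ne_zero).2 hr) ((den_div_iff r' u hco hp.ne_zero).2 hr')
  have h3 := (LL B).add_mem h1 ((LL B).sum_mem h2)
  refine (congrArg (· ∈ LL B) ?_).mp h3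
  funext f
  obtain ⟨ε, hε⟩ := hB f.1 f.2
  have e1 := bv_hecke (newf_hrel hε) (newf_fr hε) hp hpN r
  have e2 := bv_hecke (newf_hrel hε) (newf_fr hε) hp hpN r'
  simp only [Pi.add_apply, Finset.sum_apply]
  rw [← Finset.mul_sum, Finset.sum_sub_distrib]
  linear_combination (-t f) * e1 + t f * e2

include hB in
lemma PPm.prime_pow {p : ℕ} (hp : p.Prime) (hpN : ¬ p ∣ N) (j : ℕ) :
    ∀ t : B → ℂ, PPm B t → PPm B (fun f => co f.1 (p ^ j) * t f) ∧
      PPm B (fun f => co f.1 (p ^ (j + 1)) * t f) := by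
  induction j with
  | zero =>
    intro t ht
    refine ⟨?_, ?_⟩
    · refine (congrArg (PPm B) ?_).mp ht
      funext f
      obtain ⟨ε, hε⟩ := hB f.1 f.2
      rw [pow_zero, (newf_hrel hε).one, one_mul]
    · rw [zero_add, pow_one]
      exact PPm.prime hB ht hp hpN
  | succ j ih =>
    intro t ht
    obtain ⟨h1, h2⟩ := ih t ht
    refine ⟨h2, ?_⟩
    have h3 := (PPm.prime hB h2 hp hpN).sub (h1.nsmul p)
    refine (congrArg (PPm B) ?_).mp h3
    funext f
    obtain ⟨ε, hε⟩ := hB f.1 f.2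
    have := (newf_hrel hε).pow p j hp
    rw [if_neg hpN] at this
    simp only [Pi.sub_apply]
    rw [show j + 1 + 1 = j + 2 by ring, this]
    ring

include hB in
lemma PPm.all (n : ℕ) : n.Coprime N → ∀ t : B → ℂ, PPm B t → PPm B (fun f => co f.1 n * t f) := by
  induction n using Nat.recOnPosPrimePosCoprime with
  | prime_pow p j hp hj =>
    intro hn t ht
    have hpN : ¬ p ∣ N := by
      intro h
      have h1 : p.Coprime N := Nat.Coprime.coprime_dvd_left (dvd_pow_self p hj.ne') hn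
      exact hp.one_lt.ne' (Nat.Coprime.eq_one_of_dvd h1 h)
    exact (PPm.prime_pow hB hp hpN j t ht).1
  | zero =>
    intro hn t ht
    have : (fun f : B => co f.1 0 * t f) = fun f => (0 : ℕ) * t f := by
      funext f
      have : co f.1 0 = 0 := W388.coeff_zero f.1
      rw [this, Nat.cast_zero]
    rw [this]
    exact ht.nsmul 0
  | one =>
    intro hn t ht
    refine (congrArg (PPm B) ?_).mp ht
    funext f
    obtain ⟨ε, hε⟩ := hB f.1 f.2
    rw [(newf_hrel hε).one, one_mul]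
  | coprime a b ha hb hab iha ihb =>
    intro hn t ht
    have h1 := iha (Nat.Coprime.coprime_dvd_left (dvd_mul_right a b) hn) _
      (ihb (Nat.Coprime.coprime_dvd_left (dvd_mul_left b a) hn) t ht)
    refine (congrArg (PPm B) ?_).mp h1
    funext f
    obtain ⟨ε, hε⟩ := hB f.1 f.2
    rw [(newf_hrel hε).mul a b hab]
    ring

include hB in
/-- **The Hecke translates of the winding element give periods.** -/
theorem winding (h2N : ¬ 2 ∣ N) (n : ℕ) (hn : n.Coprime N) :
    (fun f : B => co f.1 n * ((co f.1 2 - 3) * bv f.1 0)) ∈ LL B := by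
  have hco : Nat.Coprime 2 N := (Nat.Prime.coprime_iff_not_dvd Nat.prime_two).2 h2N
  have hd : ((1 : ℚ) / 2).den = 2 := by
    rw [show ((1 : ℚ) / 2) = (2 : ℚ)⁻¹ by norm_num]
    exact Rat.inv_natCast_den_of_pos (a := 2) (by norm_num)
  have h1 := PPm.all hB n hn 1 (PP_one hB) (1 / 2) 0 (by rw [hd]; exact hco) (by simp)
  refine (congrArg (· ∈ LL B) ?_).mp h1
  funext f
  obtain ⟨ε, hε⟩ := hB f.1 f.2
  have e1 := bv_hecke (newf_hrel hε) (newf_fr hε) Nat.prime_two h2N 0
  rw [Finset.sum_range_succ, Finset.sum_range_one] at e1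
  norm_num at e1
  simp only [Pi.one_apply, mul_one]
  rw [sub_mul, e1]
  ring

end Pool.Agent.K4H13.CV
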