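import Pool.Agent.K4H13.CV.Stm2

/-!
# Project CV: the pieces PLK and FIX (linear algebra)
-/

set_option autoImplicit false

namespace Pool.Agent.K4H13.CV

namespace PlkFix

section fix

theorem fix_pow {K : Type} [Field K] {X : Type} {σ : Equiv.Perm X} {φ : X → K} (h : ∀ x, φ (σ x) = φ x) (n : ℕ) (x : X) :
    φ ((σ ^ n) x) = φ x := by
  induction n generalizing x with
  | zero => rfl
  | succ n ih => rw [pow_succ, Equiv.Perm.mul_apply, ih, h]

theorem fix_zpow {K : Type} [Field K] {X : Type} {σ : Equiv.Perm X} {φ : X → K} (h : ∀ x, φ (σ x) = φ x) (n : ℤ) (x : X) :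
    φ ((σ ^ n) x) = φ x := by
  cases n with
  | ofNat n => exact fix_pow h n x
  | negSucc n =>
    rw [zpow_negSucc]
    have := fix_pow h (n + 1) ((σ ^ (n + 1))⁻¹ x)
    have h2 : (σ ^ (n + 1)) ((σ ^ (n + 1))⁻¹ x) = x := by
      rw [← Equiv.Perm.mul_apply, mul_inv_cancel]
      rfl
    rw [h2] at this
    exact this.symm

/-- the fixed functions are the functions on the orbits -/
def fixEquiv (K : Type) [Field K] {X : Type} (σ : Equiv.Perm X) :
    fixSub K σ ≃ₗ[K] (Quotient (Equiv.Perm.SameCycle.setoid σ) → K) where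
  toFun φ := fun q => Quotient.lift (s := Equiv.Perm.SameCycle.setoid σ) φ.1 (fun x y h => by
    obtain ⟨n, hn⟩ := h
    rw [← hn, fix_zpow φ.2]) q
  invFun ψ := ⟨fun x => ψ (Quotient.mk _ x), fun x => by
    show ψ (Quotient.mk _ (σ x)) = ψ (Quotient.mk _ x)
    congr 1
    apply Quotient.sound
    exact ⟨-1, by simp⟩⟩
  map_add' φ φ' := by
    funext q
    induction q using Quotient.inductionOn
    rfl
  map_smul' c φ := by
    funext q
    induction q using Quotient.inductionOn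
    rfl
  left_inv φ := by
    apply Subtype.ext
    rfl
  right_inv ψ := by
    funext q
    induction q using Quotient.inductionOn
    rfl

theorem fix0 : S_FIX := by
  intro X _ σ
  have : Finite (Quotient (Equiv.Perm.SameCycle.setoid σ)) := inferInstance
  have := Fintype.ofFinite (Quotient (Equiv.Perm.SameCycle.setoid σ))
  rw [(fixEquiv ℝ σ).finrank_eq, (fixEquiv ℂ σ).finrank_eq, Module.finrank_fintype_fun_eq_card,
    Module.finrank_fintype_fun_eq_card]

end fix

section plk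

open Matrix

/-- the relation vectors -/
def rel {X : Type} [DecidableEq X] (σ υ : Equiv.Perm X) : X ⊕ X → X → ℤ
  | .inl a => fun x => (if x = a then 1 else 0) + (if x = σ a then 1 else 0)
  | .inr a => fun x => (if x = a then 1 else 0) + (if x = υ a then 1 else 0) + (if x = υ (υ a) then 1 else 0)

variable {X : Type} [Fintype X] [DecidableEq X] (σ υ : Equiv.Perm X)

omit [Fintype X] in
theorem rel_nonneg (t : X ⊕ X) (x : X) : 0 ≤ rel σ υ t x := by
  rcases t with a | a <;> simp only [rel] <;> split_ifs <;> norm_num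

omit [Fintype X] in
theorem rel_le (t : X ⊕ X) (x : X) : rel σ υ t x ≤ 3 := by
  rcases t with a | a <;> simp only [rel] <;> split_ifs <;> norm_num

theorem rel_sum (t : X ⊕ X) : ∑ x, rel σ υ t x ≤ 3 := by
  rcases t with a | a <;> simp only [rel, Finset.sum_add_distrib, Finset.sum_ite_eq', Finset.mem_univ, if_true] <;> norm_num

theorem rel_ker {d : ℕ} {Ψ : Matrix X (Fin d) ℝ} (h1 : ∀ x i, Ψ x i + Ψ (σ x) i = 0)
    (h2 : ∀ x i, Ψ x i + Ψ (υ x) i + Ψ (υ (υ x)) i = 0) (t : X ⊕ X) (i : Fin d) :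
    ∑ x, (rel σ υ t x : ℝ) * Ψ x i = 0 := by
  rcases t with a | a
  · simp only [rel]
    push_cast
    simp only [add_mul, ite_mul, one_mul, zero_mul, Finset.sum_add_distrib, Finset.sum_ite_eq', Finset.mem_univ, if_true]
    exact h1 a i
  · simp only [rel]
    push_cast
    simp only [add_mul, ite_mul, one_mul, zero_mul, Finset.sum_add_distrib, Finset.sum_ite_eq', Finset.mem_univ, if_true]
    exact h2 a i

theorem span_inl (hσ : ∀ x, σ (σ x) = x) :
    fixSub ℝ σ ≤ Submodule.span ℝ (Set.range fun t => (fun x => (rel σ υ t x : ℝ))) := by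
  intro φ hφ
  have hφ' : ∀ x, φ (σ x) = φ x := hφ
  have e1 : φ = ∑ a, (φ a / 2) • (fun x => (rel σ υ (Sum.inl a) x : ℝ)) := by
    funext x
    rw [Finset.sum_apply]
    simp only [Pi.smul_apply, smul_eq_mul, rel]
    push_cast
    have h3 : ∀ a, (x = σ a) ↔ (σ x = a) := fun a => ⟨fun h => by rw [h, hσ], fun h => by rw [← h, hσ]⟩
    simp only [h3, mul_add, mul_ite, mul_one, mul_zero, Finset.sum_add_distrib, Finset.sum_ite_eq, Finset.mem_univ, if_true]
    rw [hφ']
    ring
  rw [e1]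
  exact Submodule.sum_mem _ fun a _ => Submodule.smul_mem _ _ (Submodule.subset_span ⟨Sum.inl a, rfl⟩)

theorem span_inr (hυ : ∀ x, υ (υ (υ x)) = x) :
    fixSub ℝ υ ≤ Submodule.span ℝ (Set.range fun t => (fun x => (rel σ υ t x : ℝ))) := by
  intro φ hφ
  have hφ' : ∀ x, φ (υ x) = φ x := hφ
  have e1 : φ = ∑ a, (φ a / 3) • (fun x => (rel σ υ (Sum.inr a) x : ℝ)) := by
    funext x
    rw [Finset.sum_apply]
    simp only [Pi.smul_apply, smul_eq_mul, rel]
    push_cast
    have h3 : ∀ a, (x = υ a) ↔ (υ (υ x) = a) := fun a => ⟨fun h => by rw [h, hυ], fun h => by rw [← h, hυ]⟩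
    have h4 : ∀ a, (υ (υ x) = υ a) ↔ (υ x = a) := fun a => υ.injective.eq_iff
    simp only [h3, h4, mul_add, mul_ite, mul_one, mul_zero, Finset.sum_add_distrib, Finset.sum_ite_eq, Finset.mem_univ,
      if_true]
    rw [hφ', hφ']
    ring
  rw [e1]
  exact Submodule.sum_mem _ fun a _ => Submodule.smul_mem _ _ (Submodule.subset_span ⟨Sum.inr a, rfl⟩)

omit [Fintype X] [DecidableEq X] in
theorem inf_le (htr : ∀ φ : X → ℝ, (∀ x, φ (σ x) = φ x) → (∀ x, φ (υ x) = φ x) → ∀ x y, φ x = φ y) :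
    Module.finrank ℝ (fixSub ℝ σ ⊓ fixSub ℝ υ : Submodule ℝ (X → ℝ)) ≤ 1 := by
  refine finrank_le_one ⟨fun _ => 1, fun _ => rfl, fun _ => rfl⟩ fun w => ?_
  rcases isEmpty_or_nonempty X with hX | ⟨⟨x₀⟩⟩
  · exact ⟨0, Subtype.ext (Subsingleton.elim _ _)⟩
  · refine ⟨w.1 x₀, Subtype.ext (funext fun x => ?_)⟩
    show w.1 x₀ * 1 = w.1 x
    rw [mul_one]
    exact htr w.1 w.2.1 w.2.2 x₀ x

theorem plk0 : S_PLK := by
  intro X _ _ σ υ hσ hυ htr d Ψ h1 h2 hdim A hA
  classical
  obtain ⟨κ, a, ha, hsp, hli⟩ := exists_linearIndependent' ℝ (fun t : X ⊕ X => (fun x => (rel σ υ t x : ℝ)))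
  have hfin : Finite κ := Finite.of_injective a ha
  have := Fintype.ofFinite κ
  set Ar : Matrix (Fin d) X ℝ := A.map (Int.cast : ℤ → ℝ) with hAr
  set R : Matrix κ X ℤ := fun k x => rel σ υ (a k) x with hR
  set Rr : Matrix κ X ℝ := R.map (Int.cast : ℤ → ℝ) with hRr
  have hRrow : ∀ k, Rr k = fun x => (rel σ υ (a k) x : ℝ) := fun k => rfl
  have hRΨ : Rr * Ψ = 0 := by
    ext k i
    rw [Matrix.mul_apply]
    exact rel_ker σ υ h1 h2 (a k) i
  -- independence of the rows
  have hliR : LinearIndependent ℝ Rr := hli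
  have hinjR : Function.Injective Rr.vecMul := Matrix.vecMul_injective_iff.2 hliR
  have hinjM : ∀ v : Fin d ⊕ κ → ℝ, v ᵥ* Matrix.fromRows Ar Rr = 0 → v = 0 := by
    intro v hv
    rw [Matrix.vecMul_fromRows] at hv
    have h3 := congrArg (fun w => w ᵥ* Ψ) hv
    simp only [Matrix.add_vecMul, Matrix.vecMul_vecMul, hRΨ, Matrix.vecMul_zero, add_zero, Matrix.zero_vecMul] at h3
    have h4 : v ∘ Sum.inl = 0 := Matrix.eq_zero_of_vecMul_eq_zero hA h3
    rw [h4, Matrix.zero_vecMul, zero_add] at hv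
    have h5 : v ∘ Sum.inr = 0 := hinjR (by simpa using hv)
    funext t
    rcases t with i | k
    · exact congrFun h4 i
    · exact congrFun h5 k
  have hcard1 : d + Fintype.card κ ≤ Fintype.card X := by
    have h3 : Function.Injective (Matrix.fromRows Ar Rr).vecMulLinear := by
      rw [← LinearMap.ker_eq_bot, LinearMap.ker_eq_bot']
      exact hinjM
    have h4 := LinearMap.finrank_le_finrank_of_injective h3
    rw [Module.finrank_fintype_fun_eq_card, Module.finrank_fintype_fun_eq_card, Fintype.card_sum, Fintype.card_fin] at h4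
    exact h4
  have hcard2 : Fintype.card X ≤ d + Fintype.card κ := by
    have h3 : Module.finrank ℝ (Submodule.span ℝ (Set.range fun t : X ⊕ X => (fun x => (rel σ υ t x : ℝ)))) =
        Fintype.card κ := by
      rw [← hsp]
      exact finrank_span_eq_card hli
    have h4 : fixSub ℝ σ ⊔ fixSub ℝ υ ≤
        Submodule.span ℝ (Set.range fun t : X ⊕ X => (fun x => (rel σ υ t x : ℝ))) :=
      sup_le (span_inl σ υ hσ) (span_inr σ υ hυ)
    have h5 := Submodule.finrank_mono h4
    have h6 := Submodule.finrank_sup_add_finrank_inf_eq (fixSub ℝ σ) (fixSub ℝ υ)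
    have h7 := inf_le σ υ htr
    omega
  have hcard : Fintype.card (Fin d ⊕ κ) = Fintype.card X := by
    rw [Fintype.card_sum, Fintype.card_fin]
    omega
  have e : Fin d ⊕ κ ≃ X := Fintype.equivOfCardEq hcard
  -- the square matrices
  set M : Matrix (Fin d ⊕ κ) (Fin d ⊕ κ) ℤ := (Matrix.fromRows A R).submatrix id e with hM
  set W : Matrix (Fin d ⊕ κ) (Fin d ⊕ κ) ℝ := (Matrix.fromCols Ψ Rrᵀ).submatrix e id with hW
  have hMr : M.map (Int.cast : ℤ → ℝ) = (Matrix.fromRows Ar Rr).submatrix id e := by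
    ext i j
    rcases i with i | i <;> rfl
  have hMW : M.map (Int.cast : ℤ → ℝ) * W = Matrix.fromBlocks (Ar * Ψ) (Ar * Rrᵀ) 0 (Rr * Rrᵀ) := by
    rw [hMr, hW, Matrix.submatrix_mul_equiv, Matrix.submatrix_id_id, Matrix.fromRows_mul_fromCols, hRΨ]
  have hΨR : Ψᵀ * Rrᵀ = 0 := by
    rw [← Matrix.transpose_mul, hRΨ, Matrix.transpose_zero]
  have hWW : Wᵀ * W = Matrix.fromBlocks (Ψᵀ * Ψ) 0 0 (Rr * Rrᵀ) := by
    rw [hW, Matrix.transpose_submatrix, Matrix.submatrix_mul_equiv, Matrix.submatrix_id_id, Matrix.transpose_fromCols,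
      Matrix.transpose_transpose, Matrix.fromRows_mul_fromCols, hRΨ, hΨR]
  have d1 : (M.map (Int.cast : ℤ → ℝ)).det * W.det = (Ar * Ψ).det * (Rr * Rrᵀ).det := by
    rw [← Matrix.det_mul, hMW, Matrix.det_fromBlocks_zero₂₁]
  have d2 : W.det ^ 2 = (Ψᵀ * Ψ).det * (Rr * Rrᵀ).det := by
    have := congrArg Matrix.det hWW
    rw [Matrix.det_mul, Matrix.det_transpose, Matrix.det_fromBlocks_zero₂₁] at this
    rw [sq]
    exact this
  have hpos : 0 < (Rr * Rrᵀ).det := by
    have h3 := Matrix.PosDef.mul_conjTranspose_self Rr hinjR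
    rw [Matrix.conjTranspose_eq_transpose_of_trivial] at h3
    exact h3.det_pos
  have d3 : (M.map (Int.cast : ℤ → ℝ)).det = (M.det : ℝ) := by
    exact (Int.cast_det M).symm
  rw [d3] at d1
  set D : ℝ := (Ψᵀ * Ψ).det with hD
  set E : ℝ := (Ar * Ψ).det with hE
  set G : ℝ := (Rr * Rrᵀ).det with hG
  have d4 : (M.det : ℝ) ^ 2 * D = E ^ 2 * G := by
    have h3 : ((M.det : ℝ) ^ 2 * D) * G = (E ^ 2 * G) * G := by
      calc ((M.det : ℝ) ^ 2 * D) * G = (M.det : ℝ) ^ 2 * (D * G) := by ring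
        _ = ((M.det : ℝ) * W.det) ^ 2 := by rw [← d2]; ring
        _ = _ := by rw [d1]; ring
    exact mul_right_cancel₀ hpos.ne' h3
  have hD0 : 0 ≤ D := by
    have h3 : 0 ≤ D * G := by rw [← d2]; positivity
    exact nonneg_of_mul_nonneg_left h3 hpos
  have hM0 : M.det ≠ 0 := by
    intro h
    rw [h] at d1
    rw [Int.cast_zero, zero_mul] at d1
    exact (mul_ne_zero hA hpos.ne') d1.symm
  have hM1 : (1 : ℝ) ≤ (M.det : ℝ) ^ 2 := by
    have h3 : (1 : ℤ) ≤ M.det ^ 2 := by
      have : 0 < M.det ^ 2 := by positivity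
      omega
    exact_mod_cast h3
  have h3 : D ≤ E ^ 2 * G := by
    rw [← d4]
    nlinarith
  -- the bound
  have hGle : G ≤ (9 * Fintype.card X : ℝ) ^ (2 * Fintype.card X) := by
    have hent : ∀ i j, |(Rr * Rrᵀ) i j| ≤ 9 := by
      intro i j
      rw [Matrix.mul_apply]
      show |∑ x, Rr i x * Rr j x| ≤ 9
      have n1 : ∀ k x, 0 ≤ Rr k x := fun k x => by
        show 0 ≤ ((rel σ υ (a k) x : ℤ) : ℝ)
        exact_mod_cast rel_nonneg σ υ (a k) x
      have n2 : ∀ k x, Rr k x ≤ 3 := fun k x => by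
        show ((rel σ υ (a k) x : ℤ) : ℝ) ≤ 3
        exact_mod_cast rel_le σ υ (a k) x
      have n3 : ∀ k, ∑ x, Rr k x ≤ 3 := fun k => by
        show ∑ x, ((rel σ υ (a k) x : ℤ) : ℝ) ≤ 3
        exact_mod_cast rel_sum σ υ (a k)
      rw [abs_of_nonneg (Finset.sum_nonneg fun x _ => mul_nonneg (n1 i x) (n1 j x))]
      calc ∑ x, Rr i x * Rr j x ≤ ∑ x, Rr i x * 3 := by
            apply Finset.sum_le_sum
            intro x _
            exact mul_le_mul_of_nonneg_left (n2 j x) (n1 i x)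
        _ = (∑ x, Rr i x) * 3 := by rw [Finset.sum_mul]
        _ ≤ 9 := by
          have := n3 i
          linarith
    have h4 := Matrix.det_le (abv := IsAbsoluteValue.toAbsoluteValue (abs : ℝ → ℝ)) (A := Rr * Rrᵀ) (x := 9) hent
    have h5 : G ≤ (Fintype.card κ).factorial • (9 : ℝ) ^ Fintype.card κ := (le_abs_self _).trans h4
    rw [nsmul_eq_mul] at h5
    refine h5.trans ?_
    have hkm : Fintype.card κ ≤ Fintype.card X := by omega
    set k := Fintype.card κ
    set m := Fintype.card X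
    rcases Nat.eq_zero_or_pos m with hm | hm
    · have hk : k = 0 := by omega
      rw [hk, hm]
      simp
    · have hm1 : (1 : ℝ) ≤ m := by exact_mod_cast hm
      have f1 : (k.factorial : ℝ) ≤ (m : ℝ) ^ m := by
        have : k.factorial ≤ m ^ m := (Nat.factorial_le_pow k).trans
          ((Nat.pow_le_pow_left hkm k).trans (Nat.pow_le_pow_right hm hkm))
        exact_mod_cast this
      have f2 : (9 : ℝ) ^ k ≤ 9 ^ m := pow_le_pow_right₀ (by norm_num) hkm
      calc (k.factorial : ℝ) * 9 ^ k ≤ (m : ℝ) ^ m * 9 ^ m := by gcongr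
        _ = (9 * m : ℝ) ^ m := by rw [mul_pow]; ring
        _ ≤ (9 * m : ℝ) ^ (2 * m) := pow_le_pow_right₀ (by linarith) (by omega)
  calc D ≤ E ^ 2 * G := h3
    _ ≤ E ^ 2 * (9 * Fintype.card X : ℝ) ^ (2 * Fintype.card X) := by gcongr
    _ = _ := by ring

end plk

end PlkFix

theorem plk : S_PLK := PlkFix.plk0

theorem fix : S_FIX := PlkFix.fix0

end Pool.Agent.K4H13.CV
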