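import Pool.Agent.K4H13.CV.Stm2

/-!
# Project CV: the cosets of `Γ₀(N)`, `N` prime, are the points of the projective line
-/

set_option autoImplicit false
set_option linter.unusedSectionVars false

open Complex Filter Topology Set UpperHalfPlane MatrixGroups CongruenceSubgroup MeasureTheory
open scoped Manifold ModularForm

namespace Pool.Agent.K4H13.CV

/-! ## the number of fixed functions -/

namespace Sml

variable {X : Type} [Fintype X] [DecidableEq X]

/-- composition with a permutation -/
noncomputable def op (σ : Equiv.Perm X) : (X → ℂ) →ₗ[ℂ] (X → ℂ) := LinearMap.funLeft ℂ ℂ σ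

theorem op_apply (σ : Equiv.Perm X) (f : X → ℂ) (x : X) : op σ f x = f (σ x) := rfl

theorem trace_op (σ : Equiv.Perm X) :
    LinearMap.trace ℂ (X → ℂ) (op σ) = (Finset.univ.filter fun x => σ x = x).card := by
  rw [LinearMap.trace_eq_matrix_trace ℂ (Pi.basisFun ℂ X), Matrix.trace]
  simp only [Matrix.diag_apply, LinearMap.toMatrix_apply, Pi.basisFun_apply, Pi.basisFun_repr,
    op_apply]
  rw [Finset.card_filter]
  push_cast
  refine Finset.sum_congr rfl fun x _ => ?_
  by_cases h : σ x = x <;> simp [Pi.single_apply, h]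

theorem trace_id : LinearMap.trace ℂ (X → ℂ) LinearMap.id = Fintype.card X := by
  rw [LinearMap.trace_id, Module.finrank_fintype_fun_eq_card]

theorem two (σ : Equiv.Perm X) (h : ∀ x, σ (σ x) = x) :
    2 * Module.finrank ℂ (fixSub ℂ σ) = Fintype.card X +
      (Finset.univ.filter fun x => σ x = x).card := by
  have hp : LinearMap.IsProj (fixSub ℂ σ) ((1 / 2 : ℂ) • (LinearMap.id + op σ)) := by
    refine ⟨fun f x => ?_, fun f hf => ?_⟩
    · simp only [LinearMap.smul_apply, LinearMap.add_apply, LinearMap.id_apply, Pi.smul_apply,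
        Pi.add_apply, op_apply, h]
      rw [add_comm]
    · funext x
      simp only [LinearMap.smul_apply, LinearMap.add_apply, LinearMap.id_apply, Pi.smul_apply,
        Pi.add_apply, op_apply, smul_eq_mul]
      rw [hf x]
      ring
  have h1 := hp.trace
  rw [map_smul, map_add, trace_id, trace_op] at h1
  have h2 : ((2 * Module.finrank ℂ (fixSub ℂ σ) : ℕ) : ℂ) = ((Fintype.card X +
      (Finset.univ.filter fun x => σ x = x).card : ℕ) : ℂ) := by
    push_cast
    rw [← h1, smul_eq_mul]
    ring
  exact_mod_cast h2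

theorem three (σ : Equiv.Perm X) (h : ∀ x, σ (σ (σ x)) = x) :
    3 * Module.finrank ℂ (fixSub ℂ σ) = Fintype.card X +
      2 * (Finset.univ.filter fun x => σ x = x).card := by
  have hp : LinearMap.IsProj (fixSub ℂ σ) ((1 / 3 : ℂ) • (LinearMap.id + op σ + op (σ * σ))) := by
    refine ⟨fun f x => ?_, fun f hf => ?_⟩
    · simp only [LinearMap.smul_apply, LinearMap.add_apply, LinearMap.id_apply, Pi.smul_apply,
        Pi.add_apply, op_apply, Equiv.Perm.mul_apply, h]
      congr 1
      ring
    · funext x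
      simp only [LinearMap.smul_apply, LinearMap.add_apply, LinearMap.id_apply, Pi.smul_apply,
        Pi.add_apply, op_apply, smul_eq_mul, Equiv.Perm.mul_apply]
      rw [hf (σ x), hf x]
      ring
  have hfix : (Finset.univ.filter fun x => (σ * σ) x = x) = Finset.univ.filter fun x => σ x = x := by
    ext x
    simp only [Finset.mem_filter, Finset.mem_univ, true_and, Equiv.Perm.mul_apply]
    constructor
    · intro hx
      have := h x
      rw [hx] at this
      exact this
    · intro hx
      rw [hx, hx]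
  have h1 := hp.trace
  rw [map_smul, map_add, map_add, trace_id, trace_op, trace_op, hfix] at h1
  have h2 : ((3 * Module.finrank ℂ (fixSub ℂ σ) : ℕ) : ℂ) = ((Fintype.card X +
      2 * (Finset.univ.filter fun x => σ x = x).card : ℕ) : ℂ) := by
    push_cast
    rw [← h1, smul_eq_mul]
    ring
  exact_mod_cast h2

/-! ## the projective line -/

variable {N : ℕ} [hN : Fact N.Prime]

/-- the point of the projective line given by the first column -/
def col (N : ℕ) [Fact N.Prime] (g : SL(2, ℤ)) : Option (ZMod N) :=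
  if ((g 1 0 : ℤ) : ZMod N) = 0 then none else some (((g 0 0 : ℤ) : ZMod N) / ((g 1 0 : ℤ) : ZMod N))

theorem mem_iff (g h : SL(2, ℤ)) : g⁻¹ * h ∈ Gamma0 N ↔
    ((g 0 0 : ℤ) : ZMod N) * ((h 1 0 : ℤ) : ZMod N) = ((g 1 0 : ℤ) : ZMod N) * ((h 0 0 : ℤ) : ZMod N) := by
  rw [Gamma0_mem]
  have h1 : (g⁻¹ * h) 1 0 = - g 1 0 * h 0 0 + g 0 0 * h 1 0 := by
    rw [Matrix.SpecialLinearGroup.coe_mul, Matrix.SpecialLinearGroup.coe_inv, Matrix.adjugate_fin_two]
    simp [Matrix.mul_apply, Fin.sum_univ_two]
  rw [h1]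
  push_cast
  constructor
  · intro h2
    linear_combination h2
  · intro h2
    linear_combination h2

theorem ne_zero_of (g : SL(2, ℤ)) (h : ((g 1 0 : ℤ) : ZMod N) = 0) : ((g 0 0 : ℤ) : ZMod N) ≠ 0 := by
  intro h0
  have h1 := g.det_coe
  rw [Matrix.det_fin_two] at h1
  have h2 : (((g 0 0 * g 1 1 - g 0 1 * g 1 0 : ℤ)) : ZMod N) = 1 := by
    rw [h1]; simp
  push_cast at h2
  rw [h0, h, zero_mul, mul_zero, sub_zero] at h2
  exact zero_ne_one h2

theorem col_eq_iff (g h : SL(2, ℤ)) : col N g = col N h ↔ g⁻¹ * h ∈ Gamma0 N := by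
  rw [mem_iff]
  unfold col
  by_cases hg : ((g 1 0 : ℤ) : ZMod N) = 0
  · by_cases hh : ((h 1 0 : ℤ) : ZMod N) = 0
    · simp [hg, hh]
    · have := ne_zero_of g hg
      simp [hg, hh, this]
  · by_cases hh : ((h 1 0 : ℤ) : ZMod N) = 0
    · have := ne_zero_of h hh
      simp [hg, hh, this]
    · simp only [hg, hh, if_false, Option.some.injEq]
      rw [div_eq_div_iff hg hh]
      constructor
      · intro h2; linear_combination h2
      · intro h2; linear_combination h2

theorem col_surj : Function.Surjective (col N) := by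
  intro t
  rcases t with _ | t
  · exact ⟨1, by simp [col]⟩
  · obtain ⟨n, rfl⟩ : ∃ n : ℤ, (n : ZMod N) = t := ZMod.intCast_surjective t
    refine ⟨⟨!![n, -1; 1, 0], by simp [Matrix.det_fin_two]⟩, ?_⟩
    simp [col]

/-- the cosets are the points of the projective line -/
noncomputable def eq (N : ℕ) [Fact N.Prime] : XX N ≃ Option (ZMod N) :=
  Equiv.ofBijective (Quotient.lift (col N) fun g h hgh => (col_eq_iff g h).2
    (QuotientGroup.leftRel_apply.1 hgh)) (by
      constructor
      · intro x y
        induction x using Quotient.inductionOn with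
        | _ g =>
        induction y using Quotient.inductionOn with
        | _ h =>
        intro h1
        exact Quotient.sound (QuotientGroup.leftRel_apply.2 ((col_eq_iff g h).1 h1))
      · intro t
        obtain ⟨g, hg⟩ := col_surj (N := N) t
        exact ⟨Quotient.mk _ g, hg⟩)

theorem eq_mk (g : SL(2, ℤ)) : eq N (QuotientGroup.mk g) = col N g := rfl

theorem card_XX : Nat.card (XX N) = N + 1 := by
  rw [Nat.card_congr (eq N), Nat.card_eq_fintype_card, Fintype.card_option, ZMod.card]

noncomputable instance : Fintype (XX N) := Fintype.ofEquiv _ (eq N).symm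

theorem fixS (x : XX N) (h : ModularGroup.S • x = x) :
    ∃ t : ZMod N, eq N x = some t ∧ t ^ 2 + 1 = 0 := by
  induction x using QuotientGroup.induction_on with
  | H g =>
  have h1 : (QuotientGroup.mk (ModularGroup.S * g) : XX N) = QuotientGroup.mk g := h
  rw [eq_comm, QuotientGroup.eq, mem_iff] at h1
  have h2 : ((ModularGroup.S * g : SL(2, ℤ)) 1 0 : ℤ) = g 0 0 := by
    rw [Matrix.SpecialLinearGroup.coe_mul, ModularGroup.S]
    simp [Matrix.mul_apply, Fin.sum_univ_two]
  have h3 : ((ModularGroup.S * g : SL(2, ℤ)) 0 0 : ℤ) = - g 1 0 := by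
    rw [Matrix.SpecialLinearGroup.coe_mul, ModularGroup.S]
    simp [Matrix.mul_apply, Fin.sum_univ_two]
  rw [h2, h3] at h1
  push_cast at h1
  have hc : ((g 1 0 : ℤ) : ZMod N) ≠ 0 := by
    intro hc
    rw [hc, zero_mul] at h1
    exact ne_zero_of g hc (mul_self_eq_zero.1 h1)
  refine ⟨((g 0 0 : ℤ) : ZMod N) / ((g 1 0 : ℤ) : ZMod N), ?_, ?_⟩
  · rw [eq_mk, col, if_neg hc]
  · field_simp
    linear_combination h1

theorem fixU (x : XX N) (h : UU • x = x) :
    ∃ t : ZMod N, eq N x = some t ∧ t ^ 2 + t + 1 = 0 := by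
  induction x using QuotientGroup.induction_on with
  | H g =>
  have h1 : (QuotientGroup.mk (UU * g) : XX N) = QuotientGroup.mk g := h
  rw [eq_comm, QuotientGroup.eq, mem_iff] at h1
  have h2 : ((UU * g : SL(2, ℤ)) 1 0 : ℤ) = g 0 0 + g 1 0 := by
    rw [UU, Matrix.SpecialLinearGroup.coe_mul, Matrix.SpecialLinearGroup.coe_mul, ModularGroup.S,
      ModularGroup.T]
    simp [Matrix.mul_apply, Fin.sum_univ_two]
  have h3 : ((UU * g : SL(2, ℤ)) 0 0 : ℤ) = - g 1 0 := by
    rw [UU, Matrix.SpecialLinearGroup.coe_mul, Matrix.SpecialLinearGroup.coe_mul, ModularGroup.S,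
      ModularGroup.T]
    simp [Matrix.mul_apply, Fin.sum_univ_two]
  rw [h2, h3] at h1
  push_cast at h1
  have hc : ((g 1 0 : ℤ) : ZMod N) ≠ 0 := by
    intro hc
    rw [hc, zero_mul, add_zero] at h1
    exact ne_zero_of g hc (mul_self_eq_zero.1 h1)
  refine ⟨((g 0 0 : ℤ) : ZMod N) / ((g 1 0 : ℤ) : ZMod N), ?_, ?_⟩
  · rw [eq_mk, col, if_neg hc]
  · field_simp
    linear_combination h1

open Classical in
theorem card_fixS : (Finset.univ.filter fun x : XX N => ModularGroup.S • x = x).card ≤ 2 := by
  by_cases hex : ∃ s : ZMod N, s ^ 2 + 1 = 0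
  · obtain ⟨s, hs⟩ := hex
    have h1 : (Finset.univ.filter fun x : XX N => ModularGroup.S • x = x) ⊆
        {(eq N).symm (some s), (eq N).symm (some (-s))} := by
      intro x hx
      obtain ⟨t, ht, ht2⟩ := fixS x (Finset.mem_filter.1 hx).2
      have h2 : (t - s) * (t + s) = 0 := by linear_combination ht2 - hs
      rw [Finset.mem_insert, Finset.mem_singleton, Equiv.eq_symm_apply, Equiv.eq_symm_apply, ht]
      rcases mul_eq_zero.1 h2 with h3 | h3
      · left; rw [sub_eq_zero.1 h3]
      · right; rw [eq_neg_of_add_eq_zero_left h3]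
    exact (Finset.card_le_card h1).trans Finset.card_le_two
  · rw [Finset.card_eq_zero.2]
    · norm_num
    · rw [Finset.filter_eq_empty_iff]
      intro x _ hx
      obtain ⟨t, -, ht2⟩ := fixS x hx
      exact hex ⟨t, ht2⟩

open Classical in
theorem card_fixU : (Finset.univ.filter fun x : XX N => UU • x = x).card ≤ 2 := by
  by_cases hex : ∃ s : ZMod N, s ^ 2 + s + 1 = 0
  · obtain ⟨s, hs⟩ := hex
    have h1 : (Finset.univ.filter fun x : XX N => UU • x = x) ⊆
        {(eq N).symm (some s), (eq N).symm (some (-1 - s))} := by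
      intro x hx
      obtain ⟨t, ht, ht2⟩ := fixU x (Finset.mem_filter.1 hx).2
      have h2 : (t - s) * (t - (-1 - s)) = 0 := by linear_combination ht2 - hs
      rw [Finset.mem_insert, Finset.mem_singleton, Equiv.eq_symm_apply, Equiv.eq_symm_apply, ht]
      rcases mul_eq_zero.1 h2 with h3 | h3
      · left; rw [sub_eq_zero.1 h3]
      · right; rw [sub_eq_zero.1 h3]
    exact (Finset.card_le_card h1).trans Finset.card_le_two
  · rw [Finset.card_eq_zero.2]
    · norm_num
    · rw [Finset.filter_eq_empty_iff]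
      intro x _ hx
      obtain ⟨t, -, ht2⟩ := fixU x hx
      exact hex ⟨t, ht2⟩

theorem neg_smul_mk (g : SL(2, ℤ)) : (QuotientGroup.mk (-g) : XX N) = QuotientGroup.mk g := by
  rw [eq_comm, QuotientGroup.eq, mem_iff]
  simp
  ring

theorem S_sq (x : XX N) : ModularGroup.S • ModularGroup.S • x = x := by
  induction x using QuotientGroup.induction_on with
  | H g =>
  rw [smul_smul]
  change (QuotientGroup.mk (ModularGroup.S * ModularGroup.S * g) : XX N) = _
  have : (ModularGroup.S * ModularGroup.S : SL(2, ℤ)) = -1 := by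
    ext i j
    fin_cases i <;> fin_cases j <;>
      simp [ModularGroup.S, Matrix.mul_apply, Fin.sum_univ_two]
  rw [this, neg_one_mul, neg_smul_mk]

theorem U_cube (x : XX N) : UU • UU • UU • x = x := by
  induction x using QuotientGroup.induction_on with
  | H g =>
  rw [smul_smul, smul_smul]
  change (QuotientGroup.mk (UU * UU * UU * g) : XX N) = _
  have : UU * UU * UU = -1 := by
    ext i j
    fin_cases i <;> fin_cases j <;>
      simp [UU, ModularGroup.S, ModularGroup.T, Matrix.mul_apply, Fin.sum_univ_two]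
  rw [this, neg_one_mul, neg_smul_mk]

end Sml

/-- SMALL -/
theorem small : S_SMALL := by
  classical
  intro N _ hN
  have : Fact N.Prime := ⟨hN⟩
  have h0 := Sml.card_XX (N := N)
  have hF : Fintype.card (XX N) = N + 1 := by rw [← h0, Nat.card_eq_fintype_card]
  refine ⟨h0, ?_, ?_⟩
  · have h1 := Sml.two (MulAction.toPerm (ModularGroup.S : SL(2, ℤ)) : Equiv.Perm (XX N))
      (fun x => Sml.S_sq x)
    have h2 := Sml.card_fixS (N := N)
    have h3 : (Finset.univ.filter fun x : XX N =>
        (MulAction.toPerm (ModularGroup.S : SL(2, ℤ)) : Equiv.Perm (XX N)) x = x).card ≤ 2 := h2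
    rw [hF] at h1
    unfold nS
    omega
  · have h1 := Sml.three (MulAction.toPerm UU : Equiv.Perm (XX N)) (fun x => Sml.U_cube x)
    have h2 := Sml.card_fixU (N := N)
    have h3 : (Finset.univ.filter fun x : XX N =>
        (MulAction.toPerm UU : Equiv.Perm (XX N)) x = x).card ≤ 2 := h2
    rw [hF] at h1
    unfold nU
    omega

end Pool.Agent.K4H13.CV
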