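import Pool.Agent.K4H13.CV.Asm2
import Pool.Agent.K4H13.CV.LA2
import Pool.Agent.K4H13.CV.Plk
import Pool.Agent.K4H13.CV.Sml
import Pool.Agent.K4H13.CV.Mem
import Pool.Agent.K4H13.CV.Clo

/-!
# Project CV: lower bound for the determinants of periods
-/

set_option autoImplicit false

open Complex Filter Topology Set UpperHalfPlane MatrixGroups CongruenceSubgroup MeasureTheory
open scoped Manifold ModularForm

namespace Pool.Agent.K4H13.CV

open Pool.Agent.TH940 (prim Fr)
open Pool.Agent.Y18.BSD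
open W388.LV (SF bf pet IsNewBasis)

/-- the pieces -/
structure HYP : Prop where
  gr : S_GREEN
  pe : S_PET
  c1 : S_CUSP1
  c2 : S_CUSP2
  c3 : S_CUSP3
  pa : S_PATH
  he : S_HECKE
  qu : S_QUANT
  fr : S_FREE
  wt : S_WT
  cl : S_CLS
  cd : S_CUSPDIM

variable {N : ℕ} [NeZero N]

noncomputable instance decCf : DecidableEq (Cf2 N) := Classical.decEq _

noncomputable instance decXX : DecidableEq (XX N) := Classical.decEq _

lemma K2_pos (B : Finset (Cf2 N)) : 0 < K2 N B := by
  unfold K2
  positivity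

theorem gram_low (H : HYP) (hN : N.Prime) (h2 : N ≠ 2) {B : Finset (Cf2 N)}
    (hB : IsNewBasis N 2 B) :
    (1 / ((Fintype.card (XX N) : ℝ) * K2 N B ^ 2)) ^ (Fintype.card (JJ B)) ≤
      ((Psi B).transpose * Psi B).det := by
  have hK := K2_pos B
  have hm : 0 < (Fintype.card (XX N) : ℝ) := by
    have : Nonempty (XX N) := ⟨x0 N⟩
    exact_mod_cast Fintype.card_pos
  have hsym : ((Psi B).transpose * Psi B).IsSymm := by
    rw [Matrix.IsSymm, Matrix.transpose_mul, Matrix.transpose_transpose]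
  refine pos_det ((Psi B).transpose * Psi B) hsym _ (by positivity) fun v => ?_
  have h1 := psi_low H.gr H.pe H.c1 H.c2 H.he H.qu hN h2 hB v
  set y := (Psi B).mulVec v with hy
  have h3 : v ⬝ᵥ ((Psi B).transpose * Psi B).mulVec v = ∑ x : XX N, (y x) ^ 2 := by
    rw [← Matrix.mulVec_mulVec, Matrix.dotProduct_mulVec, Matrix.vecMul_transpose]
    unfold dotProduct
    exact Finset.sum_congr rfl fun x _ => (sq _).symm
  rw [h3]
  have h4 : ∑ i : JJ B, v i ^ 2 ≤ (∑ i : JJ B, |v i|) ^ 2 := by
    rw [sq, Finset.sum_mul]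
    refine Finset.sum_le_sum fun i _ => ?_
    rw [← sq_abs, sq]
    exact mul_le_mul_of_nonneg_left (Finset.single_le_sum (f := fun i => |v i|)
      (fun i _ => abs_nonneg (v i)) (Finset.mem_univ i)) (abs_nonneg _)
  have h5 : (∑ x, |y x|) ^ 2 ≤ (Fintype.card (XX N) : ℝ) * ∑ x, (y x) ^ 2 := by
    have := sq_sum_le_card_mul_sum_sq (s := (Finset.univ : Finset (XX N))) (f := fun x => |y x|)
    simpa using this
  have h6 : ∑ i, v i ^ 2 ≤ (Fintype.card (XX N) : ℝ) * K2 N B ^ 2 * ∑ x, (y x) ^ 2 := by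
    calc ∑ i, v i ^ 2 ≤ (∑ i, |v i|) ^ 2 := h4
      _ ≤ (K2 N B * ∑ x, |y x|) ^ 2 := by gcongr
      _ = K2 N B ^ 2 * (∑ x, |y x|) ^ 2 := by ring
      _ ≤ K2 N B ^ 2 * ((Fintype.card (XX N) : ℝ) * ∑ x, (y x) ^ 2) := by gcongr
      _ = _ := by ring
  rw [one_div, inv_mul_le_iff₀ (by positivity)]
  exact h6

theorem card_JJ (B : Finset (Cf2 N)) : Fintype.card (JJ B) = 2 * B.card + 1 := by
  simp [Fintype.card_sum, two_mul]

/-- the number of newforms is at most `N / 2` -/
theorem card_le (H : HYP) (hN : N.Prime) (h2 : N ≠ 2) {B : Finset (Cf2 N)}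
    (hB : IsNewBasis N 2 B) : 2 * B.card + 1 ≤ Fintype.card (XX N) := by
  classical
  have hinj : Function.Injective (Matrix.mulVecLin (Psi B)) := by
    rw [injective_iff_map_eq_zero]
    intro v hv
    have h1 := psi_low H.gr H.pe H.c1 H.c2 H.he H.qu hN h2 hB v
    have h3 : ∑ x : XX N, |(Psi B).mulVec v x| = 0 := by
      refine Finset.sum_eq_zero fun x _ => ?_
      rw [Matrix.mulVecLin_apply] at hv
      rw [hv]
      simp
    rw [h3, mul_zero] at h1
    funext i
    have h4 := Finset.single_le_sum (f := fun i => |v i|) (fun i _ => abs_nonneg (v i))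
      (Finset.mem_univ i)
    have h5 : |v i| ≤ 0 := h4.trans h1
    exact abs_nonpos_iff.1 h5
  have h3 := LinearMap.finrank_le_finrank_of_injective hinj
  rw [Module.finrank_fintype_fun_eq_card, Module.finrank_fintype_fun_eq_card, card_JJ] at h3
  exact h3

theorem dimS (H : HYP) (hN : N.Prime) (h2 : N ≠ 2) {B : Finset (Cf2 N)}
    (hB : IsNewBasis N 2 B) : Fintype.card (XX N) = N + 1 ∧ N ≤ 12 * B.card + 13 ∧
      Fintype.card (XX N) + 1 ≤ (2 * B.card + 1) + nS N + nU N := by
  obtain ⟨k, F, hb⟩ := H.fr N hN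
  have hw := H.wt N hN h2 k F hb
  obtain ⟨s1, s2, s3⟩ := small N hN
  have hc := H.cl N hN h2 k F hb hw s1
  have hd := (H.cd N hN k F hb).1
  have hr : Module.finrank ℂ (SF N 2) ≤ B.card := by
    have h3 := finrank_span_finset_le_card (R := ℂ) B
    rw [Set.finrank, hB.span, finrank_top] at h3
    exact h3
  rw [Nat.card_eq_fintype_card] at s1 hc
  refine ⟨s1, ?_, ?_⟩
  · rw [s1] at hc
    push_cast at hc
    omega
  · omega

lemma smul_trans {φ : XX N → ℝ} (hs : ∀ x, φ (ModularGroup.S • x) = φ x)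
    (hu : ∀ x, φ (UU • x) = φ x) (x y : XX N) : φ x = φ y := by
  have ht : ∀ x, φ (ModularGroup.T • x) = φ x := by
    intro x
    have h1 := hu x
    unfold UU at h1
    rw [mul_smul, hs] at h1
    exact h1
  have hg : ∀ g : SL(2, ℤ), ∀ x, φ (g • x) = φ x := by
    intro g
    have hmem : g ∈ Subgroup.closure ({ModularGroup.S, ModularGroup.T} : Set SL(2, ℤ)) := by
      rw [SpecialLinearGroup.SL2Z_generators]
      exact Subgroup.mem_top g
    induction hmem using Subgroup.closure_induction with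
    | mem a ha =>
      rcases ha with rfl | rfl
      · exact hs
      · exact ht
    | one => intro x; rw [one_smul]
    | mul a b _ _ ha hb => intro x; rw [mul_smul, ha, hb]
    | inv a _ ha =>
      intro x
      have := ha (a⁻¹ • x)
      rw [smul_inv_smul] at this
      exact this.symm
  obtain ⟨g, rfl⟩ := MulAction.exists_smul_eq SL(2, ℤ) x y
  exact (hg g x).symm

/-- the lower bound for the determinants of periods -/
theorem det_low (H : HYP) (hN : N.Prime) (h2 : N ≠ 2) {B : Finset (Cf2 N)}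
    (hB : IsNewBasis N 2 B) (v : B ⊕ B → B → ℂ) (hv : ∀ i, v i ∈ LL B) (hd : (RM v).det ≠ 0) :
    ((Psi B).transpose * Psi B).det ≤ (9 * (Fintype.card (XX N) : ℝ)) ^
      (2 * Fintype.card (XX N)) * (RM v).det ^ 2 := by
  choose ε hε using fun f : B => hB.newf f.1 f.2
  choose γ hγ using hv
  have hγ' : ∀ i, pv B (γ i).toMul = v i := hγ
  choose n hn1 hn2 using fun i => H.pa N hN (γ i).toMul
  set A : Matrix (JJ B) (XX N) ℤ := Matrix.of fun j x =>
    Sum.elim (fun i => n i x) (fun _ => if x = x0 N then 1 else 0) j with hA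
  have hAP : (A.map (Int.cast : ℤ → ℝ)) * Psi B = Matrix.fromBlocks (RM v) 0
      (Matrix.of fun (_ : Unit) j => Psi B (x0 N) (Sum.inl j)) 1 := by
    ext i j
    rw [Matrix.mul_apply]
    rcases i with i | i
    · rcases j with (f | f) | j
      · rw [Matrix.fromBlocks_apply₁₁]
        have h3 := hn1 i f.1 (ε f) (hε f)
        rw [tsum_fintype] at h3
        have h4 : v i f = ∑ x : XX N, (n i x : ℂ) * dd f.1 x := by
          rw [← h3, ← hγ' i]
          rfl
        change _ = (v i f).re
        rw [h4, Complex.re_sum]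
        refine Finset.sum_congr rfl fun x _ => ?_
        change ((n i x : ℤ) : ℝ) * (dd f.1 x).re = _
        rw [show ((n i x : ℤ) : ℂ) = (((n i x : ℤ) : ℝ) : ℂ) by push_cast; rfl, Complex.re_ofReal_mul]
      · rw [Matrix.fromBlocks_apply₁₁]
        have h3 := hn1 i f.1 (ε f) (hε f)
        rw [tsum_fintype] at h3
        have h4 : v i f = ∑ x : XX N, (n i x : ℂ) * dd f.1 x := by
          rw [← h3, ← hγ' i]
          rfl
        change _ = (v i f).im
        rw [h4, Complex.im_sum]
        refine Finset.sum_congr rfl fun x _ => ?_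
        change ((n i x : ℤ) : ℝ) * (dd f.1 x).im = _
        rw [show ((n i x : ℤ) : ℂ) = (((n i x : ℤ) : ℝ) : ℂ) by push_cast; rfl, Complex.im_ofReal_mul]
      · rw [Matrix.fromBlocks_apply₁₂, Matrix.zero_apply]
        have h3 := hn2 i
        rw [tsum_fintype] at h3
        have h4 : ((∑ x : XX N, n i x * bd x : ℤ) : ℝ) = 0 := by rw [h3]; simp
        rw [← h4]
        push_cast
        rfl
    · have h5 : ∀ j, ∑ x, (A.map (Int.cast : ℤ → ℝ)) (Sum.inr i) x * Psi B x j = Psi B (x0 N) j := by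
        intro j
        have h6 : ∀ x, (A.map (Int.cast : ℤ → ℝ)) (Sum.inr i) x * Psi B x j =
            if x = x0 N then Psi B x j else 0 := by
          intro x
          rw [Matrix.map_apply]
          change (((if x = x0 N then 1 else 0 : ℤ)) : ℝ) * Psi B x j = _
          split_ifs <;> simp
        simp_rw [h6]
        rw [Finset.sum_ite_eq' Finset.univ (x0 N) (fun x => Psi B x j), if_pos (Finset.mem_univ _)]
      rw [h5]
      rcases j with j | j
      · rfl
      · rw [Matrix.fromBlocks_apply₂₂]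
        change ((bd (x0 N) : ℤ) : ℝ) = _
        rw [bd_x0 hN]
        simp
  have hdet : ((A.map (Int.cast : ℤ → ℝ)) * Psi B).det = (RM v).det := by
    rw [hAP, Matrix.det_fromBlocks_zero₁₂, Matrix.det_one, mul_one]
  -- passage to `Fin d`
  set d := 2 * B.card + 1 with hdd
  let e : JJ B ≃ Fin d := Fintype.equivFinOfCardEq (card_JJ B)
  have hperm : ∀ M : Matrix (JJ B) (JJ B) ℝ, (M.submatrix e.symm e.symm).det = M.det :=
    fun M => Matrix.det_submatrix_equiv_self _ _
  have hsub : ((A.submatrix e.symm id).map (Int.cast : ℤ → ℝ)) * ((Psi B).submatrix id e.symm) =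
      ((A.map (Int.cast : ℤ → ℝ)) * Psi B).submatrix e.symm e.symm := by
    ext i j
    rfl
  have hsub2 : ((Psi B).submatrix id e.symm).transpose * ((Psi B).submatrix id e.symm) =
      ((Psi B).transpose * Psi B).submatrix e.symm e.symm := by
    ext i j
    rfl
  have hdim := (dimS H hN h2 hB).2.2
  have key := plk (XX N) (MulAction.toPerm (ModularGroup.S : SL(2, ℤ)))
    (MulAction.toPerm UU) ?_ ?_ ?_ d ((Psi B).submatrix id e.symm) ?_ ?_ ?_
    (A.submatrix e.symm id) ?_
  · rw [hsub, hsub2, hperm, hperm, hdet] at key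
    exact key
  · intro x
    have : Fact N.Prime := ⟨hN⟩
    exact Sml.S_sq x
  · intro x
    have : Fact N.Prime := ⟨hN⟩
    exact Sml.U_cube x
  · intro φ hs hu
    exact smul_trans hs hu
  · intro x i
    change Psi B x (e.symm i) + Psi B (ModularGroup.S • x) (e.symm i) = 0
    rcases e.symm i with (f | f) | j
    · have h3 := (H.c2 N hN f.1 (ε f) (hε f)).1 x
      change (dd f.1 x).re + (dd f.1 (ModularGroup.S • x)).re = 0
      rw [← Complex.add_re, h3, Complex.zero_re]
    · have h3 := (H.c2 N hN f.1 (ε f) (hε f)).1 x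
      change (dd f.1 x).im + (dd f.1 (ModularGroup.S • x)).im = 0
      rw [← Complex.add_im, h3, Complex.zero_im]
    · have h3 := (H.c3 N hN).1 x
      change ((bd x : ℤ) : ℝ) + ((bd (ModularGroup.S • x) : ℤ) : ℝ) = 0
      exact_mod_cast h3
  · intro x i
    change Psi B x (e.symm i) + Psi B (UU • x) (e.symm i) + Psi B (UU • UU • x) (e.symm i) = 0
    rcases e.symm i with (f | f) | j
    · have h3 := (H.c2 N hN f.1 (ε f) (hε f)).2.1 x
      change (dd f.1 x).re + (dd f.1 (UU • x)).re + (dd f.1 (UU • UU • x)).re = 0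
      rw [← Complex.add_re, ← Complex.add_re, h3, Complex.zero_re]
    · have h3 := (H.c2 N hN f.1 (ε f) (hε f)).2.1 x
      change (dd f.1 x).im + (dd f.1 (UU • x)).im + (dd f.1 (UU • UU • x)).im = 0
      rw [← Complex.add_im, ← Complex.add_im, h3, Complex.zero_im]
    · have h3 := (H.c3 N hN).2 x
      change ((bd x : ℤ) : ℝ) + ((bd (UU • x) : ℤ) : ℝ) + ((bd (UU • UU • x) : ℤ) : ℝ) = 0
      exact_mod_cast h3
  · rw [fix (XX N), fix (XX N)]
    exact hdim
  · rw [hsub, hperm, hdet]
    exact hd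

end Pool.Agent.K4H13.CV
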