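import Mathlib

/-!
# Project CV: generators of `Γ₀(N)` with small entries
-/

set_option autoImplicit false

open Matrix Matrix.SpecialLinearGroup ModularGroup CongruenceSubgroup MatrixGroups

namespace Pool.Agent.K4H13.CV

section gen

/-- membership in the union of the cosets -/
def InU (K : Subgroup SL(2, ℤ)) (g : SL(2, ℤ)) : Prop :=
  g ∈ K ∨ ∃ j : ℤ, g * (S * T ^ j)⁻¹ ∈ K

variable {K : Subgroup SL(2, ℤ)} {N : ℕ}

theorem STS_zpow (N : ℕ) (m : ℤ) : (S * T ^ (N : ℤ) * S⁻¹ : SL(2, ℤ)) ^ m = S * T ^ ((N : ℤ) * m) * S⁻¹ := by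
  rw [conj_zpow, ← _root_.zpow_mul]

theorem inU_T (hT : T ∈ K) (n : ℤ) {g : SL(2, ℤ)} (hg : InU K g) : InU K (g * T ^ n) := by
  rcases hg with h | ⟨j, h⟩
  · exact Or.inl (K.mul_mem h (K.zpow_mem hT n))
  · refine Or.inr ⟨j + n, ?_⟩
    have e : g * T ^ n * (S * T ^ (j + n))⁻¹ = g * (S * T ^ j)⁻¹ := by
      rw [_root_.zpow_add]
      group
    rw [e]
    exact h

theorem neg_one_mul_mem (h1 : (-1 : SL(2, ℤ)) ∈ K) {g : SL(2, ℤ)} (hg : InU K g) :
    InU K (g * (-1)) := by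
  have hc : ∀ x : SL(2, ℤ), x * (-1) = (-1) * x := fun x => by simp
  rcases hg with h | ⟨j, h⟩
  · exact Or.inl (K.mul_mem h h1)
  · refine Or.inr ⟨j, ?_⟩
    rw [hc g, mul_assoc]
    exact K.mul_mem h1 h

theorem inU_S (hN : 0 < N) (h1 : (-1 : SL(2, ℤ)) ∈ K) (hP : S * T ^ (N : ℤ) * S⁻¹ ∈ K)
    (hD : ∀ j : ℤ, 0 < j → j < N → ∃ i : ℤ, S * T ^ j * S * (S * T ^ i)⁻¹ ∈ K)
    {g : SL(2, ℤ)} (hg : InU K g) : InU K (g * S) := by
  rcases hg with h | ⟨j, h⟩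
  · refine Or.inr ⟨0, ?_⟩
    simpa using h
  · have hPm : ∀ m : ℤ, S * T ^ ((N : ℤ) * m) * S⁻¹ ∈ K := fun m => by
      rw [← STS_zpow]
      exact K.zpow_mem hP m
    obtain ⟨m, r, hr0, hrN, hj⟩ : ∃ m r : ℤ, 0 ≤ r ∧ r < N ∧ j = (N : ℤ) * m + r :=
      ⟨j / N, j % N, Int.emod_nonneg _ (by exact_mod_cast hN.ne'),
        Int.emod_lt_of_pos _ (by exact_mod_cast hN), (Int.mul_ediv_add_emod j N).symm⟩
    have e1 : g * S = (g * (S * T ^ j)⁻¹) * (S * T ^ ((N : ℤ) * m) * S⁻¹) * (S * T ^ r * S) := by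
      rw [hj, _root_.zpow_add]
      group
    rcases hr0.eq_or_lt with h0 | h0
    · left
      rw [e1, ← h0]
      have e2 : (S * T ^ (0 : ℤ) * S : SL(2, ℤ)) = -1 := by
        rw [zpow_zero, mul_one]
        decide
      rw [e2]
      exact K.mul_mem (K.mul_mem h (hPm m)) h1
    · obtain ⟨i, hi⟩ := hD r h0 hrN
      refine Or.inr ⟨i, ?_⟩
      rw [e1, mul_assoc]
      exact K.mul_mem (K.mul_mem h (hPm m)) hi

theorem inU_all (hN : 0 < N) (hT : T ∈ K) (h1 : (-1 : SL(2, ℤ)) ∈ K)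
    (hP : S * T ^ (N : ℤ) * S⁻¹ ∈ K)
    (hD : ∀ j : ℤ, 0 < j → j < N → ∃ i : ℤ, S * T ^ j * S * (S * T ^ i)⁻¹ ∈ K)
    (g : SL(2, ℤ)) : InU K g := by
  have hg : g ∈ Subgroup.closure ({S, T} : Set SL(2, ℤ)) := by
    rw [SpecialLinearGroup.SL2Z_generators]
    trivial
  induction hg using Subgroup.closure_induction_right with
  | one => exact Or.inl K.one_mem
  | mul_right x hx y hy ih =>
    rcases hy with rfl | hy
    · exact inU_S hN h1 hP hD ih
    · rw [Set.mem_singleton_iff] at hy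
      subst hy
      simpa using inU_T hT 1 ih
  | mul_inv_cancel x hx y hy ih =>
    rcases hy with rfl | hy
    · have e : x * S⁻¹ = x * S * (-1) := by
        rw [S_inv, mul_assoc]
        simp
      rw [e]
      exact neg_one_mul_mem h1 (inU_S hN h1 hP hD ih)
    · rw [Set.mem_singleton_iff] at hy
      subst hy
      simpa using inU_T hT (-1) ih

end gen

/-- the lower left entry of the Schreier generator -/
theorem entry_D (j i : ℤ) : (S * T ^ j * S * (S * T ^ i)⁻¹ : SL(2, ℤ)) 1 0 = j * i + 1 := by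
  have e : (S * T ^ j * S * (S * T ^ i)⁻¹ : SL(2, ℤ)) = S * T ^ j * S * T ^ (-i) * S⁻¹ := by
    rw [_root_.zpow_neg]
    group
  rw [e, S_inv]
  simp [coe_T_zpow]
  ring

theorem entry_P (N : ℤ) : (S * T ^ N * S⁻¹ : SL(2, ℤ)) 1 0 = -N := by
  rw [S_inv]
  simp [coe_T_zpow]

theorem entry_ST (j : ℤ) : (S * T ^ j : SL(2, ℤ)) 1 0 = 1 := by
  simp [coe_T_zpow]

theorem exists_inv (N : ℕ) (hN : N.Prime) (j : ℕ) (h0 : 0 < j) (hj : j < N) :
    ∃ i : ℕ, i < N ∧ ((N : ℤ) ∣ (j : ℤ) * i + 1) := by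
  have := Fact.mk hN
  refine ⟨(-((j : ZMod N)⁻¹)).val, ZMod.val_lt _, ?_⟩
  rw [← ZMod.intCast_zmod_eq_zero_iff_dvd]
  push_cast
  rw [ZMod.natCast_val, ZMod.cast_id', id, mul_neg, mul_inv_cancel₀, neg_add_cancel]
  intro h
  rw [ZMod.natCast_eq_zero_iff] at h
  exact absurd (Nat.le_of_dvd h0 h) (not_le.2 hj)

/-- generators of `Γ₀(N)` with small entries -/
theorem gen : ∀ (N : ℕ), N.Prime → ∃ δ : Fin (N + 2) → Gamma0 N,
    (∀ i, |((δ i : SL(2, ℤ)) 1 0 : ℤ)| ≤ (N : ℤ) ^ 2) ∧ Subgroup.closure (Set.range δ) = ⊤ := by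
  intro N hN
  classical
  have hN0 : 0 < N := hN.pos
  have hN1 : (1 : ℤ) ≤ N := by exact_mod_cast hN0
  have hmem : ∀ g : SL(2, ℤ), g ∈ Gamma0 N ↔ (N : ℤ) ∣ g 1 0 := fun g => by
    rw [Gamma0_mem, ZMod.intCast_zmod_eq_zero_iff_dvd]
  -- the candidates
  have hex : ∀ k : Fin (N + 2), ∃ g : Gamma0 N, |((g : SL(2, ℤ)) 1 0 : ℤ)| ≤ (N : ℤ) ^ 2 ∧
      ((k : ℕ) = N → (g : SL(2, ℤ)) = T) ∧ ((k : ℕ) = N + 1 → (g : SL(2, ℤ)) = -1) ∧
      ((k : ℕ) = 0 → (g : SL(2, ℤ)) = S * T ^ (N : ℤ) * S⁻¹) ∧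
      (0 < (k : ℕ) → (k : ℕ) < N → ∃ i : ℤ, (g : SL(2, ℤ)) = S * T ^ ((k : ℕ) : ℤ) * S * (S * T ^ i)⁻¹) := by
    intro k
    rcases Nat.lt_or_ge (k : ℕ) N with hk | hk
    · rcases Nat.eq_zero_or_pos (k : ℕ) with h0 | h0
      · refine ⟨⟨S * T ^ (N : ℤ) * S⁻¹, (hmem _).2 ?_⟩, ?_, ?_, ?_, ?_, ?_⟩
        · rw [entry_P]
          exact (dvd_refl _).neg_right
        · rw [entry_P, abs_neg, abs_of_nonneg (by omega)]
          nlinarith
        · intro h; omega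
        · intro h; omega
        · intro _; rfl
        · intro h; omega
      · obtain ⟨i, hi, hdvd⟩ := exists_inv N hN (k : ℕ) h0 hk
        refine ⟨⟨S * T ^ ((k : ℕ) : ℤ) * S * (S * T ^ (i : ℤ))⁻¹, (hmem _).2 ?_⟩, ?_, ?_, ?_, ?_, ?_⟩
        · rw [entry_D]
          exact hdvd
        · rw [entry_D, abs_of_nonneg (by positivity)]
          have h2 : ((k : ℕ) : ℤ) ≤ N - 1 := by omega
          have h3 : (i : ℤ) ≤ N - 1 := by omega
          have h4 : ((k : ℕ) : ℤ) * i ≤ (N - 1) * (N - 1) := by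
            apply mul_le_mul h2 h3 (by positivity) (by omega)
          nlinarith
        · intro h; omega
        · intro h; omega
        · intro h; omega
        · intro _ _
          exact ⟨i, rfl⟩
    · rcases Nat.lt_or_ge N (k : ℕ) with hk' | hk'
      · refine ⟨⟨-1, (hmem _).2 ?_⟩, ?_, ?_, ?_, ?_, ?_⟩
        · simp
        · simp
        · intro h; omega
        · intro _; rfl
        · intro h; omega
        · intro _ h; omega
      · refine ⟨⟨T, (hmem _).2 ?_⟩, ?_, ?_, ?_, ?_, ?_⟩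
        · simp [coe_T]
        · simp [coe_T]
        · intro _; rfl
        · intro h; omega
        · intro h; omega
        · intro _ h; omega
  choose δ h1 h2 h3 h4 h5 using hex
  refine ⟨δ, h1, ?_⟩
  let K : Subgroup SL(2, ℤ) := (Subgroup.closure (Set.range δ)).map (Gamma0 N).subtype
  have hδK : ∀ k, (δ k : SL(2, ℤ)) ∈ K := fun k =>
    ⟨δ k, Subgroup.subset_closure ⟨k, rfl⟩, rfl⟩
  have hKle : K ≤ Gamma0 N := by
    rintro _ ⟨g, -, rfl⟩
    exact g.2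
  have hall := inU_all (K := K) hN0
    (by
      have := hδK ⟨N, by omega⟩
      rwa [h2 ⟨N, by omega⟩ rfl] at this)
    (by
      have := hδK ⟨N + 1, by omega⟩
      rwa [h3 ⟨N + 1, by omega⟩ rfl] at this)
    (by
      have := hδK ⟨0, by omega⟩
      rwa [h4 ⟨0, by omega⟩ rfl] at this)
    (by
      intro j hj0 hjN
      obtain ⟨k, rfl⟩ := Int.eq_ofNat_of_zero_le hj0.le
      have hk : k < N + 2 := by omega
      obtain ⟨i, hi⟩ := h5 ⟨k, hk⟩ (by simpa using hj0) (by simpa using hjN)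
      refine ⟨i, ?_⟩
      have := hδK ⟨k, hk⟩
      rw [hi] at this
      exact this)
  rw [eq_top_iff]
  rintro g -
  have hg : (g : SL(2, ℤ)) ∈ K := by
    rcases hall (g : SL(2, ℤ)) with h | ⟨j, h⟩
    · exact h
    · exfalso
      have h6 := (Gamma0 N).mul_mem ((Gamma0 N).inv_mem (hKle h)) g.2
      have e : ((g : SL(2, ℤ)) * (S * T ^ j)⁻¹)⁻¹ * (g : SL(2, ℤ)) = S * T ^ j := by group
      rw [e, hmem, entry_ST] at h6
      have h7 := Int.le_of_dvd one_pos h6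
      have h8 : 2 ≤ N := hN.two_le
      omega
  obtain ⟨g', hg', he⟩ := hg
  have : g' = g := Subtype.ext he
  rw [← this]
  exact hg'

end Pool.Agent.K4H13.CV
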