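import Pool.Agent.K4H13.CV.Coef

/-!
# Project CV: `a(2) ≠ 3`
-/

set_option autoImplicit false

open Complex Filter Topology Set UpperHalfPlane MatrixGroups CongruenceSubgroup

namespace Pool.Agent.K4H13.CV

open Pool.Agent.TH940 (Fr exp_norm)
open Pool.Agent.Y18.BSD

variable {N : ℕ} [NeZero N]

lemma hrel_of_newf {f : Cf2 N} {ε : ℝ} (hf : W388.IsNewf N 2 f ε) : HRel f := by
  refine ⟨hf.one, hf.mul, fun p j hp => ?_⟩
  have h := hf.pow p j hp
  have e : (p : ℂ) ^ ((2 : ℤ) - 1) = p := by norm_num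
  rw [e] at h
  exact h

lemma fr_of_newf {f : Cf2 N} {ε : ℝ} (hf : W388.IsNewf N 2 f ε) : Fr f (ε : ℂ) := by
  intro τ τ' h
  rw [hf.fricke τ τ' h]
  have hN : (0 : ℝ) < N := Nat.cast_pos.2 (Nat.pos_of_ne_zero (NeZero.ne N))
  have hss : ((Real.sqrt N : ℝ) : ℂ) * ((Real.sqrt N : ℝ) : ℂ) = (N : ℂ) := by
    rw [← Complex.ofReal_mul, Real.mul_self_sqrt hN.le]; simp
  have e : (((Real.sqrt N : ℝ) : ℂ) * (τ : ℂ) / Complex.I) ^ (2 : ℤ) = - (N * (τ : ℂ) ^ 2) := by
    have e2 : (((Real.sqrt N : ℝ) : ℂ) * (τ : ℂ) / Complex.I) ^ (2 : ℤ) =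
        (((Real.sqrt N : ℝ) : ℂ) * (τ : ℂ) / Complex.I) ^ (2 : ℕ) := by norm_cast
    rw [e2, div_pow, Complex.I_sq, mul_pow, pow_two ((Real.sqrt N : ℝ) : ℂ), hss]
    ring
  rw [e]
  ring

/-- the Hecke relation -/
lemma qf_hecke {f : Cf2 N} (hf : HRel f) {p : ℕ}
    (hp : p.Prime) (hpN : ¬ p ∣ N) {z : ℂ} (hz : 0 < z.im) :
    ∑ j ∈ Finset.range p, qf f ((z + j) / p) + p ^ 2 * qf f (p * z) = p * co f p * qf f z := by
  have hp0 : 0 < p := hp.pos
  have hpc : (p : ℂ) ≠ 0 := by exact_mod_cast hp0.ne'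
  have hc0 : co f 0 = 0 := W388.coeff_zero f
  have hinj : Function.Injective (fun n : ℕ => p * n) := fun a b h => Nat.eq_of_mul_eq_mul_left hp0 h
  have h1 : HasSum (fun m : ℕ => (if p ∣ m then co f (m / p) else 0) *
      Complex.exp (2 * Real.pi * Complex.I * m * z)) (qf f (p * z)) := by
    have h2 := qf_hasSum f (im_mul_nat hz hp0)
    rw [← hinj.hasSum_iff]
    · refine hs_congr h2 fun n => ?_
      simp only [Function.comp_apply]
      rw [if_pos (dvd_mul_right p n), Nat.mul_div_cancel_left n hp0]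
      congr 2
      push_cast
      ring
    · intro m hm
      rw [if_neg, zero_mul]
      rintro ⟨k, rfl⟩
      exact hm ⟨k, rfl⟩
  have h3 : HasSum (fun n : ℕ => ∑ j ∈ Finset.range p, co f n *
      Complex.exp (2 * Real.pi * Complex.I * n * ((z + j) / p)))
      (∑ j ∈ Finset.range p, qf f ((z + j) / p)) :=
    hasSum_sum fun j _ => qf_hasSum f (im_div_nat hz j hp0)
  have e4 : ∀ n : ℕ, ∑ j ∈ Finset.range p, co f n *
      Complex.exp (2 * Real.pi * Complex.I * n * ((z + j) / p)) =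
      co f n * Complex.exp (2 * Real.pi * Complex.I * n * (z / p)) *
        (if p ∣ n then (p : ℂ) else 0) := by
    intro n
    rw [← sum_exp p hp0 n, Finset.mul_sum]
    refine Finset.sum_congr rfl fun j _ => ?_
    rw [mul_assoc (co f n), ← Complex.exp_add]
    congr 2
    ring
  simp only [e4] at h3
  have h5 : HasSum (fun m : ℕ => co f (p * m) *
      Complex.exp (2 * Real.pi * Complex.I * m * z) * p)
      (∑ j ∈ Finset.range p, qf f ((z + j) / p)) := by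
    rw [← hinj.hasSum_iff] at h3
    · refine hs_congr h3 fun m => ?_
      simp only [Function.comp_apply]
      rw [if_pos (dvd_mul_right p m)]
      congr 3
      push_cast
      field_simp
    · intro m hm
      rw [if_neg, mul_zero]
      rintro ⟨k, rfl⟩
      exact hm ⟨k, rfl⟩
  have h6 := (qf_hasSum f hz).mul_left (p * co f p)
  refine (h5.add (h1.mul_left ((p : ℂ) ^ 2))).unique (hs_congr h6 fun m => ?_)
  rcases Nat.eq_zero_or_pos m with rfl | hm
  · simp [hc0]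
  · have h7 := hf.coeff hp hpN m hm.ne'
    have e5 : (p : ℂ) * (if p ∣ m then co f (m / p) else 0) =
        (if p ∣ m then (p : ℂ) * co f (m / p) else 0) := by
      split_ifs <;> ring
    rw [← e5] at h7
    linear_combination (-(p : ℂ) * Complex.exp (2 * Real.pi * Complex.I * m * z)) * h7

/-- `Im(z) |f(z)|` -/
noncomputable def ph (f : Cf2 N) (z : ℂ) : ℝ := z.im * ‖qf f z‖

lemma ph_nonneg (f : Cf2 N) {z : ℂ} (hz : 0 < z.im) : 0 ≤ ph f z :=
  mul_nonneg hz.le (norm_nonneg _)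

lemma ph_hecke {f : Cf2 N} (hf : HRel f) {p : ℕ}
    (hp : p.Prime) (hpN : ¬ p ∣ N) {z : ℂ} (hz : 0 < z.im) :
    ‖co f p‖ * ph f z ≤ ∑ j ∈ Finset.range p, ph f ((z + j) / p) + ph f (p * z) := by
  have hp0 : (0 : ℝ) < p := by exact_mod_cast hp.pos
  have h1 := congrArg norm (qf_hecke hf hp hpN hz)
  rw [norm_mul, norm_mul, Complex.norm_natCast] at h1
  have h2 : (p : ℝ) * ‖co f p‖ * ‖qf f z‖ ≤
      ∑ j ∈ Finset.range p, ‖qf f ((z + j) / p)‖ + p ^ 2 * ‖qf f (p * z)‖ := by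
    rw [← h1]
    refine (norm_add_le _ _).trans (add_le_add (norm_sum_le _ _) ?_)
    rw [norm_mul, norm_pow, Complex.norm_natCast]
  unfold ph
  have e1 : ∀ j : ℕ, ((z + j) / (p : ℂ)).im = z.im / p := by
    intro j
    rw [Complex.div_natCast_im]
    simp
  have e2 : ((p : ℂ) * z).im = p * z.im := by simp
  simp only [e1, e2]
  rw [← Finset.mul_sum]
  have h3 := mul_le_mul_of_nonneg_left h2 (show 0 ≤ z.im / p by positivity)
  have e3 : z.im / p * (∑ j ∈ Finset.range p, ‖qf f ((z + j) / p)‖ + p ^ 2 * ‖qf f (p * z)‖) =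
      z.im / p * ∑ j ∈ Finset.range p, ‖qf f ((z + j) / p)‖ + p * z.im * ‖qf f (p * z)‖ := by
    field_simp
  have e4 : z.im / p * ((p : ℝ) * ‖co f p‖ * ‖qf f z‖) = ‖co f p‖ * (z.im * ‖qf f z‖) := by
    field_simp
  rw [e3, e4] at h3
  exact h3

lemma ph_decay (f : Cf2 N) {y0 : ℝ} (hy0 : 0 < y0) : ∃ K : ℝ, 0 ≤ K ∧ ∀ z : ℂ, y0 ≤ z.im →
    ph f z ≤ K * (z.im * Real.exp (-z.im)) := by
  have hc0 : co f 0 = 0 := W388.coeff_zero f
  have hI : ((y0 : ℂ) * Complex.I).im = y0 := by simp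
  have hs := (qf_hasSum f (z := (y0 : ℂ) * Complex.I) (by rw [hI]; exact hy0)).summable.norm
  set S : ℝ := ∑' n : ℕ, ‖co f n * Complex.exp (2 * Real.pi * Complex.I * n *
    ((y0 : ℂ) * Complex.I))‖ with hS
  have hS0 : 0 ≤ S := tsum_nonneg fun n => norm_nonneg _
  refine ⟨S * Real.exp y0, by positivity, fun z hz => ?_⟩
  have hz0 : 0 < z.im := hy0.trans_le hz
  have h1 : ‖qf f z‖ ≤ S * Real.exp (-(z.im - y0)) := by
    rw [hS, ← tsum_mul_right]
    refine tsum_of_norm_bounded (hs.mul_right _).hasSum (fun n => ?_)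
    rcases Nat.eq_zero_or_pos n with rfl | hn
    · rw [hc0]; simp
    · rw [norm_mul, norm_mul, exp_norm, exp_norm, hI, mul_assoc ‖co f n‖, ← Real.exp_add]
      refine mul_le_mul_of_nonneg_left (Real.exp_le_exp.2 ?_) (norm_nonneg _)
      have hn1 : (1 : ℝ) ≤ n := by exact_mod_cast hn
      have hpi : 1 ≤ 2 * Real.pi := by linarith [Real.pi_gt_three]
      have h2 : 1 ≤ 2 * Real.pi * n := by nlinarith
      nlinarith [mul_nonneg (sub_nonneg.2 h2) (sub_nonneg.2 hz)]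
  unfold ph
  calc z.im * ‖qf f z‖ ≤ z.im * (S * Real.exp (-(z.im - y0))) :=
        mul_le_mul_of_nonneg_left h1 hz0.le
    _ = _ := by
      rw [show -(z.im - y0) = y0 + -z.im by ring, Real.exp_add]
      ring

/-- statement of the piece S_TWO, and its generalisation to all the primes which do not divide the
level -/
theorem two_gen (hR : ∀ (N : ℕ) [NeZero N], N.Prime → ∀ (h : Cf2 N) (ε : ℂ), ‖ε‖ = 1 → Fr h ε →
      ∀ z : ℍ, ∃ z' : ℍ, 1 / (2 * (N : ℝ)) ≤ z'.im ∧ ‖h z'‖ * z'.im = ‖h z‖ * z.im) :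
    ∀ (N : ℕ) [NeZero N], N.Prime → ∀ p : ℕ, p.Prime → p ≠ N → ∀ (f : Cf2 N) (ε : ℝ),
    W388.IsNewf N 2 f ε → ‖(qExpansion 1 f).coeff p‖ < p + 1 := by
  intro N _ hN p hp hpN f ε hf
  change ‖co f p‖ < _
  by_contra hc
  push Not at hc
  have hpN' : ¬ p ∣ N := fun h => hpN ((Nat.prime_dvd_prime_iff_eq hp hN).1 h)
  have hp0 : (0 : ℝ) < p := by exact_mod_cast hp.pos
  have hp1 : (1 : ℝ) < p := by exact_mod_cast hp.one_lt
  have hN0 : (0 : ℝ) < N := Nat.cast_pos.2 (Nat.pos_of_ne_zero (NeZero.ne N))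
  have hrel := hrel_of_newf hf
  have hε1 : ‖(ε : ℂ)‖ = 1 := by
    rw [Complex.norm_real, Real.norm_eq_abs]
    rcases hf.sign with h | h <;> rw [h] <;> simp
  set y0 : ℝ := 1 / (2 * (N : ℝ)) with hy0
  have hy00 : 0 < y0 := by positivity
  have hred : ∀ z : ℂ, 0 < z.im → ∃ z' : ℂ, y0 ≤ z'.im ∧ ph f z' = ph f z := by
    intro z hz
    obtain ⟨z', h1, h2⟩ := hR N hN f ε hε1 (fr_of_newf hf) ⟨z, hz⟩
    refine ⟨z', h1, ?_⟩
    unfold ph
    rw [← qf_coe, ← qf_coe] at h2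
    rw [mul_comm, mul_comm z.im]
    exact h2
  obtain ⟨K, hK0, hK⟩ := ph_decay f hy00
  have hlim : Tendsto (fun y : ℝ => K * (y * Real.exp (-y))) atTop (𝓝 0) := by
    have h1 := Real.tendsto_pow_mul_exp_neg_atTop_nhds_zero 1
    have h2 := h1.const_mul K
    rw [mul_zero] at h2
    exact h2.congr (fun y => by rw [pow_one])
  -- bounded
  set A : Set ℝ := {x : ℝ | ∃ z : ℂ, 0 < z.im ∧ ph f z = x} with hA
  have hbd : ∀ z : ℂ, 0 < z.im → ph f z ≤ K := by
    intro z hz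
    obtain ⟨z', h1, h2⟩ := hred z hz
    rw [← h2]
    refine (hK z' h1).trans ?_
    have h3 : z'.im * Real.exp (-z'.im) ≤ 1 := by
      rw [Real.exp_neg, ← div_eq_mul_inv, div_le_one (Real.exp_pos _)]
      linarith [Real.add_one_le_exp z'.im]
    calc K * (z'.im * Real.exp (-z'.im)) ≤ K * 1 := mul_le_mul_of_nonneg_left h3 hK0
      _ = K := mul_one K
  have hA1 : BddAbove A := ⟨K, by rintro x ⟨z, hz, rfl⟩; exact hbd z hz⟩
  have hA2 : A.Nonempty := ⟨ph f Complex.I, Complex.I, by simp, rfl⟩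
  set M : ℝ := sSup A with hM
  have hle : ∀ z : ℂ, 0 < z.im → ph f z ≤ M := fun z hz => le_csSup hA1 ⟨z, hz, rfl⟩
  have hM0 : 0 < M := by
    by_contra hc2
    push Not at hc2
    have h1 : ∀ y : ℝ, 0 < y → qf f ((y : ℂ) * Complex.I) * (Real.exp (2 * Real.pi * y) : ℂ) = 0 := by
      intro y hy
      have hI : ((y : ℂ) * Complex.I).im = y := by simp
      have h2 := (hle ((y : ℂ) * Complex.I) (by rw [hI]; exact hy)).trans hc2
      unfold ph at h2
      rw [hI] at h2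
      have h3 : ‖qf f ((y : ℂ) * Complex.I)‖ ≤ 0 := by
        by_contra h4
        push Not at h4
        have := mul_pos hy h4
        linarith
      rw [norm_le_zero_iff] at h3
      rw [h3, zero_mul]
    have h2 : Tendsto (fun y : ℝ => qf f ((y : ℂ) * Complex.I) *
        (Real.exp (2 * Real.pi * y) : ℂ)) atTop (𝓝 0) := by
      refine tendsto_const_nhds.congr' ?_
      filter_upwards [eventually_gt_atTop (0 : ℝ)] with y hy
      exact (h1 y hy).symm
    exact one_ne_zero (tendsto_nhds_unique (qf_tendsto hf) h2)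
  -- the level where the function is small
  obtain ⟨T, hT⟩ := eventually_atTop.1 (hlim.eventually (gt_mem_nhds (show 0 < M / 2 by linarith)))
  have h5 : Tendsto (fun k : ℕ => (p : ℝ) ^ k * y0) atTop atTop :=
    (tendsto_pow_atTop_atTop_of_one_lt hp1).atTop_mul_const hy00
  obtain ⟨k, hkT⟩ := (h5.eventually_gt_atTop (max T y0)).exists
  -- a point where the function is large
  set δ : ℝ := M / (4 * ((p : ℝ) + 1) ^ k) with hδ
  have hδ0 : 0 < δ := by positivity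
  obtain ⟨x, ⟨z₁, hz₁, rfl⟩, hx⟩ := exists_lt_of_lt_csSup hA2 (show M - δ < sSup A by rw [← hM]; linarith)
  obtain ⟨z, hzy, hz2⟩ := hred z₁ hz₁
  rw [← hz2] at hx
  have hz : 0 < z.im := hy00.trans_le hzy
  have him : ∀ i : ℕ, ((p : ℂ) ^ i * z).im = (p : ℝ) ^ i * z.im := by
    intro i
    have : ((p : ℂ) ^ i * z) = (((p : ℝ) ^ i : ℝ) : ℂ) * z := by push_cast; rfl
    rw [this, Complex.im_ofReal_mul]
  have hind : ∀ i : ℕ, M - ((p : ℝ) + 1) ^ i * δ ≤ ph f ((p : ℂ) ^ i * z) := by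
    intro i
    induction i with
    | zero => simpa using hx.le
    | succ i ih =>
      have hw : 0 < ((p : ℂ) ^ i * z).im := by rw [him]; positivity
      have h6 := ph_hecke hrel hp hpN' hw
      have h7 : ∑ j ∈ Finset.range p, ph f (((p : ℂ) ^ i * z + j) / p) ≤ p * M := by
        refine (Finset.sum_le_sum fun j _ => hle _ (im_div_nat hw j hp.pos)).trans ?_
        simp
      have h8 : ((p : ℝ) + 1) * ph f ((p : ℂ) ^ i * z) ≤ ‖co f p‖ * ph f ((p : ℂ) ^ i * z) :=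
        mul_le_mul_of_nonneg_right hc (ph_nonneg f hw)
      have h9 : ((p : ℝ) + 1) * (M - ((p : ℝ) + 1) ^ i * δ) ≤
          ((p : ℝ) + 1) * ph f ((p : ℂ) ^ i * z) := mul_le_mul_of_nonneg_left ih (by linarith)
      have e : (p : ℂ) ^ (i + 1) * z = p * ((p : ℂ) ^ i * z) := by ring
      rw [e, pow_succ]
      nlinarith
  have h10 := hind k
  have h11 : T ≤ ((p : ℂ) ^ k * z).im := by
    rw [him]
    have : (p : ℝ) ^ k * y0 ≤ (p : ℝ) ^ k * z.im := mul_le_mul_of_nonneg_left hzy (by positivity)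
    linarith [le_max_left T y0]
  have h12 : y0 ≤ ((p : ℂ) ^ k * z).im := by
    rw [him]
    have : (p : ℝ) ^ k * y0 ≤ (p : ℝ) ^ k * z.im := mul_le_mul_of_nonneg_left hzy (by positivity)
    linarith [le_max_right T y0]
  have h13 := hK _ h12
  have h14 := hT _ h11
  have h15 : ((p : ℝ) + 1) ^ k * δ = M / 4 := by
    rw [hδ]
    have : ((p : ℝ) + 1) ^ k ≠ 0 := by positivity
    field_simp
  linarith

theorem two (hR : ∀ (N : ℕ) [NeZero N], N.Prime → ∀ (h : Cf2 N) (ε : ℂ), ‖ε‖ = 1 → Fr h ε →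
      ∀ z : ℍ, ∃ z' : ℍ, 1 / (2 * (N : ℝ)) ≤ z'.im ∧ ‖h z'‖ * z'.im = ‖h z‖ * z.im) :
    ∀ (N : ℕ) [NeZero N], N.Prime → N ≠ 2 → ∀ (f : Cf2 N) (ε : ℝ),
    W388.IsNewf N 2 f ε → (qExpansion 1 f).coeff 2 ≠ 3 := by
  intro N _ hN hN2 f ε hf heq
  have h := two_gen hR N hN 2 Nat.prime_two (Ne.symm hN2) f ε hf
  rw [heq] at h
  norm_num at h

end Pool.Agent.K4H13.CV
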