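import Pool.Agent.K4H13.CV.Asm3
import Pool.Agent.K4H13.CV.Two
import Pool.Agent.K4H13.CV.Red
import Pool.Agent.K4H13.CV.Gen

/-!
# Project CV: the short periods span
-/

set_option autoImplicit false

open Complex Filter Topology Set UpperHalfPlane MatrixGroups CongruenceSubgroup MeasureTheory
open scoped Manifold ModularForm

namespace Pool.Agent.K4H13.CV

open Pool.Agent.TH940 (prim Fr)
open Pool.Agent.Y18.BSD
open W388.LV (SF bf pet IsNewBasis)

variable {N : ℕ} [NeZero N]

lemma pv_one (B : Finset (Cf2 N)) : pv B 1 = 0 := by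
  funext f
  exact per_one f.1

lemma pv_mul (B : Finset (Cf2 N)) (a b : Gamma0 N) : pv B (a * b) = pv B a + pv B b := by
  funext f
  exact per_mul f.1 a b

lemma pv_inv (B : Finset (Cf2 N)) (a : Gamma0 N) : pv B a⁻¹ = -pv B a := by
  funext f
  exact per_inv f.1 a

/-- the short periods span -/
theorem span_short (H : HYP) (hN : N.Prime) (h2 : N ≠ 2) {B : Finset (Cf2 N)}
    (hB : IsNewBasis N 2 B) (δ : Fin (N + 2) → Gamma0 N)
    (hδ : Subgroup.closure (Set.range δ) = ⊤) :
    Submodule.span ℝ (Set.range fun i => pv B (δ i)) = ⊤ := by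
  by_contra hne
  obtain ⟨φ, hφ0, hφ⟩ := Submodule.exists_dual_map_eq_bot_of_lt_top (lt_top_iff_ne_top.2 hne)
    inferInstance
  apply hφ0
  have h1 : ∀ i, φ (pv B (δ i)) = 0 := by
    intro i
    have h2 : φ (pv B (δ i)) ∈ Submodule.map φ (Submodule.span ℝ (Set.range fun i => pv B (δ i))) :=
      Submodule.mem_map_of_mem (Submodule.subset_span ⟨i, rfl⟩)
    rw [hφ] at h2
    simpa using h2
  have h3 : ∀ γ : Gamma0 N, φ (pv B γ) = 0 := by
    intro γ
    have hm : γ ∈ Subgroup.closure (Set.range δ) := by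
      rw [hδ]
      exact Subgroup.mem_top γ
    induction hm using Subgroup.closure_induction with
    | mem a ha =>
      obtain ⟨i, rfl⟩ := ha
      exact h1 i
    | one => rw [pv_one, map_zero]
    | mul a b _ _ ha hb => rw [pv_mul, map_add, ha, hb, add_zero]
    | inv a _ ha => rw [pv_inv, map_neg, ha, neg_zero]
  set w : B → ℂ := fun f => (φ (Pi.single f 1) : ℂ) - (φ (Pi.single f Complex.I) : ℂ) * Complex.I
    with hw
  have h4 : ∀ z : B → ℂ, φ z = (∑ f, w f * z f).re := by
    intro z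
    have e1 : z = ∑ f, ((z f).re • (Pi.single f (1 : ℂ) : B → ℂ) +
        (z f).im • (Pi.single f Complex.I : B → ℂ)) := by
      funext g
      rw [Finset.sum_apply, Finset.sum_eq_single g]
      · apply Complex.ext <;> simp
      · intro f _ hf
        simp [Pi.single_apply, hf.symm]
      · intro h
        exact absurd (Finset.mem_univ g) h
    conv_lhs => rw [e1]
    rw [map_sum, Complex.re_sum]
    refine Finset.sum_congr rfl fun f _ => ?_
    rw [map_add, map_smul, map_smul, smul_eq_mul, smul_eq_mul, hw]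
    simp only [Complex.mul_re, Complex.sub_re,
      Complex.sub_im, Complex.ofReal_re, Complex.ofReal_im, Complex.mul_im, Complex.I_re,
      Complex.I_im]
    ring
  have h5 : ∀ x : XX N, (∑ f : B, w f * dd f.1 x).re =
      (bd x : ℝ) * (∑ f : B, w f * bv f.1 0).re := by
    intro x
    obtain ⟨γ, hγ⟩ := clo hN x
    have e1 : ∑ f : B, w f * dd f.1 x = ∑ f : B, w f * pv B γ f +
        ((bd x : ℤ) : ℂ) * ∑ f : B, w f * bv f.1 0 := by
      rw [Finset.mul_sum, ← Finset.sum_add_distrib]
      refine Finset.sum_congr rfl fun f _ => ?_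
      obtain ⟨ε, hε⟩ := hB.newf f.1 f.2
      rw [hγ f.1 ε hε]
      unfold pv
      ring
    rw [e1, Complex.add_re, ← h4, h3, zero_add,
      show ((bd x : ℤ) : ℂ) = (((bd x : ℤ) : ℝ) : ℂ) by push_cast; rfl, Complex.re_ofReal_mul]
  have h6 := hab2 H.gr H.pe H.c1 H.he hN h2 hB w (-(∑ f : B, w f * bv f.1 0).re)
  have h7 : ∑ x : XX N, |(∑ f : B, w f * dd f.1 x).re +
      -(∑ f : B, w f * bv f.1 0).re * (bd x : ℝ)| = 0 := by
    refine Finset.sum_eq_zero fun x _ => ?_
    rw [h5 x, abs_eq_zero]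
    ring
  rw [h7, mul_zero] at h6
  have h8 : ∀ f : B, w f = 0 := by
    intro f
    have e1 := Finset.single_le_sum (f := fun f : B => ‖(co f.1 2 - 3) * w f‖)
      (fun f _ => norm_nonneg _) (Finset.mem_univ f)
    have e2 : ‖(co f.1 2 - 3) * w f‖ ≤ 0 := e1.trans h6
    have e3 : (co f.1 2 - 3) * w f = 0 := norm_le_zero_iff.1 e2
    rcases mul_eq_zero.1 e3 with h | h
    · exfalso
      obtain ⟨ε, hε⟩ := hB.newf f.1 f.2
      exact two red N hN h2 f.1 ε hε (sub_eq_zero.1 h)
    · exact h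
  apply LinearMap.ext
  intro z
  rw [h4 z]
  simp [h8]

end Pool.Agent.K4H13.CV
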