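import Mathlib

set_option autoImplicit false

namespace Pool.Agent.K4H13.CV

theorem exists_det {F : Type*} [Fintype F] [DecidableEq F] {S : Set ℕ} (c : ℕ → F → ℝ)
    (h : ∀ w : F → ℝ, (∀ n ∈ S, ∑ f, w f * c n f = 0) → w = 0) :
    ∃ n : F → ℕ, (∀ i, n i ∈ S) ∧ (Matrix.of fun i j => c (n i) j).det ≠ 0 := by
  classical
  -- the vectors `c n`, `n ∈ S`, span
  have hspan : Submodule.span ℝ (c '' S) = ⊤ := by
    by_contra hne
    obtain ⟨φ, hφ0, hφ⟩ := Submodule.exists_dual_map_eq_bot_of_lt_top (lt_top_iff_ne_top.2 hne)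
      inferInstance
    apply hφ0
    have hw : (fun f => φ (Pi.single f 1)) = 0 := by
      apply h
      intro n hn
      have h1 : φ (c n) = 0 := by
        have h2 : φ (c n) ∈ Submodule.map φ (Submodule.span ℝ (c '' S)) :=
          Submodule.mem_map_of_mem (Submodule.subset_span ⟨n, hn, rfl⟩)
        rw [hφ] at h2
        simpa using h2
      have h3 : c n = ∑ f, c n f • (Pi.single f (1 : ℝ) : F → ℝ) := by
        ext g
        simp [Finset.sum_apply, Pi.single_apply]
      rw [h3, map_sum] at h1
      simp only [map_smul, smul_eq_mul] at h1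
      rw [← h1]
      apply Finset.sum_congr rfl
      intro f _
      ring
    apply LinearMap.pi_ext'
    intro f
    ext
    simpa using congrFun hw f
  obtain ⟨b, hbS, hbspan, hbli⟩ := exists_linearIndependent ℝ (c '' S)
  rw [hspan] at hbspan
  let B : Module.Basis b ℝ (F → ℝ) := Module.Basis.mk hbli (by
    rw [Subtype.range_coe_subtype]
    exact hbspan.ge)
  haveI : Fintype b := FiniteDimensional.fintypeBasisIndex B
  have hcard : Fintype.card F = Fintype.card b := by
    have h1 := Module.finrank_eq_card_basis B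
    rw [Module.finrank_fintype_fun_eq_card] at h1
    exact h1
  let e : F ≃ b := Fintype.equivOfCardEq hcard
  have hex : ∀ i : F, ∃ n ∈ S, c n = (e i : F → ℝ) := fun i => hbS (e i).2
  choose n hnS hn using hex
  refine ⟨n, hnS, ?_⟩
  have hli : LinearIndependent ℝ (fun i : F => c (n i)) := by
    have h1 : (fun i : F => c (n i)) = (fun x : b => (x : F → ℝ)) ∘ e := by
      funext i
      exact hn i
    rw [h1]
    exact hbli.comp _ e.injective
  have hu : IsUnit (Matrix.of fun i j => c (n i) j) :=
    Matrix.linearIndependent_rows_iff_isUnit.1 hli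
  exact ((Matrix.isUnit_iff_isUnit_det _).1 hu).ne_zero

end Pool.Agent.K4H13.CV
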