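import Pool.Agent.K4H13.CV.Asm4
import Pool.Agent.K4H13.CV.Det
import Pool.Agent.K4H13.CV.Ind
import Pool.Agent.K4H13.CV.Coef

/-!
# Project CV: the product of the nonzero central values
-/

set_option autoImplicit false

open Complex Filter Topology Set UpperHalfPlane MatrixGroups CongruenceSubgroup MeasureTheory
open scoped Manifold ModularForm

namespace Pool.Agent.K4H13.CV

open Pool.Agent.TH940 (prim Fr)
open Pool.Agent.Y18.BSD
open W388.LV (SF bf pet IsNewBasis)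

variable {N : ℕ} [NeZero N]

lemma three_le (hN : N.Prime) (h2 : N ≠ 2) : (3 : ℝ) ≤ N := by
  have := hN.two_le
  have h3 : 3 ≤ N := by omega
  exact_mod_cast h3

theorem kappa (H : HYP) (hN : N.Prime) (h2 : N ≠ 2) {B : Finset (Cf2 N)}
    (hB : IsNewBasis N 2 B) (hg : 1 ≤ B.card) (v : B ⊕ B → B → ℂ) (hv : ∀ i, v i ∈ LL B)
    (hd : (RM v).det ≠ 0) : 1 / (N : ℝ) ^ (296 * B.card) ≤ |(RM v).det| := by
  have hN3 := three_le hN h2
  have hN0 : (0 : ℝ) < N := by linarith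
  have hN1 : (1 : ℝ) ≤ N := by linarith
  obtain ⟨s1, s2, s3⟩ := dimS H hN h2 hB
  have hc := card_le H hN h2 hB
  have h1 := gram_low H hN h2 hB
  have h3 := det_low H hN h2 hB v hv hd
  rw [card_JJ] at h1
  have hX : (Fintype.card (XX N) : ℝ) = N + 1 := by rw [s1]; push_cast; ring
  have hgN : (B.card : ℝ) * 2 ≤ N := by
    rw [s1] at hc
    have : B.card * 2 ≤ N := by omega
    exact_mod_cast this
  have h10 : (10 : ℝ) ≤ (N : ℝ) ^ 3 := by
    calc (10 : ℝ) ≤ 3 ^ 3 := by norm_num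
      _ ≤ (N : ℝ) ^ 3 := by gcongr
  have hK2 : K2 N B ≤ (N : ℝ) ^ 63 := by
    unfold K2
    rw [hX]
    have e1 : ((N : ℝ) + 1) * (B.card : ℝ) ≤ (N : ℝ) ^ 2 := by nlinarith
    have e2 : (1 : ℝ) ≤ (N : ℝ) ^ 9 := one_le_pow₀ hN1
    calc 1 + 10 ^ 17 * (N : ℝ) ^ 7 * ((N : ℝ) + 1) * (B.card : ℝ) =
        1 + 10 ^ 17 * (N : ℝ) ^ 7 * (((N : ℝ) + 1) * (B.card : ℝ)) := by ring
      _ ≤ 1 + 10 ^ 17 * (N : ℝ) ^ 7 * (N : ℝ) ^ 2 := by gcongr
      _ = 1 + 10 ^ 17 * (N : ℝ) ^ 9 := by ring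
      _ ≤ 10 ^ 18 * (N : ℝ) ^ 9 := by linarith
      _ ≤ ((N : ℝ) ^ 3) ^ 18 * (N : ℝ) ^ 9 := by gcongr
      _ = (N : ℝ) ^ 63 := by rw [← pow_mul, ← pow_add]
  have hmK : (Fintype.card (XX N) : ℝ) * K2 N B ^ 2 ≤ (N : ℝ) ^ 128 := by
    have hK := K2_pos B
    have e1 : (Fintype.card (XX N) : ℝ) ≤ (N : ℝ) ^ 2 := by rw [hX]; nlinarith
    calc (Fintype.card (XX N) : ℝ) * K2 N B ^ 2 ≤ (N : ℝ) ^ 2 * ((N : ℝ) ^ 63) ^ 2 := by gcongr
      _ = (N : ℝ) ^ 128 := by rw [← pow_mul, ← pow_add]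
  have hmK0 : 0 < (Fintype.card (XX N) : ℝ) * K2 N B ^ 2 := by
    have hK := K2_pos B
    rw [hX]
    positivity
  have h4 : 1 / (N : ℝ) ^ (128 * (2 * B.card + 1)) ≤ ((Psi B).transpose * Psi B).det := by
    refine le_trans ?_ h1
    rw [pow_mul, ← one_div_pow]
    gcongr
  have h5 : (9 * (Fintype.card (XX N) : ℝ)) ^ (2 * Fintype.card (XX N)) ≤
      (N : ℝ) ^ (8 * (N + 1)) := by
    have e1 : 9 * ((N : ℝ) + 1) ≤ (N : ℝ) ^ 4 := by
      have e2 : (27 : ℝ) ≤ (N : ℝ) ^ 3 := by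
        calc (27 : ℝ) = 3 ^ 3 := by norm_num
          _ ≤ (N : ℝ) ^ 3 := by gcongr
      calc 9 * ((N : ℝ) + 1) ≤ 27 * N := by linarith
        _ ≤ (N : ℝ) ^ 3 * N := by gcongr
        _ = (N : ℝ) ^ 4 := by ring
    calc (9 * (Fintype.card (XX N) : ℝ)) ^ (2 * Fintype.card (XX N)) =
        (9 * ((N : ℝ) + 1)) ^ (2 * (N + 1)) := by rw [hX, s1]
      _ ≤ ((N : ℝ) ^ 4) ^ (2 * (N + 1)) := by gcongr
      _ = (N : ℝ) ^ (8 * (N + 1)) := by rw [← pow_mul]; congr 1; ring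
  have h6 : 1 / (N : ℝ) ^ (128 * (2 * B.card + 1)) ≤ (N : ℝ) ^ (8 * (N + 1)) * (RM v).det ^ 2 :=
    h4.trans (h3.trans (mul_le_mul_of_nonneg_right h5 (sq_nonneg _)))
  have h7 : (1 / (N : ℝ) ^ (296 * B.card)) ^ 2 ≤ (RM v).det ^ 2 := by
    have e1 : 1 / ((N : ℝ) ^ (128 * (2 * B.card + 1)) * (N : ℝ) ^ (8 * (N + 1))) ≤
        (RM v).det ^ 2 := by
      rw [div_le_iff₀ (by positivity)] at h6 ⊢
      linarith
    refine le_trans ?_ e1
    rw [one_div_pow, ← pow_mul, ← pow_add]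
    refine one_div_le_one_div_of_le (by positivity) ?_
    refine pow_le_pow_right₀ hN1 ?_
    omega
  have h8 := sq_le_sq.1 h7
  exact (le_abs_self _).trans h8

open Classical in
/-- **The product of the nonzero central values.** -/
theorem prod_low (H : HYP) (hN : N.Prime) (h2 : N ≠ 2) {B : Finset (Cf2 N)}
    (hB : IsNewBasis N 2 B) : 1 / (N : ℝ) ^ (332 * B.card) ≤
      ∏ f ∈ (Finset.univ : Finset B).filter (fun f => bv f.1 0 ≠ 0), ‖bv f.1 0‖ := by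
  rcases Nat.eq_zero_or_pos B.card with h0 | hg
  · have he : IsEmpty B := by
      rw [Finset.card_eq_zero] at h0
      rw [h0]
      infer_instance
    rw [Finset.univ_eq_empty, Finset.filter_empty, Finset.prod_empty, h0]
    norm_num
  have hN3 := three_le hN h2
  have hN0 : (0 : ℝ) < N := by linarith
  have hN1 : (1 : ℝ) ≤ N := by linarith
  have h2N : ¬ 2 ∣ N := fun h => h2 ((Nat.prime_dvd_prime_iff_eq Nat.prime_two hN).1 h).symm
  obtain ⟨δ, hδ1, hδ2⟩ := gen N hN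
  set F : Finset B := (Finset.univ : Finset B).filter (fun f => bv f.1 0 ≠ 0) with hFdef
  have hF : ∀ f ∈ F, W388.IsNewf N 2 f.1 1 := by
    intro f hf
    obtain ⟨ε, hε⟩ := hB.newf f.1 f.2
    have := sign_of_ne hε (Finset.mem_filter.1 hf).2
    rwa [this] at hε
  obtain ⟨n, hn1, hn2⟩ := exists_det (F := F) (S := {n : ℕ | n ≤ 100 * N ^ 2 ∧ n.Coprime N})
    (fun n f => (co f.1.1 n).re) (fun w hw => indep hN hB F hF w hw)
  set I : B → ℝ := fun f => ((co f.1 2 - 3) * bv f.1 0).re with hI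
  have hIc : ∀ f : B, ((I f : ℝ) : ℂ) = (co f.1 2 - 3) * bv f.1 0 := by
    intro f
    obtain ⟨ε, hε⟩ := hB.newf f.1 f.2
    have e1 := co_real hε 2
    have e2 := bv_zero_real hε
    have e3 : (co f.1 2 - 3) * bv f.1 0 = ((((co f.1 2).re - 3) * (bv f.1 0).re : ℝ) : ℂ) := by
      rw [Complex.ofReal_mul, Complex.ofReal_sub, e2, ← e1]
      norm_num
    rw [hI]
    simp only
    rw [e3, Complex.ofReal_re]
  have hco3 : ∀ f : B, co f.1 2 - 3 ≠ 0 := by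
    intro f h
    obtain ⟨ε, hε⟩ := hB.newf f.1 f.2
    exact two red N hN h2 f.1 ε hε (sub_eq_zero.1 h)
  have key := detIneq2 (LL B) (1 / (N : ℝ) ^ (296 * B.card))
    (fun v hv hd => kappa H hN h2 hB hg v hv hd) (fun i => pv B (δ i)) (fun i => pv_mem B _)
    (10 ^ 4 * (N : ℝ) ^ 4) ?_ ?_ (span_short H hN h2 hB δ hδ2) F I ?_
    (fun i j => (co j.1.1 (n i)).re) hn2 ?_ ?_
  · -- numerics
    rw [Fintype.card_coe] at key
    have hc := card_le H hN h2 hB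
    have s1 := (dimS H hN h2 hB).1
    rw [s1] at hc
    have h10 : (10 : ℝ) ≤ (N : ℝ) ^ 3 := by
      calc (10 : ℝ) ≤ 3 ^ 3 := by norm_num
        _ ≤ (N : ℝ) ^ 3 := by gcongr
    have k1 : ((2 * B.card : ℕ) : ℝ) ^ (2 * B.card) ≤ (N : ℝ) ^ (2 * B.card) := by
      have : ((2 * B.card : ℕ) : ℝ) ≤ N := by
        have : 2 * B.card ≤ N := by omega
        exact_mod_cast this
      gcongr
    have k2 : (10 ^ 4 * (N : ℝ) ^ 4) ^ (2 * B.card) ≤ (N : ℝ) ^ (32 * B.card) := by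
      calc (10 ^ 4 * (N : ℝ) ^ 4) ^ (2 * B.card) ≤ (((N : ℝ) ^ 3) ^ 4 * (N : ℝ) ^ 4) ^ (2 * B.card) := by
            gcongr
        _ = (N : ℝ) ^ (32 * B.card) := by
            rw [← pow_mul, ← pow_add, ← pow_mul]
            congr 1
            ring
    have k3 : ∏ f ∈ F, |I f| ≤ (N : ℝ) ^ (2 * B.card) * ∏ f ∈ F, ‖bv f.1 0‖ := by
      have e1 : ∀ f ∈ F, |I f| ≤ (N : ℝ) ^ 2 * ‖bv f.1 0‖ := by
        intro f _
        obtain ⟨ε, hε⟩ := hB.newf f.1 f.2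
        have e2 := H.qu N hN h2 f.1 ε hε
        have e3 : ‖co f.1 2 - 3‖ ≤ (N : ℝ) ^ 2 := by
          have e4 : ‖co f.1 2 - 3‖ ≤ ‖co f.1 2‖ + ‖(3 : ℂ)‖ := norm_sub_le _ _
          have e5 : ‖(3 : ℂ)‖ = 3 := by norm_num
          have e6 : 0 < 1 / (100 * (N : ℝ)) ^ 4 := by positivity
          rw [e5] at e4
          nlinarith
        refine (Complex.abs_re_le_norm _).trans ?_
        rw [norm_mul]
        gcongr
      calc ∏ f ∈ F, |I f| ≤ ∏ f ∈ F, ((N : ℝ) ^ 2 * ‖bv f.1 0‖) :=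
            Finset.prod_le_prod (fun f _ => abs_nonneg _) e1
        _ = ((N : ℝ) ^ 2) ^ F.card * ∏ f ∈ F, ‖bv f.1 0‖ := by
            rw [Finset.prod_mul_distrib, Finset.prod_const]
        _ ≤ (N : ℝ) ^ (2 * B.card) * ∏ f ∈ F, ‖bv f.1 0‖ := by
            refine mul_le_mul_of_nonneg_right ?_ (Finset.prod_nonneg fun f _ => norm_nonneg _)
            rw [← pow_mul]
            refine pow_le_pow_right₀ hN1 ?_
            have e7 : F.card ≤ B.card := by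
              have := Finset.card_le_univ F
              rwa [Fintype.card_coe] at this
            omega
    have hP0 : 0 ≤ ∏ f ∈ F, ‖bv f.1 0‖ := Finset.prod_nonneg fun f _ => norm_nonneg _
    have k4 : 1 / (N : ℝ) ^ (296 * B.card) ≤
        (N : ℝ) ^ (36 * B.card) * ∏ f ∈ F, ‖bv f.1 0‖ := by
      refine key.trans ?_
      calc _ ≤ (N : ℝ) ^ (2 * B.card) * (N : ℝ) ^ (32 * B.card) *
            ((N : ℝ) ^ (2 * B.card) * ∏ f ∈ F, ‖bv f.1 0‖) := by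
            refine mul_le_mul (mul_le_mul k1 k2 (by positivity) (by positivity)) k3
              (Finset.prod_nonneg fun f _ => abs_nonneg _) (by positivity)
        _ = (N : ℝ) ^ (36 * B.card) * ∏ f ∈ F, ‖bv f.1 0‖ := by
            rw [← mul_assoc, ← pow_add, ← pow_add]
            congr 2
            ring
    rw [div_le_iff₀ (by positivity)] at k4 ⊢
    calc (1 : ℝ) ≤ ((N : ℝ) ^ (36 * B.card) * ∏ f ∈ F, ‖bv f.1 0‖) * (N : ℝ) ^ (296 * B.card) := k4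
      _ = (∏ f ∈ F, ‖bv f.1 0‖) * ((N : ℝ) ^ (36 * B.card) * (N : ℝ) ^ (296 * B.card)) := by ring
      _ = _ := by
        rw [← pow_add]
        congr 2
        ring
  · have : (1 : ℝ) ≤ (N : ℝ) ^ 4 := one_le_pow₀ hN1
    linarith
  · intro i f
    obtain ⟨ε, hε⟩ := hB.newf f.1 f.2
    have e1 := per_bd f.1 (coef N hN f.1 ε hε) (δ i) ((N : ℝ) ^ 2) (one_le_pow₀ hN1)
      (by
        have := hδ1 i
        rw [← Int.cast_abs]
        exact_mod_cast this)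
    refine e1.trans ?_
    have : (0 : ℝ) ≤ (N : ℝ) ^ 4 := by positivity
    calc 8 * ((N : ℝ) ^ 2) ^ 2 = 8 * (N : ℝ) ^ 4 := by ring
      _ ≤ _ := by linarith
  · intro f hf h
    have e1 := hIc f
    rw [h, Complex.ofReal_zero] at e1
    rcases mul_eq_zero.1 e1.symm with h | h
    · exact hco3 f h
    · exact (Finset.mem_filter.1 hf).2 h
  · intro i j
    obtain ⟨ε, hε⟩ := hB.newf j.1.1 j.1.2
    refine (Complex.abs_re_le_norm _).trans ((coef N hN j.1.1 ε hε (n i)).trans ?_)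
    have e1 : ((n i : ℕ) : ℝ) ≤ 100 * (N : ℝ) ^ 2 := by
      have := (hn1 i).1
      exact_mod_cast this
    calc ((n i : ℕ) : ℝ) ^ 2 ≤ (100 * (N : ℝ) ^ 2) ^ 2 := by gcongr
      _ = _ := by ring
  · intro i
    refine (congrArg (· ∈ LL B) ?_).mp (winding (fun f hf => hB.newf f hf) h2N (n i) (hn1 i).2)
    funext f
    by_cases h : f ∈ F
    · rw [dif_pos h]
      obtain ⟨ε, hε⟩ := hB.newf f.1 f.2
      rw [Complex.ofReal_mul, hIc, ← co_real hε]
    · rw [dif_neg h]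
      have e1 : bv f.1 0 = 0 := by
        by_contra h3
        exact h (Finset.mem_filter.2 ⟨Finset.mem_univ _, h3⟩)
      rw [e1, mul_zero, mul_zero]

end Pool.Agent.K4H13.CV
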