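import Pool.Agent.Y18.BSD.Bv
import Pool.Agent.Y18.BSD.Per
import Pool.Agent.K4H13.HW.Sym
import Pool.Agent.W388.LV.Final
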