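import Pool.Agent.K4H13.CV.Vec
import Pool.Agent.K4H13.CV.Sml

/-!
# Project CV: the dimension of the space of cusp forms
-/

set_option autoImplicit false

open Complex Filter Topology Set UpperHalfPlane MatrixGroups CongruenceSubgroup MeasureTheory
open Matrix.SpecialLinearGroup
open scoped Manifold ModularForm

namespace Pool.Agent.K4H13.CV

open W388.LV (SF)

namespace Cdm

variable {N : ℕ}

/-! ### the slash operator on the components -/

theorem slash_vm {k : ℤ} {F : ℍ → XX N → ℂ} (hF : VM N k F) (γ : SL(2, ℤ)) (x : XX N) :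
    ((fun z => F z x) ∣[k] γ) = fun z => F z (γ⁻¹ • x) := by
  funext z
  rw [ModularForm.SL_slash_apply, hF.mod, zpow_neg]
  have hd := zpow_ne_zero k (denom_ne_zero γ z)
  field_simp

/-! ### the trace -/

theorem mdiff_sum {ι : Type*} (s : Finset ι) (f : ι → ℍ → ℂ)
    (hf : ∀ i ∈ s, MDifferentiable 𝓘(ℂ) 𝓘(ℂ) (f i)) :
    MDifferentiable 𝓘(ℂ) 𝓘(ℂ) (fun z => ∑ i ∈ s, f i z) := by
  classical
  induction s using Finset.induction_on with
  | empty => simpa using mdifferentiable_const
  | insert a s ha ih =>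
    have := (hf a (Finset.mem_insert_self a s)).add
      (ih fun i hi => hf i (Finset.mem_insert_of_mem hi))
    simpa [Finset.sum_insert ha] using! this

theorem bdd_sum {ι : Type*} (s : Finset ι) (f : ι → ℍ → ℂ)
    (hf : ∀ i ∈ s, IsBoundedAtImInfty (f i)) : IsBoundedAtImInfty (fun z => ∑ i ∈ s, f i z) := by
  classical
  induction s using Finset.induction_on with
  | empty => simpa using bdd_const 0
  | insert a s ha ih =>
    have := bdd_add (hf a (Finset.mem_insert_self a s))
      (ih fun i hi => hf i (Finset.mem_insert_of_mem hi))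
    simpa [Finset.sum_insert ha] using! this

theorem tr_slash [Fintype (XX N)] {k : ℤ} {F : ℍ → XX N → ℂ} (hF : VM N k F) (γ : SL(2, ℤ)) :
    ((fun z => ∑ x, F z x) ∣[k] γ) = fun z => ∑ x, F z x := by
  funext z
  have h1 : ∀ x, F (γ • z) x * denom γ z ^ (-k) = F z (γ⁻¹ • x) := by
    intro x
    have := congrFun (slash_vm hF γ x) z
    rwa [ModularForm.SL_slash_apply] at this
  rw [ModularForm.SL_slash_apply, Finset.sum_mul, Finset.sum_congr rfl fun x _ => h1 x]
  exact Equiv.sum_comp (MulAction.toPerm (γ⁻¹ : SL(2, ℤ)) : Equiv.Perm (XX N)) fun x => F z x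

/-- the trace -/
noncomputable def tr [Fintype (XX N)] {k : ℤ} {F : ℍ → XX N → ℂ} (hF : VM N k F) :
    ModularForm 𝒮ℒ k where
  toFun z := ∑ x, F z x
  slash_action_eq' := by
    rintro _ ⟨γ, rfl⟩
    exact tr_slash hF γ
  holo' := mdiff_sum _ _ fun x _ => hF.holo x
  bdd_at_cusps' := by
    intro c hc
    rw [OnePoint.isBoundedAt_iff_forall_SL2Z hc]
    intro γ _
    have h := tr_slash hF γ
    have h2 : IsBoundedAtImInfty (fun z => ∑ x, F z x) := bdd_sum _ _ fun x _ => hF.bdd x
    rw [← h] at h2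
    exact h2

theorem tr_zero [Fintype (XX N)] {F : ℍ → XX N → ℂ} (hF : VM N 2 F) (z : ℍ) :
    ∑ x, F z x = 0 := by
  have h := rank_zero_iff_forall_zero.mp ModularForm.levelOne_weight_two_rank_zero (tr hF)
  have := congrArg (fun f : ModularForm 𝒮ℒ 2 => f z) h
  exact this

/-! ### limits at infinity -/

section Limits

variable [hN : Fact N.Prime]

theorem eq_T (n : ℤ) (x : XX N) : Sml.eq N ((ModularGroup.T ^ n : SL(2, ℤ)) • x) =
    (Sml.eq N x).map (· + (n : ZMod N)) := by
  induction x using QuotientGroup.induction_on with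
  | H g =>
  have h1 : ((ModularGroup.T ^ n : SL(2, ℤ)) • (QuotientGroup.mk g : XX N)) =
    QuotientGroup.mk (ModularGroup.T ^ n * g) := rfl
  rw [h1, Sml.eq_mk, Sml.eq_mk]
  have h2 : ((ModularGroup.T ^ n * g : SL(2, ℤ)) 1 0 : ℤ) = g 1 0 := by
    rw [Matrix.SpecialLinearGroup.coe_mul, ModularGroup.coe_T_zpow]
    simp [Matrix.mul_apply, Fin.sum_univ_two]
  have h3 : ((ModularGroup.T ^ n * g : SL(2, ℤ)) 0 0 : ℤ) = g 0 0 + n * g 1 0 := by
    rw [Matrix.SpecialLinearGroup.coe_mul, ModularGroup.coe_T_zpow]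
    simp [Matrix.mul_apply, Fin.sum_univ_two]
  unfold Sml.col
  rw [h2, h3]
  by_cases hc : ((g 1 0 : ℤ) : ZMod N) = 0
  · simp [hc]
  · simp only [hc, if_false, Option.map_some]
    congr 1
    push_cast
    field_simp

omit hN in
theorem F_T {k : ℤ} {F : ℍ → XX N → ℂ} (hF : VM N k F) (n : ℤ) (z : ℍ) (x : XX N) :
    F ((n : ℝ) +ᵥ z) x = F z ((ModularGroup.T ^ n : SL(2, ℤ))⁻¹ • x) := by
  have h := hF.mod (ModularGroup.T ^ n) z x
  rw [modular_T_zpow_smul] at h
  rw [h]
  have : denom (ModularGroup.T ^ n : SL(2, ℤ)) z = 1 := by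
    rw [ModularGroup.denom_apply, ModularGroup.coe_T_zpow]
    simp
  rw [this, one_zpow, one_mul]

theorem T_N_smul (x : XX N) : (ModularGroup.T ^ (N : ℤ) : SL(2, ℤ))⁻¹ • x = x := by
  rw [inv_smul_eq_iff]
  apply (Sml.eq N).injective
  rw [eq_T]
  simp

theorem F_per {k : ℤ} {F : ℍ → XX N → ℂ} (hF : VM N k F) (x : XX N) :
    Function.Periodic ((fun z => F z x) ∘ ofComplex) ((N : ℝ) : ℂ) := by
  intro w
  by_cases! hw : 0 < w.im
  · have h1 : 0 < (w + ((N : ℝ) : ℂ)).im := by simp [hw]
    simp only [Function.comp_apply, ofComplex_apply_of_im_pos h1, ofComplex_apply_of_im_pos hw]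
    have h2 := F_T hF (N : ℤ) ⟨w, hw⟩ x
    rw [T_N_smul] at h2
    rw [← h2]
    congr 1
    ext
    simp [add_comm]
  · have h1 : (w + ((N : ℝ) : ℂ)).im ≤ 0 := by simpa using hw
    simp only [Function.comp_apply, ofComplex_apply_of_im_nonpos h1,
      ofComplex_apply_of_im_nonpos hw]

theorem lim_ex {k : ℤ} {F : ℍ → XX N → ℂ} (hF : VM N k F) (x : XX N) :
    ∃ L : ℂ, Tendsto (fun z : ℍ => F z x) atImInfty (𝓝 L) := by
  have hh : (0 : ℝ) < N := by exact_mod_cast hN.out.pos
  have h1 := UpperHalfPlane.analyticAt_cuspFunction_zero hh (F_per hF x) (hF.holo x) (hF.bdd x)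
  have h2 : (cuspFunction N (fun z => F z x) ∘ fun τ : ℍ ↦ Function.Periodic.qParam N τ : ℍ → ℂ) =
      fun z => F z x := by
    funext τ
    simpa using UpperHalfPlane.eq_cuspFunction τ hh.ne' (F_per hF x)
  exact ⟨_, (h1.continuousAt.tendsto.comp (qParam_tendsto_atImInfty hh)).congr
    fun τ => congrFun h2 τ⟩

omit hN in
theorem tendsto_vadd (n : ℝ) : Tendsto (fun z : ℍ => n +ᵥ z) atImInfty atImInfty := by
  rw [atImInfty, tendsto_comap_iff]
  refine tendsto_comap.congr fun z => ?_
  simp [UpperHalfPlane.vadd_im]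

variable {k : ℤ} {F : ℍ → XX N → ℂ} (hF : VM N k F) {L : XX N → ℂ}
  (hL : ∀ x, Tendsto (fun z : ℍ => F z x) atImInfty (𝓝 (L x)))

include hF hL

omit hN in
theorem L_T (n : ℤ) (x : XX N) : L ((ModularGroup.T ^ n : SL(2, ℤ)) • x) = L x := by
  have h1 : Tendsto (fun z : ℍ => F (((-n : ℤ) : ℝ) +ᵥ z) x) atImInfty (𝓝 (L x)) :=
    (hL x).comp (tendsto_vadd _)
  have h2 : (fun z : ℍ => F (((-n : ℤ) : ℝ) +ᵥ z) x) =
      fun z => F z ((ModularGroup.T ^ n : SL(2, ℤ)) • x) := by
    funext z
    rw [F_T hF, zpow_neg, inv_inv]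
  rw [h2] at h1
  exact tendsto_nhds_unique (hL _) h1

theorem L_const (s t : ZMod N) : L ((Sml.eq N).symm (some s)) = L ((Sml.eq N).symm (some t)) := by
  obtain ⟨n, hn⟩ : ∃ n : ℤ, (n : ZMod N) = t - s := ZMod.intCast_surjective _
  have h1 : (ModularGroup.T ^ n : SL(2, ℤ)) • (Sml.eq N).symm (some s) =
      (Sml.eq N).symm (some t) := by
    rw [Equiv.eq_symm_apply, eq_T, Equiv.apply_symm_apply, Option.map_some, hn]
    congr 1
    ring
  rw [← h1, L_T hF hL]

omit hL in
omit hF in
theorem x0_eq : (Sml.eq N).symm none = x0 N := by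
  rw [Equiv.symm_apply_eq, x0, Sml.eq_mk]
  simp [Sml.col]

theorem L_zero (hs : ∀ z, ∑ x, F z x = 0) (h0 : L (x0 N) = 0) (x : XX N) : L x = 0 := by
  have h1 : Tendsto (fun z : ℍ => ∑ x, F z x) atImInfty (𝓝 (∑ x, L x)) :=
    tendsto_finsetSum _ fun x _ => hL x
  simp only [hs] at h1
  have h2 : ∑ x, L x = 0 := (tendsto_nhds_unique h1 tendsto_const_nhds)
  have h3 : ∑ x, L x = L (x0 N) + N * L ((Sml.eq N).symm (some 0)) := by
    rw [← Equiv.sum_comp (Sml.eq N).symm, Fintype.sum_option, x0_eq,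
      Finset.sum_congr rfl fun t _ => L_const hF hL t 0]
    simp [ZMod.card]
  rw [h3, h0, zero_add] at h2
  have h4 : L ((Sml.eq N).symm (some 0)) = 0 := by
    rcases mul_eq_zero.1 h2 with h | h
    · exact absurd (by exact_mod_cast h : N = 0) hN.out.ne_zero
    · exact h
  rcases hx : Sml.eq N x with _ | t
  · rw [← Equiv.eq_symm_apply, x0_eq] at hx
    rw [hx, h0]
  · rw [← Equiv.eq_symm_apply] at hx
    rw [hx, L_const hF hL t 0, h4]

end Limits

/-! ### the cusp form -/

/-- a vector valued form which vanishes at infinity gives a cusp form -/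
noncomputable def toCusp [NeZero N] {F : ℍ → XX N → ℂ} (hF : VM N 2 F)
    (h0 : ∀ x, Tendsto (fun z : ℍ => F z x) atImInfty (𝓝 0)) : SF N 2 where
  toFun z := F z (x0 N)
  slash_action_eq' := by
    rintro _ ⟨γ, hγ, rfl⟩
    have h1 := slash_vm hF γ (x0 N)
    have h2 : (γ⁻¹ • x0 N : XX N) = x0 N := by
      change (QuotientGroup.mk (γ⁻¹ * 1) : XX N) = QuotientGroup.mk 1
      rw [QuotientGroup.eq]
      simpa using hγ
    rw [h2] at h1
    exact h1
  holo' := hF.holo _
  zero_at_cusps' := by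
    intro c hc
    rw [Subgroup.IsArithmetic.isCusp_iff_isCusp_SL2Z] at hc
    rw [OnePoint.isZeroAt_iff_forall_SL2Z hc]
    intro γ _
    rw [slash_vm hF]
    exact h0 _

/-- the first component determines everything -/
theorem eq_zero_of_x0 {k : ℤ} {F : ℍ → XX N → ℂ} (hF : VM N k F) (h : ∀ z, F z (x0 N) = 0)
    (z : ℍ) (x : XX N) : F z x = 0 := by
  induction x using QuotientGroup.induction_on with
  | H g =>
  have h1 := hF.mod g⁻¹ z (x0 N)
  rw [h, inv_inv] at h1
  have h2 : (g • x0 N : XX N) = QuotientGroup.mk g := by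
    change (QuotientGroup.mk (g * 1) : XX N) = QuotientGroup.mk g
    rw [mul_one]
  rw [h2] at h1
  rcases mul_eq_zero.1 h1.symm with h3 | h3
  · exact absurd h3 (zpow_ne_zero k (denom_ne_zero _ z))
  · exact h3

/-! ### finiteness -/

/-- the vector of a cusp form -/
noncomputable def vecL (N : ℕ) : SF N 2 →ₗ[ℂ] (ℍ → XX N → ℂ) where
  toFun f := vec N 2 f
  map_add' f g := by
    funext z x
    simp only [vec, ModularForm.SL_slash_apply, Pi.add_apply]
    change (f (gx x • z) + g (gx x • z)) * _ = _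
    ring
  map_smul' c f := by
    funext z x
    simp only [vec, ModularForm.SL_slash_apply, Pi.smul_apply, RingHom.id_apply, smul_eq_mul]
    change (c * f (gx x • z)) * _ = _
    ring

theorem vec_x0 (f : SF N 2) (z : ℍ) : vec N 2 f z (x0 N) = f z := by
  have h1 : (gx (x0 N))⁻¹ ∈ Gamma0 N := by
    have := gx_mem (x0 N)
    rw [x0, eq_comm, QuotientGroup.eq] at this
    simpa using! this
  have h2 : gx (x0 N) ∈ Gamma0 N := by simpa using (Gamma0 N).inv_mem h1
  have h3 := f.slash_action_eq' (mapGL ℝ (gx (x0 N))) ⟨_, h2, rfl⟩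
  exact congrFun h3 z

theorem vm_vecc [NeZero N] (f : SF N 2) : VM N 2 (vec N 2 f) := by
  refine vm_of_slash f (ModularFormClass.holo f) (fun h hh => ?_) fun g => ?_
  · exact f.slash_action_eq' (mapGL ℝ h) ⟨h, hh, rfl⟩
  · exact ModularFormClass.bdd_at_infty_slash f g

/-- combinations with level one coefficients -/
noncomputable def comb [Fintype (XX N)] (k : XX N → ℤ) (F : XX N → ℍ → XX N → ℂ) :
    ((j : XX N) → ModularForm 𝒮ℒ (2 - k j)) →ₗ[ℂ] (ℍ → XX N → ℂ) where
  toFun g z x := ∑ j, g j z * F j z x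
  map_add' g h := by
    funext z x
    simp only [Pi.add_apply, ← Finset.sum_add_distrib]
    refine Finset.sum_congr rfl fun j _ => ?_
    change (g j z + h j z) * _ = _
    ring
  map_smul' c g := by
    funext z x
    simp only [Pi.smul_apply, RingHom.id_apply, smul_eq_mul, Finset.mul_sum]
    refine Finset.sum_congr rfl fun j _ => ?_
    change (c * g j z) * _ = _
    ring

theorem fin_SF [NeZero N] [Fintype (XX N)] {k : XX N → ℤ} {F : XX N → ℍ → XX N → ℂ}
    (hB : IsBas N k F) : Module.Finite ℂ (SF N 2) := by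
  have h1 : ∀ f : SF N 2, vecL N f ∈ LinearMap.range (comb k F) := by
    intro f
    obtain ⟨A, hA, hA2⟩ := hB.gen 2 (vec N 2 f) (vm_vecc f)
    choose g hg using hA
    refine ⟨g, ?_⟩
    funext z x
    change ∑ j, g j z * F j z x = vec N 2 f z x
    rw [hA2, tsum_fintype]
    refine Finset.sum_congr rfl fun j _ => ?_
    rw [hg j]
  have h2 : Function.Injective ((vecL N).codRestrict _ h1) := by
    intro f g hfg
    have h3 : vecL N f = vecL N g := congrArg Subtype.val hfg
    ext z
    have h4 : vec N 2 f z (x0 N) = vec N 2 g z (x0 N) := congrFun (congrFun h3 z) (x0 N)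
    rwa [vec_x0, vec_x0] at h4
  exact Module.Finite.of_injective _ h2

/-! ### the inequality -/

theorem LM_const (c : ℂ) : LM 0 (fun _ => c) := ⟨ModularForm.const c, fun _ => rfl⟩

theorem LM_zero (k : ℤ) : LM k (fun _ => 0) := ⟨0, fun _ => rfl⟩

section Ineq

variable [Fintype (XX N)] {k : XX N → ℤ} {F : XX N → ℍ → XX N → ℂ}

open Classical in
/-- combinations of the basis elements of weight two -/
noncomputable def cmb (k : XX N → ℤ) (F : XX N → ℍ → XX N → ℂ) (c : {j // k j = 2} → ℂ)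
    (z : ℍ) (x : XX N) : ℂ :=
  ∑ j : {j // k j = 2}, c j * F j z x

theorem cmb_vm (hB : IsBas N k F) (c : {j // k j = 2} → ℂ) : VM N 2 (cmb k F c) := by
  classical
  refine VM.sum Finset.univ _ fun j _ => ?_
  have := (hB.vm j).smul (c j)
  rw [j.2] at this
  exact this

theorem cmb_inj (hB : IsBas N k F) (c : {j // k j = 2} → ℂ) (h : ∀ z x, cmb k F c z x = 0) :
    c = 0 := by
  classical
  have hA : ∀ j, LM (2 - k j)
      ((fun (j : XX N) (_ : ℍ) => ∑ i : {j // k j = 2}, if (i : XX N) = j then c i else 0) j) := by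
    intro j
    by_cases hj : k j = 2
    · rw [hj, sub_self]
      exact LM_const _
    · have : ∑ i : {j // k j = 2}, (if (i : XX N) = j then c i else 0) = 0 :=
        Finset.sum_eq_zero fun i _ => if_neg fun h' : (i : XX N) = j => hj (h' ▸ i.2)
      simp only [this]
      exact LM_zero _
  have h1 := hB.uniq 2 _ hA (by
    intro z x
    rw [tsum_fintype]
    refine Eq.trans ?_ (h z x)
    rw [cmb]
    simp only [Finset.sum_mul]
    rw [Finset.sum_comm]
    refine Finset.sum_congr rfl fun i _ => ?_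
    simp)
  funext i
  have h2 := h1 i UpperHalfPlane.I
  simp only [Subtype.coe_inj] at h2
  simpa using h2

theorem ineq [NeZero N] [hN : Fact N.Prime] (hB : IsBas N k F) :
    Fintype.card {j // k j = 2} ≤ Module.finrank ℂ (SF N 2) + 1 := by
  classical
  have hfin := fin_SF hB
  choose ℓ hℓ using fun (j : XX N) (x : XX N) => lim_ex (hB.vm j) x
  let a : ({j // k j = 2} → ℂ) →ₗ[ℂ] ℂ :=
    { toFun := fun c => ∑ j, c j * ℓ j (x0 N)
      map_add' := fun c d => by
        simp only [Pi.add_apply, add_mul, Finset.sum_add_distrib]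
      map_smul' := fun t c => by
        simp only [Pi.smul_apply, smul_eq_mul, RingHom.id_apply, Finset.mul_sum, mul_assoc] }
  have hlim : ∀ c : LinearMap.ker a, ∀ x,
      Tendsto (fun z : ℍ => cmb k F c z x) atImInfty (𝓝 0) := by
    intro c
    have h1 : ∀ x, Tendsto (fun z : ℍ => cmb k F c z x) atImInfty
        (𝓝 ((fun x => ∑ j : {j // k j = 2}, c.1 j * ℓ j x) x)) := fun x =>
      tendsto_finsetSum _ fun j _ => (hℓ j x).const_mul _
    intro x
    have h2 : ∑ j : {j // k j = 2}, c.1 j * ℓ j x = 0 :=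
      L_zero (cmb_vm hB c) h1 (fun z => @tr_zero N Sml.instFintypeXX _ (cmb_vm hB c) z) c.2 x
    have h3 : Tendsto (fun z : ℍ => cmb k F c z x) atImInfty
      (𝓝 (∑ j : {j // k j = 2}, c.1 j * ℓ j x)) := h1 x
    rw [h2] at h3
    exact h3
  let Ψ : LinearMap.ker a →ₗ[ℂ] SF N 2 :=
    { toFun := fun c => toCusp (cmb_vm hB c) (hlim c)
      map_add' := fun c d => by
        ext z
        change cmb k F (c.1 + d.1) z (x0 N) = cmb k F c z (x0 N) + cmb k F d z (x0 N)
        simp only [cmb, Pi.add_apply, add_mul, Finset.sum_add_distrib]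
      map_smul' := fun t c => by
        ext z
        change cmb k F (t • c.1) z (x0 N) = t * cmb k F c z (x0 N)
        simp only [cmb, Pi.smul_apply, smul_eq_mul, Finset.mul_sum, mul_assoc] }
  have hinj : Function.Injective Ψ := by
    rw [injective_iff_map_eq_zero]
    intro c hc
    have h1 : ∀ z, cmb k F c z (x0 N) = 0 := by
      intro z
      have := congrArg (fun f : SF N 2 => f z) hc
      exact this
    exact Subtype.ext (cmb_inj hB c (eq_zero_of_x0 (cmb_vm hB c) h1))
  have h1 := LinearMap.finrank_le_finrank_of_injective hinj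
  have h2 := LinearMap.finrank_range_add_finrank_ker a
  have h3 : Module.finrank ℂ (LinearMap.range a) ≤ 1 := by
    have := Submodule.finrank_le (LinearMap.range a)
    rwa [Module.finrank_self] at this
  rw [Module.finrank_fintype_fun_eq_card] at h2
  omega

end Ineq

end Cdm

/-- CUSPDIM -/
theorem cuspdim : S_CUSPDIM := by
  classical
  intro N _ hN k F hB
  have : Fact N.Prime := ⟨hN⟩
  refine ⟨?_, Cdm.fin_SF hB⟩
  have h1 := Cdm.ineq hB
  have h2 : Nat.card {j | k j = 2} = Fintype.card {j // k j = 2} := by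
    rw [Nat.card_eq_fintype_card]
    rfl
  rw [h2]
  exact_mod_cast h1

end Pool.Agent.K4H13.CV

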