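import Pool.Agent.K4H13.CV.Stm2

/-!
# The number of basis elements of weight two
-/

set_option autoImplicit false

open Complex Filter Topology Set UpperHalfPlane MatrixGroups CongruenceSubgroup MeasureTheory
open scoped Manifold ModularForm ComplexConjugate

namespace Pool.Agent.K4H13.CV.ClsP

open Pool.Agent.K4H13.CV

theorem card_le {X ι : Type} [Finite X] [Fintype ι] (v : ι → X → ℂ) (hv : LinearIndependent ℂ v)
    (W : Submodule ℂ (X → ℂ)) (p : ι → Prop) [DecidablePred p] (h : ∀ i, p i → v i ∈ W) :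
    (Finset.univ.filter p).card ≤ Module.finrank ℂ W := by
  have h1 : LinearIndependent ℂ (fun i : {i // p i} => (⟨v i, h i i.2⟩ : W)) := by
    apply LinearIndependent.of_comp W.subtype
    exact hv.comp Subtype.val Subtype.val_injective
  have h2 := h1.fintype_card_le_finrank
  rwa [Fintype.card_subtype] at h2

/-- the permutation operator -/
def P {X : Type} (σ : Equiv.Perm X) : Module.End ℂ (X → ℂ) where
  toFun := fun φ x => φ (σ x)
  map_add' := fun _ _ => rfl
  map_smul' := fun _ _ => rfl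

theorem mem_eig {X : Type} (σ : Equiv.Perm X) (μ : ℂ) (φ : X → ℂ) :
    φ ∈ (P σ).eigenspace μ ↔ ∀ x, φ (σ x) = μ * φ x := by
  rw [Module.End.mem_eigenspace_iff]
  exact ⟨fun h x => congrFun h x, fun h => funext h⟩

theorem fix_eq {X : Type} (σ : Equiv.Perm X) : fixSub ℂ σ = (P σ).eigenspace 1 := by
  ext φ
  rw [mem_eig]
  constructor
  · intro h x
    rw [one_mul]
    exact h x
  · intro h x
    have := h x
    rwa [one_mul] at this

/-- three eigenspaces -/
theorem three {X : Type} [Fintype X] (σ : Equiv.Perm X) (μ : ℂ) (hμ1 : μ ≠ 1) (hμ2 : conj μ ≠ 1)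
    (hμ3 : conj μ ≠ μ) {ι : Type} [Fintype ι] (v : ι → X → ℂ) (hv : LinearIndependent ℂ v)
    (p : ι → Prop) [DecidablePred p] (h : ∀ i, p i → v i ∈ (P σ).eigenspace μ) :
    Module.finrank ℂ (fixSub ℂ σ) + 2 * (Finset.univ.filter p).card ≤ Fintype.card X := by
  have h1 : (Finset.univ.filter p).card ≤ Module.finrank ℂ ((P σ).eigenspace μ) :=
    card_le v hv _ p h
  -- the conjugate family
  let cj : (X → ℂ) →+ (X → ℂ) :=
    { toFun := fun φ x => conj (φ x)
      map_zero' := by ext x; simp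
      map_add' := fun a b => by ext x; simp }
  have hv' : LinearIndependent ℂ (cj ∘ v) := by
    refine hv.map_of_injective_injective (fun r => conj r) cj (fun r hr => ?_) (fun m hm => ?_)
      (fun r m => ?_)
    · simpa using hr
    · ext x
      have := congrFun hm x
      simpa [cj] using this
    · ext x
      simp [cj]
  have h2 : (Finset.univ.filter p).card ≤ Module.finrank ℂ ((P σ).eigenspace (conj μ)) := by
    refine card_le _ hv' _ p (fun i hi => ?_)
    rw [mem_eig]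
    intro x
    have := (mem_eig σ μ (v i)).1 (h i hi) x
    change conj (v i (σ x)) = conj μ * conj (v i x)
    rw [this, map_mul]
  have hind := (P σ).eigenspaces_iSupIndep
  have hd1 : Disjoint ((P σ).eigenspace 1) ((P σ).eigenspace μ) :=
    hind.pairwiseDisjoint (Ne.symm hμ1)
  have hd2 : Disjoint ((P σ).eigenspace (conj μ)) ((P σ).eigenspace 1 ⊔ (P σ).eigenspace μ) := by
    refine (hind (conj μ)).mono_right (sup_le ?_ ?_)
    · exact le_iSup₂_of_le (1 : ℂ) (Ne.symm hμ2) le_rfl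
    · exact le_iSup₂_of_le μ (Ne.symm hμ3) le_rfl
  have e1 := Submodule.finrank_sup_add_finrank_inf_eq ((P σ).eigenspace 1) ((P σ).eigenspace μ)
  rw [hd1.eq_bot, finrank_bot] at e1
  have e2 := Submodule.finrank_sup_add_finrank_inf_eq ((P σ).eigenspace (conj μ))
    ((P σ).eigenspace 1 ⊔ (P σ).eigenspace μ)
  rw [hd2.eq_bot, finrank_bot] at e2
  have e3 := Submodule.finrank_le ((P σ).eigenspace (conj μ) ⊔
    ((P σ).eigenspace 1 ⊔ (P σ).eigenspace μ))
  rw [Module.finrank_fintype_fun_eq_card] at e3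
  rw [fix_eq]
  omega

/-- the values of a basis at a point -/
theorem indep (hs : S_SPAN) {N : ℕ} [NeZero N] (hN : N.Prime) {k : XX N → ℤ}
    {F : XX N → ℍ → XX N → ℂ} (hF : IsBas N k F) [Fintype (XX N)] (z : ℍ) :
    LinearIndependent ℂ (fun j => F j z) := by
  apply linearIndependent_of_top_le_span_of_card_eq_finrank
  · rw [← hs N hN z, Submodule.span_le]
    rintro v ⟨l, G, hG, rfl⟩
    obtain ⟨A, -, hA⟩ := hF.gen l G hG
    have : G z = ∑ j, A j z • F j z := by
      ext x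
      rw [hA z x, tsum_fintype, Finset.sum_apply]
      rfl
    rw [this]
    exact Submodule.sum_mem _ fun j _ => Submodule.smul_mem _ _ (Submodule.subset_span ⟨j, rfl⟩)
  · rw [Module.finrank_fintype_fun_eq_card]

theorem neg_one_smul' {N : ℕ} (x : XX N) : (-1 : SL(2, ℤ))⁻¹ • x = x := by
  obtain ⟨g, rfl⟩ := QuotientGroup.mk_surjective x
  change (QuotientGroup.mk ((-1 : SL(2, ℤ))⁻¹ * g) : XX N) = QuotientGroup.mk g
  rw [QuotientGroup.eq]
  have : ((-1 : SL(2, ℤ))⁻¹ * g)⁻¹ * g = -1 := by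
    simp
  rw [this, Gamma0_mem]
  simp

theorem even_wt {N : ℕ} {k : ℤ} {F : ℍ → XX N → ℂ} (hF : VM N k F) (z : ℍ) (hz : F z ≠ 0) :
    Even k := by
  by_contra hk
  rw [Int.not_even_iff_odd] at hk
  apply hz
  ext x
  have := hF.mod (-1) z x
  rw [neg_one_smul'] at this
  have h1 : (-1 : SL(2, ℤ)) • z = z := by
    rw [ModularGroup.SL_neg_smul, one_smul]
  have h2 : denom ((-1 : SL(2, ℤ)) : GL (Fin 2) ℝ) z = -1 := by
    simp [denom]
  rw [h1, h2, hk.neg_one_zpow] at this
  have h3 : F z x = 0 := by linear_combination this / 2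
  simpa using h3

theorem at_I {N : ℕ} {k : ℤ} {F : ℍ → XX N → ℂ} (hF : VM N k F) (hk : 4 ∣ k) :
    F UpperHalfPlane.I ∈
      fixSub ℂ (MulAction.toPerm (ModularGroup.S : SL(2, ℤ)) : Equiv.Perm (XX N)) := by
  intro x
  have := hF.mod ModularGroup.S UpperHalfPlane.I (ModularGroup.S • x)
  rw [inv_smul_smul] at this
  have h1 : ModularGroup.S • UpperHalfPlane.I = UpperHalfPlane.I := by
    rw [modular_S_smul]
    ext
    simp
  have h2 : denom (ModularGroup.S : GL (Fin 2) ℝ) UpperHalfPlane.I = Complex.I := by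
    rw [ModularGroup.denom_S]
    rfl
  rw [h1, h2] at this
  obtain ⟨q, rfl⟩ := hk
  rw [zpow_mul] at this
  have h3 : Complex.I ^ (4 : ℤ) = 1 := by
    have := Complex.I_pow_four
    exact_mod_cast this
  rw [h3, one_zpow, one_mul] at this
  exact this

/-- the third root of unity -/
noncomputable def rh : ℍ := ⟨-1 / 2 + (Real.sqrt 3 / 2 : ℝ) * Complex.I, by simp⟩

theorem rh_eq : ((rh : ℂ) + 1) ^ 2 = ((rh : ℂ) + 1) - 1 := by
  change ((-1 / 2 + (Real.sqrt 3 / 2 : ℝ) * Complex.I) + 1) ^ 2 =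
    (-1 / 2 + (Real.sqrt 3 / 2 : ℝ) * Complex.I : ℂ) + 1 - 1
  have h3 : ((Real.sqrt 3 : ℝ) : ℂ) ^ 2 = 3 := by
    rw [← Complex.ofReal_pow, Real.sq_sqrt (by norm_num)]
    norm_num
  push_cast
  linear_combination ((Complex.I ^ 2) / 4) * h3 + (3 / 4) * Complex.I_sq

theorem rh_conj : conj ((rh : ℂ) + 1) = 1 - ((rh : ℂ) + 1) + 0 := by
  change conj ((-1 / 2 + (Real.sqrt 3 / 2 : ℝ) * Complex.I : ℂ) + 1) =
    1 - ((-1 / 2 + (Real.sqrt 3 / 2 : ℝ) * Complex.I : ℂ) + 1) + 0
  simp only [map_add, map_mul, map_one, Complex.conj_I, Complex.conj_ofReal, map_div₀, map_neg,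
    map_ofNat]
  ring

theorem rh_ne : (rh : ℂ) + 1 ≠ 0 := by
  intro h
  have h1 := rh_eq
  rw [h] at h1
  norm_num at h1

theorem UU_rh : UU • rh = rh := by
  unfold UU
  rw [mul_smul, modular_S_smul]
  ext
  rw [coe_mk, modular_T_smul, coe_vadd]
  have h1 := rh_eq
  rw [inv_eq_iff_eq_inv, eq_comm]
  apply inv_eq_of_mul_eq_one_right
  push_cast
  linear_combination -h1

theorem denom_UU : denom (UU : GL (Fin 2) ℝ) rh = (rh : ℂ) + 1 := by
  unfold UU
  simp [denom, ModularGroup.S, ModularGroup.T, Matrix.mul_apply, Fin.sum_univ_two]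

/-- the eigenvalue at the third root of unity -/
theorem at_rh {N : ℕ} {k : ℤ} {F : ℍ → XX N → ℂ} (hF : VM N k F) (x : XX N) :
    F rh (UU • x) = ((rh : ℂ) + 1) ^ k * F rh x := by
  have := hF.mod UU rh (UU • x)
  rwa [inv_smul_smul, UU_rh, denom_UU] at this

theorem w_cube : ((rh : ℂ) + 1) ^ 3 = -1 := by
  have h := rh_eq
  linear_combination ((rh : ℂ) + 1 + 1) * h

theorem w_six : ((rh : ℂ) + 1) ^ (6 : ℤ) = 1 := by
  have h := w_cube
  have h2 : ((rh : ℂ) + 1) ^ 6 = 1 := by linear_combination (((rh : ℂ) + 1) ^ 3 - 1) * h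
  exact_mod_cast h2

theorem w_four : ((rh : ℂ) + 1) ^ (4 : ℤ) = -((rh : ℂ) + 1) := by
  have h := w_cube
  have h2 : ((rh : ℂ) + 1) ^ 4 = -((rh : ℂ) + 1) := by linear_combination ((rh : ℂ) + 1) * h
  exact_mod_cast h2

theorem at_rh_zero {N : ℕ} {k : ℤ} {F : ℍ → XX N → ℂ} (hF : VM N k F) (hk : 6 ∣ k) :
    F rh ∈ fixSub ℂ (MulAction.toPerm UU : Equiv.Perm (XX N)) := by
  intro x
  obtain ⟨q, rfl⟩ := hk
  have := at_rh hF x
  rw [zpow_mul, w_six, one_zpow, one_mul] at this
  exact this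

theorem at_rh_four {N : ℕ} {k : ℤ} {F : ℍ → XX N → ℂ} (hF : VM N k F) (hk : k % 6 = 4) :
    F rh ∈ (P (MulAction.toPerm UU : Equiv.Perm (XX N))).eigenspace (-((rh : ℂ) + 1)) := by
  rw [mem_eig]
  intro x
  have := at_rh hF x
  obtain ⟨q, hq⟩ : ∃ q, k = 6 * q + 4 := ⟨k / 6, by omega⟩
  rw [hq, zpow_add₀ rh_ne, zpow_mul, w_six, one_zpow, one_mul, w_four] at this
  exact this

theorem rh_ne_two : (rh : ℂ) + 1 ≠ 2 := by
  intro h
  have h1 := rh_eq
  rw [h] at h1
  norm_num at h1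

theorem rh_ne_neg_one : (rh : ℂ) + 1 ≠ -1 := by
  intro h
  have h1 := rh_eq
  rw [h] at h1
  norm_num at h1

theorem rh_ne_half : (rh : ℂ) + 1 ≠ 1 / 2 := by
  intro h
  have h1 := rh_eq
  rw [h] at h1
  norm_num at h1

open Classical in
theorem main (hs : S_SPAN) (N : ℕ) [NeZero N] (hN : N.Prime) (k : XX N → ℤ)
    (F : XX N → ℍ → XX N → ℂ) (hF : IsBas N k F) (hk : ∑' j, k j ≤ 6 * ((N : ℤ) - 1))
    (hc : Nat.card (XX N) = N + 1) :
    (Nat.card (XX N) : ℤ) - nS N - nU N + 2 ≤ 2 * (Nat.card {j | k j = 2} : ℤ) := by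
  have : Finite (XX N) := Nat.finite_of_card_ne_zero (by omega)
  let _ : Fintype (XX N) := Fintype.ofFinite _
  have hI := indep hs hN hF UpperHalfPlane.I
  have hR := indep hs hN hF rh
  have hev : ∀ j, Even (k j) := fun j => even_wt (hF.vm j) rh (hR.ne_zero j)
  -- the three counts
  have c1 : (Finset.univ.filter fun j => 4 ∣ k j).card ≤ nS N :=
    card_le _ hI _ _ fun j hj => at_I (hF.vm j) hj
  have c2 : (Finset.univ.filter fun j => 6 ∣ k j).card ≤ nU N :=
    card_le _ hR _ _ fun j hj => at_rh_zero (hF.vm j) hj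
  have c3 : nU N + 2 * (Finset.univ.filter fun j => k j % 6 = 4).card ≤ Fintype.card (XX N) := by
    refine three _ (-((rh : ℂ) + 1)) ?_ ?_ ?_ _ hR _ fun j hj => at_rh_four (hF.vm j) hj
    · intro h
      exact rh_ne_neg_one (by linear_combination -h)
    · rw [map_neg, rh_conj]
      intro h
      exact rh_ne_two (by linear_combination h)
    · rw [map_neg, rh_conj]
      intro h
      exact rh_ne_half (by linear_combination h / 2)
  -- the pointwise inequality
  have hpt : ∀ j, 12 * (if k j = 2 then 1 else 0 : ℤ) ≥ 12 - 6 * (if 4 ∣ k j then 1 else 0) -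
      6 * (if 6 ∣ k j then 1 else 0) - k j + 2 * (if k j % 6 = 2 then 1 else 0) -
      2 * (if k j % 6 = 4 then 1 else 0) := by
    intro j
    have h1 := hF.nonneg j
    obtain ⟨r, hr⟩ := hev j
    split_ifs <;> omega
  have hsum := Finset.sum_le_sum fun j (_ : j ∈ Finset.univ) => hpt j
  simp only [Finset.sum_sub_distrib, Finset.sum_add_distrib, ← Finset.mul_sum, Finset.sum_boole,
    Finset.sum_const, Finset.card_univ, nsmul_eq_mul] at hsum
  have c4 : (Finset.univ.filter fun j => 6 ∣ k j).card +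
      (Finset.univ.filter fun j => k j % 6 = 2).card +
      (Finset.univ.filter fun j => k j % 6 = 4).card = Fintype.card (XX N) := by
    rw [Finset.card_filter, Finset.card_filter, Finset.card_filter, ← Finset.sum_add_distrib,
      ← Finset.sum_add_distrib, ← Finset.card_univ, Finset.card_eq_sum_ones]
    apply Finset.sum_congr rfl
    intro j _
    obtain ⟨r, hr⟩ := hev j
    split_ifs <;> omega
  have c5 : Nat.card {j | k j = 2} = (Finset.univ.filter fun j => k j = 2).card := by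
    rw [Nat.card_coe_set_eq, ← Set.ncard_coe_finset]
    congr 1
    ext j
    simp
  rw [tsum_fintype] at hk
  rw [Nat.card_eq_fintype_card] at hc
  rw [c5, Nat.card_eq_fintype_card]
  push_cast at hsum ⊢
  omega

end Pool.Agent.K4H13.CV.ClsP

namespace Pool.Agent.K4H13.CV

/-- CLS -/
theorem cls (hs : S_SPAN) : S_CLS :=
  fun N _ hN _ k F hF hk hc => ClsP.main hs N hN k F hF hk hc

end Pool.Agent.K4H13.CV
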