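import Pool.Agent.K4H13.CV.Stm
import Pool.Agent.K4H13.CV.Bd

/-!
# Project CV: coefficient bound from the sup norm, decay, the Sturm bound
-/

set_option autoImplicit false

open Complex Filter Topology Set UpperHalfPlane MatrixGroups CongruenceSubgroup

namespace Pool.Agent.K4H13.CV

open Pool.Agent.TH940 (prim prim_deriv Fr prim_fricke Pers prim_near prim_line exp_norm)
open Pool.Agent.Y18.BSD

variable {N : ℕ} [NeZero N]

/-- Hecke's bound, explicit -/
lemma coef_le (h : Cf2 N) {C : ℝ} (hC : ∀ τ : ℍ, ‖h τ‖ * τ.im ≤ C) {n : ℕ} (hn : 0 < n) :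
    ‖(qExpansion 1 h).coeff n‖ ≤ Real.exp (2 * Real.pi) * C * n := by
  have hn' : (0 : ℝ) < n := by exact_mod_cast hn
  have hC' : ∀ τ : ℍ, ‖h τ‖ ≤ C / τ.im := fun τ => by
    rw [le_div_iff₀ τ.im_pos]; exact hC τ
  have ht : (0 : ℝ) < 1 / n := by positivity
  set t : ℝ := 1 / n with htd
  have hnt : (n : ℝ) * t = 1 := by rw [htd]; field_simp
  have key : ∀ (u : ℝ) (w : ℍ), (w : ℂ) = (u : ℂ) + (t : ℂ) * Complex.I →
      ‖1 / Function.Periodic.qParam 1 (u + (t : ℂ) * Complex.I) ^ n * h w‖ ≤ Real.exp (2 * Real.pi) * C * n := by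
    intro u w hw
    have him : ((u : ℂ) + (t : ℂ) * Complex.I).im = t := by
      rw [Complex.add_im, Complex.ofReal_im, Complex.im_ofReal_mul, Complex.I_im, mul_one, zero_add]
    have e0 : ‖Function.Periodic.qParam 1 ((u : ℂ) + (t : ℂ) * Complex.I)‖ ^ n = Real.exp (-(2 * Real.pi)) := by
      rw [Function.Periodic.norm_qParam, him, ← Real.exp_nat_mul]
      congr 1
      linear_combination (-2 * Real.pi) * hnt
    rw [norm_mul, norm_div, norm_one, norm_pow, e0, Real.exp_neg, one_div, inv_inv]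
    have h1 := hC' w
    have h2 : w.im = t := by
      have : w.im = (w : ℂ).im := rfl
      rw [this, hw, him]
    rw [h2] at h1
    have h3 : C / t = C * n := by
      rw [div_eq_iff ht.ne']
      linear_combination (-C) * hnt
    rw [h3] at h1
    calc _ ≤ Real.exp (2 * Real.pi) * (C * n) :=
          mul_le_mul_of_nonneg_left h1 (Real.exp_pos _).le
      _ = _ := by ring
  have h0 := ModularFormClass.qExpansion_coeff_eq_intervalIntegral (t := t) h one_pos
    (by simp) n ht
  have h3 := intervalIntegral.norm_integral_le_of_norm_le_const (a := (0 : ℝ)) (b := 1)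
    (C := Real.exp (2 * Real.pi) * C * n) (f := fun u : ℝ =>
      1 / Function.Periodic.qParam 1 (u + (t : ℂ) * Complex.I) ^ n *
      h ⟨u + (t : ℂ) * Complex.I, by simpa using ht⟩) (fun u _ => key u _ rfl)
  rw [sub_zero, abs_one, mul_one] at h3
  rw [h0]
  simpa using h3

lemma ev_hasSum (h : Cf2 N) (z : ℍ) : HasSum (fun n : ℕ => (qExpansion 1 h).coeff n *
    Complex.exp (2 * Real.pi * Complex.I * n * z)) (h z) := by
  have h1 := hasSum_qExpansion (h := 1) one_pos
    (SlashInvariantFormClass.periodic_comp_ofComplex h (by simp))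
    (ModularFormClass.holo h) (ModularFormClass.bdd_at_infty h) z
  refine hs_congr h1 fun n => ?_
  rw [smul_eq_mul]
  congr 1
  unfold Function.Periodic.qParam
  rw [← Complex.exp_nat_mul]
  congr 1
  push_cast
  ring

/-- decay -/
lemma decay (h : Cf2 N) {C : ℝ} (hC : ∀ τ : ℍ, ‖h τ‖ * τ.im ≤ C) (X : ℕ)
    (hX : ∀ n : ℕ, n ≤ X → (qExpansion 1 h).coeff n = 0) (z : ℍ) :
    ‖h z‖ * z.im ≤ Real.exp (2 * Real.pi) * C * Real.exp (-(Real.pi * (X + 1) * z.im / 2)) *
      (1 + 2 / z.im) := by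
  have hC0 : 0 ≤ C := le_trans (by positivity) (hC z)
  have hpi := Real.pi_pos
  have hpi3 := Real.pi_gt_three
  set y : ℝ := z.im with hy
  have hy0 : 0 < y := z.im_pos
  set x : ℝ := Real.exp (-(Real.pi * y / 2)) with hx
  have hx0 : 0 < x := Real.exp_pos _
  have hx1 : x < 1 := by
    rw [hx, Real.exp_lt_one_iff]
    have : 0 < Real.pi * y / 2 := by positivity
    linarith
  have hs := (hasSum_geometric_of_lt_one hx0.le hx1).mul_left
    (Real.exp (2 * Real.pi) * C * Real.exp (-(Real.pi * (X + 1) * y / 2)) / y)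
  have h1 : ∀ n : ℕ, ‖(qExpansion 1 h).coeff n * Complex.exp (2 * Real.pi * Complex.I * n * z)‖ ≤
      (Real.exp (2 * Real.pi) * C * Real.exp (-(Real.pi * (X + 1) * y / 2)) / y) * x ^ n := by
    intro n
    rcases le_or_gt n X with hn | hn
    · rw [hX n hn, zero_mul, norm_zero]
      positivity
    · have hn0 : 0 < n := by omega
      have hn' : (0 : ℝ) < n := by exact_mod_cast hn0
      have hnX : (X : ℝ) + 1 ≤ n := by exact_mod_cast hn
      rw [norm_mul, exp_norm]
      have h2 := coef_le h hC hn0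
      have h3 : (z : ℂ).im = y := rfl
      rw [h3]
      have h4 : (n : ℝ) * y * Real.exp (-(Real.pi * n * y)) ≤ 1 := by
        have h5 : (n : ℝ) * y ≤ Real.exp (Real.pi * n * y) := by
          have h6 := Real.add_one_le_exp (Real.pi * n * y)
          have h7 : (n : ℝ) * y ≤ Real.pi * n * y := by
            have : 0 ≤ (n : ℝ) * y := by positivity
            nlinarith
          linarith
        calc (n : ℝ) * y * Real.exp (-(Real.pi * n * y)) ≤
            Real.exp (Real.pi * n * y) * Real.exp (-(Real.pi * n * y)) :=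
              mul_le_mul_of_nonneg_right h5 (Real.exp_pos _).le
          _ = 1 := by rw [← Real.exp_add, add_neg_cancel, Real.exp_zero]
      have h5 : Real.exp (-(2 * Real.pi * y * n)) = Real.exp (-(Real.pi * n * y)) *
          Real.exp (-(Real.pi * n * y / 2)) * x ^ n := by
        rw [hx, ← Real.exp_nat_mul, ← Real.exp_add, ← Real.exp_add]
        congr 1
        ring
      have h6 : Real.exp (-(Real.pi * n * y / 2)) ≤ Real.exp (-(Real.pi * (X + 1) * y / 2)) := by
        apply Real.exp_le_exp.2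
        have : Real.pi * (X + 1) * y ≤ Real.pi * n * y := by gcongr
        linarith
      rw [h5]
      have h7 : (n : ℝ) * Real.exp (-(Real.pi * n * y)) ≤ 1 / y := by
        rw [le_div_iff₀ hy0]
        calc _ = (n : ℝ) * y * Real.exp (-(Real.pi * n * y)) := by ring
          _ ≤ 1 := h4
      calc _ ≤ (Real.exp (2 * Real.pi) * C * n) * (Real.exp (-(Real.pi * n * y)) *
            Real.exp (-(Real.pi * n * y / 2)) * x ^ n) :=
            mul_le_mul_of_nonneg_right h2 (by positivity)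
        _ = Real.exp (2 * Real.pi) * C * (n * Real.exp (-(Real.pi * n * y))) *
            Real.exp (-(Real.pi * n * y / 2)) * x ^ n := by ring
        _ ≤ Real.exp (2 * Real.pi) * C * (1 / y) *
            Real.exp (-(Real.pi * (X + 1) * y / 2)) * x ^ n := by gcongr
        _ = _ := by ring
  have h2 : ‖h z‖ ≤ (Real.exp (2 * Real.pi) * C * Real.exp (-(Real.pi * (X + 1) * y / 2)) / y) *
      (1 - x)⁻¹ := by
    rw [← (ev_hasSum h z).tsum_eq]
    exact tsum_of_norm_bounded hs h1
  have h3 : (1 - x)⁻¹ ≤ 1 + 1 / (Real.pi * y / 2) := inv_one_sub_exp (by positivity)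
  have h4 : 1 / (Real.pi * y / 2) ≤ 2 / y := by
    rw [div_le_div_iff₀ (by positivity) hy0]
    nlinarith
  calc ‖h z‖ * y ≤ ((Real.exp (2 * Real.pi) * C * Real.exp (-(Real.pi * (X + 1) * y / 2)) / y) *
      (1 - x)⁻¹) * y := mul_le_mul_of_nonneg_right h2 hy0.le
    _ = Real.exp (2 * Real.pi) * C * Real.exp (-(Real.pi * (X + 1) * y / 2)) * (1 - x)⁻¹ := by
        field_simp
    _ ≤ _ := by
        have : (1 - x)⁻¹ ≤ 1 + 2 / y := by linarith
        gcongr

lemma exists_sup (h : Cf2 N) : ∃ C : ℝ, ∀ τ : ℍ, ‖h τ‖ * τ.im ≤ C := by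
  obtain ⟨C, hC⟩ := CuspFormClass.exists_bound (k := 2) (Γ := (Gamma0 N : Subgroup (GL (Fin 2) ℝ))) h
  refine ⟨C, fun τ => ?_⟩
  have := hC τ
  norm_num at this
  rwa [le_div_iff₀ τ.im_pos] at this

/-- **The Sturm bound.** -/
theorem sturm (hR : S_RED) : S_STURM := by
  intro N _ hN h ε hε hfr hX
  have hN2 : (2 : ℝ) ≤ N := by exact_mod_cast hN.two_le
  have hN0 : (0 : ℝ) < N := by linarith
  have hpi := Real.pi_pos
  have hpi3 := Real.pi_gt_three
  have half : ∀ C : ℝ, (∀ τ : ℍ, ‖h τ‖ * τ.im ≤ C) → ∀ τ : ℍ, ‖h τ‖ * τ.im ≤ C / 2 := by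
    intro C hC τ
    have hC0 : 0 ≤ C := le_trans (by positivity) (hC τ)
    obtain ⟨w, hw, hw2⟩ := hR N hN h ε hε hfr τ
    rw [← hw2]
    refine (decay h hC (100 * N ^ 2) hX w).trans ?_
    have h1 : (1 : ℝ) + 2 / w.im ≤ Real.exp (4 * N) := by
      have h2 : 2 / w.im ≤ 4 * N := by
        rw [div_le_iff₀ w.im_pos]
        have : 4 * (N : ℝ) * (1 / (2 * N)) ≤ 4 * N * w.im := by gcongr
        have h3 : 4 * (N : ℝ) * (1 / (2 * N)) = 2 := by field_simp; norm_num
        linarith
      linarith [Real.add_one_le_exp (4 * (N : ℝ))]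
    have h2 : Real.exp (-(Real.pi * (((100 * N ^ 2 : ℕ) : ℝ) + 1) * w.im / 2)) ≤
        Real.exp (-(25 * Real.pi * N)) := by
      apply Real.exp_le_exp.2
      have h3 : Real.pi * (((100 * N ^ 2 : ℕ) : ℝ) + 1) * (1 / (2 * N)) ≤
          Real.pi * (((100 * N ^ 2 : ℕ) : ℝ) + 1) * w.im := by gcongr
      have h4 : Real.pi * (100 * (N : ℝ) ^ 2) * (1 / (2 * N)) = 50 * Real.pi * N := by
        field_simp; norm_num
      have h5 : Real.pi * (100 * (N : ℝ) ^ 2) * (1 / (2 * N)) ≤
          Real.pi * (((100 * N ^ 2 : ℕ) : ℝ) + 1) * (1 / (2 * N)) := by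
        push_cast
        gcongr
        linarith
      linarith
    have h3 : Real.exp (2 * Real.pi) * Real.exp (-(25 * Real.pi * N)) * Real.exp (4 * N) ≤ 1 / 2 := by
      rw [← Real.exp_add, ← Real.exp_add]
      have h4 : 2 * Real.pi + -(25 * Real.pi * N) + 4 * N ≤ -1 := by nlinarith
      have h5 : Real.exp (-1) ≤ 1 / 2 := by
        rw [Real.exp_neg]
        have := Real.add_one_le_exp (1 : ℝ)
        rw [one_div]
        exact inv_anti₀ (by norm_num) (by linarith)
      exact (Real.exp_le_exp.2 h4).trans h5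
    calc _ ≤ Real.exp (2 * Real.pi) * C * Real.exp (-(25 * Real.pi * N)) * Real.exp (4 * N) := by
          have := w.im_pos
          gcongr
      _ = C * (Real.exp (2 * Real.pi) * Real.exp (-(25 * Real.pi * N)) * Real.exp (4 * N)) := by ring
      _ ≤ C * (1 / 2) := by gcongr
      _ = C / 2 := by ring
  obtain ⟨C, hC⟩ := exists_sup h
  have hk : ∀ k : ℕ, ∀ τ : ℍ, ‖h τ‖ * τ.im ≤ C / 2 ^ k := by
    intro k
    induction k with
    | zero => simpa using hC
    | succ k ih =>
      intro τ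
      refine (half _ ih τ).trans (le_of_eq ?_)
      rw [pow_succ, div_div]
  ext τ
  have h1 : Tendsto (fun k : ℕ => C / 2 ^ k) atTop (𝓝 0) := by
    have := (tendsto_pow_atTop_nhds_zero_of_lt_one (r := (1 / 2 : ℝ)) (by norm_num)
      (by norm_num)).const_mul C
    rw [mul_zero] at this
    refine this.congr fun k => ?_
    rw [one_div, inv_pow, div_eq_mul_inv]
  have h2 : ‖h τ‖ * τ.im ≤ 0 := ge_of_tendsto' h1 fun k => hk k τ
  have h3 : ‖h τ‖ = 0 := by
    have := τ.im_pos
    have h4 : 0 ≤ ‖h τ‖ := norm_nonneg _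
    nlinarith
  rw [norm_eq_zero.1 h3]
  rfl

end Pool.Agent.K4H13.CV
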