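import Pool.Agent.K4H13.CV.Stm2
import Pool.Agent.K4H13.CV.Two
import Pool.Agent.K4H13.CV.Bd

/-!
# Project CV: the values of the primitives at the cusps, tools
-/

set_option autoImplicit false

open Complex Filter Topology Set UpperHalfPlane MatrixGroups CongruenceSubgroup ModularGroup

namespace Pool.Agent.K4H13.CV

open Pool.Agent.TH940 (prim prim_deriv Fr prim_fricke exp_norm)
open Pool.Agent.Y18.BSD

/-! ### the cosets -/

/-- the coset of `g` -/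
def Xg (N : ℕ) (g : SL(2, ℤ)) : XX N := QuotientGroup.mk g⁻¹

lemma Xg_eq {N : ℕ} {g h : SL(2, ℤ)} : Xg N g = Xg N h ↔ g * h⁻¹ ∈ Gamma0 N := by
  unfold Xg
  rw [QuotientGroup.eq, inv_inv]

lemma Xg_gx {N : ℕ} (x : XX N) : Xg N (gx x) = x := by
  unfold Xg gx
  rw [inv_inv]
  exact QuotientGroup.out_eq' x

lemma smul_Xg {N : ℕ} (a g : SL(2, ℤ)) : a • Xg N g = Xg N (g * a⁻¹) := by
  unfold Xg
  rw [mul_inv_rev, inv_inv]
  rfl

lemma x0_eq (N : ℕ) : x0 N = Xg N 1 := by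
  unfold x0 Xg
  rw [inv_one]

lemma gx_Xg {N : ℕ} (g : SL(2, ℤ)) : ∃ γ ∈ Gamma0 N, gx (Xg N g) = γ * g :=
  ⟨gx (Xg N g) * g⁻¹, Xg_eq.1 (Xg_gx _), by simp⟩

lemma mem0 {N : ℕ} {g : SL(2, ℤ)} : g ∈ Gamma0 N ↔ (N : ℤ) ∣ g 1 0 := by
  rw [Gamma0_mem, ZMod.intCast_zmod_eq_zero_iff_dvd]

lemma neg_one_mem (N : ℕ) : (-1 : SL(2, ℤ)) ∈ Gamma0 N := by
  rw [mem0]
  simp

lemma T_mem (N : ℕ) (j : ℤ) : (T ^ j : SL(2, ℤ)) ∈ Gamma0 N := by
  rw [mem0, coe_T_zpow]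
  simp

lemma S_inv : (S : SL(2, ℤ))⁻¹ = -S := by
  rw [inv_eq_iff_mul_eq_one]
  ext i j
  fin_cases i <;> fin_cases j <;> rfl

lemma neg_mem {N : ℕ} {g : SL(2, ℤ)} : -g ∈ Gamma0 N ↔ g ∈ Gamma0 N := by
  rw [mem0, mem0]
  simp

lemma Xg_neg (N : ℕ) (g : SL(2, ℤ)) : Xg N (-g) = Xg N g := by
  rw [Xg_eq, neg_mul, mul_inv_cancel]
  exact neg_one_mem N

lemma cases0 {N : ℕ} (hN : N.Prime) (g : SL(2, ℤ)) : g ∈ Gamma0 N ∨
    ∃ (j : ℤ) (γ : SL(2, ℤ)), γ ∈ Gamma0 N ∧ g = γ * (S * T ^ j) := by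
  by_cases hg : g ∈ Gamma0 N
  · exact Or.inl hg
  · right
    have := Fact.mk hN
    have hne : ((g 1 0 : ℤ) : ZMod N) ≠ 0 := fun h1 =>
      hg (mem0.2 ((ZMod.intCast_zmod_eq_zero_iff_dvd _ _).1 h1))
    obtain ⟨j, hj⟩ := ZMod.intCast_surjective (((g 1 1 : ℤ) : ZMod N) * ((g 1 0 : ℤ) : ZMod N)⁻¹)
    refine ⟨j, g * (S * T ^ j)⁻¹, ?_, (inv_mul_cancel_right g (S * T ^ j)).symm⟩
    rw [mem0]
    have e : (g * (S * T ^ j)⁻¹ : SL(2, ℤ)) 1 0 = j * g 1 0 - g 1 1 := by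
      rw [mul_inv_rev, S_inv, ← zpow_neg]
      simp [coe_T_zpow, Matrix.mul_apply, Fin.sum_univ_two]
      ring
    rw [e, ← ZMod.intCast_zmod_eq_zero_iff_dvd]
    push_cast
    rw [hj, mul_assoc, inv_mul_cancel₀ hne]
    ring

/-! ### decay -/

variable {N : ℕ} [NeZero N]

lemma qf_decay (f : Cf2 N) {y0 : ℝ} (hy0 : 0 < y0) : ∃ K : ℝ, 0 ≤ K ∧ ∀ z : ℂ, y0 ≤ z.im →
    ‖qf f z‖ ≤ K * Real.exp (-z.im) := by
  obtain ⟨K, hK0, hK⟩ := ph_decay f hy0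
  refine ⟨K, hK0, fun z hz => ?_⟩
  have hz0 : 0 < z.im := hy0.trans_le hz
  have h := hK z hz
  unfold ph at h
  have e : K * (z.im * Real.exp (-z.im)) = z.im * (K * Real.exp (-z.im)) := by ring
  rw [e] at h
  exact le_of_mul_le_mul_left h hz0

lemma prim_decay (f : Cf2 N) {y0 : ℝ} (hy0 : 0 < y0) : ∃ K : ℝ, 0 ≤ K ∧ ∀ z : ℂ, y0 ≤ z.im →
    ‖prim f z‖ ≤ K * Real.exp (-z.im) := by
  have hI : ((y0 : ℂ) * Complex.I).im = y0 := by simp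
  have hs := (prim_hasSum f ((y0 : ℂ) * Complex.I) (by rw [hI]; exact hy0)).summable.norm
  set A : ℝ := ∑' n : ℕ, ‖co f n / n * Complex.exp (2 * Real.pi * Complex.I * n *
    ((y0 : ℂ) * Complex.I))‖ with hA
  have hA0 : 0 ≤ A := tsum_nonneg fun n => norm_nonneg _
  refine ⟨A * Real.exp y0, by positivity, fun z hz => ?_⟩
  have hz0 : 0 < z.im := hy0.trans_le hz
  have h1 : ‖prim f z‖ ≤ A * Real.exp (-(z.im - y0)) := by
    rw [hA, ← tsum_mul_right, ← (prim_hasSum f z hz0).tsum_eq]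
    refine tsum_of_norm_bounded (hs.mul_right _).hasSum (fun n => ?_)
    rcases Nat.eq_zero_or_pos n with rfl | hn
    · simp
    · rw [norm_mul, norm_mul, exp_norm, exp_norm, hI, mul_assoc ‖co f n / n‖, ← Real.exp_add]
      refine mul_le_mul_of_nonneg_left (Real.exp_le_exp.2 ?_) (norm_nonneg _)
      have hn1 : (1 : ℝ) ≤ n := by exact_mod_cast hn
      have hpi : 1 ≤ 2 * Real.pi := by linarith [Real.pi_gt_three]
      have h2 : 1 ≤ 2 * Real.pi * n := by nlinarith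
      nlinarith [mul_nonneg (sub_nonneg.2 h2) (sub_nonneg.2 hz)]
  refine h1.trans (le_of_eq ?_)
  rw [show -(z.im - y0) = y0 + -z.im by ring, Real.exp_add]
  ring

/-! ### the structure of the primitive at the cusps -/

lemma im_div_N (w : ℂ) : (w / (N : ℂ)).im = w.im / N := Complex.div_natCast_im w N

lemma prim_S (f : Cf2 N) {ε c0 : ℂ}
    (hc0 : ∀ z : ℂ, 0 < z.im → prim f (-1 / (N * z)) = c0 - ε * prim f z) (w : ℍ) :
    prim f ((S • w : ℍ) : ℂ) = c0 - ε * prim f ((w : ℂ) / N) := by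
  have hN0 : (0 : ℝ) < N := Nat.cast_pos.2 (Nat.pos_of_ne_zero (NeZero.ne N))
  have hNc : (N : ℂ) ≠ 0 := Nat.cast_ne_zero.2 (NeZero.ne N)
  have hSu : (((S • w : ℍ)) : ℂ) = -1 / (w : ℂ) := by
    rw [UpperHalfPlane.modular_S_smul]
    change (-(w : ℂ))⁻¹ = -1 / (w : ℂ)
    rw [inv_neg, neg_div, one_div]
  rw [← hc0 _ (by rw [im_div_N]; exact div_pos w.im_pos hN0), hSu, mul_div_cancel₀ _ hNc]

/-- the estimate -/
def Lim (f : Cf2 N) (g : SL(2, ℤ)) (C : ℂ) : Prop := ∃ K : ℝ, 0 ≤ K ∧ ∀ z : ℍ, 1 / 2 ≤ z.im →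
  ‖prim f ((g • z : ℍ) : ℂ) - C‖ ≤ K * Real.exp (-(1 / N * z.im))

lemma exp_tendsto : Tendsto (fun y : ℝ => Real.exp (-(1 / (N : ℝ) * y))) atTop (𝓝 0) := by
  have hN0 : (0 : ℝ) < N := Nat.cast_pos.2 (Nat.pos_of_ne_zero (NeZero.ne N))
  have h1 : Tendsto (fun y : ℝ => 1 / (N : ℝ) * y) atTop atTop :=
    tendsto_id.const_mul_atTop (by positivity)
  exact Real.tendsto_exp_neg_atTop_nhds_zero.comp h1

lemma Lim.tendsto {f : Cf2 N} {g : SL(2, ℤ)} {C : ℂ} (h : Lim f g C) {ι : Type} {l : Filter ι}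
    {w : ι → ℍ} (hw : Tendsto (fun i => (w i).im) l atTop) :
    Tendsto (fun i => prim f ((g • (w i) : ℍ) : ℂ)) l (𝓝 C) := by
  obtain ⟨K, hK0, hK⟩ := h
  rw [tendsto_iff_norm_sub_tendsto_zero]
  have h1 := ((exp_tendsto (N := N)).comp hw).const_mul K
  rw [mul_zero] at h1
  refine squeeze_zero' (Eventually.of_forall fun i => norm_nonneg _) ?_ h1
  filter_upwards [hw.eventually_ge_atTop (1 / 2)] with i hi
  exact hK (w i) hi

lemma im_iT {y : ℝ} (hy : 0 < y) : (ofComplex ((y : ℂ) * Complex.I)).im = y := by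
  have h : 0 < ((y : ℂ) * Complex.I).im := by simpa using hy
  rw [ofComplex_apply_of_im_pos h]
  simp

lemma tendsto_im_iT : Tendsto (fun y : ℝ => (ofComplex ((y : ℂ) * Complex.I)).im) atTop atTop := by
  refine tendsto_id.congr' ?_
  filter_upwards [eventually_gt_atTop (0 : ℝ)] with y hy
  rw [im_iT hy]
  rfl

lemma Lim.cc {f : Cf2 N} {g : SL(2, ℤ)} {C : ℂ} (h : Lim f g C) : CC f g = C :=
  (h.tendsto tendsto_im_iT).limUnder_eq

/-- the structure of the primitive near the cusps -/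
lemma struct0 (hN : N.Prime) {f : Cf2 N} {ε : ℝ} (hf : W388.IsNewf N 2 f ε) (g : SL(2, ℤ)) :
    ∃ C : ℂ, (g ∈ Gamma0 N ∧ ∀ z : ℍ, prim f ((g • z : ℍ) : ℂ) = C + prim f z) ∨
      ∃ j : ℤ, ∀ z : ℍ, prim f ((g • z : ℍ) : ℂ) = C - ε * prim f (((z : ℂ) + j) / N) := by
  rcases cases0 hN g with hg | ⟨j, γ, hγ, rfl⟩
  · refine ⟨per f ⟨g, hg⟩, Or.inl ⟨hg, fun z => ?_⟩⟩
    have := per_spec f ⟨g, hg⟩ z
    rw [add_comm]
    exact this
  · obtain ⟨c0, hc0⟩ := prim_fricke f ε (fr_of_newf hf)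
    refine ⟨per f ⟨γ, hγ⟩ + c0, Or.inr ⟨j, fun z => ?_⟩⟩
    have h1 := per_spec f ⟨γ, hγ⟩ (S • T ^ j • z)
    have h2 : ((T ^ j • z : ℍ) : ℂ) = (z : ℂ) + j := coe_T_zpow_smul_eq _
    rw [prim_S f hc0, h2] at h1
    rw [mul_smul, mul_smul]
    rw [h1]
    ring

lemma exp_le_exp_N {y : ℝ} (hy : 0 ≤ y) : Real.exp (-y) ≤ Real.exp (-(1 / (N : ℝ) * y)) := by
  have hN1 : (1 : ℝ) ≤ N := by exact_mod_cast Nat.pos_of_ne_zero (NeZero.ne N)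
  apply Real.exp_le_exp.2
  have : 1 / (N : ℝ) ≤ 1 := by
    rw [div_le_one (by linarith)]
    exact hN1
  nlinarith

lemma norm_eps {f : Cf2 N} {ε : ℝ} (hf : W388.IsNewf N 2 f ε) : ‖(ε : ℂ)‖ = 1 := by
  rw [Complex.norm_real, Real.norm_eq_abs]
  rcases hf.sign with h | h <;> rw [h] <;> simp

lemma lim_of_struct0 {f : Cf2 N} {ε : ℝ} (hf : W388.IsNewf N 2 f ε) {g : SL(2, ℤ)} {C : ℂ}
    (h : (g ∈ Gamma0 N ∧ ∀ z : ℍ, prim f ((g • z : ℍ) : ℂ) = C + prim f z) ∨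
      ∃ j : ℤ, ∀ z : ℍ, prim f ((g • z : ℍ) : ℂ) = C - ε * prim f (((z : ℂ) + j) / N)) :
    Lim f g C := by
  have hN0 : (0 : ℝ) < N := Nat.cast_pos.2 (Nat.pos_of_ne_zero (NeZero.ne N))
  rcases h with ⟨-, h⟩ | ⟨j, h⟩
  · obtain ⟨K, hK0, hK⟩ := prim_decay f (y0 := 1 / 2) (by norm_num)
    refine ⟨K, hK0, fun z hz => ?_⟩
    rw [h z, add_sub_cancel_left]
    refine (hK z hz).trans ?_
    exact mul_le_mul_of_nonneg_left (exp_le_exp_N (N := N) z.im_pos.le) hK0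
  · obtain ⟨K, hK0, hK⟩ := prim_decay f (y0 := 1 / (2 * N)) (by positivity)
    refine ⟨K, hK0, fun z hz => ?_⟩
    have him : (((z : ℂ) + j) / (N : ℂ)).im = 1 / N * z.im := by
      rw [im_div_N]
      simp
      ring
    rw [h z]
    have e : C - ε * prim f (((z : ℂ) + j) / N) - C = -(ε * prim f (((z : ℂ) + j) / N)) := by ring
    rw [e, norm_neg, norm_mul, norm_eps hf, one_mul]
    have h1 := hK (((z : ℂ) + j) / N) (by
      rw [him]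
      have : 1 / (2 * (N : ℝ)) = 1 / N * (1 / 2) := by field_simp
      rw [this]
      gcongr)
    rw [him] at h1
    exact h1

/-- the structure of the primitive near the cusps -/
lemma struct1 (hN : N.Prime) {f : Cf2 N} {ε : ℝ} (hf : W388.IsNewf N 2 f ε) (g : SL(2, ℤ)) :
    (g ∈ Gamma0 N ∧ ∀ z : ℍ, prim f ((g • z : ℍ) : ℂ) = CC f g + prim f z) ∨
      ∃ j : ℤ, ∀ z : ℍ, prim f ((g • z : ℍ) : ℂ) = CC f g - ε * prim f (((z : ℂ) + j) / N) := by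
  obtain ⟨C, hC⟩ := struct0 hN hf g
  rw [(lim_of_struct0 hf hC).cc]
  exact hC

lemma lim_cc (hN : N.Prime) {f : Cf2 N} {ε : ℝ} (hf : W388.IsNewf N 2 f ε) (g : SL(2, ℤ)) :
    Lim f g (CC f g) := lim_of_struct0 hf (struct1 hN hf g)

/-! ### rules for the values at the cusps -/

lemma cc_mul (hN : N.Prime) {f : Cf2 N} {ε : ℝ} (hf : W388.IsNewf N 2 f ε) (γ : Gamma0 N)
    (g : SL(2, ℤ)) : CC f ((γ : SL(2, ℤ)) * g) = per f γ + CC f g := by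
  obtain ⟨K, hK0, hK⟩ := lim_cc hN hf g
  refine Lim.cc ⟨K, hK0, fun z hz => ?_⟩
  rw [mul_smul, per_spec]
  have e : prim f ((g • z : ℍ) : ℂ) + per f γ - (per f γ + CC f g) =
      prim f ((g • z : ℍ) : ℂ) - CC f g := by ring
  rw [e]
  exact hK z hz

lemma cc_T (hN : N.Prime) {f : Cf2 N} {ε : ℝ} (hf : W388.IsNewf N 2 f ε) (g : SL(2, ℤ)) (j : ℤ) :
    CC f (g * T ^ j) = CC f g := by
  obtain ⟨K, hK0, hK⟩ := lim_cc hN hf g
  refine Lim.cc ⟨K, hK0, fun z hz => ?_⟩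
  have h1 : ((T ^ j • z : ℍ) : ℂ) = (z : ℂ) + j := coe_T_zpow_smul_eq _
  have h2 : (T ^ j • z : ℍ).im = z.im := by
    have := congrArg Complex.im h1
    simpa using this
  rw [mul_smul]
  have h3 := hK (T ^ j • z) (by rw [h2]; exact hz)
  rw [h2] at h3
  exact h3

lemma cc_neg (hN : N.Prime) {f : Cf2 N} {ε : ℝ} (hf : W388.IsNewf N 2 f ε) (g : SL(2, ℤ)) :
    CC f (-g) = CC f g := by
  obtain ⟨K, hK0, hK⟩ := lim_cc hN hf g
  refine Lim.cc ⟨K, hK0, fun z hz => ?_⟩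
  rw [ModularGroup.SL_neg_smul]
  exact hK z hz

lemma per_one (f : Cf2 N) : per f 1 = 0 := by
  have h := per_mul f 1 1
  rw [mul_one] at h
  simpa using h

lemma cc_one (f : Cf2 N) : CC f 1 = 0 := by
  obtain ⟨K, hK0, hK⟩ := prim_decay f (y0 := 1 / 2) (by norm_num)
  refine Lim.cc ⟨K, hK0, fun z hz => ?_⟩
  rw [one_smul, sub_zero]
  refine (hK z hz).trans ?_
  exact mul_le_mul_of_nonneg_left (exp_le_exp_N (N := N) z.im_pos.le) hK0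

lemma cc_mem (hN : N.Prime) {f : Cf2 N} {ε : ℝ} (hf : W388.IsNewf N 2 f ε) (γ : Gamma0 N) :
    CC f (γ : SL(2, ℤ)) = per f γ := by
  have h := cc_mul hN hf γ 1
  rw [mul_one, cc_one, add_zero] at h
  exact h

lemma cc_S {f : Cf2 N} {ε : ℝ} (hf : W388.IsNewf N 2 f ε) : CC f S = bv f 0 := by
  obtain ⟨c0, hc0⟩ := prim_fricke f ε (fr_of_newf hf)
  rw [prim_zero_tendsto f hc0 (fr_of_newf hf)]
  refine (lim_of_struct0 hf (Or.inr ⟨0, fun z => ?_⟩)).cc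
  rw [prim_S f hc0, Int.cast_zero, add_zero]

lemma dd_Xg (hN : N.Prime) {f : Cf2 N} {ε : ℝ} (hf : W388.IsNewf N 2 f ε) (g : SL(2, ℤ)) :
    dd f (Xg N g) = CC f (g * S) - CC f g := by
  obtain ⟨γ, hγ, h⟩ := gx_Xg (N := N) g
  unfold dd
  rw [h, mul_assoc]
  have h1 := cc_mul hN hf ⟨γ, hγ⟩ (g * S)
  have h2 := cc_mul hN hf ⟨γ, hγ⟩ g
  change CC f (γ * (g * S)) = _ at h1
  change CC f (γ * g) = _ at h2
  rw [h1, h2]
  ring

lemma GG_Xg (hN : N.Prime) {f : Cf2 N} {ε : ℝ} (hf : W388.IsNewf N 2 f ε) (g : SL(2, ℤ)) (z : ℂ) :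
    GG f (Xg N g) z = prim f ((g • (ofComplex z) : ℍ) : ℂ) - CC f g := by
  obtain ⟨γ, hγ, h⟩ := gx_Xg (N := N) g
  unfold GG
  rw [h, mul_smul]
  have h1 := cc_mul hN hf ⟨γ, hγ⟩ g
  have h2 := per_spec f ⟨γ, hγ⟩ (g • ofComplex z)
  change CC f (γ * g) = _ at h1
  change prim f ((γ • (g • ofComplex z) : ℍ) : ℂ) = _ at h2
  rw [h1, h2]
  ring

end Pool.Agent.K4H13.CV
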