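import Pool.Agent.K4H13.CV.Sml

/-!
# Project CV: the relations of the boundary
-/

set_option autoImplicit false

open Complex Filter Topology Set UpperHalfPlane MatrixGroups CongruenceSubgroup MeasureTheory
open scoped Manifold ModularForm

namespace Pool.Agent.K4H13.CV

theorem T_x0 (N : ℕ) : (ModularGroup.T • x0 N : XX N) = x0 N := by
  change (QuotientGroup.mk (ModularGroup.T * 1) : XX N) = QuotientGroup.mk 1
  rw [eq_comm, QuotientGroup.eq, Gamma0_mem]
  simp [ModularGroup.T]

/-- CUSP3 -/
theorem cusp3 : S_CUSP3 := by
  classical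
  intro N _ hN
  have : Fact N.Prime := ⟨hN⟩
  constructor
  · intro x
    have h1 : (ModularGroup.S • x = x0 N) = (x = ModularGroup.S • x0 N) := by
      have := smul_left_cancel_iff (ModularGroup.S : SL(2, ℤ)) (x := ModularGroup.S • x) (y := x0 N)
      rw [← this, Sml.S_sq]
    have h2 : (ModularGroup.S • x = ModularGroup.S • x0 N) = (x = x0 N) := by
      rw [smul_left_cancel_iff]
    unfold bd
    simp only [h1, h2]
    ring
  · intro x
    have hU : (ModularGroup.S • x0 N : XX N) = UU • x0 N := by
      rw [UU, mul_smul, T_x0]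
    have h1 : (UU • x = UU • x0 N) = (x = x0 N) := by
      rw [smul_left_cancel_iff]
    have h2 : (UU • UU • x = UU • x0 N) = (UU • x = x0 N) := by
      rw [smul_left_cancel_iff]
    have h3 : (x = UU • x0 N) = (UU • UU • x = x0 N) := by
      rw [← smul_left_cancel_iff UU (x := x), ← smul_left_cancel_iff UU (x := UU • x), Sml.U_cube]
    unfold bd
    rw [hU]
    simp only [h1, h2, h3]
    ring

end Pool.Agent.K4H13.CV
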