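import Pool.Agent.K4H13.CV.Cus0

/-!
# Project CV: the functions `GG`
-/

set_option autoImplicit false

open Complex Filter Topology Set UpperHalfPlane MatrixGroups CongruenceSubgroup ModularGroup
open scoped ModularForm

namespace Pool.Agent.K4H13.CV

open Pool.Agent.TH940 (prim prim_deriv)
open Pool.Agent.Y18.BSD

variable {N : ℕ} [NeZero N]

/-- the derivative -/
lemma deriv_g (f : Cf2 N) (g : SL(2, ℤ)) (z : ℂ) (hz : 0 < z.im) :
    HasDerivAt (fun w : ℂ => prim f ((g • (ofComplex w) : ℍ) : ℂ))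
      (2 * Real.pi * Complex.I * ((f : ℍ → ℂ) ∣[(2 : ℤ)] g) (ofComplex z)) z := by
  set a : ℂ := ((g 0 0 : ℤ) : ℂ) with ha
  set b : ℂ := ((g 0 1 : ℤ) : ℂ) with hb
  set c : ℂ := ((g 1 0 : ℤ) : ℂ) with hc
  set d : ℂ := ((g 1 1 : ℤ) : ℂ) with hd
  have hdet : a * d - b * c = 1 := by
    have h1 := Matrix.SpecialLinearGroup.det_coe g
    rw [Matrix.det_fin_two] at h1
    rw [ha, hb, hc, hd]
    exact_mod_cast h1
  have hopen : IsOpen {z : ℂ | 0 < z.im} := isOpen_lt continuous_const Complex.continuous_im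
  have hden : ∀ z : ℍ, denom (g : GL (Fin 2) ℝ) z = c * z + d := by
    intro z
    rw [ModularGroup.denom_apply]
  have hact : ∀ z : ℍ, ((g • z : ℍ) : ℂ) = (a * z + b) / (c * z + d) := by
    intro z
    rw [ModularGroup.sl_moeb, coe_smul_of_det_pos (by simp) z, hden z]
    congr 1
  let τ : ℍ := ⟨z, hz⟩
  have hτ : (τ : ℂ) = z := rfl
  have hofc : ofComplex z = τ := ofComplex_apply_of_im_pos hz
  have h0 : c * z + d ≠ 0 := by
    have h1 := denom_ne_zero (g : GL (Fin 2) ℝ) τ
    rw [hden] at h1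
    exact h1
  have h2 : HasDerivAt (prim f) (2 * Real.pi * Complex.I * f (g • τ))
      ((a * z + b) / (c * z + d)) := by
    have := prim_deriv f (g • τ)
    rw [hact τ] at this
    exact this
  have h3 : HasDerivAt (fun z : ℂ => (a * z + b) / (c * z + d)) (1 / (c * z + d) ^ 2) z := by
    have h4 : HasDerivAt (fun z : ℂ => a * z + b) a z := by
      simpa using ((hasDerivAt_id z).const_mul a).add_const b
    have h5 : HasDerivAt (fun z : ℂ => c * z + d) c z := by
      simpa using ((hasDerivAt_id z).const_mul c).add_const d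
    refine (h4.div h5 h0).congr_deriv ?_
    congr 1
    linear_combination hdet
  have h6 := h2.comp z h3
  have h7 : (fun w : ℂ => prim f ((g • (ofComplex w) : ℍ) : ℂ)) =ᶠ[𝓝 z]
      (prim f) ∘ (fun z : ℂ => (a * z + b) / (c * z + d)) := by
    filter_upwards [hopen.mem_nhds hz] with w hw
    have : ofComplex w = ⟨w, hw⟩ := ofComplex_apply_of_im_pos hw
    rw [this, hact]
    rfl
  refine (h6.congr_of_eventuallyEq h7).congr_deriv ?_
  rw [hofc, ModularForm.SL_slash_apply, hden τ, hτ]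
  have h8 : (c * z + d) ^ (-(2 : ℤ)) = 1 / (c * z + d) ^ 2 := by
    rw [zpow_neg, one_div]
    norm_cast
  rw [h8]
  ring

/-- the slash of `f`, in the second case -/
lemma slash_eq (f : Cf2 N) {ε : ℝ} (g : SL(2, ℤ)) {C : ℂ} {j : ℤ}
    (h : ∀ z : ℍ, prim f ((g • z : ℍ) : ℂ) = C - ε * prim f (((z : ℂ) + j) / N)) (z : ℂ)
    (hz : 0 < z.im) : ((f : ℍ → ℂ) ∣[(2 : ℤ)] g) (ofComplex z) = -(ε / N) * qf f ((z + j) / N) := by
  have hN0 : (0 : ℝ) < N := Nat.cast_pos.2 (Nat.pos_of_ne_zero (NeZero.ne N))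
  have hopen : IsOpen {z : ℂ | 0 < z.im} := isOpen_lt continuous_const Complex.continuous_im
  have h1 := deriv_g f g z hz
  have him : 0 < (((z : ℂ) + j) / (N : ℂ)).im := by
    rw [im_div_N]
    have : (z + (j : ℂ)).im = z.im := by simp
    rw [this]
    positivity
  have h2 : HasDerivAt (prim f) (2 * Real.pi * Complex.I * qf f ((z + j) / N)) ((z + j) / N) := by
    have := prim_deriv f (⟨(z + j) / N, him⟩ : ℍ)
    rw [← qf_coe] at this
    exact this
  have h3 : HasDerivAt (fun z : ℂ => (z + j) / N) (1 / N) z :=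
    ((hasDerivAt_id z).add_const (j : ℂ)).div_const (N : ℂ)
  have h4 := ((h2.comp z h3).const_mul (ε : ℂ)).const_sub C
  have h7 : (fun w : ℂ => prim f ((g • (ofComplex w) : ℍ) : ℂ)) =ᶠ[𝓝 z]
      fun w => C - ε * ((prim f) ∘ (fun z : ℂ => (z + j) / N)) w := by
    filter_upwards [hopen.mem_nhds hz] with w hw
    have : ofComplex w = ⟨w, hw⟩ := ofComplex_apply_of_im_pos hw
    rw [this, h]
    rfl
  have h8 := (h4.congr_of_eventuallyEq h7).unique h1
  have h9 : (2 * (Real.pi : ℂ) * Complex.I) ≠ 0 := Complex.two_pi_I_ne_zero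
  apply mul_left_cancel₀ h9
  rw [← h8]
  ring

theorem cusp1 : S_CUSP1 := by
  intro N _ hN f ε hf
  have hN0 : (0 : ℝ) < N := Nat.cast_pos.2 (Nat.pos_of_ne_zero (NeZero.ne N))
  have hN1 : (1 : ℝ) ≤ N := by exact_mod_cast Nat.pos_of_ne_zero (NeZero.ne N)
  have hofc : ∀ z : ℂ, 0 < z.im → ((ofComplex z : ℍ) : ℂ) = z := fun z hz => by
    rw [ofComplex_apply_of_im_pos hz]
  refine ⟨fun x z hz => ?_, ?_, fun x z hz => ?_, fun x z hz => ?_, fun x z hz => ?_⟩
  · exact (deriv_g f (gx x) z hz).sub_const _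
  · -- decay
    have key : ∀ x : XX N, ∃ K : ℝ, 0 ≤ K ∧ ∀ z : ℂ, 1 / 2 ≤ z.im →
        ‖GG f x z‖ ≤ K * Real.exp (-(1 / N * z.im)) ∧
        ‖((f : ℍ → ℂ) ∣[(2 : ℤ)] gx x) (ofComplex z)‖ ≤ K * Real.exp (-(1 / N * z.im)) := by
      intro x
      obtain ⟨K1, hK1, H1⟩ := lim_cc hN hf (gx x)
      obtain ⟨K2, hK2, H2⟩ : ∃ K : ℝ, 0 ≤ K ∧ ∀ z : ℂ, 1 / 2 ≤ z.im →
          ‖((f : ℍ → ℂ) ∣[(2 : ℤ)] gx x) (ofComplex z)‖ ≤ K * Real.exp (-(1 / N * z.im)) := by
        rcases struct1 hN hf (gx x) with ⟨hg, -⟩ | ⟨j, hj⟩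
        · obtain ⟨K, hK0, hK⟩ := qf_decay f (y0 := 1 / 2) (by norm_num)
          refine ⟨K, hK0, fun z hz => ?_⟩
          have hz0 : 0 < z.im := by linarith
          have e1 : ((f : ℍ → ℂ) ∣[(2 : ℤ)] gx x) = f :=
            SlashInvariantFormClass.slash_action_eq f _ ⟨gx x, hg, rfl⟩
          rw [e1, ← qf_coe, hofc z hz0]
          exact (hK z hz).trans (mul_le_mul_of_nonneg_left (exp_le_exp_N (N := N) hz0.le) hK0)
        · obtain ⟨K, hK0, hK⟩ := qf_decay f (y0 := 1 / (2 * N)) (by positivity)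
          refine ⟨K, hK0, fun z hz => ?_⟩
          have hz0 : 0 < z.im := by linarith
          rw [slash_eq f (gx x) hj z hz0, norm_mul, norm_neg, norm_div, norm_eps hf,
            Complex.norm_natCast]
          have him : ((z + (j : ℂ)) / (N : ℂ)).im = 1 / N * z.im := by
            rw [im_div_N]
            simp
            ring
          have h1 := hK ((z + j) / N) (by
            rw [him]
            have : 1 / (2 * (N : ℝ)) = 1 / N * (1 / 2) := by field_simp
            rw [this]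
            gcongr)
          rw [him] at h1
          have h2 : 1 / (N : ℝ) ≤ 1 := by
            rw [div_le_one hN0]
            exact hN1
          calc 1 / (N : ℝ) * ‖qf f ((z + j) / N)‖ ≤ 1 * ‖qf f ((z + j) / N)‖ :=
                mul_le_mul_of_nonneg_right h2 (norm_nonneg _)
            _ = ‖qf f ((z + j) / N)‖ := one_mul _
            _ ≤ _ := h1
      refine ⟨K1 + K2, by positivity, fun z hz => ⟨?_, ?_⟩⟩
      · have hz0 : 0 < z.im := by linarith
        have him : (ofComplex z).im = z.im := by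
          rw [ofComplex_apply_of_im_pos hz0]
          rfl
        have h1 := H1 (ofComplex z) (by rw [him]; exact hz)
        rw [him] at h1
        unfold GG
        refine h1.trans (mul_le_mul_of_nonneg_right (by linarith) (Real.exp_pos _).le)
      · exact (H2 z hz).trans (mul_le_mul_of_nonneg_right (by linarith) (Real.exp_pos _).le)
    choose K hK0 hK using key
    have : Fintype (XX N) := Fintype.ofFinite _
    refine ⟨∑ x, K x, 1 / N, by positivity, fun x z hz => ?_⟩
    have h1 : K x ≤ ∑ x, K x := Finset.single_le_sum (fun y _ => hK0 y) (Finset.mem_univ x)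
    exact ⟨((hK x z hz).1).trans (mul_le_mul_of_nonneg_right h1 (Real.exp_pos _).le),
      ((hK x z hz).2).trans (mul_le_mul_of_nonneg_right h1 (Real.exp_pos _).le)⟩
  · -- `T`
    have hz1 : 0 < (z + 1).im := by simpa using hz
    rw [← Xg_gx x, smul_Xg, inv_inv, GG_Xg hN hf, GG_Xg hN hf]
    have h1 := cc_T hN hf (gx x) 1
    rw [zpow_one] at h1
    rw [h1, mul_smul]
    have h2 : (T • ofComplex z : ℍ) = ofComplex (z + 1) := by
      apply UpperHalfPlane.ext
      have h3 : ((T ^ (1 : ℤ) • ofComplex z : ℍ) : ℂ) = (ofComplex z : ℍ) + ((1 : ℤ) : ℂ) :=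
        coe_T_zpow_smul_eq _
      rw [zpow_one] at h3
      rw [h3, hofc z hz, hofc _ hz1]
      simp
    rw [h2]
  · -- `S`
    have hz1 : 0 < (-1 / z).im := by
      rw [neg_div, one_div, Complex.neg_im, Complex.inv_im]
      have : 0 < Complex.normSq z := Complex.normSq_pos.2 (fun h => by rw [h] at hz; simp at hz)
      rw [neg_div, neg_neg]
      positivity
    rw [← Xg_gx x, smul_Xg, inv_inv, GG_Xg hN hf, GG_Xg hN hf, dd_Xg hN hf, mul_smul]
    have h2 : (S • ofComplex z : ℍ) = ofComplex (-1 / z) := by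
      apply UpperHalfPlane.ext
      rw [UpperHalfPlane.modular_S_smul, hofc _ hz1]
      change (-((ofComplex z : ℍ) : ℂ))⁻¹ = -1 / z
      rw [hofc z hz, inv_neg, neg_div, one_div]
    rw [h2]
    ring
  · -- the bound
    have hcf := coef N hN f ε hf
    unfold GG
    have him : (ofComplex z).im = z.im := by
      rw [ofComplex_apply_of_im_pos hz]
      rfl
    rcases struct1 hN hf (gx x) with ⟨-, h⟩ | ⟨j, h⟩
    · rw [h, add_sub_cancel_left, hofc z hz]
      refine (prim_bd f hcf z hz).trans ?_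
      gcongr
    · rw [h, hofc z hz]
      have e : CC f (gx x) - ε * prim f ((z + j) / N) - CC f (gx x) =
          -(ε * prim f ((z + j) / N)) := by ring
      rw [e, norm_neg, norm_mul, norm_eps hf, one_mul]
      have him : ((z + (j : ℂ)) / (N : ℂ)).im = z.im / N := by
        rw [im_div_N]
        simp
      have h1 := prim_bd f hcf ((z + j) / N) (by rw [him]; positivity)
      rw [him, one_div_div] at h1
      exact h1

end Pool.Agent.K4H13.CV
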