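import Pool.Agent.K4H13.CV.Cus0

/-!
# Project CV: the relations between the symbols
-/

set_option autoImplicit false

open Complex Filter Topology Set UpperHalfPlane MatrixGroups CongruenceSubgroup ModularGroup

namespace Pool.Agent.K4H13.CV

open Pool.Agent.Y18.BSD

theorem cusp2 : S_CUSP2 := by
  intro N _ hN f ε hf
  have hS : ∀ g : SL(2, ℤ), CC f (g * S⁻¹) = CC f (g * S) := fun g => by
    rw [S_inv, mul_neg, cc_neg hN hf]
  have hT : ∀ g : SL(2, ℤ), CC f (g * T) = CC f g := fun g => by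
    have := cc_T hN hf g 1
    rwa [zpow_one] at this
  have hT' : ∀ g : SL(2, ℤ), CC f (g * T⁻¹) = CC f g := fun g => by
    have := cc_T hN hf g (-1)
    rwa [zpow_neg_one] at this
  refine ⟨fun x => ?_, fun x => ?_, ?_⟩
  · rw [← Xg_gx x, smul_Xg, dd_Xg hN hf, dd_Xg hN hf, hS, inv_mul_cancel_right]
    ring
  · rw [← Xg_gx x, smul_Xg, smul_Xg, dd_Xg hN hf, dd_Xg hN hf, dd_Xg hN hf]
    set g := gx x with hg
    have e1 : (g * UU⁻¹ * S : SL(2, ℤ)) = g * T⁻¹ := by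
      unfold UU
      group
    have e2 : (g * UU⁻¹ : SL(2, ℤ)) = g * T⁻¹ * S⁻¹ := by
      unfold UU
      group
    have e3 : (g * UU⁻¹ * UU⁻¹ * S : SL(2, ℤ)) = g * UU⁻¹ * T⁻¹ := by
      unfold UU
      group
    have e4 : (g * UU⁻¹ * UU⁻¹ : SL(2, ℤ)) = -(g * S * T) := by
      have h1 : (UU * (UU * UU) : SL(2, ℤ)) = -1 := by
        ext i j
        fin_cases i <;> fin_cases j <;> rfl
      have h2 : (UU⁻¹ * UU⁻¹ : SL(2, ℤ)) = -UU := by
        rw [← mul_inv_rev, inv_eq_iff_mul_eq_one, mul_neg, mul_assoc, h1, neg_neg]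
      rw [mul_assoc, h2, mul_neg]
      unfold UU
      rw [mul_assoc]
    rw [e1, e3, e4, hT', hT', cc_neg hN hf, hT, e2]
    ring
  · rw [x0_eq, dd_Xg hN hf, one_mul, cc_one, cc_S hf, sub_zero]

end Pool.Agent.K4H13.CV
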