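import Pool.Agent.W388.LV.EX0

/-!
# Project CV: the newform basis of weight two exists, statements
-/

set_option autoImplicit false

open Complex Filter Topology Set UpperHalfPlane MatrixGroups CongruenceSubgroup

namespace Pool.Agent.K4H13.CV

open W388.LV

/-- SA2 : the Hecke operators are self-adjoint in weight two -/
def S_SA2 : Prop := ∀ (N : ℕ) [NeZero N] (p : ℕ), p.Prime → ¬ p ∣ N →
  ∀ f g f' g' : SF N 2, IsT N 2 p f f' → IsT N 2 p g g' → pet N 2 f' g = pet N 2 f g'

/-- NEW2 : newforms of prime level and weight two have the properties `IsNewf` and are orthogonal -/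
def S_NEW2 : Prop := ∀ (N : ℕ) [NeZero N], N.Prime →
  (∀ f : SF N 2, IsNew N 2 f → ∃ ε : ℝ, W388.IsNewf N 2 f ε) ∧
  (∀ f g : SF N 2, IsNew N 2 f → IsNew N 2 g → f ≠ g → pet N 2 f g = 0)

end Pool.Agent.K4H13.CV
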