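import Pool.Agent.W388.LV.Final
import Pool.Agent.W388.LV.EX0
import Pool.Agent.W388.LV.Ext
import Pool.Agent.W191.EX.Hecke
import Pool.Agent.K4H13.CV.Ex20

/-!
# The Hecke operators are self-adjoint in weight two
-/

set_option autoImplicit false
set_option linter.unusedSectionVars false

open Complex Filter Topology Set MeasureTheory UpperHalfPlane MatrixGroups CongruenceSubgroup
open scoped ENNReal

namespace Pool.Agent.K4H13.CV.SaP

open W388.LV
open Pool.Agent.W165.RS (phi measurable_phi tsum_phi measurePreserving_SL measurable_smul_SL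
  measurableSet_fd volume_fd_ne_top phi_le)

/-! ## the weight -/

/-- the weight -/
noncomputable def rho (N : ℕ) (z : ℍ) : ℝ≥0∞ := ∑' x : SL(2, ℤ) ⧸ Gamma0 N, phi (Quotient.out x • z)

/-- the decomposition into cosets -/
noncomputable def cosEquiv (N : ℕ) : (SL(2, ℤ) ⧸ Gamma0 N) × Gamma0 N ≃ SL(2, ℤ) :=
  Equiv.ofBijective (fun x => Quotient.out x.1 * (x.2 : SL(2, ℤ))) (by
    have hmk : ∀ x : (SL(2, ℤ) ⧸ Gamma0 N) × Gamma0 N,
        (QuotientGroup.mk (Quotient.out x.1 * (x.2 : SL(2, ℤ))) : SL(2, ℤ) ⧸ Gamma0 N) = x.1 := by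
      intro x
      rw [QuotientGroup.mk_mul_of_mem _ x.2.2]
      exact QuotientGroup.out_eq' x.1
    constructor
    · intro x y h
      simp only at h
      have h1 := hmk x
      rw [h, hmk y] at h1
      rw [h1] at h
      exact Prod.ext h1.symm (Subtype.ext (mul_left_cancel h))
    · intro g
      have h2 : (Quotient.out (QuotientGroup.mk g : SL(2, ℤ) ⧸ Gamma0 N))⁻¹ * g ∈ Gamma0 N := by
        rw [← QuotientGroup.eq]
        exact QuotientGroup.out_eq' _
      exact ⟨⟨QuotientGroup.mk g, ⟨_, h2⟩⟩, by simp⟩)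

theorem cosEquiv_apply {N : ℕ} (x : (SL(2, ℤ) ⧸ Gamma0 N) × Gamma0 N) :
    cosEquiv N x = Quotient.out x.1 * (x.2 : SL(2, ℤ)) := rfl

theorem tsum_rho (N : ℕ) (z : ℍ) : ∑' γ : Gamma0 N, rho N ((γ : SL(2, ℤ)) • z) = 1 := by
  unfold rho
  rw [ENNReal.tsum_comm, ← ENNReal.tsum_prod]
  rw [← tsum_phi z, ← (cosEquiv N).tsum_eq (fun g => phi (g • z))]
  refine tsum_congr fun x => ?_
  rw [cosEquiv_apply, mul_smul]

theorem measurable_rho (N : ℕ) [NeZero N] : Measurable (rho N) := by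
  have : Finite (SL(2, ℤ) ⧸ Gamma0 N) := Subgroup.finite_quotient_of_finiteIndex
  exact Measurable.tsum fun x => measurable_phi.comp (measurable_smul_SL _)

theorem lintegral_phi : ∫⁻ z, phi z ≠ ∞ := by
  refine ne_top_of_le_ne_top volume_fd_ne_top ?_
  rw [← lintegral_indicator_one measurableSet_fd]
  exact lintegral_mono fun z => phi_le z

theorem lintegral_phi_smul (g : SL(2, ℤ)) : ∫⁻ z, phi (g • z) = ∫⁻ z, phi z :=
  (measurePreserving_SL g).lintegral_comp measurable_phi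

theorem lintegral_rho (N : ℕ) [NeZero N] : ∫⁻ z, rho N z ≠ ∞ := by
  have : Finite (SL(2, ℤ) ⧸ Gamma0 N) := Subgroup.finite_quotient_of_finiteIndex
  have := Fintype.ofFinite (SL(2, ℤ) ⧸ Gamma0 N)
  unfold rho
  have h1 : ∫⁻ z : ℍ, ∑' x : SL(2, ℤ) ⧸ Gamma0 N, phi (Quotient.out x • z) =
      ∑' x : SL(2, ℤ) ⧸ Gamma0 N, ∫⁻ z : ℍ, phi (Quotient.out x • z) :=
    lintegral_tsum fun x => (measurable_phi.comp (measurable_smul_SL _)).aemeasurable
  rw [h1, tsum_fintype]
  simp_rw [lintegral_phi_smul]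
  rw [Finset.sum_const, nsmul_eq_mul]
  exact ENNReal.mul_ne_top (ENNReal.natCast_ne_top _) lintegral_phi

theorem phi_ne_top (z : ℍ) : phi z ≠ ∞ := by
  refine ne_top_of_le_ne_top ENNReal.one_ne_top ((phi_le z).trans ?_)
  by_cases h : z ∈ (ModularGroup.fd : Set ℍ)
  · rw [Set.indicator_of_mem h]
  · rw [Set.indicator_of_notMem h]
    exact zero_le_one

theorem rho_ne_top (N : ℕ) [NeZero N] (z : ℍ) : rho N z ≠ ∞ := by
  have h := tsum_rho N z
  have h1 : rho N (((1 : Gamma0 N) : SL(2, ℤ)) • z) ≤ ∑' γ : Gamma0 N, rho N ((γ : SL(2, ℤ)) • z) :=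
    ENNReal.le_tsum 1
  rw [h] at h1
  rw [show ((1 : Gamma0 N) : SL(2, ℤ)) = 1 from rfl, one_smul] at h1
  exact ne_top_of_le_ne_top ENNReal.one_ne_top h1

theorem integrable_phi (g : SL(2, ℤ)) : Integrable (fun z => (phi (g • z)).toReal) := by
  refine integrable_toReal_of_lintegral_ne_top
    (measurable_phi.comp (measurable_smul_SL g)).aemeasurable ?_
  have := lintegral_phi_smul g
  change ∫⁻ z, phi (g • z) ≠ ∞
  rw [this]
  exact lintegral_phi

theorem integrable_rho (N : ℕ) [NeZero N] : Integrable (fun z => (rho N z).toReal) :=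
  integrable_toReal_of_lintegral_ne_top (measurable_rho N).aemeasurable (lintegral_rho N)

theorem integral_mp {φ : ℍ → ℍ} (h : MeasurePreserving φ volume volume) {G : ℍ → ℂ}
    (hG : Measurable G) : ∫ z, G (φ z) = ∫ z, G z := by
  have h1 := integral_map (μ := (volume : Measure ℍ)) h.measurable.aemeasurable
    (hG.aestronglyMeasurable (μ := Measure.map φ volume))
  rw [h.map_eq] at h1
  exact h1.symm

theorem integrable_mul {w : ℍ → ℝ} (hw : Integrable w) {h : ℍ → ℂ} (hm : Measurable h) {C : ℝ}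
    (hC : ∀ z, ‖h z‖ ≤ C) : Integrable (fun z => (w z : ℂ) * h z) :=
  hw.ofReal.mul_bdd (c := C) hm.aestronglyMeasurable (Eventually.of_forall hC)

/-- the Petersson product as an integral over the upper half plane -/
theorem pet_eq {N : ℕ} [NeZero N] {k : ℤ} {f g : ℍ → ℂ} (hm : Measurable (petersson k f g))
    {C : ℝ} (hC : ∀ z, ‖petersson k f g z‖ ≤ C) :
    pet N k f g = 2 * ∫ z, ((rho N z).toReal : ℂ) * petersson k f g z := by
  have : Finite (SL(2, ℤ) ⧸ Gamma0 N) := Subgroup.finite_quotient_of_finiteIndex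
  have := Fintype.ofFinite (SL(2, ℤ) ⧸ Gamma0 N)
  unfold pet
  have h1 : ∫ z in (ModularGroup.fd : Set ℍ), ∑' γ : SL(2, ℤ) ⧸ Gamma0 N,
      petersson k f g ((Quotient.out γ)⁻¹ • z) =
      ∫ z, ∑ x : SL(2, ℤ) ⧸ Gamma0 N, 2 * (((phi z).toReal : ℂ) *
        petersson k f g ((Quotient.out x)⁻¹ • z)) := by
    rw [← integral_indicator measurableSet_fd]
    refine integral_congr_ae ?_
    filter_upwards [q_phi] with z hz
    rw [← Finset.mul_sum, ← Finset.mul_sum, hz]
    by_cases h : z ∈ (ModularGroup.fd : Set ℍ)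
    · rw [Set.indicator_of_mem h, Set.indicator_of_mem h, tsum_fintype, ← mul_assoc]
      norm_num
    · rw [Set.indicator_of_notMem h, Set.indicator_of_notMem h]
      simp
  have hme : ∀ x : SL(2, ℤ) ⧸ Gamma0 N, Measurable fun z => petersson k f g ((Quotient.out x)⁻¹ • z) :=
    fun x => hm.comp (measurable_smul_SL _)
  have hin : ∀ x : SL(2, ℤ) ⧸ Gamma0 N, Integrable fun z => ((phi z).toReal : ℂ) *
      petersson k f g ((Quotient.out x)⁻¹ • z) := by
    intro x
    have h2 := integrable_phi 1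
    simp only [one_smul] at h2
    exact integrable_mul h2 (hme x) (C := C) fun z => hC _
  rw [h1, integral_finsetSum _ fun x _ => (hin x).const_mul 2]
  have h3 : ∀ x : SL(2, ℤ) ⧸ Gamma0 N, ∫ z, 2 * (((phi z).toReal : ℂ) *
      petersson k f g ((Quotient.out x)⁻¹ • z)) =
      2 * ∫ z, ((phi (Quotient.out x • z)).toReal : ℂ) * petersson k f g z := by
    intro x
    rw [integral_const_mul]
    congr 1
    have h4 := integral_mp (measurePreserving_SL (Quotient.out x))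
      (G := fun z => ((phi z).toReal : ℂ) * petersson k f g ((Quotient.out x)⁻¹ • z))
      ((measurable_phi.ennreal_toReal.complex_ofReal).mul (hme x))
    rw [← h4]
    refine integral_congr_ae (Eventually.of_forall fun z => ?_)
    simp only [inv_smul_smul]
  simp_rw [h3]
  rw [← Finset.mul_sum, ← integral_finsetSum _ fun x _ => integrable_mul (integrable_phi _) hm hC]
  congr 1
  refine integral_congr_ae (Eventually.of_forall fun z => ?_)
  simp only
  rw [← Finset.sum_mul]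
  congr 1
  unfold rho
  rw [tsum_fintype, ENNReal.toReal_sum fun x _ => phi_ne_top _]
  push_cast
  rfl


/-! ## the matrices of determinant `p` -/

/-- the integral matrices of determinant `p` -/
def DD (N p : ℕ) : Type := {δ : Matrix (Fin 2) (Fin 2) ℤ // δ.det = p ∧ (N : ℤ) ∣ δ 1 0}

section mats

variable {N p : ℕ} [hp : Fact p.Prime]

theorem p_ne : (p : ℝ) ≠ 0 := Nat.cast_ne_zero.2 hp.out.ne_zero

theorem det_map (δ : DD N p) : (δ.1.map (Int.castRingHom ℝ)).det = p := by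
  have h := (Int.castRingHom ℝ).map_det δ.1
  rw [δ.2.1] at h
  change _ = (δ.1.map (Int.castRingHom ℝ)).det at h
  rw [← h]
  simp

/-- the real matrix -/
noncomputable def gl (δ : DD N p) : GL (Fin 2) ℝ :=
  Matrix.GeneralLinearGroup.mkOfDetNeZero (δ.1.map (Int.castRingHom ℝ)) (by
    rw [det_map]; exact p_ne)

theorem gl_apply (δ : DD N p) (i j : Fin 2) : (gl δ) i j = (δ.1 i j : ℝ) := rfl

theorem gl_det (δ : DD N p) : (gl δ).det.val = p := by
  change (gl δ).1.det = p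
  exact det_map δ

theorem gl_pos (δ : DD N p) : 0 < (gl δ).det.val := by
  rw [gl_det]
  exact Nat.cast_pos.2 hp.out.pos

theorem denom_gl (δ : DD N p) (z : ℂ) : denom (gl δ) z = (δ.1 1 0 : ℂ) * z + (δ.1 1 1 : ℂ) := by
  unfold denom
  rw [gl_apply, gl_apply]
  push_cast
  rfl

theorem num_gl (δ : DD N p) (z : ℂ) : num (gl δ) z = (δ.1 0 0 : ℂ) * z + (δ.1 0 1 : ℂ) := by
  unfold num
  rw [gl_apply, gl_apply]
  push_cast
  rfl

theorem coe_gl (δ : DD N p) (z : ℍ) : ((gl δ • z : ℍ) : ℂ) =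
    ((δ.1 0 0 : ℂ) * z + (δ.1 0 1 : ℂ)) / ((δ.1 1 0 : ℂ) * z + (δ.1 1 1 : ℂ)) := by
  rw [coe_smul_of_det_pos (gl_pos δ), num_gl, denom_gl]

theorem D_ne (δ : DD N p) (z : ℍ) : (δ.1 1 0 : ℂ) * z + (δ.1 1 1 : ℂ) ≠ 0 := by
  rw [← denom_gl]
  exact denom_ne_zero _ _

theorem im_gl (δ : DD N p) (z : ℍ) : (gl δ • z).im =
    p * z.im / Complex.normSq ((δ.1 1 0 : ℂ) * z + (δ.1 1 1 : ℂ)) := by
  rw [im_smul_eq_div_normSq, gl_det, denom_gl, abs_of_pos (Nat.cast_pos.2 hp.out.pos)]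

theorem det_c (δ : DD N p) : (δ.1 0 0 : ℂ) * (δ.1 1 1 : ℂ) - (δ.1 0 1 : ℂ) * (δ.1 1 0 : ℂ) = p := by
  have h := δ.2.1
  rw [Matrix.det_fin_two] at h
  exact_mod_cast h

/-- the adjugate -/
def adj : DD N p ≃ DD N p where
  toFun δ := ⟨δ.1.adjugate, by
    rw [Matrix.det_adjugate, δ.2.1, Fintype.card_fin]
    norm_num, by
    rw [Matrix.adjugate_fin_two]
    simpa using δ.2.2⟩
  invFun δ := ⟨δ.1.adjugate, by
    rw [Matrix.det_adjugate, δ.2.1, Fintype.card_fin]
    norm_num, by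
    rw [Matrix.adjugate_fin_two]
    simpa using δ.2.2⟩
  left_inv δ := by
    apply Subtype.ext
    simp [Matrix.adjugate_adjugate']
  right_inv δ := by
    apply Subtype.ext
    simp [Matrix.adjugate_adjugate']

theorem adj_00 (δ : DD N p) : (adj δ).1 0 0 = δ.1 1 1 := by
  change δ.1.adjugate 0 0 = _
  rw [Matrix.adjugate_fin_two]
  rfl

theorem adj_01 (δ : DD N p) : (adj δ).1 0 1 = - δ.1 0 1 := by
  change δ.1.adjugate 0 1 = _
  rw [Matrix.adjugate_fin_two]
  rfl

theorem adj_10 (δ : DD N p) : (adj δ).1 1 0 = - δ.1 1 0 := by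
  change δ.1.adjugate 1 0 = _
  rw [Matrix.adjugate_fin_two]
  rfl

theorem adj_11 (δ : DD N p) : (adj δ).1 1 1 = δ.1 0 0 := by
  change δ.1.adjugate 1 1 = _
  rw [Matrix.adjugate_fin_two]
  rfl

/-- the product of the two automorphy factors -/
theorem adj_denom (δ : DD N p) (z : ℍ) :
    (((adj δ).1 1 0 : ℂ) * (gl δ • z : ℍ) + ((adj δ).1 1 1 : ℂ)) *
      ((δ.1 1 0 : ℂ) * z + (δ.1 1 1 : ℂ)) = p := by
  rw [coe_gl, adj_10, adj_11]
  have h := D_ne δ z
  have h2 := det_c δ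
  push_cast
  field_simp
  linear_combination h2

theorem adj_smul (δ : DD N p) (z : ℍ) : gl (adj δ) • gl δ • z = z := by
  ext
  rw [coe_gl (adj δ)]
  have h := D_ne δ z
  have h1 := adj_denom δ z
  have h2 := det_c δ
  have h3 := D_ne (adj δ) (gl δ • z)
  rw [div_eq_iff h3, adj_00, adj_01, coe_gl]
  rw [coe_gl] at h1
  have h4 : ((δ.1 1 1 : ℤ) : ℂ) * (((δ.1 0 0 : ℂ) * z + (δ.1 0 1 : ℂ)) /
      ((δ.1 1 0 : ℂ) * z + (δ.1 1 1 : ℂ))) + ((-δ.1 0 1 : ℤ) : ℂ) =
      p * z / ((δ.1 1 0 : ℂ) * z + (δ.1 1 1 : ℂ)) := by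
    rw [eq_div_iff h, add_mul, mul_assoc, div_mul_cancel₀ _ h]
    push_cast
    linear_combination (z : ℂ) * h2
  rw [h4, div_eq_iff h]
  linear_combination -(z : ℂ) * h1

/-! ## the slash action -/

/-- `(f | δ)(z)` -/
noncomputable def sl (f : ℍ → ℂ) (δ : DD N p) (z : ℍ) : ℂ :=
  (((δ.1 1 0 : ℂ) * z + (δ.1 1 1 : ℂ)) ^ 2)⁻¹ * f (gl δ • z)

theorem key (f g : ℍ → ℂ) (δ : DD N p) (z : ℍ) :
    (starRingEnd ℂ) (sl f δ z) * g z * ((z.im : ℝ) : ℂ) ^ 2 =
      sl g (adj δ) (gl δ • z) * (starRingEnd ℂ) (f (gl δ • z)) *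
        (((gl δ • z : ℍ).im : ℝ) : ℂ) ^ 2 := by
  unfold sl
  rw [adj_smul]
  have h1 := adj_denom δ z
  have h := D_ne δ z
  set D : ℂ := (δ.1 1 0 : ℂ) * z + (δ.1 1 1 : ℂ) with hD
  set E : ℂ := ((adj δ).1 1 0 : ℂ) * (gl δ • z : ℍ) + ((adj δ).1 1 1 : ℂ) with hE
  have hp0 : (p : ℂ) ≠ 0 := Nat.cast_ne_zero.2 hp.out.ne_zero
  have hE1 : E = p / D := by rw [eq_div_iff h]; exact h1
  rw [im_gl, hE1, ← hD, map_mul, map_inv₀, map_pow]
  have hDc : (starRingEnd ℂ) D ≠ 0 := by simpa using h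
  have hn : ((Complex.normSq D : ℝ) : ℂ) = D * (starRingEnd ℂ) D := (Complex.mul_conj D).symm
  push_cast
  rw [hn]
  field_simp

end mats

/-! ## the cosets of the matrices of determinant `p` -/

section cosets

variable {N p : ℕ} [hp : Fact p.Prime]

/-- multiplication from the left -/
def lm (γ : Gamma0 N) (δ : DD N p) : DD N p := ⟨(γ : SL(2, ℤ)).1 * δ.1, by
  rw [Matrix.det_mul, (γ : SL(2, ℤ)).2, one_mul, δ.2.1], by
  rw [Matrix.mul_apply, Fin.sum_univ_two]
  have h := γ.2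
  rw [Gamma0_mem, ZMod.intCast_zmod_eq_zero_iff_dvd] at h
  exact dvd_add (h.mul_right _) (δ.2.2.mul_left _)⟩

theorem gl_lm (γ : Gamma0 N) (δ : DD N p) :
    gl (lm γ δ) = Matrix.SpecialLinearGroup.mapGL ℝ (γ : SL(2, ℤ)) * gl δ := by
  ext i j
  rw [gl_apply]
  change (((((γ : SL(2, ℤ)).1 * δ.1) i j : ℤ)) : ℝ) = ((Matrix.SpecialLinearGroup.mapGL ℝ (γ : SL(2, ℤ))).1 * (gl δ).1) i j
  rw [Matrix.mul_apply, Matrix.mul_apply, Fin.sum_univ_two, Fin.sum_univ_two]
  push_cast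
  rfl

theorem lm_smul (γ : Gamma0 N) (δ : DD N p) (z : ℍ) :
    gl (lm γ δ) • z = (γ : SL(2, ℤ)) • gl δ • z := by
  rw [gl_lm, mul_smul]
  rfl

theorem sl_eq (f : ℍ → ℂ) (δ : DD N p) (z : ℍ) :
    sl f δ z = (denom (gl δ) z ^ 2)⁻¹ * f (gl δ • z) := by
  rw [denom_gl]
  rfl

theorem sl_lm {f : SF N 2} (γ : Gamma0 N) (δ : DD N p) (z : ℍ) : sl f (lm γ δ) z = sl f δ z := by
  rw [sl_eq, sl_eq, lm_smul, gl_lm]
  have h := SlashInvariantForm.slash_action_eqn_SL'' (Γ := Gamma0 N) (k := 2) f γ.2 (gl δ • z)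
  have hc : denom (Matrix.SpecialLinearGroup.mapGL ℝ (γ : SL(2, ℤ)) * gl δ) z =
      denom (Matrix.SpecialLinearGroup.mapGL ℝ (γ : SL(2, ℤ))) (gl δ • z : ℍ) * denom (gl δ) z := by
    rw [denom_cocycle _ _ z.im_ne_zero, coe_smul_of_det_pos (gl_pos δ)]
  have h1 : denom (Matrix.SpecialLinearGroup.mapGL ℝ (γ : SL(2, ℤ))) (gl δ • z : ℍ) ≠ 0 :=
    denom_ne_zero _ _
  have h2 : denom (gl δ) z ≠ 0 := denom_ne_zero _ _
  rw [hc, h]
  change _ * (denom (Matrix.SpecialLinearGroup.mapGL ℝ (γ : SL(2, ℤ))) (gl δ • z : ℍ) ^ (2 : ℤ) * _) = _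
  rw [zpow_ofNat]
  field_simp

/-- the representatives -/
def rep (N p : ℕ) : Option (Fin p) → DD N p
  | none => ⟨!![(p : ℤ), 0; 0, 1], by simp [Matrix.det_fin_two], by simp⟩
  | some j => ⟨!![1, (j.val : ℤ); 0, (p : ℤ)], by simp [Matrix.det_fin_two], by simp⟩

theorem p_dvd_of (γ : SL(2, ℤ)) (h1 : (p : ℤ) ∣ γ 0 0) (h2 : (p : ℤ) ∣ γ 1 0) : False := by
  have h := γ.det_coe
  rw [Matrix.det_fin_two] at h
  have h3 : (p : ℤ) ∣ 1 := by
    rw [← h]
    exact dvd_sub (h1.mul_right _) (h2.mul_left _)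
  exact hp.out.one_lt.ne' (by
    have := Int.natAbs_dvd_natAbs.2 h3
    simpa using this)

theorem rep_inj (x y : Option (Fin p) × Gamma0 N) (h : lm x.2 (rep N p x.1) = lm y.2 (rep N p y.1)) :
    x = y := by
  obtain ⟨i, γ⟩ := x
  obtain ⟨j, γ'⟩ := y
  have hm := congrArg (fun δ : DD N p => δ.1) h
  have e00 := congrFun (congrFun hm 0) 0
  have e01 := congrFun (congrFun hm 0) 1
  have e10 := congrFun (congrFun hm 1) 0
  have e11 := congrFun (congrFun hm 1) 1
  simp only [lm, Matrix.mul_apply, Fin.sum_univ_two] at e00 e01 e10 e11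
  have hp0 : (p : ℤ) ≠ 0 := Int.natCast_ne_zero.2 hp.out.ne_zero
  rcases i with _ | i
  · rcases j with _ | j
    · simp only [rep, Matrix.of_apply, Matrix.cons_val', Matrix.cons_val_zero, Matrix.cons_val_one,
        Matrix.cons_val_fin_one, mul_zero, add_zero, zero_add, mul_one] at e00 e01 e10 e11
      have h1 : γ = γ' := by
        apply Subtype.ext
        ext a b
        fin_cases a <;> fin_cases b
        · exact mul_right_cancel₀ hp0 e00
        · exact e01
        · exact mul_right_cancel₀ hp0 e10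
        · exact e11
      rw [h1]
    · exfalso
      simp only [rep, Matrix.of_apply, Matrix.cons_val', Matrix.cons_val_zero, Matrix.cons_val_one,
        Matrix.cons_val_fin_one, mul_zero, add_zero, zero_add, mul_one] at e00 e01 e10 e11
      exact p_dvd_of (p := p) (γ' : SL(2, ℤ)) ⟨_, by rw [← e00]; ring⟩ ⟨_, by rw [← e10]; ring⟩
  · rcases j with _ | j
    · exfalso
      simp only [rep, Matrix.of_apply, Matrix.cons_val', Matrix.cons_val_zero, Matrix.cons_val_one,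
        Matrix.cons_val_fin_one, mul_zero, add_zero, zero_add, mul_one] at e00 e01 e10 e11
      exact p_dvd_of (p := p) (γ : SL(2, ℤ)) ⟨_, by rw [e00]; ring⟩ ⟨_, by rw [e10]; ring⟩
    · simp only [rep, Matrix.of_apply, Matrix.cons_val', Matrix.cons_val_zero, Matrix.cons_val_one,
        Matrix.cons_val_fin_one, mul_zero, add_zero, zero_add, mul_one] at e00 e01 e10 e11
      have hij : i = j := by
        by_contra hne
        have hd1 : (p : ℤ) ∣ ((i.val : ℤ) - j.val) * (γ : SL(2, ℤ)).1 0 0 :=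
          ⟨(γ' : SL(2, ℤ)).1 0 1 - (γ : SL(2, ℤ)).1 0 1, by
            rw [← e00] at e01
            linear_combination e01⟩
        have hd2 : (p : ℤ) ∣ ((i.val : ℤ) - j.val) * (γ : SL(2, ℤ)).1 1 0 :=
          ⟨(γ' : SL(2, ℤ)).1 1 1 - (γ : SL(2, ℤ)).1 1 1, by
            rw [← e10] at e11
            linear_combination e11⟩
        have hpp : Prime (p : ℤ) := Nat.prime_iff_prime_int.1 hp.out
        have hnd : ¬ (p : ℤ) ∣ ((i.val : ℤ) - j.val) := by
          intro hd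
          have h1 : ((i.val : ℤ) - j.val).natAbs < p := by
            have := i.2
            have := j.2
            omega
          have h2 := Int.eq_zero_of_abs_lt_dvd hd (by
            rw [Int.abs_eq_natAbs]
            exact_mod_cast h1)
          exact hne (Fin.ext (by omega))
        exact p_dvd_of (p := p) (γ : SL(2, ℤ)) ((hpp.dvd_or_dvd hd1).resolve_left hnd)
          ((hpp.dvd_or_dvd hd2).resolve_left hnd)
      subst hij
      have h1 : γ = γ' := by
        apply Subtype.ext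
        ext a b
        fin_cases a <;> fin_cases b
        · exact e00
        · rw [e00] at e01
          have q1 : (γ : SL(2, ℤ)).1 0 1 * (p : ℤ) = (γ' : SL(2, ℤ)).1 0 1 * (p : ℤ) := by
            linear_combination e01
          exact mul_right_cancel₀ hp0 q1
        · exact e10
        · rw [e10] at e11
          have q1 : (γ : SL(2, ℤ)).1 1 1 * (p : ℤ) = (γ' : SL(2, ℤ)).1 1 1 * (p : ℤ) := by
            linear_combination e11
          exact mul_right_cancel₀ hp0 q1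
      rw [h1]

theorem rep_surj (hpN : ¬ p ∣ N) (M : DD N p) : ∃ x : Option (Fin p) × Gamma0 N,
    lm x.2 (rep N p x.1) = M := by
  have hp0 : (p : ℤ) ≠ 0 := Int.natCast_ne_zero.2 hp.out.ne_zero
  have hpp : Prime (p : ℤ) := Nat.prime_iff_prime_int.1 hp.out
  have hdet := M.2.1
  rw [Matrix.det_fin_two] at hdet
  by_cases hc : (p : ℤ) ∣ M.1 0 0 ∧ (p : ℤ) ∣ M.1 1 0
  · obtain ⟨⟨a, ha⟩, ⟨c, hcc⟩⟩ := hc
    have hNc : (N : ℤ) ∣ c := by
      have h1 := M.2.2
      rw [hcc] at h1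
      refine IsCoprime.dvd_of_dvd_mul_left ?_ h1
      rw [Nat.isCoprime_iff_coprime]
      exact ((Nat.Prime.coprime_iff_not_dvd hp.out).2 hpN).symm
    have hd : a * M.1 1 1 - M.1 0 1 * c = 1 := by
      rw [ha, hcc] at hdet
      exact mul_left_cancel₀ hp0 (by linear_combination hdet)
    refine ⟨(none, ⟨⟨!![a, M.1 0 1; c, M.1 1 1], by rw [Matrix.det_fin_two_of]; exact hd⟩, by
      rw [Gamma0_mem, ZMod.intCast_zmod_eq_zero_iff_dvd]
      exact hNc⟩), ?_⟩
    apply Subtype.ext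
    ext i j
    simp only [lm, rep, Matrix.mul_apply, Fin.sum_univ_two]
    fin_cases i <;> fin_cases j
    · simp; linear_combination -ha
    · simp
    · simp; linear_combination -hcc
    · simp
  · obtain ⟨j, h1, h2⟩ : ∃ j : Fin p, (p : ℤ) ∣ M.1 0 1 - j.val * M.1 0 0 ∧
        (p : ℤ) ∣ M.1 1 1 - j.val * M.1 1 0 := by
      have hval : ∀ t : ZMod p, ((ZMod.val t : ℕ) : ZMod p) = t := fun t => ZMod.natCast_zmod_val t
      by_cases h0 : (p : ℤ) ∣ M.1 0 0
      · have h3 : ¬ (p : ℤ) ∣ M.1 1 0 := fun h => hc ⟨h0, h⟩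
        have h4 : ((M.1 1 0 : ℤ) : ZMod p) ≠ 0 := fun h =>
          h3 ((ZMod.intCast_zmod_eq_zero_iff_dvd _ _).1 h)
        set t : ZMod p := (M.1 1 1 : ZMod p) / (M.1 1 0 : ZMod p) with ht
        have h5 : (p : ℤ) ∣ M.1 1 1 - ((ZMod.val t : ℕ) : ℤ) * M.1 1 0 := by
          rw [← ZMod.intCast_zmod_eq_zero_iff_dvd]
          push_cast
          rw [hval, ht]
          field_simp
          ring
        refine ⟨⟨ZMod.val t, ZMod.val_lt t⟩, ?_, h5⟩
        have h6 : (p : ℤ) ∣ (M.1 0 1 - ((ZMod.val t : ℕ) : ℤ) * M.1 0 0) * M.1 1 0 := by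
          have h7 : (M.1 0 1 - ((ZMod.val t : ℕ) : ℤ) * M.1 0 0) * M.1 1 0 =
              -(p : ℤ) + M.1 0 0 * (M.1 1 1 - ((ZMod.val t : ℕ) : ℤ) * M.1 1 0) := by
            linear_combination -hdet
          rw [h7]
          exact dvd_add (dvd_neg.2 dvd_rfl) (h5.mul_left _)
        exact (hpp.dvd_or_dvd h6).resolve_right h3
      · have h4 : ((M.1 0 0 : ℤ) : ZMod p) ≠ 0 := fun h =>
          h0 ((ZMod.intCast_zmod_eq_zero_iff_dvd _ _).1 h)
        set t : ZMod p := (M.1 0 1 : ZMod p) / (M.1 0 0 : ZMod p) with ht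
        have h5 : (p : ℤ) ∣ M.1 0 1 - ((ZMod.val t : ℕ) : ℤ) * M.1 0 0 := by
          rw [← ZMod.intCast_zmod_eq_zero_iff_dvd]
          push_cast
          rw [hval, ht]
          field_simp
          ring
        refine ⟨⟨ZMod.val t, ZMod.val_lt t⟩, h5, ?_⟩
        have h6 : (p : ℤ) ∣ (M.1 1 1 - ((ZMod.val t : ℕ) : ℤ) * M.1 1 0) * M.1 0 0 := by
          have h7 : (M.1 1 1 - ((ZMod.val t : ℕ) : ℤ) * M.1 1 0) * M.1 0 0 =
              (p : ℤ) + M.1 1 0 * (M.1 0 1 - ((ZMod.val t : ℕ) : ℤ) * M.1 0 0) := by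
            linear_combination hdet
          rw [h7]
          exact dvd_add dvd_rfl (h5.mul_left _)
        exact (hpp.dvd_or_dvd h6).resolve_right h0
    obtain ⟨b, hb⟩ := h1
    obtain ⟨d, hd⟩ := h2
    have hdd : M.1 0 0 * d - b * M.1 1 0 = 1 := by
      refine mul_left_cancel₀ hp0 ?_
      linear_combination hdet - M.1 0 0 * hd + M.1 1 0 * hb
    refine ⟨(some j, ⟨⟨!![M.1 0 0, b; M.1 1 0, d], by rw [Matrix.det_fin_two_of]; exact hdd⟩, by
      rw [Gamma0_mem, ZMod.intCast_zmod_eq_zero_iff_dvd]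
      exact M.2.2⟩), ?_⟩
    apply Subtype.ext
    ext i k
    simp only [lm, rep, Matrix.mul_apply, Fin.sum_univ_two]
    fin_cases i <;> fin_cases k
    · simp
    · simp; linear_combination -hb
    · simp
    · simp; linear_combination -hd

/-- the decomposition into cosets -/
noncomputable def repEquiv (hpN : ¬ p ∣ N) : Option (Fin p) × Gamma0 N ≃ DD N p :=
  Equiv.ofBijective (fun x => lm x.2 (rep N p x.1)) ⟨fun x y h => rep_inj x y h, rep_surj hpN⟩

end cosets

/-! ## the sum over the matrices -/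

section final

variable {N p : ℕ} [NeZero N] [hp : Fact p.Prime]

theorem measurePreserving_gl (δ : DD N p) :
    MeasurePreserving (fun z : ℍ => gl δ • z) volume volume :=
  measurePreserving_smul (gl δ) (volume : Measure ℍ)

theorem measurable_gl (δ : DD N p) : Measurable (fun z : ℍ => gl δ • z) :=
  (continuous_const_smul (gl δ)).measurable

/-- the integrand -/
noncomputable def KK (f g : SF N 2) (δ : DD N p) (z : ℍ) : ℂ :=
  ((rho N z).toReal : ℂ) * (((rho N (gl δ • z)).toReal : ℂ) *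
    ((starRingEnd ℂ) (sl f δ z) * g z * ((z.im : ℝ) : ℂ) ^ 2))

theorem meas_sf (f : SF N 2) : Measurable (f : ℍ → ℂ) := (CuspFormClass.holo f).continuous.measurable

theorem meas_sl (f : SF N 2) (δ : DD N p) : Measurable (fun z => sl f δ z) := by
  unfold sl
  refine Measurable.mul ?_ ((meas_sf f).comp (measurable_gl δ))
  exact (((measurable_const.mul measurable_coe).add measurable_const).pow_const 2).inv

theorem meas_Phi (f g : SF N 2) (δ : DD N p) :
    Measurable (fun z : ℍ => (starRingEnd ℂ) (sl f δ z) * g z * ((z.im : ℝ) : ℂ) ^ 2) := by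
  refine ((Complex.continuous_conj.measurable.comp (meas_sl f δ)).mul (meas_sf g)).mul ?_
  exact (Complex.measurable_ofReal.comp UpperHalfPlane.continuous_im.measurable).pow_const 2

/-- a bound for the integrand -/
theorem bound (f g : SF N 2) : ∃ C : ℝ, 0 ≤ C ∧ ∀ (δ : DD N p) (z : ℍ),
    ‖(starRingEnd ℂ) (sl f δ z) * g z * ((z.im : ℝ) : ℂ) ^ 2‖ ≤ C := by
  obtain ⟨A, hA⟩ := CuspFormClass.exists_bound f
  obtain ⟨B, hB⟩ := CuspFormClass.exists_bound g
  have e1 : ∀ z : ℍ, z.im ^ (((2 : ℤ) : ℝ) / 2) = z.im := by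
    intro z
    norm_num
  simp only [e1] at hA hB
  have hA0 : 0 ≤ A := by
    have h1 := (norm_nonneg _).trans (hA UpperHalfPlane.I)
    rw [UpperHalfPlane.I_im, div_one] at h1
    exact h1
  have hB0 : 0 ≤ B := by
    have h1 := (norm_nonneg _).trans (hB UpperHalfPlane.I)
    rw [UpperHalfPlane.I_im, div_one] at h1
    exact h1
  refine ⟨A * B, mul_nonneg hA0 hB0, fun δ z => ?_⟩
  have hD := D_ne δ z
  have hp1 : (1 : ℝ) ≤ p := by exact_mod_cast hp.out.one_lt.le
  have hn : 0 < ‖((δ.1 1 0 : ℂ) * z + (δ.1 1 1 : ℂ))‖ := norm_pos_iff.2 hD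
  rw [norm_mul, norm_mul, RCLike.norm_conj, norm_pow, Complex.norm_real,
    Real.norm_of_nonneg z.im_pos.le]
  have h1 : ‖sl f δ z‖ * z.im ≤ A := by
    unfold sl
    rw [norm_mul, norm_inv, norm_pow]
    have h2 := hA (gl δ • z)
    have h3 := im_gl δ z
    rw [Complex.normSq_eq_norm_sq] at h3
    have hq : 0 < (gl δ • z).im := (gl δ • z).im_pos
    rw [le_div_iff₀ hq, h3] at h2
    have hz := z.im_pos
    calc (‖((δ.1 1 0 : ℂ) * z + (δ.1 1 1 : ℂ))‖ ^ 2)⁻¹ * ‖f (gl δ • z)‖ * z.im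
        ≤ p * ((‖((δ.1 1 0 : ℂ) * z + (δ.1 1 1 : ℂ))‖ ^ 2)⁻¹ * ‖f (gl δ • z)‖ * z.im) :=
          le_mul_of_one_le_left (by positivity) hp1
      _ = ‖f (gl δ • z)‖ * (p * z.im / ‖((δ.1 1 0 : ℂ) * z + (δ.1 1 1 : ℂ))‖ ^ 2) := by
          field_simp
      _ ≤ A := h2
  have h2 : ‖g z‖ * z.im ≤ B := by
    have h3 := hB z
    rwa [le_div_iff₀ z.im_pos] at h3
  have hz := z.im_pos
  calc ‖sl f δ z‖ * ‖g z‖ * z.im ^ 2 = (‖sl f δ z‖ * z.im) * (‖g z‖ * z.im) := by ring
    _ ≤ A * B := mul_le_mul h1 h2 (by positivity) hA0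

theorem meas_KK (f g : SF N 2) (δ : DD N p) : Measurable (KK f g δ) := by
  unfold KK
  refine (Complex.measurable_ofReal.comp (measurable_rho N).ennreal_toReal).mul ?_
  exact (Complex.measurable_ofReal.comp (((measurable_rho N).comp (measurable_gl δ)).ennreal_toReal)).mul
    (meas_Phi f g δ)

theorem tsum_rho_gl (hpN : ¬ p ∣ N) (z : ℍ) :
    ∑' δ : DD N p, rho N (gl δ • z) = (p + 1 : ℕ) := by
  have h0 : ∑' c : Option (Fin p) × Gamma0 N, rho N (gl (repEquiv hpN c) • z) =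
      ∑' i, ∑' γ, rho N (gl (repEquiv hpN (i, γ)) • z) :=
    ENNReal.tsum_prod (f := fun i γ => rho N (gl (repEquiv hpN (i, γ)) • z))
  rw [← (repEquiv hpN).tsum_eq (fun δ : DD N p => rho N (gl δ • z)), h0]
  have h1 : ∀ i : Option (Fin p), ∑' γ : Gamma0 N, rho N (gl (repEquiv hpN (i, γ)) • z) = 1 := by
    intro i
    rw [← tsum_rho N (gl (rep N p i) • z)]
    exact tsum_congr fun γ => by
      change rho N (gl (lm γ (rep N p i)) • z) = _
      rw [lm_smul]
  rw [tsum_congr h1, tsum_fintype]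
  simp

instance countDD : Countable (DD N p) := by
  have : Countable (Matrix (Fin 2) (Fin 2) ℤ) := inferInstanceAs (Countable (Fin 2 → Fin 2 → ℤ))
  unfold DD
  exact Subtype.countable

theorem lint_KK (hpN : ¬ p ∣ N) (f g : SF N 2) :
    ∑' δ : DD N p, ∫⁻ z, ‖KK f g δ z‖ₑ ≠ ∞ := by
  obtain ⟨C, hC0, hC⟩ := bound (p := p) f g
  have h1 : ∀ δ : DD N p, ∫⁻ z, ‖KK f g δ z‖ₑ ≤ ∫⁻ z, rho N z * (rho N (gl δ • z) * ENNReal.ofReal C) := by
    intro δ
    refine lintegral_mono fun z => ?_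
    unfold KK
    rw [enorm_mul, enorm_mul]
    refine mul_le_mul' ?_ (mul_le_mul' ?_ ?_)
    · rw [← ofReal_norm, Complex.norm_real, Real.norm_of_nonneg ENNReal.toReal_nonneg]
      exact ENNReal.ofReal_toReal_le
    · rw [← ofReal_norm, Complex.norm_real, Real.norm_of_nonneg ENNReal.toReal_nonneg]
      exact ENNReal.ofReal_toReal_le
    · rw [← ofReal_norm]
      exact ENNReal.ofReal_le_ofReal (hC δ z)
  refine ne_top_of_le_ne_top ?_ (ENNReal.tsum_le_tsum h1)
  have h3 : ∫⁻ z : ℍ, ∑' δ : DD N p, rho N z * (rho N (gl δ • z) * ENNReal.ofReal C) =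
      ∑' δ : DD N p, ∫⁻ z : ℍ, rho N z * (rho N (gl δ • z) * ENNReal.ofReal C) :=
    lintegral_tsum fun δ => ((measurable_rho N).mul
      (((measurable_rho N).comp (measurable_gl δ)).mul measurable_const)).aemeasurable
  rw [← h3]
  have h2 : ∀ z : ℍ, ∑' δ : DD N p, rho N z * (rho N (gl δ • z) * ENNReal.ofReal C) =
      rho N z * (((p + 1 : ℕ) : ℝ≥0∞) * ENNReal.ofReal C) := by
    intro z
    rw [ENNReal.tsum_mul_left, ENNReal.tsum_mul_right, tsum_rho_gl hpN]
  simp_rw [h2]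
  rw [lintegral_mul_const _ (measurable_rho N)]
  exact ENNReal.mul_ne_top (lintegral_rho N)
    (ENNReal.mul_ne_top (ENNReal.natCast_ne_top _) ENNReal.ofReal_ne_top)

end final

section final2

variable {N p : ℕ} [NeZero N] [hp : Fact p.Prime]

/-- the sum -/
noncomputable def JJ (p : ℕ) [Fact p.Prime] (f g : SF N 2) : ℂ := ∑' δ : DD N p, ∫ z, KK f g δ z

theorem summable_int (hpN : ¬ p ∣ N) (f g : SF N 2) :
    Summable fun δ : DD N p => ∫ z, KK f g δ z := by
  have h := lint_KK (p := p) hpN f g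
  have h1 : ∀ δ : DD N p, ∫⁻ z, ‖KK f g δ z‖ₑ ≠ ∞ := fun δ => ENNReal.ne_top_of_tsum_ne_top h δ
  refine Summable.of_norm_bounded (g := fun δ : DD N p => (∫⁻ z, ‖KK f g δ z‖ₑ).toReal)
    (ENNReal.summable_toReal h) fun δ => ?_
  have h2 := enorm_integral_le_lintegral_enorm (μ := (volume : Measure ℍ)) (KK f g δ)
  rw [← ofReal_norm] at h2
  exact (ENNReal.ofReal_le_iff_le_toReal (h1 δ)).1 h2

theorem hasSum_rho (w : ℍ) : HasSum (fun γ : Gamma0 N => ((rho N ((γ : SL(2, ℤ)) • w)).toReal : ℂ)) 1 := by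
  have h := tsum_rho N w
  have h1 : ∑' γ : Gamma0 N, rho N ((γ : SL(2, ℤ)) • w) ≠ ∞ := by rw [h]; exact ENNReal.one_ne_top
  have h2 := ENNReal.hasSum_toReal h1
  rw [← ENNReal.tsum_toReal_eq fun γ => ENNReal.ne_top_of_tsum_ne_top h1 γ, h,
    ENNReal.toReal_one] at h2
  have h3 := Complex.hasSum_ofReal.2 h2
  simpa using h3

theorem KK_lm (f g : SF N 2) (γ : Gamma0 N) (δ : DD N p) (z : ℍ) :
    KK f g (lm γ δ) z = ((rho N ((γ : SL(2, ℤ)) • gl δ • z)).toReal : ℂ) *
      (((rho N z).toReal : ℂ) * ((starRingEnd ℂ) (sl f δ z) * g z * ((z.im : ℝ) : ℂ) ^ 2)) := by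
  unfold KK
  rw [lm_smul, sl_lm]
  ring

theorem sum_row (hpN : ¬ p ∣ N) (f g : SF N 2) (δ : DD N p) :
    ∑' γ : Gamma0 N, ∫ z, KK f g (lm γ δ) z =
      ∫ z, ((rho N z).toReal : ℂ) * ((starRingEnd ℂ) (sl f δ z) * g z * ((z.im : ℝ) : ℂ) ^ 2) := by
  have hc : Countable (Gamma0 N) := by
    have : Countable (Matrix (Fin 2) (Fin 2) ℤ) := inferInstanceAs (Countable (Fin 2 → Fin 2 → ℤ))
    have : Countable SL(2, ℤ) := Subtype.countable
    exact Subtype.countable
  have hinj : Function.Injective (fun γ : Gamma0 N => lm γ δ) := by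
    intro γ γ' h
    have h1 := congrArg (fun δ : DD N p => δ.1) h
    simp only [lm] at h1
    have h2 : (γ : SL(2, ℤ)).1 * δ.1 * δ.1.adjugate = (γ' : SL(2, ℤ)).1 * δ.1 * δ.1.adjugate := by
      rw [h1]
    rw [Matrix.mul_assoc, Matrix.mul_assoc, Matrix.mul_adjugate, δ.2.1] at h2
    apply Subtype.ext
    apply Subtype.ext
    ext i j
    have h3 := congrFun (congrFun h2 i) j
    rw [Matrix.mul_smul, Matrix.mul_smul, Matrix.smul_apply, Matrix.smul_apply, Matrix.mul_one,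
      Matrix.mul_one] at h3
    have hp0 : (p : ℤ) ≠ 0 := Int.natCast_ne_zero.2 hp.out.ne_zero
    exact mul_left_cancel₀ hp0 h3
  have h0 : ∑' γ : Gamma0 N, ∫⁻ z, ‖KK f g (lm γ δ) z‖ₑ ≠ ∞ :=
    ne_top_of_le_ne_top (lint_KK (p := p) hpN f g)
      (ENNReal.tsum_comp_le_tsum_of_injective hinj fun δ' => ∫⁻ z, ‖KK f g δ' z‖ₑ)
  rw [← integral_tsum (fun γ => (meas_KK f g (lm γ δ)).aestronglyMeasurable) h0]
  refine integral_congr_ae (Eventually.of_forall fun z => ?_)
  simp only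
  rw [tsum_congr fun γ => KK_lm f g γ δ z, tsum_mul_right, (hasSum_rho (gl δ • z)).tsum_eq, one_mul]

theorem JJ_eq (hpN : ¬ p ∣ N) (f g : SF N 2) : JJ p f g = ∑ i : Option (Fin p),
    ∫ z, ((rho N z).toReal : ℂ) * ((starRingEnd ℂ) (sl f (rep N p i) z) * g z *
      ((z.im : ℝ) : ℂ) ^ 2) := by
  unfold JJ
  rw [← (repEquiv hpN).tsum_eq (fun δ : DD N p => ∫ z, KK f g δ z)]
  have h1 := (repEquiv hpN).summable_iff.2 (summable_int (p := p) hpN f g)
  have h2 : ∑' c : Option (Fin p) × Gamma0 N, ∫ z, KK f g (repEquiv hpN c) z =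
      ∑' i, ∑' γ, ∫ z, KK f g (repEquiv hpN (i, γ)) z := h1.tsum_prod
  rw [h2, tsum_fintype]
  refine Finset.sum_congr rfl fun i _ => ?_
  rw [← sum_row hpN f g (rep N p i)]
  rfl

/-- the operator -/
theorem T_eq (hpN : ¬ p ∣ N) {f : SF N 2} {T : SF N 2} (hT : ∀ z : ℍ,
    T z = Pool.Agent.W97.TW.heckeT N 2 p f z) (z : ℍ) :
    T z = p * ∑ i : Option (Fin p), sl f (rep N p i) z := by
  have hp0 : (p : ℂ) ≠ 0 := Nat.cast_ne_zero.2 hp.out.ne_zero
  have hpos : (0 : ℝ) < p := Nat.cast_pos.2 hp.out.pos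
  rw [hT, Fintype.sum_option]
  unfold Pool.Agent.W97.TW.heckeT
  rw [if_neg hpN]
  have h1 : sl f (rep N p none) z = f (ofComplex ((p : ℂ) * z)) := by
    unfold sl
    have h2 : gl (rep N p none) • z = ofComplex ((p : ℂ) * z) := by
      ext
      rw [coe_gl, ofComplex_apply_of_im_pos (by
        rw [Complex.mul_im]
        simp only [Complex.natCast_re, Complex.natCast_im, zero_mul, add_zero]
        exact mul_pos hpos z.im_pos)]
      simp [rep]
    rw [h2]
    simp [rep]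
  have h2 : ∀ j : Fin p, sl f (rep N p (some j)) z =
      ((p : ℂ) ^ 2)⁻¹ * f (ofComplex (((z : ℂ) + (j.val : ℕ)) / p)) := by
    intro j
    unfold sl
    have h3 : gl (rep N p (some j)) • z = ofComplex (((z : ℂ) + (j.val : ℕ)) / p) := by
      ext
      rw [coe_gl, ofComplex_apply_of_im_pos (by
        rw [Complex.div_natCast_im]
        simp only [Complex.add_im, Complex.natCast_im, add_zero]
        exact div_pos z.im_pos hpos)]
      simp [rep]
    rw [h3]
    simp [rep]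
  rw [h1, Finset.sum_congr rfl fun j _ => h2 j, ← Finset.mul_sum,
    Fin.sum_univ_eq_sum_range (fun b => f (ofComplex (((z : ℂ) + (b : ℕ)) / p))) p]
  norm_num
  field_simp

theorem int_Phi (f g : SF N 2) (δ : DD N p) : Integrable fun z : ℍ =>
    ((rho N z).toReal : ℂ) * ((starRingEnd ℂ) (sl f δ z) * g z * ((z.im : ℝ) : ℂ) ^ 2) := by
  obtain ⟨C, -, hC⟩ := bound (p := p) f g
  exact integrable_mul (integrable_rho N) (meas_Phi f g δ) (hC δ)

theorem meas_pet (f g : SF N 2) : Measurable (petersson 2 f g) := by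
  unfold petersson
  refine ((Complex.continuous_conj.measurable.comp (meas_sf f)).mul (meas_sf g)).mul ?_
  exact (Complex.measurable_ofReal.comp UpperHalfPlane.continuous_im.measurable).pow_const _

theorem pet_T (hpN : ¬ p ∣ N) {f g T : SF N 2} (hT : ∀ z : ℍ,
    T z = Pool.Agent.W97.TW.heckeT N 2 p f z) : pet N 2 T g = 2 * (p * JJ p f g) := by
  obtain ⟨C, hC⟩ := CuspFormClass.petersson_bounded_left 2
    (Gamma0 N : Subgroup (GL (Fin 2) ℝ)) T g
  rw [pet_eq (meas_pet T g) hC, JJ_eq hpN, ← integral_finsetSum _ fun i _ => int_Phi f g _]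
  congr 1
  rw [← integral_const_mul]
  refine integral_congr_ae (Eventually.of_forall fun z => ?_)
  simp only
  unfold petersson
  rw [T_eq hpN hT z, map_mul, map_sum, Complex.conj_natCast, ← Finset.mul_sum, ← Finset.sum_mul,
    ← Finset.sum_mul, zpow_ofNat]
  ring

/-- the symmetry -/
theorem JJ_symm (hpN : ¬ p ∣ N) (f g : SF N 2) : JJ p f g = (starRingEnd ℂ) (JJ p g f) := by
  unfold JJ
  rw [Complex.conj_tsum, ← (adj (N := N) (p := p)).tsum_eq
    (fun δ : DD N p => (starRingEnd ℂ) (∫ z, KK g f δ z))]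
  refine tsum_congr fun δ => ?_
  have e := integral_mp (measurePreserving_gl δ)
    (G := fun w => (starRingEnd ℂ) (KK g f (adj δ) w))
    (Complex.continuous_conj.measurable.comp (meas_KK g f (adj δ)))
  rw [← integral_conj, ← e]
  refine integral_congr_ae (Eventually.of_forall fun z => ?_)
  simp only
  unfold KK
  rw [adj_smul, key f g δ z]
  simp only [map_mul, Complex.conj_ofReal, map_pow, Complex.conj_conj]
  ring

end final2

end Pool.Agent.K4H13.CV.SaP

namespace Pool.Agent.K4H13.CV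

open W388.LV SaP

/-- **the Hecke operators are self-adjoint in weight two** -/
theorem sa2 : S_SA2 := by
  intro N _ p hp hpN f g f' g' hf hg
  haveI : Fact p.Prime := ⟨hp⟩
  obtain ⟨T, hT1, hT2⟩ := Pool.Agent.W191.EX.t_hecke N 2 p hp
  have e1 : f' = T f := t_ext N 2 f' (T f) fun n => (hf n).trans (hT2 f n).symm
  have e2 : g' = T g := t_ext N 2 g' (T g) fun n => (hg n).trans (hT2 g n).symm
  rw [e1, e2, pet_T hpN (hT1 f), (q_pet N 2).1 (T g) f, pet_T hpN (hT1 g), JJ_symm hpN f g]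
  simp only [map_mul, Complex.conj_natCast, map_ofNat]

end Pool.Agent.K4H13.CV
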