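import Pool.Agent.K4H13.CV.Ex2a
import Pool.Agent.K4H13.CV.Sa2

/-!
# Project CV: the newform basis of prime level and weight two
-/

set_option autoImplicit false

open Complex UpperHalfPlane MatrixGroups CongruenceSubgroup

namespace Pool.Agent.K4H13.CV

open W388.LV

/-- **For `N` prime the newforms of weight two are an orthogonal basis.** -/
theorem newform_basis : ∀ (N : ℕ) [NeZero N], N.Prime → ∃ B : Finset (SF N 2),
    IsNewBasis N 2 B ∧ ∀ f : SF N 2, f ∈ B ↔ ∃ ε : ℝ, W388.IsNewf N 2 f ε :=
  exists_basis' sa2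

end Pool.Agent.K4H13.CV
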