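import Pool.Agent.K4H13.CV.Ex2b
import Pool.Agent.W308.EX.Newf
import Pool.Agent.W308.EX.Mul
import Pool.Agent.W125.EX.Conj
import Pool.Agent.W108.EX.Fricke
import Pool.Agent.W335.FrickeT

/-!
# Project CV: newforms of prime level and weight two (multiplicity one, real coefficients, sign)
-/

set_option autoImplicit false

open Complex UpperHalfPlane MatrixGroups CongruenceSubgroup

namespace Pool.Agent.K4H13.CV

open W388 W388.LV Pool.Agent.W347.LV
open Pool.Agent.W308.EX (EV isT_iff bf_zero_coeff pet_smul_left isOld_of_supp)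

/-- the eigenvalues of a newform are real -/
lemma real_of_sa2 (hSA : S_SA2) {N : ℕ} [NeZero N] {f : SF N 2} (hf1 : bf f 1 = 1) {p : ℕ}
    (hp : p.Prime) (hpN : ¬ p ∣ N) {a : ℂ} (hT : IsT N 2 p f (a • f : SF N 2)) :
    (starRingEnd ℂ) a = a := by
  have hPet := W388.LV.t_pet
  have h1 := hSA N p hp hpN f f _ _ hT hT
  rw [pet_smul_left hPet, (hPet N 2).2.2.1] at h1
  have hf0 : f ≠ 0 := fun h => by rw [h, bf_zero] at hf1; exact zero_ne_one hf1
  have h2 := ((hPet N 2).2.2.2 f).2.2 hf0
  have h3 : pet N 2 f f ≠ 0 := fun h => by rw [h] at h2; exact lt_irrefl _ h2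
  exact mul_right_cancel₀ h3 h1

/-- multiplicity one -/
lemma one2 {N : ℕ} [NeZero N] (hN : N.Prime) {f g : SF N 2} {χ : ℕ → ℂ} (hf1 : bf f 1 = 1)
    (evf : EV N 2 χ (bf f)) (evg : EV N 2 χ (bf g)) : g = (bf g 1 • f : SF N 2) := by
  set d : SF N 2 := g + (-(bf g 1)) • f with hd
  have bd : ∀ n, bf d n = bf g n + (-(bf g 1)) * bf f n := fun n => by rw [hd, bf_add, bf_smul]
  have evd : EV N 2 χ (bf d) := by
    have := evg.add evf (-(bf g 1))
    intro p hp hpN n
    simp only [bd]
    exact this p hp hpN n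
  have d1 : bf d 1 = 0 := by rw [bd, hf1]; ring
  have dz : d = 0 := old_zero (isOld_of_supp W349.EX.t_old (evd.zero hN d1))
  apply t_ext N 2
  intro n
  have := bd n
  rw [dz, bf_zero] at this
  rw [bf_smul]
  linear_combination -this

theorem new2 (hSA : S_SA2) : S_NEW2 := by
  intro N _ hN
  have hPet := W388.LV.t_pet
  -- eigenvalues
  have hex : ∀ f : SF N 2, IsNew N 2 f → ∃ χ : ℕ → ℂ, ∀ p : ℕ, p.Prime → ¬ p ∣ N →
      IsT N 2 p f (χ p • f : SF N 2) := by
    intro f hf
    classical
    refine ⟨fun p => if h : p.Prime ∧ ¬ p ∣ N then (hf.hecke p h.1 h.2).choose else 0,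
      fun p hp hpN => ?_⟩
    simp only
    rw [dif_pos (⟨hp, hpN⟩ : p.Prime ∧ ¬ p ∣ N)]
    exact (hf.hecke p hp hpN).choose_spec
  refine ⟨fun f hf => ?_, fun f g hf hg hfg => ?_⟩
  · obtain ⟨χ, hT⟩ := hex f hf
    have evf : EV N 2 χ (bf f) := fun p hp hpN => (isT_iff hpN).1 (hT p hp hpN)
    have hreal : ∀ p : ℕ, p.Prime → ¬ p ∣ N → (starRingEnd ℂ) (χ p) = χ p := fun p hp hpN =>
      real_of_sa2 hSA hf.one hp hpN (hT p hp hpN)
    have one : ∀ g : SF N 2, EV N 2 χ (bf g) → g = (bf g 1 • f : SF N 2) := fun g hg =>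
      one2 hN hf.one evf hg
    -- the operator at `N`
    have hU : ∀ n : ℕ, bf f (N * n) = bf f N * bf f n := by
      obtain ⟨T, -, hTT⟩ := Pool.Agent.W191.EX.t_hecke N 2 N hN
      have hb : ∀ n, bf (T f) n = bf f (N * n) := fun n => by
        rw [hTT f n, if_pos (dvd_refl N), add_zero]
      have ev : EV N 2 χ (bf (T f)) := by
        intro p hp hpN n
        rw [hb, hb]
        have e1 := evf p hp hpN (N * n)
        have e2 : p * (N * n) = N * (p * n) := by ring
        rw [e2] at e1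
        rw [e1]
        congr 1
        by_cases hpn : p ∣ n
        · obtain ⟨q, rfl⟩ := hpn
          have e3 : N * (p * q) = p * (N * q) := by ring
          rw [if_pos (e3 ▸ dvd_mul_right p _), if_pos (dvd_mul_right p q), hb,
            Nat.mul_div_cancel_left _ hp.pos, e3, Nat.mul_div_cancel_left _ hp.pos]
        · have : ¬ p ∣ N * n := fun hd => (hp.dvd_mul.1 hd).elim hpN hpn
          rw [if_neg hpn, if_neg this]
      have h1 := one (T f) ev
      intro n
      have h2 : bf (T f) n = bf (T f) 1 * bf f n := by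
        conv_lhs => rw [h1]
        rw [bf_smul]
      rw [hb, hb, mul_one] at h2
      exact h2
    obtain ⟨hmul, hpow⟩ := Pool.Agent.W308.EX.t_mul N 2 (bf f) (bf_zero_coeff f) hf.one fun p hp => by
      by_cases hpN : p ∣ N
      · have : p = N := (Nat.prime_dvd_prime_iff_eq hp hN).1 hpN
        subst this
        refine ⟨bf f p, fun n => ?_⟩
        rw [if_pos hpN, add_zero, hU]
      · refine ⟨χ p, fun n => ?_⟩
        rw [if_neg hpN]
        exact (evf p hp hpN n).symm
    -- real coefficients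
    have hre : ∀ n, (bf f n).im = 0 := by
      obtain ⟨g, hg⟩ := W125.EX.t_conj N 2 f
      have evg : EV N 2 χ (bf g) := by
        intro p hp hpN n
        have e1 := congrArg (starRingEnd ℂ) (evf p hp hpN n)
        rw [map_mul, map_add, hreal p hp hpN] at e1
        rw [hg, hg, e1]
        congr 1
        split_ifs with hd
        · rw [map_mul, map_zpow₀, Complex.conj_natCast, hg]
        · rw [map_zero]
      have h1 := one g evg
      have h2 : bf g 1 = 1 := by rw [hg, hf.one, map_one]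
      rw [h2, one_smul] at h1
      intro n
      have h3 := hg n
      rw [h1] at h3
      exact Complex.conj_eq_iff_im.1 h3.symm
    -- the Fricke involution
    obtain ⟨W, hW, hWW⟩ := Pool.Agent.W108.EX.t_fricke N 2
    have evW : ∀ p : ℕ, p.Prime → ¬ p ∣ N → IsT N 2 p (W f) (χ p • W f : SF N 2) := by
      intro p hp hpN
      have h1 := Pool.W335.FrickeT.t_frickeT N 2 p hp hpN f (W f) _ _ (hW f) (hW (χ p • f : SF N 2)) (hT p hp hpN)
      rwa [map_smul] at h1
    have h1 : W f = (bf (W f) 1 • f : SF N 2) :=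
      one (W f) fun p hp hpN => (isT_iff hpN).1 (evW p hp hpN)
    set c := bf (W f) 1 with hc
    have h2 : c * c = 1 := by
      have h3 : f = (c • (c • f) : SF N 2) := by
        conv_lhs => rw [← hWW f, h1, map_smul, h1]
      have h4 := congrArg (fun g : SF N 2 => bf g 1) h3
      simp only [bf_smul, hf.one, mul_one] at h4
      exact h4.symm
    have h3 : c = 1 ∨ c = -1 := mul_self_eq_one_iff.1 h2
    have key : ∀ ε : ℝ, (ε : ℂ) = c → (ε = 1 ∨ ε = -1) → W388.IsNewf N 2 f ε := by
      intro ε hε hs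
      refine ⟨hf.one, hre, hmul, hpow, hs, fun τ τ' hτ => ?_⟩
      have h5 := hW f τ τ' hτ
      have h6 : (W f) τ = c * f τ := by
        rw [h1]; rfl
      rw [h5, h6, hε]
      ring
    rcases h3 with h3 | h3
    · exact ⟨1, key 1 (by rw [h3]; norm_num) (Or.inl rfl)⟩
    · exact ⟨-1, key (-1) (by rw [h3]; norm_num) (Or.inr rfl)⟩
  · obtain ⟨χ, hT⟩ := hex f hf
    obtain ⟨ψ, hS⟩ := hex g hg
    by_cases hall : ∀ p : ℕ, p.Prime → ¬ p ∣ N → χ p = ψ p
    · exfalso
      apply hfg
      have h1 := one2 hN hf.one (fun p hp hpN => (isT_iff hpN).1 (hT p hp hpN))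
        (g := g) fun p hp hpN => by
          rw [hall p hp hpN]; exact (isT_iff hpN).1 (hS p hp hpN)
      rw [hg.one, one_smul] at h1
      exact h1.symm
    · push Not at hall
      obtain ⟨p, hp, hpN, hne⟩ := hall
      have h1 := hSA N p hp hpN f g _ _ (hT p hp hpN) (hS p hp hpN)
      rw [pet_smul_left hPet, (hPet N 2).2.2.1,
        real_of_sa2 hSA hf.one hp hpN (hT p hp hpN)] at h1
      have h2 : (χ p - ψ p) * pet N 2 f g = 0 := by linear_combination h1
      exact (mul_eq_zero.1 h2).resolve_left (sub_ne_zero.2 hne)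

/-- the newform basis, from the self-adjointness -/
theorem exists_basis' (h : S_SA2) : ∀ (N : ℕ) [NeZero N], N.Prime →
    ∃ B : Finset (SF N 2), IsNewBasis N 2 B ∧
      ∀ f : SF N 2, f ∈ B ↔ ∃ ε : ℝ, W388.IsNewf N 2 f ε :=
  exists_basis h (new2 h)

end Pool.Agent.K4H13.CV
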