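import Pool.Agent.K4H13.CV.Ex20
import Pool.Agent.K4H13.CV.Two
import Pool.Agent.W349.EX.Basis
import Pool.Agent.W349.EX.Old
import Pool.Agent.W333.EX.Fin
import Pool.Agent.W191.EX.Hecke
import Pool.Agent.W388.LV.Ext
import Pool.Agent.W227.LV.Pet

/-!
# Project CV: the newform basis of prime level and weight two exists
-/

set_option autoImplicit false

open Complex Filter Topology Set UpperHalfPlane MatrixGroups CongruenceSubgroup

namespace Pool.Agent.K4H13.CV

open W388.LV
open Pool.Agent.W347.LV (bf_add bf_smul bf_zero)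
open Pool.Agent.Y18.BSD

theorem basis2 (hSA : S_SA2) (hNewf : S_NEW2) : ∀ (N : ℕ) [NeZero N], N.Prime →
    ∃ B : Finset (SF N 2), (∀ f : SF N 2, f ∈ B ↔ IsNew N 2 f) ∧
      ∀ f : SF N 2, (∀ g ∈ B, pet N 2 g f = 0) → IsOld N 2 f := by
  intro N _ hN
  have hP := W388.LV.t_pet N 2
  haveI : FiniteDimensional ℂ (SF N 2) := Pool.Agent.W333.EX.t_fin N 2
  -- the inner product
  let core : InnerProductSpace.Core ℂ (SF N 2) :=
    { inner := fun f g => pet N 2 f g
      conj_inner_symm := fun f g => (hP.1 g f).symm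
      re_inner_nonneg := fun f => (hP.2.2.2 f).2.1
      add_left := fun f g h => by
        change pet N 2 (f + g : SF N 2) h = pet N 2 f h + pet N 2 g h
        rw [hP.1 h (f + g), hP.1 h f, hP.1 h g, hP.2.1, map_add]
      smul_left := fun f g c => by
        change pet N 2 (c • f : SF N 2) g = (starRingEnd ℂ) c * pet N 2 f g
        rw [hP.1 g (c • f), hP.1 g f, hP.2.2.1, map_mul]
      definite := fun f hf => by
        by_contra hne
        have h1 := (hP.2.2.2 f).2.2 hne
        have h2 : pet N 2 f f = 0 := hf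
        rw [h2] at h1
        simp at h1 }
  letI : NormedAddCommGroup (SF N 2) := core.toNormedAddCommGroup
  letI : InnerProductSpace ℂ (SF N 2) := InnerProductSpace.ofCore core.toCore
  let ι := {p : ℕ // p.Prime ∧ ¬ p ∣ N}
  choose T hT1 hT2 using fun p : ι => Pool.Agent.W191.EX.t_hecke N 2 p.1 p.2.1
  have hsym : ∀ (i : ι) (x y : SF N 2), pet N 2 (T i x) y = pet N 2 x (T i y) := by
    intro i x y
    exact hSA N i.1 i.2.1 i.2.2 x y (T i x) (T i y) (hT2 i x) (hT2 i y)
  have hcomm : ∀ (i j : ι) (x : SF N 2), T i (T j x) = T j (T i x) := by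
    intro i j x
    by_cases hij : i = j
    · rw [hij]
    · have hne : i.1 ≠ j.1 := fun h => hij (Subtype.ext h)
      apply t_ext N 2
      intro n
      rw [W349.EX.comm_coeff i.2.1 j.2.1 i.2.2 j.2.2 hne x (T j x) _ (hT2 j x) (hT2 i _) n,
        W349.EX.comm_coeff j.2.1 i.2.1 j.2.2 i.2.2 hne.symm x (T i x) _ (hT2 i x) (hT2 j _) n]
      rw [mul_comm j.1 i.1, mul_comm ((j.1 : ℂ) ^ ((2 : ℤ) - 1))]
      ring
  have hIsT : ∀ (i : ι) (x : SF N 2) (a : ℂ), T i x = a • x → IsT N 2 i.1 x (a • x : SF N 2) := by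
    intro i x a h
    rw [← h]; exact hT2 i x
  have main := W349.EX.abstract_basis T hsym hcomm (W349.EX.oldSub N 2)
    (fun i x hx => W349.EX.old_hecke hN Pool.Agent.W191.EX.t_hecke i.2.1 i.2.2 x (T i x) hx (hT2 i x))
    {f | IsNew N 2 f} ?_ (fun x hx y hy hxy => (hNewf N hN).2 x y hx hy hxy) ?_ ?_
  · obtain ⟨hfin, hspan⟩ := main
    refine ⟨hfin.toFinset, fun f => by simp, fun f hf => ?_⟩
    exact hspan f fun y hy => hf y (by simpa using hy)
  · intro x hx0 hxO heig
    choose a ha using heig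
    have h1 : bf x 1 ≠ 0 := by
      intro h1
      apply hx0
      have hsup := W349.EX.support x h1 (fun p hp hpN => ⟨a ⟨p, hp, hpN⟩, fun n => by
        have h2 := hIsT ⟨p, hp, hpN⟩ x _ (ha ⟨p, hp, hpN⟩) n
        rw [bf_smul, if_neg hpN] at h2
        exact h2⟩) hN
      obtain ⟨h, hh⟩ := W349.EX.t_old N 2 x hsup
      have hxold : IsOld N 2 x := by
        refine ⟨0, h, fun n => ?_⟩
        rw [bf_zero, zero_add]
        by_cases hn : N ∣ n
        · rw [if_pos hn, hh, Nat.mul_div_cancel' hn]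
        · rw [if_neg hn, hsup n hn]
      have h2 := (Submodule.mem_orthogonal (W349.EX.oldSub N 2) x).mp hxO x hxold
      exact inner_self_eq_zero.mp h2
    refine ⟨bf x 1, (bf x 1)⁻¹ • x, ?_, ?_⟩
    · refine ⟨?_, ?_, ?_⟩
      · rw [bf_smul, inv_mul_cancel₀ h1]
      · intro p hp hpN
        refine ⟨a ⟨p, hp, hpN⟩, ?_⟩
        have h2 : T ⟨p, hp, hpN⟩ ((bf x 1)⁻¹ • x) = a ⟨p, hp, hpN⟩ • ((bf x 1)⁻¹ • x) := by
          rw [map_smul, ha ⟨p, hp, hpN⟩, smul_comm]
        exact hIsT ⟨p, hp, hpN⟩ _ _ h2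
      · intro g hg
        rw [hP.2.2.1]
        have h2 := (Submodule.mem_orthogonal (W349.EX.oldSub N 2) x).mp hxO g hg
        have h3 : pet N 2 g x = 0 := h2
        rw [h3, mul_zero]
    · rw [smul_smul, mul_inv_cancel₀ h1, one_smul]
  · intro x hx h0
    have := hx.one
    rw [h0, bf_zero] at this
    exact zero_ne_one this
  · intro x hx
    rw [Submodule.mem_orthogonal]
    intro o ho
    exact hx.new o ho

/-- there is no cusp form of weight two and level one -/
theorem sf_one_two (g : SF 1 2) : g = 0 := by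
  have key : ∀ G : Subgroup (GL (Fin 2) ℝ), G = 𝒮ℒ → ∀ f : CuspForm G 2, ∀ z, f z = 0 := by
    rintro _ rfl f z
    have h : f = 0 :=
      rank_zero_iff_forall_zero.1 (CuspForm.rank_eq_zero_of_weight_lt_twelve (by norm_num)) f
    rw [h]
    rfl
  have hG : (Gamma0 1 : Subgroup (GL (Fin 2) ℝ)) = 𝒮ℒ := by
    have h1 : Gamma0 1 = ⊤ := by
      ext γ
      rw [Gamma0_mem]
      exact ⟨fun _ => trivial, fun _ => Subsingleton.elim _ _⟩
    rw [h1, MonoidHom.range_eq_map]
  ext z
  exact key _ hG g z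

theorem old_zero {N : ℕ} [NeZero N] {f : SF N 2} (h : IsOld N 2 f) : f = 0 := by
  obtain ⟨g1, g2, hg⟩ := h
  apply t_ext N 2
  intro n
  rw [hg, sf_one_two g1, sf_one_two g2, bf_zero, bf_zero, bf_zero, ite_self, add_zero]

theorem new_of_newf {N : ℕ} [NeZero N] {f : SF N 2} {ε : ℝ} (hf : W388.IsNewf N 2 f ε) :
    IsNew N 2 f := by
  refine ⟨hf.one, fun p hp hpN => ⟨bf f p, fun n => ?_⟩, fun g hg => ?_⟩
  · rw [bf_smul, if_neg hpN]
    rcases Nat.eq_zero_or_pos n with rfl | hn
    · have h0 : bf f 0 = 0 := W388.coeff_zero f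
      rw [mul_zero, Nat.zero_div, h0]
      simp
    · have h1 := (hrel_of_newf hf).coeff hp hpN n hn.ne'
      have e : (p : ℂ) ^ ((2 : ℤ) - 1) = p := by norm_num
      rw [e]
      exact h1.symm
  · rw [old_zero hg]
    have hP := W388.LV.t_pet N 2
    have h2 : pet N 2 f (0 : SF N 2) = 0 := by
      have := hP.2.2.1 f 0 0
      rw [zero_smul, zero_mul] at this
      exact this
    rw [hP.1 f 0, h2, map_zero]

/-- **the newform basis exists** -/
theorem exists_basis (h : S_SA2) (hn : S_NEW2) : ∀ (N : ℕ) [NeZero N], N.Prime →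
    ∃ B : Finset (SF N 2), IsNewBasis N 2 B ∧ ∀ f : SF N 2, f ∈ B ↔ ∃ ε : ℝ, W388.IsNewf N 2 f ε := by
  intro N _ hN
  obtain ⟨B, hB, hold⟩ := basis2 h hn N hN
  have hP := W388.LV.t_pet N 2
  have hmem : ∀ f : SF N 2, f ∈ B ↔ ∃ ε : ℝ, W388.IsNewf N 2 f ε := fun f =>
    ⟨fun hf => (hn N hN).1 f ((hB f).1 hf), fun ⟨ε, hf⟩ => (hB f).2 (new_of_newf hf)⟩
  have horth : ∀ f ∈ B, ∀ g ∈ B, f ≠ g → pet N 2 f g = 0 := fun f hf g hg hfg =>
    (hn N hN).2 f g ((hB f).1 hf) ((hB g).1 hg) hfg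
  refine ⟨B, ⟨fun f hf => (hmem f).1 hf, horth, ?_⟩, hmem⟩
  rw [eq_top_iff]
  intro x _
  classical
  -- the projection of `x`
  have hsum : ∀ (s : Finset (SF N 2)) (c : SF N 2 → ℂ) (g : SF N 2),
      pet N 2 g (∑ f ∈ s, c f • f : SF N 2) = ∑ f ∈ s, c f * pet N 2 g f := by
    intro s c g
    induction s using Finset.induction_on with
    | empty =>
      rw [Finset.sum_empty, Finset.sum_empty]
      have := hP.2.2.1 g 0 0
      rw [zero_smul, zero_mul] at this
      exact this
    | insert a s ha ih =>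
      rw [Finset.sum_insert ha, Finset.sum_insert ha, hP.2.1, hP.2.2.1, ih]
  set c : SF N 2 → ℂ := fun f => pet N 2 f x / pet N 2 f f with hc
  set y : SF N 2 := ∑ f ∈ B, c f • f with hy
  have hyspan : y ∈ Submodule.span ℂ (B : Set (SF N 2)) :=
    Submodule.sum_mem _ fun f hf => Submodule.smul_mem _ _ (Submodule.subset_span hf)
  have hzero : x + (-1 : ℂ) • y = 0 := by
    apply old_zero
    apply hold
    intro g hg
    rw [hP.2.1, hP.2.2.1, hy, hsum, Finset.sum_eq_single_of_mem g hg]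
    · have hg0 : g ≠ 0 := by
        intro h0
        have h1 := ((hB g).1 hg).one
        rw [h0, bf_zero] at h1
        exact zero_ne_one h1
      have h2 := (hP.2.2.2 g).2.2 hg0
      have h3 : pet N 2 g g ≠ 0 := fun h => by
        rw [h] at h2
        exact lt_irrefl _ h2
      rw [hc]
      simp only
      rw [div_mul_cancel₀ _ h3]
      ring
    · intro f hf hfg
      rw [horth g hg f hf (Ne.symm hfg), mul_zero]
  have hxy : x = y := by
    have h4 : x + (-1 : ℂ) • y + y = y := by rw [hzero, zero_add]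
    rw [neg_one_smul, neg_add_cancel_right] at h4
    exact h4
  rw [hxy]
  exact hyspan

end Pool.Agent.K4H13.CV
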