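import Mathlib

/-!
# Project CV: from the product of the nonzero values to the number of small values
-/

set_option autoImplicit false

open Filter Topology

namespace Pool.Agent.K4H13.CV.Fin

/-- the number of small nonzero values -/
theorem count {ι : Type} [DecidableEq ι] (B : Finset ι) (v : ι → ℝ) (n C C1 A : ℝ) (hn : 1 < n)
    (hA : 0 < A) (hC : 0 ≤ C) (hC1 : 0 ≤ C1) (hv : ∀ f ∈ B, 0 ≤ v f) (hu : ∀ f ∈ B, v f ≤ n ^ C1)
    (hp : n ^ (-(C * (B.card : ℝ))) ≤ ∏ f ∈ B with v f ≠ 0, v f) :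
    (((B.filter fun f => v f ≠ 0 ∧ v f < n ^ (-A)).card : ℕ) : ℝ) ≤ (C + C1) / A * B.card := by
  have hn0 : 0 < n := by linarith
  set S := B.filter fun f => v f ≠ 0 ∧ v f < n ^ (-A) with hS
  set P := B.filter fun f => v f ≠ 0 with hP
  have hSP : S ⊆ P := fun f hf => by
    rw [hS, Finset.mem_filter] at hf
    rw [hP, Finset.mem_filter]
    exact ⟨hf.1, hf.2.1⟩
  have h1 : ∏ f ∈ P, v f ≤ n ^ (C1 * (B.card : ℝ)) * n ^ (-(A * (S.card : ℝ))) := by
    rw [← Finset.prod_sdiff hSP]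
    have h2 : ∏ f ∈ P \ S, v f ≤ n ^ (C1 * (B.card : ℝ)) := by
      have h3 : ∏ f ∈ P \ S, v f ≤ ∏ f ∈ P \ S, n ^ C1 := by
        refine Finset.prod_le_prod (fun f hf => ?_) (fun f hf => ?_)
        · exact hv f (Finset.mem_filter.1 (Finset.mem_sdiff.1 hf).1).1
        · exact hu f (Finset.mem_filter.1 (Finset.mem_sdiff.1 hf).1).1
      refine h3.trans ?_
      rw [Finset.prod_const, ← Real.rpow_natCast, ← Real.rpow_mul hn0.le]
      apply Real.rpow_le_rpow_of_exponent_le hn.le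
      apply mul_le_mul_of_nonneg_left _ hC1
      have h4 : (P \ S).card ≤ B.card :=
        Finset.card_le_card (Finset.sdiff_subset.trans (Finset.filter_subset _ _))
      exact_mod_cast h4
    have h3 : ∏ f ∈ S, v f ≤ n ^ (-(A * (S.card : ℝ))) := by
      have h4 : ∏ f ∈ S, v f ≤ ∏ f ∈ S, n ^ (-A) := by
        refine Finset.prod_le_prod (fun f hf => ?_) (fun f hf => ?_)
        · exact hv f (Finset.mem_filter.1 hf).1
        · exact (Finset.mem_filter.1 hf).2.2.le
      refine h4.trans ?_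
      rw [Finset.prod_const, ← Real.rpow_natCast, ← Real.rpow_mul hn0.le]
      apply Real.rpow_le_rpow_of_exponent_le hn.le
      linarith
    refine mul_le_mul h2 h3 ?_ (Real.rpow_nonneg hn0.le _)
    exact Finset.prod_nonneg fun f hf => hv f (Finset.mem_filter.1 hf).1
  have h2 := hp.trans h1
  rw [← Real.rpow_add hn0, Real.rpow_le_rpow_left_iff hn] at h2
  rw [div_mul_eq_mul_div, le_div_iff₀ hA]
  nlinarith

/-- the equivalence of the two lower limits -/
theorem liminf_iff {l : Filter ℕ} [l.NeBot] (b z : ℕ → ℝ) (s : ℝ → ℕ → ℝ) (K : ℝ) (hK : 0 ≤ K)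
    (hb : ∀ᶠ N in l, 0 < b N)
    (hz0 : ∀ᶠ N in l, 0 ≤ z N ∧ z N ≤ b N)
    (hs0 : ∀ A : ℝ, ∀ᶠ N in l, 0 ≤ s A N ∧ s A N ≤ z N)
    (hd : ∀ A : ℝ, 0 < A → ∀ᶠ N in l, z N - s A N ≤ K / A * b N) (θ : ℝ) :
    θ < liminf (fun N => z N / b N) l ↔ ∃ A : ℝ, 0 < A ∧ θ < liminf (fun N => s A N / b N) l := by
  have hzb : IsBoundedUnder (· ≥ ·) l (fun N => z N / b N) := by
    refine ⟨0, ?_⟩
    rw [eventually_map]
    filter_upwards [hb, hz0] with N h1 h2
    exact div_nonneg h2.1 h1.le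
  have hzc : IsCoboundedUnder (· ≥ ·) l (fun N => z N / b N) := by
    refine IsBoundedUnder.isCoboundedUnder_ge ⟨1, ?_⟩
    rw [eventually_map]
    filter_upwards [hb, hz0] with N h1 h2
    rw [div_le_one h1]
    exact h2.2
  have hsb : ∀ A, IsBoundedUnder (· ≥ ·) l (fun N => s A N / b N) := fun A => by
    refine ⟨0, ?_⟩
    rw [eventually_map]
    filter_upwards [hb, hs0 A] with N h1 h2
    exact div_nonneg h2.1 h1.le
  have hsc : ∀ A, IsCoboundedUnder (· ≥ ·) l (fun N => s A N / b N) := fun A => by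
    refine IsBoundedUnder.isCoboundedUnder_ge ⟨1, ?_⟩
    rw [eventually_map]
    filter_upwards [hb, hs0 A, hz0] with N h1 h2 h3
    rw [div_le_one h1]
    exact h2.2.trans h3.2
  constructor
  · intro h
    obtain ⟨t, ht1, ht2⟩ := exists_between h
    set A : ℝ := 2 * (K + 1) / (t - θ) with hA
    have htθ : 0 < t - θ := by linarith
    have hA0 : 0 < A := by positivity
    refine ⟨A, hA0, ?_⟩
    have h1 : ∀ᶠ N in l, t < z N / b N := eventually_lt_of_lt_liminf ht2 hzb
    have h2 : (θ + t) / 2 ≤ liminf (fun N => s A N / b N) l := by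
      refine le_liminf_of_le (hsc A) ?_
      filter_upwards [h1, hb, hd A hA0] with N h3 h4 h5
      have h6 : K / A ≤ (t - θ) / 2 := by
        rw [hA, div_div_eq_mul_div, div_le_div_iff₀ (by positivity) (by norm_num)]
        nlinarith
      rw [lt_div_iff₀ h4] at h3
      rw [le_div_iff₀ h4]
      nlinarith [mul_le_mul_of_nonneg_right h6 h4.le]
    linarith
  · rintro ⟨A, -, h⟩
    refine h.trans_le (liminf_le_liminf ?_ (hsb A) hzc)
    filter_upwards [hb, hs0 A] with N h1 h2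
    exact div_le_div_of_nonneg_right h2.2 h1.le

end Pool.Agent.K4H13.CV.Fin
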