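import Pool.Agent.K4H13.CV.FreC

/-!
# S_FREE : the module of vector valued forms is free
-/

set_option autoImplicit false

open Complex Filter Topology Set UpperHalfPlane MatrixGroups CongruenceSubgroup
open scoped Manifold ModularForm

namespace Pool.Agent.K4H13.CV

namespace FreP

variable {N : ℕ} [NeZero N]

attribute [local instance] XX_fintype

open Classical in
/-- the determinant of a family of forms -/
noncomputable def WW (G : XX N → ℍ → XX N → ℂ) : ℍ → ℂ :=
  fun z => (Matrix.of fun x j => G j z x).det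

open Classical in
theorem det_mem {M : Matrix (XX N) (XX N) (ℍ → ℂ)} (h : ∀ i j, M i j ∈ HB) : M.det ∈ HB := by
  rw [Matrix.det_apply]
  refine HB.sum_mem fun σ _ => ?_
  rw [Units.smul_def]
  exact zsmul_mem (HB.prod_mem fun i _ => h _ _) _

theorem WW_mem {G : XX N → ℍ → XX N → ℂ} {w : XX N → ℤ} (hG : ∀ j, VM N (w j) (G j)) :
    WW G ∈ HB := by
  classical
  have h1 : WW G = (Matrix.of fun x j => (fun z => G j z x) :
      Matrix (XX N) (XX N) (ℍ → ℂ)).det := by
    funext z
    have := (Pi.evalRingHom (fun _ : ℍ => ℂ) z).map_det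
      (Matrix.of fun x j => (fun z => G j z x) : Matrix (XX N) (XX N) (ℍ → ℂ))
    refine Eq.trans ?_ this.symm
    unfold WW
    congr!
  rw [h1]
  exact det_mem fun i j => vm_comp (hG j) i

theorem zpow_sum' {ι : Type} (s : Finset ι) (w : ι → ℤ) {d : ℂ} (hd : d ≠ 0) :
    d ^ (∑ j ∈ s, w j) = ∏ j ∈ s, d ^ w j := by
  classical
  induction s using Finset.induction_on with
  | empty => simp
  | insert a s ha ih => rw [Finset.sum_insert ha, Finset.prod_insert ha, zpow_add₀ hd, ih]

theorem WW_mod' (γ : SL(2, ℤ)) : ∃ s : ℂ, s * s = 1 ∧ ∀ (G : XX N → ℍ → XX N → ℂ) (w : XX N → ℤ),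
    (∀ j, VM N (w j) (G j)) → ∀ z, WW G (γ • z) = (denom γ z) ^ (∑ j, w j) * (s * WW G z) := by
  classical
  set τ : Equiv.Perm (XX N) := MulAction.toPerm (γ⁻¹ : SL(2, ℤ)) with hτ
  refine ⟨((Equiv.Perm.sign τ : ℤ) : ℂ), ?_, fun G w hG z => ?_⟩
  · rw [← Int.cast_mul, ← Units.val_mul, Int.units_mul_self]; simp
  · unfold WW
    have h1 : (Matrix.of fun x j => G j (γ • z) x : Matrix (XX N) (XX N) ℂ) =
        Matrix.of fun x j => (denom γ z) ^ (w j) *
          ((Matrix.of fun x j => G j z x : Matrix (XX N) (XX N) ℂ).submatrix τ id) x j := by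
      ext x j
      exact (hG j).mod γ z x
    rw [h1, Matrix.det_mul_row, zpow_sum' _ _ (denom_ne_zero _ _), Matrix.det_permute]

theorem WW_mul {G G' : XX N → ℍ → XX N → ℂ} {w w' : XX N → ℤ} (hG : ∀ j, VM N (w j) (G j))
    (hG' : ∀ j, VM N (w' j) (G' j)) : LM (∑ j, w j + ∑ j, w' j) (WW G * WW G') := by
  have hB : WW G * WW G' ∈ HB := HB.mul_mem (WW_mem hG) (WW_mem hG')
  refine lm_mk hB.1 (fun γ z => ?_) hB.2
  obtain ⟨s, hs, h⟩ := WW_mod' (N := N) γ
  rw [Pi.mul_apply, h G w hG, h G' w' hG', Pi.mul_apply, zpow_add₀ (denom_ne_zero _ _)]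
  linear_combination (denom (γ : GL (Fin 2) ℝ) z) ^ (∑ j, w j) *
    (denom (γ : GL (Fin 2) ℝ) z) ^ (∑ j, w' j) * WW G z * WW G' z * hs

theorem free_aux (hs : S_SPAN) : S_FREE := by
  intro N _ hN
  classical
  obtain ⟨ι, wt, Φ, hwt, hΦ, gen, ind⟩ := abs_basis (grData (N := N))
  set z0 : ℍ := UpperHalfPlane.I with hz0
  have hspan : Submodule.span ℂ (Set.range fun i => Φ i z0) = ⊤ := by
    rw [eq_top_iff, ← hs N hN z0, Submodule.span_le]
    rintro v ⟨k, F, hF, rfl⟩
    have h1 := gen k F hF
    clear hF
    unfold PP at h1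
    induction h1 using Submodule.span_induction with
    | mem z hz =>
      obtain ⟨i, A, hA, rfl⟩ := hz
      exact Submodule.smul_mem _ (A z0) (Submodule.subset_span ⟨i, rfl⟩)
    | zero => exact zero_mem _
    | add p q _ _ h1 h2 => exact add_mem h1 h2
    | smul a p _ h => exact Submodule.smul_mem _ a h
  obtain ⟨κ, a, ha, hspan', hli⟩ := exists_linearIndependent' ℂ (fun i => Φ i z0)
  let B : Module.Basis κ ℂ (XX N → ℂ) := Module.Basis.mk hli (by rw [hspan', hspan])
  let ε : XX N ≃ κ := (Pi.basisFun ℂ (XX N)).indexEquiv B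
  set σ : XX N → ι := fun j => a (ε j) with hσ
  have hσi : Function.Injective σ := ha.comp ε.injective
  have hli' : LinearIndependent ℂ (fun j => Φ (σ j) z0) := hli.comp ε ε.injective
  have hdet : WW (fun j => Φ (σ j)) z0 ≠ 0 := by
    unfold WW
    have h1 : LinearIndependent ℂ (Matrix.of fun j x => Φ (σ j) z0 x : Matrix (XX N) (XX N) ℂ).row := hli'
    have h2 := Matrix.linearIndependent_rows_iff_isUnit.mp h1
    have h3 := (Matrix.isUnit_iff_isUnit_det _).mp h2
    have h4 : (Matrix.of fun x j => Φ (σ j) z0 x : Matrix (XX N) (XX N) ℂ) =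
      (Matrix.of fun j x => Φ (σ j) z0 x : Matrix (XX N) (XX N) ℂ).transpose := rfl
    rw [h4, Matrix.det_transpose]
    exact h3.ne_zero
  have hsurj : Function.Surjective σ := by
    intro i0
    by_contra hn
    push Not at hn
    -- the families with one element replaced
    let G : XX N → ℍ → XX N → ℂ := fun j => Φ (σ j)
    let w : XX N → ℤ := fun j => wt (σ j)
    let G' : XX N → XX N → ℍ → XX N → ℂ := fun j => Function.update G j (Φ i0)
    let w' : XX N → XX N → ℤ := fun j => Function.update w j (wt i0)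
    have hG : ∀ j, VM N (w j) (G j) := fun j => hΦ (σ j)
    have hG' : ∀ j i, VM N (w' j i) (G' j i) := by
      intro j i
      by_cases h : i = j
      · subst h
        simp only [G', w', Function.update_self]
        exact hΦ i0
      · simp only [G', w', Function.update_of_ne h]
        exact hG i
    have hsw : ∀ j, ∑ i, w' j i = ∑ i, w i - w j + wt i0 := by
      intro j
      simp only [w']
      rw [Finset.sum_update_of_mem (Finset.mem_univ j), Finset.sdiff_singleton_eq_erase]
      have := Finset.add_sum_erase Finset.univ w (Finset.mem_univ j)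
      linarith
    have hcr : ∀ z x, ∑ j, WW (G' j) z * Φ (σ j) z x = WW G z * Φ i0 z x := by
      intro z x
      have h1 := congrFun (Matrix.mulVec_cramer (Matrix.of fun x j => G j z x) (Φ i0 z)) x
      have h2 : ∀ j, (Matrix.cramer (Matrix.of fun x j => G j z x)) (Φ i0 z) j = WW (G' j) z := by
        intro j
        rw [Matrix.cramer_apply]
        unfold WW
        congr 1
        ext x' i
        rw [Matrix.updateCol_apply]
        simp only [G', Matrix.of_apply, Function.update_apply]
        split_ifs <;> rfl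
      simp only [Matrix.mulVec, dotProduct, h2] at h1
      rw [show WW G z * Φ i0 z x = ((Matrix.of fun x j => G j z x).det • Φ i0 z) x from rfl, ← h1]
      exact Finset.sum_congr rfl fun j _ => mul_comm _ _
    let A : ι → ℍ → ℂ := fun i => if i = i0 then -(WW G * WW G) else
      WW G * WW (G' (Function.invFun σ i))
    have hA0 : A i0 = -(WW G * WW G) := if_pos rfl
    have hAσ : ∀ j, A (σ j) = WW G * WW (G' j) := fun j => by
      simp only [A]
      rw [if_neg (hn j), Function.leftInverse_invFun hσi j]
    have hni : i0 ∉ Finset.univ.image σ := by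
      intro h
      obtain ⟨j, -, hj⟩ := Finset.mem_image.mp h
      exact hn j hj
    have h3 := ind (2 * ∑ i, w i + wt i0) (insert i0 (Finset.univ.image σ)) A (by
      intro i hi
      rcases Finset.mem_insert.mp hi with h | hi
      · rw [h, hA0]
        refine neg_mem ?_
        show LM (2 * ∑ i, w i + wt i0 - wt i0) (WW G * WW G)
        rw [show 2 * ∑ i, w i + wt i0 - wt i0 = ∑ i, w i + ∑ i, w i by ring]
        exact WW_mul hG hG
      · obtain ⟨j, -, rfl⟩ := Finset.mem_image.mp hi
        rw [hAσ]
        have := WW_mul hG (hG' j)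
        rw [hsw] at this
        show LM (2 * ∑ i, w i + wt i0 - w j) (WW G * WW (G' j))
        rw [show 2 * ∑ i, w i + wt i0 - w j = ∑ i, w i + (∑ i, w i - w j + wt i0) by ring]
        exact this) (by
      rw [Finset.sum_insert hni, Finset.sum_image hσi.injOn, hA0]
      simp_rw [hAσ]
      funext z x
      have h5 := hcr z x
      rw [Pi.add_apply, Pi.add_apply, Finset.sum_apply, Finset.sum_apply]
      show -(WW G z * WW G z) * Φ i0 z x + ∑ j, (WW G z * WW (G' j) z) * Φ (σ j) z x = 0
      have h6 : ∑ j, (WW G z * WW (G' j) z) * Φ (σ j) z x = WW G z * ∑ j, WW (G' j) z * Φ (σ j) z x := by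
        rw [Finset.mul_sum]
        exact Finset.sum_congr rfl fun j _ => mul_assoc _ _ _
      rw [h6, h5]
      ring) i0 (Finset.mem_insert_self _ _)
    rw [hA0] at h3
    have h4 : -(WW G z0 * WW G z0) = 0 := congrFun h3 z0
    exact hdet (mul_self_eq_zero.mp (neg_eq_zero.mp h4))
  refine ⟨fun j => wt (σ j), fun j => Φ (σ j), fun j => hwt _, fun j => hΦ _, fun l G hG => ?_,
    fun l A hA h0 j => ?_⟩
  · have h1 := gen l G hG
    clear hG
    unfold PP at h1
    simp only [tsum_fintype]
    induction h1 using Submodule.span_induction with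
    | mem z hz =>
      obtain ⟨i, A, hA, rfl⟩ := hz
      obtain ⟨j, rfl⟩ := hsurj i
      refine ⟨fun j' => if j' = j then A else 0, fun j' => ?_, fun z x => ?_⟩
      · by_cases h : j' = j
        · subst h
          simp only [if_true]
          exact hA
        · simp only [h, if_false]
          exact (RR _).zero_mem
      · rw [Finset.sum_eq_single j]
        · simp
        · intro b _ hb
          simp [hb]
        · intro h
          exact absurd (Finset.mem_univ _) h
    | zero => exact ⟨fun _ => 0, fun j => (RR _).zero_mem, fun z x => by simp⟩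
    | add p q _ _ h1 h2 =>
      obtain ⟨A1, hA1, h1⟩ := h1
      obtain ⟨A2, hA2, h2⟩ := h2
      refine ⟨fun j => A1 j + A2 j, fun j => (RR _).add_mem (hA1 j) (hA2 j), fun z x => ?_⟩
      show p z x + q z x = ∑ j, (A1 j z + A2 j z) * Φ (σ j) z x
      rw [h1, h2, ← Finset.sum_add_distrib]
      exact Finset.sum_congr rfl fun j _ => by ring
    | smul a p _ h =>
      obtain ⟨A1, hA1, h1⟩ := h
      refine ⟨fun j => a • A1 j, fun j => (RR _).smul_mem a (hA1 j), fun z x => ?_⟩
      show a * p z x = ∑ j, (a * A1 j z) * Φ (σ j) z x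
      rw [h1, Finset.mul_sum]
      exact Finset.sum_congr rfl fun j _ => by ring
  · have h3 := ind l (Finset.univ.image σ) (fun i => A (Function.invFun σ i)) (by
      intro i hi
      obtain ⟨j, -, rfl⟩ := Finset.mem_image.mp hi
      rw [Function.leftInverse_invFun hσi j]
      exact hA j) (by
      rw [Finset.sum_image hσi.injOn]
      funext z x
      have := h0 z x
      rw [tsum_fintype] at this
      rw [Finset.sum_apply, Finset.sum_apply]
      simp_rw [Function.leftInverse_invFun hσi _]
      exact this) (σ j) (Finset.mem_image_of_mem _ (Finset.mem_univ j))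
    intro z
    rw [Function.leftInverse_invFun hσi j] at h3
    exact congrFun h3 z


end FreP

/-- FREE -/
theorem free (hs : S_SPAN) : S_FREE := FreP.free_aux hs

end Pool.Agent.K4H13.CV
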