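import Pool.Agent.K4H13.CV.Stm2
import Mathlib.NumberTheory.ModularForms.LevelOne.GradedRing
import Mathlib.NumberTheory.ModularForms.LevelOne.DimensionFormula

/-!
# S_FREE, part A : the level one forms
-/

set_option autoImplicit false

open Complex Filter Topology Set UpperHalfPlane MatrixGroups CongruenceSubgroup
open scoped Manifold ModularForm

namespace Pool.Agent.K4H13.CV

namespace FreP

theorem lm_holo {k : ℤ} {A : ℍ → ℂ} (h : LM k A) : MDifferentiable 𝓘(ℂ) 𝓘(ℂ) A := by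
  obtain ⟨g, hg⟩ := h
  rw [show A = g from funext hg]
  exact g.holo'

theorem lm_mod {k : ℤ} {A : ℍ → ℂ} (h : LM k A) (γ : SL(2, ℤ)) (z : ℍ) :
    A (γ • z) = (denom γ z) ^ k * A z := by
  obtain ⟨g, hg⟩ := h
  rw [hg, hg]
  exact SlashInvariantForm.slash_action_eqn'' (Γ := 𝒮ℒ) g (γ := (γ : GL (Fin 2) ℝ)) ⟨γ, rfl⟩ z

theorem lm_bdd {k : ℤ} {A : ℍ → ℂ} (h : LM k A) : IsBoundedAtImInfty A := by
  obtain ⟨g, hg⟩ := h
  rw [show A = g from funext hg]
  exact ModularFormClass.bdd_at_infty g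

theorem slash_of_mod {k : ℤ} {A : ℍ → ℂ}
    (h2 : ∀ (γ : SL(2, ℤ)) (z : ℍ), A (γ • z) = (denom γ z) ^ k * A z) (γ : SL(2, ℤ)) :
    A ∣[k] γ = A := by
  funext z
  rw [ModularForm.SL_slash_apply, h2, mul_comm, ← mul_assoc, ← zpow_add₀ (denom_ne_zero _ _)]
  simp

theorem lm_mk {k : ℤ} {A : ℍ → ℂ} (h1 : MDifferentiable 𝓘(ℂ) 𝓘(ℂ) A)
    (h2 : ∀ (γ : SL(2, ℤ)) (z : ℍ), A (γ • z) = (denom γ z) ^ k * A z)
    (h3 : IsBoundedAtImInfty A) : LM k A := by
  refine ⟨{ toFun := A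
            slash_action_eq' := fun _ ⟨γ, hγ⟩ ↦ hγ ▸ slash_of_mod h2 γ
            holo' := h1
            bdd_at_cusps' := fun {c} hc => by
              rw [Subgroup.IsArithmetic.isCusp_iff_isCusp_SL2Z] at hc
              rw [OnePoint.isBoundedAt_iff_forall_SL2Z hc]
              intro γ _
              rw [slash_of_mod h2 γ]
              exact h3 }, fun z => rfl⟩

/-- the submodule of level one forms -/
def RR (k : ℤ) : Submodule ℂ (ℍ → ℂ) where
  carrier := {A | LM k A}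
  add_mem' := fun {a b} ⟨g, hg⟩ ⟨h, hh⟩ => ⟨g + h, fun z => by
    show a z + b z = _
    rw [hg, hh]; rfl⟩
  zero_mem' := ⟨0, fun z => rfl⟩
  smul_mem' := fun c a ⟨g, hg⟩ => ⟨c • g, fun z => by
    show c * a z = _
    rw [hg]; rfl⟩

theorem lm_mul {k l m : ℤ} {A B : ℍ → ℂ} (hA : LM k A) (hB : LM l B) (h : k + l = m) :
    LM m (A * B) := by
  subst h
  obtain ⟨f, hf⟩ := hA
  obtain ⟨g, hg⟩ := hB
  exact ⟨f.mul g, fun z => by
    show A z * B z = _
    rw [hf, hg]; rfl⟩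

theorem lm_neg {k : ℤ} (hk : k < 0) {A : ℍ → ℂ} (hA : LM k A) : A = 0 := by
  obtain ⟨f, hf⟩ := hA
  have := ModularFormClass.levelOne_neg_weight_eq_zero hk f
  funext z
  rw [hf, this]


theorem lm_one : LM 0 (1 : ℍ → ℂ) := ⟨1, fun z => rfl⟩

/-- the Eisenstein series as functions -/
noncomputable def e4 : ℍ → ℂ := fun z => ModularForm.E₄ z

noncomputable def e6 : ℍ → ℂ := fun z => ModularForm.E₆ z

theorem lm_e4 : LM 4 e4 := ⟨ModularForm.E₄, fun z => rfl⟩

theorem lm_e6 : LM 6 e6 := ⟨ModularForm.E₆, fun z => rfl⟩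

theorem lm_e6_pow (e : ℕ) {l : ℤ} (h : 6 * (e : ℤ) = l) : LM l (e6 ^ e) := by
  subst h
  induction e with
  | zero => simpa using lm_one
  | succ n ih =>
    rw [pow_succ]
    exact lm_mul ih lm_e6 (by push_cast; ring)

theorem e_ne (z : ℍ) : e4 z ≠ 0 ∨ e6 z ≠ 0 := by
  by_contra h
  push Not at h
  have := ModularForm.discriminant_eq_E₄_cube_sub_E₆_sq z
  rw [show ModularForm.E₄ z = 0 from h.1, show ModularForm.E₆ z = 0 from h.2] at this
  exact ModularForm.discriminant_ne_zero z (by rw [this]; simp)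

theorem tendsto_one_of (k : ℕ) (hk : 3 ≤ k) (hk2 : Even k) :
    Tendsto (fun z : ℍ => ModularForm.E hk z) atImInfty (𝓝 1) := by
  have h1 : valueAtInfty (ModularForm.E hk) = 1 := by
    rw [← EisensteinSeries.E_qExpansion_coeff_zero hk hk2, qExpansion_coeff_zero one_pos]
    · exact ModularFormClass.analyticAt_cuspFunction_zero _ one_pos (by simp)
    · exact SlashInvariantFormClass.periodic_comp_ofComplex _ (by simp)
  obtain ⟨c, hc, h2⟩ := ModularFormClass.exp_decay_sub_atImInfty' (ModularForm.E hk)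
  have h3 : Tendsto (fun τ : ℍ => Real.exp (-c * τ.im)) atImInfty (𝓝 0) := by
    refine Real.tendsto_exp_atBot.comp ?_
    refine Tendsto.const_mul_atTop_of_neg (by linarith) ?_
    exact tendsto_comap
  have h4 := h2.trans_tendsto h3
  rw [h1] at h4
  have h5 := h4.add_const 1
  simpa using h5

theorem e4_tendsto : Tendsto e4 atImInfty (𝓝 1) := tendsto_one_of 4 (by norm_num) ⟨2, rfl⟩


theorem e4_rho : e4 UpperHalfPlane.ρ = 0 := by
  have h1 := lm_mod lm_e4 (ModularGroup.S * ModularGroup.T) UpperHalfPlane.ρ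
  have h2 : (ModularGroup.S * ModularGroup.T) • UpperHalfPlane.ρ = UpperHalfPlane.ρ := by
    rw [mul_smul, ← ModularGroup.SL_neg_smul ModularGroup.S, ← ModularGroup.S_inv, inv_smul_eq_iff,
      eq_comm, UpperHalfPlane.ext_iff,
      modular_S_smul, modular_T_smul, UpperHalfPlane.coe_mk, coe_vadd,
      ← mul_one (_ : ℂ)⁻¹, inv_mul_eq_iff_eq_mul₀ (neg_ne_zero.mpr ρ.ne_zero)]
    grind [ρ_sq, ofReal_one]
  rw [h2] at h1
  have h3 : denom ((ModularGroup.S * ModularGroup.T : SL(2, ℤ)) : GL (Fin 2) ℝ) UpperHalfPlane.ρ =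
      (UpperHalfPlane.ρ : ℂ) + 1 := by
    rw [ModularGroup.denom_apply]
    simp [ModularGroup.S, ModularGroup.T]
  rw [h3] at h1
  have h4 : ((UpperHalfPlane.ρ : ℂ) + 1) ^ (4 : ℤ) = -(UpperHalfPlane.ρ : ℂ) - 1 := by
    have := ρ_sq
    rw [show ((4 : ℤ)) = ((4 : ℕ) : ℤ) from rfl, zpow_natCast]
    linear_combination ((UpperHalfPlane.ρ : ℂ) ^ 2 + 3 * UpperHalfPlane.ρ + 2) * this
  rw [h4] at h1
  have h5 : e4 UpperHalfPlane.ρ * ((UpperHalfPlane.ρ : ℂ) + 2) = 0 := by linear_combination h1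
  rcases mul_eq_zero.mp h5 with h | h
  · exact h
  · exfalso
    have := congrArg Complex.im h
    have h6 := UpperHalfPlane.ρ.im_pos
    simp at this
    linarith

theorem e6_rho : e6 UpperHalfPlane.ρ ≠ 0 := by
  rcases e_ne UpperHalfPlane.ρ with h | h
  · exact absurd e4_rho h
  · exact h

/-! ## the decomposition -/

/-- the coercion -/
noncomputable def eqvL (k : ℤ) : ModularForm 𝒮ℒ k →ₗ[ℂ] RR k where
  toFun g := ⟨g, g, fun z => rfl⟩
  map_add' a b := rfl
  map_smul' c a := rfl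

noncomputable def eqv (k : ℤ) : ModularForm 𝒮ℒ k ≃ₗ[ℂ] RR k :=
  LinearEquiv.ofBijective (eqvL k)
    ⟨fun a b h => by
      have := congrArg Subtype.val h
      exact DFunLike.coe_injective this, fun ⟨A, g, hg⟩ => ⟨g, Subtype.ext (funext fun z => (hg z).symm)⟩⟩

instance (k : ℤ) : FiniteDimensional ℂ (RR k) := (eqv k).finiteDimensional

theorem finrank_RR_neg {k : ℤ} (hk : k < 0) : Module.finrank ℂ (RR k) = 0 := by
  rw [← (eqv k).finrank_eq, Module.finrank, ModularForm.levelOne_neg_weight_rank_zero hk]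
  simp

theorem finrank_RR (k : ℕ) (hk : Even k) :
    Module.finrank ℂ (RR k) = if k % 12 = 2 then k / 12 else k / 12 + 1 := by
  rw [← (eqv k).finrank_eq, Module.finrank, ModularForm.dimension_level_one k hk]
  unfold Nat.ModEq
  norm_num
  split_ifs <;> simp

theorem e4_mul_inj {k : ℤ} {B : ℍ → ℂ} (hB : LM k B) (h : e4 * B = 0) : B = 0 := by
  rcases (UpperHalfPlane.mul_eq_zero_iff (lm_holo lm_e4) (lm_holo hB)).mp h with h | h
  · exfalso
    have h2 : ModularForm.E₄ = 0 := DFunLike.coe_injective h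
    exact EisensteinSeries.E_ne_zero (by norm_num) ⟨2, rfl⟩ h2
  · exact h

/-- multiplication by `E₄` -/
noncomputable def mul4 (l : ℤ) : RR (l - 4) →ₗ[ℂ] RR l where
  toFun B := ⟨e4 * B.1, lm_mul lm_e4 B.2 (by ring)⟩
  map_add' a b := Subtype.ext (mul_add e4 a.1 b.1)
  map_smul' c a := Subtype.ext (mul_smul_comm c e4 a.1)

theorem mul4_inj (l : ℤ) : Function.Injective (mul4 l) := by
  rw [injective_iff_map_eq_zero]
  intro B hB
  exact Subtype.ext (e4_mul_inj B.2 (congrArg Subtype.val hB))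

theorem lm_dec {l : ℤ} {A : ℍ → ℂ} (hA : LM l A) : ∃ B, LM (l - 4) B ∧ ∃ (c : ℂ) (e : ℕ),
    (c ≠ 0 → 6 * (e : ℤ) = l) ∧ A = e4 * B + c • e6 ^ e := by
  rcases lt_or_ge l 0 with hl | hl
  · exact ⟨0, (RR _).zero_mem, 0, 0, fun h => absurd rfl h, by simp [lm_neg hl hA]⟩
  rcases Int.even_or_odd l with he | ho
  swap
  · obtain ⟨f, hf⟩ := hA
    have := ModularForm.levelOne_odd_weight_eq_zero ho f
    refine ⟨0, (RR _).zero_mem, 0, 0, fun h => absurd rfl h, ?_⟩
    funext z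
    rw [hf, this]
    simp
  lift l to ℕ using hl
  have he' : Even l := by exact_mod_cast he
  have hP : Module.finrank ℂ (LinearMap.range (mul4 l)) = Module.finrank ℂ (RR ((l : ℤ) - 4)) :=
    LinearMap.finrank_range_of_inj (mul4_inj l)
  have hd : Module.finrank ℂ (RR (l : ℤ)) ≤ Module.finrank ℂ (RR ((l : ℤ) - 4)) +
      (if 6 ∣ l then 1 else 0) := by
    rw [finrank_RR l he']
    rcases lt_or_ge l 4 with h4 | h4
    · rw [finrank_RR_neg (by omega)]
      have : l = 0 ∨ l = 2 := by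
        rcases he' with ⟨r, hr⟩
        omega
      rcases this with rfl | rfl <;> simp
    · have e1 : ((l : ℤ) - 4) = ((l - 4 : ℕ) : ℤ) := by omega
      rw [e1, finrank_RR (l - 4) (by rcases he' with ⟨r, hr⟩; exact ⟨r - 2, by omega⟩)]
      rcases he' with ⟨r, hr⟩
      split_ifs <;> omega
  by_cases h6 : 6 ∣ l
  · obtain ⟨e, he⟩ := h6
    have hE : LM (l : ℤ) (e6 ^ e) := lm_e6_pow e (by omega)
    set v : RR (l : ℤ) := ⟨e6 ^ e, hE⟩ with hv
    have hlt : LinearMap.range (mul4 l) < LinearMap.range (mul4 l) ⊔ Submodule.span ℂ {v} := by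
      refine lt_of_le_of_ne le_sup_left fun hh => ?_
      have hm : v ∈ LinearMap.range (mul4 l) := by
        rw [hh]
        exact Submodule.mem_sup_right (Submodule.mem_span_singleton_self v)
      obtain ⟨B, hB⟩ := hm
      have h1 := congrFun (congrArg Subtype.val hB) UpperHalfPlane.ρ
      have h2 : e4 UpperHalfPlane.ρ * B.1 UpperHalfPlane.ρ = e6 UpperHalfPlane.ρ ^ e := h1
      rw [e4_rho, zero_mul] at h2
      exact pow_ne_zero e e6_rho h2.symm
    have h3 := Submodule.finrank_lt_finrank_of_lt hlt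
    have h4 : LinearMap.range (mul4 l) ⊔ Submodule.span ℂ {v} = ⊤ := by
      refine Submodule.eq_top_of_finrank_eq (le_antisymm (Submodule.finrank_le _) ?_)
      rw [if_pos ⟨e, he⟩] at hd
      omega
    have h5 : (⟨A, hA⟩ : RR (l : ℤ)) ∈ LinearMap.range (mul4 l) ⊔ Submodule.span ℂ {v} := by
      rw [h4]; trivial
    obtain ⟨p, ⟨B, hB⟩, q, hq, hpq⟩ := Submodule.mem_sup.mp h5
    obtain ⟨c, hc⟩ := Submodule.mem_span_singleton.mp hq
    refine ⟨B.1, B.2, c, e, fun _ => by omega, ?_⟩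
    have h6 := congrArg Subtype.val hpq
    rw [← hB, ← hc] at h6
    exact h6.symm
  · have h4 : LinearMap.range (mul4 l) = ⊤ := by
      refine Submodule.eq_top_of_finrank_eq (le_antisymm (Submodule.finrank_le _) ?_)
      rw [if_neg h6] at hd
      omega
    have h5 : (⟨A, hA⟩ : RR (l : ℤ)) ∈ LinearMap.range (mul4 l) := by
      rw [h4]; trivial
    obtain ⟨B, hB⟩ := h5
    refine ⟨B.1, B.2, 0, 0, fun h => absurd rfl h, ?_⟩
    have h6 := congrArg Subtype.val hB
    rw [zero_smul, add_zero]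
    exact h6.symm

end FreP

end Pool.Agent.K4H13.CV
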