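import Mathlib

/-!
# S_FREE, part B : the algebra
-/

set_option autoImplicit false

namespace Pool.Agent.K4H13.CV

namespace FreP

section AbsBasis

variable {K R V : Type} [Field K] [CommRing R] [Algebra K R] [AddCommGroup V] [Module R V]
  [Module K V] [IsScalarTower K R V]

/-- the data -/
structure GrData (RR : ℤ → Submodule K R) (MM : ℤ → Submodule K V) (x y : R) : Prop where
  hx : x ∈ RR 4
  hy : ∀ e : ℕ, y ^ e ∈ RR (6 * e)
  hM : ∀ (a b : ℤ) (A : R) (F : V), A ∈ RR a → F ∈ MM b → A • F ∈ MM (a + b)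
  hneg : ∀ l : ℤ, l < 0 → ∀ F ∈ MM l, F = 0
  hRneg : ∀ l : ℤ, l < 0 → ∀ A ∈ RR l, A = 0
  hRmul : ∀ (a b : ℤ) (A B : R), A ∈ RR a → B ∈ RR b → A * B ∈ RR (a + b)
  hdec : ∀ (l : ℤ) (A : R), A ∈ RR l → ∃ B ∈ RR (l - 4), ∃ (c : K) (e : ℕ),
    (c ≠ 0 → 6 * (e : ℤ) = l) ∧ A = x * B + c • y ^ e
  hdiv : ∀ (l : ℤ) (F G : V), F ∈ MM (l - 4) → G ∈ MM (l - 6) → x • F = y • G →
    ∃ H ∈ MM (l - 10), F = y • H ∧ G = x • H
  hcan : ∀ (l : ℤ) (F : V), F ∈ MM l → x • F = 0 → F = 0

variable {RR : ℤ → Submodule K R} {MM : ℤ → Submodule K V} {x y : R}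

/-- the decomposable elements -/
def NN (MM : ℤ → Submodule K V) (x y : R) (n : ℤ) : Submodule K V where
  carrier := {F | ∃ F4 ∈ MM (n - 4), ∃ F6 ∈ MM (n - 6), F = x • F4 + y • F6}
  add_mem' := by
    rintro a b ⟨a4, h1, a6, h2, rfl⟩ ⟨b4, h3, b6, h4, rfl⟩
    exact ⟨a4 + b4, add_mem h1 h3, a6 + b6, add_mem h2 h4, by rw [smul_add, smul_add]; abel⟩
  zero_mem' := ⟨0, zero_mem _, 0, zero_mem _, by simp⟩
  smul_mem' := by
    rintro c a ⟨a4, h1, a6, h2, rfl⟩
    exact ⟨c • a4, (MM _).smul_mem c h1, c • a6, (MM _).smul_mem c h2, by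
      rw [smul_add, smul_comm c x, smul_comm c y]⟩

theorem hM' (h : GrData RR MM x y) {a b c : ℤ} {A : R} {F : V} (hA : A ∈ RR a) (hF : F ∈ MM b)
    (e : a + b = c) : A • F ∈ MM c := e ▸ h.hM a b A F hA hF

theorem hy1 (h : GrData RR MM x y) : y ∈ RR 6 := by
  have := h.hy 1
  simpa using this

theorem h1' (h : GrData RR MM x y) : (1 : R) ∈ RR 0 := by
  have := h.hy 0
  simpa using this

theorem exists_compl (h : GrData RR MM x y) (n : ℕ) : ∃ C : Submodule K V, C ≤ MM n ∧
    (∀ F ∈ MM n, ∃ G ∈ NN MM x y n, ∃ H ∈ C, F = G + H) ∧ (∀ F ∈ C, F ∈ NN MM x y n → F = 0) := by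
  have hN : NN MM x y n ≤ MM n := by
    rintro F ⟨F4, h4, F6, h6, rfl⟩
    exact add_mem (hM' h h.hx h4 (by ring)) (hM' h (hy1 h) h6 (by ring))
  obtain ⟨Q, hQ⟩ := Submodule.exists_isCompl (NN MM x y n)
  refine ⟨MM n ⊓ Q, inf_le_left, fun F hF => ?_, fun F hF hF' => ?_⟩
  · have h1 : F ∈ NN MM x y n ⊔ Q := by
      rw [hQ.sup_eq_top]; trivial
    obtain ⟨G, hG, H, hH, e⟩ := Submodule.mem_sup.mp h1
    refine ⟨G, hG, H, ⟨?_, hH⟩, e.symm⟩
    have : H = F - G := by rw [← e]; abel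
    rw [this]
    exact sub_mem hF (hN hG)
  · have h1 : F ∈ NN MM x y n ⊓ Q := ⟨hF', hF.2⟩
    rw [hQ.inf_eq_bot] at h1
    exact h1

/-- the span of the multiples -/
def PP (RR : ℤ → Submodule K R) {ι : Type} (wt : ι → ℤ) (Φ : ι → V) (l : ℤ) : Submodule K V :=
  Submodule.span K {G | ∃ i, ∃ A ∈ RR (l - wt i), G = A • Φ i}

theorem mul_PP (h : GrData RR MM x y) {ι : Type} (wt : ι → ℤ) (Φ : ι → V) {d l m : ℤ} {u : R}
    (hu : u ∈ RR d) (e : d + l = m) {F : V} (hF : F ∈ PP RR wt Φ l) : u • F ∈ PP RR wt Φ m := by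
  subst e
  unfold PP at hF
  induction hF using Submodule.span_induction with
  | mem z hz =>
    obtain ⟨i, A, hA, rfl⟩ := hz
    refine Submodule.subset_span ⟨i, u * A, ?_, (mul_smul _ _ _).symm⟩
    have := h.hRmul _ _ _ _ hu hA
    convert this using 2
    ring
  | zero => rw [smul_zero]; exact zero_mem _
  | add p q hp hq ih1 ih2 => rw [smul_add]; exact add_mem ih1 ih2
  | smul a p hp ih1 => rw [smul_comm]; exact Submodule.smul_mem _ a ih1

theorem abs_basis (h : GrData RR MM x y) :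
    ∃ (ι : Type) (wt : ι → ℤ) (Φ : ι → V), (∀ i, 0 ≤ wt i) ∧ (∀ i, Φ i ∈ MM (wt i)) ∧
    (∀ l, ∀ F ∈ MM l, F ∈ PP RR wt Φ l) ∧
    (∀ l, ∀ (s : Finset ι) (A : ι → R), (∀ i ∈ s, A i ∈ RR (l - wt i)) →
      ∑ i ∈ s, A i • Φ i = 0 → ∀ i ∈ s, A i = 0) := by
  classical
  choose C hC1 hC2 hC3 using fun n : ℕ => exists_compl h n
  let b := fun n : ℕ => Module.Basis.ofVectorSpace K (C n)
  let ι : Type := Σ n : ℕ, Module.Basis.ofVectorSpaceIndex K (C n)
  let Φ : ι → V := fun i => (b i.1 i.2 : V)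
  let wt : ι → ℤ := fun i => (i.1 : ℤ)
  have hwt : ∀ i, 0 ≤ wt i := fun i => Int.natCast_nonneg _
  have hΦC : ∀ i, Φ i ∈ C i.1 := fun i => (b i.1 i.2).2
  have hΦ : ∀ i, Φ i ∈ MM (wt i) := fun i => hC1 _ (hΦC i)
  -- generation
  have gen : ∀ n : ℕ, ∀ l : ℤ, l < n → ∀ F ∈ MM l, F ∈ PP RR wt Φ l := by
    intro n
    induction n with
    | zero =>
      intro l hl F hF
      rw [h.hneg l (by simpa using hl) F hF]
      exact zero_mem _
    | succ n ih =>
      intro l hl F hF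
      rcases lt_or_ge l n with h1 | h1
      · exact ih l h1 F hF
      have hln : l = n := by push_cast at hl; omega
      subst hln
      obtain ⟨G, ⟨F4, h4, F6, h6, rfl⟩, H, hH, rfl⟩ := hC2 n F hF
      refine add_mem (add_mem (mul_PP h wt Φ h.hx (by ring) (ih _ (by omega) F4 h4))
        (mul_PP h wt Φ (hy1 h) (by ring) (ih _ (by omega) F6 h6))) ?_
      have h5 : (⟨H, hH⟩ : C n) ∈ Submodule.span K (Set.range (b n)) := (b n).mem_span _
      have h6 : H ∈ (Submodule.span K (Set.range (b n))).map (C n).subtype :=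
        ⟨⟨H, hH⟩, h5, rfl⟩
      rw [Submodule.map_span] at h6
      refine Submodule.span_mono ?_ h6
      rintro _ ⟨_, ⟨j, rfl⟩, rfl⟩
      refine ⟨⟨n, j⟩, 1, ?_, (one_smul _ _).symm⟩
      show (1 : R) ∈ RR ((n : ℤ) - n)
      rw [sub_self]
      exact h1' h
  -- linear independence in one weight
  have li : ∀ n : ℕ, ∀ s : Finset ι, (∀ i ∈ s, i.1 = n) → ∀ c : ι → K,
      ∑ i ∈ s, c i • Φ i ∈ C n ∧ (∑ i ∈ s, c i • Φ i = 0 → ∀ i ∈ s, c i = 0) := by
    intro n s hs c
    let mk : Module.Basis.ofVectorSpaceIndex K (C n) → ι := fun j => ⟨n, j⟩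
    have hinj : Function.Injective mk := fun a b hab => by
      have h1 : (⟨n, a⟩ : ι) = ⟨n, b⟩ := hab
      simpa [ι] using h1
    have hsum : ∑ j ∈ s.preimage mk hinj.injOn, c (mk j) • Φ (mk j) =
        ∑ i ∈ s, c i • Φ i := by
      refine Finset.sum_preimage mk s hinj.injOn (fun i => c i • Φ i) ?_
      rintro ⟨m, j⟩ hi hn
      exfalso
      have : m = n := hs _ hi
      subst this
      exact hn ⟨j, rfl⟩
    rw [← hsum]
    refine ⟨sum_mem fun j _ => (C n).smul_mem _ (hΦC (mk j)), fun h0 i hi => ?_⟩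
    have hli : LinearIndependent K (fun j => ((b n j : C n) : V)) :=
      (b n).linearIndependent.map' (C n).subtype (Submodule.ker_subtype _)
    have h2 := linearIndependent_iff'.mp hli _ (fun j => c (mk j)) h0
    obtain ⟨m, j⟩ := i
    have : m = n := hs _ hi
    subst this
    exact h2 j (Finset.mem_preimage.mpr hi)
  -- the claim
  have claim : ∀ n : ℕ, ∀ l : ℤ, l < n → ∀ (s : Finset ι) (c : ι → K) (e : ι → ℕ),
      (∀ i ∈ s, 6 * (e i : ℤ) + wt i = l) → ∀ H ∈ MM (l - 4),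
      x • H + ∑ i ∈ s, c i • y ^ e i • Φ i = 0 → ∀ i ∈ s, c i = 0 := by
    intro n
    induction n with
    | zero =>
      intro l hl s c e he H hH h0 i hi
      exfalso
      have := he i hi
      have := hwt i
      push_cast at hl
      omega
    | succ n ih =>
      intro l hl s c e he H hH h0
      rcases lt_or_ge l n with h1 | h1
      · exact ih l h1 s c e he H hH h0
      have hln : l = n := by push_cast at hl; omega
      subst hln
      set s0 := s.filter (fun i => e i = 0) with hs0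
      set s1 := s.filter (fun i => ¬ e i = 0) with hs1
      have hsplit := Finset.sum_filter_add_sum_filter_not s (fun i => e i = 0)
        (fun i => c i • y ^ e i • Φ i)
      have e0 : ∑ i ∈ s0, c i • y ^ e i • Φ i = ∑ i ∈ s0, c i • Φ i := by
        refine Finset.sum_congr rfl fun i hi => ?_
        rw [(Finset.mem_filter.mp hi).2, pow_zero, one_smul]
      set G := ∑ i ∈ s1, c i • y ^ (e i - 1) • Φ i with hG
      have e1 : ∑ i ∈ s1, c i • y ^ e i • Φ i = y • G := by
        rw [hG, Finset.smul_sum]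
        refine Finset.sum_congr rfl fun i hi => ?_
        have h2 := (Finset.mem_filter.mp hi).2
        rw [smul_comm y (c i), ← mul_smul, ← pow_succ', Nat.sub_add_cancel (by omega)]
      have hGM : G ∈ MM ((n : ℤ) - 6) := by
        refine sum_mem fun i hi => (MM _).smul_mem _ (hM' h (h.hy _) (hΦ i) ?_)
        have h2 := (Finset.mem_filter.mp hi).2
        have h3 := he i (Finset.mem_filter.mp hi).1
        have h4 : ((e i - 1 : ℕ) : ℤ) = (e i : ℤ) - 1 := by omega
        rw [h4]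
        linarith
      have hl0 := li n s0 (fun i hi => by
        have h2 := (Finset.mem_filter.mp hi).2
        have h3 := he i (Finset.mem_filter.mp hi).1
        have h4 : wt i = (i.1 : ℤ) := rfl
        omega) c
      rw [← hsplit, ← hs0, ← hs1, e0, e1] at h0
      have h5 : ∑ i ∈ s0, c i • Φ i = 0 := by
        refine hC3 n _ hl0.1 ⟨-H, neg_mem hH, -G, neg_mem hGM, ?_⟩
        rw [smul_neg, smul_neg]
        rw [← sub_eq_zero, ← h0]
        abel
      rw [h5, zero_add] at h0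
      obtain ⟨H', hH', hH1, hH2⟩ := h.hdiv n H (-G) hH (neg_mem hGM) (by
        rw [smul_neg]
        exact eq_neg_of_add_eq_zero_left h0)
      have h6 := ih ((n : ℤ) - 6) (by omega) s1 c (fun i => e i - 1) (fun i hi => by
        have h2 := (Finset.mem_filter.mp hi).2
        have h3 := he i (Finset.mem_filter.mp hi).1
        have h4 : ((e i - 1 : ℕ) : ℤ) = (e i : ℤ) - 1 := by omega
        rw [h4]
        linarith) H' (by rw [show (n : ℤ) - 6 - 4 = n - 10 by ring]; exact hH') (by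
          rw [← hG, ← hH2]; simp)
      intro i hi
      by_cases h7 : e i = 0
      · exact hl0.2 h5 i (Finset.mem_filter.mpr ⟨hi, h7⟩)
      · exact h6 i (Finset.mem_filter.mpr ⟨hi, h7⟩)
  -- independence
  have ind : ∀ n : ℕ, ∀ l : ℤ, l < n → ∀ (s : Finset ι) (A : ι → R),
      (∀ i ∈ s, A i ∈ RR (l - wt i)) → ∑ i ∈ s, A i • Φ i = 0 → ∀ i ∈ s, A i = 0 := by
    intro n
    induction n with
    | zero =>
      intro l hl s A hA h0 i hi
      have := hwt i
      exact h.hRneg _ (by push_cast at hl; omega) _ (hA i hi)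
    | succ n ih =>
      intro l hl s A hA h0
      have hdec : ∀ i : ι, ∃ (B : R) (c : K) (e : ℕ), i ∈ s → (B ∈ RR (l - 4 - wt i) ∧
          (c ≠ 0 → 6 * (e : ℤ) + wt i = l) ∧ A i = x * B + c • y ^ e) := by
        intro i
        by_cases hi : i ∈ s
        · obtain ⟨B, hB, c, e, h1, h2⟩ := h.hdec _ _ (hA i hi)
          exact ⟨B, c, e, fun _ => ⟨by
            rw [show l - 4 - wt i = l - wt i - 4 by ring]; exact hB, fun hc => by
            have := h1 hc
            linarith, h2⟩⟩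
        · exact ⟨0, 0, 0, fun h' => absurd h' hi⟩
      choose B c e hdec using hdec
      set H := ∑ i ∈ s, B i • Φ i with hH
      have hHM : H ∈ MM (l - 4) := sum_mem fun i hi => hM' h (hdec i hi).1 (hΦ i) (by ring)
      have e1 : ∑ i ∈ s, A i • Φ i = x • H + ∑ i ∈ s, c i • y ^ e i • Φ i := by
        rw [hH, Finset.smul_sum, ← Finset.sum_add_distrib]
        refine Finset.sum_congr rfl fun i hi => ?_
        rw [(hdec i hi).2.2, add_smul, mul_smul, smul_assoc]
      have e2 : ∑ i ∈ s, c i • y ^ e i • Φ i =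
          ∑ i ∈ s.filter (fun i => c i ≠ 0), c i • y ^ e i • Φ i := by
        refine (Finset.sum_filter_of_ne (p := fun i => c i ≠ 0) fun i hi hne hc => hne ?_).symm
        rw [hc, zero_smul]
      rw [e1, e2] at h0
      have h3 := claim (n + 1) l hl (s.filter (fun i => c i ≠ 0)) c e (fun i hi => by
        have h4 := Finset.mem_filter.mp hi
        exact (hdec i h4.1).2.1 h4.2) H hHM h0
      have h4 : ∀ i ∈ s, c i = 0 := by
        intro i hi
        by_contra hc
        exact hc (h3 i (Finset.mem_filter.mpr ⟨hi, hc⟩))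
      have h5 : ∑ i ∈ s.filter (fun i => c i ≠ 0), c i • y ^ e i • Φ i = 0 := by
        refine Finset.sum_eq_zero fun i hi => ?_
        rw [h4 i (Finset.mem_filter.mp hi).1, zero_smul]
      rw [h5, add_zero] at h0
      have h6 := h.hcan _ H hHM h0
      have h7 := ih (l - 4) (by push_cast at hl; omega) s B (fun i hi => (hdec i hi).1) h6
      intro i hi
      rw [(hdec i hi).2.2, h7 i hi, h4 i hi]
      simp
  refine ⟨ι, wt, Φ, hwt, hΦ, fun l F hF => gen (l.toNat + 1) l (by omega) F hF,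
    fun l s A hA h0 => ind (l.toNat + 1) l (by omega) s A hA h0⟩

end AbsBasis

end FreP

end Pool.Agent.K4H13.CV
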