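import Pool.Agent.K4H13.CV.FreA
import Pool.Agent.K4H13.CV.FreB

/-!
# S_FREE, part C : vector valued forms
-/

set_option autoImplicit false

open Complex Filter Topology Set UpperHalfPlane MatrixGroups CongruenceSubgroup
open scoped Manifold ModularForm

namespace Pool.Agent.K4H13.CV

namespace FreP

variable {N : ℕ} [NeZero N]

noncomputable def XX_fintype : Fintype (XX N) := Fintype.ofFinite _

attribute [local instance] XX_fintype

/-- holomorphic functions which are bounded at `i∞` -/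
def HB : Subalgebra ℂ (ℍ → ℂ) where
  carrier := {f | MDifferentiable 𝓘(ℂ) 𝓘(ℂ) f ∧ IsBoundedAtImInfty f}
  mul_mem' := fun {f g} hf hg => ⟨hf.1.mul hg.1, hf.2.mul hg.2⟩
  add_mem' := fun {f g} hf hg => ⟨hf.1.add hg.1, hf.2.add hg.2⟩
  algebraMap_mem' := fun c => ⟨mdifferentiable_const, const_boundedAtFilter _ c⟩

theorem vm_comp {k : ℤ} {F : ℍ → XX N → ℂ} (h : VM N k F) (x : XX N) :
    (fun z => F z x) ∈ HB := ⟨h.holo x, h.bdd x⟩

theorem lm_HB {k : ℤ} {A : ℍ → ℂ} (h : LM k A) : A ∈ HB := ⟨lm_holo h, lm_bdd h⟩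

/-- the submodule of vector valued forms -/
def MM (N : ℕ) [NeZero N] (k : ℤ) : Submodule ℂ (ℍ → XX N → ℂ) where
  carrier := {F | VM N k F}
  add_mem' := fun {F G} hF hG => ⟨fun x => (hF.holo x).add (hG.holo x), fun γ z x => by
    show F (γ • z) x + G (γ • z) x = _ * (F z _ + G z _)
    rw [hF.mod, hG.mod]; ring, fun x => (hF.bdd x).add (hG.bdd x)⟩
  zero_mem' := ⟨fun x => mdifferentiable_const, fun γ z x => by simp,
    fun x => const_boundedAtFilter _ 0⟩
  smul_mem' := fun c F hF => ⟨fun x => (HB.smul_mem (vm_comp hF x) c).1, fun γ z x => by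
    show c * F (γ • z) x = _ * (c * F z _)
    rw [hF.mod]; ring, fun x => (HB.smul_mem (vm_comp hF x) c).2⟩

theorem vm_smul {a b : ℤ} {A : ℍ → ℂ} {F : ℍ → XX N → ℂ} (hA : LM a A) (hF : VM N b F) :
    VM N (a + b) (A • F) := ⟨fun x => (HB.mul_mem (lm_HB hA) (vm_comp hF x)).1, fun γ z x => by
    show A (γ • z) * F (γ • z) x = _ * (A z * F z _)
    rw [lm_mod hA, hF.mod, zpow_add₀ (denom_ne_zero _ _)]; ring,
    fun x => (HB.mul_mem (lm_HB hA) (vm_comp hF x)).2⟩

theorem vm_neg {k : ℤ} (hk : k < 0) {F : ℍ → XX N → ℂ} (hF : VM N k F) : F = 0 := by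
  have h1 : LM (k * Fintype.card (XX N)) (∏ x : XX N, fun z => F z x) := by
    have hB : (∏ x : XX N, fun z => F z x) ∈ HB := HB.prod_mem fun x _ => vm_comp hF x
    refine lm_mk hB.1 (fun γ z => ?_) hB.2
    rw [Finset.prod_apply, Finset.prod_apply]
    simp_rw [hF.mod γ z]
    rw [Finset.prod_mul_distrib, Finset.prod_const, Finset.card_univ, zpow_mul, zpow_natCast]
    congr 1
    exact Equiv.prod_comp (MulAction.toPerm (γ⁻¹ : SL(2, ℤ)) : Equiv.Perm (XX N)) (fun x => F z x)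
  have hcard : 0 < Fintype.card (XX N) := Fintype.card_pos_iff.mpr ⟨x0 N⟩
  have h2 := lm_neg (mul_neg_of_neg_of_pos hk (by exact_mod_cast hcard)) h1
  obtain ⟨y, -, hy⟩ := (UpperHalfPlane.prod_eq_zero_iff fun x _ => hF.holo x).mp h2
  funext z x
  obtain ⟨γ, hγ⟩ := MulAction.exists_smul_eq (SL(2, ℤ)) x y
  have h3 := hF.mod γ⁻¹ (γ • z) x
  rw [inv_smul_smul, inv_inv, hγ] at h3
  have h4 : F (γ • z) y = 0 := congrFun hy (γ • z)
  rw [h3, h4, mul_zero]
  rfl

theorem vm_can {k : ℤ} {F : ℍ → XX N → ℂ} (hF : VM N k F) (h : e4 • F = 0) : F = 0 := by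
  have h1 : ∀ x : XX N, (fun z => F z x) = 0 := fun x => by
    rcases (UpperHalfPlane.mul_eq_zero_iff (lm_holo lm_e4) (hF.holo x)).mp
      (funext fun z => congrFun (congrFun h z) x) with h | h
    · exfalso
      have h2 : ModularForm.E₄ = 0 := DFunLike.coe_injective h
      exact EisensteinSeries.E_ne_zero (by norm_num) ⟨2, rfl⟩ h2
    · exact h
  funext z x
  exact congrFun (h1 x) z

theorem vm_div {l : ℤ} {F G : ℍ → XX N → ℂ} (hF : VM N (l - 4) F) (hG : VM N (l - 6) G)
    (h : e4 • F = e6 • G) : ∃ H, VM N (l - 10) H ∧ F = e6 • H ∧ G = e4 • H := by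
  classical
  have hp : ∀ z x, e4 z * F z x = e6 z * G z x := fun z x => congrFun (congrFun h z) x
  set H : ℍ → XX N → ℂ := fun z x => if e6 z = 0 then G z x / e4 z else F z x / e6 z with hH
  have h6 : ∀ z x, e6 z * H z x = F z x := by
    intro z x
    simp only [hH]
    split_ifs with h0
    · have h4 : e4 z ≠ 0 := (e_ne z).resolve_right (fun h => h h0)
      have := hp z x
      rw [h0, zero_mul] at this
      rw [h0, zero_mul]
      exact ((mul_eq_zero.mp this).resolve_left h4).symm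
    · field_simp
  have h4 : ∀ z x, e4 z * H z x = G z x := by
    intro z x
    simp only [hH]
    split_ifs with h0
    · have h4 : e4 z ≠ 0 := (e_ne z).resolve_right (fun h => h h0)
      field_simp
    · rw [← mul_div_assoc, hp]
      field_simp
  refine ⟨H, ⟨fun x z0 => ?_, fun γ z x => ?_, fun x => ?_⟩, ?_, ?_⟩
  · have key : ∀ (u v : ℍ → ℂ), MDifferentiable 𝓘(ℂ) 𝓘(ℂ) u → MDifferentiable 𝓘(ℂ) 𝓘(ℂ) v →
        u z0 ≠ 0 → (∀ z, u z * H z x = v z) → MDifferentiableAt 𝓘(ℂ) 𝓘(ℂ) (fun z => H z x) z0 := by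
      intro u v hu hv h0 huv
      rw [UpperHalfPlane.mdifferentiableAt_iff]
      have h1 := UpperHalfPlane.mdifferentiableAt_iff.mp (hu z0)
      have h2 := UpperHalfPlane.mdifferentiableAt_iff.mp (hv z0)
      have h0' : (u ∘ ofComplex) (z0 : ℂ) ≠ 0 := by
        rw [Function.comp_apply, ofComplex_apply]; exact h0
      have h3 := h1.continuousAt.eventually_ne h0'
      refine (h2.div h1 h0').congr_of_eventuallyEq ?_
      filter_upwards [h3] with w hw
      have hw' : u (ofComplex w) ≠ 0 := hw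
      show H (ofComplex w) x = v (ofComplex w) / u (ofComplex w)
      rw [← huv, mul_div_cancel_left₀ _ hw']
    rcases e_ne z0 with h0 | h0
    · exact key e4 _ (lm_holo lm_e4) (hG.holo x) h0 (fun z => h4 z x)
    · exact key e6 _ (lm_holo lm_e6) (hF.holo x) h0 (fun z => h6 z x)
  · have hd : denom (γ : GL (Fin 2) ℝ) z ≠ 0 := denom_ne_zero _ _
    rcases e_ne z with h0 | h0
    · have h1 := h4 (γ • z) x
      rw [hG.mod, ← h4 z, lm_mod lm_e4] at h1
      have h2 : (denom (γ : GL (Fin 2) ℝ) z) ^ (4 : ℤ) * e4 z ≠ 0 :=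
        mul_ne_zero (zpow_ne_zero _ hd) h0
      refine mul_left_cancel₀ h2 ?_
      rw [h1, show l - 6 = 4 + (l - 10) by ring, zpow_add₀ hd]
      ring
    · have h1 := h6 (γ • z) x
      rw [hF.mod, ← h6 z, lm_mod lm_e6] at h1
      have h2 : (denom (γ : GL (Fin 2) ℝ) z) ^ (6 : ℤ) * e6 z ≠ 0 :=
        mul_ne_zero (zpow_ne_zero _ hd) h0
      refine mul_left_cancel₀ h2 ?_
      rw [h1, show l - 4 = 6 + (l - 10) by ring, zpow_add₀ hd]
      ring
  · have h1 : Tendsto (fun z => (e4 z)⁻¹) atImInfty (𝓝 1) := by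
      simpa using e4_tendsto.inv₀ one_ne_zero
    have h2 : (fun z => (e4 z)⁻¹ * G z x) =O[atImInfty] (1 : ℍ → ℝ) := by
      have := (h1.isBigO_one ℝ).mul (hG.bdd x)
      exact this.trans (Asymptotics.isBigO_of_le _ fun z => by simp)
    refine Asymptotics.IsBigO.congr' h2 ?_ EventuallyEq.rfl
    filter_upwards [e4_tendsto.eventually_ne one_ne_zero] with z hz
    rw [← h4 z x, inv_mul_cancel_left₀ hz]
  · funext z x; exact (h6 z x).symm
  · funext z x; exact (h4 z x).symm

theorem grData : GrData RR (MM N) e4 e6 where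
  hx := lm_e4
  hy := fun e => lm_e6_pow e rfl
  hM := fun a b A F hA hF => vm_smul hA hF
  hneg := fun l hl F hF => vm_neg hl hF
  hRneg := fun l hl A hA => lm_neg hl hA
  hRmul := fun a b A B hA hB => lm_mul hA hB rfl
  hdec := fun l A hA => lm_dec hA
  hdiv := fun l F G hF hG h => vm_div hF hG h
  hcan := fun l F hF h => vm_can hF h

end FreP

end Pool.Agent.K4H13.CV
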