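import Pool.Agent.K4H13.CV.GreenB

/-!
# Green's formula on the standard fundamental domain: the boundary
-/

set_option autoImplicit false

open Complex Filter Topology Set MeasureTheory
open scoped ComplexConjugate

namespace Pool.Agent.K4H13.CV.Gr

noncomputable section

/-- the arc -/
def ga (G : ℂ → ℂ) (ξ : ℝ) : ℂ := G (zz ξ 0)

def ga' (G' : ℂ → ℂ) (ξ : ℝ) : ℂ := G' (zz ξ 0) * (1 + (sq' ξ : ℂ) * I)

theorem zz_pos {ξ : ℝ} (hξ : |ξ| < 1) : 0 < (zz ξ 0).im := by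
  rw [zz_im, add_zero]
  exact sq_pos hξ

theorem sq_neg (x : ℝ) : sq (-x) = sq x := by
  simp [sq]

theorem zz_neg {ξ : ℝ} (hξ : |ξ| < 1) : zz (-ξ) 0 = -1 / zz ξ 0 := by
  have h0 : zz ξ 0 ≠ 0 := by
    intro h
    have := zz_pos hξ
    rw [h] at this
    simp at this
  rw [eq_div_iff h0]
  have h1 : ((sq ξ : ℝ) : ℂ) ^ 2 = 1 - (ξ : ℂ) ^ 2 := by
    have := sq_sq hξ
    exact_mod_cast this
  unfold zz
  rw [sq_neg]
  push_cast
  have hI : I * I = -1 := Complex.I_mul_I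
  linear_combination ((sq ξ : ℝ) : ℂ) ^ 2 * hI - h1

section one

variable {G G' : ℂ → ℂ} (hG : ∀ z : ℂ, 0 < z.im → HasDerivAt G (G' z) z)

include hG in
theorem hasDerivAt_ga {ξ : ℝ} (hξ : |ξ| < 1) : HasDerivAt (ga G) (ga' G' ξ) ξ :=
  HasDerivAt.comp (h₂ := G) ξ (hG _ (zz_pos hξ)) (hasDerivAt_zz_x hξ 0)

include hG in
theorem continuousOn_ga' : ContinuousOn (ga' G') {ξ : ℝ | |ξ| < 1} := by
  intro ξ hξ
  have h1 : ContinuousAt (fun ξ : ℝ => G' (zz ξ 0)) ξ :=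
    ContinuousAt.comp (g := G') (hasDerivAt' hG (zz_pos hξ)).continuousAt
      (hasDerivAt_zz_x hξ 0).continuousAt
  have h2 : ContinuousAt sq' ξ := (differentiableAt_sq' hξ).continuousAt
  have h3 : ContinuousAt (fun ξ : ℝ => (1 + (sq' ξ : ℂ) * I)) ξ :=
    continuousAt_const.add ((Complex.continuous_ofReal.continuousAt.comp h2).mul continuousAt_const)
  exact (h1.mul h3).continuousWithinAt

include hG in
theorem continuousOn_ga : ContinuousOn (ga G) {ξ : ℝ | |ξ| < 1} := fun _ hξ =>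
  (hasDerivAt_ga hG hξ).continuousAt.continuousWithinAt

theorem uIcc_sub {a b : ℝ} (ha : |a| < 1) (hb : |b| < 1) : Set.uIcc a b ⊆ {ξ : ℝ | |ξ| < 1} := by
  intro x hx
  rw [Set.uIcc, Set.mem_Icc] at hx
  rw [abs_lt] at ha hb
  show |x| < 1
  rw [abs_lt]
  constructor
  · exact (lt_inf_iff.2 ⟨ha.1, hb.1⟩).trans_le hx.1
  · exact hx.2.trans_lt (sup_lt_iff.2 ⟨ha.2, hb.2⟩)

include hG in
theorem integrable_ga' {a b : ℝ} (ha : |a| < 1) (hb : |b| < 1) :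
    IntervalIntegrable (ga' G') volume a b :=
  ((continuousOn_ga' hG).mono (uIcc_sub ha hb)).intervalIntegrable

include hG in
theorem integrable_ga {a b : ℝ} (ha : |a| < 1) (hb : |b| < 1) :
    IntervalIntegrable (fun ξ => conj (ga G ξ) * ga' G' ξ) volume a b := by
  apply ContinuousOn.intervalIntegrable
  exact (Complex.continuous_conj.comp_continuousOn
    ((continuousOn_ga hG).mono (uIcc_sub ha hb))).mul ((continuousOn_ga' hG).mono (uIcc_sub ha hb))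

include hG in
theorem integral_ga' {a b : ℝ} (ha : |a| < 1) (hb : |b| < 1) :
    ∫ ξ in a..b, ga' G' ξ = ga G b - ga G a :=
  intervalIntegral.integral_eq_sub_of_hasDerivAt
    (fun x hx => hasDerivAt_ga hG (uIcc_sub ha hb hx)) (integrable_ga' hG ha hb)

end one

section all

variable {X : Type} [Fintype X] {σ τ : Equiv.Perm X} {G G' : X → ℂ → ℂ} {d : X → ℂ}
  (hG : ∀ x z, 0 < z.im → HasDerivAt (G x) (G' x z) z)
  (hS : ∀ x z, 0 < z.im → G x (-1 / z) = G (σ x) z + d x)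
  (hT : ∀ x z, 0 < z.im → G x (z + 1) = G (τ x) z)

include hG hT in
theorem G'_T (x : X) {z : ℂ} (hz : 0 < z.im) : G' x (z + 1) = G' (τ x) z := by
  have h1 : HasDerivAt (fun w => G x (w + 1)) (G' x (z + 1)) z := by
    have := hG x (z + 1) (by simpa using hz)
    exact this.comp_add_const z 1
  have h2 := hG (τ x) z hz
  have h3 : (fun w => G x (w + 1)) =ᶠ[𝓝 z] G (τ x) := by
    have hopen : IsOpen {z : ℂ | 0 < z.im} := isOpen_lt continuous_const Complex.continuous_im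
    filter_upwards [hopen.mem_nhds hz] with w hw
    exact hT x w hw
  exact (h1.congr_of_eventuallyEq h3.symm).unique h2

include hS in
theorem ga_neg (x : X) {ξ : ℝ} (hξ : |ξ| < 1) : ga (G x) (-ξ) = ga (G (σ x)) ξ + d x := by
  unfold ga
  rw [zz_neg hξ]
  exact hS x _ (zz_pos hξ)

include hG hS in
theorem ga'_neg (x : X) {ξ : ℝ} (hξ : |ξ| < 1) : ga' (G' x) (-ξ) = -ga' (G' (σ x)) ξ := by
  have hξ' : |-ξ| < 1 := by rwa [abs_neg]
  have h1 : HasDerivAt (fun η : ℝ => ga (G x) (-η)) (-ga' (G' x) (-ξ)) ξ := by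
    have h : HasDerivAt (fun η : ℝ => ga (G x) (-η)) ((-1 : ℝ) • ga' (G' x) (-ξ)) ξ :=
      HasDerivAt.scomp ξ (hasDerivAt_ga (hG x) hξ') (hasDerivAt_neg ξ)
    rwa [neg_one_smul] at h
  have h2 : HasDerivAt (fun η : ℝ => ga (G (σ x)) η + d x) (ga' (G' (σ x)) ξ) ξ :=
    (hasDerivAt_ga (hG (σ x)) hξ).add_const (d x)
  have h3 : (fun η : ℝ => ga (G x) (-η)) =ᶠ[𝓝 ξ] fun η : ℝ => ga (G (σ x)) η + d x := by
    have hopen : IsOpen {η : ℝ | |η| < 1} := isOpen_lt continuous_abs continuous_const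
    filter_upwards [hopen.mem_nhds hξ] with w hw
    exact ga_neg hS x hw
  have h4 := (h1.congr_of_eventuallyEq h3.symm).unique h2
  rw [← h4, neg_neg]

include hG hS in
/-- the integral over the arc -/
theorem arc : ∑ x, ∫ ξ in (-(1 / 2) : ℝ)..(1 / 2), conj (ga (G x) ξ) * ga' (G' x) ξ =
    ∑ x, conj (d x) * (ga (G (σ x)) (-(1 / 2)) - ga (G (σ x)) 0) := by
  have a1 : |(-(1 / 2) : ℝ)| < 1 := by rw [abs_lt]; constructor <;> norm_num
  have a2 : |(1 / 2 : ℝ)| < 1 := by rw [abs_lt]; constructor <;> norm_num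
  have a0 : |(0 : ℝ)| < 1 := by simp
  have h1 : ∀ x, ∫ ξ in (-(1 / 2) : ℝ)..(1 / 2), conj (ga (G x) ξ) * ga' (G' x) ξ =
      (∫ ξ in (-(1 / 2) : ℝ)..0, conj (ga (G x) ξ) * ga' (G' x) ξ) -
      (∫ ξ in (-(1 / 2) : ℝ)..0, conj (ga (G (σ x)) ξ) * ga' (G' (σ x)) ξ) +
      conj (d x) * (ga (G (σ x)) (-(1 / 2)) - ga (G (σ x)) 0) := by
    intro x
    rw [← intervalIntegral.integral_add_adjacent_intervals (integrable_ga (hG x) a1 a0)
      (integrable_ga (hG x) a0 a2)]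
    have h2 : ∫ ξ in (0 : ℝ)..(1 / 2), conj (ga (G x) ξ) * ga' (G' x) ξ =
        ∫ ξ in (-(1 / 2) : ℝ)..0, conj (ga (G x) (-ξ)) * ga' (G' x) (-ξ) := by
      rw [intervalIntegral.integral_comp_neg (fun ξ => conj (ga (G x) ξ) * ga' (G' x) ξ)]
      simp
    have h3 : ∫ ξ in (-(1 / 2) : ℝ)..0, conj (ga (G x) (-ξ)) * ga' (G' x) (-ξ) =
        ∫ ξ in (-(1 / 2) : ℝ)..0, (-(conj (ga (G (σ x)) ξ) * ga' (G' (σ x)) ξ) -
          conj (d x) * ga' (G' (σ x)) ξ) := by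
      apply intervalIntegral.integral_congr
      intro ξ hξ
      have hξ' : |ξ| < 1 := uIcc_sub a1 a0 hξ
      simp only
      rw [ga_neg hS x hξ', ga'_neg hG hS x hξ', map_add]
      ring
    have h4 : IntervalIntegrable (fun ξ => -(conj (ga (G (σ x)) ξ) * ga' (G' (σ x)) ξ)) volume
        (-(1 / 2)) 0 := (integrable_ga (hG (σ x)) a1 a0).neg
    have h5 : IntervalIntegrable (fun ξ => conj (d x) * ga' (G' (σ x)) ξ) volume
        (-(1 / 2)) 0 := (integrable_ga' (hG (σ x)) a1 a0).const_mul _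
    rw [h2, h3, intervalIntegral.integral_sub h4 h5, intervalIntegral.integral_neg,
      intervalIntegral.integral_const_mul, integral_ga' (hG (σ x)) a1 a0]
    ring
  simp only [h1]
  rw [Finset.sum_add_distrib, Finset.sum_sub_distrib,
    Equiv.sum_comp σ (fun x => ∫ ξ in (-(1 / 2) : ℝ)..0, conj (ga (G x) ξ) * ga' (G' x) ξ)]
  simp

include hG hT in
theorem side (T : ℝ) (hT0 : 0 ≤ T) :
    ∑ x, ∫ t in (0 : ℝ)..T, ff (G x) (G' x) (1 / 2, t) =
    ∑ x, ∫ t in (0 : ℝ)..T, ff (G x) (G' x) (-(1 / 2), t) := by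
  rw [← Equiv.sum_comp τ (fun x => ∫ t in (0 : ℝ)..T, ff (G x) (G' x) (-(1 / 2), t))]
  apply Finset.sum_congr rfl
  intro x _
  apply intervalIntegral.integral_congr
  intro t ht
  rw [Set.uIcc_of_le hT0] at ht
  have a1 : |(-(1 / 2) : ℝ)| < 1 := by rw [abs_lt]; constructor <;> norm_num
  have hz : 0 < (zz (-(1 / 2)) t).im := by
    rw [zz_im]
    linarith [sq_pos a1, ht.1]
  have h1 : zz (1 / 2) t = zz (-(1 / 2)) t + 1 := by
    unfold zz
    rw [sq_neg]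
    push_cast
    ring
  simp only [ff, hh]
  rw [h1, hT x _ hz, G'_T hG hT x hz]

include hG hS hT in
/-- Green's formula, complex form -/
theorem green_complex {K c : ℝ} (hc : 0 < c)
    (hb : ∀ x z, 1 / 2 ≤ z.im →
      ‖G x z‖ ≤ K * Real.exp (-(c * z.im)) ∧ ‖G' x z‖ ≤ K * Real.exp (-(c * z.im))) :
    2 * I * ((∑ x, ∫ p in Fd, ‖G' x ((p.1 : ℂ) + (p.2 : ℂ) * I)‖ ^ 2 : ℝ) : ℂ) =
      ∑ x, conj (d x) * (ga (G (σ x)) (-(1 / 2)) - ga (G (σ x)) 0) := by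
  rw [← arc hG hS]
  have hcont : ∀ x, ContinuousOn (G' x) {z : ℂ | 0 < z.im} := fun x z hz =>
    (hasDerivAt' (hG x) hz).continuousAt.continuousWithinAt
  have hint : ∀ x, IntegrableOn (fun p : ℝ × ℝ => ‖G' x ((p.1 : ℂ) + (p.2 : ℂ) * I)‖ ^ 2) Fd :=
    fun x => integrable_Fd hc (hcont x) fun z hz => (hb x z hz).2
  -- the formula for the truncated domain
  have h1 : ∀ n : ℕ, 2 * I * ((∑ x, ∫ p in Fn n, ‖G' x ((p.1 : ℂ) + (p.2 : ℂ) * I)‖ ^ 2 : ℝ) : ℂ) =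
      (∑ x, ∫ ξ in (-(1 / 2) : ℝ)..(1 / 2), gg (G x) (G' x) (ξ, n)) +
      ∑ x, ∫ ξ in (-(1 / 2) : ℝ)..(1 / 2), conj (ga (G x) ξ) * ga' (G' x) ξ := by
    intro n
    have h2 : ∀ x, 2 * I * ((∫ p in Fn n, ‖G' x ((p.1 : ℂ) + (p.2 : ℂ) * I)‖ ^ 2 : ℝ) : ℂ) =
        ((∫ ξ in (-(1 / 2) : ℝ)..(1 / 2), gg (G x) (G' x) (ξ, n)) +
        ∫ ξ in (-(1 / 2) : ℝ)..(1 / 2), conj (ga (G x) ξ) * ga' (G' x) ξ) +
        ((∫ t in (0 : ℝ)..n, ff (G x) (G' x) (1 / 2, t)) -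
          ∫ t in (0 : ℝ)..n, ff (G x) (G' x) (-(1 / 2), t)) := by
      intro x
      rw [fub (Nat.cast_nonneg n) ((hint x).mono_set (Fn_sub n))]
      have h3 := green_rect (hG x) (T := (n : ℝ)) (Nat.cast_nonneg n)
      have h4 : ∫ ξ in (-(1 / 2) : ℝ)..(1 / 2), ∫ t in (0 : ℝ)..n,
          2 * I * ((‖G' x (zz ξ t)‖ ^ 2 : ℝ) : ℂ) =
          2 * I * ((∫ ξ in (-(1 / 2) : ℝ)..(1 / 2), ∫ t in (0 : ℝ)..n,
            ‖G' x (((ξ, sq ξ + t) : ℝ × ℝ).1 + (((ξ, sq ξ + t) : ℝ × ℝ).2 : ℂ) * I)‖ ^ 2 : ℝ) : ℂ) := by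
        rw [← intervalIntegral.integral_ofReal, ← intervalIntegral.integral_const_mul]
        apply intervalIntegral.integral_congr
        intro ξ _
        simp only
        rw [← intervalIntegral.integral_ofReal, ← intervalIntegral.integral_const_mul]
        rfl
      rw [← h4, h3]
      have h5 : ∫ ξ in (-(1 / 2) : ℝ)..(1 / 2), gg (G x) (G' x) (ξ, 0) =
          -∫ ξ in (-(1 / 2) : ℝ)..(1 / 2), conj (ga (G x) ξ) * ga' (G' x) ξ := by
        rw [← intervalIntegral.integral_neg]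
        apply intervalIntegral.integral_congr
        intro ξ _
        simp only [gg, hh, ga, ga']
        ring
      rw [h5]
      ring
    push_cast
    rw [Finset.mul_sum, Finset.sum_congr rfl fun x _ => h2 x, Finset.sum_add_distrib,
      Finset.sum_add_distrib, Finset.sum_sub_distrib, side hG hT n (Nat.cast_nonneg n), sub_self,
      add_zero]
  -- limits
  have h6 : Tendsto (fun n : ℕ => 2 * I *
      ((∑ x, ∫ p in Fn n, ‖G' x ((p.1 : ℂ) + (p.2 : ℂ) * I)‖ ^ 2 : ℝ) : ℂ)) atTop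
      (𝓝 (2 * I * ((∑ x, ∫ p in Fd, ‖G' x ((p.1 : ℂ) + (p.2 : ℂ) * I)‖ ^ 2 : ℝ) : ℂ))) := by
    apply Tendsto.const_mul
    apply (Complex.continuous_ofReal.tendsto _).comp
    apply tendsto_finsetSum
    intro x _
    have h7 := tendsto_setIntegral_of_monotone (μ := volume)
      (f := fun p : ℝ × ℝ => ‖G' x ((p.1 : ℂ) + (p.2 : ℂ) * I)‖ ^ 2)
      (s := fun n : ℕ => Fn n) (fun n => measurableSet_Fn n) mono_Fn
      (by rw [iUnion_Fn]; exact hint x)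
    rw [iUnion_Fn] at h7
    exact h7
  have h8 : Tendsto (fun n : ℕ => (∑ x, ∫ ξ in (-(1 / 2) : ℝ)..(1 / 2), gg (G x) (G' x) (ξ, n)) +
      ∑ x, ∫ ξ in (-(1 / 2) : ℝ)..(1 / 2), conj (ga (G x) ξ) * ga' (G' x) ξ) atTop
      (𝓝 (∑ x, ∫ ξ in (-(1 / 2) : ℝ)..(1 / 2), conj (ga (G x) ξ) * ga' (G' x) ξ)) := by
    have h9 : Tendsto (fun n : ℕ => ∑ x, ∫ ξ in (-(1 / 2) : ℝ)..(1 / 2), gg (G x) (G' x) (ξ, n))
        atTop (𝓝 (∑ _x : X, 0)) := tendsto_finsetSum _ fun x _ => top_tendsto hc (hb x)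
    simpa using h9.add_const
      (∑ x, ∫ ξ in (-(1 / 2) : ℝ)..(1 / 2), conj (ga (G x) ξ) * ga' (G' x) ξ)
  exact tendsto_nhds_unique h6 (by simpa only [h1] using h8)

end all

/-- Green's formula on the fundamental domain -/
theorem green (X : Type) [Fintype X] (σ τ : Equiv.Perm X) (G G' : X → ℂ → ℂ) (d : X → ℂ)
    (hG : ∀ x z, 0 < z.im → HasDerivAt (G x) (G' x z) z)
    (hb : ∃ K c : ℝ, 0 < c ∧ ∀ x z, 1 / 2 ≤ z.im →
      ‖G x z‖ ≤ K * Real.exp (-(c * z.im)) ∧ ‖G' x z‖ ≤ K * Real.exp (-(c * z.im)))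
    (hT : ∀ x z, 0 < z.im → G x (z + 1) = G (τ x) z)
    (hS : ∀ x z, 0 < z.im → G x (-1 / z) = G (σ x) z + d x) :
    ∑ x, ∫ p in {p : ℝ × ℝ | |p.1| ≤ 1 / 2 ∧ 1 ≤ p.1 ^ 2 + p.2 ^ 2 ∧ 0 < p.2},
      ‖G' x ((p.1 : ℂ) + (p.2 : ℂ) * Complex.I)‖ ^ 2 =
    ∑ x, (d x).re * ((G (σ x) (-1 / 2 + (Real.sqrt 3 / 2 : ℝ) * Complex.I)).im -
      (G (σ x) Complex.I).im) := by
  obtain ⟨K, c, hc, hb⟩ := hb
  have h1 := green_complex hG hS hT hc hb
  have a1 : |(-(1 / 2) : ℝ)| < 1 := by rw [abs_lt]; constructor <;> norm_num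
  have a0 : |(0 : ℝ)| < 1 := by simp
  -- the points
  have e0 : zz 0 0 = I := by
    simp [zz, sq]
  have eρ : zz (-(1 / 2)) 0 = -1 / 2 + (Real.sqrt 3 / 2 : ℝ) * Complex.I := by
    have h2 : sq (-(1 / 2)) = Real.sqrt 3 / 2 := by
      unfold sq
      rw [show (1 : ℝ) - (-(1 / 2)) ^ 2 = 3 / 2 ^ 2 by norm_num, Real.sqrt_div (by norm_num),
        Real.sqrt_sq (by norm_num)]
    unfold zz
    rw [h2]
    push_cast
    ring
  set ρ : ℂ := -1 / 2 + (Real.sqrt 3 / 2 : ℝ) * Complex.I with hρ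
  have hg0 : ∀ x, ga (G x) 0 = G x I := fun x => by rw [ga, e0]
  have hgρ : ∀ x, ga (G x) (-(1 / 2)) = G x ρ := fun x => by rw [ga, eρ]
  have hzρ : 0 < ρ.im := by
    rw [← eρ]
    exact zz_pos a1
  simp only [hg0, hgρ] at h1
  -- the relations at the end points
  have r0 : ∀ x, G x I = G (σ x) I + d x := by
    intro x
    have h2 := hS x I (by simp)
    have h3 : (-1 : ℂ) / I = I := by
      rw [div_eq_iff Complex.I_ne_zero, Complex.I_mul_I]
    rwa [h3] at h2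
  have rρ : ∀ x, G (τ x) ρ = G (σ x) ρ + d x := by
    intro x
    rw [← hT x ρ hzρ, ← hS x ρ hzρ]
    congr 1
    rw [← eρ, ← zz_neg a1]
    unfold zz
    rw [sq_neg]
    push_cast
    ring_nf
  -- `Σ u v` is invariant
  have s0 : ∑ x, ((d x).re * (G (σ x) I).im + (d x).im * (G (σ x) I).re + (d x).re * (d x).im) = 0 := by
    have h2 : ∑ x, (G x I).re * (G x I).im = ∑ x, (G (σ x) I).re * (G (σ x) I).im :=
      (Equiv.sum_comp σ (fun x => (G x I).re * (G x I).im)).symm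
    have h3 : ∑ x, (G x I).re * (G x I).im = ∑ x, ((G (σ x) I).re * (G (σ x) I).im +
        ((d x).re * (G (σ x) I).im + (d x).im * (G (σ x) I).re + (d x).re * (d x).im)) := by
      apply Finset.sum_congr rfl
      intro x _
      rw [r0 x, Complex.add_re, Complex.add_im]
      ring
    rw [Finset.sum_add_distrib] at h3
    linarith
  have sρ : ∑ x, ((d x).re * (G (σ x) ρ).im + (d x).im * (G (σ x) ρ).re + (d x).re * (d x).im) = 0 := by
    have h2 : ∑ x, (G (τ x) ρ).re * (G (τ x) ρ).im = ∑ x, (G (σ x) ρ).re * (G (σ x) ρ).im :=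
      (Equiv.sum_comp τ (fun x => (G x ρ).re * (G x ρ).im)).trans
        (Equiv.sum_comp σ (fun x => (G x ρ).re * (G x ρ).im)).symm
    have h3 : ∑ x, (G (τ x) ρ).re * (G (τ x) ρ).im = ∑ x, ((G (σ x) ρ).re * (G (σ x) ρ).im +
        ((d x).re * (G (σ x) ρ).im + (d x).im * (G (σ x) ρ).re + (d x).re * (d x).im)) := by
      apply Finset.sum_congr rfl
      intro x _
      rw [rρ x, Complex.add_re, Complex.add_im]
      ring
    rw [Finset.sum_add_distrib] at h3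
    linarith
  -- the imaginary part
  have h4 := congrArg Complex.im h1
  have h5 : (2 * I * ((∑ x, ∫ p in Fd, ‖G' x ((p.1 : ℂ) + (p.2 : ℂ) * I)‖ ^ 2 : ℝ) : ℂ)).im =
      2 * ∑ x, ∫ p in Fd, ‖G' x ((p.1 : ℂ) + (p.2 : ℂ) * I)‖ ^ 2 := by
    rw [Complex.im_mul_ofReal]
    simp
  rw [h5, Complex.im_sum] at h4
  have h6 : ∀ x, (conj (d x) * (G (σ x) ρ - G (σ x) I)).im =
      2 * ((d x).re * ((G (σ x) ρ).im - (G (σ x) I).im)) -
      ((d x).re * (G (σ x) ρ).im + (d x).im * (G (σ x) ρ).re + (d x).re * (d x).im) +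
      ((d x).re * (G (σ x) I).im + (d x).im * (G (σ x) I).re + (d x).re * (d x).im) := by
    intro x
    simp only [Complex.mul_im, Complex.conj_re, Complex.conj_im, Complex.sub_re, Complex.sub_im]
    ring
  simp only [h6] at h4
  rw [Finset.sum_add_distrib, Finset.sum_sub_distrib, s0, sρ, ← Finset.mul_sum] at h4
  show ∑ x, ∫ p in Fd, ‖G' x ((p.1 : ℂ) + (p.2 : ℂ) * I)‖ ^ 2 = _
  linarith

end

end Pool.Agent.K4H13.CV.Gr
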