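import Pool.Agent.K4H13.CV.Stm2
import Pool.Agent.K4H13.CV.GreenC

set_option autoImplicit false

namespace Pool.Agent.K4H13.CV

theorem s_green : S_GREEN := by
  intro X _ σ τ G G' d hG hb hT hS
  exact Gr.green X σ τ G G' d hG hb hT hS

end Pool.Agent.K4H13.CV
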