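import Mathlib

/-!
# Green's formula on the standard fundamental domain
-/

set_option autoImplicit false

open Complex Filter Topology Set MeasureTheory
open scoped ComplexConjugate

namespace Pool.Agent.K4H13.CV.Gr

noncomputable section

/-- the height of the arc -/
def sq (x : ℝ) : ℝ := Real.sqrt (1 - x ^ 2)

def sq' (x : ℝ) : ℝ := -x / sq x

def zz (x t : ℝ) : ℂ := (x : ℂ) + ((sq x + t : ℝ) : ℂ) * I

theorem zz_im (x t : ℝ) : (zz x t).im = sq x + t := by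
  simp [zz]

theorem one_sub_pos {x : ℝ} (hx : |x| < 1) : 0 < 1 - x ^ 2 := by
  have := abs_lt.1 hx
  nlinarith

theorem sq_pos {x : ℝ} (hx : |x| < 1) : 0 < sq x := Real.sqrt_pos.2 (one_sub_pos hx)

theorem sq_sq {x : ℝ} (hx : |x| < 1) : sq x ^ 2 = 1 - x ^ 2 := Real.sq_sqrt (one_sub_pos hx).le

theorem lt_one_of_half {x : ℝ} (hx : |x| ≤ 1 / 2) : |x| < 1 := by linarith

theorem half_le_sq {x : ℝ} (hx : |x| ≤ 1 / 2) : 1 / 2 ≤ sq x := by
  have h1 := abs_le.1 hx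
  apply Real.le_sqrt_of_sq_le
  nlinarith

theorem hasDerivAt_sq {x : ℝ} (hx : |x| < 1) : HasDerivAt sq (sq' x) x := by
  have h1 : HasDerivAt (fun y : ℝ => 1 - y ^ 2) (-(2 * x)) x := by
    simpa using (hasDerivAt_pow 2 x).const_sub 1
  have h2 : HasDerivAt sq (-(2 * x) / (2 * Real.sqrt (1 - x ^ 2))) x :=
    h1.sqrt (one_sub_pos hx).ne'
  convert h2 using 1
  unfold sq' sq
  have h3 : Real.sqrt (1 - x ^ 2) ≠ 0 := (sq_pos hx).ne'
  field_simp

theorem hasDerivAt_zz_x {x : ℝ} (hx : |x| < 1) (t : ℝ) :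
    HasDerivAt (fun y : ℝ => zz y t) (1 + (sq' x : ℂ) * I) x := by
  unfold zz
  have h1 : HasDerivAt (fun y : ℝ => (y : ℂ)) 1 x := by
    simpa using (hasDerivAt_id x).ofReal_comp
  have h2 : HasDerivAt (fun y : ℝ => ((sq y + t : ℝ) : ℂ)) (sq' x : ℂ) x :=
    ((hasDerivAt_sq hx).add_const t).ofReal_comp
  exact h1.add (h2.mul_const I)

theorem hasDerivAt_zz_t (x t : ℝ) :
    HasDerivAt (fun y : ℝ => zz x y) I t := by
  unfold zz
  have h2 : HasDerivAt (fun y : ℝ => ((sq x + y : ℝ) : ℂ)) ((1 : ℝ) : ℂ) t :=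
    ((hasDerivAt_id t).const_add (sq x)).ofReal_comp
  simpa using (h2.mul_const I).const_add (x : ℂ)

theorem differentiableAt_zz {p : ℝ × ℝ} (hp : |p.1| < 1) :
    DifferentiableAt ℝ (fun p : ℝ × ℝ => zz p.1 p.2) p := by
  unfold zz
  have h1 : DifferentiableAt ℝ (fun p : ℝ × ℝ => sq p.1) p :=
    (hasDerivAt_sq hp).differentiableAt.comp p differentiableAt_fst
  have h2 : DifferentiableAt ℝ (fun p : ℝ × ℝ => sq p.1 + p.2) p := h1.add differentiableAt_snd
  have h3 : DifferentiableAt ℝ (fun r : ℝ => (r : ℂ)) (sq p.1 + p.2) :=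
    Complex.ofRealCLM.differentiableAt
  have h4 : DifferentiableAt ℝ (fun r : ℝ => (r : ℂ)) p.1 := Complex.ofRealCLM.differentiableAt
  have h5 : DifferentiableAt ℝ (fun p : ℝ × ℝ => ((sq p.1 + p.2 : ℝ) : ℂ)) p := h3.comp p h2
  have h6 : DifferentiableAt ℝ (fun p : ℝ × ℝ => (p.1 : ℂ)) p := h4.comp p differentiableAt_fst
  exact h6.add (h5.mul_const I)

section one

variable {G G' : ℂ → ℂ} (hG : ∀ z : ℂ, 0 < z.im → HasDerivAt G (G' z) z)

include hG in
theorem hasDerivAt' {z : ℂ} (hz : 0 < z.im) : HasDerivAt G' (deriv G' z) z := by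
  have hopen : IsOpen {z : ℂ | 0 < z.im} := isOpen_lt continuous_const Complex.continuous_im
  have h1 : DifferentiableOn ℂ G {z : ℂ | 0 < z.im} := fun z hz =>
    (hG z hz).differentiableAt.differentiableWithinAt
  have h2 := h1.deriv hopen
  have h3 : DifferentiableOn ℂ G' {z : ℂ | 0 < z.im} :=
    h2.congr fun z hz => ((hG z hz).deriv).symm
  exact ((h3 z hz).differentiableAt (hopen.mem_nhds hz)).hasDerivAt

/-- the function `conj G * G'` -/
def hh (G G' : ℂ → ℂ) (z : ℂ) : ℂ := conj (G z) * G' z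

def ff (G G' : ℂ → ℂ) (p : ℝ × ℝ) : ℂ := I * hh G G' (zz p.1 p.2)

def gg (G G' : ℂ → ℂ) (p : ℝ × ℝ) : ℂ := -((1 + (sq' p.1 : ℂ) * I) * hh G G' (zz p.1 p.2))

include hG in
theorem differentiableAt_hh {p : ℝ × ℝ} (hp : |p.1| < 1) (hp2 : 0 < sq p.1 + p.2) :
    DifferentiableAt ℝ (fun p : ℝ × ℝ => hh G G' (zz p.1 p.2)) p := by
  have hz : 0 < (zz p.1 p.2).im := by rw [zz_im]; exact hp2
  have h1 : DifferentiableAt ℝ (fun p : ℝ × ℝ => G (zz p.1 p.2)) p :=
    DifferentiableAt.comp p (g := G) ((hG _ hz).differentiableAt.restrictScalars ℝ)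
      (differentiableAt_zz hp)
  have h2 : DifferentiableAt ℝ (fun p : ℝ × ℝ => G' (zz p.1 p.2)) p :=
    DifferentiableAt.comp p (g := G') ((hasDerivAt' hG hz).differentiableAt.restrictScalars ℝ)
      (differentiableAt_zz hp)
  exact h1.star.mul h2

theorem differentiableAt_sq' {x : ℝ} (hx : |x| < 1) : DifferentiableAt ℝ sq' x := by
  unfold sq'
  exact (differentiableAt_id.neg).div (hasDerivAt_sq hx).differentiableAt (sq_pos hx).ne'

include hG in
theorem diff_ff {p : ℝ × ℝ} (hp : |p.1| < 1) (hp2 : 0 < sq p.1 + p.2) :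
    DifferentiableAt ℝ (ff G G') p :=
  (differentiableAt_hh hG hp hp2).const_mul I

include hG in
theorem diff_gg {p : ℝ × ℝ} (hp : |p.1| < 1) (hp2 : 0 < sq p.1 + p.2) :
    DifferentiableAt ℝ (gg G G') p := by
  have h1 : DifferentiableAt ℝ (fun p : ℝ × ℝ => sq' p.1) p :=
    (differentiableAt_sq' hp).comp p differentiableAt_fst
  have h2 : DifferentiableAt ℝ (fun p : ℝ × ℝ => (sq' p.1 : ℂ)) p :=
    (Complex.ofRealCLM.differentiableAt (x := sq' p.1)).comp p h1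
  exact (((h2.mul_const I).const_add 1).mul (differentiableAt_hh hG hp hp2)).neg

include hG in
theorem hasDerivAt_comp {γ : ℝ → ℂ} {γ' : ℂ} {x : ℝ} (hz : 0 < (γ x).im)
    (hγ : HasDerivAt γ γ' x) :
    HasDerivAt (fun y => hh G G' (γ y))
      (conj (G' (γ x) * γ') * G' (γ x) + conj (G (γ x)) * (deriv G' (γ x) * γ')) x := by
  have h1 : HasDerivAt (fun y => G (γ y)) (G' (γ x) * γ') x :=
    HasDerivAt.comp (h₂ := G) x (hG _ hz) hγ
  have h2 : HasDerivAt (fun y => G' (γ y)) (deriv G' (γ x) * γ') x :=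
    HasDerivAt.comp (h₂ := G') x (hasDerivAt' hG hz) hγ
  exact h1.star.mul h2

include hG in
theorem div_eq {x t : ℝ} (hx : |x| < 1) (ht : 0 < sq x + t) :
    fderiv ℝ (ff G G') (x, t) (1, 0) + fderiv ℝ (gg G G') (x, t) (0, 1) =
      2 * I * ((‖G' (zz x t)‖ ^ 2 : ℝ) : ℂ) := by
  have hz : 0 < (zz x t).im := by rw [zz_im]; exact ht
  have e1 : HasDerivAt (fun y : ℝ => ff G G' (y, t)) (fderiv ℝ (ff G G') (x, t) (1, 0)) x := by
    have h1 : HasDerivAt (fun y : ℝ => (y, t)) ((1 : ℝ), (0 : ℝ)) x :=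
      (hasDerivAt_id x).prodMk (hasDerivAt_const x t)
    exact (diff_ff hG (p := (x, t)) hx ht).hasFDerivAt.comp_hasDerivAt x h1
  have e2 : HasDerivAt (fun y : ℝ => gg G G' (x, y)) (fderiv ℝ (gg G G') (x, t) (0, 1)) t := by
    have h1 : HasDerivAt (fun y : ℝ => (x, y)) ((0 : ℝ), (1 : ℝ)) t :=
      (hasDerivAt_const t x).prodMk (hasDerivAt_id t)
    exact (diff_gg hG (p := (x, t)) hx ht).hasFDerivAt.comp_hasDerivAt t h1
  have d1 := (hasDerivAt_comp hG (γ := fun y => zz y t) hz (hasDerivAt_zz_x hx t)).const_mul I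
  have d2 := ((hasDerivAt_comp hG (γ := fun y => zz x y) hz (hasDerivAt_zz_t x t)).const_mul
    (1 + (sq' x : ℂ) * I)).neg
  rw [e1.unique d1, e2.unique d2]
  have h3 : ((‖G' (zz x t)‖ ^ 2 : ℝ) : ℂ) = conj (G' (zz x t)) * G' (zz x t) := by
    rw [mul_comm, Complex.mul_conj, Complex.normSq_eq_norm_sq]
  rw [h3]
  simp only [map_mul, map_add, map_one, Complex.conj_ofReal, Complex.conj_I]
  ring

end one

end

end Pool.Agent.K4H13.CV.Gr
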