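import Pool.Agent.K4H13.CV.GreenA

/-!
# Green's formula on the standard fundamental domain: rectangles, limits
-/

set_option autoImplicit false

open Complex Filter Topology Set MeasureTheory
open scoped ComplexConjugate

namespace Pool.Agent.K4H13.CV.Gr

noncomputable section

section one

variable {G G' : ℂ → ℂ} (hG : ∀ z : ℂ, 0 < z.im → HasDerivAt G (G' z) z)

include hG in
theorem green_rect {T : ℝ} (hT : 0 ≤ T) :
    ∫ x in (-(1 / 2) : ℝ)..(1 / 2), ∫ t in (0 : ℝ)..T, 2 * I * ((‖G' (zz x t)‖ ^ 2 : ℝ) : ℂ) =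
      ((∫ x in (-(1 / 2) : ℝ)..(1 / 2), gg G G' (x, T)) -
        ∫ x in (-(1 / 2) : ℝ)..(1 / 2), gg G G' (x, 0)) +
        (∫ t in (0 : ℝ)..T, ff G G' (1 / 2, t)) - ∫ t in (0 : ℝ)..T, ff G G' (-(1 / 2), t) := by
  have hrect : ∀ p : ℝ × ℝ, p ∈ Set.uIcc (-(1 / 2) : ℝ) (1 / 2) ×ˢ Set.uIcc (0 : ℝ) T →
      |p.1| < 1 ∧ 0 < sq p.1 + p.2 := by
    rintro p ⟨h1, h2⟩
    rw [Set.uIcc_of_le (by norm_num)] at h1
    rw [Set.uIcc_of_le hT] at h2
    have h3 : |p.1| ≤ 1 / 2 := abs_le.2 h1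
    exact ⟨lt_one_of_half h3, add_pos_of_pos_of_nonneg (sq_pos (lt_one_of_half h3)) h2.1⟩
  have hsub : ∀ p : ℝ × ℝ, p ∈ Set.Ioo (min (-(1 / 2) : ℝ) (1 / 2)) (max (-(1 / 2) : ℝ) (1 / 2)) ×ˢ
      Set.Ioo (min (0 : ℝ) T) (max 0 T) \ ∅ →
      p ∈ Set.uIcc (-(1 / 2) : ℝ) (1 / 2) ×ˢ Set.uIcc (0 : ℝ) T := by
    rintro p ⟨⟨h1, h2⟩, -⟩
    exact ⟨Set.Ioo_subset_Icc_self h1, Set.Ioo_subset_Icc_self h2⟩
  have hkey : ∀ p ∈ Set.uIcc (-(1 / 2) : ℝ) (1 / 2) ×ˢ Set.uIcc (0 : ℝ) T,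
      fderiv ℝ (ff G G') p (1, 0) + fderiv ℝ (gg G G') p (0, 1) =
        2 * I * ((‖G' (zz p.1 p.2)‖ ^ 2 : ℝ) : ℂ) := by
    rintro p hp
    exact div_eq hG (x := p.1) (t := p.2) (hrect p hp).1 (hrect p hp).2
  have hcont : ContinuousOn (fun p : ℝ × ℝ => G' (zz p.1 p.2))
      (Set.uIcc (-(1 / 2) : ℝ) (1 / 2) ×ˢ Set.uIcc (0 : ℝ) T) := by
    intro p hp
    obtain ⟨h1, h2⟩ := hrect p hp
    have hz : 0 < (zz p.1 p.2).im := by rw [zz_im]; exact h2
    have h3 : ContinuousAt (fun p : ℝ × ℝ => G' (zz p.1 p.2)) p :=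
      ContinuousAt.comp (g := G') (hasDerivAt' hG hz).continuousAt
        (differentiableAt_zz h1).continuousAt
    exact h3.continuousWithinAt
  have hint : IntegrableOn (fun p : ℝ × ℝ => 2 * I * ((‖G' (zz p.1 p.2)‖ ^ 2 : ℝ) : ℂ))
      (Set.uIcc (-(1 / 2) : ℝ) (1 / 2) ×ˢ Set.uIcc (0 : ℝ) T) volume := by
    apply ContinuousOn.integrableOn_compact (isCompact_uIcc.prod isCompact_uIcc)
    exact continuousOn_const.mul (Complex.continuous_ofReal.comp_continuousOn (hcont.norm.pow 2))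
  have hmeas : MeasurableSet (Set.uIcc (-(1 / 2) : ℝ) (1 / 2) ×ˢ Set.uIcc (0 : ℝ) T) :=
    measurableSet_uIcc.prod measurableSet_uIcc
  have h := integral2_divergence_prod_of_hasFDerivAt_off_countable (ff G G') (gg G G')
    (fderiv ℝ (ff G G')) (fderiv ℝ (gg G G')) (-(1 / 2)) 0 (1 / 2) T ∅ Set.countable_empty
    (fun p hp => (diff_ff hG (hrect p hp).1 (hrect p hp).2).continuousAt.continuousWithinAt)
    (fun p hp => (diff_gg hG (hrect p hp).1 (hrect p hp).2).continuousAt.continuousWithinAt)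
    (fun p hp => (diff_ff hG (hrect p (hsub p hp)).1 (hrect p (hsub p hp)).2).hasFDerivAt)
    (fun p hp => (diff_gg hG (hrect p (hsub p hp)).1 (hrect p (hsub p hp)).2).hasFDerivAt)
    (hint.congr_fun (fun p hp => (hkey p hp).symm) hmeas)
  rw [← h]
  apply intervalIntegral.integral_congr
  intro x hx
  simp only
  apply intervalIntegral.integral_congr
  intro t ht
  exact (hkey (x, t) ⟨hx, ht⟩).symm

end one

theorem abs_sq'_le {x : ℝ} (hx : |x| ≤ 1 / 2) : |sq' x| ≤ 1 := by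
  unfold sq'
  have h1 := half_le_sq hx
  have h2 : 0 < sq x := by linarith
  rw [abs_div, abs_neg, abs_of_pos h2, div_le_one h2]
  linarith

theorem gg_le {G G' : ℂ → ℂ} {K c : ℝ} (hc : 0 < c)
    (hb : ∀ z : ℂ, 1 / 2 ≤ z.im → ‖G z‖ ≤ K * Real.exp (-(c * z.im)) ∧
      ‖G' z‖ ≤ K * Real.exp (-(c * z.im))) {x T : ℝ} (hx : |x| ≤ 1 / 2) (hT : 0 ≤ T) :
    ‖gg G G' (x, T)‖ ≤ 2 * (K ^ 2 * Real.exp (-(c * T))) := by
  have h1 := half_le_sq hx
  have hz : 1 / 2 ≤ (zz x T).im := by rw [zz_im]; linarith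
  obtain ⟨h2, h3⟩ := hb _ hz
  have he : Real.exp (-(c * (zz x T).im)) ≤ Real.exp (-(c * T)) := by
    apply Real.exp_le_exp.2
    rw [zz_im]
    have := mul_pos hc (show (0 : ℝ) < sq x by linarith)
    nlinarith
  have he1 : Real.exp (-(c * T)) ≤ 1 := by
    apply Real.exp_le_one_iff.2
    have := mul_nonneg hc.le hT
    linarith
  have he0 : 0 < Real.exp (-(c * (zz x T).im)) := Real.exp_pos _
  have hK : 0 ≤ K := by
    by_contra hK
    have := mul_neg_of_neg_of_pos (not_le.1 hK) he0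
    linarith [norm_nonneg (G (zz x T))]
  have h4 : ‖G (zz x T)‖ ≤ K := by
    calc ‖G (zz x T)‖ ≤ _ := h2
      _ ≤ K * 1 := by
        apply mul_le_mul_of_nonneg_left _ hK
        exact he.trans he1
      _ = K := mul_one K
  have h5 : ‖G' (zz x T)‖ ≤ K * Real.exp (-(c * T)) :=
    h3.trans (mul_le_mul_of_nonneg_left he hK)
  have h6 : ‖(1 + (sq' x : ℂ) * I)‖ ≤ 2 := by
    calc ‖(1 + (sq' x : ℂ) * I)‖ ≤ ‖(1 : ℂ)‖ + ‖(sq' x : ℂ) * I‖ := norm_add_le _ _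
      _ = 1 + |sq' x| := by simp
      _ ≤ 2 := by linarith [abs_sq'_le hx]
  unfold gg hh
  rw [norm_neg, norm_mul, norm_mul, RCLike.norm_conj]
  calc ‖(1 + (sq' x : ℂ) * I)‖ * (‖G (zz x T)‖ * ‖G' (zz x T)‖)
      ≤ 2 * (K * (K * Real.exp (-(c * T)))) := by gcongr
    _ = 2 * (K ^ 2 * Real.exp (-(c * T))) := by ring

theorem top_tendsto {G G' : ℂ → ℂ} {K c : ℝ} (hc : 0 < c)
    (hb : ∀ z : ℂ, 1 / 2 ≤ z.im → ‖G z‖ ≤ K * Real.exp (-(c * z.im)) ∧
      ‖G' z‖ ≤ K * Real.exp (-(c * z.im))) :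
    Tendsto (fun n : ℕ => ∫ x in (-(1 / 2) : ℝ)..(1 / 2), gg G G' (x, n)) atTop (𝓝 0) := by
  have h1 : ∀ n : ℕ, ‖∫ x in (-(1 / 2) : ℝ)..(1 / 2), gg G G' (x, n)‖ ≤
      2 * (K ^ 2 * Real.exp (-(c * n))) := by
    intro n
    have h2 := intervalIntegral.norm_integral_le_of_norm_le_const
      (a := (-(1 / 2) : ℝ)) (b := 1 / 2) (f := fun x => gg G G' (x, n))
      (C := 2 * (K ^ 2 * Real.exp (-(c * n)))) (by
        intro x hx
        rw [Set.uIoc_of_le (by norm_num)] at hx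
        exact gg_le hc hb (abs_le.2 ⟨hx.1.le, hx.2⟩) (Nat.cast_nonneg n))
    calc _ ≤ _ := h2
      _ = _ := by norm_num
  refine squeeze_zero_norm h1 ?_
  have h3 : Tendsto (fun n : ℕ => -(c * (n : ℝ))) atTop atBot := by
    apply tendsto_neg_atTop_atBot.comp
    exact Tendsto.const_mul_atTop hc tendsto_natCast_atTop_atTop
  have h4 := Real.tendsto_exp_atBot.comp h3
  have h5 := (h4.const_mul (K ^ 2)).const_mul 2
  simpa using h5

/-- the fundamental domain -/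
def Fd : Set (ℝ × ℝ) := {p : ℝ × ℝ | |p.1| ≤ 1 / 2 ∧ 1 ≤ p.1 ^ 2 + p.2 ^ 2 ∧ 0 < p.2}

/-- the fundamental domain, cut off -/
def Fn (T : ℝ) : Set (ℝ × ℝ) := {p : ℝ × ℝ | |p.1| ≤ 1 / 2 ∧ sq p.1 ≤ p.2 ∧ p.2 ≤ sq p.1 + T}

theorem continuous_sq : Continuous sq := by
  unfold sq
  fun_prop

theorem measurableSet_half : MeasurableSet {p : ℝ × ℝ | |p.1| ≤ 1 / 2} :=
  (isClosed_le (continuous_abs.comp continuous_fst) continuous_const).measurableSet

theorem measurableSet_Fd : MeasurableSet Fd := by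
  have h1 : Continuous fun p : ℝ × ℝ => p.1 ^ 2 + p.2 ^ 2 := by fun_prop
  exact measurableSet_half.inter ((isClosed_le continuous_const h1).measurableSet.inter
    (isOpen_lt continuous_const continuous_snd).measurableSet)

theorem measurableSet_Fn (T : ℝ) : MeasurableSet (Fn T) := by
  have h1 : Continuous fun p : ℝ × ℝ => sq p.1 := continuous_sq.comp continuous_fst
  exact measurableSet_half.inter ((isClosed_le h1 continuous_snd).measurableSet.inter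
    (isClosed_le continuous_snd (h1.add continuous_const)).measurableSet)

theorem mem_Fd_iff (p : ℝ × ℝ) : p ∈ Fd ↔ |p.1| ≤ 1 / 2 ∧ sq p.1 ≤ p.2 := by
  unfold Fd
  constructor
  · rintro ⟨h1, h2, h3⟩
    refine ⟨h1, ?_⟩
    rw [sq]
    apply Real.sqrt_le_iff.2
    exact ⟨h3.le, by linarith⟩
  · rintro ⟨h1, h2⟩
    have h3 := sq_pos (lt_one_of_half h1)
    have h4 := sq_sq (lt_one_of_half h1)
    refine ⟨h1, ?_, by linarith⟩
    nlinarith

theorem iUnion_Fn : (⋃ n : ℕ, Fn n) = Fd := by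
  ext p
  rw [mem_Fd_iff, Set.mem_iUnion]
  constructor
  · rintro ⟨n, h1, h2, -⟩
    exact ⟨h1, h2⟩
  · rintro ⟨h1, h2⟩
    obtain ⟨n, hn⟩ := exists_nat_ge (p.2 - sq p.1)
    exact ⟨n, h1, h2, by linarith⟩

theorem mono_Fn : Monotone fun n : ℕ => Fn n := by
  intro m n hmn p hp
  obtain ⟨h1, h2, h3⟩ := hp
  have h4 : (m : ℝ) ≤ n := by exact_mod_cast hmn
  exact ⟨h1, h2, by linarith⟩

theorem Fn_sub (n : ℕ) : Fn n ⊆ Fd := by
  rw [← iUnion_Fn]
  exact Set.subset_iUnion (fun n : ℕ => Fn n) n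

/-- Fubini -/
theorem fub {φ : ℝ × ℝ → ℝ} {T : ℝ} (hT : 0 ≤ T) (hφ : IntegrableOn φ (Fn T)) :
    ∫ p in Fn T, φ p = ∫ x in (-(1 / 2) : ℝ)..(1 / 2), ∫ t in (0 : ℝ)..T, φ (x, sq x + t) := by
  rw [← integral_indicator (measurableSet_Fn T)]
  have h1 : Integrable ((Fn T).indicator φ) volume := hφ.integrable_indicator (measurableSet_Fn T)
  rw [Measure.volume_eq_prod] at h1 ⊢
  rw [integral_prod _ h1]
  have h2 : ∀ x : ℝ, (∫ y : ℝ, (Fn T).indicator φ (x, y)) =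
      (Set.Icc (-(1 / 2) : ℝ) (1 / 2)).indicator
        (fun x => ∫ t in (0 : ℝ)..T, φ (x, sq x + t)) x := by
    intro x
    by_cases hx : x ∈ Set.Icc (-(1 / 2) : ℝ) (1 / 2)
    · rw [Set.indicator_of_mem hx]
      have h3 : (fun y : ℝ => (Fn T).indicator φ (x, y)) =
          (Set.Icc (sq x) (sq x + T)).indicator (fun y => φ (x, y)) := by
        funext y
        by_cases hy : y ∈ Set.Icc (sq x) (sq x + T)
        · rw [Set.indicator_of_mem hy, Set.indicator_of_mem]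
          exact ⟨abs_le.2 hx, hy.1, hy.2⟩
        · rw [Set.indicator_of_notMem hy, Set.indicator_of_notMem]
          rintro ⟨-, h4, h5⟩
          exact hy ⟨h4, h5⟩
      rw [h3, integral_indicator measurableSet_Icc, integral_Icc_eq_integral_Ioc,
        ← intervalIntegral.integral_of_le (by linarith),
        intervalIntegral.integral_comp_add_left (fun y => φ (x, y)) (sq x), add_zero]
    · rw [Set.indicator_of_notMem hx]
      have h3 : (fun y : ℝ => (Fn T).indicator φ (x, y)) = fun _ => 0 := by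
        funext y
        rw [Set.indicator_of_notMem]
        rintro ⟨h4, -⟩
        exact hx (abs_le.1 h4)
      rw [h3, integral_zero]
  rw [integral_congr_ae (Eventually.of_forall h2), integral_indicator measurableSet_Icc,
    integral_Icc_eq_integral_Ioc, ← intervalIntegral.integral_of_le (by norm_num)]

theorem integrable_Fd {G' : ℂ → ℂ} {K c : ℝ} (hc : 0 < c)
    (hcont : ContinuousOn G' {z : ℂ | 0 < z.im})
    (hb : ∀ z : ℂ, 1 / 2 ≤ z.im → ‖G' z‖ ≤ K * Real.exp (-(c * z.im))) :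
    IntegrableOn (fun p : ℝ × ℝ => ‖G' ((p.1 : ℂ) + (p.2 : ℂ) * I)‖ ^ 2) Fd := by
  have hI1 : IntegrableOn (fun _ : ℝ => (1 : ℝ)) (Set.Icc (-(1 / 2) : ℝ) (1 / 2)) := by
    apply Continuous.integrableOn_Icc
    fun_prop
  have hI2 : IntegrableOn (fun y : ℝ => K ^ 2 * Real.exp (-(2 * c) * y)) (Set.Ioi (1 / 4 : ℝ)) :=
    (exp_neg_integrableOn_Ioi (1 / 4) (by positivity)).const_mul _
  have hI3 := Integrable.mul_prod hI1 hI2
  rw [Measure.prod_restrict] at hI3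
  have hsub : Fd ⊆ Set.Icc (-(1 / 2) : ℝ) (1 / 2) ×ˢ Set.Ioi (1 / 4 : ℝ) := by
    intro p hp
    rw [mem_Fd_iff] at hp
    refine ⟨abs_le.1 hp.1, ?_⟩
    have := half_le_sq hp.1
    show (1 / 4 : ℝ) < p.2
    linarith [hp.2]
  have hI4 : IntegrableOn (fun z : ℝ × ℝ => 1 * (K ^ 2 * Real.exp (-(2 * c) * z.2))) Fd :=
    IntegrableOn.mono_set hI3 hsub
  refine Integrable.mono' hI4 ?_ ?_
  · apply ContinuousOn.aestronglyMeasurable _ measurableSet_Fd
    apply ContinuousOn.pow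
    apply ContinuousOn.norm
    apply hcont.comp (by fun_prop)
    intro p hp
    show 0 < ((p.1 : ℂ) + (p.2 : ℂ) * I).im
    simpa using hp.2.2
  · rw [ae_restrict_iff' measurableSet_Fd]
    apply Eventually.of_forall
    intro p hp
    have h0 := (mem_Fd_iff p).1 hp
    have h1 : ((p.1 : ℂ) + (p.2 : ℂ) * I).im = p.2 := by simp
    have h2 := half_le_sq h0.1
    have h3 := hb ((p.1 : ℂ) + (p.2 : ℂ) * I) (by rw [h1]; linarith [h0.2])
    rw [h1] at h3
    rw [Real.norm_eq_abs, abs_of_nonneg (by positivity), one_mul]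
    calc ‖G' ((p.1 : ℂ) + (p.2 : ℂ) * I)‖ ^ 2 ≤ (K * Real.exp (-(c * p.2))) ^ 2 :=
          pow_le_pow_left₀ (norm_nonneg _) h3 2
      _ = K ^ 2 * Real.exp (-(2 * c) * p.2) := by
          rw [mul_pow, ← Real.exp_nat_mul]
          congr 2
          push_cast
          ring

end

end Pool.Agent.K4H13.CV.Gr
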