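import Pool.Agent.K4H13.CV.Cus0

/-!
# Project CV, part C : the Hecke operator `T₂` on the symbols
-/

set_option autoImplicit false

open Complex Filter Topology Set UpperHalfPlane MatrixGroups CongruenceSubgroup ModularGroup

namespace Pool.Agent.K4H13.CV

open Pool.Agent.TH940 (prim)
open Pool.Agent.Y18.BSD

namespace Hk

/-- the three matrices of determinant two -/
def Bm : Fin 3 → Matrix (Fin 2) (Fin 2) ℤ := ![!![2, 0; 0, 1], !![1, 0; 0, 2], !![1, 1; 0, 2]]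

/-- `Bm i * g = g' * Bm i'` -/
def Rel (i : Fin 3) (g g' : SL(2, ℤ)) (i' : Fin 3) : Prop :=
  Bm i * (g : Matrix (Fin 2) (Fin 2) ℤ) = (g' : Matrix (Fin 2) (Fin 2) ℤ) * Bm i'

lemma Bm_10 (i : Fin 3) : Bm i 1 0 = 0 := by fin_cases i <;> rfl

lemma Bm_00 (i : Fin 3) : Bm i 0 0 = 1 ∨ Bm i 0 0 = 2 := by fin_cases i <;> simp [Bm]

lemma Bm_11 (i : Fin 3) : Bm i 1 1 = 1 ∨ Bm i 1 1 = 2 := by fin_cases i <;> simp [Bm]

lemma Bm_det (i : Fin 3) : (Bm i).det = 2 := by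
  fin_cases i <;> simp [Bm, Matrix.det_fin_two]

lemma par (a b c d : ZMod 2) (h : a * d - b * c = 0) :
    (a = 0 ∧ c = 0) ∨ (b = 0 ∧ d = 0) ∨ (a = b ∧ c = d) := by
  revert a b c d
  decide

lemma ex_rel0 (M : Matrix (Fin 2) (Fin 2) ℤ) (hM : M.det = 2) :
    ∃ (g' : SL(2, ℤ)) (i' : Fin 3), M = (g' : Matrix (Fin 2) (Fin 2) ℤ) * Bm i' := by
  have hdet := hM
  rw [Matrix.det_fin_two] at hdet
  have h2 : ((M 0 0 : ℤ) : ZMod 2) * ((M 1 1 : ℤ) : ZMod 2) -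
      ((M 0 1 : ℤ) : ZMod 2) * ((M 1 0 : ℤ) : ZMod 2) = 0 := by
    have := congrArg (fun x : ℤ => (x : ZMod 2)) hdet
    push_cast at this
    rw [this]
    rfl
  have hz : ∀ x : ℤ, ((x : ℤ) : ZMod 2) = 0 → ∃ y, x = 2 * y := fun x hx =>
    (ZMod.intCast_zmod_eq_zero_iff_dvd x 2).1 hx
  rcases par _ _ _ _ h2 with ⟨h3, h4⟩ | ⟨h3, h4⟩ | ⟨h3, h4⟩
  · obtain ⟨a, ha⟩ := hz _ h3
    obtain ⟨c, hc⟩ := hz _ h4
    refine ⟨⟨!![a, M 0 1; c, M 1 1], ?_⟩, 0, ?_⟩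
    · rw [Matrix.det_fin_two_of]
      rw [ha, hc] at hdet
      linarith
    · ext i j
      fin_cases i <;> fin_cases j <;> simp [Bm, Matrix.mul_apply, Fin.sum_univ_two] <;> linarith
  · obtain ⟨b, hb⟩ := hz _ h3
    obtain ⟨d, hd⟩ := hz _ h4
    refine ⟨⟨!![M 0 0, b; M 1 0, d], ?_⟩, 1, ?_⟩
    · rw [Matrix.det_fin_two_of]
      rw [hb, hd] at hdet
      linarith
    · ext i j
      fin_cases i <;> fin_cases j <;> simp [Bm, Matrix.mul_apply, Fin.sum_univ_two] <;> linarith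
  · obtain ⟨b, hb⟩ := hz (M 0 1 - M 0 0) (by push_cast; rw [h3, sub_self])
    obtain ⟨d, hd⟩ := hz (M 1 1 - M 1 0) (by push_cast; rw [h4, sub_self])
    have hb' : M 0 1 = M 0 0 + 2 * b := by linarith
    have hd' : M 1 1 = M 1 0 + 2 * d := by linarith
    refine ⟨⟨!![M 0 0, b; M 1 0, d], ?_⟩, 2, ?_⟩
    · rw [Matrix.det_fin_two_of]
      rw [hb', hd'] at hdet
      linarith
    · ext i j
      fin_cases i <;> fin_cases j <;> simp [Bm, Matrix.mul_apply, Fin.sum_univ_two] <;> linarith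

lemma ex_rel (i : Fin 3) (g : SL(2, ℤ)) : ∃ (g' : SL(2, ℤ)) (i' : Fin 3), Rel i g g' i' :=
  ex_rel0 _ (by rw [Matrix.det_mul, Bm_det, g.det_coe, mul_one])

/-- the matrices which carry `β' S` to `SL₂(ℤ) β''` -/
def hh : SL(2, ℤ) := ⟨!![1, 0; 2, 1], by simp [Matrix.det_fin_two]⟩

def kk : Fin 3 → SL(2, ℤ) := ![S, S, hh * T⁻¹]

def jj : Fin 3 → Fin 3 := ![1, 0, 2]

lemma BmS (i : Fin 3) : Bm i * (S : SL(2, ℤ)).1 = (kk i).1 * Bm (jj i) := by
  fin_cases i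
  · show !![2, 0; 0, 1] * (S : SL(2, ℤ)).1 = (S : SL(2, ℤ)).1 * !![1, 0; 0, 2]
    ext i j
    fin_cases i <;> fin_cases j <;> simp [Matrix.mul_apply, Fin.sum_univ_two, coe_S]
  · show !![1, 0; 0, 2] * (S : SL(2, ℤ)).1 = (S : SL(2, ℤ)).1 * !![2, 0; 0, 1]
    ext i j
    fin_cases i <;> fin_cases j <;> simp [Matrix.mul_apply, Fin.sum_univ_two, coe_S]
  · show !![1, 1; 0, 2] * (S : SL(2, ℤ)).1 = (hh * T⁻¹ : SL(2, ℤ)).1 * !![1, 1; 0, 2]
    ext i j
    fin_cases i <;> fin_cases j <;>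
      simp [Matrix.mul_apply, Fin.sum_univ_two, coe_S, hh]

lemma Rel.mulS {i : Fin 3} {g g' : SL(2, ℤ)} {i' : Fin 3} (h : Rel i g g' i') :
    Rel i (g * S) (g' * kk i') (jj i') := by
  unfold Rel at *
  rw [Matrix.SpecialLinearGroup.coe_mul, Matrix.SpecialLinearGroup.coe_mul, ← Matrix.mul_assoc, h,
    Matrix.mul_assoc, Matrix.mul_assoc]
  congr 1
  exact BmS i'

/-! ### the action -/

/-- the action of `Bm i` -/
noncomputable def bb (i : Fin 3) (z : ℂ) : ℂ := ((Bm i 0 0 : ℤ) * z + (Bm i 0 1 : ℤ)) / (Bm i 1 1 : ℤ)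

lemma bb_im (i : Fin 3) (z : ℂ) : (bb i z).im = (Bm i 0 0 : ℝ) / (Bm i 1 1 : ℝ) * z.im := by
  unfold bb
  have h : (((Bm i 0 0 : ℤ) : ℂ) * z + ((Bm i 0 1 : ℤ) : ℂ)) / ((Bm i 1 1 : ℤ) : ℂ) =
      (((Bm i 0 0 : ℝ) : ℂ) * z + ((Bm i 0 1 : ℝ) : ℂ)) / ((Bm i 1 1 : ℝ) : ℂ) := by push_cast; rfl
  rw [h, Complex.div_ofReal_im, Complex.add_im, Complex.ofReal_im, Complex.im_ofReal_mul]
  ring

lemma ratio_pos (i : Fin 3) : (1 : ℝ) / 2 ≤ (Bm i 0 0 : ℝ) / (Bm i 1 1 : ℝ) := by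
  rcases Bm_00 i with h | h <;> rcases Bm_11 i with h' | h' <;> rw [h, h'] <;> norm_num

lemma bb_im_pos (i : Fin 3) (z : ℍ) : 0 < (bb i z).im := by
  rw [bb_im]
  have h := ratio_pos i
  exact mul_pos (by linarith) z.im_pos

/-- the action of `Bm i` on the upper half plane -/
noncomputable def bH (i : Fin 3) (z : ℍ) : ℍ := ⟨bb i z, bb_im_pos i z⟩

lemma bH_im (i : Fin 3) (z : ℍ) : z.im / 2 ≤ (bH i z).im := by
  have h : (bH i z).im = (Bm i 0 0 : ℝ) / (Bm i 1 1 : ℝ) * z.im := bb_im i z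
  rw [h]
  have h2 := ratio_pos i
  nlinarith [z.im_pos]

lemma sl_apply (g : SL(2, ℤ)) (z : ℍ) : ((g • z : ℍ) : ℂ) =
    ((g 0 0 : ℤ) * (z : ℂ) + (g 0 1 : ℤ)) / ((g 1 0 : ℤ) * (z : ℂ) + (g 1 1 : ℤ)) := by
  have h3 := UpperHalfPlane.specialLinearGroup_apply (R := ℤ) g z
  simp only [algebraMap_int_eq, eq_intCast] at h3
  rw [h3]
  push_cast
  rfl

lemma den_ne (g : SL(2, ℤ)) (z : ℍ) : ((g 1 0 : ℤ) : ℂ) * (z : ℂ) + ((g 1 1 : ℤ) : ℂ) ≠ 0 := by
  have h := denom_ne_zero (g : GL (Fin 2) ℝ) z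
  rw [ModularGroup.denom_apply] at h
  exact h

lemma frac (p q s A D a' b' c' d' w s' : ℂ) (hs : s ≠ 0) (hs' : s' ≠ 0) (hD : D ≠ 0)
    (hn : a' * w + b' * s' = p * A + q * D) (hd : c' * w + d' * s' = s * D) :
    (p * (A / D) + q) / s = (a' * (w / s') + b') / (c' * (w / s') + d') := by
  have e1 : a' * (w / s') + b' = (p * A + q * D) / s' := by
    rw [← hn]
    field_simp
  have e2 : c' * (w / s') + d' = s * D / s' := by
    rw [← hd]
    field_simp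
  rw [e1, e2]
  field_simp

lemma Rel.act {i : Fin 3} {g g' : SL(2, ℤ)} {i' : Fin 3} (h : Rel i g g' i') (z : ℍ) :
    bb i ((g • z : ℍ) : ℂ) = ((g' • bH i' z : ℍ) : ℂ) := by
  have hz' : ((bH i' z : ℍ) : ℂ) = ((Bm i' 0 0 : ℤ) * (z : ℂ) + (Bm i' 0 1 : ℤ)) /
    (Bm i' 1 1 : ℤ) := rfl
  have hd' := den_ne g' (bH i' z)
  have hd := den_ne g z
  rw [sl_apply, sl_apply]
  unfold bb
  rw [hz'] at hd' ⊢
  have hs : ((Bm i 1 1 : ℤ) : ℂ) ≠ 0 := by
    rcases Bm_11 i with h' | h' <;> rw [h'] <;> norm_num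
  have hs' : ((Bm i' 1 1 : ℤ) : ℂ) ≠ 0 := by
    rcases Bm_11 i' with h' | h' <;> rw [h'] <;> norm_num
  have e00 := congrFun (congrFun h 0) 0
  have e01 := congrFun (congrFun h 0) 1
  have e10 := congrFun (congrFun h 1) 0
  have e11 := congrFun (congrFun h 1) 1
  simp only [Matrix.mul_apply, Fin.sum_univ_two, Bm_10] at e00 e01 e10 e11
  simp only [mul_zero, add_zero, zero_mul, zero_add] at e00 e01 e10 e11
  have c00 := congrArg (fun x : ℤ => (x : ℂ)) e00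
  have c01 := congrArg (fun x : ℤ => (x : ℂ)) e01
  have c10 := congrArg (fun x : ℤ => (x : ℂ)) e10
  have c11 := congrArg (fun x : ℤ => (x : ℂ)) e11
  push_cast at c00 c01 c10 c11
  refine frac _ _ _ _ _ _ _ _ _ _ _ hs hs' hd ?_ ?_
  · linear_combination -(z : ℂ) * c00 - c01
  · linear_combination -(z : ℂ) * c10 - c11

/-! ### limits -/

variable {N : ℕ} [NeZero N]

lemma tendsto_bH (i : Fin 3) :
    Tendsto (fun y : ℝ => (bH i (ofComplex ((y : ℂ) * Complex.I))).im) atTop atTop := by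
  have h1 : Tendsto (fun y : ℝ => (ofComplex ((y : ℂ) * Complex.I)).im / 2) atTop atTop :=
    tendsto_im_iT.atTop_div_const (by norm_num)
  exact tendsto_atTop_mono (fun y => bH_im i _) h1

lemma two_prim {f : Cf2 N} (hf : HRel f) (h2N : ¬ 2 ∣ N) (z : ℍ) :
    co f 2 * prim f (z : ℂ) = ∑ i : Fin 3, prim f (bb i z) := by
  have h := prim_hecke hf Nat.prime_two h2N (z : ℂ) z.im_pos
  rw [h, Fin.sum_univ_three, Finset.sum_range_succ, Finset.sum_range_one]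
  have e0 : bb 0 z = (2 : ℕ) * (z : ℂ) := by
    simp [bb, Bm]
  have e1 : bb 1 z = ((z : ℂ) + (0 : ℕ)) / (2 : ℕ) := by
    simp [bb, Bm]
  have e2 : bb 2 z = ((z : ℂ) + (1 : ℕ)) / (2 : ℕ) := by
    simp [bb, Bm]
  rw [e0, e1, e2]
  ring

lemma hecke_cc (hN : N.Prime) (h2 : N ≠ 2) {f : Cf2 N} {ε : ℝ} (hf : W388.IsNewf N 2 f ε)
    (g : SL(2, ℤ)) (g' : Fin 3 → SL(2, ℤ)) (i' : Fin 3 → Fin 3)
    (h : ∀ i, Rel i g (g' i) (i' i)) : co f 2 * CC f g = ∑ i : Fin 3, CC f (g' i) := by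
  have h2N : ¬ 2 ∣ N := fun hd => h2 ((Nat.prime_dvd_prime_iff_eq Nat.prime_two hN).1 hd).symm
  have hl := ((lim_cc hN hf g).tendsto tendsto_im_iT).const_mul (co f 2)
  have hr : Tendsto (fun y : ℝ => ∑ i : Fin 3, prim f (((g' i) •
      (bH (i' i) (ofComplex ((y : ℂ) * Complex.I))) : ℍ) : ℂ)) atTop
      (𝓝 (∑ i : Fin 3, CC f (g' i))) :=
    tendsto_finsetSum _ fun i _ => (lim_cc hN hf (g' i)).tendsto (tendsto_bH (i' i))
  refine tendsto_nhds_unique hl (hr.congr fun y => ?_)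
  rw [two_prim (hrel_of_newf hf) h2N]
  refine Finset.sum_congr rfl fun i _ => ?_
  rw [(h i).act]

/-! ### the classes of the cusps -/

omit [NeZero N] in
lemma Rel.mem (hN : N.Prime) (h2 : N ≠ 2) {i : Fin 3} {g g' : SL(2, ℤ)} {i' : Fin 3}
    (h : Rel i g g' i') : g' ∈ Gamma0 N ↔ g ∈ Gamma0 N := by
  have hcop : IsCoprime (N : ℤ) 2 := by
    have : Nat.Coprime N 2 := (Nat.coprime_primes hN Nat.prime_two).2 h2
    exact_mod_cast Nat.isCoprime_iff_coprime.2 this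
  have e10 := congrFun (congrFun h 1) 0
  simp only [Matrix.mul_apply, Fin.sum_univ_two, Bm_10] at e10
  simp only [mul_zero, add_zero, zero_mul, zero_add] at e10
  have h1 : ∀ a b : ℤ, (a = 1 ∨ a = 2) → ((N : ℤ) ∣ a * b ↔ (N : ℤ) ∣ b) := by
    intro a b ha
    rcases ha with rfl | rfl
    · rw [one_mul]
    · exact ⟨fun h => hcop.dvd_of_dvd_mul_left h, fun h => h.mul_left 2⟩
  rw [mem0, mem0, ← h1 (Bm i' 0 0) (g' 1 0) (Bm_00 i'), ← h1 (Bm i 1 1) (g 1 0) (Bm_11 i), mul_comm,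
    e10]

open Classical in
/-- the class of the cusp `g ∞` -/
noncomputable def cl (N : ℕ) (g : SL(2, ℤ)) : ℤ := if g ∈ Gamma0 N then 0 else 1

omit [NeZero N] in
lemma bd_Xg (g : SL(2, ℤ)) : bd (Xg N g) = cl N (g * S) - cl N g := by
  classical
  unfold bd cl
  have h1 : Xg N g = x0 N ↔ g ∈ Gamma0 N := by
    rw [x0_eq, Xg_eq, inv_one, mul_one]
  have h2 : Xg N g = S • x0 N ↔ g * S ∈ Gamma0 N := by
    rw [x0_eq, smul_Xg, Xg_eq, one_mul, inv_inv]
  rw [if_congr h1 rfl rfl, if_congr h2 rfl rfl]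
  split_ifs <;> norm_num

lemma cl_rel (hN : N.Prime) (h2 : N ≠ 2) {i : Fin 3} {g g' : SL(2, ℤ)} {i' : Fin 3}
    (h : Rel i g g' i') : cl N g' = cl N g := by
  classical
  unfold cl
  exact if_congr (h.mem hN h2) rfl rfl

omit [NeZero N] in
lemma cl_T (g : SL(2, ℤ)) (j : ℤ) : cl N (g * T ^ j) = cl N g := by
  classical
  unfold cl
  refine if_congr ?_ rfl rfl
  exact Subgroup.mul_mem_cancel_right _ (T_mem N j)

/-! ### the combination -/

open Classical in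
noncomputable def dl (x : XX N) (y : XX N) : ℤ := if y = x then 1 else 0

open Classical in
/-- the combination of the symbols -/
noncomputable def nn (g' : SL(2, ℤ)) (i' : Fin 3) (y : XX N) : ℤ :=
  dl (Xg N g') y - (if i' = 2 then dl (Xg N (g' * hh)) y else 0)

lemma hhS : (hh * S : SL(2, ℤ)) = S * T ^ (-2 : ℤ) := by
  have e : (T ^ (-2 : ℤ) : SL(2, ℤ)) = T⁻¹ * T⁻¹ := by group
  rw [e]
  ext i j
  fin_cases i <;> fin_cases j <;>
    simp [Matrix.mul_apply, Fin.sum_univ_two, coe_S, hh]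

section

variable [Fintype (XX N)]

omit [NeZero N] in
lemma sum_dl (x : XX N) (φ : XX N → ℂ) : ∑ y : XX N, ((dl x y : ℤ) : ℂ) * φ y = φ x := by
  classical
  unfold dl
  simp

omit [NeZero N] in
lemma sum_dlZ (x : XX N) (φ : XX N → ℤ) : ∑ y : XX N, dl x y * φ y = φ x := by
  classical
  unfold dl
  simp

omit [NeZero N] in
lemma sum_abs_dl (x : XX N) : ∑ y : XX N, |dl x y| = 1 := by
  classical
  unfold dl
  have : ∀ y : XX N, |(if y = x then (1 : ℤ) else 0)| = if y = x then 1 else 0 := by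
    intro y
    split_ifs <;> simp
  simp_rw [this]
  simp

omit [NeZero N] in
lemma sum_abs_nn (g' : SL(2, ℤ)) (i' : Fin 3) : ∑ y : XX N, |nn g' i' y| ≤ 2 := by
  have h1 : ∀ y : XX N, |nn g' i' y| ≤ |dl (Xg N g') y| + |dl (Xg N (g' * hh)) y| := by
    intro y
    unfold nn
    split_ifs
    · exact abs_sub _ _
    · rw [sub_zero]
      exact le_add_of_nonneg_right (abs_nonneg _)
  refine (Finset.sum_le_sum fun y _ => h1 y).trans ?_
  rw [Finset.sum_add_distrib, sum_abs_dl, sum_abs_dl]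
  norm_num

lemma sum_nn (hN : N.Prime) {f : Cf2 N} {ε : ℝ} (hf : W388.IsNewf N 2 f ε) (g' : SL(2, ℤ))
    (i' : Fin 3) : ∑ y : XX N, ((nn g' i' y : ℤ) : ℂ) * dd f y =
      CC f (g' * kk i') - CC f g' := by
  have h1 : ∀ y : XX N, ((nn g' i' y : ℤ) : ℂ) * dd f y = ((dl (Xg N g') y : ℤ) : ℂ) * dd f y -
      (if i' = 2 then ((dl (Xg N (g' * hh)) y : ℤ) : ℂ) * dd f y else 0) := by
    intro y
    unfold nn
    split_ifs <;> push_cast <;> ring
  simp_rw [h1]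
  rw [Finset.sum_sub_distrib, sum_dl, dd_Xg hN hf]
  by_cases hi : i' = 2
  · subst hi
    simp only [if_true]
    rw [sum_dl, dd_Xg hN hf, mul_assoc, hhS, ← mul_assoc, cc_T hN hf]
    have e : g' * kk 2 = g' * hh * T ^ (-1 : ℤ) := by
      show g' * (hh * T⁻¹) = _
      rw [zpow_neg_one, mul_assoc]
    rw [e, cc_T hN hf]
    ring
  · have e : kk i' = S := by
      fin_cases i'
      · rfl
      · rfl
      · exact absurd rfl hi
    simp only [if_neg hi, Finset.sum_const_zero, sub_zero]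
    rw [e]

omit [NeZero N] in
lemma sum_nnZ (g' : SL(2, ℤ)) (i' : Fin 3) : ∑ y : XX N, nn g' i' y * bd y =
      cl N (g' * kk i') - cl N g' := by
  have h1 : ∀ y : XX N, nn g' i' y * bd y = dl (Xg N g') y * bd y -
      (if i' = 2 then dl (Xg N (g' * hh)) y * bd y else 0) := by
    intro y
    unfold nn
    split_ifs <;> ring
  simp_rw [h1]
  rw [Finset.sum_sub_distrib, sum_dlZ, bd_Xg]
  by_cases hi : i' = 2
  · subst hi
    simp only [if_true]
    rw [sum_dlZ, bd_Xg, mul_assoc, hhS, ← mul_assoc, cl_T]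
    have e : g' * kk 2 = g' * hh * T ^ (-1 : ℤ) := by
      show g' * (hh * T⁻¹) = _
      rw [zpow_neg_one, mul_assoc]
    rw [e, cl_T]
    ring
  · have e : kk i' = S := by
      fin_cases i'
      · rfl
      · rfl
      · exact absurd rfl hi
    simp only [if_neg hi, Finset.sum_const_zero, sub_zero]
    rw [e]

end

end Hk

open Hk in
/-- **HECKE** -/
theorem hecke : S_HECKE := by
  intro N _ hN h2
  classical
  have : Finite (XX N) := Subgroup.finite_quotient_of_finiteIndex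
  have := Fintype.ofFinite (XX N)
  choose g' i' hr using fun (x : XX N) (i : Fin 3) => ex_rel i (gx x)
  refine ⟨fun x y => (∑ i : Fin 3, nn (g' x i) (i' x i) y) - 3 * dl x y, fun x => ?_,
    fun f ε hf x => ?_, fun x => ?_⟩
  · rw [tsum_fintype]
    have h1 : ∀ y : XX N, |(∑ i : Fin 3, nn (g' x i) (i' x i) y) - 3 * dl x y| ≤
        (∑ i : Fin 3, |nn (g' x i) (i' x i) y|) + 3 * |dl x y| := by
      intro y
      refine (abs_sub _ _).trans (add_le_add (Finset.abs_sum_le_sum_abs _ _) (le_of_eq ?_))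
      rw [abs_mul]
      norm_num
    refine (Finset.sum_le_sum fun y _ => h1 y).trans ?_
    rw [Finset.sum_add_distrib, Finset.sum_comm, ← Finset.mul_sum, sum_abs_dl]
    have h3 := Finset.sum_le_sum (s := (Finset.univ : Finset (Fin 3))) fun i _ =>
      sum_abs_nn (N := N) (g' x i) (i' x i)
    rw [Finset.sum_const, Finset.card_univ, Fintype.card_fin, nsmul_eq_mul] at h3
    push_cast at h3
    linarith
  · rw [tsum_fintype]
    have h1 : ∀ y : XX N, (((∑ i : Fin 3, nn (g' x i) (i' x i) y) - 3 * dl x y : ℤ) : ℂ) * dd f y =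
        (∑ i : Fin 3, ((nn (g' x i) (i' x i) y : ℤ) : ℂ) * dd f y) -
          3 * (((dl x y : ℤ) : ℂ) * dd f y) := by
      intro y
      push_cast
      rw [sub_mul, Finset.sum_mul]
      ring
    simp_rw [h1]
    rw [Finset.sum_sub_distrib, Finset.sum_comm, ← Finset.mul_sum, sum_dl]
    simp_rw [sum_nn hN hf]
    rw [Finset.sum_sub_distrib, ← hecke_cc hN h2 hf (gx x) (g' x) (i' x) (hr x),
      ← hecke_cc hN h2 hf (gx x * ModularGroup.S) (fun i => g' x i * kk (i' x i))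
        (fun i => jj (i' x i)) (fun i => (hr x i).mulS)]
    have e : dd f x = CC f (gx x * ModularGroup.S) - CC f (gx x) := rfl
    rw [e]
    ring
  · rw [tsum_fintype]
    have h1 : ∀ y : XX N, ((∑ i : Fin 3, nn (g' x i) (i' x i) y) - 3 * dl x y) * bd y =
        (∑ i : Fin 3, nn (g' x i) (i' x i) y * bd y) - 3 * (dl x y * bd y) := by
      intro y
      rw [sub_mul, Finset.sum_mul]
      ring
    simp_rw [h1]
    rw [Finset.sum_sub_distrib, Finset.sum_comm, ← Finset.mul_sum, sum_dlZ]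
    simp_rw [sum_nnZ]
    have h3 : ∀ i : Fin 3, cl N (g' x i * kk (i' x i)) - cl N (g' x i) = bd x := by
      intro i
      rw [cl_rel hN h2 (hr x i), cl_rel hN h2 (hr x i).mulS, ← bd_Xg, Xg_gx]
    simp_rw [h3]
    rw [Finset.sum_const, Finset.card_univ, Fintype.card_fin, nsmul_eq_mul]
    push_cast
    ring

end Pool.Agent.K4H13.CV
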