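import Pool.Agent.K4H13.CV.HpB
import Pool.Agent.K4H13.CV.Asm1

/-!
# Project CV: many newforms have sign `+1`, counting
-/

set_option autoImplicit false
set_option linter.unusedSectionVars false

open Complex Filter Topology Set UpperHalfPlane MatrixGroups CongruenceSubgroup Asymptotics
open scoped Manifold ModularForm Real

namespace Pool.Agent.K4H13.CV.HpP

open Pool.Agent.K4H13.CV WtP W388.LV

variable {N : ℕ} [NeZero N]

/-- functions with poles at most `a`, `b` -/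
def LS (N : ℕ) [NeZero N] (a b : ℤ) : Submodule ℂ (ℍ → ℂ) where
  carrier := {F | LX N a b F}
  add_mem' := LX_add
  zero_mem' := LX_zero a b
  smul_mem' := fun c _ h => LX_smul c h

/-- the eigenspaces of the involution -/
def LW (N : ℕ) [NeZero N] (σ : ℂ) (m : ℤ) : Submodule ℂ (ℍ → ℂ) where
  carrier := {F | LX N m m F ∧ ∀ z, F (WW N z) = σ * F z}
  add_mem' := fun {F G} hF hG => ⟨LX_add hF.1 hG.1, fun z => by
    rw [Pi.add_apply, Pi.add_apply, hF.2 z, hG.2 z, mul_add]⟩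
  zero_mem' := ⟨LX_zero m m, fun z => by simp⟩
  smul_mem' := fun c F hF => ⟨LX_smul c hF.1, fun z => by
    rw [Pi.smul_apply, Pi.smul_apply, hF.2 z, smul_eq_mul, smul_eq_mul]; ring⟩

/-- the cusp forms in the span of `P` which vanish to order `n` -/
def SS (P : Finset (SF N 2)) (n : ℤ) : Submodule ℂ (SF N 2) where
  carrier := {f | f ∈ Submodule.span ℂ (P : Set (SF N 2)) ∧ Bd (-n) f}
  add_mem' := fun {f g} hf hg => ⟨Submodule.add_mem _ hf.1 hg.1, Bd_add hf.2 hg.2⟩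
  zero_mem' := ⟨Submodule.zero_mem _, Bd_zero _⟩
  smul_mem' := fun c f hf => ⟨Submodule.smul_mem _ c hf.1, Bd_smul c hf.2⟩

/-- composition with the Fricke involution -/
noncomputable def TW (N : ℕ) [NeZero N] : (ℍ → ℂ) →ₗ[ℂ] (ℍ → ℂ) :=
  LinearMap.funLeft ℂ ℂ (WW N)

theorem TW_apply (F : ℍ → ℂ) : TW N F = fun z => F (WW N z) := rfl

/-- the coercion -/
def TS (N : ℕ) [NeZero N] : SF N 2 →ₗ[ℂ] (ℍ → ℂ) where
  toFun := fun f => f
  map_add' := fun _ _ => rfl
  map_smul' := fun _ _ => rfl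

theorem cut_inf (a b : ℤ) (h : FiniteDimensional ℂ (LS N (a - 1) b)) :
    FiniteDimensional ℂ (LS N a b) ∧
      Module.finrank ℂ (LS N a b) ≤ Module.finrank ℂ (LS N (a - 1) b) + 1 :=
  cut LinearMap.id _ _ a (fun _ hv => LX_per hv) (fun _ hv => hv.holo) (fun _ hv => hv.inf)
    (fun _ hv h => ⟨hv.holo, hv.inv, h, hv.zero⟩) h

theorem cut_zero (a b : ℤ) (h : FiniteDimensional ℂ (LS N a (b - 1))) :
    FiniteDimensional ℂ (LS N a b) ∧
      Module.finrank ℂ (LS N a b) ≤ Module.finrank ℂ (LS N a (b - 1)) + 1 :=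
  cut (TW N) _ _ b (fun _ hv => LX_per' hv) (fun _ hv => LX_hol' hv) (fun _ hv => hv.zero)
    (fun _ hv h => ⟨hv.holo, hv.inv, hv.inf, h⟩) h

theorem fin0 (hpc : S_HPC) (hN : N.Prime) : FiniteDimensional ℂ (LS N 0 0) ∧
    Module.finrank ℂ (LS N 0 0) ≤ 1 := by
  let φ : LS N 0 0 →ₗ[ℂ] ℂ :=
    { toFun := fun F => (F : ℍ → ℂ) UpperHalfPlane.I
      map_add' := fun _ _ => rfl
      map_smul' := fun _ _ => rfl }
  have hφ : Function.Injective φ := by
    intro F G h
    obtain ⟨c, hc⟩ := hpc N hN F.1 F.2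
    obtain ⟨d, hd⟩ := hpc N hN G.1 G.2
    apply Subtype.ext
    funext z
    have h' : (F : ℍ → ℂ) UpperHalfPlane.I = (G : ℍ → ℂ) UpperHalfPlane.I := h
    rw [hc, hd] at h'
    rw [hc, hd, h']
  refine ⟨FiniteDimensional.of_injective φ hφ, ?_⟩
  have := LinearMap.finrank_le_finrank_of_injective hφ
  rwa [Module.finrank_self] at this

theorem finLS (hpc : S_HPC) (hN : N.Prime) (a b : ℕ) : FiniteDimensional ℂ (LS N a b) := by
  induction a with
  | zero =>
    induction b with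
    | zero => exact (fin0 hpc hN).1
    | succ b ih =>
      refine (cut_zero _ _ ?_).1
      rw [show (((b + 1 : ℕ) : ℤ) - 1) = b by push_cast; ring]
      exact ih
  | succ a ih =>
    refine (cut_inf _ _ ?_).1
    rw [show (((a + 1 : ℕ) : ℤ) - 1) = a by push_cast; ring]
    exact ih

theorem LW_le (σ : ℂ) (m : ℤ) : LW N σ m ≤ LS N m m := fun _ hF => hF.1

theorem finLW (hpc : S_HPC) (hN : N.Prime) (σ : ℂ) (m : ℕ) : FiniteDimensional ℂ (LW N σ m) := by
  haveI := finLS hpc hN m m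
  exact Submodule.finiteDimensional_of_le (LW_le σ m)

/-- one more pole -/
theorem LW_succ (hpc : S_HPC) (hN : N.Prime) (σ : ℂ) (m : ℕ) :
    Module.finrank ℂ (LW N σ ((m + 1 : ℕ) : ℤ)) ≤ Module.finrank ℂ (LW N σ m) + 1 := by
  refine (cut LinearMap.id (LW N σ ((m + 1 : ℕ) : ℤ)) (LW N σ m) ((m + 1 : ℕ) : ℤ)
    (fun _ hv => LX_per hv.1) (fun _ hv => hv.1.holo)
    (fun _ hv => hv.1.inf) (fun F hv h => ?_) (finLW hpc hN σ m)).2
  rw [show (((m + 1 : ℕ) : ℤ) - 1) = m by push_cast; ring, LinearMap.id_apply] at h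
  refine ⟨⟨hv.1.holo, hv.1.inv, h, ?_⟩, hv.2⟩
  have : (fun z => F (WW N z)) = σ • F := by
    funext z
    rw [hv.2 z, Pi.smul_apply, smul_eq_mul]
  rw [this]
  exact Bd_smul σ h

theorem LW_add (hpc : S_HPC) (hN : N.Prime) (σ : ℂ) (m k : ℕ) :
    Module.finrank ℂ (LW N σ ((m + k : ℕ) : ℤ)) ≤ Module.finrank ℂ (LW N σ m) + k := by
  induction k with
  | zero => simp
  | succ k ih =>
    have := LW_succ hpc hN σ (m + k)
    rw [← add_assoc]
    omega

theorem LWp0 (hpc : S_HPC) (hN : N.Prime) : Module.finrank ℂ (LW N 1 0) ≤ 1 := by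
  haveI := (fin0 hpc hN).1
  exact (Submodule.finrank_mono (LW_le 1 0)).trans (fin0 hpc hN).2

theorem LWm0 (hpc : S_HPC) (hN : N.Prime) : Module.finrank ℂ (LW N (-1) 0) = 0 := by
  have : LW N (-1) 0 = ⊥ := by
    rw [Submodule.eq_bot_iff]
    intro F hF
    obtain ⟨c, hc⟩ := hpc N hN F hF.1
    have h := hF.2 UpperHalfPlane.I
    rw [hc, hc] at h
    have h0 : c = 0 := by linear_combination h / 2
    funext z
    rw [hc, h0]
    rfl
  rw [this]
  exact finrank_bot ℂ _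

/-- the splitting -/
theorem split (hpc : S_HPC) (hN : N.Prime) (m : ℕ) : Module.finrank ℂ (LS N m m) ≤
    Module.finrank ℂ (LW N 1 m) + Module.finrank ℂ (LW N (-1) m) := by
  haveI := finLS hpc hN m m
  haveI := finLW hpc hN 1 m
  haveI := finLW hpc hN (-1) m
  have h : LS N m m ≤ LW N 1 m ⊔ LW N (-1) m := by
    intro F hF
    have hF' : LX N m m F := hF
    have hW : LX N m m (fun z => F (WW N z)) := LX_W hF'
    have e : F = (1 / 2 : ℂ) • (F + fun z => F (WW N z)) +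
        (1 / 2 : ℂ) • (F + (-1 : ℂ) • fun z => F (WW N z)) := by
      funext z
      simp only [Pi.add_apply, Pi.smul_apply, smul_eq_mul]
      ring
    rw [e]
    refine Submodule.add_mem_sup ⟨LX_smul _ (LX_add hF' hW), fun z => ?_⟩
      ⟨LX_smul _ (LX_add hF' (LX_smul _ hW)), fun z => ?_⟩
    · simp only [Pi.add_apply, Pi.smul_apply, smul_eq_mul, WW_WW]
      ring
    · simp only [Pi.add_apply, Pi.smul_apply, smul_eq_mul, WW_WW]
      ring
  exact (Submodule.finrank_mono h).trans (Submodule.finrank_add_le_finrank_add_finrank _ _)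

theorem LS_zero_le (hpc : S_HPC) (hN : N.Prime) (a b k : ℕ) :
    Module.finrank ℂ (LS N a ((b + k : ℕ) : ℤ)) ≤ Module.finrank ℂ (LS N a b) + k := by
  induction k with
  | zero => simp
  | succ k ih =>
    have h : FiniteDimensional ℂ (LS N a (((b + (k + 1) : ℕ) : ℤ) - 1)) := by
      rw [show (((b + (k + 1) : ℕ) : ℤ) - 1) = ((b + k : ℕ) : ℤ) by push_cast; ring]
      exact finLS hpc hN a (b + k)
    have h2 := (cut_zero (N := N) a _ h).2
    rw [show (((b + (k + 1) : ℕ) : ℤ) - 1) = ((b + k : ℕ) : ℤ) by push_cast; ring] at h2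
    omega

/-- lower bound for all functions -/
theorem LS_low (hpc : S_HPC) (hpv : S_HPV) (hN : N.Prime) (hN2 : N ≠ 2) : ∃ j0 : ℕ, ∀ j : ℕ,
    j0 ≤ j → 24 * (j : ℤ) - N + 11 ≤ 12 * (Module.finrank ℂ (LS N j j) : ℤ) := by
  obtain ⟨j0, hj⟩ := hpv N hN hN2
  refine ⟨j0, fun j hjj => ?_⟩
  obtain ⟨r, F, hF, hL, hr⟩ := hj j hjj
  have h1 : r ≤ Module.finrank ℂ (LS N j ((j : ℤ) * N)) := by
    haveI : FiniteDimensional ℂ (LS N j ((j : ℤ) * N)) := by
      have := finLS hpc hN j (j * N)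
      push_cast at this
      exact this
    let G : Fin r → LS N j ((j : ℤ) * N) := fun i => ⟨F i, hL i⟩
    have hG : LinearIndependent ℂ G := by
      refine LinearIndependent.of_comp (LS N j ((j : ℤ) * N)).subtype ?_
      exact hF
    have := hG.fintype_card_le_finrank
    rwa [Fintype.card_fin] at this
  have h2 := LS_zero_le hpc hN j j (j * (N - 1))
  have h3 : ((j + j * (N - 1) : ℕ) : ℤ) = (j : ℤ) * N := by
    have : 1 ≤ N := hN.one_le
    push_cast [this]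
    ring
  rw [h3] at h2
  have h4 : ((j * (N - 1) : ℕ) : ℤ) = (j : ℤ) * N - j := by
    have : 1 ≤ N := hN.one_le
    push_cast [this]
    ring
  have h5 : (r : ℤ) ≤ (Module.finrank ℂ (LS N j j) : ℤ) + ((j : ℤ) * N - j) := by
    rw [← h4]
    exact_mod_cast h1.trans h2
  nlinarith

/-! ## the gaps -/

theorem SS_succ_le (P : Finset (SF N 2)) (n : ℕ) : SS P ((n + 1 : ℕ) : ℤ) ≤ SS P n := by
  intro f hf
  refine ⟨hf.1, Bd_mono ?_ hf.2⟩
  push_cast
  linarith

theorem finSS (P : Finset (SF N 2)) (n : ℤ) : FiniteDimensional ℂ (SS P n) := by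
  haveI : FiniteDimensional ℂ (Submodule.span ℂ (P : Set (SF N 2))) :=
    FiniteDimensional.span_finset ℂ P
  exact Submodule.finiteDimensional_of_le
    (fun f hf => hf.1 : SS P n ≤ Submodule.span ℂ (P : Set (SF N 2)))

theorem SS_cut (P : Finset (SF N 2)) (n : ℕ) :
    Module.finrank ℂ (SS P n) ≤ Module.finrank ℂ (SS P ((n + 1 : ℕ) : ℤ)) + 1 := by
  refine (cut (TS N) (SS P n) (SS P ((n + 1 : ℕ) : ℤ)) (-(n : ℤ)) (fun f _ => per_cusp f)
    (fun f _ => hol_cusp f)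
    (fun f hf => hf.2) (fun f hf h => ⟨hf.1, ?_⟩) (finSS P _)).2
  rw [show (-((n + 1 : ℕ) : ℤ)) = -(n : ℤ) - 1 by push_cast; ring]
  exact h

theorem gap (hpc : S_HPC) (hpr : S_HPR) (hN : N.Prime) {P : Finset (SF N 2)}
    (hP : ∀ f ∈ P, W388.IsNewf N 2 f (-1)) (n : ℕ) :
    Module.finrank ℂ (LW N 1 ((n + 1 : ℕ) : ℤ)) + Module.finrank ℂ (SS P ((n + 1 : ℕ) : ℤ)) ≤
      Module.finrank ℂ (LW N 1 n) + Module.finrank ℂ (SS P ((n + 2 : ℕ) : ℤ)) + 1 := by
  haveI := finSS P ((n + 1 : ℕ) : ℤ)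
  haveI := finSS P ((n + 2 : ℕ) : ℤ)
  haveI := finLW hpc hN 1 n
  rcases eq_or_ne (Module.finrank ℂ (SS P ((n + 1 : ℕ) : ℤ)))
    (Module.finrank ℂ (SS P ((n + 2 : ℕ) : ℤ))) with h | h
  · have := LW_succ hpc hN 1 n
    omega
  · have h1 : ∃ f ∈ SS P ((n + 1 : ℕ) : ℤ), f ∉ SS P ((n + 2 : ℕ) : ℤ) := by
      by_contra hc
      push_neg at hc
      exact h (congrArg (fun S : Submodule ℂ (SF N 2) => Module.finrank ℂ S)
        (le_antisymm hc (SS_succ_le P (n + 1))))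
    obtain ⟨f, hf, hf'⟩ := h1
    have h2 : val (-((n + 1 : ℕ) : ℤ)) f ≠ 0 := by
      intro h0
      refine hf' ⟨hf.1, ?_⟩
      have := Bd_of_val (per_cusp f) (hol_cusp f) hf.2 h0
      rw [show (-((n + 2 : ℕ) : ℤ)) = -((n + 1 : ℕ) : ℤ) - 1 by push_cast; ring]
      exact this
    have h3 : LW N 1 ((n + 1 : ℕ) : ℤ) ≤ LW N 1 n := by
      intro F hF
      have h4 := hpr N hN ((n + 1 : ℕ) : ℤ) F f hF.1 (fun z => by rw [hF.2 z, one_mul])
        (fun z => eps_W_span hP hf.1 z) (val ((n + 1 : ℕ) : ℤ) F) (val (-((n + 1 : ℕ) : ℤ)) f)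
        (val_tendsto (LX_per hF.1) hF.1.holo hF.1.inf) (by
          have := val_tendsto (per_cusp f) (hol_cusp f) hf.2
          refine this.congr fun z => ?_
          unfold ee
          push_cast
          rfl)
      have h5 : val ((n + 1 : ℕ) : ℤ) F = 0 := (mul_eq_zero.1 h4).resolve_right h2
      have h6 := Bd_of_val (LX_per hF.1) hF.1.holo hF.1.inf h5
      rw [show (((n + 1 : ℕ) : ℤ) - 1) = n by push_cast; ring] at h6
      refine ⟨⟨hF.1.holo, hF.1.inv, h6, ?_⟩, hF.2⟩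
      have : (fun z => F (WW N z)) = F := by
        funext z
        rw [hF.2 z, one_mul]
      rw [this]
      exact h6
    have h7 := Submodule.finrank_mono h3
    have h8 := SS_cut P (n + 1)
    have h9 : Module.finrank ℂ (SS P ((n + 1 + 1 : ℕ) : ℤ)) =
      Module.finrank ℂ (SS P ((n + 2 : ℕ) : ℤ)) := rfl
    omega

theorem gaps (hpc : S_HPC) (hpr : S_HPR) (hN : N.Prime) {P : Finset (SF N 2)}
    (hP : ∀ f ∈ P, W388.IsNewf N 2 f (-1)) (n : ℕ) :
    Module.finrank ℂ (LW N 1 n) + Module.finrank ℂ (SS P 1) ≤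
      1 + Module.finrank ℂ (SS P ((n + 1 : ℕ) : ℤ)) + n := by
  induction n with
  | zero =>
    have := LWp0 hpc hN
    have e : Module.finrank ℂ (LW N 1 ((0 : ℕ) : ℤ)) = Module.finrank ℂ (LW N 1 0) := by
      rw [Nat.cast_zero]
    have e' : Module.finrank ℂ (SS P ((0 + 1 : ℕ) : ℤ)) = Module.finrank ℂ (SS P 1) := by
      rw [show ((0 + 1 : ℕ) : ℤ) = 1 by norm_num]
    omega
  | succ n ih =>
    have := gap hpc hpr hN hP n
    have e : Module.finrank ℂ (SS P ((n + 1 + 1 : ℕ) : ℤ)) =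
      Module.finrank ℂ (SS P ((n + 2 : ℕ) : ℤ)) := rfl
    omega

theorem SS_anti (P : Finset (SF N 2)) {m n : ℕ} (h : m ≤ n) : SS P (n : ℤ) ≤ SS P (m : ℤ) := by
  intro f hf
  refine ⟨hf.1, Bd_mono ?_ hf.2⟩
  have : (m : ℤ) ≤ n := by exact_mod_cast h
  linarith

theorem SS_van (P : Finset (SF N 2)) : ∃ M : ℕ, ∀ n : ℕ, M ≤ n →
    Module.finrank ℂ (SS P (n : ℤ)) = 0 := by
  -- the minimum of the dimensions
  obtain ⟨M, hM⟩ : ∃ M : ℕ, ∀ n : ℕ,
      Module.finrank ℂ (SS P (M : ℤ)) ≤ Module.finrank ℂ (SS P (n : ℤ)) := by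
    have hne : (Set.range fun n : ℕ => Module.finrank ℂ (SS P (n : ℤ))).Nonempty :=
      Set.range_nonempty _
    obtain ⟨M, hM⟩ := Nat.sInf_mem hne
    exact ⟨M, fun n => by
      have := Nat.sInf_le (Set.mem_range_self (f := fun n : ℕ => Module.finrank ℂ (SS P (n : ℤ))) n)
      rw [← hM] at this
      exact this⟩
  have h0 : SS P (M : ℤ) = ⊥ := by
    rw [Submodule.eq_bot_iff]
    intro f hf
    refine ZERO f fun n => ?_
    rcases le_total n M with h | h
    · exact (SS_anti P h hf).2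
    · haveI := finSS P (M : ℤ)
      have := Submodule.eq_of_le_of_finrank_le (SS_anti P h) (hM n)
      rw [← this] at hf
      exact hf.2
  refine ⟨M, fun n hn => ?_⟩
  have h1 : SS P (n : ℤ) = ⊥ := by
    rw [eq_bot_iff, ← h0]
    exact SS_anti P hn
  rw [h1]
  exact finrank_bot ℂ _

theorem LWp_up (hpc : S_HPC) (hpr : S_HPR) (hN : N.Prime) {P : Finset (SF N 2)}
    (hP : ∀ f ∈ P, W388.IsNewf N 2 f (-1)) : ∃ M : ℕ, ∀ n : ℕ, M ≤ n →
    Module.finrank ℂ (LW N 1 n) + Module.finrank ℂ (SS P 1) ≤ 1 + n := by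
  obtain ⟨M, hM⟩ := SS_van P
  refine ⟨M, fun n hn => ?_⟩
  have h1 := gaps hpc hpr hN hP n
  rw [hM (n + 1) (by omega)] at h1
  omega

theorem mulmap (hpc : S_HPC) (hN : N.Prime) {m j : ℕ} {h : ℍ → ℂ} (hh : h ∈ LW N (-1) m)
    (h0 : h ≠ 0) : Module.finrank ℂ (LW N (-1) j) ≤
      Module.finrank ℂ (LW N 1 ((m + j : ℕ) : ℤ)) := by
  haveI := finLW hpc hN 1 (m + j)
  let φ : LW N (-1) j →ₗ[ℂ] LW N 1 ((m + j : ℕ) : ℤ) :=
    { toFun := fun F => ⟨fun z => h z * (F : ℍ → ℂ) z, by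
        have h1 := LX_mul hh.1 F.2.1
        refine ⟨?_, fun z => ?_⟩
        · push_cast
          exact h1
        · simp only
          rw [hh.2 z, F.2.2 z]
          ring⟩
      map_add' := fun F G => by
        apply Subtype.ext
        funext z
        simp only [Submodule.coe_add, Pi.add_apply]
        ring
      map_smul' := fun c F => by
        apply Subtype.ext
        funext z
        simp only [Submodule.coe_smul, Pi.smul_apply, smul_eq_mul, RingHom.id_apply]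
        ring }
  have hφ : Function.Injective φ := by
    rw [← LinearMap.ker_eq_bot, Submodule.eq_bot_iff]
    intro F hF
    have h2 : ∀ z, h z * (F : ℍ → ℂ) z = 0 := fun z =>
      congrFun (congrArg (fun x : LW N 1 ((m + j : ℕ) : ℤ) => (x : ℍ → ℂ)) (LinearMap.mem_ker.1 hF)) z
    rcases MULZ hh.1.holo F.2.1.holo (funext h2) with h3 | h3
    · exact absurd h3 h0
    · exact Subtype.ext h3
  exact LinearMap.finrank_le_finrank_of_injective hφ

theorem finrank_SS1 {B : Finset (SF N 2)} (hB : IsNewBasis N 2 B) {P : Finset (SF N 2)}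
    (hP : P ⊆ B) : Module.finrank ℂ (SS P 1) = P.card := by
  have h1 : SS P 1 = Submodule.span ℂ (P : Set (SF N 2)) := by
    refine le_antisymm (fun f hf => hf.1) fun f hf => ⟨hf, Bd_cusp f⟩
  have hB' : LinearIndependent ℂ (fun f : B => f.1) := by
    rw [Fintype.linearIndependent_iff]
    intro w hw0
    have e : hw w = 0 := by
      unfold hw
      rw [← Finset.sum_coe_sort B, ← hw0]
      exact Finset.sum_congr rfl fun f _ => by rw [ex_coe]
    have h2 := pet_hw hB w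
    rw [e, Pool.Agent.W347.LV.pet_zero_right W388.LV.q_pet, Complex.zero_re] at h2
    have h3 : 0 < Real.exp (-(4 * Real.pi)) / (4 * Real.pi) := by positivity
    have h4 : 0 ≤ ∑ f : B, ‖w f‖ ^ 2 := Finset.sum_nonneg fun f _ => sq_nonneg _
    have h5 : ∑ f : B, ‖w f‖ ^ 2 = 0 := by
      rcases h4.lt_or_eq with h | h
      · exact absurd h2 (not_le.2 (mul_pos h3 h))
      · exact h.symm
    intro f
    have h6 := (Finset.sum_eq_zero_iff_of_nonneg (fun f _ => sq_nonneg _)).1 h5 f (Finset.mem_univ f)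
    exact norm_eq_zero.1 (pow_eq_zero_iff (two_ne_zero)|>.1 h6)
  have hP' : LinearIndependent ℂ (fun f : P => f.1) :=
    hB'.comp (fun f : P => (⟨f.1, hP f.2⟩ : B)) fun f g h =>
      Subtype.ext (congrArg (fun x : B => x.1) h)
  rw [h1]
  exact finrank_span_finset_eq_card hP'

theorem hp_of (hpv : S_HPV) (hpc : S_HPC) (hpr : S_HPR) : S_HP := by
  intro N _ hN hN2 B hB P hPB hP
  obtain ⟨M, hM⟩ := LWp_up hpc hpr hN hP
  obtain ⟨j0, hj0⟩ := LS_low hpc hpv hN hN2
  rw [finrank_SS1 hB hPB] at hM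
  -- the lower bound for the minus part
  have hv : ∀ j : ℕ, M ≤ j → j0 ≤ j → 12 * (j : ℤ) - N - 1 + 12 * P.card ≤
      12 * (Module.finrank ℂ (LW N (-1) j) : ℤ) := by
    intro j h1 h2
    have h3 := hM j h1
    have h4 := hj0 j h2
    have h5 := split hpc hN j
    omega
  have hv' : ∀ m : ℕ, 12 * (m : ℤ) - N - 1 + 12 * P.card ≤
      12 * (Module.finrank ℂ (LW N (-1) m) : ℤ) := by
    intro m
    have h1 := hv (m + (M + j0)) (by omega) (by omega)
    have h2 := LW_add hpc hN (-1) m (M + j0)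
    push_cast at h1 h2 ⊢
    omega
  have h0 := hv' 0
  have h0' := LWm0 hpc hN
  have h0'' : Module.finrank ℂ (LW N (-1) ((0 : ℕ) : ℤ)) = 0 := by
    rw [Nat.cast_zero]; exact h0'
  rw [h0''] at h0
  obtain ⟨m, hm⟩ : ∃ m : ℕ, m = (N + 1 - 12 * P.card) / 12 + 1 := ⟨_, rfl⟩
  have h1 := hv' m
  have h2 : 0 < Module.finrank ℂ (LW N (-1) m) := by omega
  haveI := finLW hpc hN (-1) m
  obtain ⟨⟨h, hh⟩, hne⟩ := Module.finrank_pos_iff_exists_ne_zero.1 h2
  have hne' : h ≠ 0 := fun h0 => hne (Subtype.ext h0)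
  have h3 := mulmap hpc hN (j := M + j0) hh hne'
  have h4 := hM (m + (M + j0)) (by omega)
  have h5 := hv (M + j0) (by omega) (by omega)
  omega

end Pool.Agent.K4H13.CV.HpP
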