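import Pool.Agent.K4H13.CV.Stm2

/-!
# Project CV: many newforms have sign `+1`, statements

`g = #H`, `g₊ = #{ε = -1}`. `LX N a b` : the functions on `Γ₀(N)∖ℍ` with a pole of order at most `a`
at `i∞` and at most `b` at `0`.
-/

set_option autoImplicit false

open Complex Filter Topology Set UpperHalfPlane MatrixGroups CongruenceSubgroup
open scoped Manifold ModularForm

namespace Pool.Agent.K4H13.CV

/-- the Fricke involution `z ↦ -1/(Nz)` -/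
noncomputable def WW (N : ℕ) [NeZero N] (z : ℍ) : ℍ := ⟨-1 / ((N : ℂ) * z), by
  have hN : (0 : ℝ) < N := Nat.cast_pos.2 (Nat.pos_of_ne_zero (NeZero.ne N))
  have hz := z.im_pos
  have h0 : (z : ℂ) ≠ 0 := ne_zero z
  have h1 : (-1 / ((N : ℂ) * z)).im = z.im / (N * Complex.normSq z) := by
    rw [neg_div, one_div, mul_inv, Complex.neg_im]
    have h1 : ((N : ℂ)⁻¹) = (((N : ℝ)⁻¹ : ℝ) : ℂ) := by push_cast; rfl
    rw [h1, Complex.im_ofReal_mul, Complex.inv_im]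
    have h2 : Complex.normSq (z : ℂ) ≠ 0 := (Complex.normSq_pos.2 h0).ne'
    field_simp
    rfl
  rw [h1]
  exact div_pos hz (mul_pos hN (Complex.normSq_pos.2 h0))⟩

theorem WW_coe (N : ℕ) [NeZero N] (z : ℍ) : (WW N z : ℂ) = -1 / ((N : ℂ) * z) := rfl

/-- a pole of order at most `a` at `i∞` -/
def Bd (a : ℤ) (F : ℍ → ℂ) : Prop :=
  IsBoundedAtImInfty (fun z : ℍ => Complex.exp (2 * Real.pi * Complex.I * ((a : ℂ) * z)) * F z)

/-- functions on `Γ₀(N)∖ℍ` with poles of order at most `a` at `i∞` and at most `b` at `0` -/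
structure LX (N : ℕ) [NeZero N] (a b : ℤ) (F : ℍ → ℂ) : Prop where
  holo : MDifferentiable 𝓘(ℂ) 𝓘(ℂ) F
  inv : ∀ γ : SL(2, ℤ), γ ∈ Gamma0 N → ∀ z : ℍ, F (γ • z) = F z
  inf : Bd a F
  zero : Bd b (fun z => F (WW N z))

/-- HPV : the dimension of the space of functions with large poles -/
def S_HPV : Prop := ∀ (N : ℕ) [NeZero N], N.Prime → N ≠ 2 → ∃ j0 : ℕ, ∀ j : ℕ, j0 ≤ j →
  ∃ (r : ℕ) (F : Fin r → ℍ → ℂ), LinearIndependent ℂ F ∧
    (∀ i, LX N j ((j : ℤ) * N) (F i)) ∧ 12 * (j : ℤ) * ((N : ℤ) + 1) - N + 11 ≤ 12 * (r : ℤ)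

/-- HPC : functions without poles are constant -/
def S_HPC : Prop := ∀ (N : ℕ) [NeZero N], N.Prime → ∀ F : ℍ → ℂ, LX N 0 0 F →
  ∃ c : ℂ, ∀ z, F z = c

/-- HPR : the residue theorem -/
def S_HPR : Prop := ∀ (N : ℕ) [NeZero N], N.Prime → ∀ (a : ℤ) (F : ℍ → ℂ)
  (f : W388.LV.SF N 2), LX N a a F → (∀ z, F (WW N z) = F z) →
  (∀ z : ℍ, f (WW N z) = (N : ℂ) * (z : ℂ) ^ 2 * f z) → ∀ l m : ℂ,
  Tendsto (fun z : ℍ => Complex.exp (2 * Real.pi * Complex.I * ((a : ℂ) * z)) * F z)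
    atImInfty (𝓝 l) →
  Tendsto (fun z : ℍ => Complex.exp (2 * Real.pi * Complex.I * ((-a : ℂ) * z)) * f z)
    atImInfty (𝓝 m) → l * m = 0

/-- HP : the conclusion. `B` is a newform basis. -/
def S_HP : Prop := ∀ (N : ℕ) [NeZero N], N.Prime → N ≠ 2 → ∀ B : Finset (W388.LV.SF N 2),
  W388.LV.IsNewBasis N 2 B → ∀ P : Finset (W388.LV.SF N 2), P ⊆ B →
  (∀ f ∈ P, W388.IsNewf N 2 f (-1)) → 18 * (P.card : ℤ) ≤ N + 13

end Pool.Agent.K4H13.CV
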