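import Pool.Agent.K4H13.CV.Cls
import Pool.Agent.K4H13.CV.Sml

/-!
# The sum of the weights of a basis of the module of vector valued modular forms
-/

set_option autoImplicit false

open Complex Filter Topology Set UpperHalfPlane MatrixGroups CongruenceSubgroup Asymptotics
open scoped Manifold ModularForm Real

namespace Pool.Agent.K4H13.CV.WtP

open Pool.Agent.K4H13.CV

/-! ## the discrete Fourier transform on the cosets -/

section dft

variable {N : ℕ} [hN : Fact N.Prime]

theorem eq_T (x : XX N) : Sml.eq N (ModularGroup.T • x) = (Sml.eq N x).map (fun a => a + 1) := by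
  obtain ⟨g, rfl⟩ := QuotientGroup.mk_surjective x
  change Sml.eq N (QuotientGroup.mk (ModularGroup.T * g)) = (Sml.eq N (QuotientGroup.mk g)).map _
  rw [Sml.eq_mk, Sml.eq_mk]
  unfold Sml.col
  have h1 : (ModularGroup.T * g) 1 0 = g 1 0 := by
    rw [Matrix.SpecialLinearGroup.coe_mul]
    simp [Matrix.mul_apply, Fin.sum_univ_two, ModularGroup.T]
  have h2 : (ModularGroup.T * g) 0 0 = g 0 0 + g 1 0 := by
    rw [Matrix.SpecialLinearGroup.coe_mul]
    simp [Matrix.mul_apply, Fin.sum_univ_two, ModularGroup.T]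
  rw [h1, h2]
  by_cases h : ((g 1 0 : ℤ) : ZMod N) = 0
  · simp [h]
  · rw [if_neg h, if_neg h, Option.map_some]
    congr 1
    push_cast
    field_simp

theorem T_none : (ModularGroup.T)⁻¹ • (Sml.eq N).symm none = (Sml.eq N).symm none := by
  rw [inv_smul_eq_iff]
  apply (Sml.eq N).injective
  rw [eq_T, Equiv.apply_symm_apply]
  rfl

theorem T_some (a : ZMod N) : (ModularGroup.T)⁻¹ • (Sml.eq N).symm (some a) =
    (Sml.eq N).symm (some (a - 1)) := by
  rw [inv_smul_eq_iff]
  apply (Sml.eq N).injective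
  rw [eq_T, Equiv.apply_symm_apply, Equiv.apply_symm_apply]
  simp

/-- the matrix of the transform -/
noncomputable def A0 (N : ℕ) [NeZero N] : Option (ZMod N) → Option (ZMod N) → ℂ
  | none, none => 1
  | none, some _ => 0
  | some _, none => 0
  | some r, some a => ZMod.stdAddChar (r * a)

/-- the inverse matrix -/
noncomputable def A1 (N : ℕ) [NeZero N] : Option (ZMod N) → Option (ZMod N) → ℂ
  | none, none => 1
  | none, some _ => 0
  | some _, none => 0
  | some a, some r => (1 / N : ℂ) * ZMod.stdAddChar (-(r * a))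

/-- the exponents -/
noncomputable def eps0 (N : ℕ) : Option (ZMod N) → ℝ
  | none => 0
  | some r => (r.val : ℝ) / N

theorem inv0 [NeZero N] (i j : Option (ZMod N)) : ∑ w, A1 N i w * A0 N w j = if i = j then 1 else 0 := by
  rw [Fintype.sum_option]
  rcases i with _ | a
  · rcases j with _ | b
    · simp [A0, A1]
    · simp [A0, A1]
  · rcases j with _ | b
    · simp [A0, A1]
    · have h1 : ∀ r : ZMod N, A1 N (some a) (some r) * A0 N (some r) (some b) =
          (1 / N : ℂ) * ZMod.stdAddChar (r * (b - a)) := by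
        intro r
        change (1 / N : ℂ) * ZMod.stdAddChar (-(r * a)) * ZMod.stdAddChar (r * b) = _
        rw [mul_assoc, ← AddChar.map_add_eq_mul]
        congr 2
        ring
      rw [Finset.sum_congr rfl fun r _ => h1 r, ← Finset.mul_sum,
        AddChar.sum_mulShift _ (ZMod.isPrimitive_stdAddChar N)]
      change (0 : ℂ) * 0 + _ = _
      have hN0 : (N : ℂ) ≠ 0 := Nat.cast_ne_zero.2 (NeZero.ne N)
      by_cases hab : a = b
      · rw [if_pos (sub_eq_zero.2 hab.symm), if_pos (by rw [hab]), ZMod.card]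
        field_simp
        simp
      · rw [if_neg (fun h => hab (sub_eq_zero.1 h).symm), if_neg (fun h => hab (Option.some.inj h))]
        simp

theorem sum_val [NeZero N] : ∑ r : ZMod N, ((r.val : ℕ) : ℝ) = (N : ℝ) * (N - 1) / 2 := by
  obtain ⟨n, rfl⟩ : ∃ n, N = n + 1 := ⟨N - 1, by have := NeZero.ne N; omega⟩
  have h1 : ∑ r : ZMod (n + 1), r.val = ∑ i ∈ Finset.range (n + 1), i := by
    rw [← Fin.sum_univ_eq_sum_range (fun i => i) (n + 1)]
    rfl
  rw [← Nat.cast_sum, h1]
  have h2 := Finset.sum_range_id_mul_two (n + 1)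
  have h3 : ((∑ i ∈ Finset.range (n + 1), i : ℕ) : ℝ) * 2 = ((n + 1 : ℕ) : ℝ) * ((n : ℕ) : ℝ) := by
    rw [Nat.add_sub_cancel] at h2
    exact_mod_cast h2
  push_cast at h3 ⊢
  linarith

theorem exists_L [NeZero N] [Fintype (XX N)] [DecidableEq (XX N)] :
    ∃ (L L' : Matrix (XX N) (XX N) ℂ) (ε : XX N → ℝ), L' * L = 1 ∧
      (∀ x, 0 ≤ ε x ∧ ε x < 1) ∧ ∑ x, ε x = ((N : ℝ) - 1) / 2 ∧
      ∀ (v : XX N → ℂ) (x : XX N), ∑ y, L x y * v ((ModularGroup.T)⁻¹ • y) =
        cexp (2 * π * Complex.I * (ε x : ℂ)) * ∑ y, L x y * v y := by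
  refine ⟨Matrix.of fun x y => A0 N (Sml.eq N x) (Sml.eq N y),
    Matrix.of fun x y => A1 N (Sml.eq N x) (Sml.eq N y), fun x => eps0 N (Sml.eq N x),
    ?_, ?_, ?_, ?_⟩
  · ext x y
    rw [Matrix.mul_apply, Matrix.one_apply]
    simp only [Matrix.of_apply]
    rw [Equiv.sum_comp (Sml.eq N) (fun w => A1 N (Sml.eq N x) w * A0 N w (Sml.eq N y)), inv0]
    simp only [EmbeddingLike.apply_eq_iff_eq]
  · intro x
    have hN0 : (0 : ℝ) < N := Nat.cast_pos.2 (Nat.pos_of_ne_zero (NeZero.ne N))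
    show 0 ≤ eps0 N (Sml.eq N x) ∧ eps0 N (Sml.eq N x) < 1
    rcases h : Sml.eq N x with _ | r
    · simp [eps0]
    · constructor
      · change 0 ≤ (r.val : ℝ) / N
        positivity
      · change (r.val : ℝ) / N < 1
        rw [div_lt_one hN0]
        exact_mod_cast ZMod.val_lt r
  · rw [Equiv.sum_comp (Sml.eq N) (fun w => eps0 N w), Fintype.sum_option]
    change 0 + ∑ r : ZMod N, (r.val : ℝ) / N = _
    have hN0 : (N : ℝ) ≠ 0 := Nat.cast_ne_zero.2 (NeZero.ne N)
    rw [← Finset.sum_div, sum_val]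
    field_simp
    ring
  · intro v x
    simp only [Matrix.of_apply]
    rw [← Equiv.sum_comp (Sml.eq N).symm
        (fun y => A0 N (Sml.eq N x) (Sml.eq N y) * v ((ModularGroup.T)⁻¹ • y)),
      ← Equiv.sum_comp (Sml.eq N).symm (fun y => A0 N (Sml.eq N x) (Sml.eq N y) * v y),
      Fintype.sum_option, Fintype.sum_option]
    simp only [Equiv.apply_symm_apply, T_none, T_some]
    rcases h : Sml.eq N x with _ | r
    · simp [eps0, A0]
    · change 0 * _ + ∑ a : ZMod N, ZMod.stdAddChar (r * a) * v ((Sml.eq N).symm (some (a - 1))) =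
        cexp (2 * π * Complex.I * (((r.val : ℝ) / N : ℝ) : ℂ)) * (0 * _ + ∑ a : ZMod N,
          ZMod.stdAddChar (r * a) * v ((Sml.eq N).symm (some a)))
      simp only [zero_mul, zero_add]
      rw [Finset.mul_sum, ← Equiv.sum_comp (Equiv.addRight (1 : ZMod N))]
      refine Finset.sum_congr rfl fun a _ => ?_
      have h1 : ZMod.stdAddChar r = cexp (2 * π * Complex.I * (((r.val : ℝ) / N : ℝ) : ℂ)) := by
        rw [ZMod.stdAddChar_apply, ZMod.toCircle_apply]
        congr 1
        push_cast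
        ring
      rw [← h1, Equiv.coe_addRight, add_sub_cancel_right, mul_add, mul_one,
        AddChar.map_add_eq_mul]
      ring

end dft


/-! ## periodic functions -/

def Per (f : ℍ → ℂ) : Prop := ∀ z : ℍ, f ((1 : ℝ) +ᵥ z) = f z

abbrev Hol (f : ℍ → ℂ) : Prop := MDifferentiable 𝓘(ℂ) 𝓘(ℂ) f

theorem per_ofComplex {f : ℍ → ℂ} (h : Per f) : Function.Periodic (f ∘ ofComplex) (1 : ℝ) := by
  intro w
  by_cases hw : 0 < w.im
  · have h1 : 0 < (w + (1 : ℝ)).im := by simpa using hw
    simp only [Function.comp_apply, ofComplex_apply_of_im_pos h1, ofComplex_apply_of_im_pos hw]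
    rw [← h ⟨w, hw⟩]
    congr 1
    ext
    simp [add_comm]
  · have hw' : w.im ≤ 0 := not_lt.1 hw
    have h1 : (w + (1 : ℝ)).im ≤ 0 := by simpa using hw'
    simp only [Function.comp_apply, ofComplex_apply_of_im_nonpos h1,
      ofComplex_apply_of_im_nonpos hw']

theorem exp_tendsto (c : ℝ) (hc : 0 < c) :
    Tendsto (fun τ : ℍ => Real.exp (-(c * τ.im))) atImInfty (𝓝 0) := by
  have h1 : Tendsto (fun τ : ℍ => τ.im) atImInfty atTop := tendsto_comap
  exact Real.tendsto_exp_neg_atTop_nhds_zero.comp (h1.const_mul_atTop hc)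

theorem decay {f : ℍ → ℂ} (hper : Per f) (hhol : Hol f) (hb : IsBoundedAtImInfty f) :
    (fun τ => f τ - valueAtInfty f) =O[atImInfty] fun τ : ℍ => Real.exp (-(2 * π * τ.im)) := by
  have h := exp_decay_sub_atImInfty (h := 1) one_pos (per_ofComplex hper) hhol hb
  refine h.congr_right fun τ => ?_
  rw [div_one]
  ring_nf

theorem tends {f : ℍ → ℂ} (hper : Per f) (hhol : Hol f) (hb : IsBoundedAtImInfty f) :
    Tendsto f atImInfty (𝓝 (valueAtInfty f)) := by
  have h := (decay hper hhol hb).trans_tendsto (exp_tendsto (2 * π) (by positivity))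
  have h2 := h.add_const (valueAtInfty f)
  simpa using h2

theorem decay0 {f : ℍ → ℂ} (hper : Per f) (hhol : Hol f) (h0 : Tendsto f atImInfty (𝓝 0)) :
    f =O[atImInfty] fun τ : ℍ => Real.exp (-(2 * π * τ.im)) := by
  have hz : IsZeroAtImInfty f := h0
  have h := decay hper hhol hz.isBoundedAtImInfty
  rw [hz.valueAtInfty_eq_zero] at h
  simpa using h

/-- `e(w)` -/
noncomputable def ee (w : ℂ) : ℂ := cexp (2 * π * Complex.I * w)

theorem ee_add (a b : ℂ) : ee (a + b) = ee a * ee b := by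
  unfold ee
  rw [mul_add, Complex.exp_add]

theorem ee_ne (a : ℂ) : ee a ≠ 0 := Complex.exp_ne_zero _

theorem ee_zero : ee 0 = 1 := by simp [ee]

theorem ee_one : ee 1 = 1 := by
  unfold ee
  rw [mul_one]
  exact Complex.exp_two_pi_mul_I

theorem norm_ee (w : ℂ) : ‖ee w‖ = Real.exp (-(2 * π * w.im)) := by
  unfold ee
  rw [Complex.norm_exp]
  congr 1
  simp [Complex.mul_re, Complex.mul_im]

theorem hol_coe {h : ℂ → ℂ} (hh : Differentiable ℂ h) : Hol (fun z : ℍ => h z) := by
  rw [Hol, UpperHalfPlane.mdifferentiable_iff]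
  refine hh.differentiableOn.congr fun z hz => ?_
  simp only [Function.comp_apply]
  rw [ofComplex_apply_of_im_pos hz]

theorem hol_ee (c : ℂ) : Hol (fun z : ℍ => ee (c * z)) := by
  refine hol_coe (h := fun z => ee (c * z)) ?_
  unfold ee
  fun_prop

theorem hol_mul {f g : ℍ → ℂ} (hf : Hol f) (hg : Hol g) : Hol (fun z => f z * g z) := by
  rw [Hol, UpperHalfPlane.mdifferentiable_iff] at *
  exact hf.mul hg

theorem hol_sum {ι : Type} [Fintype ι] {f : ι → ℍ → ℂ} (hf : ∀ i, Hol (f i)) :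
    Hol (fun z => ∑ i, f i z) := by
  rw [Hol, UpperHalfPlane.mdifferentiable_iff]
  have : ((fun z => ∑ i, f i z) ∘ ofComplex) = fun z => ∑ i, ((f i) ∘ ofComplex) z := rfl
  rw [this]
  exact DifferentiableOn.fun_sum fun i _ => UpperHalfPlane.mdifferentiable_iff.1 (hf i)

theorem hol_prod {ι : Type} (s : Finset ι) {f : ι → ℍ → ℂ} (hf : ∀ i, Hol (f i)) :
    Hol (fun z => ∏ i ∈ s, f i z) := by
  rw [Hol, UpperHalfPlane.mdifferentiable_iff]
  have : ((fun z => ∏ i ∈ s, f i z) ∘ ofComplex) = fun z => ∏ i ∈ s, ((f i) ∘ ofComplex) z := rfl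
  rw [this]
  exact DifferentiableOn.fun_finsetProd fun i _ => UpperHalfPlane.mdifferentiable_iff.1 (hf i)

theorem hol_pow {f : ℍ → ℂ} (hf : Hol f) (n : ℕ) : Hol (fun z => f z ^ n) := by
  rw [Hol, UpperHalfPlane.mdifferentiable_iff] at *
  exact hf.pow n

theorem hol_div {f g : ℍ → ℂ} (hf : Hol f) (hg : Hol g) (h0 : ∀ z, g z ≠ 0) :
    Hol (fun z => f z / g z) := by
  rw [Hol, UpperHalfPlane.mdifferentiable_iff] at *
  exact hf.div hg fun z _ => h0 _

theorem hol_const (c : ℂ) : Hol (fun _ => c) := mdifferentiable_const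

theorem hol_det {ι : Type} [Fintype ι] [DecidableEq ι] {M : ℍ → Matrix ι ι ℂ}
    (hM : ∀ i j, Hol (fun z => M z i j)) : Hol (fun z => (M z).det) := by
  simp only [Matrix.det_apply']
  exact hol_sum fun σ => hol_mul (hol_const _) (hol_prod _ fun i => hM _ _)

/-- the removable singularity -/
theorem bdd_of_small {f : ℍ → ℂ} (hper : Per f) (hhol : Hol f)
    (h0 : Tendsto (fun z : ℍ => ee z * f z) atImInfty (𝓝 0)) : IsBoundedAtImInfty f := by
  have hp : Per (fun z : ℍ => ee z * f z) := by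
    intro z
    simp only
    rw [hper z, coe_vadd, ee_add]
    norm_num [ee_one]
  have hh : Hol (fun z : ℍ => ee z * f z) := by
    have := hol_mul (hol_ee 1) hhol
    simpa using this
  have h := decay0 hp hh h0
  have h1 : (fun z : ℍ => (ee z)⁻¹) =O[atImInfty] fun z : ℍ => (Real.exp (-(2 * π * z.im)))⁻¹ := by
    refine IsBigO.of_bound 1 (Eventually.of_forall fun z => ?_)
    rw [norm_inv, norm_ee, one_mul, norm_inv, Real.norm_of_nonneg (Real.exp_pos _).le]
    rfl
  have h2 := h1.mul h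
  have h3 : (fun z : ℍ => (ee z)⁻¹ * (ee z * f z)) = f := by
    funext z
    rw [← mul_assoc, inv_mul_cancel₀ (ee_ne _), one_mul]
  have h4 : (fun z : ℍ => (Real.exp (-(2 * π * z.im)))⁻¹ * Real.exp (-(2 * π * z.im))) =
      fun _ => (1 : ℝ) := by
    funext z
    exact inv_mul_cancel₀ (Real.exp_pos _).ne'
  rw [h3, h4] at h2
  exact h2

theorem per_T {N : ℕ} {k : ℤ} {F : ℍ → XX N → ℂ} (hF : VM N k F) (z : ℍ) (x : XX N) :
    F ((1 : ℝ) +ᵥ z) x = F z ((ModularGroup.T)⁻¹ • x) := by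
  have := hF.mod ModularGroup.T z x
  rw [modular_T_smul] at this
  rw [this]
  have h2 : denom ((ModularGroup.T : SL(2, ℤ)) : GL (Fin 2) ℝ) z = 1 := by
    simp [denom, ModularGroup.T]
  rw [h2, one_zpow, one_mul]


/-! ## level one forms -/

theorem lm_mk {k : ℤ} (f : ℍ → ℂ) (h1 : Hol f)
    (h2 : ∀ (γ : SL(2, ℤ)) (z : ℍ), f (γ • z) = (denom γ z) ^ k * f z)
    (h3 : IsBoundedAtImInfty f) : LM k f := by
  have h2' : ∀ γ : SL(2, ℤ), f ∣[k] γ = f := by
    intro γ
    ext z
    rw [ModularForm.SL_slash_apply, h2, mul_right_comm, ← zpow_add₀ (denom_ne_zero _ _),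
      add_neg_cancel, zpow_zero, one_mul]
  refine ⟨{ toFun := f
            slash_action_eq' := ?_
            holo' := h1
            bdd_at_cusps' := ?_ }, fun z => rfl⟩
  · rintro _ ⟨γ, rfl⟩
    exact h2' γ
  · intro c hc
    rw [Subgroup.IsArithmetic.isCusp_iff_isCusp_SL2Z] at hc
    rw [OnePoint.isBoundedAt_iff_forall_SL2Z hc]
    intro γ _
    change IsBoundedAtImInfty (f ∣[k] γ)
    rw [h2']
    exact h3

theorem lm_hol {k : ℤ} {f : ℍ → ℂ} (h : LM k f) : Hol f := by
  obtain ⟨g, hg⟩ := h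
  have : f = g := funext hg
  rw [this]
  exact g.holo'

theorem lm_mod {k : ℤ} {f : ℍ → ℂ} (h : LM k f) (γ : SL(2, ℤ)) (z : ℍ) :
    f (γ • z) = (denom γ z) ^ k * f z := by
  obtain ⟨g, hg⟩ := h
  rw [hg, hg]
  have h1 : (g : ℍ → ℂ) ∣[k] γ = g := g.slash_action_eq' _ ⟨γ, rfl⟩
  have h2 := congrFun h1 z
  rw [ModularForm.SL_slash_apply] at h2
  rw [← h2, mul_comm (g (γ • z)), ← mul_assoc, ← zpow_add₀ (denom_ne_zero _ _),
    add_neg_cancel, zpow_zero, one_mul]

theorem lm_bdd {k : ℤ} {f : ℍ → ℂ} (h : LM k f) : IsBoundedAtImInfty f := by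
  obtain ⟨g, hg⟩ := h
  have : f = g := funext hg
  rw [this]
  exact ModularFormClass.bdd_at_infty g

theorem lm_per {k : ℤ} {f : ℍ → ℂ} (h : LM k f) : Per f := by
  intro z
  have := lm_mod h ModularGroup.T z
  rw [modular_T_smul] at this
  rw [this]
  have h2 : denom ((ModularGroup.T : SL(2, ℤ)) : GL (Fin 2) ℝ) z = 1 := by
    simp [denom, ModularGroup.T]
  rw [h2, one_zpow, one_mul]

theorem disc_lm : LM 12 ModularForm.discriminant := by
  refine lm_mk _ CuspForm.discriminant.holo' (fun γ z => ?_)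
    ModularForm.discriminant_isZeroAtImInfty.isBoundedAtImInfty
  have h1 : (CuspForm.discriminant : ℍ → ℂ) ∣[(12 : ℤ)] γ = CuspForm.discriminant :=
    CuspForm.discriminant.slash_action_eq' _ ⟨γ, rfl⟩
  have h2 := congrFun h1 z
  rw [ModularForm.SL_slash_apply, CuspForm.coe_discriminant] at h2
  rw [← h2, mul_comm (ModularForm.discriminant (γ • z)), ← mul_assoc,
    ← zpow_add₀ (denom_ne_zero _ _), add_neg_cancel, zpow_zero, one_mul]

/-- the Eisenstein series -/
theorem exists_E (m : ℤ) (h4 : 4 ≤ m) (he : Even m) :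
    ∃ e : ℍ → ℂ, LM m e ∧ Tendsto e atImInfty (𝓝 1) := by
  obtain ⟨n, rfl⟩ : ∃ n : ℕ, m = n := ⟨m.toNat, by omega⟩
  have hn : 3 ≤ n := by omega
  have he' : Even n := by exact_mod_cast he
  have hlm : LM (n : ℤ) (ModularForm.E hn) := ⟨ModularForm.E hn, fun _ => rfl⟩
  refine ⟨ModularForm.E hn, hlm, ?_⟩
  have h1 := tends (lm_per hlm) (lm_hol hlm) (lm_bdd hlm)
  have h2 : valueAtInfty (ModularForm.E hn) = 1 := by
    rw [← EisensteinSeries.E_qExpansion_coeff_zero hn he']
    exact (UpperHalfPlane.qExpansion_coeff_zero one_pos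
      (analyticAt_cuspFunction_zero one_pos (per_ofComplex (lm_per hlm)) (lm_hol hlm) (lm_bdd hlm))
      (per_ofComplex (lm_per hlm))).symm
  rw [h2] at h1
  exact h1

/-! ## the transformed components -/

section main

variable {N : ℕ} [Fintype (XX N)]

/-- the transformed component -/
noncomputable def lam (L : Matrix (XX N) (XX N) ℂ) (F : ℍ → XX N → ℂ) (x : XX N) (z : ℍ) : ℂ :=
  ∑ y, L x y * F z y

/-- the periodic function -/
noncomputable def gg (L : Matrix (XX N) (XX N) ℂ) (ε : XX N → ℝ) (F : ℍ → XX N → ℂ) (x : XX N)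
    (z : ℍ) : ℂ := ee (-(ε x : ℂ) * z) * lam L F x z

theorem lam_hol (L : Matrix (XX N) (XX N) ℂ) {k : ℤ} {F : ℍ → XX N → ℂ} (hF : VM N k F)
    (x : XX N) : Hol (lam L F x) := hol_sum fun y => hol_mul (hol_const _) (hF.holo y)

theorem bdd_mul {f g : ℍ → ℂ} (hf : IsBoundedAtImInfty f) (hg : IsBoundedAtImInfty g) :
    IsBoundedAtImInfty (fun z => f z * g z) := by
  have := BoundedAtFilter.mul hf hg
  exact this

theorem bdd_const (c : ℂ) : IsBoundedAtImInfty (fun _ => c) := by
  exact const_boundedAtFilter _ _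

theorem bdd_add {f g : ℍ → ℂ} (hf : IsBoundedAtImInfty f) (hg : IsBoundedAtImInfty g) :
    IsBoundedAtImInfty (fun z => f z + g z) := by
  have := BoundedAtFilter.add hf hg
  exact this

theorem bdd_sum {ι : Type} (s : Finset ι) {f : ι → ℍ → ℂ}
    (hf : ∀ i, IsBoundedAtImInfty (f i)) : IsBoundedAtImInfty (fun z => ∑ i ∈ s, f i z) := by
  classical
  induction s using Finset.induction_on with
  | empty => simpa using bdd_const 0
  | insert a s ha ih =>
    simp only [Finset.sum_insert ha]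
    exact bdd_add (hf a) ih

theorem lam_bdd (L : Matrix (XX N) (XX N) ℂ) {k : ℤ} {F : ℍ → XX N → ℂ} (hF : VM N k F)
    (x : XX N) : IsBoundedAtImInfty (lam L F x) :=
  bdd_sum _ fun y => bdd_mul (bdd_const _) (hF.bdd y)

theorem gg_hol (L : Matrix (XX N) (XX N) ℂ) (ε : XX N → ℝ) {k : ℤ} {F : ℍ → XX N → ℂ}
    (hF : VM N k F) (x : XX N) : Hol (gg L ε F x) := hol_mul (hol_ee _) (lam_hol L hF x)

theorem gg_per {L : Matrix (XX N) (XX N) ℂ} {ε : XX N → ℝ}
    (hT : ∀ (v : XX N → ℂ) (x : XX N), ∑ y, L x y * v ((ModularGroup.T)⁻¹ • y) =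
        cexp (2 * π * Complex.I * (ε x : ℂ)) * ∑ y, L x y * v y) {k : ℤ} {F : ℍ → XX N → ℂ}
    (hF : VM N k F) (x : XX N) : Per (gg L ε F x) := by
  intro z
  unfold gg lam
  have h1 : ∑ y, L x y * F ((1 : ℝ) +ᵥ z) y = ee (ε x : ℂ) * ∑ y, L x y * F z y :=
    (Finset.sum_congr rfl fun y _ => by rw [per_T hF]).trans (hT (F z) x)
  rw [h1, ← mul_assoc, ← ee_add, coe_vadd]
  congr 2
  push_cast
  ring

theorem zero_mul_bdd {f g : ℍ → ℂ} (hf : Tendsto f atImInfty (𝓝 0)) (hg : IsBoundedAtImInfty g) :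
    Tendsto (fun z => f z * g z) atImInfty (𝓝 0) := by
  have h1 : f =o[atImInfty] fun _ => (1 : ℝ) := (isLittleO_one_iff ℝ).2 hf
  have h2 : g =O[atImInfty] fun _ => (1 : ℝ) := hg
  have h3 := h1.mul_isBigO h2
  simp only [mul_one] at h3
  exact (isLittleO_one_iff ℝ).1 h3

theorem gg_bdd {L : Matrix (XX N) (XX N) ℂ} {ε : XX N → ℝ} (hε : ∀ x, 0 ≤ ε x ∧ ε x < 1)
    (hT : ∀ (v : XX N → ℂ) (x : XX N), ∑ y, L x y * v ((ModularGroup.T)⁻¹ • y) =
        cexp (2 * π * Complex.I * (ε x : ℂ)) * ∑ y, L x y * v y) {k : ℤ} {F : ℍ → XX N → ℂ}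
    (hF : VM N k F) (x : XX N) : IsBoundedAtImInfty (gg L ε F x) := by
  refine bdd_of_small (gg_per hT hF x) (gg_hol L ε hF x) ?_
  have h1 : Tendsto (fun z : ℍ => ee ((1 - ε x : ℝ) * z)) atImInfty (𝓝 0) := by
    rw [tendsto_zero_iff_norm_tendsto_zero]
    refine (exp_tendsto (2 * π * (1 - ε x)) (mul_pos (by positivity) ?_)).congr fun z => ?_
    · linarith [(hε x).2]
    · rw [norm_ee, Complex.im_ofReal_mul]
      congr 1
      ring_nf
      rfl
  refine (zero_mul_bdd h1 (lam_bdd L hF x)).congr fun z => ?_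
  unfold gg
  rw [← mul_assoc, ← ee_add]
  congr 2
  push_cast
  ring

/-- if the limits vanish, the form decays -/
theorem decay_of_lim [DecidableEq (XX N)] {L L' : Matrix (XX N) (XX N) ℂ} {ε : XX N → ℝ}
    (hL : L' * L = 1)
    (hε : ∀ x, 0 ≤ ε x ∧ ε x < 1)
    (hT : ∀ (v : XX N → ℂ) (x : XX N), ∑ y, L x y * v ((ModularGroup.T)⁻¹ • y) =
        cexp (2 * π * Complex.I * (ε x : ℂ)) * ∑ y, L x y * v y) {k : ℤ} {F : ℍ → XX N → ℂ}
    (hF : VM N k F) (h0 : ∀ x, Tendsto (gg L ε F x) atImInfty (𝓝 0)) (y : XX N) :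
    (fun z => F z y) =O[atImInfty] fun τ : ℍ => Real.exp (-(2 * π * τ.im)) := by
  have h1 : ∀ x, lam L F x =O[atImInfty] fun τ : ℍ => Real.exp (-(2 * π * τ.im)) := by
    intro x
    have h2 := decay0 (gg_per hT hF x) (gg_hol L ε hF x) (h0 x)
    refine IsBigO.trans (IsBigO.of_bound 1 ?_) h2
    have h3 : ∀ᶠ z : ℍ in atImInfty, 0 ≤ z.im := Eventually.of_forall fun z => z.im_pos.le
    filter_upwards [h3] with z hz
    unfold gg
    rw [norm_mul, one_mul, norm_ee]
    have h4 : 1 ≤ Real.exp (-(2 * π * ((-(ε x : ℂ)) * z).im)) := by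
      rw [Real.one_le_exp_iff, ← Complex.ofReal_neg, Complex.im_ofReal_mul]
      have : 0 ≤ 2 * π * (ε x * (z : ℂ).im) := by
        have := (hε x).1
        have h5 : 0 ≤ (z : ℂ).im := hz
        positivity
      linarith
    exact le_mul_of_one_le_left (norm_nonneg _) h4
  have h2 : ∀ z, F z y = ∑ x, L' y x * lam L F x z := by
    intro z
    have h3 : (L' * L).mulVec (F z) = F z := by rw [hL, Matrix.one_mulVec]
    rw [← Matrix.mulVec_mulVec] at h3
    have h4 := congrFun h3 y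
    rw [← h4]
    rfl
  simp only [h2]
  exact IsBigO.fun_sum fun x _ => (h1 x).const_mul_left _

end main

/-! ## the module structure -/

section struct

variable {N : ℕ} [Fintype (XX N)]

theorem vm_sum {l : ℤ} {k : XX N → ℤ} {F : XX N → ℍ → XX N → ℂ} (hF : ∀ j, VM N (k j) (F j))
    {e : XX N → ℍ → ℂ} (he : ∀ j, LM (l - k j) (e j)) :
    VM N l (fun z x => ∑ j, e j z * F j z x) := by
  refine ⟨fun x => hol_sum fun j => hol_mul (lm_hol (he j)) ((hF j).holo x), fun γ z x => ?_,
    fun x => bdd_sum _ fun j => bdd_mul (lm_bdd (he j)) ((hF j).bdd x)⟩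
  rw [Finset.mul_sum]
  refine Finset.sum_congr rfl fun j _ => ?_
  rw [lm_mod (he j), (hF j).mod]
  have h1 : (denom γ z) ^ l = (denom γ z) ^ (l - k j) * (denom γ z) ^ (k j) := by
    rw [← zpow_add₀ (denom_ne_zero _ _)]
    congr 1
    ring
  rw [h1]
  ring

theorem lm_cmul {k : ℤ} {f : ℍ → ℂ} (c : ℂ) (hf : LM k f) : LM k (fun z => c * f z) :=
  lm_mk _ (hol_mul (hol_const c) (lm_hol hf)) (fun γ z => by rw [lm_mod hf]; ring)
    (bdd_mul (bdd_const c) (lm_bdd hf))

theorem lm_sub_disc {k : ℤ} {f g : ℍ → ℂ} (hf : LM k f) (hg : LM (k - 12) g) :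
    LM k (fun z => f z + (-1) * (ModularForm.discriminant z * g z)) := by
  refine lm_mk _ ?_ (fun γ z => ?_) ?_
  · have h1 := hol_mul (hol_const (-1)) (hol_mul (lm_hol disc_lm) (lm_hol hg))
    have h2 := lm_hol hf
    rw [Hol, UpperHalfPlane.mdifferentiable_iff] at *
    exact h2.add h1
  · rw [lm_mod hf, lm_mod disc_lm, lm_mod hg]
    have h1 : (denom γ z) ^ k = (denom γ z) ^ (12 : ℤ) * (denom γ z) ^ (k - 12) := by
      rw [← zpow_add₀ (denom_ne_zero _ _)]
      congr 1
      ring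
    rw [h1]
    ring
  · exact bdd_add (lm_bdd hf) (bdd_mul (bdd_const (-1)) (bdd_mul (lm_bdd disc_lm) (lm_bdd hg)))

/-- division by the discriminant -/
theorem vm_div {l : ℤ} {G : ℍ → XX N → ℂ} (hG : VM N l G)
    (hd : ∀ y, (fun z => G z y) =O[atImInfty] fun τ : ℍ => Real.exp (-(2 * π * τ.im))) :
    VM N (l - 12) (fun z x => G z x / ModularForm.discriminant z) := by
  refine ⟨fun x => hol_div (hG.holo x) (lm_hol disc_lm) ModularForm.discriminant_ne_zero,
    fun γ z x => ?_, fun x => ?_⟩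
  · rw [hG.mod, lm_mod disc_lm]
    have h1 : (denom γ z) ^ (l - 12) = (denom γ z) ^ l / (denom γ z) ^ (12 : ℤ) := by
      rw [zpow_sub₀ (denom_ne_zero _ _)]
    rw [h1]
    have h2 : (denom γ z) ^ (12 : ℤ) ≠ 0 := zpow_ne_zero _ (denom_ne_zero _ _)
    have h3 := ModularForm.discriminant_ne_zero z
    field_simp
  · have h1 : (fun τ : ℍ => Real.exp (-(2 * π * τ.im))) =O[atImInfty] ModularForm.discriminant := by
      refine ModularForm.exp_isBigO_discriminant.congr_left fun τ => ?_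
      congr 1
      ring
    have h2 := (hd x).trans h1
    exact (div_isBoundedUnder_of_isBigO h2).isBigO_one ℝ

/-- the matrix of the limits is invertible -/
theorem det_ne [DecidableEq (XX N)] {L L' : Matrix (XX N) (XX N) ℂ} {ε : XX N → ℝ}
    (hL : L' * L = 1) (hε : ∀ x, 0 ≤ ε x ∧ ε x < 1)
    (hT : ∀ (v : XX N → ℂ) (x : XX N), ∑ y, L x y * v ((ModularGroup.T)⁻¹ • y) =
        cexp (2 * π * Complex.I * (ε x : ℂ)) * ∑ y, L x y * v y)
    {k : XX N → ℤ} {F : XX N → ℍ → XX N → ℂ} (hF : IsBas N k F) (hev : ∀ j, Even (k j)) :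
    (Matrix.of fun x j => valueAtInfty (gg L ε (F j) x)).det ≠ 0 := by
  intro hdet
  obtain ⟨c, hc0, hc⟩ := Matrix.exists_mulVec_eq_zero_iff.2 hdet
  apply hc0
  set l : ℤ := ∑ j, k j + 4 with hl
  have hkl : ∀ j, k j ≤ ∑ j, k j := fun j =>
    Finset.single_le_sum (fun i _ => hF.nonneg i) (Finset.mem_univ j)
  have hE : ∀ j, ∃ e : ℍ → ℂ, LM (l - k j) e ∧ Tendsto e atImInfty (𝓝 1) := by
    intro j
    refine exists_E _ (by have := hkl j; omega) ?_
    refine Even.sub ?_ (hev j)
    refine Even.add ?_ (by decide)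
    exact Finset.even_sum _ fun j _ => hev j
  choose e he he1 using hE
  have hce : ∀ j, LM (l - k j) (fun z => c j * e j z) := fun j => lm_cmul _ (he j)
  have hG := vm_sum hF.vm hce
  set G : ℍ → XX N → ℂ := fun z x => ∑ j, c j * e j z * F j z x with hGdef
  have hgg : ∀ x z, gg L ε G x z = ∑ j, c j * e j z * gg L ε (F j) x z := by
    intro x z
    unfold gg lam
    simp only [hGdef, Finset.mul_sum]
    rw [Finset.sum_comm]
    refine Finset.sum_congr rfl fun j _ => Finset.sum_congr rfl fun y _ => ?_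
    ring
  have hlim : ∀ x, Tendsto (gg L ε G x) atImInfty (𝓝 0) := by
    intro x
    have h1 : Tendsto (fun z => ∑ j, c j * e j z * gg L ε (F j) x z) atImInfty
        (𝓝 (∑ j, c j * 1 * valueAtInfty (gg L ε (F j) x))) := by
      refine tendsto_finsetSum _ fun j _ => ?_
      exact (tendsto_const_nhds.mul (he1 j)).mul (tends (gg_per hT (hF.vm j) x)
        (gg_hol L ε (hF.vm j) x) (gg_bdd hε hT (hF.vm j) x))
    have h2 : ∑ j, c j * 1 * valueAtInfty (gg L ε (F j) x) = 0 := by
      have h3 := congrFun hc x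
      rw [Matrix.mulVec, dotProduct] at h3
      simp only [Matrix.of_apply, Pi.zero_apply] at h3
      rw [← h3]
      refine Finset.sum_congr rfl fun j _ => ?_
      ring
    rw [h2] at h1
    exact h1.congr fun z => (hgg x z).symm
  have hQ := vm_div hG (decay_of_lim hL hε hT hG hlim)
  obtain ⟨B, hB, hBs⟩ := hF.gen _ _ hQ
  have hB' : ∀ j, LM (l - k j - 12) (B j) := by
    intro j
    have h1 : l - k j - 12 = l - 12 - k j := by ring
    rw [h1]
    exact hB j
  have hu := hF.uniq l (fun j z => c j * e j z + (-1) * (ModularForm.discriminant z * B j z))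
    (fun j => lm_sub_disc (hce j) (hB' j)) (fun z x => by
      have h1 := hBs z x
      rw [tsum_fintype] at h1 ⊢
      have h3 := ModularForm.discriminant_ne_zero z
      rw [div_eq_iff h3, Finset.sum_mul] at h1
      have h4 : ∑ j, (c j * e j z + (-1) * (ModularForm.discriminant z * B j z)) * F j z x =
          ∑ j, c j * e j z * F j z x - ∑ j, B j z * F j z x * ModularForm.discriminant z := by
        rw [← Finset.sum_sub_distrib]
        refine Finset.sum_congr rfl fun j _ => ?_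
        ring
      rw [h4, ← h1]
      exact sub_self _)
  funext j
  have h1 : Tendsto (fun z => c j * e j z) atImInfty (𝓝 (c j * 1)) :=
    tendsto_const_nhds.mul (he1 j)
  have h2 : Tendsto (fun z => ModularForm.discriminant z * B j z) atImInfty (𝓝 0) :=
    zero_mul_bdd ModularForm.discriminant_isZeroAtImInfty (lm_bdd (hB j))
  have h3 : (fun z => c j * e j z) = fun z => ModularForm.discriminant z * B j z := by
    funext z
    have := hu j z
    linear_combination this
  rw [h3] at h1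
  have h4 := tendsto_nhds_unique h1 h2
  rw [mul_one] at h4
  exact h4

end struct

/-! ## the sum of the weights -/

theorem bdd_pow {f : ℍ → ℂ} (hf : IsBoundedAtImInfty f) (n : ℕ) :
    IsBoundedAtImInfty (fun z => f z ^ n) := by
  induction n with
  | zero => simpa using bdd_const 1
  | succ n ih =>
    simp only [pow_succ]
    exact bdd_mul ih hf

theorem bdd_of_tendsto {f : ℍ → ℂ} {c : ℂ} (h : Tendsto f atImInfty (𝓝 c)) :
    IsBoundedAtImInfty f := h.isBigO_one ℝ

theorem main (hs : S_SPAN) {N : ℕ} [NeZero N] (hN : N.Prime) {k : XX N → ℤ}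
    {F : XX N → ℍ → XX N → ℂ} (hF : IsBas N k F) : ∑' j, k j ≤ 6 * ((N : ℤ) - 1) := by
  haveI : Fact N.Prime := ⟨hN⟩
  haveI : Finite (XX N) := Nat.finite_of_card_ne_zero (by rw [Sml.card_XX]; omega)
  haveI := Fintype.ofFinite (XX N)
  classical
  obtain ⟨L, L', ε, hL, hε, hsum, hT⟩ := exists_L (N := N)
  have hev : ∀ j, Even (k j) := fun j =>
    ClsP.even_wt (hF.vm j) UpperHalfPlane.I ((ClsP.indep hs hN hF UpperHalfPlane.I).ne_zero j)
  have hD := det_ne hL hε hT hF hev
  set D : ℂ := (Matrix.of fun x j => valueAtInfty (gg L ε (F j) x)).det with hDdef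
  let M : ℍ → Matrix (XX N) (XX N) ℂ := fun z => Matrix.of fun x j => F j z x
  have hW0 : ∀ z, (M z).det ≠ 0 := by
    intro z
    have h1 : LinearIndependent ℂ (M z).col := ClsP.indep hs hN hF z
    rw [Matrix.linearIndependent_cols_iff_isUnit, Matrix.isUnit_iff_isUnit_det] at h1
    exact h1.ne_zero
  have hWh : Hol (fun z => (M z).det) := hol_det fun x j => (hF.vm j).holo x
  have hWm : ∀ (γ : SL(2, ℤ)) (z : ℍ), (M (γ • z)).det ^ 2 =
      (denom γ z) ^ (2 * ∑ j, k j) * (M z).det ^ 2 := by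
    intro γ z
    have h1 : M (γ • z) = Matrix.of fun x j => (denom γ z) ^ (k j) *
        ((M z).submatrix (MulAction.toPerm γ⁻¹ : Equiv.Perm (XX N)) id) x j := by
      ext x j
      exact (hF.vm j).mod γ z x
    rw [h1, Matrix.det_mul_row, Matrix.det_permute]
    have h2 : ((Equiv.Perm.sign (MulAction.toPerm γ⁻¹ : Equiv.Perm (XX N)) : ℤ) : ℂ) ^ 2 = 1 := by
      rw [← Int.cast_pow]
      have h5 : ((Equiv.Perm.sign (MulAction.toPerm γ⁻¹ : Equiv.Perm (XX N)) : ℤˣ) : ℤ) ^ 2 = 1 := by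
        rw [← Units.val_pow_eq_pow_val, Int.units_sq]
        rfl
      rw [h5]
      norm_num
    have h3 : (∏ j, (denom γ z) ^ (k j)) = (denom γ z) ^ (∑ j, k j) := by
      have : ∀ s : Finset (XX N), (∏ j ∈ s, (denom γ z) ^ (k j)) = (denom γ z) ^ (∑ j ∈ s, k j) := by
        intro s
        induction s using Finset.induction_on with
        | empty => simp
        | insert a s ha ih =>
          rw [Finset.prod_insert ha, Finset.sum_insert ha, ih, zpow_add₀ (denom_ne_zero _ _)]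
      exact this _
    rw [h3]
    have h4 : (denom γ z) ^ (2 * ∑ j, k j) = ((denom γ z) ^ (∑ j, k j)) ^ 2 := by
      rw [← zpow_natCast, ← zpow_mul]
      congr 1
      push_cast
      ring
    rw [h4, mul_pow, mul_pow, h2, one_mul]
  have hB : ∀ z : ℍ, (Matrix.of fun x j => gg L ε (F j) x z).det =
      ee (-(((N : ℂ) - 1) / 2) * z) * (L.det * (M z).det) := by
    intro z
    have h1 : (Matrix.of fun x j => gg L ε (F j) x z) =
        Matrix.of fun x j => ee (-(ε x : ℂ) * z) * (L * M z) x j := by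
      ext x j
      rfl
    rw [h1, Matrix.det_mul_column, Matrix.det_mul]
    congr 1
    have h2 : ∀ s : Finset (XX N), (∏ x ∈ s, ee (-(ε x : ℂ) * z)) =
        ee (-((∑ x ∈ s, ε x : ℝ) : ℂ) * z) := by
      intro s
      induction s using Finset.induction_on with
      | empty => simp [ee_zero]
      | insert a s ha ih =>
        rw [Finset.prod_insert ha, Finset.sum_insert ha, ih, ← ee_add]
        congr 1
        push_cast
        ring
    rw [h2, hsum]
    congr 1
    push_cast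
    ring
  have hlim : Tendsto (fun z => (Matrix.of fun x j => gg L ε (F j) x z).det) atImInfty (𝓝 D) := by
    have h1 : Tendsto (fun z => (Matrix.of fun x j => gg L ε (F j) x z)) atImInfty
        (𝓝 (Matrix.of fun x j => valueAtInfty (gg L ε (F j) x))) := by
      refine tendsto_pi_nhds.2 fun x => tendsto_pi_nhds.2 fun j => ?_
      exact tends (gg_per hT (hF.vm j) x) (gg_hol L ε (hF.vm j) x) (gg_bdd hε hT (hF.vm j) x)
    exact (continuous_id.matrix_det.tendsto _).comp h1
  have hLd : L.det ≠ 0 := by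
    intro h0
    have h1 := congrArg Matrix.det hL
    rw [Matrix.det_mul, h0, mul_zero, Matrix.det_one] at h1
    exact zero_ne_one h1
  -- the quotient
  set H : ℍ → ℂ := fun z => ModularForm.discriminant z ^ (N - 1) / (M z).det ^ 2 with hH
  have hN1 : 1 ≤ N := hN.one_le
  have hHb : IsBoundedAtImInfty H := by
    have ha : IsBoundedAtImInfty (fun z : ℍ => (ee z)⁻¹ * ModularForm.discriminant z) := by
      have h := decay0 (lm_per disc_lm) (lm_hol disc_lm) ModularForm.discriminant_isZeroAtImInfty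
      have h1 : (fun z : ℍ => (ee z)⁻¹) =O[atImInfty]
          fun z : ℍ => (Real.exp (-(2 * π * z.im)))⁻¹ := by
        refine IsBigO.of_bound 1 (Eventually.of_forall fun z => ?_)
        rw [norm_inv, norm_ee, one_mul, norm_inv, Real.norm_of_nonneg (Real.exp_pos _).le]
        rfl
      have h2 := h1.mul h
      have h4 : (fun z : ℍ => (Real.exp (-(2 * π * z.im)))⁻¹ * Real.exp (-(2 * π * z.im))) =
          fun _ => (1 : ℝ) := by
        funext z
        exact inv_mul_cancel₀ (Real.exp_pos _).ne'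
      rw [h4] at h2
      exact h2
    have hb : IsBoundedAtImInfty
        (fun z => (((Matrix.of fun x j => gg L ε (F j) x z).det) ^ 2)⁻¹) :=
      bdd_of_tendsto ((hlim.pow 2).inv₀ (pow_ne_zero 2 hD))
    have hc := bdd_mul (bdd_mul (bdd_pow ha (N - 1)) (bdd_const (L.det ^ 2))) hb
    have he : (fun z : ℍ => ((ee z)⁻¹ * ModularForm.discriminant z) ^ (N - 1) * L.det ^ 2 *
        (((Matrix.of fun x j => gg L ε (F j) x z).det) ^ 2)⁻¹) = H := by
      funext z
      rw [hB, hH]
      have h1 : ee (-(((N : ℂ) - 1) / 2) * z) ^ 2 * ee z ^ (N - 1) = 1 := by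
        have h2 : ∀ (n : ℕ) (w : ℂ), ee w ^ n = ee (n * w) := by
          intro n w
          unfold ee
          rw [← Complex.exp_nat_mul]
          congr 1
          ring
        rw [h2, h2, ← ee_add, Nat.cast_sub hN1]
        have h3 : ((2 : ℕ) : ℂ) * (-(((N : ℂ) - 1) / 2) * z) + ((N : ℂ) - (1 : ℕ)) * z = 0 := by
          push_cast
          ring
        rw [h3, ee_zero]
      have h5 := ee_ne (z : ℂ)
      have h6 := ee_ne (-(((N : ℂ) - 1) / 2) * z)
      have h7 := hW0 z
      simp only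
      generalize ee (-(((N : ℂ) - 1) / 2) * z) = u at h1 h6 ⊢
      have h9 : ee (z : ℂ) ^ (N - 1) ≠ 0 := pow_ne_zero _ h5
      have h8 : (u ^ 2)⁻¹ = ee z ^ (N - 1) := by
        rw [inv_eq_iff_eq_inv]
        exact eq_inv_of_mul_eq_one_left h1
      rw [mul_pow (ee (z : ℂ))⁻¹, inv_pow, mul_pow u, mul_pow L.det, mul_inv (u ^ 2), h8]
      field_simp
    rw [he] at hc
    exact hc
  have hLM : LM (12 * ((N : ℤ) - 1) - 2 * ∑ j, k j) H := by
    refine lm_mk _ ?_ (fun γ z => ?_) hHb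
    · exact hol_div (hol_pow (lm_hol disc_lm) _) (hol_pow hWh 2) fun z => pow_ne_zero 2 (hW0 z)
    · simp only [hH]
      rw [hWm, lm_mod disc_lm, mul_pow]
      have h1 : (denom γ z) ^ (12 * ((N : ℤ) - 1) - 2 * ∑ j, k j) =
          ((denom γ z) ^ (12 : ℤ)) ^ (N - 1) / (denom γ z) ^ (2 * ∑ j, k j) := by
        rw [zpow_sub₀ (denom_ne_zero _ _), ← zpow_natCast ((denom γ z) ^ (12 : ℤ)), ← zpow_mul,
          Nat.cast_sub hN1]
        rfl
      rw [h1]
      have h2 : (denom γ z) ^ (2 * ∑ j, k j) ≠ 0 := zpow_ne_zero _ (denom_ne_zero _ _)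
      have h3 := hW0 z
      field_simp
  by_contra hcon
  rw [tsum_fintype] at hcon
  have hneg : 12 * ((N : ℤ) - 1) - 2 * ∑ j, k j < 0 := by omega
  obtain ⟨g, hg⟩ := hLM
  have h1 := hg UpperHalfPlane.I
  rw [ModularFormClass.levelOne_neg_weight_eq_zero hneg g] at h1
  have h2 : H UpperHalfPlane.I ≠ 0 :=
    div_ne_zero (pow_ne_zero _ (ModularForm.discriminant_ne_zero _)) (pow_ne_zero 2 (hW0 _))
  exact h2 h1

end Pool.Agent.K4H13.CV.WtP

namespace Pool.Agent.K4H13.CV

/-- the sum of the weights of a basis of the module of vector valued forms -/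
theorem wt (hs : S_SPAN) : S_WT := fun _ _ hN _ _ _ hF => WtP.main hs hN hF

end Pool.Agent.K4H13.CV
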