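import Pool.Agent.K4H13.CV.Hp0
import Pool.Agent.K4H13.CV.Wt

/-!
# Project CV: many newforms have sign `+1`
-/

set_option autoImplicit false
set_option linter.unusedSectionVars false

open Complex Filter Topology Set UpperHalfPlane MatrixGroups CongruenceSubgroup Asymptotics
open scoped Manifold ModularForm Real

namespace Pool.Agent.K4H13.CV.HpP

open Pool.Agent.K4H13.CV WtP

/-! ## growth at infinity -/

theorem Bd_iff (a : ℤ) (F : ℍ → ℂ) : Bd a F ↔ IsBoundedAtImInfty (fun z : ℍ => ee ((a : ℂ) * z) * F z) :=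
  Iff.rfl

theorem norm_ee_int (a : ℤ) (z : ℍ) : ‖ee ((a : ℂ) * z)‖ = Real.exp (-(2 * π * (a * z.im))) := by
  rw [norm_ee]
  congr 2
  rw [show ((a : ℤ) : ℂ) = ((a : ℝ) : ℂ) by push_cast; rfl, Complex.im_ofReal_mul]
  rfl

theorem ee_int (a : ℤ) : ee (a : ℂ) = 1 := by
  unfold ee
  rw [mul_comm]
  exact Complex.exp_int_mul_two_pi_mul_I a

theorem Bd_mono {a b : ℤ} (hab : a ≤ b) {F : ℍ → ℂ} (h : Bd a F) : Bd b F := by
  rw [Bd_iff] at *
  have h1 : IsBoundedAtImInfty (fun z : ℍ => ee (((b - a : ℤ) : ℂ) * z)) := by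
    refine IsBigO.of_bound 1 (Eventually.of_forall fun z => ?_)
    rw [norm_ee_int, Pi.one_apply, norm_one, mul_one, Real.exp_le_one_iff]
    have h2 : (0 : ℝ) ≤ ((b - a : ℤ) : ℝ) := by exact_mod_cast sub_nonneg.2 hab
    have := z.im_pos
    have : 0 ≤ 2 * π * (((b - a : ℤ) : ℝ) * z.im) := by positivity
    linarith
  have h2 := bdd_mul h1 h
  refine h2.congr_left fun z => ?_
  rw [← mul_assoc, ← ee_add]
  congr 2
  push_cast
  ring

theorem Bd_add {a : ℤ} {F G : ℍ → ℂ} (hF : Bd a F) (hG : Bd a G) : Bd a (F + G) := by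
  rw [Bd_iff] at *
  refine (bdd_add hF hG).congr_left fun z => ?_
  rw [Pi.add_apply, mul_add]

theorem Bd_smul {a : ℤ} (c : ℂ) {F : ℍ → ℂ} (hF : Bd a F) : Bd a (c • F) := by
  rw [Bd_iff] at *
  refine (bdd_mul (bdd_const c) hF).congr_left fun z => ?_
  rw [Pi.smul_apply, smul_eq_mul]
  ring

theorem Bd_zero (a : ℤ) : Bd a (0 : ℍ → ℂ) := by
  rw [Bd_iff]
  simpa using bdd_const 0

theorem Bd_mul {a b : ℤ} {F G : ℍ → ℂ} (hF : Bd a F) (hG : Bd b G) :
    Bd (a + b) (fun z => F z * G z) := by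
  rw [Bd_iff] at *
  refine (bdd_mul hF hG).congr_left fun z => ?_
  push_cast
  rw [add_mul, ee_add]
  ring

theorem per_ee {a : ℤ} {F : ℍ → ℂ} (hF : Per F) : Per (fun z : ℍ => ee ((a : ℂ) * z) * F z) := by
  intro z
  simp only
  rw [hF z, coe_vadd, mul_add, ee_add]
  congr 1
  have : ee ((a : ℂ) * ((1 : ℝ) : ℂ)) = 1 := by
    rw [Complex.ofReal_one, mul_one, ee_int]
  rw [this, one_mul]

theorem hol_ee' {a : ℤ} {F : ℍ → ℂ} (hF : Hol F) : Hol (fun z : ℍ => ee ((a : ℂ) * z) * F z) :=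
  hol_mul (hol_ee _) hF

/-- the leading coefficient -/
noncomputable def val (a : ℤ) (F : ℍ → ℂ) : ℂ := valueAtInfty (fun z : ℍ => ee ((a : ℂ) * z) * F z)

theorem val_tendsto {a : ℤ} {F : ℍ → ℂ} (h1 : Per F) (h2 : Hol F) (h3 : Bd a F) :
    Tendsto (fun z : ℍ => ee ((a : ℂ) * z) * F z) atImInfty (𝓝 (val a F)) :=
  tends (per_ee h1) (hol_ee' h2) h3

theorem Bd_of_val {a : ℤ} {F : ℍ → ℂ} (h1 : Per F) (h2 : Hol F) (h3 : Bd a F) (h0 : val a F = 0) :
    Bd (a - 1) F := by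
  have h4 := val_tendsto h1 h2 h3
  rw [h0] at h4
  have h5 := decay0 (per_ee h1) (hol_ee' h2) h4
  have h6 : (fun z : ℍ => (ee z)⁻¹) =O[atImInfty] fun z : ℍ => (Real.exp (-(2 * π * z.im)))⁻¹ := by
    refine IsBigO.of_bound 1 (Eventually.of_forall fun z => ?_)
    rw [norm_inv, norm_ee, one_mul, norm_inv, Real.norm_of_nonneg (Real.exp_pos _).le]
    rfl
  have h7 := h6.mul h5
  have h8 : (fun z : ℍ => (Real.exp (-(2 * π * z.im)))⁻¹ * Real.exp (-(2 * π * z.im))) =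
      fun _ => (1 : ℝ) := by
    funext z
    exact inv_mul_cancel₀ (Real.exp_pos _).ne'
  rw [h8] at h7
  rw [Bd_iff]
  refine IsBigO.congr_left h7 fun z => ?_
  have h9 : ee (((a - 1 : ℤ) : ℂ) * z) = (ee z)⁻¹ * ee ((a : ℂ) * z) := by
    rw [eq_inv_mul_iff_mul_eq₀ (ee_ne _), ← ee_add]
    congr 1
    push_cast
    ring
  rw [h9, mul_assoc]

theorem val_add {a : ℤ} {F G : ℍ → ℂ} (h1 : Per F) (h2 : Hol F) (h3 : Bd a F) (k1 : Per G)
    (k2 : Hol G) (k3 : Bd a G) : val a (F + G) = val a F + val a G := by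
  have h := (val_tendsto h1 h2 h3).add (val_tendsto k1 k2 k3)
  refine Tendsto.limUnder_eq (h.congr fun z => ?_)
  rw [Pi.add_apply, mul_add]

theorem val_smul {a : ℤ} (c : ℂ) {F : ℍ → ℂ} (h1 : Per F) (h2 : Hol F) (h3 : Bd a F) :
    val a (c • F) = c * val a F := by
  have h := (val_tendsto h1 h2 h3).const_mul c
  refine Tendsto.limUnder_eq (h.congr fun z => ?_)
  rw [Pi.smul_apply, smul_eq_mul]
  ring

theorem val_zero_of_Bd {a : ℤ} {F : ℍ → ℂ} (h3 : Bd (a - 1) F) : val a F = 0 := by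
  refine Tendsto.limUnder_eq ?_
  have h1 : Tendsto (fun z : ℍ => ee z) atImInfty (𝓝 0) := by
    rw [tendsto_zero_iff_norm_tendsto_zero]
    refine (exp_tendsto (2 * π) (by positivity)).congr fun z => ?_
    rw [norm_ee]
    rfl
  have h2 := zero_mul_bdd h1 ((Bd_iff _ _).1 h3)
  refine h2.congr fun z => ?_
  rw [← mul_assoc, ← ee_add]
  congr 2
  push_cast
  ring

/-- cutting -/
theorem cut {E : Type} [AddCommGroup E] [Module ℂ E] (T : E →ₗ[ℂ] (ℍ → ℂ)) (V V' : Submodule ℂ E)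
    (a : ℤ) (h1 : ∀ v ∈ V, Per (T v)) (h2 : ∀ v ∈ V, Hol (T v)) (h3 : ∀ v ∈ V, Bd a (T v))
    (h4 : ∀ v ∈ V, Bd (a - 1) (T v) → v ∈ V') (hV : FiniteDimensional ℂ V') :
    FiniteDimensional ℂ V ∧ Module.finrank ℂ V ≤ Module.finrank ℂ V' + 1 := by
  let φ : V →ₗ[ℂ] ℂ :=
    { toFun := fun v => val a (T v)
      map_add' := fun v w => by
        rw [Submodule.coe_add, map_add]
        exact val_add (h1 _ v.2) (h2 _ v.2) (h3 _ v.2) (h1 _ w.2) (h2 _ w.2) (h3 _ w.2)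
      map_smul' := fun c v => by
        rw [Submodule.coe_smul, map_smul]
        exact val_smul c (h1 _ v.2) (h2 _ v.2) (h3 _ v.2) }
  have hk : ∀ v : LinearMap.ker φ, (v : E) ∈ V' := fun v =>
    h4 _ v.1.2 (Bd_of_val (h1 _ v.1.2) (h2 _ v.1.2) (h3 _ v.1.2) (LinearMap.mem_ker.1 v.2))
  let ι : LinearMap.ker φ →ₗ[ℂ] V' :=
    { toFun := fun v => ⟨v, hk v⟩
      map_add' := fun _ _ => rfl
      map_smul' := fun _ _ => rfl }
  have hι : Function.Injective ι := fun v w h => by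
    apply Subtype.ext
    apply Subtype.ext
    exact congrArg (fun x : V' => (x : E)) h
  have hfk : FiniteDimensional ℂ (LinearMap.ker φ) := FiniteDimensional.of_injective ι hι
  have hfq : FiniteDimensional ℂ (V ⧸ LinearMap.ker φ) :=
    FiniteDimensional.of_injective _ (LinearMap.ker_eq_bot.1 (Submodule.ker_liftQ_eq_bot _ φ le_rfl le_rfl))
  have hfV : FiniteDimensional ℂ V := Module.Finite.of_submodule_quotient (LinearMap.ker φ)
  refine ⟨hfV, ?_⟩
  have h5 := LinearMap.finrank_range_add_finrank_ker φ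
  have h6 : Module.finrank ℂ (LinearMap.range φ) ≤ 1 := by
    have := Submodule.finrank_le (LinearMap.range φ)
    rwa [Module.finrank_self] at this
  have h7 := LinearMap.finrank_le_finrank_of_injective hι
  omega

end Pool.Agent.K4H13.CV.HpP
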