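import Pool.Agent.K4H13.CV.HpA

/-!
# Project CV: the spaces `LX N a b`, forms which vanish to infinite order, products
-/

set_option autoImplicit false
set_option linter.unusedSectionVars false

open Complex Filter Topology Set UpperHalfPlane MatrixGroups CongruenceSubgroup Asymptotics
open scoped Manifold ModularForm Real

namespace Pool.Agent.K4H13.CV.HpP

open Pool.Agent.K4H13.CV WtP

variable {N : ℕ} [NeZero N]

/-! ## the Fricke involution -/

theorem WW_WW (z : ℍ) : WW N (WW N z) = z := by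
  have hNc : (N : ℂ) ≠ 0 := Nat.cast_ne_zero.2 (NeZero.ne N)
  have hz : (z : ℂ) ≠ 0 := ne_zero z
  apply UpperHalfPlane.ext
  rw [WW_coe, WW_coe]
  field_simp

theorem cnd_ne (g : SL(2, ℤ)) (z : ℍ) : ((g 1 0 : ℤ) : ℂ) * z + ((g 1 1 : ℤ) : ℂ) ≠ 0 := by
  have h := denom_ne_zero (g : GL (Fin 2) ℝ) z
  rwa [ModularGroup.denom_apply] at h

theorem sl_coe (g : SL(2, ℤ)) (z : ℍ) : ((g • z : ℍ) : ℂ) =
    (((g 0 0 : ℤ) : ℂ) * z + ((g 0 1 : ℤ) : ℂ)) / (((g 1 0 : ℤ) : ℂ) * z + ((g 1 1 : ℤ) : ℂ)) := by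
  rw [coe_specialLinearGroup_apply]
  simp

theorem WW_smul (γ : SL(2, ℤ)) (hγ : γ ∈ Gamma0 N) :
    ∃ γ' ∈ Gamma0 N, ∀ z : ℍ, WW N (γ • z) = γ' • WW N z := by
  have hNc : (N : ℂ) ≠ 0 := Nat.cast_ne_zero.2 (NeZero.ne N)
  rw [Gamma0_mem, ZMod.intCast_zmod_eq_zero_iff_dvd] at hγ
  obtain ⟨c, hc⟩ := hγ
  have hdet : γ 0 0 * γ 1 1 - γ 0 1 * γ 1 0 = 1 := by
    have := γ.det_coe
    rwa [Matrix.det_fin_two] at this
  obtain ⟨γ', e00, e01, e10, e11⟩ : ∃ γ' : SL(2, ℤ), γ' 0 0 = γ 1 1 ∧ γ' 0 1 = -c ∧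
      γ' 1 0 = -(N * γ 0 1) ∧ γ' 1 1 = γ 0 0 := by
    refine ⟨⟨!![γ 1 1, -c; -(N * γ 0 1), γ 0 0], ?_⟩, rfl, rfl, rfl, rfl⟩
    rw [Matrix.det_fin_two]
    simp only [Matrix.of_apply, Matrix.cons_val', Matrix.cons_val_zero, Matrix.cons_val_one,
      Matrix.cons_val_fin_one]
    rw [hc] at hdet
    linarith
  refine ⟨γ', ?_, fun z => ?_⟩
  · rw [Gamma0_mem, e10]
    simp
  · have hz : (z : ℂ) ≠ 0 := ne_zero z
    apply UpperHalfPlane.ext
    rw [WW_coe, sl_coe, sl_coe, WW_coe, e00, e01, e10, e11]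
    have h1 := cnd_ne γ z
    have h0 : ((γ 0 0 : ℤ) : ℂ) * z + ((γ 0 1 : ℤ) : ℂ) ≠ 0 := by
      have h2 := ne_zero (γ • z)
      rw [sl_coe] at h2
      exact (div_ne_zero_iff.1 h2).1
    have hc' : ((γ 1 0 : ℤ) : ℂ) = N * c := by rw [hc]; push_cast; ring
    rw [hc'] at h1 ⊢
    push_cast
    have h3 : -((N : ℂ) * ((γ 0 1 : ℤ) : ℂ)) * (-1 / ((N : ℂ) * z)) + ((γ 0 0 : ℤ) : ℂ) =
        (((γ 0 0 : ℤ) : ℂ) * z + ((γ 0 1 : ℤ) : ℂ)) / z := by
      field_simp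
      ring
    have h4 : ((γ 1 1 : ℤ) : ℂ) * (-1 / ((N : ℂ) * z)) + -(c : ℂ) =
        -((N : ℂ) * c * z + ((γ 1 1 : ℤ) : ℂ)) / (N * z) := by
      field_simp
      ring
    rw [h3, h4]
    field_simp

theorem hol_W {F : ℍ → ℂ} (h : Hol F) : Hol (fun z => F (WW N z)) := by
  have hNc : (N : ℂ) ≠ 0 := Nat.cast_ne_zero.2 (NeZero.ne N)
  rw [Hol, UpperHalfPlane.mdifferentiable_iff] at *
  have h1 : DifferentiableOn ℂ (fun w : ℂ => -1 / ((N : ℂ) * w)) {z | 0 < z.im} := by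
    intro w hw
    have hw0 : w ≠ 0 := by
      rintro rfl
      simp at hw
    exact ((differentiableAt_const _).div ((differentiableAt_const _).mul differentiableAt_id)
      (mul_ne_zero hNc hw0)).differentiableWithinAt
  have h2 : MapsTo (fun w : ℂ => -1 / ((N : ℂ) * w)) {z | 0 < z.im} {z | 0 < z.im} := by
    intro w hw
    exact (WW N ⟨w, hw⟩).im_pos
  refine (h.comp h1 h2).congr fun w hw => ?_
  have hw' : 0 < (-1 / ((N : ℂ) * w)).im := (WW N ⟨w, hw⟩).im_pos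
  simp only [Function.comp_apply]
  rw [ofComplex_apply_of_im_pos hw', ofComplex_apply_of_im_pos hw]
  congr 1

/-! ## the spaces `LX` -/

theorem T_mem : ModularGroup.T ∈ Gamma0 N := by
  rw [Gamma0_mem]
  simp [ModularGroup.T]

theorem per_of_inv {F : ℍ → ℂ} (h : ∀ γ : SL(2, ℤ), γ ∈ Gamma0 N → ∀ z : ℍ, F (γ • z) = F z) :
    Per F := by
  intro z
  rw [← modular_T_smul]
  exact h _ T_mem z

theorem inv_W {F : ℍ → ℂ} (h : ∀ γ : SL(2, ℤ), γ ∈ Gamma0 N → ∀ z : ℍ, F (γ • z) = F z) :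
    ∀ γ : SL(2, ℤ), γ ∈ Gamma0 N → ∀ z : ℍ, F (WW N (γ • z)) = F (WW N z) := by
  intro γ hγ z
  obtain ⟨γ', h1, h2⟩ := WW_smul γ hγ
  rw [h2, h γ' h1]

theorem LX_per {a b : ℤ} {F : ℍ → ℂ} (h : LX N a b F) : Per F := per_of_inv h.inv

theorem LX_per' {a b : ℤ} {F : ℍ → ℂ} (h : LX N a b F) : Per (fun z => F (WW N z)) :=
  per_of_inv (N := N) (inv_W h.inv)

theorem LX_hol {a b : ℤ} {F : ℍ → ℂ} (h : LX N a b F) : Hol F := h.holo

theorem LX_hol' {a b : ℤ} {F : ℍ → ℂ} (h : LX N a b F) : Hol (fun z => F (WW N z)) := hol_W h.holo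

theorem LX_W {a b : ℤ} {F : ℍ → ℂ} (h : LX N a b F) : LX N b a (fun z => F (WW N z)) where
  holo := LX_hol' h
  inv := inv_W h.inv
  inf := h.zero
  zero := by
    simp only [WW_WW]
    exact h.inf

theorem LX_add {a b : ℤ} {F G : ℍ → ℂ} (hF : LX N a b F) (hG : LX N a b G) :
    LX N a b (F + G) where
  holo := hF.holo.add hG.holo
  inv γ hγ z := by rw [Pi.add_apply, Pi.add_apply, hF.inv γ hγ, hG.inv γ hγ]
  inf := Bd_add hF.inf hG.inf
  zero := Bd_add hF.zero hG.zero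

theorem LX_smul {a b : ℤ} {F : ℍ → ℂ} (c : ℂ) (hF : LX N a b F) : LX N a b (c • F) where
  holo := hol_mul (hol_const c) hF.holo
  inv γ hγ z := by rw [Pi.smul_apply, Pi.smul_apply, hF.inv γ hγ]
  inf := Bd_smul c hF.inf
  zero := Bd_smul c hF.zero

theorem LX_zero (a b : ℤ) : LX N a b (0 : ℍ → ℂ) where
  holo := hol_const 0
  inv _ _ _ := rfl
  inf := Bd_zero a
  zero := Bd_zero b

theorem LX_mul {a b a' b' : ℤ} {F G : ℍ → ℂ} (hF : LX N a b F) (hG : LX N a' b' G) :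
    LX N (a + a') (b + b') (F * G) where
  holo := hol_mul hF.holo hG.holo
  inv γ hγ z := by rw [Pi.mul_apply, Pi.mul_apply, hF.inv γ hγ, hG.inv γ hγ]
  inf := Bd_mul hF.inf hG.inf
  zero := Bd_mul hF.zero hG.zero

theorem LX_mono {a b a' b' : ℤ} (ha : a ≤ a') (hb : b ≤ b') {F : ℍ → ℂ} (hF : LX N a b F) :
    LX N a' b' F where
  holo := hF.holo
  inv := hF.inv
  inf := Bd_mono ha hF.inf
  zero := Bd_mono hb hF.zero

/-! ## zeros of infinite order -/

theorem tends_zero_of_Bd {a : ℤ} {F : ℍ → ℂ} (h3 : Bd (a - 1) F) :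
    Tendsto (fun z : ℍ => ee ((a : ℂ) * z) * F z) atImInfty (𝓝 0) := by
  have h1 : Tendsto (fun z : ℍ => ee z) atImInfty (𝓝 0) := by
    rw [tendsto_zero_iff_norm_tendsto_zero]
    refine (exp_tendsto (2 * π) (by positivity)).congr fun z => ?_
    rw [norm_ee]
    rfl
  have h2 := zero_mul_bdd h1 ((Bd_iff _ _).1 h3)
  refine h2.congr fun z => ?_
  rw [← mul_assoc, ← ee_add]
  congr 2
  push_cast
  ring

theorem qParam_ee (z : ℍ) : Function.Periodic.qParam 1 (z : ℂ) = ee z := by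
  unfold Function.Periodic.qParam ee
  congr 1
  push_cast
  ring

theorem zero_of_Bd {f : ℍ → ℂ} (h1 : Per f) (h2 : Hol f) (h3 : ∀ n : ℕ, Bd (-(n : ℤ)) f) :
    f = 0 := by
  have hb : IsBoundedAtImInfty f := by
    have := (Bd_iff _ _).1 (h3 0)
    simpa [ee_zero] using this
  have hper := per_ofComplex h1
  have han := UpperHalfPlane.analyticAt_cuspFunction_zero one_pos hper h2 hb
  by_cases hz : ∀ᶠ q in 𝓝 (0 : ℂ), cuspFunction 1 f q = 0
  · rw [← UpperHalfPlane.qExpansion_eq_zero_iff one_pos hper h2 hb]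
    ext m
    have he : cuspFunction 1 f =ᶠ[𝓝 0] fun _ => (0 : ℂ) := hz
    rw [UpperHalfPlane.qExpansion_coeff, he.iteratedDeriv_eq]
    simp
  · exfalso
    obtain ⟨n, g, hg, hg0, hfg⟩ := (han.exists_eventuallyEq_pow_smul_nonzero_iff).2 hz
    have h4 : Tendsto (fun τ : ℍ => Function.Periodic.qParam 1 (τ : ℂ)) atImInfty (𝓝 0) :=
      qParam_tendsto_atImInfty one_pos
    have h5 : ∀ᶠ τ : ℍ in atImInfty, ee (((-(n : ℤ) : ℤ) : ℂ) * τ) * f τ =
        g (Function.Periodic.qParam 1 (τ : ℂ)) := by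
      filter_upwards [h4.eventually hfg] with τ hτ
      rw [UpperHalfPlane.eq_cuspFunction τ one_ne_zero hper] at hτ
      rw [hτ, qParam_ee, sub_zero, smul_eq_mul, ← mul_assoc]
      have h6 : ee (((-(n : ℤ) : ℤ) : ℂ) * τ) * ee τ ^ n = 1 := by
        have h7 : ee (τ : ℂ) ^ n = ee ((n : ℂ) * τ) := by
          unfold ee
          rw [← Complex.exp_nat_mul]
          congr 1
          ring
        rw [h7, ← ee_add, ← ee_zero]
        congr 1
        push_cast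
        ring
      rw [h6, one_mul]
    have h6 : Tendsto (fun τ : ℍ => ee (((-(n : ℤ) : ℤ) : ℂ) * τ) * f τ) atImInfty (𝓝 (g 0)) := by
      refine Tendsto.congr' ?_ (hg.continuousAt.tendsto.comp h4)
      filter_upwards [h5] with τ hτ
      rw [hτ]
      rfl
    have h7 : Tendsto (fun τ : ℍ => ee (((-(n : ℤ) : ℤ) : ℂ) * τ) * f τ) atImInfty (𝓝 0) := by
      apply tends_zero_of_Bd
      have := h3 (n + 1)
      have e : (-((n + 1 : ℕ) : ℤ)) = -(n : ℤ) - 1 := by push_cast; ring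
      rwa [e] at this
    exact hg0 (tendsto_nhds_unique h6 h7)

/-! ## cusp forms -/

theorem per_cusp (f : W388.LV.SF N 2) : Per f := by
  intro z
  have h := SlashInvariantForm.slash_action_eqn_SL'' f (T_mem (N := N)) z
  rw [modular_T_smul] at h
  rw [h]
  have h2 : denom ((ModularGroup.T : SL(2, ℤ)) : GL (Fin 2) ℝ) z = 1 := by
    rw [ModularGroup.denom_apply]
    simp [ModularGroup.T]
  rw [h2, one_zpow, one_mul]

theorem hol_cusp (f : W388.LV.SF N 2) : Hol f := f.holo'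

theorem Bd_cusp (f : W388.LV.SF N 2) : Bd (-1) f := by
  have h1 : (1 : ℝ) ∈ (Gamma0 N : Subgroup (GL (Fin 2) ℝ)).strictPeriods := by
    rw [strictPeriods_Gamma0]
    exact AddSubgroup.mem_zmultiples 1
  have h := CuspFormClass.exp_decay_atImInfty f one_pos h1
  rw [Bd_iff]
  have h6 : (fun z : ℍ => ee (((-1 : ℤ) : ℂ) * z)) =O[atImInfty]
      fun z : ℍ => (Real.exp (-2 * π * z.im / 1))⁻¹ := by
    refine IsBigO.of_bound 1 (Eventually.of_forall fun z => ?_)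
    rw [norm_ee_int, one_mul, norm_inv, Real.norm_of_nonneg (Real.exp_pos _).le, ← Real.exp_neg]
    apply le_of_eq
    congr 1
    push_cast
    ring
  have h7 := h6.mul h
  have h8 : (fun z : ℍ => (Real.exp (-2 * π * z.im / 1))⁻¹ * Real.exp (-2 * π * z.im / 1)) =
      fun _ => (1 : ℝ) := by
    funext z
    exact inv_mul_cancel₀ (Real.exp_pos _).ne'
  rw [h8] at h7
  exact h7

theorem ZERO (f : W388.LV.SF N 2) (h : ∀ n : ℕ, Bd (-(n : ℤ)) f) : f = 0 := by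
  have := zero_of_Bd (per_cusp f) (hol_cusp f) h
  exact DFunLike.coe_injective this

theorem eps_W {f : W388.LV.SF N 2} (h : W388.IsNewf N 2 f (-1)) (z : ℍ) :
    f (WW N z) = (N : ℂ) * (z : ℂ) ^ 2 * f z := by
  have hNc : (N : ℂ) ≠ 0 := Nat.cast_ne_zero.2 (NeZero.ne N)
  have hz : (z : ℂ) ≠ 0 := ne_zero z
  have h1 : ((WW N z : ℍ) : ℂ) * ((N : ℂ) * (z : ℂ)) = -1 := by
    rw [WW_coe]
    field_simp
  rw [h.fricke z (WW N z) h1]
  have h2 : ((Real.sqrt N : ℝ) : ℂ) ^ 2 = N := by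
    rw [← Complex.ofReal_pow, Real.sq_sqrt (Nat.cast_nonneg N)]
    simp
  have h3 : (((Real.sqrt N : ℝ) : ℂ) * (z : ℂ) / Complex.I) ^ (2 : ℤ) = -((N : ℂ) * (z : ℂ) ^ 2) := by
    have : (((Real.sqrt N : ℝ) : ℂ) * (z : ℂ) / Complex.I) ^ (2 : ℤ) =
        (((Real.sqrt N : ℝ) : ℂ) * (z : ℂ) / Complex.I) ^ 2 := by norm_cast
    rw [this, div_pow, mul_pow, h2, Complex.I_sq]
    ring
  rw [h3]
  push_cast
  ring

theorem eps_W_span {P : Finset (W388.LV.SF N 2)} (hP : ∀ f ∈ P, W388.IsNewf N 2 f (-1))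
    {f : W388.LV.SF N 2} (hf : f ∈ Submodule.span ℂ (P : Set (W388.LV.SF N 2))) (z : ℍ) :
    f (WW N z) = (N : ℂ) * (z : ℂ) ^ 2 * f z := by
  induction hf using Submodule.span_induction with
  | mem f hf => exact eps_W (hP f hf) z
  | zero => simp
  | add f g _ _ h1 h2 =>
    rw [add_apply, add_apply, h1, h2]
    ring
  | smul c f _ h1 =>
    rw [smul_apply, smul_apply, h1]
    simp only [smul_eq_mul]
    ring

/-! ## products -/

theorem MULZ {F G : ℍ → ℂ} (hF : Hol F) (hG : Hol G) (h : F * G = 0) : F = 0 ∨ G = 0 := by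
  rw [Hol, UpperHalfPlane.mdifferentiable_iff] at hF hG
  have ho : IsOpen {z : ℂ | 0 < z.im} := isOpen_lt continuous_const Complex.continuous_im
  have hc : IsPreconnected {z : ℂ | 0 < z.im} :=
    (convex_halfSpace_im_gt 0).isPreconnected
  have h1 : ∀ z ∈ {z : ℂ | 0 < z.im}, (F ∘ ofComplex) z * (G ∘ ofComplex) z = 0 := fun z _ =>
    congrFun h (ofComplex z)
  rcases AnalyticOnNhd.eq_zero_or_eq_zero_of_mul_eq_zero (hF.analyticOnNhd ho)
    (hG.analyticOnNhd ho) h1 hc with h2 | h2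
  · left
    funext z
    have := h2 z z.im_pos
    simpa using this
  · right
    funext z
    have := h2 z z.im_pos
    simpa using this

end Pool.Agent.K4H13.CV.HpP
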