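import Pool.Agent.K4H13.CV.Stm2

/-!
# Vector valued forms: operations, and the vector of a form for `Γ₀(N)`
-/

set_option autoImplicit false

open Complex Filter Topology Set UpperHalfPlane MatrixGroups CongruenceSubgroup
open Matrix.SpecialLinearGroup
open scoped Manifold ModularForm

namespace Pool.Agent.K4H13.CV

variable {N : ℕ}

/-! ### operations -/

theorem bdd_add {f g : ℍ → ℂ} (hf : IsBoundedAtImInfty f) (hg : IsBoundedAtImInfty g) :
    IsBoundedAtImInfty (fun z => f z + g z) := BoundedAtFilter.add hf hg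

theorem bdd_mul {f g : ℍ → ℂ} (hf : IsBoundedAtImInfty f) (hg : IsBoundedAtImInfty g) :
    IsBoundedAtImInfty (fun z => f z * g z) := BoundedAtFilter.mul hf hg

theorem bdd_const (c : ℂ) : IsBoundedAtImInfty (fun _ : ℍ => c) := const_boundedAtFilter _ c

theorem VM.add {k : ℤ} {F G : ℍ → XX N → ℂ} (hF : VM N k F) (hG : VM N k G) :
    VM N k (fun z x => F z x + G z x) where
  holo x := (hF.holo x).add (hG.holo x)
  mod γ z x := by rw [hF.mod, hG.mod, mul_add]
  bdd x := bdd_add (hF.bdd x) (hG.bdd x)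

theorem VM.mul {k l : ℤ} {F G : ℍ → XX N → ℂ} (hF : VM N k F) (hG : VM N l G) :
    VM N (k + l) (fun z x => F z x * G z x) where
  holo x := (hF.holo x).mul (hG.holo x)
  mod γ z x := by
    rw [hF.mod, hG.mod, zpow_add₀ (denom_ne_zero γ z)]
    ring
  bdd x := bdd_mul (hF.bdd x) (hG.bdd x)

theorem VM.smul {k : ℤ} {F : ℍ → XX N → ℂ} (hF : VM N k F) (c : ℂ) :
    VM N k (fun z x => c * F z x) where
  holo x := mdifferentiable_const.mul (hF.holo x)
  mod γ z x := by
    rw [hF.mod]
    ring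
  bdd x := bdd_mul (bdd_const c) (hF.bdd x)

theorem VM.zero (k : ℤ) : VM N k (fun _ _ => 0) where
  holo _ := mdifferentiable_const
  mod γ z x := by simp
  bdd _ := bdd_const 0

theorem VM.const (c : ℂ) : VM N 0 (fun _ _ => c) where
  holo _ := mdifferentiable_const
  mod γ z x := by simp
  bdd _ := bdd_const c

theorem VM.neg {k : ℤ} {F : ℍ → XX N → ℂ} (hF : VM N k F) : VM N k (fun z x => -F z x) := by
  have := hF.smul (-1)
  simpa using this

theorem VM.sub {k : ℤ} {F G : ℍ → XX N → ℂ} (hF : VM N k F) (hG : VM N k G) :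
    VM N k (fun z x => F z x - G z x) := by
  have := hF.add hG.neg
  simpa [sub_eq_add_neg] using this

theorem VM.sum {k : ℤ} {ι : Type*} (s : Finset ι) (F : ι → ℍ → XX N → ℂ)
    (hF : ∀ i ∈ s, VM N k (F i)) : VM N k (fun z x => ∑ i ∈ s, F i z x) := by
  classical
  induction s using Finset.induction_on with
  | empty => simpa using VM.zero k
  | insert a s ha ih =>
    have := (hF a (Finset.mem_insert_self a s)).add
      (ih fun i hi => hF i (Finset.mem_insert_of_mem hi))
    simpa [Finset.sum_insert ha] using this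

/-- level one forms times vector valued forms -/
theorem LM.mul_vm {k l : ℤ} {A : ℍ → ℂ} {F : ℍ → XX N → ℂ} (hA : LM k A) (hF : VM N l F) :
    VM N (k + l) (fun z x => A z * F z x) := by
  obtain ⟨g, hg⟩ := hA
  have hA' : VM N k (fun z _ => A z) := by
    refine ⟨fun x => ?_, fun γ z x => ?_, fun x => ?_⟩
    · have : (fun z => A z) = (g : ℍ → ℂ) := funext hg
      rw [this]
      exact ModularFormClass.holo g
    · rw [hg, hg]
      have h := congrFun (g.slash_action_eq' (mapGL ℝ γ) ⟨γ, rfl⟩) z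
      have h' : ((g : ℍ → ℂ) ∣[k] γ) z = g z := h
      rw [ModularForm.SL_slash_apply, zpow_neg] at h'
      have hd := zpow_ne_zero k (denom_ne_zero γ z)
      field_simp at h'
      rw [h']
    · have : (fun z => A z) = (g : ℍ → ℂ) := funext hg
      rw [this]
      exact ModularFormClass.bdd_at_infty g
  exact hA'.mul hF

/-! ### the vector of a form for `Γ₀(N)` -/

theorem gx_mem (x : XX N) : (QuotientGroup.mk (gx x)⁻¹ : XX N) = x := by
  rw [gx, inv_inv]
  exact Quotient.out_eq x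

/-- the representative of `γ⁻¹ x` -/
theorem gx_smul (γ : SL(2, ℤ)) (x : XX N) :
    ∃ h ∈ Gamma0 N, gx (γ⁻¹ • x) = h * (gx x * γ) := by
  have h2 : (QuotientGroup.mk (gx (γ⁻¹ • x))⁻¹ : XX N) = QuotientGroup.mk (gx x * γ)⁻¹ := by
    rw [gx_mem, mul_inv_rev]
    conv_lhs => rw [← gx_mem x]
    rfl
  rw [QuotientGroup.eq, inv_inv] at h2
  exact ⟨_, h2, by group⟩

/-- the vector of the translates of `f` -/
noncomputable def vec (N : ℕ) (k : ℤ) (f : ℍ → ℂ) (z : ℍ) (x : XX N) : ℂ := (f ∣[k] gx x) z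

theorem vm_of_slash {k : ℤ} (f : ℍ → ℂ) (hf : MDifferentiable 𝓘(ℂ) 𝓘(ℂ) f)
    (hm : ∀ h ∈ Gamma0 N, f ∣[k] h = f) (hb : ∀ g : SL(2, ℤ), IsBoundedAtImInfty (f ∣[k] g)) :
    VM N k (vec N k f) where
  holo x := by
    have := hf.slash k (mapGL ℝ (gx x))
    exact this
  mod γ z x := by
    obtain ⟨h, hh, he⟩ := gx_smul γ x
    have h1 : vec N k f z (γ⁻¹ • x) = ((f ∣[k] gx x) ∣[k] γ) z := by
      rw [vec, he, SlashAction.slash_mul, SlashAction.slash_mul, hm h hh]
    rw [h1, ModularForm.SL_slash_apply, zpow_neg, vec]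
    have hd := zpow_ne_zero k (denom_ne_zero γ z)
    field_simp
  bdd x := hb (gx x)

theorem vm_vec [NeZero N] {k : ℤ} (f : ModularForm (Gamma0 N) k) : VM N k (vec N k f) := by
  refine vm_of_slash f (ModularFormClass.holo f) (fun h hh => ?_) fun g => ?_
  · exact f.slash_action_eq' (mapGL ℝ h) ⟨h, hh, rfl⟩
  · exact ModularFormClass.bdd_at_infty_slash f g

end Pool.Agent.K4H13.CV
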