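import Pool.Agent.K4H13.CV.Hp0
import Pool.Agent.K4H13.CV.Vec
import Pool.Agent.K4H13.CV.Sml
import Pool.Agent.K4H13.CV.FreC

/-!
# S_HPC : functions on `X₀(N)` without poles are constant
-/

set_option autoImplicit false

open Complex Filter Topology Set UpperHalfPlane MatrixGroups CongruenceSubgroup
open scoped Manifold ModularForm

namespace Pool.Agent.K4H13.CV

namespace HpcP

theorem slash0 (F : ℍ → ℂ) (g : SL(2, ℤ)) (z : ℍ) : (F ∣[(0 : ℤ)] g) z = F (g • z) := by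
  rw [ModularForm.SL_slash_apply]
  simp

theorem bd0 {F : ℍ → ℂ} (h : Bd 0 F) : IsBoundedAtImInfty F := by
  unfold Bd at h
  simpa using h

/-- the action of `S T^n` is the Fricke involution after `z ↦ (z + n)/N` -/
theorem bdd_ST {N : ℕ} [NeZero N] {F : ℍ → ℂ} (h : IsBoundedAtImInfty (fun z => F (WW N z)))
    (n : ℤ) : IsBoundedAtImInfty (fun z : ℍ => F ((ModularGroup.S * ModularGroup.T ^ n : SL(2, ℤ)) • z)) := by
  have hN : (0 : ℝ) < N := Nat.cast_pos.2 (Nat.pos_of_ne_zero (NeZero.ne N))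
  rw [UpperHalfPlane.isBoundedAtImInfty_iff] at h ⊢
  obtain ⟨M, A, hMA⟩ := h
  refine ⟨M, N * A, fun z hz => ?_⟩
  let w : ℍ := ⟨((z : ℂ) + n) / N, by
    rw [show (((z : ℂ) + n) / N) = (((N : ℝ)⁻¹ : ℝ) : ℂ) * ((z : ℂ) + n) by
      push_cast; field_simp, Complex.im_ofReal_mul]
    simp only [Complex.add_im, Complex.intCast_im, add_zero]
    exact mul_pos (inv_pos.mpr hN) z.im_pos⟩
  have hw : w.im = z.im / N := by
    show (((z : ℂ) + n) / N).im = _
    rw [show (((z : ℂ) + n) / N) = (((N : ℝ)⁻¹ : ℝ) : ℂ) * ((z : ℂ) + n) by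
      push_cast; field_simp, Complex.im_ofReal_mul]
    simp only [Complex.add_im, Complex.intCast_im, add_zero]
    rw [div_eq_inv_mul]
    rfl
  have h1 : WW N w = (ModularGroup.S * ModularGroup.T ^ n : SL(2, ℤ)) • z := by
    rw [mul_smul, modular_S_smul, modular_T_zpow_smul]
    apply UpperHalfPlane.ext
    rw [WW_coe]
    show -1 / ((N : ℂ) * (((z : ℂ) + n) / N)) = (-((((n : ℝ) +ᵥ z : ℍ)) : ℂ))⁻¹
    have hN' : (N : ℂ) ≠ 0 := by exact_mod_cast hN.ne'
    rw [mul_div_cancel₀ _ hN', neg_div, one_div, inv_neg, add_comm, coe_vadd]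
    push_cast
    rfl
  rw [← h1]
  refine hMA w ?_
  rw [hw, le_div_iff₀ hN, mul_comm]
  exact hz

theorem aux {N : ℕ} [NeZero N] (hN : N.Prime) {F : ℍ → ℂ} (hF : LX N 0 0 F) :
    (∀ h ∈ Gamma0 N, F ∣[(0 : ℤ)] h = F) ∧ ∀ g : SL(2, ℤ), IsBoundedAtImInfty (F ∣[(0 : ℤ)] g) := by
  haveI : Fact N.Prime := ⟨hN⟩
  have hm : ∀ h ∈ Gamma0 N, F ∣[(0 : ℤ)] h = F := fun h hh => funext fun z => by
    rw [slash0, hF.inv h hh]
  refine ⟨hm, fun g => ?_⟩
  rcases hc : Sml.col N g⁻¹ with _ | t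
  · have h1 : Sml.col N 1 = Sml.col N g⁻¹ := by
      rw [hc]
      simp [Sml.col]
    have h2 := (Sml.col_eq_iff 1 g⁻¹).1 h1
    rw [inv_one, one_mul, inv_mem_iff] at h2
    rw [hm g h2]
    exact bd0 hF.inf
  · obtain ⟨n, rfl⟩ : ∃ n : ℤ, (n : ZMod N) = t := ZMod.intCast_surjective t
    have h1 : Sml.col N (ModularGroup.T ^ n * ModularGroup.S⁻¹) = Sml.col N g⁻¹ := by
      rw [hc]
      unfold Sml.col
      have e1 : (ModularGroup.T ^ n * ModularGroup.S⁻¹ : SL(2, ℤ)) 1 0 = -1 := by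
        rw [Matrix.SpecialLinearGroup.coe_mul, ModularGroup.coe_T_zpow,
          Matrix.SpecialLinearGroup.coe_inv, ModularGroup.coe_S, Matrix.adjugate_fin_two]
        simp [Matrix.mul_apply, Fin.sum_univ_two]
      have e2 : (ModularGroup.T ^ n * ModularGroup.S⁻¹ : SL(2, ℤ)) 0 0 = -n := by
        rw [Matrix.SpecialLinearGroup.coe_mul, ModularGroup.coe_T_zpow,
          Matrix.SpecialLinearGroup.coe_inv, ModularGroup.coe_S, Matrix.adjugate_fin_two]
        simp [Matrix.mul_apply, Fin.sum_univ_two]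
      rw [e1, e2]
      simp
    have h2 := (Sml.col_eq_iff _ _).1 h1
    set h := (ModularGroup.T ^ n * ModularGroup.S⁻¹)⁻¹ * g⁻¹ with hh
    have h3 : g = h⁻¹ * (ModularGroup.S * ModularGroup.T ^ (-n)) := by
      rw [hh, zpow_neg]
      group
    rw [h3, SlashAction.slash_mul, hm _ (inv_mem h2)]
    have h4 := bdd_ST (bd0 hF.zero) (-n)
    refine h4.congr_left ?_ |>.trans (Asymptotics.isBigO_refl _ _)
    intro z
    exact (slash0 F _ z).symm

end HpcP

open HpcP in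
/-- HPC -/
theorem hpc : S_HPC := by
  intro N _ hN F hF
  haveI : Fact N.Prime := ⟨hN⟩
  obtain ⟨hm, hb⟩ := aux hN hF
  have hV := vm_of_slash F hF.holo hm hb
  set c := F UpperHalfPlane.I with hc
  have hG : ∀ x : XX N, (fun z => vec N 0 F z x - c) ∈ FreP.HB := fun x =>
    sub_mem (FreP.vm_comp hV x) (FreP.HB.algebraMap_mem c)
  have hP : LM 0 (∏ x : XX N, fun z => vec N 0 F z x - c) := by
    have hB : (∏ x : XX N, fun z => vec N 0 F z x - c) ∈ FreP.HB :=
      FreP.HB.prod_mem fun x _ => hG x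
    refine FreP.lm_mk hB.1 (fun γ z => ?_) hB.2
    rw [Finset.prod_apply, Finset.prod_apply]
    simp_rw [hV.mod γ z]
    simp only [zpow_zero, one_mul]
    exact Equiv.prod_comp (MulAction.toPerm (γ⁻¹ : SL(2, ℤ)) : Equiv.Perm (XX N))
      (fun x => vec N 0 F z x - c)
  obtain ⟨g, hg⟩ := hP
  obtain ⟨d, hd⟩ := ModularFormClass.levelOne_weight_zero_const g
  have h0 : vec N 0 F UpperHalfPlane.I (x0 N) = c := by
    unfold vec
    rw [hm (gx (x0 N))]
    have h1 : (QuotientGroup.mk (gx (x0 N))⁻¹ : XX N) = QuotientGroup.mk 1 := gx_mem (x0 N)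
    rw [QuotientGroup.eq, inv_inv, mul_one] at h1
    exact h1
  have hz : ∀ z, (∏ x : XX N, fun z => vec N 0 F z x - c) z = 0 := by
    intro z
    have h1 : (∏ x : XX N, fun z => vec N 0 F z x - c) UpperHalfPlane.I = 0 := by
      rw [Finset.prod_apply]
      exact Finset.prod_eq_zero (Finset.mem_univ (x0 N)) (by rw [h0, sub_self])
    rw [hg, hd] at h1 ⊢
    exact h1
  obtain ⟨x, -, hx⟩ := (UpperHalfPlane.prod_eq_zero_iff fun x _ => (hG x).1).mp (funext hz)
  refine ⟨c, fun z => ?_⟩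
  have h1 := congrFun hx ((gx x)⁻¹ • z)
  have h2 : vec N 0 F ((gx x)⁻¹ • z) x = c := sub_eq_zero.mp h1
  rw [vec, slash0, smul_inv_smul] at h2
  exact h2

end Pool.Agent.K4H13.CV
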