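import Pool.Agent.K4H13.CV.Hp0
import Pool.Agent.K4H13.CV.Cus0
import Pool.Agent.K4H11.CV.Lim

/-!
# Project CV: the residue theorem on `X₀(N)`
-/

set_option autoImplicit false

open Complex Filter Topology Set UpperHalfPlane MatrixGroups CongruenceSubgroup ModularGroup
open scoped Manifold ModularForm

namespace Pool.Agent.K4H13.CV

namespace HprP

variable {N : ℕ} [NeZero N]

/-- the point `(z + j) / N` -/
noncomputable def dv (N : ℕ) [NeZero N] (j : ℤ) (z : ℍ) : ℍ := ⟨((z : ℂ) + j) / N, by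
  have hN : (0 : ℝ) < N := Nat.cast_pos.2 (Nat.pos_of_ne_zero (NeZero.ne N))
  rw [Complex.div_natCast_im]
  have : ((z : ℂ) + (j : ℂ)).im = z.im := by simp
  rw [this]
  exact div_pos z.im_pos hN⟩

lemma dv_coe (j : ℤ) (z : ℍ) : (dv N j z : ℂ) = ((z : ℂ) + j) / N := rfl

lemma dv_im (j : ℤ) (z : ℍ) : (dv N j z).im = z.im / N := by
  change (((z : ℂ) + j) / N).im = _
  rw [Complex.div_natCast_im]
  simp

lemma tendsto_dv (j : ℤ) : Tendsto (fun z => dv N j z) atImInfty atImInfty := by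
  have hN : (0 : ℝ) < N := Nat.cast_pos.2 (Nat.pos_of_ne_zero (NeZero.ne N))
  have h1 : Tendsto (UpperHalfPlane.im) atImInfty atTop := tendsto_comap
  rw [atImInfty, tendsto_comap_iff]
  have h2 : Tendsto (fun z : ℍ => z.im / (N : ℝ)) atImInfty atTop := h1.atTop_div_const hN
  refine h2.congr fun z => ?_
  simp only [Function.comp]
  rw [dv_im]

lemma S_smul_eq (z : ℍ) : (S • z : ℍ) = WW N (dv N 0 z) := by
  have hNc : (N : ℂ) ≠ 0 := Nat.cast_ne_zero.2 (NeZero.ne N)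
  apply UpperHalfPlane.ext
  rw [UpperHalfPlane.modular_S_smul, WW_coe, dv_coe]
  change (-(z : ℂ))⁻¹ = _
  have hz : (z : ℂ) ≠ 0 := ne_zero z
  push_cast
  rw [add_zero, mul_div_cancel₀ _ hNc, inv_neg, neg_div, one_div]

lemma denom_S' (z : ℍ) : denom ((S : SL(2, ℤ)) : GL (Fin 2) ℝ) z = z := by
  rw [ModularGroup.denom_apply]
  simp [S]

/-- the slash of a `W`-invariant differential -/
lemma slash_S {G : ℍ → ℂ} (hW : ∀ z : ℍ, G (WW N z) = (N : ℂ) * (z : ℂ) ^ 2 * G z) (z : ℍ) :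
    (G ∣[(2 : ℤ)] (S : SL(2, ℤ))) z = 1 / N * G (dv N 0 z) := by
  have hNc : (N : ℂ) ≠ 0 := Nat.cast_ne_zero.2 (NeZero.ne N)
  have hz : (z : ℂ) ≠ 0 := ne_zero z
  rw [ModularForm.SL_slash_apply, S_smul_eq (N := N), hW, denom_S', dv_coe]
  have h8 : (z : ℂ) ^ (-(2 : ℤ)) = 1 / (z : ℂ) ^ 2 := by
    rw [zpow_neg, one_div]
    norm_cast
  rw [h8]
  push_cast
  rw [add_zero]
  field_simp

lemma slash_case (hN : N.Prime) {G : ℍ → ℂ} (hG : ∀ γ ∈ Gamma0 N, G ∣[(2 : ℤ)] γ = G)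
    (hW : ∀ z : ℍ, G (WW N z) = (N : ℂ) * (z : ℂ) ^ 2 * G z) (g : SL(2, ℤ)) :
    (g ∈ Gamma0 N ∧ G ∣[(2 : ℤ)] g = G) ∨
      (g ∉ Gamma0 N ∧ ∃ j : ℤ, ∀ z, (G ∣[(2 : ℤ)] g) z = 1 / N * G (dv N j z)) := by
  by_cases hg : g ∈ Gamma0 N
  · exact Or.inl ⟨hg, hG g hg⟩
  · rcases cases0 hN g with h | ⟨j, γ, hγ, rfl⟩
    · exact absurd h hg
    · refine Or.inr ⟨hg, j, fun z => ?_⟩
      rw [SlashAction.slash_mul, SlashAction.slash_mul, hG γ hγ, ModularForm.SL_slash_apply,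
        Pool.Agent.K4H11.CV.denom_T_zpow, one_zpow, mul_one, slash_S hW]
      congr 2
      apply UpperHalfPlane.ext
      rw [dv_coe, dv_coe, coe_T_zpow_smul_eq]
      push_cast
      rw [add_zero]

/-- the vector valued form of a `W`-invariant differential -/
lemma vm_of (hN : N.Prime) {G : ℍ → ℂ} (hhol : MDifferentiable 𝓘(ℂ) 𝓘(ℂ) G)
    (hG : ∀ γ ∈ Gamma0 N, G ∣[(2 : ℤ)] γ = G)
    (hW : ∀ z : ℍ, G (WW N z) = (N : ℂ) * (z : ℂ) ^ 2 * G z) {c : ℂ}
    (hc : Tendsto G atImInfty (𝓝 c)) : VM N 2 (fun z x => (G ∣[(2 : ℤ)] gx x) z) := by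
  refine ⟨fun x => ?_, fun γ z x => ?_, fun x => ?_⟩
  · exact hhol.slash 2 _
  · obtain ⟨δ, hδ, h⟩ := gx_Xg (N := N) (gx x * γ)
    have e1 : γ⁻¹ • x = Xg N (gx x * γ) := by
      conv_lhs => rw [← Xg_gx x, smul_Xg, inv_inv]
    rw [e1, h, SlashAction.slash_mul, hG δ hδ, SlashAction.slash_mul]
    rw [ModularForm.SL_slash_apply (f := G ∣[(2 : ℤ)] gx x), zpow_neg]
    have hd := zpow_ne_zero (2 : ℤ) (denom_ne_zero γ z)
    field_simp
  · rcases slash_case hN hG hW (gx x) with ⟨-, h⟩ | ⟨-, j, h⟩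
    · simp only [h]
      exact hc.isBigO_one ℝ
    · simp only [h]
      exact ((hc.comp (tendsto_dv j)).const_mul (1 / (N : ℂ))).isBigO_one ℝ

end HprP

open HprP in
theorem hpr : S_HPR := by
  intro N _ hN a F f hF hFW hfW l m hl hm
  have hN0 : (0 : ℝ) < N := Nat.cast_pos.2 (Nat.pos_of_ne_zero (NeZero.ne N))
  set G : ℍ → ℂ := fun z => F z * f z with hGdef
  have hhol : MDifferentiable 𝓘(ℂ) 𝓘(ℂ) G := hF.holo.mul f.holo'
  have hG : ∀ γ ∈ Gamma0 N, G ∣[(2 : ℤ)] γ = G := by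
    intro γ hγ
    ext z
    rw [ModularForm.SL_slash_apply, hGdef]
    simp only
    rw [hF.inv γ hγ, SlashInvariantForm.slash_action_eqn_SL'' f hγ z, zpow_neg]
    have hd := zpow_ne_zero (2 : ℤ) (denom_ne_zero γ z)
    field_simp
  have hW : ∀ z : ℍ, G (WW N z) = (N : ℂ) * (z : ℂ) ^ 2 * G z := by
    intro z
    rw [hGdef]
    simp only
    rw [hFW, hfW]
    ring
  have hc : Tendsto G atImInfty (𝓝 (l * m)) := by
    refine (hl.mul hm).congr fun z => ?_
    have h1 : Complex.exp (2 * Real.pi * Complex.I * ((a : ℂ) * z)) *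
        Complex.exp (2 * Real.pi * Complex.I * ((-a : ℂ) * z)) = 1 := by
      rw [← Complex.exp_add, ← Complex.exp_zero]
      congr 1
      ring
    rw [hGdef]
    simp only
    linear_combination (F z * f z) * h1
  have hVM := vm_of hN hhol hG hW hc
  have : Fintype (XX N) := Fintype.ofFinite _
  have hsum := fun z => Pool.Agent.K4H11.CV.sum_zero hVM z
  -- the limits of the components
  classical
  have hlim : ∀ x : XX N, Tendsto (fun z => (G ∣[(2 : ℤ)] gx x) z) atImInfty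
      (𝓝 ((if x = x0 N then (1 : ℂ) else 1 / N) * (l * m))) := by
    intro x
    have hx : x = x0 N ↔ gx x ∈ Gamma0 N := by
      conv_lhs => rw [← Xg_gx x, x0_eq, Xg_eq, inv_one, mul_one]
    rcases slash_case hN hG hW (gx x) with ⟨h1, h⟩ | ⟨h1, j, h⟩
    · rw [if_pos (hx.2 h1), one_mul, h]
      exact hc
    · rw [if_neg (fun h' => h1 (hx.1 h'))]
      simp only [h]
      exact (hc.comp (tendsto_dv j)).const_mul (1 / (N : ℂ))
  have h1 : Tendsto (fun z : ℍ => ∑ x : XX N, (G ∣[(2 : ℤ)] gx x) z) atImInfty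
      (𝓝 (∑ x : XX N, (if x = x0 N then (1 : ℂ) else 1 / N) * (l * m))) :=
    tendsto_finsetSum _ fun x _ => hlim x
  have h2 : Tendsto (fun z : ℍ => ∑ x : XX N, (G ∣[(2 : ℤ)] gx x) z) atImInfty (𝓝 0) := by
    refine tendsto_const_nhds.congr fun z => ?_
    exact (hsum z).symm
  have h3 := tendsto_nhds_unique h1 h2
  rw [← Finset.sum_mul] at h3
  rcases mul_eq_zero.1 h3 with h4 | h4
  · exfalso
    have h5 : (∑ x : XX N, (if x = x0 N then (1 : ℂ) else 1 / N)) =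
        ((∑ x : XX N, (if x = x0 N then (1 : ℝ) else 1 / N) : ℝ) : ℂ) := by
      push_cast
      refine Finset.sum_congr rfl fun x _ => ?_
      split_ifs <;> simp
    rw [h5, Complex.ofReal_eq_zero] at h4
    have h6 : 0 < ∑ x : XX N, (if x = x0 N then (1 : ℝ) else 1 / N) := by
      refine Finset.sum_pos (fun x _ => ?_) ⟨x0 N, Finset.mem_univ _⟩
      split_ifs <;> positivity
    linarith
  · exact h4

end Pool.Agent.K4H13.CV
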