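import Pool.Agent.K4H13.CV.Hp0
import Pool.Agent.K4H13.CV.Wt
import Pool.Agent.K4H13.CV.Cls
import Pool.Agent.K4H13.CV.Cdm
import Pool.Agent.K4H13.CV.FreA

/-!
# Project CV: the dimension of the space of functions with large poles
-/

set_option autoImplicit false

open Complex Filter Topology Set UpperHalfPlane MatrixGroups CongruenceSubgroup Asymptotics
open scoped Manifold ModularForm Real

namespace Pool.Agent.K4H13.CV.HpvP

open Pool.Agent.K4H13.CV WtP

/-! ## counting -/

theorem rep2 {X : Type} [Fintype X] (e : X → ℕ) (σ : Equiv.Perm X)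
    (h : ∀ x, σ (σ x) = x) :
    2 * (Finset.univ.filter fun x => e x < e (σ x)).card ≤ Fintype.card X := by
  have h1 : ∑ x : X, ((if e x < e (σ x) then 1 else 0) +
      (if e (σ x) < e (σ (σ x)) then 1 else 0)) ≤ ∑ _x : X, 1 := by
    refine Finset.sum_le_sum fun x _ => ?_
    rw [h]
    split_ifs <;> omega
  rw [Finset.sum_add_distrib, Equiv.sum_comp σ (fun x => if e x < e (σ x) then 1 else 0)] at h1
  simp only [Finset.sum_const, Finset.card_univ, smul_eq_mul, mul_one, Finset.sum_boole,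
    Nat.cast_id] at h1
  omega

theorem rep3 {X : Type} [Fintype X] (e : X → ℕ) (σ : Equiv.Perm X)
    (h : ∀ x, σ (σ (σ x)) = x) :
    3 * (Finset.univ.filter fun x => e x < e (σ x) ∧ e x < e (σ (σ x))).card ≤
      Fintype.card X := by
  have h1 : ∑ x : X, (((if e x < e (σ x) ∧ e x < e (σ (σ x)) then 1 else 0) +
      (if e (σ x) < e (σ (σ x)) ∧ e (σ x) < e (σ (σ (σ x))) then 1 else 0)) +
      (if e (σ (σ x)) < e (σ (σ (σ x))) ∧ e (σ (σ x)) < e (σ (σ (σ (σ x)))) then 1 else 0)) ≤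
      ∑ _x : X, 1 := by
    refine Finset.sum_le_sum fun x _ => ?_
    rw [h]
    split_ifs <;> omega
  rw [Finset.sum_add_distrib, Finset.sum_add_distrib,
    Equiv.sum_comp σ (fun x => if e (σ x) < e (σ (σ x)) ∧ e (σ x) < e (σ (σ (σ x))) then 1 else 0),
    Equiv.sum_comp σ (fun x => if e x < e (σ x) ∧ e x < e (σ (σ x)) then 1 else 0)] at h1
  simp only [Finset.sum_const, Finset.card_univ, smul_eq_mul, mul_one, Finset.sum_boole,
    Nat.cast_id] at h1
  omega

theorem finrank_le_of_restrict {X : Type} [Fintype X] (W : Submodule ℂ (X → ℂ)) (T : Finset X)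
    (h : ∀ φ ∈ W, (∀ x ∈ T, φ x = 0) → φ = 0) : Module.finrank ℂ W ≤ T.card := by
  let L : W →ₗ[ℂ] (T → ℂ) :=
    { toFun := fun φ x => φ.1 x.1
      map_add' := fun _ _ => rfl
      map_smul' := fun _ _ => rfl }
  have hL : Function.Injective L := by
    rw [← LinearMap.ker_eq_bot, LinearMap.ker_eq_bot']
    intro φ hφ
    apply Subtype.ext
    exact h φ.1 φ.2 fun x hx => congrFun hφ ⟨x, hx⟩
  have h1 := LinearMap.finrank_le_finrank_of_injective hL
  rwa [Module.finrank_fintype_fun_eq_card, Fintype.card_coe] at h1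

theorem eig2 {X : Type} [Fintype X] (e : X → ℕ) (he : Function.Injective e) (σ : Equiv.Perm X)
    (h : ∀ x, σ (σ x) = x) :
    Module.finrank ℂ ((ClsP.P σ).eigenspace (-1)) ≤
      (Finset.univ.filter fun x => e x < e (σ x)).card := by
  refine finrank_le_of_restrict _ _ fun φ hφ h0 => ?_
  rw [ClsP.mem_eig] at hφ
  simp only [Finset.mem_filter, Finset.mem_univ, true_and] at h0
  funext x
  rcases lt_trichotomy (e x) (e (σ x)) with h1 | h1 | h1
  · exact h0 x h1
  · have h2 := hφ x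
    rw [← he h1] at h2
    change φ x = 0
    linear_combination h2 / 2
  · have h2 := h0 (σ x) (by rw [h]; exact h1)
    rw [hφ x] at h2
    change φ x = 0
    linear_combination -h2

theorem eig3 {X : Type} [Fintype X] (e : X → ℕ) (he : Function.Injective e) (σ : Equiv.Perm X)
    (h : ∀ x, σ (σ (σ x)) = x) (μ : ℂ) (h0 : μ ≠ 0) (h1 : μ ≠ 1) :
    Module.finrank ℂ ((ClsP.P σ).eigenspace μ) ≤
      (Finset.univ.filter fun x => e x < e (σ x) ∧ e x < e (σ (σ x))).card := by
  refine finrank_le_of_restrict _ _ fun φ hφ hT => ?_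
  rw [ClsP.mem_eig] at hφ
  simp only [Finset.mem_filter, Finset.mem_univ, true_and] at hT
  funext x
  change φ x = 0
  by_cases hx : σ x = x
  · have h2 := hφ x
    rw [hx] at h2
    have h3 : (1 - μ) * φ x = 0 := by linear_combination h2
    rcases mul_eq_zero.1 h3 with h4 | h4
    · exact absurd (by linear_combination -h4) h1
    · exact h4
  · have n1 : e x ≠ e (σ x) := fun h2 => hx (he h2).symm
    have n2 : e (σ x) ≠ e (σ (σ x)) := fun h2 => hx (σ.injective (he h2).symm)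
    have n3 : e x ≠ e (σ (σ x)) := fun h2 => by
      have h3 := he h2
      apply hx
      conv_lhs => rw [h3]
      exact h x
    by_cases c1 : e x < e (σ x) ∧ e x < e (σ (σ x))
    · exact hT x c1
    · by_cases c2 : e (σ x) < e (σ (σ x)) ∧ e (σ x) < e (σ (σ (σ x)))
      · have h2 := hT (σ x) c2
        rw [hφ x] at h2
        exact (mul_eq_zero.1 h2).resolve_left h0
      · have c3 : e (σ (σ x)) < e (σ (σ (σ x))) ∧ e (σ (σ x)) < e (σ (σ (σ (σ x)))) := by
          rw [h]
          rw [h] at c2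
          omega
        have h2 := hT (σ (σ x)) c3
        rw [hφ (σ x), hφ x] at h2
        exact (mul_eq_zero.1 ((mul_eq_zero.1 h2).resolve_left h0)).resolve_left h0

theorem at_I2 {N : ℕ} {k : ℤ} {F : ℍ → XX N → ℂ} (hF : VM N k F) (hk : k % 4 = 2) :
    F UpperHalfPlane.I ∈
      (ClsP.P (MulAction.toPerm (ModularGroup.S : SL(2, ℤ)) : Equiv.Perm (XX N))).eigenspace
        (-1) := by
  rw [ClsP.mem_eig]
  intro x
  have := hF.mod ModularGroup.S UpperHalfPlane.I (ModularGroup.S • x)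
  rw [inv_smul_smul] at this
  have h1 : ModularGroup.S • UpperHalfPlane.I = UpperHalfPlane.I := by
    rw [modular_S_smul]
    ext
    simp
  have h2 : denom (ModularGroup.S : GL (Fin 2) ℝ) UpperHalfPlane.I = Complex.I := by
    rw [ModularGroup.denom_S]
    rfl
  rw [h1, h2] at this
  obtain ⟨q, hq⟩ : ∃ q, k = 4 * q + 2 := ⟨k / 4, by omega⟩
  rw [hq, zpow_add₀ Complex.I_ne_zero, zpow_mul] at this
  have h3 : Complex.I ^ (4 : ℤ) = 1 := by
    have := Complex.I_pow_four
    exact_mod_cast this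
  have h4 : Complex.I ^ (2 : ℤ) = -1 := by
    have := Complex.I_sq
    exact_mod_cast this
  rw [h3, one_zpow, one_mul, h4] at this
  exact this

theorem at_rh_two {N : ℕ} {k : ℤ} {F : ℍ → XX N → ℂ} (hF : VM N k F) (hk : k % 6 = 2) :
    F ClsP.rh ∈ (ClsP.P (MulAction.toPerm UU : Equiv.Perm (XX N))).eigenspace
      (((ClsP.rh : ℂ) + 1) ^ 2) := by
  rw [ClsP.mem_eig]
  intro x
  have := ClsP.at_rh hF x
  obtain ⟨q, hq⟩ : ∃ q, k = 6 * q + 2 := ⟨k / 6, by omega⟩
  rw [hq, zpow_add₀ ClsP.rh_ne, zpow_mul, ClsP.w_six, one_zpow, one_mul] at this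
  exact this

theorem S_inv {N : ℕ} (x : XX N) : (ModularGroup.S : SL(2, ℤ)) • (ModularGroup.S : SL(2, ℤ)) • x = x := by
  rw [smul_smul]
  have h1 : (ModularGroup.S * ModularGroup.S : SL(2, ℤ)) = (-1 : SL(2, ℤ))⁻¹ := by
    ext i j
    fin_cases i <;> fin_cases j <;>
      simp [ModularGroup.S, Matrix.mul_apply, Fin.sum_univ_two]
  rw [h1]
  exact ClsP.neg_one_smul' x

theorem UU_inv {N : ℕ} (x : XX N) : UU • UU • UU • x = x := by
  rw [smul_smul, smul_smul]
  have h1 : (UU * UU * UU : SL(2, ℤ)) = (-1 : SL(2, ℤ))⁻¹ := by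
    ext i j
    fin_cases i <;> fin_cases j <;>
      simp [UU, ModularGroup.S, ModularGroup.T, Matrix.mul_apply, Fin.sum_univ_two]
  rw [h1]
  exact ClsP.neg_one_smul' x

open Classical in
/-- the count -/
theorem count (hs : S_SPAN) {N : ℕ} [NeZero N] (hN : N.Prime) {k : XX N → ℤ}
    {F : XX N → ℍ → XX N → ℂ} (hF : IsBas N k F) (hk : ∑' j, k j ≤ 6 * ((N : ℤ) - 1))
    [Fintype (XX N)] (hc : Fintype.card (XX N) = N + 1) (l : ℤ) (hl : 12 ∣ l)
    (hkl : ∀ x, k x ≤ l) :
    l * ((N : ℤ) + 1) - N + 11 ≤ 12 * (∑ x, Module.finrank ℂ (FreP.RR (l - k x)) : ℕ) := by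
  have hI := ClsP.indep hs hN hF UpperHalfPlane.I
  have hR := ClsP.indep hs hN hF ClsP.rh
  have hev : ∀ j, Even (k j) := fun j => ClsP.even_wt (hF.vm j) ClsP.rh (hR.ne_zero j)
  let e : XX N → ℕ := fun x => (Fintype.equivFin (XX N) x : ℕ)
  have he : Function.Injective e := fun x y h =>
    (Fintype.equivFin (XX N)).injective (Fin.ext h)
  have s1 := rep2 e (MulAction.toPerm (ModularGroup.S : SL(2, ℤ)) : Equiv.Perm (XX N)) S_inv
  have s2 := rep3 e (MulAction.toPerm UU : Equiv.Perm (XX N)) UU_inv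
  have s3 := eig2 e he (MulAction.toPerm (ModularGroup.S : SL(2, ℤ)) : Equiv.Perm (XX N)) S_inv
  have s4 := eig3 e he (MulAction.toPerm UU : Equiv.Perm (XX N)) UU_inv
    (((ClsP.rh : ℂ) + 1) ^ 2) (pow_ne_zero 2 ClsP.rh_ne) (fun h => by
      have h1 := ClsP.rh_eq
      exact ClsP.rh_ne_two (by linear_combination h - h1))
  have s5 := eig3 e he (MulAction.toPerm UU : Equiv.Perm (XX N)) UU_inv
    (-((ClsP.rh : ℂ) + 1)) (neg_ne_zero.2 ClsP.rh_ne) (fun h =>
      ClsP.rh_ne_neg_one (by linear_combination -h))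
  have c1 : (Finset.univ.filter fun j => k j % 4 = 2).card ≤ _ :=
    ClsP.card_le _ hI _ _ fun j hj => at_I2 (hF.vm j) hj
  have c2 : (Finset.univ.filter fun j => k j % 6 = 2).card ≤ _ :=
    ClsP.card_le _ hR _ _ fun j hj => at_rh_two (hF.vm j) hj
  have c3 : (Finset.univ.filter fun j => k j % 6 = 4).card ≤ _ :=
    ClsP.card_le _ hR _ _ fun j hj => ClsP.at_rh_four (hF.vm j) hj
  have c4 : (Finset.univ.filter fun j => 6 ∣ k j).card ≤ nU N :=
    ClsP.card_le _ hR _ _ fun j hj => ClsP.at_rh_zero (hF.vm j) hj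
  have c5 : nU N + 2 * (Finset.univ.filter fun j => k j % 6 = 4).card ≤ Fintype.card (XX N) := by
    refine ClsP.three _ (-((ClsP.rh : ℂ) + 1)) ?_ ?_ ?_ _ hR _
      fun j hj => ClsP.at_rh_four (hF.vm j) hj
    · intro h
      exact ClsP.rh_ne_neg_one (by linear_combination -h)
    · rw [map_neg, ClsP.rh_conj]
      intro h
      exact ClsP.rh_ne_two (by linear_combination h)
    · rw [map_neg, ClsP.rh_conj]
      intro h
      exact ClsP.rh_ne_half (by linear_combination h / 2)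
  have c6 : (Finset.univ.filter fun j => 6 ∣ k j).card +
      (Finset.univ.filter fun j => k j % 6 = 2).card +
      (Finset.univ.filter fun j => k j % 6 = 4).card = Fintype.card (XX N) := by
    rw [Finset.card_filter, Finset.card_filter, Finset.card_filter, ← Finset.sum_add_distrib,
      ← Finset.sum_add_distrib, ← Finset.card_univ, Finset.card_eq_sum_ones]
    apply Finset.sum_congr rfl
    intro j _
    obtain ⟨r, hr⟩ := hev j
    split_ifs <;> omega
  have c7 : (Finset.univ.filter fun j => 4 ∣ k j).card +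
      (Finset.univ.filter fun j => k j % 4 = 2).card = Fintype.card (XX N) := by
    rw [Finset.card_filter, Finset.card_filter, ← Finset.sum_add_distrib,
      ← Finset.card_univ, Finset.card_eq_sum_ones]
    apply Finset.sum_congr rfl
    intro j _
    obtain ⟨r, hr⟩ := hev j
    split_ifs <;> omega
  -- the dimension
  have hpt : ∀ x, 12 * (Module.finrank ℂ (FreP.RR (l - k x)) : ℤ) = l - k x +
      6 * (if 4 ∣ k x then 1 else 0) + 6 * (if 6 ∣ k x then 1 else 0) +
      2 * (if k x % 6 = 2 then 1 else 0) - 2 * (if k x % 6 = 4 then 1 else 0) := by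
    intro x
    obtain ⟨m, hm⟩ := Int.eq_ofNat_of_zero_le (sub_nonneg.2 (hkl x))
    obtain ⟨r, hr⟩ := hev x
    obtain ⟨q, hq⟩ := hl
    have hme : Even m := by
      rw [Nat.even_iff]
      omega
    rw [hm, FreP.finrank_RR m hme]
    push_cast
    split_ifs <;> omega
  have hsum := Finset.sum_congr rfl fun j (_ : j ∈ (Finset.univ : Finset (XX N))) => hpt j
  simp only [Finset.sum_sub_distrib, Finset.sum_add_distrib, ← Finset.mul_sum, Finset.sum_boole,
    Finset.sum_const, Finset.card_univ, nsmul_eq_mul] at hsum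
  rw [tsum_fintype] at hk
  have h9 : (Fintype.card (XX N) : ℤ) * l = l * ((N : ℤ) + 1) := by
    rw [hc]
    push_cast
    ring
  rw [h9] at hsum
  push_cast
  rw [hsum]
  push_cast
  generalize l * ((N : ℤ) + 1) = L at *
  omega

/-! ## the functions -/

theorem q_bdd : IsBoundedAtImInfty (fun z : ℍ => ee z / ModularForm.discriminant z) := by
  have h1 : (fun τ : ℍ => Real.exp (-(2 * π * τ.im))) =O[atImInfty] ModularForm.discriminant := by
    refine ModularForm.exp_isBigO_discriminant.congr_left fun τ => ?_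
    congr 1
    ring
  have h2 : (fun τ : ℍ => ee τ) =O[atImInfty] fun τ : ℍ => Real.exp (-(2 * π * τ.im)) := by
    refine IsBigO.of_bound 1 (Eventually.of_forall fun z => ?_)
    rw [norm_ee, one_mul, Real.norm_of_nonneg (Real.exp_pos _).le]
    rfl
  exact (div_isBoundedUnder_of_isBigO (h2.trans h1)).isBigO_one ℝ

variable {N : ℕ}

theorem base_bdd {k : ℤ} {G : ℍ → XX N → ℂ} (hG : VM N k G) (j : ℕ) (y : XX N) :
    IsBoundedAtImInfty (fun z : ℍ => (ee z / ModularForm.discriminant z) ^ j * G z y) :=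
  bdd_mul (bdd_pow q_bdd j) (hG.bdd y)

theorem ee_pow (n : ℕ) (w : ℂ) : ee w ^ n = ee (n * w) := by
  unfold ee
  rw [← Complex.exp_nat_mul]
  congr 1
  ring

/-- multiplication by `N` -/
noncomputable def mN (N : ℕ) [NeZero N] (z : ℍ) : ℍ := ⟨(N : ℂ) * z, by
  have hN : (0 : ℝ) < N := Nat.cast_pos.2 (Nat.pos_of_ne_zero (NeZero.ne N))
  have h1 : ((N : ℂ) * (z : ℂ)).im = N * z.im := by
    rw [show (N : ℂ) = ((N : ℝ) : ℂ) by push_cast; rfl, Complex.im_ofReal_mul]
    rfl
  rw [h1]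
  exact mul_pos hN z.im_pos⟩

theorem mN_coe [NeZero N] (z : ℍ) : (mN N z : ℂ) = (N : ℂ) * z := rfl

theorem mN_im [NeZero N] (z : ℍ) : (mN N z).im = N * z.im := by
  change ((N : ℂ) * (z : ℂ)).im = _
  rw [show (N : ℂ) = ((N : ℝ) : ℂ) by push_cast; rfl, Complex.im_ofReal_mul]
  rfl

theorem mN_tendsto [NeZero N] : Tendsto (mN N) atImInfty atImInfty := by
  have hN : (0 : ℝ) < N := Nat.cast_pos.2 (Nat.pos_of_ne_zero (NeZero.ne N))
  have h1 : Tendsto (UpperHalfPlane.im) atImInfty atTop := tendsto_comap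
  rw [atImInfty, tendsto_comap_iff]
  have h2 : Tendsto (fun z : ℍ => (N : ℝ) * z.im) atImInfty atTop := h1.const_mul_atTop hN
  refine h2.congr fun z => ?_
  simp only [Function.comp]
  rw [mN_im]

theorem WW_eq [NeZero N] (z : ℍ) : WW N z = ModularGroup.S • mN N z := by
  apply UpperHalfPlane.ext
  rw [modular_S_smul, WW_coe]
  change _ = (-(mN N z : ℂ))⁻¹
  rw [mN_coe, neg_div, one_div, inv_neg]

theorem denom_S' (z : ℍ) : denom ((ModularGroup.S : SL(2, ℤ)) : GL (Fin 2) ℝ) z = z := by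
  rw [ModularGroup.denom_apply]
  simp [ModularGroup.S]

theorem fix_x0 {γ : SL(2, ℤ)} (hγ : γ ∈ Gamma0 N) : γ⁻¹ • x0 N = x0 N := by
  change (QuotientGroup.mk (γ⁻¹ * 1) : XX N) = QuotientGroup.mk 1
  rw [QuotientGroup.eq]
  simpa using hγ

theorem lx [NeZero N] {j : ℕ} {G : ℍ → XX N → ℂ} (hG : VM N (12 * (j : ℤ)) G) :
    LX N j ((j : ℤ) * N) (fun z => G z (x0 N) / ModularForm.discriminant z ^ j) := by
  have hd : ∀ z, ModularForm.discriminant z ^ j ≠ 0 := fun z =>
    pow_ne_zero j (ModularForm.discriminant_ne_zero z)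
  have hmod : ∀ (γ : SL(2, ℤ)) (z : ℍ), G (γ • z) (x0 N) / ModularForm.discriminant (γ • z) ^ j =
      G z (γ⁻¹ • x0 N) / ModularForm.discriminant z ^ j := by
    intro γ z
    rw [hG.mod, lm_mod disc_lm, mul_pow]
    have h1 : (denom γ z) ^ (12 * (j : ℤ)) = ((denom γ z) ^ (12 : ℤ)) ^ j := by
      rw [zpow_mul, zpow_natCast]
    rw [h1]
    have h2 : ((denom γ z) ^ (12 : ℤ)) ^ j ≠ 0 := pow_ne_zero j (zpow_ne_zero _ (denom_ne_zero _ _))
    exact mul_div_mul_left _ _ h2
  refine ⟨hol_div (hG.holo _) (hol_pow (lm_hol disc_lm) j) hd, fun γ hγ z => ?_, ?_, ?_⟩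
  · rw [hmod, fix_x0 hγ]
  · unfold Bd
    refine (base_bdd hG j (x0 N)).congr_left fun z => ?_
    rw [div_pow, ee_pow]
    unfold ee
    push_cast
    have h1 := hd z
    field_simp
  · unfold Bd
    have h1 := (base_bdd hG j ((ModularGroup.S)⁻¹ • x0 N)).comp_tendsto (mN_tendsto (N := N))
    refine IsBigO.congr' h1 (Eventually.of_forall fun z => ?_) (Eventually.of_forall fun z => rfl)
    simp only [Function.comp]
    rw [WW_eq, hmod, div_pow, ee_pow, mN_coe]
    unfold ee
    push_cast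
    have h1 := hd (mN N z)
    have h2 : (2 * (π : ℂ) * Complex.I * ((j : ℂ) * ((N : ℂ) * (z : ℂ)))) =
      2 * (π : ℂ) * Complex.I * ((j : ℂ) * (N : ℂ) * (z : ℂ)) := by ring
    rw [h2]
    field_simp

section map

variable [NeZero N] [Fintype (XX N)]

/-- the function of a vector of coefficients -/
noncomputable def Ph (k : XX N → ℤ) (F : XX N → ℍ → XX N → ℂ) (j : ℕ) :
    ((x : XX N) → FreP.RR (12 * (j : ℤ) - k x)) →ₗ[ℂ] (ℍ → ℂ) where
  toFun A z := (∑ x, (A x : ℍ → ℂ) z * F x z (x0 N)) / ModularForm.discriminant z ^ j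
  map_add' A B := by
    funext z
    change (∑ x, ((A x : ℍ → ℂ) z + (B x : ℍ → ℂ) z) * F x z (x0 N)) /
      ModularForm.discriminant z ^ j = (∑ x, (A x : ℍ → ℂ) z * F x z (x0 N)) /
      ModularForm.discriminant z ^ j + (∑ x, (B x : ℍ → ℂ) z * F x z (x0 N)) /
      ModularForm.discriminant z ^ j
    simp only [add_mul, Finset.sum_add_distrib, add_div]
  map_smul' c A := by
    funext z
    change (∑ x, (c * (A x : ℍ → ℂ) z) * F x z (x0 N)) /
      ModularForm.discriminant z ^ j = c * ((∑ x, (A x : ℍ → ℂ) z * F x z (x0 N)) /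
      ModularForm.discriminant z ^ j)
    simp only [mul_assoc, ← Finset.mul_sum, mul_div_assoc]

omit [NeZero N] in
theorem vmA {k : XX N → ℤ} {F : XX N → ℍ → XX N → ℂ} (hF : IsBas N k F) (j : ℕ)
    (A : (x : XX N) → FreP.RR (12 * (j : ℤ) - k x)) :
    VM N (12 * (j : ℤ)) (fun z y => ∑ x, (A x : ℍ → ℂ) z * F x z y) :=
  vm_sum hF.vm fun x => (A x).2

omit [NeZero N] in
theorem Ph_inj {k : XX N → ℤ} {F : XX N → ℍ → XX N → ℂ} (hF : IsBas N k F) (j : ℕ) :
    LinearMap.ker (Ph k F j) = ⊥ := by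
  rw [LinearMap.ker_eq_bot']
  intro A hA
  have h1 : ∀ z, (fun z y => ∑ x, (A x : ℍ → ℂ) z * F x z y) z (x0 N) = 0 := by
    intro z
    have h2 := congrFun hA z
    change (∑ x, (A x : ℍ → ℂ) z * F x z (x0 N)) / ModularForm.discriminant z ^ j = 0 at h2
    exact (div_eq_zero_iff.1 h2).resolve_right (pow_ne_zero j (ModularForm.discriminant_ne_zero z))
  have h3 := Cdm.eq_zero_of_x0 (vmA hF j A) h1
  have h4 := hF.uniq (12 * (j : ℤ)) (fun x => (A x : ℍ → ℂ)) (fun x => (A x).2) (fun z y => by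
    rw [tsum_fintype]
    exact h3 z y)
  funext x
  apply Subtype.ext
  funext z
  exact h4 x z

end map

end Pool.Agent.K4H13.CV.HpvP

namespace Pool.Agent.K4H13.CV

/-- HPV -/
theorem hpv (hs : S_SPAN) (hf : S_FREE) (hw : S_WT) : S_HPV := by
  intro N _ hN hN2
  obtain ⟨k, F, hF⟩ := hf N hN
  have : Fact N.Prime := ⟨hN⟩
  have hc : Nat.card (XX N) = N + 1 := Sml.card_XX
  have : Finite (XX N) := Nat.finite_of_card_ne_zero (by omega)
  let _ : Fintype (XX N) := Fintype.ofFinite _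
  have hk := hw N hN hN2 k F hF
  refine ⟨(∑ x, k x).toNat, fun j hj => ?_⟩
  have hkl : ∀ x, k x ≤ 12 * (j : ℤ) := by
    intro x
    have h1 : k x ≤ ∑ x, k x :=
      Finset.single_le_sum (f := k) (fun y _ => hF.nonneg y) (Finset.mem_univ x)
    have h2 : 0 ≤ k x := hF.nonneg x
    omega
  have hcount := HpvP.count hs hN hF hk (by rw [← Nat.card_eq_fintype_card]; exact hc)
    (12 * (j : ℤ)) (Dvd.intro _ rfl) hkl
  let V := (x : XX N) → FreP.RR (12 * (j : ℤ) - k x)
  let b := Module.finBasis ℂ V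
  refine ⟨Module.finrank ℂ V, fun i => HpvP.Ph k F j (b i), ?_, fun i => ?_, ?_⟩
  · exact b.linearIndependent.map' (HpvP.Ph k F j) (HpvP.Ph_inj hF j)
  · exact HpvP.lx (HpvP.vmA hF j (b i))
  · rw [Module.finrank_pi_fintype]
    exact hcount

end Pool.Agent.K4H13.CV
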