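import Pool.Agent.K4H13.CV.Bd
import Pool.Agent.Y18.BSD.Lf

/-!
# Project CV: the central value is the boundary value of the primitive
-/

set_option autoImplicit false

open Complex Filter Topology Set UpperHalfPlane MatrixGroups CongruenceSubgroup ZMod

namespace Pool.Agent.K4H13.CV

open Pool.Agent.TH940 (prim prim_deriv Fr prim_fricke Pers prim_near prim_line exp_norm coeff_bd mellin2)
open Pool.Agent.Y18.BSD
open Pool.Agent.W440.TW (t_twist)

variable {N : ℕ} [NeZero N]

/-- `L` is the entire continuation of `∑ λ_f(n) n^(-s)` -/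
structure IsL (f : Cf2 N) (L : ℂ → ℂ) : Prop where
  diff : Differentiable ℂ L
  eq : ∀ s : ℂ, 3 < s.re → L s = ∑' n : ℕ, (W388.lamf f n : ℂ) * (n : ℂ) ^ (-s)

lemma IsL.unique {f : Cf2 N} {L L' : ℂ → ℂ} (h : IsL f L) (h' : IsL f L') : L = L' := by
  have hFa : AnalyticOnNhd ℂ L univ := fun z _ => h.diff.analyticAt z
  have hGa : AnalyticOnNhd ℂ L' univ := fun z _ => h'.diff.analyticAt z
  refine hFa.eq_of_eventuallyEq hGa (z₀ := ((4 : ℝ) : ℂ)) ?_
  have : ∀ᶠ z in 𝓝 (((4 : ℝ)) : ℂ), 3 < z.re := by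
    refine (Complex.continuous_re.isOpen_preimage _ isOpen_Ioi).mem_nhds ?_
    show (3 : ℝ) < (((4 : ℝ)) : ℂ).re
    rw [Complex.ofReal_re]
    norm_num
  filter_upwards [this] with z hz
  rw [h.eq z hz, h'.eq z hz]

lemma exists_IsL {f : Cf2 N} {ε : ℝ} (hf : W388.IsNewf N 2 f ε) :
    ∃ L : ℂ → ℂ, IsL f L ∧ L (1 / 2) = bv f 0 := by
  have hN1 : (1 : ℝ) ≤ N := by exact_mod_cast Nat.pos_of_ne_zero (NeZero.ne N)
  have hs1 : (1 : ℝ) ≤ Real.sqrt N := by rw [Real.one_le_sqrt]; exact hN1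
  have hχ : (1 : DirichletCharacter ℂ 1).IsPrimitive := DirichletCharacter.isPrimitive_one_level_one
  obtain ⟨C, hC0, hC⟩ := coeff_bd f
  obtain ⟨K, -, hK⟩ := mellin2 1 C (by norm_num) (by norm_num)
  obtain ⟨w', hw', hth⟩ := t_twist N 2 (by norm_num) f ε hf 1 1 hχ (Nat.coprime_one_left N)
  obtain ⟨F, hF1, hF2, hF3, -⟩ := hK (fun n => (1 : DirichletCharacter ℂ 1) (n : ZMod 1) * (qExpansion 1 f).coeff n)
    (Real.sqrt N * (1 : ℕ)) (by push_cast; nlinarith) (by rw [W388.coeff_zero f, mul_zero])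
    (fun n hn => by
      rw [norm_mul]
      have h1 := DirichletCharacter.norm_le_one (1 : DirichletCharacter ℂ 1) (n : ZMod 1)
      calc ‖(1 : DirichletCharacter ℂ 1) (n : ZMod 1)‖ * ‖(qExpansion 1 f).coeff n‖ ≤ 1 * ‖(qExpansion 1 f).coeff n‖ :=
            mul_le_mul_of_nonneg_right h1 (norm_nonneg _)
        _ ≤ _ := by rw [one_mul]; exact hC n hn) w' hw'
    (fun t ht => by
      have := hth t ht
      rw [zpow_ofNat] at this
      exact this)
  have hone : ∀ n : ℕ, (1 : DirichletCharacter ℂ 1) (n : ZMod 1) = 1 := fun n =>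
    MulChar.one_apply (isUnit_of_subsingleton _)
  refine ⟨F, ⟨hF1, fun s hs => ?_⟩, ?_⟩
  · rw [hF2 s (by linarith)]
    refine tsum_congr fun n => ?_
    rw [hone, one_mul]
    have hre : (((qExpansion 1 f).coeff n).re : ℂ) = (qExpansion 1 f).coeff n := by
      apply Complex.ext
      · rw [Complex.ofReal_re]
      · rw [Complex.ofReal_im]; exact (hf.real n).symm
    rcases Nat.eq_zero_or_pos n with rfl | hn
    · unfold W388.lamf
      rw [W388.coeff_zero f]
      simp
    · have hn' : (0 : ℝ) < n := by exact_mod_cast hn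
      have hnc : (n : ℂ) ≠ 0 := by exact_mod_cast hn.ne'
      unfold W388.lamf
      have e1 : ((((2 : ℤ) : ℝ) - 1) / 2) = 1 / 2 := by norm_num
      rw [e1, Complex.ofReal_div, hre, Complex.ofReal_cpow hn'.le, neg_add, Complex.cpow_add _ _ hnc]
      push_cast
      rw [Complex.cpow_neg (n : ℂ) (1 / 2)]
      ring
  · have h1 := link f (newf_fr hf) 1 (Nat.coprime_one_left N) 1 hχ (F (1 / 2)) w'
      (fun X Y hX hY hXY => by
        rw [inv_one]
        refine hF3 X Y hX hY ?_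
        rw [hXY, mul_pow, Real.sq_sqrt (by linarith)])
    have h2 : gaussSum (1 : DirichletCharacter ℂ 1) (stdAddChar (N := 1)) = 1 := by
      unfold gaussSum
      rw [Fintype.sum_unique, MulChar.one_apply (isUnit_of_subsingleton _), one_mul]
      have h4 : ∀ x : ZMod 1, stdAddChar (N := 1) x = 1 := fun x => by
        rw [Subsingleton.elim x 0, AddChar.map_zero_eq_one]
      exact h4 _
    rw [h2, one_mul, Fintype.sum_unique, MulChar.one_apply (isUnit_of_subsingleton _), one_mul] at h1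
    rw [h1]
    have h3 : (((default : (ZMod 1)ˣ) : ZMod 1)).val = 0 := by
      rw [Subsingleton.elim (((default : (ZMod 1)ˣ) : ZMod 1)) 0]
      exact ZMod.val_zero
    rw [h3]
    simp

theorem lv_eq {f : Cf2 N} {ε : ℝ} (hf : W388.IsNewf N 2 f ε) {L : ℂ → ℂ} (hL : IsL f L) :
    L (1 / 2) = bv f 0 := by
  obtain ⟨L', h1, h2⟩ := exists_IsL hf
  rw [hL.unique h1, h2]

end Pool.Agent.K4H13.CV
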