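import Pool.Agent.K4H13.CV.Stm2
import Pool.Agent.K4H13.CV.Mem

/-!
# Periods are integral combinations of the modular symbols
-/

set_option autoImplicit false

open Complex Filter Topology Set UpperHalfPlane MatrixGroups CongruenceSubgroup
open Matrix.SpecialLinearGroup
open scoped Manifold ModularForm

namespace Pool.Agent.K4H13.CV.PathP

open Pool.Agent.K4H13.CV
open Pool.Agent.TH940 (prim Fr prim_fricke prim_line)
open Pool.Agent.Y18.BSD

variable {N : ℕ}

/-- the coset of `g` -/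
def cg (N : ℕ) (g : SL(2, ℤ)) : XX N := QuotientGroup.mk g⁻¹

theorem gx_mem' (x : XX N) : cg N (gx x) = x := by
  rw [cg, gx, inv_inv]
  exact Quotient.out_eq x

theorem cg_mul (g h : SL(2, ℤ)) : cg N (g * h) = h⁻¹ • cg N g := by
  rw [cg, mul_inv_rev]
  rfl

theorem cg_eq_x0 (g : SL(2, ℤ)) : cg N g = x0 N ↔ g ∈ Gamma0 N := by
  rw [cg, x0, QuotientGroup.eq, inv_inv, mul_one]

/-- the representative of the coset of `g` -/
theorem gx_cg (g : SL(2, ℤ)) : ∃ δ ∈ Gamma0 N, gx (cg N g) = δ * g := by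
  have h := gx_mem' (cg N g)
  rw [cg, cg, QuotientGroup.eq, inv_inv] at h
  exact ⟨_, h, by rw [mul_assoc, inv_mul_cancel, mul_one]; rfl⟩

theorem T_mem : ModularGroup.T ∈ Gamma0 N := by
  rw [Gamma0_mem]
  simp [ModularGroup.T]

theorem decomp (hN : N.Prime) (g : SL(2, ℤ)) : ∃ δ ∈ Gamma0 N, g = δ ∨
    ∃ j : ℤ, g = δ * (ModularGroup.S * ModularGroup.T ^ j) := by
  by_cases hg : (N : ℤ) ∣ g 1 0
  · refine ⟨g, ?_, Or.inl rfl⟩
    rw [Gamma0_mem]
    rwa [ZMod.intCast_zmod_eq_zero_iff_dvd]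
  · have hco : IsCoprime (g 1 0) (N : ℤ) := by
      rw [Int.isCoprime_iff_gcd_eq_one, Int.gcd_comm]
      exact (Nat.Prime.coprime_iff_not_dvd hN).2 (fun h => hg (Int.natCast_dvd.2 h))
    obtain ⟨u, v, huv⟩ := hco
    -- `u * c + v * N = 1`
    refine ⟨g * (ModularGroup.S * ModularGroup.T ^ (u * g 1 1))⁻¹, ?_, Or.inr ⟨u * g 1 1, by group⟩⟩
    rw [Gamma0_mem]
    have h1 : ((g * (ModularGroup.S * ModularGroup.T ^ (u * g 1 1))⁻¹) 1 0 : ℤ) =
        (N : ℤ) * (- v * g 1 1) := by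
      rw [mul_inv_rev, ← zpow_neg]
      have h2 := ModularGroup.coe_T_zpow (-(u * g 1 1))
      simp only [Matrix.SpecialLinearGroup.coe_mul, Matrix.mul_apply, Fin.sum_univ_two, h2,
        Matrix.SpecialLinearGroup.coe_inv, Matrix.adjugate_fin_two, ModularGroup.S]
      simp
      linear_combination (g 1 1) * huv
    rw [h1]
    simp

/-! ### the values at the cusps -/

variable [NeZero N]

/-- the points `x + i T` -/
noncomputable def pt (x T : ℝ) : ℍ := ofComplex ((x : ℂ) + (T : ℂ) * Complex.I)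

theorem pt_coe {x T : ℝ} (hT : 0 < T) : ((pt x T : ℍ) : ℂ) = (x : ℂ) + (T : ℂ) * Complex.I := by
  rw [pt, ofComplex_apply_of_im_pos (by simpa using hT)]

/-- the primitive has the value `c` at `g ∞`, along all vertical lines -/
def HasV (f : Cf2 N) (g : SL(2, ℤ)) (c : ℂ) : Prop :=
  ∀ x : ℝ, Tendsto (fun T : ℝ => prim f ((g • pt x T : ℍ) : ℂ)) atTop (𝓝 c)

theorem HasV.CC_eq {f : Cf2 N} {g : SL(2, ℤ)} {c : ℂ} (h : HasV f g c) : CC f g = c := by
  have h1 := h 0
  refine Tendsto.limUnder_eq (h1.congr fun T => ?_)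
  rw [pt]
  simp

theorem hasV_one (f : Cf2 N) : HasV f 1 0 := by
  intro x
  refine (prim_line f x).congr' ?_
  filter_upwards [eventually_gt_atTop 0] with T hT
  rw [one_smul, pt_coe hT]

theorem HasV.mul_left {f : Cf2 N} {g : SL(2, ℤ)} {c : ℂ} (h : HasV f g c) (δ : Gamma0 N) :
    HasV f ((δ : SL(2, ℤ)) * g) (c + per f δ) := by
  intro x
  refine ((h x).add_const (per f δ)).congr fun T => ?_
  rw [mul_smul, per_spec]

theorem HasV.mul_T {f : Cf2 N} {g : SL(2, ℤ)} {c : ℂ} (h : HasV f g c) (n : ℤ) :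
    HasV f (g * ModularGroup.T ^ n) c := by
  intro x
  refine (h (x + n)).congr' ?_
  filter_upwards [eventually_gt_atTop 0] with T hT
  rw [mul_smul]
  congr 4
  ext
  rw [ModularGroup.coe_T_zpow_smul_eq, pt_coe hT, pt_coe hT]
  push_cast
  ring

theorem hasV_S {f : Cf2 N} {ε : ℝ} (hf : W388.IsNewf N 2 f ε) :
    ∃ c, HasV f ModularGroup.S c := by
  obtain ⟨c0, hc0⟩ := prim_fricke f (ε : ℂ) (newf_fr hf)
  have hN0 : (0 : ℝ) < N := Nat.cast_pos.2 (Nat.pos_of_ne_zero (NeZero.ne N))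
  have hNc : (N : ℂ) ≠ 0 := Nat.cast_ne_zero.2 (NeZero.ne N)
  refine ⟨c0 - ε * 0, fun x => ?_⟩
  have h1 : Tendsto (fun T : ℝ => T / N) atTop atTop := tendsto_id.atTop_div_const hN0
  have h2 := (((prim_line f (x / N)).comp h1).const_mul (ε : ℂ)).const_sub c0
  refine h2.congr' ?_
  filter_upwards [eventually_gt_atTop 0] with T hT
  have h3 : 0 < (((x / N : ℝ) : ℂ) + ((T / N : ℝ) : ℂ) * Complex.I).im := by
    have : 0 < T / N := by positivity
    simpa using this
  have h4 := hc0 _ h3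
  simp only [Function.comp]
  rw [← h4]
  congr 1
  rw [modular_S_smul, coe_mk, pt_coe hT]
  have h5 : (x : ℂ) + (T : ℂ) * Complex.I ≠ 0 := by
    intro h
    have := congrArg Complex.im h
    simp at this
    linarith
  push_cast
  field_simp

theorem exists_HasV (hN : N.Prime) {f : Cf2 N} {ε : ℝ} (hf : W388.IsNewf N 2 f ε)
    (g : SL(2, ℤ)) : ∃ c, HasV f g c := by
  obtain ⟨δ, hδ, h⟩ := decomp hN g
  rcases h with rfl | ⟨j, rfl⟩
  · have := (hasV_one f).mul_left ⟨g, hδ⟩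
    rw [mul_one] at this
    exact ⟨_, this⟩
  · obtain ⟨c, hc⟩ := hasV_S hf
    exact ⟨_, (hc.mul_T j).mul_left ⟨δ, hδ⟩⟩

theorem CC_one (f : Cf2 N) : CC f 1 = 0 := (hasV_one f).CC_eq

theorem CC_mul_left (hN : N.Prime) {f : Cf2 N} {ε : ℝ} (hf : W388.IsNewf N 2 f ε) (δ : Gamma0 N)
    (g : SL(2, ℤ)) : CC f ((δ : SL(2, ℤ)) * g) = CC f g + per f δ := by
  obtain ⟨c, hc⟩ := exists_HasV hN hf g
  rw [(hc.mul_left δ).CC_eq, hc.CC_eq]

theorem CC_mul_T (hN : N.Prime) {f : Cf2 N} {ε : ℝ} (hf : W388.IsNewf N 2 f ε) (n : ℤ)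
    (g : SL(2, ℤ)) : CC f (g * ModularGroup.T ^ n) = CC f g := by
  obtain ⟨c, hc⟩ := exists_HasV hN hf g
  rw [(hc.mul_T n).CC_eq, hc.CC_eq]

/-- the symbol of the coset of `g` -/
theorem dd_cg (hN : N.Prime) {f : Cf2 N} {ε : ℝ} (hf : W388.IsNewf N 2 f ε) (g : SL(2, ℤ)) :
    dd f (cg N g) = CC f (g * ModularGroup.S) - CC f g := by
  obtain ⟨δ, hδ, h⟩ := gx_cg (N := N) g
  rw [dd, h, mul_assoc, CC_mul_left hN hf ⟨δ, hδ⟩, CC_mul_left hN hf ⟨δ, hδ⟩]
  ring

/-! ### the induction -/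

open Classical in
/-- `1` if the cusp `g ∞` is equivalent to `0` -/
noncomputable def cl (N : ℕ) (g : SL(2, ℤ)) : ℤ := if cg N g = x0 N then 0 else 1

theorem T_zpow_smul_x0 (n : ℤ) : ModularGroup.T ^ n • x0 N = x0 N := by
  have h : (cg N (ModularGroup.T ^ (-n)) : XX N) = x0 N := by
    rw [cg_eq_x0]
    exact zpow_mem T_mem _
  have h2 := cg_mul (N := N) 1 (ModularGroup.T ^ (-n))
  rw [one_mul, h, (cg_eq_x0 1).2 (one_mem _), zpow_neg, inv_inv] at h2
  exact h2.symm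

theorem cl_mul_T (g : SL(2, ℤ)) (n : ℤ) : cl N (g * ModularGroup.T ^ n) = cl N g := by
  have : cg N (g * ModularGroup.T ^ n) = x0 N ↔ cg N g = x0 N := by
    rw [cg_mul, inv_smul_eq_iff, T_zpow_smul_x0]
  by_cases h : cg N g = x0 N
  · rw [cl, cl, if_pos h, if_pos (this.2 h)]
  · rw [cl, cl, if_neg h, if_neg fun h' => h (this.1 h')]

theorem cl_mul_S (g : SL(2, ℤ)) : cl N (g * ModularGroup.S) = cl N g + bd (cg N g) := by
  have : cg N (g * ModularGroup.S) = x0 N ↔ cg N g = ModularGroup.S • x0 N := by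
    rw [cg_mul, inv_smul_eq_iff]
  simp only [cl, bd]
  split_ifs with h1 h2 h3 h3 h2 h3 h3 <;> first | rfl | (exfalso; tauto)

/-- the statement of the induction -/
def Good (N : ℕ) [NeZero N] (g : SL(2, ℤ)) : Prop := ∃ n : XX N → ℤ,
  (∀ (f : Cf2 N) (ε : ℝ), W388.IsNewf N 2 f ε → CC f g = ∑' x : XX N, (n x : ℂ) * dd f x) ∧
  ∑' x : XX N, n x * bd x = cl N g

instance : Finite (XX N) := Subgroup.finite_quotient_of_finiteIndex

open Classical in
theorem sum_single {R : Type} [Ring R] [TopologicalSpace R] (n : XX N → ℤ) (φ : XX N → R)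
    (y : XX N) (m : ℤ) :
    ∑' x : XX N, (((n x + if x = y then m else 0 : ℤ)) : R) * φ x =
      (∑' x : XX N, (n x : R) * φ x) + m * φ y := by
  let _ : Fintype (XX N) := Fintype.ofFinite _
  rw [tsum_fintype, tsum_fintype]
  have : ∀ x, (((n x + if x = y then m else 0 : ℤ)) : R) * φ x =
      (n x : R) * φ x + (if x = y then (m : R) * φ y else 0) := by
    intro x
    split_ifs with h
    · rw [h]
      push_cast
      rw [add_mul]
    · simp
  rw [Finset.sum_congr rfl fun x _ => this x, Finset.sum_add_distrib, Finset.sum_ite_eq']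
  simp

open Classical in
theorem Good.step {g h : SL(2, ℤ)} (hg : Good N g) (y : XX N) (m : ℤ)
    (h1 : ∀ (f : Cf2 N) (ε : ℝ), W388.IsNewf N 2 f ε → CC f h = CC f g + m * dd f y)
    (h2 : cl N h = cl N g + m * bd y) : Good N h := by
  obtain ⟨n, hn, hn'⟩ := hg
  refine ⟨fun x => n x + if x = y then m else 0, fun f ε hf => ?_, ?_⟩
  · rw [h1 f ε hf, hn f ε hf, sum_single n (fun x => dd f x) y m]
  · have := sum_single (R := ℤ) n (fun x => bd x) y m
    simp only [Int.cast_id] at this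
    rw [this, hn', h2]

theorem Good.same {g h : SL(2, ℤ)} (hg : Good N g)
    (h1 : ∀ (f : Cf2 N) (ε : ℝ), W388.IsNewf N 2 f ε → CC f h = CC f g)
    (h2 : cl N h = cl N g) : Good N h := by
  obtain ⟨n, hn, hn'⟩ := hg
  exact ⟨n, fun f ε hf => by rw [h1 f ε hf, hn f ε hf], by rw [hn', h2]⟩

theorem good_one : Good N 1 := by
  refine ⟨fun _ => 0, fun f ε _ => ?_, ?_⟩
  · rw [CC_one]
    simp
  · have : cg N 1 = x0 N := (cg_eq_x0 1).2 (one_mem _)
    simp [cl, this]

theorem good_all (hN : N.Prime) (g : SL(2, ℤ)) : Good N g := by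
  have hg : g ∈ Subgroup.closure ({ModularGroup.S, ModularGroup.T} : Set SL(2, ℤ)) := by
    rw [SpecialLinearGroup.SL2Z_generators]
    exact Subgroup.mem_top g
  induction hg using Subgroup.closure_induction_right with
  | one => exact good_one
  | mul_right g hg s hs ih =>
    rcases hs with rfl | rfl
    · refine ih.step (cg N g) 1 (fun f ε hf => ?_) ?_
      · rw [dd_cg hN hf]
        push_cast
        ring
      · rw [cl_mul_S]
        ring
    · have e : g * ModularGroup.T = g * ModularGroup.T ^ (1 : ℤ) := by rw [zpow_one]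
      rw [e]
      exact ih.same (fun f ε hf => CC_mul_T hN hf 1 g) (cl_mul_T g 1)
  | mul_inv_cancel g hg s hs ih =>
    rcases hs with rfl | rfl
    · refine ih.step (cg N (g * ModularGroup.S⁻¹)) (-1) (fun f ε hf => ?_) ?_
      · rw [dd_cg hN hf, inv_mul_cancel_right]
        push_cast
        ring
      · have := cl_mul_S (N := N) (g * ModularGroup.S⁻¹)
        rw [inv_mul_cancel_right] at this
        rw [this]
        ring
    · have e : g * ModularGroup.T⁻¹ = g * ModularGroup.T ^ (-1 : ℤ) := by rw [zpow_neg, zpow_one]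
      rw [e]
      exact ih.same (fun f ε hf => CC_mul_T hN hf (-1) g) (cl_mul_T g (-1))

end Pool.Agent.K4H13.CV.PathP

namespace Pool.Agent.K4H13.CV

open Pool.Agent.Y18.BSD

/-- PATH -/
theorem path : S_PATH := by
  intro N _ hN γ
  obtain ⟨n, hn, hn'⟩ := PathP.good_all hN (γ : SL(2, ℤ))
  refine ⟨n, fun f ε hf => ?_, ?_⟩
  · rw [← hn f ε hf]
    have := PathP.CC_mul_left hN hf γ 1
    rw [mul_one, PathP.CC_one, zero_add] at this
    exact this.symm
  · rw [hn']
    simp [PathP.cl, (PathP.cg_eq_x0 (γ : SL(2, ℤ))).2 γ.2]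

end Pool.Agent.K4H13.CV
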