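import Pool.Agent.K4H13.CV.Stm2
import Pool.Agent.W120.LV.Strip

/-!
# Project CV, part L : the Petersson norm as a sum over the cosets
-/

set_option autoImplicit false

open Complex Filter Topology Set UpperHalfPlane MatrixGroups CongruenceSubgroup MeasureTheory
open scoped Manifold ModularForm ENNReal

namespace Pool.Agent.K4H13.CV

open Pool.Agent.W165.RS (FF FF_eq FF_meas measurableSet_fd lintegral_coe measurable_smul_SL)
open W388.LV (SF pet)

/-- the fundamental domain in coordinates -/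
def DD : Set (ℝ × ℝ) := {p : ℝ × ℝ | |p.1| ≤ 1 / 2 ∧ 1 ≤ p.1 ^ 2 + p.2 ^ 2 ∧ 0 < p.2}

theorem measurableSet_DD : MeasurableSet DD := by
  have h1 : Measurable (fun p : ℝ × ℝ => |p.1|) := by fun_prop
  have h2 : Measurable (fun p : ℝ × ℝ => p.1 ^ 2 + p.2 ^ 2) := by fun_prop
  exact (measurableSet_le h1 measurable_const).inter
    ((measurableSet_le measurable_const h2).inter
      (measurableSet_lt measurable_const measurable_snd))

theorem mem_fd_iff (z : ℍ) : z ∈ (ModularGroup.fd : Set ℍ) ↔ (z.re, z.im) ∈ DD := by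
  have h : Complex.normSq (z : ℂ) = z.re ^ 2 + z.im ^ 2 := by
    rw [Complex.normSq_apply, coe_re, coe_im]; ring
  constructor
  · rintro ⟨h1, h2⟩
    rw [h] at h1
    exact ⟨h2, h1, z.im_pos⟩
  · rintro ⟨h1, h2, _⟩
    refine ⟨?_, h1⟩
    rw [h]; exact h2

theorem lint_fd (F : ℍ → ℝ≥0∞) (hF : Measurable F) :
    ∫⁻ z in (ModularGroup.fd : Set ℍ), F z * ENNReal.ofReal (z.im ^ 2) =
      ∫⁻ p in DD, F (ofComplex ((p.1 : ℂ) + (p.2 : ℂ) * Complex.I)) := by
  set H : ℍ → ℝ≥0∞ := (ModularGroup.fd : Set ℍ).indicator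
    (fun z : ℍ => F z * ENNReal.ofReal (z.im ^ 2)) with hH
  have hHm : Measurable H := by
    refine Measurable.indicator ?_ measurableSet_fd
    exact hF.mul (ENNReal.measurable_ofReal.comp
      (UpperHalfPlane.continuous_im.measurable.pow_const 2))
  have hm : Measurable (Function.extend UpperHalfPlane.coe H (0 : ℂ → ℝ≥0∞)) :=
    measurableEmbedding_coe.measurable_extend hHm measurable_const
  have h1 : ∫⁻ z : ℍ, H z = ∫⁻ z : ℍ, (Function.extend UpperHalfPlane.coe H (0 : ℂ → ℝ≥0∞)) z := by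
    refine lintegral_congr fun z => ?_
    rw [measurableEmbedding_coe.injective.extend_apply]
  have hm1 : Measurable (fun z : ℂ => Function.extend UpperHalfPlane.coe H (0 : ℂ → ℝ≥0∞) z *
      ENNReal.ofReal ((1 / z.im) ^ 2)) := by
    refine hm.mul (ENNReal.measurable_ofReal.comp ?_)
    exact (measurable_const.div Complex.measurable_im).pow_const 2
  have hmS : MeasurableSet {z : ℂ | 0 < z.im} :=
    measurableSet_lt measurable_const Complex.measurable_im
  have hm2 := hm1.indicator hmS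
  rw [← lintegral_indicator measurableSet_fd, ← hH, h1, lintegral_coe _ hm,
    ← lintegral_indicator hmS, ← Complex.volume_preserving_equiv_real_prod.symm.lintegral_comp hm2,
    ← lintegral_indicator measurableSet_DD]
  refine lintegral_congr fun p => ?_
  have e : Complex.measurableEquivRealProd.symm p = (p.1 : ℂ) + (p.2 : ℂ) * Complex.I := by
    apply Complex.ext <;> simp [Complex.measurableEquivRealProd]
  have eim : ((p.1 : ℂ) + (p.2 : ℂ) * Complex.I).im = p.2 := by simp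
  have ere : ((p.1 : ℂ) + (p.2 : ℂ) * Complex.I).re = p.1 := by simp
  rw [e]
  by_cases hy : 0 < p.2
  · have hpos : 0 < ((p.1 : ℂ) + (p.2 : ℂ) * Complex.I).im := by rw [eim]; exact hy
    rw [Set.indicator_of_mem (show ((p.1 : ℂ) + (p.2 : ℂ) * Complex.I) ∈ {z : ℂ | 0 < z.im} from hpos)]
    set w : ℍ := ⟨(p.1 : ℂ) + (p.2 : ℂ) * Complex.I, hpos⟩ with hw
    have hwc : (w : ℂ) = (p.1 : ℂ) + (p.2 : ℂ) * Complex.I := rfl
    have hwim : w.im = p.2 := by rw [← coe_im, hwc, eim]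
    have hwre : w.re = p.1 := by rw [← coe_re, hwc, ere]
    have hex : Function.extend UpperHalfPlane.coe H (0 : ℂ → ℝ≥0∞)
        ((p.1 : ℂ) + (p.2 : ℂ) * Complex.I) = H w := by
      rw [← hwc, measurableEmbedding_coe.injective.extend_apply]
    have hof : ofComplex ((p.1 : ℂ) + (p.2 : ℂ) * Complex.I) = w := ofComplex_apply_of_im_pos hpos
    rw [hex, eim]
    by_cases hp : p ∈ DD
    · rw [Set.indicator_of_mem hp, hof, hH, Set.indicator_of_mem ((mem_fd_iff w).2 (by
        rw [hwre, hwim]; exact hp)), mul_assoc, ← ENNReal.ofReal_mul (by positivity), hwim]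
      have : p.2 ^ 2 * (1 / p.2) ^ 2 = 1 := by field_simp
      rw [this, ENNReal.ofReal_one, mul_one]
    · rw [Set.indicator_of_notMem hp, hH, Set.indicator_of_notMem (fun h => hp (by
        have := (mem_fd_iff w).1 h
        rw [hwre, hwim] at this; exact this)), zero_mul]
  · rw [Set.indicator_of_notMem (fun h => hy (by
      have h' : 0 < ((p.1 : ℂ) + (p.2 : ℂ) * Complex.I).im := h
      rwa [eim] at h')), Set.indicator_of_notMem (fun h => hy h.2.2)]

/-- the slashed form is holomorphic -/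
theorem slash_mdiff {N : ℕ} (h : Cf2 N) (g : SL(2, ℤ)) :
    MDiff ((h : ℍ → ℂ) ∣[(2 : ℤ)] g) := by
  rw [ModularForm.SL_slash]
  exact MDifferentiable.slash (CuspFormClass.holo h) 2 _

theorem FF_slash {N : ℕ} [NeZero N] (h : Cf2 N) (g : SL(2, ℤ)) (z : ℍ) :
    FF h (g • z) = ENNReal.ofReal (‖((h : ℍ → ℂ) ∣[(2 : ℤ)] g) z‖ ^ 2) *
      ENNReal.ofReal (z.im ^ 2) := by
  rw [FF_eq, ← petersson_slash_SL, ← ENNReal.ofReal_mul (by positivity)]
  congr 1
  unfold petersson
  rw [norm_mul, norm_mul, RCLike.norm_conj, norm_zpow, Complex.norm_real,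
    Real.norm_of_nonneg z.im_pos.le, zpow_ofNat]
  ring

theorem pet_sum : S_PET := by
  intro N _ h
  classical
  have : Finite (SL(2, ℤ) ⧸ Gamma0 N) := Subgroup.finite_quotient_of_finiteIndex
  have := Fintype.ofFinite (SL(2, ℤ) ⧸ Gamma0 N)
  have hcont : ∀ g : SL(2, ℤ), Continuous ((h : ℍ → ℂ) ∣[(2 : ℤ)] g) := fun g =>
    (slash_mdiff h g).continuous
  have hmeas : ∀ g : SL(2, ℤ), Measurable
      (fun z : ℍ => ENNReal.ofReal (‖((h : ℍ → ℂ) ∣[(2 : ℤ)] g) z‖ ^ 2)) := fun g =>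
    ENNReal.measurable_ofReal.comp ((hcont g).measurable.norm.pow_const 2)
  have h0 := W120.LV.lint_ne_top (N := N) (k := 2) h
  have h2 : ∀ x : SL(2, ℤ) ⧸ Gamma0 N, (fun z : ℍ => FF h ((Quotient.out x)⁻¹ • z)) =
      fun z => ENNReal.ofReal (‖((h : ℍ → ℂ) ∣[(2 : ℤ)] gx x) z‖ ^ 2) *
        ENNReal.ofReal (z.im ^ 2) := fun x => funext fun z => FF_slash h (gx x) z
  have hmz : Measurable (fun z : ℍ => ENNReal.ofReal (z.im ^ 2)) :=
    ENNReal.measurable_ofReal.comp (UpperHalfPlane.continuous_im.measurable.pow_const 2)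
  have h3 : ∫⁻ z in (ModularGroup.fd : Set ℍ),
      ∑' x : SL(2, ℤ) ⧸ Gamma0 N, FF h ((Quotient.out x)⁻¹ • z) =
      ∑ x : SL(2, ℤ) ⧸ Gamma0 N, ∫⁻ p in DD, ENNReal.ofReal
        (‖((h : ℍ → ℂ) ∣[(2 : ℤ)] gx x) (ofComplex ((p.1 : ℂ) + (p.2 : ℂ) * Complex.I))‖ ^ 2) := by
    simp_rw [tsum_fintype]
    rw [lintegral_finsetSum]
    · refine Finset.sum_congr rfl fun x _ => ?_
      rw [h2 x]
      exact lint_fd _ (hmeas (gx x))
    · intro x _
      rw [h2 x]
      exact (hmeas (gx x)).mul hmz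
  have h4 : ∀ x : SL(2, ℤ) ⧸ Gamma0 N, (∫⁻ p in DD, ENNReal.ofReal
        (‖((h : ℍ → ℂ) ∣[(2 : ℤ)] gx x) (ofComplex ((p.1 : ℂ) + (p.2 : ℂ) * Complex.I))‖ ^ 2)).toReal
      = ∫ p in DD,
        ‖((h : ℍ → ℂ) ∣[(2 : ℤ)] gx x) (ofComplex ((p.1 : ℂ) + (p.2 : ℂ) * Complex.I))‖ ^ 2 := by
    intro x
    rw [integral_eq_lintegral_of_nonneg_ae]
    · exact Filter.Eventually.of_forall fun p => by positivity
    · refine ContinuousOn.aestronglyMeasurable ?_ measurableSet_DD
      refine (ContinuousOn.norm ?_).pow 2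
      have hd := (UpperHalfPlane.mdifferentiable_iff.1 (slash_mdiff h (gx x))).continuousOn
      refine hd.comp (f := fun p : ℝ × ℝ => (p.1 : ℂ) + (p.2 : ℂ) * Complex.I)
        (by fun_prop) ?_
      intro p hp
      show 0 < ((p.1 : ℂ) + (p.2 : ℂ) * Complex.I).im
      simpa using hp.2.2
  rw [W120.LV.pet_eq, h3, tsum_fintype, ENNReal.toReal_sum]
  · exact Finset.sum_congr rfl fun x _ => h4 x
  · rw [h3] at h0
    intro x hx
    exact (ENNReal.lt_top_of_sum_ne_top h0 hx).ne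

end Pool.Agent.K4H13.CV
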