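import Pool.Agent.K4H13.CV.Near
import Pool.Agent.W388.LV.D0

/-!
# Project CV, part 2: statements of the pieces of the unconditional proof
-/

set_option autoImplicit false

open Complex Filter Topology Set UpperHalfPlane MatrixGroups CongruenceSubgroup MeasureTheory
open scoped Manifold ModularForm

namespace Pool.Agent.K4H13.CV

open Pool.Agent.TH940 (prim Fr)
open Pool.Agent.Y18.BSD
open W388.LV (SF bf pet IsNewBasis)

/-! ## the cosets -/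

/-- left cosets of `Γ₀(N)`; the right coset `Γ₀(N) g` corresponds to `g⁻¹ Γ₀(N)` -/
abbrev XX (N : ℕ) : Type := SL(2, ℤ) ⧸ Gamma0 N

/-- the representative `g_x` : `g_x⁻¹ ∈ x` -/
noncomputable def gx {N : ℕ} (x : XX N) : SL(2, ℤ) := (Quotient.out x)⁻¹

def x0 (N : ℕ) : XX N := QuotientGroup.mk 1

/-- the element of order 3 (in `PSL₂`) which fixes `ρ = e^(2πi/3)` -/
def UU : SL(2, ℤ) := ModularGroup.S * ModularGroup.T

/-- the functions which are fixed by a permutation -/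
def fixSub (K : Type) [Field K] {X : Type} (σ : Equiv.Perm X) : Submodule K (X → K) where
  carrier := {φ | ∀ x, φ (σ x) = φ x}
  add_mem' := fun {a b} ha hb x => by
    show a (σ x) + b (σ x) = a x + b x
    rw [ha x, hb x]
  zero_mem' := fun _ => rfl
  smul_mem' := fun c a ha x => by
    show c * a (σ x) = c * a x
    rw [ha x]

/-- the number of orbits of `S` on the cosets -/
noncomputable def nS (N : ℕ) : ℕ :=
  Module.finrank ℂ (fixSub ℂ (MulAction.toPerm (ModularGroup.S : SL(2, ℤ)) : Equiv.Perm (XX N)))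

/-- the number of orbits of `ST` on the cosets -/
noncomputable def nU (N : ℕ) : ℕ :=
  Module.finrank ℂ (fixSub ℂ (MulAction.toPerm UU : Equiv.Perm (XX N)))

/-! ## part P : linear algebra -/

/-- PLK -/
def S_PLK : Prop := ∀ (X : Type) [Fintype X] [DecidableEq X] (σ υ : Equiv.Perm X),
  (∀ x, σ (σ x) = x) → (∀ x, υ (υ (υ x)) = x) →
  (∀ φ : X → ℝ, (∀ x, φ (σ x) = φ x) → (∀ x, φ (υ x) = φ x) → ∀ x y, φ x = φ y) →
  ∀ (d : ℕ) (Ψ : Matrix X (Fin d) ℝ), (∀ x i, Ψ x i + Ψ (σ x) i = 0) →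
  (∀ x i, Ψ x i + Ψ (υ x) i + Ψ (υ (υ x)) i = 0) →
  Fintype.card X + 1 ≤ d + Module.finrank ℝ (fixSub ℝ σ) + Module.finrank ℝ (fixSub ℝ υ) →
  ∀ A : Matrix (Fin d) X ℤ, ((A.map (Int.cast : ℤ → ℝ)) * Ψ).det ≠ 0 →
  (Ψ.transpose * Ψ).det ≤ (9 * Fintype.card X : ℝ) ^ (2 * Fintype.card X) *
    ((A.map (Int.cast : ℤ → ℝ)) * Ψ).det ^ 2

/-- FIX : the dimension of the fixed functions does not depend on the field -/
def S_FIX : Prop := ∀ (X : Type) [Finite X] (σ : Equiv.Perm X),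
  Module.finrank ℝ (fixSub ℝ σ) = Module.finrank ℂ (fixSub ℂ σ)

/-! ## part H : Green's formula on the fundamental domain -/

/-- GREEN -/
def S_GREEN : Prop := ∀ (X : Type) [Fintype X] (σ τ : Equiv.Perm X) (G G' : X → ℂ → ℂ) (d : X → ℂ),
  (∀ x z, 0 < z.im → HasDerivAt (G x) (G' x z) z) →
  (∃ K c : ℝ, 0 < c ∧ ∀ x z, 1 / 2 ≤ z.im →
    ‖G x z‖ ≤ K * Real.exp (-(c * z.im)) ∧ ‖G' x z‖ ≤ K * Real.exp (-(c * z.im))) →
  (∀ x z, 0 < z.im → G x (z + 1) = G (τ x) z) →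
  (∀ x z, 0 < z.im → G x (-1 / z) = G (σ x) z + d x) →
  ∑ x, ∫ p in {p : ℝ × ℝ | |p.1| ≤ 1 / 2 ∧ 1 ≤ p.1 ^ 2 + p.2 ^ 2 ∧ 0 < p.2},
    ‖G' x ((p.1 : ℂ) + (p.2 : ℂ) * Complex.I)‖ ^ 2 =
  ∑ x, (d x).re * ((G (σ x) (-1 / 2 + (Real.sqrt 3 / 2 : ℝ) * Complex.I)).im -
    (G (σ x) Complex.I).im)

/-! ## part L : the Petersson norm -/

/-- PET -/
def S_PET : Prop := ∀ (N : ℕ) [NeZero N] (h : Cf2 N), (pet N 2 h h).re =
  ∑' x : XX N, ∫ p in {p : ℝ × ℝ | |p.1| ≤ 1 / 2 ∧ 1 ≤ p.1 ^ 2 + p.2 ^ 2 ∧ 0 < p.2},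
    ‖((h : ℍ → ℂ) ∣[(2 : ℤ)] gx x) (ofComplex ((p.1 : ℂ) + (p.2 : ℂ) * Complex.I))‖ ^ 2

/-! ## part C : the cusps -/

/-- the value of the primitive at the cusp `g ∞` -/
noncomputable def CC {N : ℕ} [NeZero N] (f : Cf2 N) (g : SL(2, ℤ)) : ℂ :=
  limUnder atTop (fun T : ℝ => prim f ((g • (ofComplex ((T : ℂ) * Complex.I)) : ℍ) : ℂ))

/-- the modular symbol `{g_x ∞, g_x 0}` -/
noncomputable def dd {N : ℕ} [NeZero N] (f : Cf2 N) (x : XX N) : ℂ :=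
  CC f (gx x * ModularGroup.S) - CC f (gx x)

/-- the primitive of `2πi f|g_x` which vanishes at `i∞` -/
noncomputable def GG {N : ℕ} [NeZero N] (f : Cf2 N) (x : XX N) (z : ℂ) : ℂ :=
  prim f ((gx x • (ofComplex z) : ℍ) : ℂ) - CC f (gx x)

open Classical in
/-- the boundary -/
noncomputable def bd {N : ℕ} (x : XX N) : ℤ :=
  (if x = x0 N then 1 else 0) - (if x = ModularGroup.S • x0 N then 1 else 0)

/-- CUSP1 : the functions `GG` -/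
def S_CUSP1 : Prop := ∀ (N : ℕ) [NeZero N], N.Prime → ∀ (f : Cf2 N) (ε : ℝ),
  W388.IsNewf N 2 f ε →
  (∀ (x : XX N) (z : ℂ), 0 < z.im → HasDerivAt (GG f x)
    (2 * Real.pi * Complex.I * ((f : ℍ → ℂ) ∣[(2 : ℤ)] gx x) (ofComplex z)) z) ∧
  (∃ K c : ℝ, 0 < c ∧ ∀ (x : XX N) (z : ℂ), 1 / 2 ≤ z.im → ‖GG f x z‖ ≤ K * Real.exp (-(c * z.im)) ∧
    ‖((f : ℍ → ℂ) ∣[(2 : ℤ)] gx x) (ofComplex z)‖ ≤ K * Real.exp (-(c * z.im))) ∧
  (∀ (x : XX N) (z : ℂ), 0 < z.im → GG f x (z + 1) = GG f ((ModularGroup.T)⁻¹ • x) z) ∧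
  (∀ (x : XX N) (z : ℂ), 0 < z.im → GG f x (-1 / z) = GG f ((ModularGroup.S)⁻¹ • x) z + dd f x) ∧
  (∀ (x : XX N) (z : ℂ), 0 < z.im → ‖GG f x z‖ ≤ (1 + N / z.im) ^ 2)

/-- CUSP2 : the relations -/
def S_CUSP2 : Prop := ∀ (N : ℕ) [NeZero N], N.Prime → ∀ (f : Cf2 N) (ε : ℝ),
  W388.IsNewf N 2 f ε →
  (∀ x : XX N, dd f x + dd f (ModularGroup.S • x) = 0) ∧
  (∀ x : XX N, dd f x + dd f (UU • x) + dd f (UU • UU • x) = 0) ∧ dd f (x0 N) = bv f 0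

/-- CUSP3 : the boundary -/
def S_CUSP3 : Prop := ∀ (N : ℕ) [NeZero N], N.Prime →
  (∀ x : XX N, bd x + bd (ModularGroup.S • x) = 0) ∧
  (∀ x : XX N, bd x + bd (UU • x) + bd (UU • UU • x) = 0)

/-- PATH : periods are integral combinations of the symbols -/
def S_PATH : Prop := ∀ (N : ℕ) [NeZero N], N.Prime → ∀ γ : Gamma0 N, ∃ n : XX N → ℤ,
  (∀ (f : Cf2 N) (ε : ℝ), W388.IsNewf N 2 f ε → per f γ = ∑' x : XX N, (n x : ℂ) * dd f x) ∧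
  ∑' x : XX N, n x * bd x = 0

/-- HECKE : `T₂ - 3` on the symbols -/
def S_HECKE : Prop := ∀ (N : ℕ) [NeZero N], N.Prime → N ≠ 2 → ∃ Z : XX N → XX N → ℤ,
  (∀ x, ∑' y : XX N, |Z x y| ≤ 9) ∧
  (∀ (f : Cf2 N) (ε : ℝ), W388.IsNewf N 2 f ε → ∀ x : XX N,
    (co f 2 - 3) * dd f x = ∑' y : XX N, (Z x y : ℂ) * dd f y) ∧
  (∀ x, ∑' y : XX N, Z x y * bd y = 0)

/-- QUANT : `3 - |a(2)|` is not too small -/
def S_QUANT : Prop := ∀ (N : ℕ) [NeZero N], N.Prime → N ≠ 2 → ∀ (f : Cf2 N) (ε : ℝ),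
  W388.IsNewf N 2 f ε → ‖co f 2‖ ≤ 3 - 1 / (100 * (N : ℝ)) ^ 4

/-- SMALL : few fixed points -/
def S_SMALL : Prop := ∀ (N : ℕ) [NeZero N], N.Prime →
  Nat.card (XX N) = N + 1 ∧ 2 * nS N ≤ N + 3 ∧ 3 * nU N ≤ N + 5

/-! ## part D : the dimension of the space of cusp forms -/

/-- vector valued modular forms for the permutation representation on the cosets -/
structure VM (N : ℕ) (k : ℤ) (F : ℍ → XX N → ℂ) : Prop where
  holo : ∀ x, MDifferentiable 𝓘(ℂ) 𝓘(ℂ) (fun z => F z x)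
  mod : ∀ (γ : SL(2, ℤ)) (z : ℍ) (x : XX N),
    F (γ • z) x = (denom γ z) ^ k * F z (γ⁻¹ • x)
  bdd : ∀ x, IsBoundedAtImInfty (fun z => F z x)

/-- level one modular forms, as functions -/
def LM (k : ℤ) (A : ℍ → ℂ) : Prop := ∃ g : ModularForm 𝒮ℒ k, ∀ z, A z = g z

/-- a basis of the module of vector valued forms over the ring of the level one forms -/
structure IsBas (N : ℕ) (k : XX N → ℤ) (F : XX N → ℍ → XX N → ℂ) : Prop where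
  nonneg : ∀ j, 0 ≤ k j
  vm : ∀ j, VM N (k j) (F j)
  gen : ∀ (l : ℤ) (G : ℍ → XX N → ℂ), VM N l G → ∃ A : XX N → ℍ → ℂ,
    (∀ j, LM (l - k j) (A j)) ∧ ∀ z x, G z x = ∑' j, A j z * F j z x
  uniq : ∀ (l : ℤ) (A : XX N → ℍ → ℂ), (∀ j, LM (l - k j) (A j)) →
    (∀ z x, ∑' j, A j z * F j z x = 0) → ∀ j z, A j z = 0

/-- SPAN : the values of the vector valued forms at a point span everything -/
def S_SPAN : Prop := ∀ (N : ℕ) [NeZero N], N.Prime → ∀ z : ℍ,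
  Submodule.span ℂ {v : XX N → ℂ | ∃ (k : ℤ) (F : ℍ → XX N → ℂ), VM N k F ∧ v = F z} = ⊤

/-- FREE -/
def S_FREE : Prop := ∀ (N : ℕ) [NeZero N], N.Prime → ∃ k F, IsBas N k F

/-- WT : the sum of the weights -/
def S_WT : Prop := ∀ (N : ℕ) [NeZero N], N.Prime → N ≠ 2 → ∀ k F, IsBas N k F →
  ∑' j, k j ≤ 6 * ((N : ℤ) - 1)

/-- CLS : the number of basis elements of weight two -/
def S_CLS : Prop := ∀ (N : ℕ) [NeZero N], N.Prime → N ≠ 2 → ∀ k F, IsBas N k F →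
  ∑' j, k j ≤ 6 * ((N : ℤ) - 1) → Nat.card (XX N) = N + 1 →
  (Nat.card (XX N) : ℤ) - nS N - nU N + 2 ≤ 2 * (Nat.card {j | k j = 2} : ℤ)

/-- CUSPDIM : the dimension of the space of cusp forms -/
def S_CUSPDIM : Prop := ∀ (N : ℕ) [NeZero N], N.Prime → ∀ k F, IsBas N k F →
  (Nat.card {j | k j = 2} : ℤ) ≤ Module.finrank ℂ (SF N 2) + 1 ∧ Module.Finite ℂ (SF N 2)

end Pool.Agent.K4H13.CV
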