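import Pool.Agent.K4H13.CV.Two
import Pool.Agent.K4H13.CV.Coe
import Pool.Agent.K4H13.CV.Red
import Pool.Agent.K4H13.CV.Stm2

/-!
# Project CV: `|a(2)|` is not too close to `3`
-/

set_option autoImplicit false

open Complex Filter Topology Set UpperHalfPlane MatrixGroups CongruenceSubgroup

namespace Pool.Agent.K4H13.CV

open Pool.Agent.TH940 (Fr exp_norm)
open Pool.Agent.Y18.BSD

theorem quant : S_QUANT := by
  intro N _ hN hN2 f ε hf
  by_contra hc
  push Not at hc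
  have hpN' : ¬ 2 ∣ N := fun h => hN2 ((Nat.prime_dvd_prime_iff_eq Nat.prime_two hN).1 h).symm
  have hN0 : (0 : ℝ) < N := Nat.cast_pos.2 (Nat.pos_of_ne_zero (NeZero.ne N))
  have hN1 : (1 : ℝ) ≤ N := by exact_mod_cast Nat.pos_of_ne_zero (NeZero.ne N)
  have hrel := hrel_of_newf hf
  have hε1 : ‖(ε : ℂ)‖ = 1 := by
    rw [Complex.norm_real, Real.norm_eq_abs]
    rcases hf.sign with h | h <;> rw [h] <;> simp
  set y0 : ℝ := 1 / (2 * (N : ℝ)) with hy0
  have hy00 : 0 < y0 := by positivity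
  have hred : ∀ z : ℂ, 0 < z.im → ∃ z' : ℂ, y0 ≤ z'.im ∧ ph f z' = ph f z := by
    intro z hz
    obtain ⟨z', h1, h2⟩ := red N hN f ε hε1 (fr_of_newf hf) ⟨z, hz⟩
    refine ⟨z', h1, ?_⟩
    unfold ph
    rw [← qf_coe, ← qf_coe] at h2
    rw [mul_comm, mul_comm z.im]
    exact h2
  obtain ⟨K, hK0, hK⟩ := ph_decay f hy00
  -- bounded
  set A : Set ℝ := {x : ℝ | ∃ z : ℂ, 0 < z.im ∧ ph f z = x} with hA
  have hbd : ∀ z : ℂ, 0 < z.im → ph f z ≤ K := by
    intro z hz
    obtain ⟨z', h1, h2⟩ := hred z hz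
    rw [← h2]
    refine (hK z' h1).trans ?_
    have h3 : z'.im * Real.exp (-z'.im) ≤ 1 := by
      rw [Real.exp_neg, ← div_eq_mul_inv, div_le_one (Real.exp_pos _)]
      linarith [Real.add_one_le_exp z'.im]
    calc K * (z'.im * Real.exp (-z'.im)) ≤ K * 1 := mul_le_mul_of_nonneg_left h3 hK0
      _ = K := mul_one K
  have hA1 : BddAbove A := ⟨K, by rintro x ⟨z, hz, rfl⟩; exact hbd z hz⟩
  have hA2 : A.Nonempty := ⟨ph f Complex.I, Complex.I, by simp, rfl⟩
  set M : ℝ := sSup A with hM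
  have hle : ∀ z : ℂ, 0 < z.im → ph f z ≤ M := fun z hz => le_csSup hA1 ⟨z, hz, rfl⟩
  have hM0 : 0 < M := by
    by_contra hc2
    push Not at hc2
    have h1 : ∀ y : ℝ, 0 < y → qf f ((y : ℂ) * Complex.I) * (Real.exp (2 * Real.pi * y) : ℂ) = 0 := by
      intro y hy
      have hI : ((y : ℂ) * Complex.I).im = y := by simp
      have h2 := (hle ((y : ℂ) * Complex.I) (by rw [hI]; exact hy)).trans hc2
      unfold ph at h2
      rw [hI] at h2
      have h3 : ‖qf f ((y : ℂ) * Complex.I)‖ ≤ 0 := by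
        by_contra h4
        push Not at h4
        have := mul_pos hy h4
        linarith
      rw [norm_le_zero_iff] at h3
      rw [h3, zero_mul]
    have h2 : Tendsto (fun y : ℝ => qf f ((y : ℂ) * Complex.I) *
        (Real.exp (2 * Real.pi * y) : ℂ)) atTop (𝓝 0) := by
      refine tendsto_const_nhds.congr' ?_
      filter_upwards [eventually_gt_atTop (0 : ℝ)] with y hy
      exact (h1 y hy).symm
    exact one_ne_zero (tendsto_nhds_unique (qf_tendsto hf) h2)
  -- the function is small high up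
  have hup : ∀ z : ℂ, 8 ≤ z.im → ph f z ≤ M / 2 := by
    intro z hz
    have hz0 : 0 < z.im := by linarith
    have h1 := decay f (C := M) (fun τ => by
      have h2 := hle (τ : ℂ) τ.im_pos
      unfold ph at h2
      rw [qf_coe, mul_comm] at h2
      exact h2) 0 (fun n hn => by
        have : n = 0 := by omega
        rw [this]
        exact W388.coeff_zero f) ⟨z, hz0⟩
    have e1 : ph f z = ‖f ⟨z, hz0⟩‖ * (⟨z, hz0⟩ : ℍ).im := by
      unfold ph
      rw [← qf_coe, mul_comm]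
      rfl
    rw [e1]
    refine h1.trans ?_
    have e2 : (⟨z, hz0⟩ : ℍ).im = z.im := rfl
    rw [e2]
    have hpi := Real.pi_gt_three
    have h3 : 1 + 2 / z.im ≤ 5 / 4 := by
      have : 2 / z.im ≤ 1 / 4 := by
        rw [div_le_div_iff₀ hz0 (by norm_num)]
        linarith
      linarith
    have h4 : Real.exp (2 * Real.pi) * Real.exp (-(Real.pi * (((0 : ℕ) : ℝ) + 1) * z.im / 2)) ≤ 1 / 4 := by
      rw [← Real.exp_add]
      have h5 : 2 * Real.pi + -(Real.pi * (((0 : ℕ) : ℝ) + 1) * z.im / 2) ≤ -3 := by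
        push_cast
        nlinarith
      refine (Real.exp_le_exp.2 h5).trans ?_
      rw [Real.exp_neg, one_div]
      refine inv_anti₀ (by norm_num) ?_
      linarith [Real.add_one_le_exp (3 : ℝ)]
    have h6 : 0 ≤ 1 + 2 / z.im := by positivity
    calc _ = M * (Real.exp (2 * Real.pi) * Real.exp (-(Real.pi * (((0 : ℕ) : ℝ) + 1) * z.im / 2))) *
          (1 + 2 / z.im) := by ring
      _ ≤ M * (1 / 4) * (5 / 4) := by gcongr
      _ ≤ M / 2 := by linarith
  -- the number of steps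
  obtain ⟨k, hk1, hk2⟩ : ∃ k : ℕ, 16 * (N : ℝ) ≤ 2 ^ k ∧ (2 : ℝ) ^ k ≤ 32 * N := by
    have hex : ∃ k : ℕ, 16 * (N : ℝ) ≤ 2 ^ k := by
      have := (tendsto_pow_atTop_atTop_of_one_lt (one_lt_two (α := ℝ))).eventually_ge_atTop
        (16 * (N : ℝ))
      exact this.exists
    classical
    refine ⟨Nat.find hex, Nat.find_spec hex, ?_⟩
    have h0 : Nat.find hex ≠ 0 := by
      intro h
      have := Nat.find_spec hex
      rw [h, pow_zero] at this
      linarith
    obtain ⟨j, hj⟩ := Nat.exists_eq_succ_of_ne_zero h0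
    have h1 : ¬ (16 * (N : ℝ) ≤ 2 ^ j) := Nat.find_min hex (by omega)
    push Not at h1
    rw [hj, pow_succ]
    linarith
  have h3k : (3 : ℝ) ^ k ≤ 1024 * N ^ 2 := by
    have h1 : (3 : ℝ) ^ k ≤ 4 ^ k := pow_le_pow_left₀ (by norm_num) (by norm_num) k
    have h2 : (4 : ℝ) ^ k = (2 ^ k) ^ 2 := by
      rw [← pow_mul, mul_comm, pow_mul]
      norm_num
    rw [h2] at h1
    refine h1.trans ?_
    calc ((2 : ℝ) ^ k) ^ 2 ≤ (32 * (N : ℝ)) ^ 2 := by gcongr
      _ = 1024 * (N : ℝ) ^ 2 := by ring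
  set δ : ℝ := 1 / (100 * (N : ℝ)) ^ 4 with hδ
  have hδ0 : 0 < δ := by positivity
  have hδk : (3 : ℝ) ^ k * δ ≤ 1 / 10 := by
    have h1 : (3 : ℝ) ^ k * δ ≤ 1024 * N ^ 2 * δ := by gcongr
    refine h1.trans ?_
    rw [hδ, mul_one_div, div_le_div_iff₀ (by positivity) (by norm_num)]
    have h2 : (N : ℝ) ^ 2 ≤ N ^ 4 := pow_le_pow_right₀ hN1 (by norm_num)
    calc 1024 * (N : ℝ) ^ 2 * 10 ≤ 1024 * (N : ℝ) ^ 4 * 10 := by gcongr
      _ ≤ 1 * (100 * (N : ℝ)) ^ 4 := by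
        have : (100 * (N : ℝ)) ^ 4 = 100000000 * N ^ 4 := by ring
        rw [this]
        have : 0 < (N : ℝ) ^ 4 := by positivity
        linarith
  -- a point where the function is large
  set η : ℝ := M / (10 * 3 ^ k) with hη
  have hη0 : 0 < η := by positivity
  obtain ⟨x, ⟨z₁, hz₁, rfl⟩, hx⟩ := exists_lt_of_lt_csSup hA2 (show M - η < sSup A by rw [← hM]; linarith)
  obtain ⟨z, hzy, hz2⟩ := hred z₁ hz₁
  rw [← hz2] at hx
  have hz : 0 < z.im := hy00.trans_le hzy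
  have him : ∀ i : ℕ, ((2 : ℂ) ^ i * z).im = (2 : ℝ) ^ i * z.im := by
    intro i
    have : ((2 : ℂ) ^ i * z) = (((2 : ℝ) ^ i : ℝ) : ℂ) * z := by push_cast; rfl
    rw [this, Complex.im_ofReal_mul]
  have hind : ∀ i : ℕ, M - 3 ^ i * (η + δ * M / 2) + δ * M / 2 ≤ ph f ((2 : ℂ) ^ i * z) := by
    intro i
    induction i with
    | zero =>
      rw [pow_zero, pow_zero, one_mul, one_mul]
      linarith
    | succ i ih =>
      have hw : 0 < ((2 : ℂ) ^ i * z).im := by rw [him]; positivity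
      have h6 := ph_hecke hrel Nat.prime_two hpN' hw
      have h7 : ∑ j ∈ Finset.range 2, ph f (((2 : ℂ) ^ i * z + j) / ((2 : ℕ) : ℂ)) ≤ 2 * M := by
        refine (Finset.sum_le_sum fun j _ => hle _ (im_div_nat hw j Nat.prime_two.pos)).trans ?_
        simp
      have h8 : (3 - δ) * ph f ((2 : ℂ) ^ i * z) ≤ ‖co f 2‖ * ph f ((2 : ℂ) ^ i * z) :=
        mul_le_mul_of_nonneg_right hc.le (ph_nonneg f hw)
      have h9 := hle _ hw
      have e : (2 : ℂ) ^ (i + 1) * z = ((2 : ℕ) : ℂ) * ((2 : ℂ) ^ i * z) := by push_cast; ring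
      rw [e, pow_succ]
      have h10 : (3 : ℝ) * ph f ((2 : ℂ) ^ i * z) - δ * M ≤ (3 - δ) * ph f ((2 : ℂ) ^ i * z) := by
        have := mul_le_mul_of_nonneg_left h9 hδ0.le
        linarith
      linarith
  have h10 := hind k
  have h11 : 8 ≤ ((2 : ℂ) ^ k * z).im := by
    rw [him]
    have h12 : (2 : ℝ) ^ k * y0 ≤ (2 : ℝ) ^ k * z.im := mul_le_mul_of_nonneg_left hzy (by positivity)
    have h13 : 16 * (N : ℝ) * y0 ≤ (2 : ℝ) ^ k * y0 := mul_le_mul_of_nonneg_right hk1 hy00.le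
    have h14 : 16 * (N : ℝ) * y0 = 8 := by
      rw [hy0]
      field_simp
      norm_num
    linarith
  have h15 := hup _ h11
  have h16 : (3 : ℝ) ^ k * η = M / 10 := by
    rw [hη]
    have : (3 : ℝ) ^ k ≠ 0 := by positivity
    field_simp
  have h17 : (3 : ℝ) ^ k * (δ * M / 2) ≤ M / 20 := by
    have := mul_le_mul_of_nonneg_right hδk (show 0 ≤ M / 2 by linarith)
    calc (3 : ℝ) ^ k * (δ * M / 2) = (3 : ℝ) ^ k * δ * (M / 2) := by ring
      _ ≤ 1 / 10 * (M / 2) := this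
      _ = M / 20 := by ring
  have h18 : 0 < δ * M / 2 := by positivity
  have h19 : (3 : ℝ) ^ k * (η + δ * M / 2) = (3 : ℝ) ^ k * η + (3 : ℝ) ^ k * (δ * M / 2) := by ring
  rw [h19, h16] at h10
  linarith

end Pool.Agent.K4H13.CV
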