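import Pool.Agent.K4H13.CV.Vec
import Pool.Agent.K4H87.SP.Lat

/-!
# The values of the vector valued forms at a point span everything
-/

set_option autoImplicit false

open Complex Filter Topology Set UpperHalfPlane MatrixGroups CongruenceSubgroup OnePoint
open Matrix Matrix.SpecialLinearGroup
open scoped Manifold ModularForm

namespace Pool.Agent.K4H13.CV

/-! ### the forms -/

/-- diag (N, 1) over the rationals -/
noncomputable def dQ (N : ℕ) [NeZero N] : GL (Fin 2) ℚ :=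
  Matrix.GeneralLinearGroup.mkOfDetNeZero !![(N : ℚ), 0; 0, 1] (by simp [NeZero.ne])

/-- diag (N, 1) -/
noncomputable def dN (N : ℕ) [NeZero N] : GL (Fin 2) ℝ := (dQ N).map (Rat.castHom ℝ)

theorem dN_coe (N : ℕ) [NeZero N] : (dN N : Matrix (Fin 2) (Fin 2) ℝ) = !![(N : ℝ), 0; 0, 1] := by
  ext i j
  fin_cases i <;> fin_cases j <;> simp [dN, dQ, Matrix.GeneralLinearGroup.mkOfDetNeZero]

theorem isCusp_dN (N : ℕ) [NeZero N] (g : SL(2, ℤ)) :
    IsCusp ((dN N * mapGL ℝ g) • (∞ : OnePoint ℝ)) 𝒮ℒ := by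
  rw [isCusp_SL2Z_iff]
  refine ⟨(dQ N * mapGL ℚ g) • ∞, ?_⟩
  have h : (mapGL ℚ g).map (Rat.castHom ℝ) = mapGL ℝ g := by
    ext i j
    simp
  rw [← Rat.coe_castHom, OnePoint.map_smul, OnePoint.map_infty, map_mul, h, dN]

/-- `diag (N, 1) h = h' diag (N, 1)` -/
theorem dN_comm (N : ℕ) [NeZero N] (h : SL(2, ℤ)) (hh : h ∈ Gamma0 N) :
    ∃ h' : SL(2, ℤ), dN N * mapGL ℝ h = mapGL ℝ h' * dN N := by
  rw [Gamma0_mem, ZMod.intCast_zmod_eq_zero_iff_dvd] at hh
  obtain ⟨c, hc⟩ := hh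
  have hdet : h 0 0 * h 1 1 - h 0 1 * h 1 0 = 1 := by
    rw [← Matrix.det_fin_two]; exact h.2
  refine ⟨⟨!![h 0 0, N * h 0 1; c, h 1 1], ?_⟩, ?_⟩
  · rw [Matrix.det_fin_two_of]
    rw [hc] at hdet
    linarith
  · ext i j
    rw [Units.val_mul, Units.val_mul, dN_coe]
    fin_cases i <;> fin_cases j <;> simp [Matrix.mul_apply, Fin.sum_univ_two, hc, mul_comm]

variable {N : ℕ} [NeZero N]

/-- the Eisenstein series of the sublattices -/
noncomputable def Fe (N : ℕ) [NeZero N] {k : ℕ} (hk : 3 ≤ k) (z : ℍ) (x : XX N) : ℂ :=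
  ((ModularForm.E hk : ℍ → ℂ) ∣[(k : ℤ)] (dN N * mapGL ℝ (gx x))) z

theorem slash_gamma0 {k : ℤ} (f : ModularForm 𝒮ℒ k) {h : SL(2, ℤ)} (hh : h ∈ Gamma0 N)
    (g : GL (Fin 2) ℝ) :
    (f : ℍ → ℂ) ∣[k] (dN N * (mapGL ℝ h * g)) = (f : ℍ → ℂ) ∣[k] (dN N * g) := by
  obtain ⟨h', he⟩ := dN_comm N h hh
  rw [← mul_assoc, he, mul_assoc, SlashAction.slash_mul]
  congr 1
  exact f.slash_action_eq' _ ⟨h', rfl⟩

theorem vm_Fe {k : ℕ} (hk : 3 ≤ k) : VM N k (Fe N hk) where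
  holo x := (ModularFormClass.holo (ModularForm.E hk)).slash _ _
  mod γ z x := by
    have h1 : (Fe N hk (γ • z) x) = (denom γ z) ^ (k : ℤ) *
        (((ModularForm.E hk : ℍ → ℂ) ∣[(k : ℤ)] (dN N * mapGL ℝ (gx x))) ∣[(k : ℤ)] γ) z := by
      rw [ModularForm.SL_slash_apply, _root_.zpow_neg]
      have hd := zpow_ne_zero (k : ℤ) (denom_ne_zero γ z)
      field_simp
      rfl
    rw [h1]
    congr 1
    obtain ⟨h, hh, he⟩ := gx_smul γ x
    have h4 : Fe N hk z (γ⁻¹ • x) =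
        ((ModularForm.E hk : ℍ → ℂ) ∣[(k : ℤ)] (dN N * (mapGL ℝ (gx x) * mapGL ℝ γ))) z := by
      rw [Fe, he, map_mul, slash_gamma0 _ hh, map_mul]
    rw [h4, ← mul_assoc]
    exact (congrFun (SlashAction.slash_mul (k : ℤ) (dN N * mapGL ℝ (gx x)) (mapGL ℝ γ)
      (ModularForm.E hk : ℍ → ℂ)) z).symm
  bdd x := by
    exact (ModularForm.E hk).bdd_at_cusps' (isCusp_dN N (gx x)) _ rfl


/-! ### the sublattices -/

theorem sl_det (g : SL(2, ℤ)) : (g 0 0 : ℝ) * g 1 1 - g 0 1 * g 1 0 = 1 := by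
  have h : g 0 0 * g 1 1 - g 0 1 * g 1 0 = 1 := by
    rw [← Matrix.det_fin_two]; exact g.2
  exact_mod_cast h

theorem re_im_zero {z : ℍ} {p q : ℝ} (h : (p : ℂ) * z + q = 0) : p = 0 ∧ q = 0 := by
  have h1 := congrArg Complex.im h
  have h2 := congrArg Complex.re h
  simp at h1 h2
  have hz : (z : ℂ).im ≠ 0 := z.im_ne_zero
  have hp : p = 0 := by
    rcases h1 with h1 | h1
    · exact h1
    · exact absurd h1 hz
  subst hp
  simpa using h2

/-- the sublattice of `ℤz + ℤ` of index `N` -/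
noncomputable def Lx (N : ℕ) [NeZero N] (z : ℍ) (g : SL(2, ℤ)) : PeriodPair where
  ω₁ := N * (g 0 0 * z + g 0 1)
  ω₂ := g 1 0 * z + g 1 1
  indep := by
    rw [LinearIndependent.pair_iff]
    intro s t h
    have hN : (N : ℝ) ≠ 0 := NeZero.ne _
    have h1 : ((s * N * g 0 0 + t * g 1 0 : ℝ) : ℂ) * z +
        ((s * N * g 0 1 + t * g 1 1 : ℝ) : ℂ) = 0 := by
      rw [← h]
      push_cast
      simp only [Complex.real_smul]
      ring
    obtain ⟨e1, e2⟩ := re_im_zero h1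
    have hd := sl_det g
    have hs : s * N = 0 := by
      linear_combination (g 1 1 : ℝ) * e1 - (g 1 0 : ℝ) * e2 - s * N * hd
    have ht : t = 0 := by
      linear_combination -(g 0 1 : ℝ) * e1 + (g 0 0 : ℝ) * e2 - t * hd
    exact ⟨(mul_eq_zero.1 hs).resolve_right hN, ht⟩

theorem G_eq (L : PeriodPair) (k : ℕ) :
    L.G k = ∑' v : Fin 2 → ℤ, ((v 0 * L.ω₁ + v 1 * L.ω₂) ^ k)⁻¹ := by
  rw [PeriodPair.G, ← L.latticeEquivProd.symm.toEquiv.tsum_eq,
    ← (finTwoArrowEquiv ℤ).tsum_eq]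
  refine tsum_congr fun v => ?_
  congr 2
  exact L.latticeEquiv_symm_apply _

theorem Fe_eq {k : ℕ} (hk : 3 ≤ k) (z : ℍ) (x : XX N) :
    Fe N hk z x = ((N : ℂ) ^ ((k : ℤ) - 1) * (1 / 2) * (riemannZeta k)⁻¹) * (Lx N z (gx x)).G k := by
  set g := gx x with hg
  have hζ : riemannZeta k ≠ 0 := riemannZeta_ne_zero_of_one_lt_re (by
    norm_cast; omega)
  have hdet : (dN N * mapGL ℝ g).det.val = N := by
    rw [map_mul, Units.val_mul]
    have h1 : (dN N).det.val = N := by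
      rw [Matrix.GeneralLinearGroup.val_det_apply, dN_coe, Matrix.det_fin_two_of]
      ring
    have h2 : (mapGL ℝ g).det.val = 1 := by simp
    rw [h1, h2, mul_one]
  have hNpos : (0 : ℝ) < N := by
    have := NeZero.pos N
    exact_mod_cast this
  have hpos : 0 < (dN N * mapGL ℝ g).det.val := by rw [hdet]; exact hNpos
  set τ : ℍ := (dN N * mapGL ℝ g) • z with hτ
  have hden : denom (dN N * mapGL ℝ g) z = g 1 0 * z + g 1 1 := by
    rw [denom, Units.val_mul, dN_coe]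
    simp [Matrix.mul_apply, Fin.sum_univ_two]
  have hnum : num (dN N * mapGL ℝ g) z = N * (g 0 0 * z + g 0 1) := by
    rw [num, Units.val_mul, dN_coe]
    simp [Matrix.mul_apply, Fin.sum_univ_two]
    ring
  have hτc : (τ : ℂ) = N * (g 0 0 * z + g 0 1) / (g 1 0 * z + g 1 1) := by
    rw [hτ, coe_smul_of_det_pos hpos, hnum, hden]
  have hd0 : (g 1 0 * z + g 1 1 : ℂ) ≠ 0 := by
    rw [← hden]; exact denom_ne_zero _ z
  have hE : ModularForm.E hk τ = (1 / 2) * ((riemannZeta k)⁻¹ *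
      ∑' v : Fin 2 → ℤ, EisensteinSeries.eisSummand k v τ) := by
    rw [tsum_eisSummand_eq_riemannZeta_mul_eisensteinSeries hk τ, inv_mul_cancel_left₀ hζ]
    rfl
  have hG : (Lx N z g).G k = (∑' v : Fin 2 → ℤ, EisensteinSeries.eisSummand k v τ) *
      (g 1 0 * z + g 1 1 : ℂ) ^ (-(k : ℤ)) := by
    rw [G_eq, ← tsum_mul_right]
    refine tsum_congr fun v => ?_
    rw [EisensteinSeries.eisSummand, ← mul_zpow, hτc]
    have e1 : ((v 0 : ℂ) * (N * (g 0 0 * z + g 0 1) / (g 1 0 * z + g 1 1)) + v 1) *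
        (g 1 0 * z + g 1 1) = v 0 * (Lx N z g).ω₁ + v 1 * (Lx N z g).ω₂ := by
      rw [add_mul, mul_assoc, div_mul_cancel₀ _ hd0]
      rfl
    rw [e1, _root_.zpow_neg, zpow_natCast]
  have hσ : ∀ w, σ (dN N * mapGL ℝ g) w = w := fun w => by
    rw [σ, if_pos hpos]; rfl
  rw [Fe, ← hg, ModularForm.slash_apply, hdet, ← hτ, hden, hG, hσ, hE, abs_of_pos hNpos]
  push_cast
  ring

theorem Fe_sep (z : ℍ) {x y : XX N} (hxy : x ≠ y) :
    ∃ (k : ℕ) (hk : 3 ≤ k), Fe N hk z x ≠ Fe N hk z y := by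
  by_contra hcon
  push Not at hcon
  apply hxy
  have hG : ∀ k, 3 ≤ k → (Lx N z (gx x)).G k = (Lx N z (gx y)).G k := by
    intro k hk
    have h := hcon k hk
    rw [Fe_eq hk, Fe_eq hk] at h
    refine mul_left_cancel₀ (mul_ne_zero (mul_ne_zero (zpow_ne_zero _ ?_) (by norm_num))
      (inv_ne_zero (riemannZeta_ne_zero_of_one_lt_re (by norm_cast; omega)))) h
    exact_mod_cast NeZero.ne N
  have hmem := Pool.Agent.K4H87.SP.lattice_le_of_G hG _ (Lx N z (gx x)).ω₂_mem_lattice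
  rw [PeriodPair.mem_lattice] at hmem
  obtain ⟨m, n, h⟩ := hmem
  have h1 : ((m * N * gx y 0 0 + n * gx y 1 0 - gx x 1 0 : ℝ) : ℂ) * z +
      ((m * N * gx y 0 1 + n * gx y 1 1 - gx x 1 1 : ℝ) : ℂ) = 0 := by
    simp only [Lx] at h
    push_cast
    linear_combination h
  obtain ⟨e1, e2⟩ := re_im_zero h1
  have e1' : m * N * gx y 0 0 + n * gx y 1 0 = gx x 1 0 := by
    have : ((m * N * gx y 0 0 + n * gx y 1 0 : ℤ) : ℝ) = ((gx x 1 0 : ℤ) : ℝ) := by
      push_cast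
      linarith
    exact_mod_cast this
  have e2' : m * N * gx y 0 1 + n * gx y 1 1 = gx x 1 1 := by
    have : ((m * N * gx y 0 1 + n * gx y 1 1 : ℤ) : ℝ) = ((gx x 1 1 : ℤ) : ℝ) := by
      push_cast
      linarith
    exact_mod_cast this
  have hdet : gx y 0 0 * gx y 1 1 - gx y 0 1 * gx y 1 0 = 1 := by
    rw [← Matrix.det_fin_two]; exact (gx y).2
  rw [← gx_mem x, ← gx_mem y, QuotientGroup.eq, inv_inv, Gamma0_mem,
    ZMod.intCast_zmod_eq_zero_iff_dvd]
  refine ⟨m, ?_⟩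
  have e3 : (gx x * (gx y)⁻¹) 1 0 = gx x 1 0 * gx y 1 1 - gx x 1 1 * gx y 1 0 := by
    rw [Matrix.SpecialLinearGroup.coe_mul, Matrix.SpecialLinearGroup.coe_inv,
      Matrix.adjugate_fin_two]
    simp [Matrix.mul_apply, Fin.sum_univ_two]
    ring
  rw [e3, ← e1', ← e2']
  linear_combination (m * N : ℤ) * hdet

/-- SPAN -/
theorem span : S_SPAN := by
  classical
  intro N _ hN z
  set V := Submodule.span ℂ {v : XX N → ℂ | ∃ (k : ℤ) (F : ℍ → XX N → ℂ), VM N k F ∧ v = F z}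
    with hV
  have hmul : ∀ v ∈ V, ∀ w ∈ V, v * w ∈ V := by
    intro v hv w hw
    refine Submodule.span_induction (p := fun v _ => v * w ∈ V) ?_ ?_ ?_ ?_ hv
    · rintro _ ⟨k, F, hF, rfl⟩
      refine Submodule.span_induction (p := fun w _ => F z * w ∈ V) ?_ ?_ ?_ ?_ hw
      · rintro _ ⟨l, G, hG, rfl⟩
        exact Submodule.subset_span ⟨k + l, _, hF.mul hG, rfl⟩
      · rw [mul_zero]; exact V.zero_mem
      · intro a b _ _ ha hb
        rw [mul_add]; exact V.add_mem ha hb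
      · intro c a _ ha
        rw [mul_smul_comm]; exact V.smul_mem c ha
    · rw [zero_mul]; exact V.zero_mem
    · intro a b _ _ ha hb
      rw [add_mul]; exact V.add_mem ha hb
    · intro c a _ ha
      rw [smul_mul_assoc]; exact V.smul_mem c ha
  have hconst : ∀ c : ℂ, (fun _ => c) ∈ V := fun c =>
    Submodule.subset_span ⟨0, _, VM.const c, rfl⟩
  have hfin : Finite (XX N) := Subgroup.finite_quotient_of_finiteIndex
  have : Fintype (XX N) := Fintype.ofFinite _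
  -- separating functions
  have hsep : ∀ x y : XX N, x ≠ y → ∃ v ∈ V, v x = 1 ∧ v y = 0 := by
    intro x y hxy
    obtain ⟨k, hk, hne⟩ := Fe_sep z hxy
    have h0 : Fe N hk z x - Fe N hk z y ≠ 0 := sub_ne_zero.2 hne
    refine ⟨(Fe N hk z x - Fe N hk z y)⁻¹ • (Fe N hk z - fun _ => Fe N hk z y),
      V.smul_mem _ (V.sub_mem (Submodule.subset_span ⟨k, _, vm_Fe hk, rfl⟩) (hconst _)), ?_, ?_⟩
    · simp [h0]
    · simp
  choose! w hwV hw1 hw0 using hsep
  have hind : ∀ x : XX N, (Pi.single x (1 : ℂ) : XX N → ℂ) ∈ V := by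
    intro x
    have hp : ∀ s : Finset (XX N), x ∉ s → (∏ y ∈ s, w x y) ∈ V := by
      intro s
      induction s using Finset.induction_on with
      | empty => intro _; rw [Finset.prod_empty]; exact hconst 1
      | insert a s ha ih =>
        intro hx
        rw [Finset.prod_insert ha]
        rw [Finset.mem_insert, not_or] at hx
        exact hmul _ (hwV x a hx.1) _ (ih hx.2)
    have he : (Pi.single x (1 : ℂ) : XX N → ℂ) = ∏ y ∈ Finset.univ.erase x, w x y := by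
      funext t
      rw [Finset.prod_apply]
      by_cases ht : t = x
      · subst ht
        rw [Pi.single_eq_same]
        exact (Finset.prod_eq_one fun y hy => hw1 t y (Finset.ne_of_mem_erase hy).symm).symm
      · rw [Pi.single_eq_of_ne ht]
        exact (Finset.prod_eq_zero (f := fun c => w x c t)
          (Finset.mem_erase.2 ⟨ht, Finset.mem_univ t⟩) (hw0 x t (Ne.symm ht))).symm
    rw [he]
    exact hp _ (Finset.notMem_erase x _)
  rw [eq_top_iff]
  intro v _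
  have hv : v = ∑ x, v x • (Pi.single x (1 : ℂ) : XX N → ℂ) := by
    funext t
    simp [Finset.sum_apply, Pi.single_apply]
  rw [hv]
  exact V.sum_mem fun x _ => V.smul_mem _ (hind x)

end Pool.Agent.K4H13.CV
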