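import Pool.Agent.K4H13.CV.Asm5
import Pool.Agent.K4H13.CV.Green
import Pool.Agent.K4H13.CV.Pet
import Pool.Agent.K4H13.CV.Cusp1
import Pool.Agent.K4H13.CV.Cusp2
import Pool.Agent.K4H13.CV.Cus3
import Pool.Agent.K4H13.CV.Path
import Pool.Agent.K4H13.CV.Heck
import Pool.Agent.K4H13.CV.Quant
import Pool.Agent.K4H13.CV.Span
import Pool.Agent.K4H13.CV.Fre
import Pool.Agent.K4H13.CV.Wt
import Pool.Agent.K4H13.CV.Cls
import Pool.Agent.K4H13.CV.Cdm
import Pool.Agent.K4H13.CV.Lv
import Pool.Agent.K4H13.CV.Fin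

/-!
# Project CV: all pieces together
-/

set_option autoImplicit false

namespace Pool.Agent.K4H13.CV

/-- all pieces -/
theorem hyp : HYP where
  gr := s_green
  pe := pet_sum
  c1 := cusp1
  c2 := cusp2
  c3 := cusp3
  pa := path
  he := hecke
  qu := quant
  fr := free span
  wt := wt span
  cl := cls span
  cd := cuspdim

end Pool.Agent.K4H13.CV
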