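import Mathlib

/-!
# Project CV: the determinant inequality
-/

set_option autoImplicit false

namespace Pool.Agent.K4H13.CV

/-- the real coordinates of vectors of `ℂ^β`, indexed by `β ⊕ β` (real parts, imaginary parts) -/
def RM {ι β : Type*} (v : ι → β → ℂ) : Matrix ι (β ⊕ β) ℝ :=
  Matrix.of fun i j => Sum.elim (fun f => (v i f).re) (fun f => (v i f).im) j

/-- The real coordinates of a vector, as a linear map. -/
def crd (β : Type*) : (β → ℂ) →ₗ[ℝ] (β ⊕ β → ℝ) where
  toFun v := Sum.elim (fun f => (v f).re) (fun f => (v f).im)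
  map_add' v w := by
    funext j
    rcases j with f | f <;> simp
  map_smul' c v := by
    funext j
    rcases j with f | f <;> simp

theorem crd_injective (β : Type*) : Function.Injective (crd β) := by
  intro v w h
  funext f
  apply Complex.ext
  · exact congrFun h (Sum.inl f)
  · exact congrFun h (Sum.inr f)

theorem RM_row {ι β : Type*} (v : ι → β → ℂ) (i : ι) : (RM v).row i = crd β (v i) := rfl

theorem finrank_eq {β : Type*} [Fintype β] :
    Module.finrank ℝ (β → ℂ) = 2 * Fintype.card β := by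
  rw [Module.finrank_pi_fintype]
  simp [Complex.finrank_real_complex, mul_comm]

theorem linInd_of_det {β κ : Type*} [Fintype β] [DecidableEq β] [Fintype κ] [DecidableEq κ]
    (v : κ → β → ℂ) (σ : κ ≃ β ⊕ β) (hdet : ((RM v).submatrix id σ).det ≠ 0) :
    LinearIndependent ℝ v := by
  have h1 := Matrix.linearIndependent_rows_of_det_ne_zero hdet
  let g : (β ⊕ β → ℝ) →ₗ[ℝ] (κ → ℝ) := LinearMap.funLeft ℝ ℝ σ
  have h2 : LinearIndependent ℝ ((g.comp (crd β)) ∘ v) := h1
  exact h2.of_comp _

theorem det_of_linInd {β κ : Type*} [Fintype β] [DecidableEq β] [Fintype κ] [DecidableEq κ]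
    (v : κ → β → ℂ) (σ : κ ≃ β ⊕ β) (h : LinearIndependent ℝ v) :
    ((RM v).submatrix id σ).det ≠ 0 := by
  let g : (β ⊕ β → ℝ) →ₗ[ℝ] (κ → ℝ) := LinearMap.funLeft ℝ ℝ σ
  have h2 : (((RM v).submatrix id σ).row) = (g.comp (crd β)) ∘ v := rfl
  have hg : Function.Injective (g.comp (crd β)) := by
    rw [LinearMap.coe_comp]
    exact (LinearMap.funLeft_injective_of_surjective ℝ ℝ σ σ.surjective).comp (crd_injective β)
  have h1 : LinearIndependent ℝ (((RM v).submatrix id σ).row) := by
    rw [h2]
    exact h.map' _ (LinearMap.ker_eq_bot.2 hg)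
  have h3 := Matrix.linearIndependent_rows_iff_isUnit.1 h1
  exact ((Matrix.isUnit_iff_isUnit_det _).1 h3).ne_zero

theorem span_top {β : Type*} [Fintype β] [DecidableEq β] (e : β ⊕ β → β → ℂ)
    (hdet : (RM e).det ≠ 0) : Submodule.span ℝ (Set.range e) = ⊤ := by
  have h1 : LinearIndependent ℝ e := linInd_of_det e (Equiv.refl _) (by
    simpa using hdet)
  refine h1.span_eq_top_of_card_eq_finrank' ?_
  rw [finrank_eq, Fintype.card_sum]
  ring

/-- an integer matrix with nonzero determinant does not decrease the determinant -/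
theorem det_le_of_int {β κ : Type*} [Fintype β] [DecidableEq β] [Fintype κ] [DecidableEq κ]
    (e : β ⊕ β → β → ℂ) (v : κ → β → ℂ) (σ : κ ≃ β ⊕ β) (h : LinearIndependent ℝ v)
    (hv : ∀ r, ∃ n : β ⊕ β → ℤ, ∀ f, v r f = ∑ i, (n i : ℂ) * e i f) :
    |(RM e).det| ≤ |((RM v).submatrix id σ).det| := by
  choose n hn using hv
  let A : Matrix κ κ ℤ := Matrix.of fun r c => n r (σ c)
  have hM : (RM v).submatrix id σ = (A.map (Int.cast : ℤ → ℝ)) * ((RM e).submatrix σ σ) := by
    ext r c
    rw [Matrix.mul_apply, Matrix.submatrix_apply]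
    have h1 : RM v (id r) (σ c) = ∑ i, (n r i : ℝ) * RM e i (σ c) := by
      unfold RM
      rw [Matrix.of_apply]
      rcases σ c with f | f
      · simp only [Sum.elim_inl, Matrix.of_apply, id]
        rw [hn r f, Complex.re_sum]
        refine Finset.sum_congr rfl fun i _ => ?_
        simp
      · simp only [Sum.elim_inr, Matrix.of_apply, id]
        rw [hn r f, Complex.im_sum]
        refine Finset.sum_congr rfl fun i _ => ?_
        simp
    rw [h1, ← Equiv.sum_comp σ]
    rfl
  have hne := det_of_linInd v σ h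
  rw [hM, Matrix.det_mul] at hne ⊢
  have h2 : (A.map (Int.cast : ℤ → ℝ)).det = ((A.det : ℤ) : ℝ) := (Int.cast_det A).symm
  rw [h2] at hne ⊢
  have h3 : A.det ≠ 0 := by
    intro h0
    rw [h0] at hne
    simp at hne
  have h4 : (1 : ℝ) ≤ |((A.det : ℤ) : ℝ)| := by
    have := Int.one_le_abs h3
    exact_mod_cast this
  rw [Matrix.det_submatrix_equiv_self, abs_mul]
  exact le_mul_of_one_le_left (abs_nonneg _) h4

theorem detIneq {β : Type*} [Fintype β] [DecidableEq β] (e : β ⊕ β → β → ℂ)
    (hdet : (RM e).det ≠ 0) (Λ : AddSubgroup (β → ℂ))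
    (hΛ : ∀ v ∈ Λ, ∃ n : β ⊕ β → ℤ, ∀ f, v f = ∑ i, (n i : ℂ) * e i f)
    {ι : Type*} [Finite ι] (s : ι → β → ℂ) (hs : ∀ i, s i ∈ Λ) (H : ℝ) (hH : 1 ≤ H)
    (hsH : ∀ i f, ‖s i f‖ ≤ H) (hspan : Submodule.span ℝ (Set.range s) = ⊤)
    (F : Finset β) (I : β → ℝ) (hI : ∀ f ∈ F, I f ≠ 0) (x : F → F → ℝ)
    (hx : (Matrix.of x).det ≠ 0) (hxH : ∀ i j, |x i j| ≤ H)
    (hu : ∀ i : F, (fun f : β => if h : f ∈ F then (((x i ⟨f, h⟩ * I f : ℝ)) : ℂ) else 0) ∈ Λ) :
    |(RM e).det| ≤ ((2 * Fintype.card β : ℕ) : ℝ) ^ (2 * Fintype.card β) *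
      H ^ (2 * Fintype.card β) * ∏ f ∈ F, |I f| := by
  classical
  obtain ⟨u, hudef⟩ : ∃ u : F → β → ℂ, u = fun (i : F) (f : β) =>
    if h : f ∈ F then (((x i ⟨f, h⟩ * I f : ℝ)) : ℂ) else 0 := ⟨_, rfl⟩
  have hu' : ∀ i, u i ∈ Λ := fun i => by
    rw [hudef]
    exact hu i
  have hure : ∀ (i f : F), (u i f).re = x i f * I f := by
    intro i f
    rw [hudef]
    simp only [f.2, dif_pos, Complex.ofReal_re]
  have huim : ∀ (i : F) (f : β), (u i f).im = 0 := by
    intro i f
    rw [hudef]
    simp only
    split_ifs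
    · exact Complex.ofReal_im _
    · rfl
  have hu0 : ∀ (i : F) (f : β), f ∉ F → u i f = 0 := by
    intro i f hf
    rw [hudef]
    simp only [hf, dif_neg, not_false_eq_true]
  -- the block of the determinant
  have hX : (Matrix.of fun i f : F => x i f * I f).det = (Matrix.of x).det * ∏ f : F, I f := by
    have e1 : (Matrix.of fun i f : F => x i f * I f) =
        Matrix.of x * Matrix.diagonal fun f : F => I f := by
      ext i f
      rw [Matrix.mul_diagonal]
      rfl
    rw [e1, Matrix.det_mul, Matrix.det_diagonal]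
  have hX0 : (Matrix.of fun i f : F => x i f * I f).det ≠ 0 := by
    rw [hX]
    exact mul_ne_zero hx (Finset.prod_ne_zero_iff.2 fun f _ => hI f f.2)
  -- linear independence of `u`
  have hli : LinearIndependent ℝ u := by
    have h1 := Matrix.linearIndependent_rows_of_det_ne_zero hX0
    let g : (β → ℂ) →ₗ[ℝ] (F → ℝ) :=
      { toFun := fun v f => (v f).re
        map_add' := fun v w => by funext f; simp
        map_smul' := fun c v => by funext f; simp }
    have h2 : (fun i => (Matrix.of fun i f : F => x i f * I f) i) = g ∘ u := by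
      funext i f
      exact (hure i f).symm
    rw [h2] at h1
    exact h1.of_comp _
  -- extension to a basis
  have hliu : LinearIndepOn ℝ id (Set.range u) := hli.linearIndepOn_id
  obtain ⟨b, hb2, hb1, hb3, hb4⟩ := exists_linearIndepOn_id_extension hliu
    (Set.subset_union_left : Set.range u ⊆ Set.range u ∪ Set.range s)
  have hbtop : Submodule.span ℝ b = ⊤ := by
    rw [eq_top_iff, ← hspan]
    exact Submodule.span_le.2 ((Set.subset_union_right).trans hb3)
  have hbfin : b.Finite := (Set.toFinite (Set.range u ∪ Set.range s)).subset hb2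
  let K : Set (β → ℂ) := b \ Set.range u
  have hKfin : K.Finite := hbfin.subset Set.sdiff_subset
  have := hKfin.fintype
  let v : F ⊕ K → β → ℂ := Sum.elim u (fun k => (k : β → ℂ))
  have hvinj : Function.Injective v := by
    rintro (i | k) (i' | k') h
    · exact congrArg Sum.inl (hli.injective h)
    · exact absurd ⟨i, h⟩ k'.2.2
    · exact absurd ⟨i', h.symm⟩ k.2.2
    · exact congrArg Sum.inr (Subtype.ext h)
  have hvrange : Set.range v = b := by
    rw [Set.Sum.elim_range, Subtype.range_coe]
    exact Set.union_sdiff_cancel hb1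
  have hvli : LinearIndependent ℝ v := by
    have h1 : LinearIndepOn ℝ id (Set.range v) := by
      rw [hvrange]
      exact hb4
    exact (linearIndepOn_id_range_iff hvinj).1 h1
  have hcard : Fintype.card F + Fintype.card K = 2 * Fintype.card β := by
    have h1 := linearIndependent_iff_card_eq_finrank_span.1 hvli
    rw [Set.finrank, hvrange, hbtop, finrank_top, finrank_eq, Fintype.card_sum] at h1
    exact h1
  have hKs : ∀ k : K, ∃ i, s i = k := by
    intro k
    rcases hb2 k.2.1 with h | h
    · exact absurd h k.2.2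
    · exact h
  have hvΛ : ∀ r, v r ∈ Λ := by
    rintro (i | k)
    · exact hu' i
    · obtain ⟨i, hi⟩ := hKs k
      change (k : β → ℂ) ∈ Λ
      rw [← hi]
      exact hs i
  -- the enumeration of the coordinates
  obtain ⟨σ, hσ⟩ : ∃ σ : F ⊕ K ≃ β ⊕ β, ∀ f : F, σ (Sum.inl f) = Sum.inl (f : β) := by
    let c : F → β ⊕ β := fun f => Sum.inl (f : β)
    have hc : Function.Injective c := fun f f' h => Subtype.ext (Sum.inl_injective h)
    have e1 : Fintype.card K = Fintype.card ((Set.range c)ᶜ : Set (β ⊕ β)) := by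
      rw [Fintype.card_compl_set, Set.card_range_of_injective hc, Fintype.card_sum]
      omega
    let e2 := Fintype.equivOfCardEq e1
    let e3 : F ≃ Set.range c := Equiv.ofInjective c hc
    refine ⟨(Equiv.sumCongr e3 e2).trans (Equiv.Set.sumCompl (Set.range c)), fun f => ?_⟩
    rfl
  have hmain := det_le_of_int e v σ hvli fun r => hΛ _ (hvΛ r)
  refine hmain.trans ?_
  -- the block structure
  have hblock : (RM v).submatrix id σ = Matrix.fromBlocks
      (Matrix.of fun i f : F => x i f * I f) 0
      (Matrix.of fun (k : K) (f : F) => RM v (Sum.inr k) (σ (Sum.inl f)))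
      (Matrix.of fun (k k' : K) => RM v (Sum.inr k) (σ (Sum.inr k'))) := by
    ext r c
    rcases r with i | k <;> rcases c with f | k'
    · rw [Matrix.fromBlocks_apply₁₁, Matrix.submatrix_apply, hσ]
      exact hure i f
    · rw [Matrix.fromBlocks_apply₁₂, Matrix.submatrix_apply, Matrix.zero_apply]
      have h1 : ∀ y, σ (Sum.inr k') = y → RM v (Sum.inl i) y = 0 := by
        rintro (f | f) hy
        · have hf : f ∉ F := by
            intro hf
            have h2 := hσ ⟨f, hf⟩
            rw [← hy] at h2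
            exact absurd (σ.injective h2) (by simp)
          change (u i f).re = 0
          rw [hu0 i f hf]
          rfl
        · exact huim i f
      exact h1 _ rfl
    · rfl
    · rfl
  rw [hblock, Matrix.det_fromBlocks_zero₁₂, hX]
  have habs : ∀ {m : Type _} [Fintype m] [DecidableEq m] (A : Matrix m m ℝ)
      (_ : ∀ i j, |A i j| ≤ H), |A.det| ≤ ((Fintype.card m).factorial : ℝ) * H ^ Fintype.card m := by
    intro m _ _ A hA
    have h1 := Matrix.det_le (A := A) (abv := (IsAbsoluteValue.toAbsoluteValue (abs : ℝ → ℝ)))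
      (x := H) hA
    rw [nsmul_eq_mul] at h1
    exact h1
  have hW : |(Matrix.of fun (k k' : K) => RM v (Sum.inr k) (σ (Sum.inr k'))).det| ≤
      ((Fintype.card K).factorial : ℝ) * H ^ Fintype.card K := by
    refine habs _ fun k k' => ?_
    obtain ⟨i, hi⟩ := hKs k
    have h1 : ∀ y, |RM v (Sum.inr k) y| ≤ H := by
      rintro (f | f)
      · change |((k : β → ℂ) f).re| ≤ H
        rw [← hi]
        exact (Complex.abs_re_le_norm _).trans (hsH i f)
      · change |((k : β → ℂ) f).im| ≤ H
        rw [← hi]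
        exact (Complex.abs_im_le_norm _).trans (hsH i f)
    exact h1 _
  have hx' : |(Matrix.of x).det| ≤ ((Fintype.card F).factorial : ℝ) * H ^ Fintype.card F :=
    habs _ fun i j => hxH i j
  have hprod : |∏ f : F, I f| = ∏ f ∈ F, |I f| := by
    rw [Finset.abs_prod, Finset.prod_coe_sort F (fun f => |I f|)]
  rw [abs_mul, abs_mul, hprod]
  have hH0 : (0 : ℝ) ≤ H := le_trans zero_le_one hH
  have hP0 : 0 ≤ ∏ f ∈ F, |I f| := Finset.prod_nonneg fun f _ => abs_nonneg _
  have hfac : (((Fintype.card F).factorial : ℝ)) * ((Fintype.card K).factorial : ℝ) ≤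
      ((2 * Fintype.card β : ℕ) : ℝ) ^ (2 * Fintype.card β) := by
    have h1 : (Fintype.card F).factorial * (Fintype.card K).factorial ≤
        (2 * Fintype.card β) ^ (2 * Fintype.card β) := by
      refine le_trans (Nat.le_of_dvd (Nat.factorial_pos _)
        (Nat.factorial_mul_factorial_dvd_factorial_add _ _)) ?_
      rw [hcard]
      exact Nat.factorial_le_pow _
    exact_mod_cast h1
  calc |(Matrix.of x).det| * (∏ f ∈ F, |I f|) *
        |(Matrix.of fun (k k' : K) => RM v (Sum.inr k) (σ (Sum.inr k'))).det|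
      ≤ (((Fintype.card F).factorial : ℝ) * H ^ Fintype.card F) * (∏ f ∈ F, |I f|) *
        (((Fintype.card K).factorial : ℝ) * H ^ Fintype.card K) := by
        gcongr
    _ = (((Fintype.card F).factorial : ℝ)) * ((Fintype.card K).factorial : ℝ) *
        H ^ (2 * Fintype.card β) * ∏ f ∈ F, |I f| := by
        rw [← hcard, pow_add]
        ring
    _ ≤ _ := by
        gcongr

end Pool.Agent.K4H13.CV
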