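import Pool.Agent.Y18.BSD.Bv
import Pool.Agent.Y18.BSD.Per

/-!
# Project CV: the boundary values of the primitives of all the forms at the same time
-/

set_option autoImplicit false

open Complex Filter Topology Set UpperHalfPlane MatrixGroups CongruenceSubgroup

namespace Pool.Agent.K4H13.CV

open Pool.Agent.TH940 (prim prim_deriv Fr prim_fricke Pers prim_near prim_line)
open Pool.Agent.Y18.BSD

variable {N : ℕ} [NeZero N]

abbrev Cf2 (N : ℕ) : Type := CuspForm (Gamma0 N : Subgroup (GL (Fin 2) ℝ)) 2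

/-- the value of `prim` near the cusp `u / q`, with a period which is explicit -/
lemma near (q : ℕ) [NeZero q] (u v d : ℤ) (hd : q * d - N * u * v = 1) :
    ∃ γ : Gamma0 N, ∀ (f : Cf2 N) (ε c0 : ℂ),
      (∀ z : ℂ, 0 < z.im → prim f (-1 / (N * z)) = c0 - ε * prim f z) →
      ∀ T : ℝ, 0 < T → prim f ((u : ℂ) / q + (1 / (N * q ^ 2 * T) : ℝ) * Complex.I) =
      c0 + per f γ - ε * prim f ((v : ℂ) / q + (T : ℂ) * Complex.I) := by
  have hq : (q : ℂ) ≠ 0 := Nat.cast_ne_zero.2 (NeZero.ne q)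
  have hq0 : (0 : ℝ) < q := Nat.cast_pos.2 (Nat.pos_of_ne_zero (NeZero.ne q))
  have hN : (0 : ℝ) < N := Nat.cast_pos.2 (Nat.pos_of_ne_zero (NeZero.ne N))
  have hNc : (N : ℂ) ≠ 0 := Nat.cast_ne_zero.2 (NeZero.ne N)
  let γ : SL(2, ℤ) := ⟨!![(q : ℤ), -u; -(N : ℤ) * v, d], by
    rw [Matrix.det_fin_two_of]; linarith⟩
  have hγ : γ ∈ Gamma0 N := by
    rw [Gamma0_mem]
    simp [γ]
  have hγi : γ⁻¹ ∈ Gamma0 N := inv_mem hγ
  refine ⟨⟨γ⁻¹, hγi⟩, fun f ε c0 hc0 T hT => ?_⟩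
  have hω2 : ∀ z : ℍ, prim f ((γ⁻¹ • z : ℍ) : ℂ) = prim f (z : ℂ) + per f ⟨γ⁻¹, hγi⟩ :=
    fun z => per_spec f ⟨γ⁻¹, hγi⟩ z
  have hTc : (T : ℂ) ≠ 0 := Complex.ofReal_ne_zero.2 hT.ne'
  set z : ℍ := ⟨(u : ℂ) / q + (1 / (N * q ^ 2 * T) : ℝ) * Complex.I, by
    have : 0 < 1 / (N * (q : ℝ) ^ 2 * T) := by positivity
    simp only [Complex.add_im, Complex.mul_im, Complex.ofReal_re, Complex.I_im, Complex.ofReal_im,
      Complex.I_re]
    have h2 : ((u : ℂ) / q).im = 0 := by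
      rw [show ((u : ℂ) / q) = (((u : ℝ) / (q : ℝ) : ℝ) : ℂ) by push_cast; rfl]
      exact Complex.ofReal_im _
    rw [h2]
    simpa using this⟩ with hz
  have hzc : (z : ℂ) = (u : ℂ) / q + (1 / (N * q ^ 2 * T) : ℝ) * Complex.I := rfl
  set z' : ℂ := (v : ℂ) / q + (T : ℂ) * Complex.I with hz'
  have hz'im : z'.im = T := by
    rw [hz', show ((v : ℂ) / q) = (((v : ℝ) / (q : ℝ) : ℝ) : ℂ) by push_cast; rfl]
    simp
  have hz'0 : z' ≠ 0 := by
    intro h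
    rw [h] at hz'im
    simp at hz'im
    linarith
  have hdc : (q : ℂ) * (d : ℂ) - (N : ℂ) * (u : ℂ) * (v : ℂ) = 1 := by exact_mod_cast hd
  have hD : denom (γ : GL (Fin 2) ℝ) z = -(N : ℂ) * v * z + d := by
    rw [ModularGroup.denom_apply]
    simp [γ]
  have hnum : num (γ : GL (Fin 2) ℝ) z = (q : ℂ) * z - u := by
    have h00 : (γ 0 0 : ℤ) = q := by simp [γ]
    have h01 : (γ 0 1 : ℤ) = -u := by simp [γ]
    show ((((Matrix.SpecialLinearGroup.map (Int.castRingHom ℝ)) γ) 0 0 : ℝ) : ℂ) * z +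
      ((((Matrix.SpecialLinearGroup.map (Int.castRingHom ℝ)) γ) 0 1 : ℝ) : ℂ) = _
    rw [Matrix.SpecialLinearGroup.map_apply_coe, RingHom.mapMatrix_apply, Matrix.map_apply,
      Matrix.map_apply, h00, h01]
    simp
    ring
  have hD0 : denom (γ : GL (Fin 2) ℝ) z ≠ 0 := denom_ne_zero _ _
  have hact : ((γ • z : ℍ) : ℂ) = num (γ : GL (Fin 2) ℝ) z / denom (γ : GL (Fin 2) ℝ) z := by
    rw [ModularGroup.sl_moeb]
    exact coe_smul_of_det_pos (by simp) z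
  have hprod : ((γ • z : ℍ) : ℂ) = -1 / (N * z') := by
    rw [hact, div_eq_div_iff hD0 (mul_ne_zero hNc hz'0), hnum, hD, hzc, hz']
    push_cast
    have hI : Complex.I ^ 2 = -1 := Complex.I_sq
    have e : ((q : ℂ) * (u / q + 1 / (N * q ^ 2 * T) * Complex.I) - u) *
        (N * (v / q + T * Complex.I)) -
        -1 * (-(N : ℂ) * v * (u / q + 1 / (N * q ^ 2 * T) * Complex.I) + d) =
        (Complex.I ^ 2 + 1) / q + ((q : ℂ) * (d : ℂ) - (N : ℂ) * (u : ℂ) * (v : ℂ) - 1) / q := by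
      field_simp
      ring
    rw [hI, hdc] at e
    have e2 : ((-1 : ℂ) + 1) / q + (1 - 1) / q = 0 := by norm_num
    rw [e2] at e
    exact sub_eq_zero.1 e
  have h1 := hω2 (γ • z)
  rw [inv_smul_smul, hprod, hc0 z' (by rw [hz'im]; exact hT)] at h1
  rw [← hzc, h1]
  ring

/-- the boundary values, with a period which is explicit -/
lemma bv_near (r : ℚ) (hr : r.den.Coprime N) : ∃ γ : Gamma0 N, ∀ (f : Cf2 N) (ε c0 : ℂ),
    Fr f ε → (∀ z : ℂ, 0 < z.im → prim f (-1 / (N * z)) = c0 - ε * prim f z) →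
    bv f r = c0 + per f γ := by
  set q := r.den with hq
  have : NeZero q := ⟨r.den_nz⟩
  have hq0 : (0 : ℝ) < q := Nat.cast_pos.2 (Nat.pos_of_ne_zero (NeZero.ne q))
  have hN0 : (0 : ℝ) < N := Nat.cast_pos.2 (Nat.pos_of_ne_zero (NeZero.ne N))
  obtain ⟨v, d, hvd⟩ : ∃ v d : ℤ, q * d - N * r.num * v = 1 := by
    have h1 : IsCoprime (q : ℤ) (N : ℤ) := Nat.isCoprime_iff_coprime.2 hr
    have h2 : IsCoprime (q : ℤ) r.num := by
      have := r.reduced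
      rw [Int.isCoprime_iff_gcd_eq_one, Int.gcd_comm]
      exact this
    obtain ⟨a, b, hab⟩ := h1.mul_right h2
    exact ⟨-b, a, by linarith⟩
  obtain ⟨γ, h⟩ := near (N := N) q r.num v d hvd
  refine ⟨γ, fun f ε c0 hfr hc0 => ?_⟩
  have hT : Tendsto (fun y : ℝ => (N * (q : ℝ) ^ 2)⁻¹ * y⁻¹) (𝓝[>] 0) atTop :=
    (tendsto_inv_nhdsGT_zero).const_mul_atTop (by positivity)
  have h1 := (prim_line f ((v : ℝ) / q)).comp hT
  have h2 : Tendsto (fun y : ℝ => c0 + per f γ - ε * prim f ((((v : ℝ) / q : ℝ) : ℂ) +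
      (((N * (q : ℝ) ^ 2)⁻¹ * y⁻¹ : ℝ) : ℂ) * Complex.I)) (𝓝[>] 0) (𝓝 (c0 + per f γ - ε * 0)) :=
    (h1.const_mul _).const_sub _
  rw [mul_zero, sub_zero] at h2
  refine tendsto_nhds_unique (bv_tendsto f hfr r hr) (h2.congr' ?_)
  filter_upwards [self_mem_nhdsWithin] with y (hy : 0 < y)
  have h3 := h f ε c0 hc0 ((N * (q : ℝ) ^ 2)⁻¹ * y⁻¹) (by positivity)
  have e1 : (1 / (N * (q : ℝ) ^ 2 * ((N * (q : ℝ) ^ 2)⁻¹ * y⁻¹))) = y := by
    field_simp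
  rw [e1] at h3
  have e2 : ((r.num : ℂ) / (q : ℂ)) = (r : ℂ) := by
    rw [hq]
    exact_mod_cast congrArg (fun x : ℚ => (x : ℂ)) (Rat.num_div_den r)
  rw [e2] at h3
  rw [h3]
  push_cast
  rfl

lemma prim_zero_tendsto (f : Cf2 N) {ε c0 : ℂ}
    (hc0 : ∀ z : ℂ, 0 < z.im → prim f (-1 / (N * z)) = c0 - ε * prim f z) (hf : Fr f ε) :
    bv f 0 = c0 := by
  have hN0 : (0 : ℝ) < N := Nat.cast_pos.2 (Nat.pos_of_ne_zero (NeZero.ne N))
  have hNc : (N : ℂ) ≠ 0 := Nat.cast_ne_zero.2 (NeZero.ne N)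
  have h1 := bv_tendsto f hf 0 (by simp)
  have hT : Tendsto (fun y : ℝ => (N : ℝ)⁻¹ * y⁻¹) (𝓝[>] 0) atTop :=
    (tendsto_inv_nhdsGT_zero).const_mul_atTop (by positivity)
  have h2 := (((prim_line f 0).comp hT).const_mul ε).const_sub c0
  rw [mul_zero, sub_zero] at h2
  refine tendsto_nhds_unique h1 (h2.congr' ?_)
  filter_upwards [self_mem_nhdsWithin] with y (hy : 0 < y)
  have hyc : (y : ℂ) ≠ 0 := Complex.ofReal_ne_zero.2 hy.ne'
  have h3 := hc0 ((((N : ℝ)⁻¹ * y⁻¹ : ℝ) : ℂ) * Complex.I) (by simp; positivity)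
  simp only [Function.comp_apply, Complex.ofReal_zero, zero_add]
  rw [← h3]
  congr 1
  push_cast
  have : (N : ℂ) * ((N : ℂ)⁻¹ * (y : ℂ)⁻¹ * Complex.I) = (y : ℂ)⁻¹ * Complex.I := by
    field_simp
  rw [this, div_eq_iff (by simp [hyc])]
  have hI : Complex.I * Complex.I = -1 := Complex.I_mul_I
  field_simp
  linear_combination -(y : ℂ) * hI

/-- **the differences of the boundary values are periods, for all forms at the same time** -/
theorem bv_sub (r r' : ℚ) (hr : r.den.Coprime N) (hr' : r'.den.Coprime N) :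
    ∃ γ : Gamma0 N, ∀ (f : Cf2 N) (ε : ℂ), Fr f ε → bv f r - bv f r' = per f γ := by
  obtain ⟨γ, h⟩ := bv_near (N := N) r hr
  obtain ⟨γ', h'⟩ := bv_near (N := N) r' hr'
  refine ⟨γ * γ'⁻¹, fun f ε hf => ?_⟩
  obtain ⟨c0, hc0⟩ := prim_fricke f ε hf
  rw [h f ε c0 hf hc0, h' f ε c0 hf hc0, per_mul]
  have h1 := per_mul f γ' γ'⁻¹
  have h2 := per_mul f 1 1
  rw [mul_one] at h2
  have h3 : per f 1 = 0 := by simpa using h2
  rw [mul_inv_cancel, h3] at h1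
  linear_combination h1

end Pool.Agent.K4H13.CV
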