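import Pool.Agent.K4H13.CV.Near
import Pool.Agent.W388.LV.Final

/-!
# Project CV: statements of the pieces
-/

set_option autoImplicit false

open Complex Filter Topology Set UpperHalfPlane MatrixGroups CongruenceSubgroup

namespace Pool.Agent.K4H13.CV

open Pool.Agent.TH940 (Fr)

/-- generators of `Γ₀(N)` with small entries -/
def S_GEN : Prop := ∀ (N : ℕ), N.Prime → ∃ δ : Fin (N + 2) → Gamma0 N,
  (∀ i, |((δ i : SL(2, ℤ)) 1 0 : ℤ)| ≤ (N : ℤ) ^ 2) ∧ Subgroup.closure (Set.range δ) = ⊤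

/-- every orbit of `Γ₀(N)` and the Fricke involution has a point with `Im z ≥ √3/(2N)` -/
def S_RED : Prop := ∀ (N : ℕ) [NeZero N], N.Prime → ∀ (h : Cf2 N) (ε : ℂ), ‖ε‖ = 1 → Fr h ε →
  ∀ z : ℍ, ∃ z' : ℍ, 1 / (2 * (N : ℝ)) ≤ z'.im ∧ ‖h z'‖ * z'.im = ‖h z‖ * z.im

/-- a Sturm bound -/
def S_STURM : Prop := ∀ (N : ℕ) [NeZero N], N.Prime → ∀ (h : Cf2 N) (ε : ℂ), ‖ε‖ = 1 → Fr h ε →
  (∀ n : ℕ, n ≤ 100 * N ^ 2 → (qExpansion 1 h).coeff n = 0) → h = 0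

/-- `a(2) ≠ 3` -/
def S_TWO : Prop := ∀ (N : ℕ) [NeZero N], N.Prime → N ≠ 2 → ∀ (f : Cf2 N) (ε : ℝ),
  W388.IsNewf N 2 f ε → (qExpansion 1 f).coeff 2 ≠ 3

/-- `a(N) = ε` -/
def S_AN : Prop := ∀ (N : ℕ) [NeZero N], N.Prime → ∀ (f : Cf2 N) (ε : ℝ),
  W388.IsNewf N 2 f ε → (qExpansion 1 f).coeff N = (ε : ℂ)

/-- coefficient bound -/
def S_COEF : Prop := ∀ (N : ℕ) [NeZero N], N.Prime → ∀ (f : Cf2 N) (ε : ℝ),
  W388.IsNewf N 2 f ε → ∀ n : ℕ, ‖(qExpansion 1 f).coeff n‖ ≤ (n : ℝ) ^ 2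

end Pool.Agent.K4H13.CV
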