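import Pool.Agent.K4H13.CV.Stm2

/-!
# Project CV, part 4: at least a positive proportion of the newforms is even (statements)
-/

set_option autoImplicit false

open Complex Filter Topology Set UpperHalfPlane MatrixGroups CongruenceSubgroup MeasureTheory
open scoped Manifold ModularForm

namespace Pool.Agent.K4H13.CV

open Pool.Agent.TH940 (prim Fr)
open Pool.Agent.Y18.BSD
open W388.LV (SF bf pet IsNewBasis)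

/-- a hyperbolic disc with centre `z` as a subset of `ℝ × ℝ` -/
def EE (z : ℂ) (ρ : ℝ) : Set (ℝ × ℝ) := {p | 0 < p.2 ∧
  ‖((p.1 : ℂ) + (p.2 : ℂ) * Complex.I) - z‖ <
    ρ * ‖((p.1 : ℂ) + (p.2 : ℂ) * Complex.I) - (starRingEnd ℂ) z‖}

/-- a hyperbolic disc with centre `z` -/
def InE (z : ℍ) (ρ : ℝ) (u : ℍ) : Prop :=
  ‖(u : ℂ) - (z : ℂ)‖ < ρ * ‖(u : ℂ) - (starRingEnd ℂ) (z : ℂ)‖

/-- `h | g_x` -/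
noncomputable def hx {N : ℕ} (h : Cf2 N) (x : XX N) (p : ℝ × ℝ) : ℂ :=
  ((h : ℍ → ℂ) ∣[(2 : ℤ)] gx x) (ofComplex ((p.1 : ℂ) + (p.2 : ℂ) * Complex.I))

/-- the truncated fundamental domain -/
def DY (Y : ℝ) : Set ℍ := {z | |z.re| ≤ 1 / 2 ∧ 1 ≤ z.re ^ 2 + z.im ^ 2 ∧ z.im ≤ Y}

/-- MEAN : the mean value inequality -/
def S_MEAN : Prop := ∀ (h : ℂ → ℂ), DifferentiableOn ℂ h {u | 0 < u.im} → ∀ (z : ℂ) (ρ : ℝ),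
  0 < z.im → 0 < ρ → ρ < 1 →
  4 * Real.pi * ρ ^ 2 * z.im ^ 2 * ‖h z‖ ^ 2 ≤
    ∫ p in EE z ρ, ‖h ((p.1 : ℂ) + (p.2 : ℂ) * Complex.I)‖ ^ 2

/-- UNF : unfolding with multiplicity `m` -/
def S_UNF : Prop := ∀ (N : ℕ) [NeZero N] (h : Cf2 N) (x : XX N) (z : ℍ) (ρ : ℝ) (m : ℕ), 0 < ρ →
  ρ < 1 → {δ : SL(2, ℤ) | δ • x = x ∧ ∃ u : ℍ, InE z ρ u ∧ InE z ρ (δ • u)}.Finite →
  {δ : SL(2, ℤ) | δ • x = x ∧ ∃ u : ℍ, InE z ρ u ∧ InE z ρ (δ • u)}.ncard ≤ 2 * m →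
  ∫ p in EE z ρ, ‖hx h x p‖ ^ 2 ≤ m * (pet N 2 h h).re

/-- the element `γ W` of the Fricke coset moves `u` into the disc -/
def Bad2 (N : ℕ) (x : XX N) (z : ℍ) (ρ : ℝ) : Prop := ∃ γ ∈ Gamma0 N, ∃ u τ : ℍ, InE z ρ u ∧
  (τ : ℂ) * ((N : ℂ) * ((gx x • u : ℍ) : ℂ)) = -1 ∧ InE z ρ ((gx x)⁻¹ • γ • τ)

/-- UNF2 : unfolding for eigenforms of the Fricke involution, on good discs -/
def S_UNF2 : Prop := ∀ (N : ℕ) [NeZero N], N.Prime → ∀ (h : Cf2 N) (ε : ℂ), ‖ε‖ = 1 → Fr h ε →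
  ∀ (x : XX N) (z : ℍ) (ρ : ℝ), 0 < ρ → ρ < 1 →
  (∀ δ : SL(2, ℤ), δ • x = x → (∃ u : ℍ, InE z ρ u ∧ InE z ρ (δ • u)) → δ = 1 ∨ δ = -1) →
  ¬ Bad2 N x z ρ →
  2 * ∫ p in EE z ρ, ‖hx h x p‖ ^ 2 ≤ (pet N 2 h h).re

/-- BD : matrices which do not move a disc away have bounded entries -/
def S_BD : Prop := ∀ (Y ρ : ℝ), 0 < ρ → ρ < 1 → ∃ C : ℝ, 0 < C ∧ ∀ z ∈ DY Y, ∀ u u' : ℍ,
  InE z ρ u → InE z ρ u' → ∀ a b c d : ℝ, 0 < a * d - b * c →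
  (a : ℂ) * (u : ℂ) + b = (u' : ℂ) * ((c : ℂ) * (u : ℂ) + d) →
  |a| ≤ C * Real.sqrt (a * d - b * c) ∧ |b| ≤ C * Real.sqrt (a * d - b * c) ∧
  |c| ≤ C * Real.sqrt (a * d - b * c) ∧ |d| ≤ C * Real.sqrt (a * d - b * c)

/-- FIX2 : an element of `SL(2,ℤ)` other than `±1` has at most two fixed points -/
def S_FIX2 : Prop := ∀ δ : SL(2, ℤ), δ ≠ 1 → δ ≠ -1 → ∃ N0 : ℕ, ∀ (N : ℕ) [NeZero N], N.Prime →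
  N0 ≤ N → {x : XX N | δ • x = x}.ncard ≤ 2

/-- CNT : few integral matrices of trace zero and determinant `N` -/
def S_CNT : Prop := ∀ C κ : ℝ, 0 < C → 0 < κ → ∃ N0 : ℕ, ∀ N : ℕ, N0 ≤ N →
  ({t : ℤ × ℤ × ℤ | t.1 ^ 2 + t.2.1 * t.2.2 = -(N : ℤ) ∧ |(t.1 : ℝ)| ≤ C * Real.sqrt N ∧
    |(t.2.1 : ℝ)| ≤ C * Real.sqrt N ∧ |(t.2.2 : ℝ)| ≤ C * Real.sqrt N}.ncard : ℝ) ≤ κ * N

/-- CNT2 : few discs are close to their image under the Fricke coset -/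
def S_CNT2 : Prop := ∀ (Y ρ κ : ℝ), 0 < ρ → ρ < 1 → 0 < κ → ∃ N0 : ℕ, ∀ (N : ℕ) [NeZero N],
  N.Prime → N0 ≤ N → ({x : XX N | ∃ z ∈ DY Y, Bad2 N x z ρ}.ncard : ℝ) ≤ κ * N

/-- CUSPP : the contribution of the cusps -/
def S_CUSPP : Prop := ∀ (N : ℕ) [NeZero N], N.Prime → ∀ B : Finset (Cf2 N), IsNewBasis N 2 B →
  ∀ Y : ℝ, 1 < Y →
  ∑ f ∈ B, (∑' x : XX N, ∫ p in {p : ℝ × ℝ | |p.1| ≤ 1 / 2 ∧ 1 ≤ p.1 ^ 2 + p.2 ^ 2 ∧ Y < p.2},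
    ‖hx f x p‖ ^ 2) / (pet N 2 f f).re ≤ N / (2 * Real.pi * (Y - 1))

/-- HALF : a positive proportion of the newforms is even -/
def S_HALF : Prop := ∃ c : ℝ, 0 < c ∧ ∃ N0 : ℕ, ∀ (N : ℕ) [NeZero N], N.Prime → N0 ≤ N →
  ∀ B : Finset (Cf2 N), IsNewBasis N 2 B →
  c * (B.card : ℝ) ≤ (({f : Cf2 N | f ∈ B ∧ W388.IsNewf N 2 f 1}.ncard : ℕ) : ℝ)

end Pool.Agent.K4H13.CV
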