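import Pool.Agent.K4H13.CV.Mem
import Pool.Agent.W388.LV.D0
import Pool.Agent.Y18.BSD.Lf

/-!
# Project CV: real twists, statements
-/

set_option autoImplicit false

open Complex Filter Topology Set UpperHalfPlane MatrixGroups CongruenceSubgroup

namespace Pool.Agent.K4H13.CV

open Pool.Agent.Y18.BSD
open W388.LV (SF bf pet IsNewBasis)

/-- the twisted symbol: `g(χ) L(1/2, f ⊗ χ)` for real `χ` -/
noncomputable def JX {N : ℕ} [NeZero N] (f : Cf2 N) {q : ℕ} [NeZero q]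
    (χ : DirichletCharacter ℂ q) : ℂ :=
  ∑ u : (ZMod q)ˣ, χ (u : ZMod q) * bv f (((u : ZMod q).val : ℚ) / q)

/-- TWI : independence for both signs -/
def S_TWI : Prop := ∀ (N : ℕ) [NeZero N], N.Prime → ∀ B : Finset (Cf2 N), IsNewBasis N 2 B →
  ∀ (F : Finset B) (s : ℝ), (∀ f ∈ F, W388.IsNewf N 2 f.1 s) → ∀ w : F → ℝ,
  (∀ n ∈ {n : ℕ | n ≤ 100 * N ^ 2 ∧ n.Coprime N}, ∑ f : F, w f * (co f.1.1 n).re = 0) → w = 0

/-- TWM : the Hecke translates of the twisted symbol are periods -/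
def S_TWM : Prop := ∀ (N : ℕ) [NeZero N], N.Prime → ∀ B : Finset (Cf2 N),
  (∀ f ∈ B, ∃ ε : ℝ, W388.IsNewf N 2 f ε) → ∀ (q : ℕ) [NeZero q], q.Coprime N →
  ∀ χ : DirichletCharacter ℂ q, χ.IsQuadratic → χ ≠ 1 → ∀ n : ℕ, n.Coprime N →
  (fun f : B => co f.1 n * JX f.1 χ) ∈ LL B

/-- TWR : reality -/
def S_TWR : Prop := ∀ (N : ℕ) [NeZero N], N.Prime → ∀ (f : Cf2 N) (ε : ℝ), W388.IsNewf N 2 f ε →
  ∀ (q : ℕ) [NeZero q], q.Coprime N → ∀ χ : DirichletCharacter ℂ q, χ.IsQuadratic → χ ≠ 1 →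
  (χ (-1) = 1 → (JX f χ).im = 0) ∧ (χ (-1) = -1 → (JX f χ).re = 0)

/-- TWS : the sign -/
def S_TWS : Prop := ∀ (N : ℕ) [NeZero N], N.Prime → ∀ (f : Cf2 N) (ε : ℝ), W388.IsNewf N 2 f ε →
  ∀ (q : ℕ) [NeZero q], q.Coprime N → ∀ χ : DirichletCharacter ℂ q, χ.IsQuadratic → χ ≠ 1 →
  JX f χ ≠ 0 → (ε : ℂ) = χ (-(N : ZMod q))

/-- TWB : a bound -/
def S_TWB : Prop := ∀ (N : ℕ) [NeZero N], N.Prime → ∀ (f : Cf2 N) (ε : ℝ), W388.IsNewf N 2 f ε →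
  ∀ (q : ℕ) [NeZero q], q.Coprime N → ∀ χ : DirichletCharacter ℂ q, χ.IsQuadratic → χ ≠ 1 →
  ‖JX f χ‖ ≤ 100 * ((q : ℝ) * N) ^ 4

end Pool.Agent.K4H13.CV
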