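import Pool.Agent.K4H13.CV.Tw0
import Pool.Agent.K4H13.CV.Bd
import Pool.Agent.K4H13.CV.Coef

/-!
# Project CV: real twists, the sign and a bound
-/

set_option autoImplicit false

open Complex Filter Topology Set UpperHalfPlane MatrixGroups CongruenceSubgroup

namespace Pool.Agent.K4H13.CV

open Pool.Agent.TH940 (prim prim_deriv Fr prim_fricke Pers prim_near prim_line exp_norm)
open Pool.Agent.Y18.BSD

variable {N : ℕ} [NeZero N]

lemma bv_near2 {f : Cf2 N} {ε : ℝ} (hf : W388.IsNewf N 2 f ε) {q : ℕ} [NeZero q]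
    (hq : q.Coprime N) (u v d : ℤ) (hd : q * d - N * u * v = 1) :
    bv f ((u : ℚ) / q) = ε * bv f ((v : ℚ) / q) ∧ ∀ T : ℝ, 0 < T → bv f ((u : ℚ) / q) =
      prim f ((u : ℂ) / q + (1 / (N * q ^ 2 * T) : ℝ) * Complex.I) +
      ε * prim f ((v : ℂ) / q + (T : ℂ) * Complex.I) := by
  have hq0 : (0 : ℝ) < q := Nat.cast_pos.2 (Nat.pos_of_ne_zero (NeZero.ne q))
  have hN0 : (0 : ℝ) < N := Nat.cast_pos.2 (Nat.pos_of_ne_zero (NeZero.ne N))
  have hfr := newf_fr hf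
  obtain ⟨c0, hc0⟩ := prim_fricke f ε hfr
  obtain ⟨ω, -, h⟩ := prim_near f ε hc0 (pers_PG f) u v d hd
  have hden : ∀ w : ℤ, ((w : ℚ) / q).den.Coprime N := by
    intro w
    rw [den_iff]
    refine ⟨q, hq, w, ?_⟩
    have : (q : ℚ) ≠ 0 := by exact_mod_cast NeZero.ne q
    field_simp
  have hT : Tendsto (fun y : ℝ => (N * (q : ℝ) ^ 2)⁻¹ * y⁻¹) (𝓝[>] 0) atTop :=
    (tendsto_inv_nhdsGT_zero).const_mul_atTop (by positivity)
  -- the value at `u / q`
  have hu : bv f ((u : ℚ) / q) = c0 + ω := by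
    have h1 := (prim_line f ((v : ℝ) / q)).comp hT
    have h2 : Tendsto (fun y : ℝ => c0 + ω - ε * prim f ((((v : ℝ) / q : ℝ) : ℂ) +
        (((N * (q : ℝ) ^ 2)⁻¹ * y⁻¹ : ℝ) : ℂ) * Complex.I)) (𝓝[>] 0) (𝓝 (c0 + ω - ε * 0)) :=
      (h1.const_mul _).const_sub _
    rw [mul_zero, sub_zero] at h2
    refine tendsto_nhds_unique (bv_tendsto f hfr _ (hden u)) (h2.congr' ?_)
    filter_upwards [self_mem_nhdsWithin] with y (hy : 0 < y)
    have h3 := h ((N * (q : ℝ) ^ 2)⁻¹ * y⁻¹) (by positivity)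
    have e1 : (1 / (N * (q : ℝ) ^ 2 * ((N * (q : ℝ) ^ 2)⁻¹ * y⁻¹))) = y := by
      field_simp
    rw [e1] at h3
    push_cast at h3 ⊢
    rw [h3]
  have hv : (ε : ℂ) * bv f ((v : ℚ) / q) = c0 + ω := by
    have h1 := (prim_line f ((u : ℝ) / q)).comp hT
    have h2 := ((bv_tendsto f hfr _ (hden v)).const_mul (ε : ℂ)).const_sub (c0 + ω)
    have h3 := tendsto_nhds_unique h1 (h2.congr' ?_)
    · linear_combination h3
    filter_upwards [self_mem_nhdsWithin] with y (hy : 0 < y)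
    have h3 := h y hy
    have e1 : (1 / (N * (q : ℝ) ^ 2 * y)) = (N * (q : ℝ) ^ 2)⁻¹ * y⁻¹ := by
      rw [one_div, mul_inv]
    rw [e1] at h3
    simp only [Function.comp_apply]
    push_cast at h3 ⊢
    rw [h3]
  refine ⟨by rw [hu, hv], fun T hT => ?_⟩
  rw [hu, h T hT]
  ring

/-- the inverse class -/
noncomputable def vv {q : ℕ} [NeZero q] (n u : (ZMod q)ˣ) : (ZMod q)ˣ := -(n * u)⁻¹

lemma vv_vv {q : ℕ} [NeZero q] (n u : (ZMod q)ˣ) : vv n (vv n u) = u := by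
  unfold vv
  rw [mul_neg, mul_inv, mul_inv_cancel_left, inv_neg, neg_neg, inv_inv]

lemma exists_v {q : ℕ} [NeZero q] (n : (ZMod q)ˣ) (hn : (n : ZMod q) = (N : ZMod q))
    (u : (ZMod q)ˣ) : ∃ d : ℤ, q * d - N * ((u : ZMod q).val : ℤ) * ((vv n u : ZMod q).val : ℤ) = 1 := by
  have h : ((1 + N * ((u : ZMod q).val : ℤ) * (((vv n u : (ZMod q)ˣ) : ZMod q).val : ℤ) : ℤ) : ZMod q) = 0 := by
    have h2 : (n : ZMod q) * u * ((vv n u : (ZMod q)ˣ) : ZMod q) = -1 := by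
      rw [← Units.val_mul, ← Units.val_mul]
      unfold vv
      rw [mul_neg, mul_inv_cancel, Units.val_neg, Units.val_one]
    push_cast
    rw [ZMod.natCast_zmod_val, ZMod.natCast_zmod_val, ← hn, h2]
    ring
  obtain ⟨d, hd⟩ := (ZMod.intCast_zmod_eq_zero_iff_dvd _ q).1 h
  exact ⟨d, by linarith⟩

lemma quad_sq {q : ℕ} [NeZero q] {χ : DirichletCharacter ℂ q} (h : χ.IsQuadratic) (u : (ZMod q)ˣ) :
    χ (u : ZMod q) * χ (u : ZMod q) = 1 := by
  have h1 : χ (u : ZMod q) ≠ 0 := by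
    have := (u.isUnit.map χ).ne_zero
    exact this
  rcases h (u : ZMod q) with h2 | h2 | h2
  · exact absurd h2 h1
  · rw [h2]; norm_num
  · rw [h2]; norm_num

theorem tws : S_TWS := by
  intro N _ hN f ε hf q _ hq χ hχ hχ1 hJ
  set n : (ZMod q)ˣ := ZMod.unitOfCoprime N hq.symm with hn
  have hnv : (n : ZMod q) = (N : ZMod q) := ZMod.coe_unitOfCoprime N hq.symm
  have key : ∀ u : (ZMod q)ˣ, bv f (((u : ZMod q).val : ℚ) / q) =
      ε * bv f ((((vv n u : (ZMod q)ˣ) : ZMod q).val : ℚ) / q) := by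
    intro u
    obtain ⟨d, hd⟩ := exists_v n hnv u
    have := (bv_near2 hf hq _ _ d hd).1
    push_cast at this
    exact this
  have hchi : ∀ u : (ZMod q)ˣ, χ (u : ZMod q) = χ (-(N : ZMod q)) * χ ((vv n u : (ZMod q)ˣ) : ZMod q) := by
    intro u
    have h1 : χ (-(N : ZMod q)) * χ ((vv n u : (ZMod q)ˣ) : ZMod q) * χ (u : ZMod q) = 1 := by
      rw [← map_mul, ← map_mul, ← hnv]
      have : (-(n : ZMod q)) * ((vv n u : (ZMod q)ˣ) : ZMod q) * (u : ZMod q) = 1 := by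
        have h2 : (-n) * vv n u * u = 1 := by
          unfold vv
          rw [neg_mul_neg, mul_inv, mul_inv_cancel_left, inv_mul_cancel]
        have := congrArg (Units.val) h2
        simpa using this
      rw [this, map_one]
    have h2 := quad_sq hχ u
    calc χ (u : ZMod q) = (χ (-(N : ZMod q)) * χ ((vv n u : (ZMod q)ˣ) : ZMod q) * χ (u : ZMod q)) *
        χ (u : ZMod q) := by rw [h1, one_mul]
      _ = χ (-(N : ZMod q)) * χ ((vv n u : (ZMod q)ˣ) : ZMod q) * (χ (u : ZMod q) * χ (u : ZMod q)) := by ring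
      _ = _ := by rw [h2, mul_one]
  have hJe : JX f χ = ε * χ (-(N : ZMod q)) * JX f χ := by
    conv_lhs => unfold JX
    have h3 : ∀ u : (ZMod q)ˣ, χ (u : ZMod q) * bv f (((u : ZMod q).val : ℚ) / q) =
        (ε * χ (-(N : ZMod q))) * (χ ((vv n u : (ZMod q)ˣ) : ZMod q) *
          bv f ((((vv n u : (ZMod q)ˣ) : ZMod q).val : ℚ) / q)) := by
      intro u
      rw [key u, hchi u]
      ring
    rw [Finset.sum_congr rfl fun u _ => h3 u, ← Finset.mul_sum]
    congr 1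
    unfold JX
    exact Fintype.sum_bijective (vv n) (Function.Involutive.bijective (vv_vv n)) _ _ (fun u => rfl)
  have h4 : (ε : ℂ) * χ (-(N : ZMod q)) = 1 := by
    have h5 : (1 - (ε : ℂ) * χ (-(N : ZMod q))) * JX f χ = 0 := by linear_combination hJe
    rcases mul_eq_zero.1 h5 with h6 | h6
    · linear_combination -h6
    · exact absurd h6 hJ
  have h7 : (ε : ℂ) * ε = 1 := by
    rcases hf.sign with h | h <;> rw [h] <;> norm_num
  linear_combination (-(ε : ℂ)) * h4 + χ (-(N : ZMod q)) * h7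

theorem twb : S_TWB := by
  intro N _ hN f ε hf q _ hq χ hχ hχ1
  have hc := coef N hN f ε hf
  have hq1 : (1 : ℝ) ≤ q := by exact_mod_cast Nat.pos_of_ne_zero (NeZero.ne q)
  have hN1 : (1 : ℝ) ≤ N := by exact_mod_cast Nat.pos_of_ne_zero (NeZero.ne N)
  have hs : 1 ≤ Real.sqrt N := by rw [Real.one_le_sqrt]; exact hN1
  have hs2 : Real.sqrt N ^ 2 = N := Real.sq_sqrt (by linarith)
  set n : (ZMod q)ˣ := ZMod.unitOfCoprime N hq.symm with hn
  have hnv : (n : ZMod q) = (N : ZMod q) := ZMod.coe_unitOfCoprime N hq.symm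
  set T : ℝ := 1 / (q * Real.sqrt N) with hT
  have hT0 : 0 < T := by positivity
  have key : ∀ u : (ZMod q)ˣ, ‖bv f (((u : ZMod q).val : ℚ) / q)‖ ≤ 8 * (q ^ 2 * N) := by
    intro u
    obtain ⟨d, hd⟩ := exists_v n hnv u
    have h1 := (bv_near2 hf hq _ _ d hd).2 T hT0
    have e1 : (1 / (N * (q : ℝ) ^ 2 * T)) = T := by
      rw [hT]
      field_simp
      rw [hs2]
    rw [e1] at h1
    push_cast at h1
    rw [h1]
    have him : ∀ x : ℕ, ((x : ℂ) / q + (T : ℂ) * Complex.I).im = T := by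
      intro x
      have : ((x : ℂ) / q).im = 0 := by
        rw [show ((x : ℂ) / q) = (((x : ℝ) / q : ℝ) : ℂ) by push_cast; rfl]
        exact Complex.ofReal_im _
      rw [Complex.add_im, this, Complex.im_ofReal_mul, Complex.I_im, mul_one, zero_add]
    have hb : ∀ x : ℕ, ‖prim f ((x : ℂ) / q + (T : ℂ) * Complex.I)‖ ≤ 4 * (q ^ 2 * N) := by
      intro x
      have h2 := prim_bd f hc ((x : ℂ) / q + (T : ℂ) * Complex.I) (by rw [him]; exact hT0)
      rw [him] at h2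
      have h3 : 1 + 1 / T ≤ 2 * (q * Real.sqrt N) := by
        rw [hT, one_div_one_div]
        nlinarith
      calc _ ≤ _ := h2
        _ ≤ (2 * (q * Real.sqrt N)) ^ 2 := by
          gcongr
        _ = 4 * (q ^ 2 * Real.sqrt N ^ 2) := by ring
        _ = _ := by rw [hs2]
    have hε : ‖(ε : ℂ)‖ = 1 := by
      rcases hf.sign with h | h <;> rw [h] <;> norm_num
    calc _ ≤ _ := norm_add_le _ _
      _ ≤ 4 * (q ^ 2 * N) + 1 * (4 * (q ^ 2 * N)) := by
        rw [norm_mul, hε]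
        gcongr
        · exact hb _
        · exact hb _
      _ = _ := by ring
  have hcard : (Fintype.card (ZMod q)ˣ : ℝ) ≤ q := by
    rw [ZMod.card_units_eq_totient]
    exact_mod_cast Nat.totient_le q
  calc ‖JX f χ‖ ≤ ∑ u : (ZMod q)ˣ, ‖χ (u : ZMod q) * bv f (((u : ZMod q).val : ℚ) / q)‖ :=
        norm_sum_le _ _
    _ ≤ ∑ u : (ZMod q)ˣ, 8 * ((q : ℝ) ^ 2 * N) := by
        refine Finset.sum_le_sum fun u _ => ?_
        rw [norm_mul]
        have h1 := DirichletCharacter.norm_le_one χ (u : ZMod q)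
        calc _ ≤ 1 * (8 * ((q : ℝ) ^ 2 * N)) := mul_le_mul h1 (key u) (norm_nonneg _) (by norm_num)
          _ = _ := one_mul _
    _ = Fintype.card (ZMod q)ˣ * (8 * ((q : ℝ) ^ 2 * N)) := by
        rw [Finset.sum_const, nsmul_eq_mul, Finset.card_univ]
    _ ≤ q * (8 * ((q : ℝ) ^ 2 * N)) := by gcongr
    _ = 8 * ((q : ℝ) ^ 3 * N) := by ring
    _ ≤ 100 * ((q : ℝ) * N) ^ 4 := by
        have h1 : (q : ℝ) ^ 3 ≤ q ^ 4 := pow_le_pow_right₀ hq1 (by norm_num)
        have h2 : (N : ℝ) ≤ N ^ 4 := by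
          calc (N : ℝ) = N ^ 1 := (pow_one _).symm
            _ ≤ N ^ 4 := pow_le_pow_right₀ hN1 (by norm_num)
        have h3 : (q : ℝ) ^ 3 * N ≤ q ^ 4 * N ^ 4 := by gcongr
        rw [mul_pow]
        have h4 : 0 ≤ (q : ℝ) ^ 4 * N ^ 4 := by positivity
        linarith

end Pool.Agent.K4H13.CV
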